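import Mathlib

/-!
# INV5, definitions

Words, characters, data in Jordan form. All letters of a word are normalised so that the nilpotent
operator `ℓ` is the standard shift `Sh`.
-/

namespace Pool.Agent.INV5

open Matrix Polynomial

/-- characters: pairs of eigenvalues -/
abbrev Lam : Type := ℂˣ × ℂˣ

section coinvariants

variable {J : Type*} [Fintype J]

/-- span of the images of a family of matrices -/
noncomputable def img {κ : Type*} (Z : κ → Matrix J J ℂ) : Submodule ℂ (J → ℂ) :=
  ⨆ r, LinearMap.range (Z r).mulVecLin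

/-- number of coinvariants of a family of matrices -/
noncomputable def ck {κ : Type*} (Z : κ → Matrix J J ℂ) : ℕ :=
  Module.finrank ℂ ((J → ℂ) ⧸ img Z)

/-- number of invariants of a family of matrices -/
noncomputable def ik {κ : Type*} (Z : κ → Matrix J J ℂ) : ℕ :=
  Module.finrank ℂ (⨅ r, LinearMap.ker (Z r).mulVecLin : Submodule ℂ (J → ℂ))

/-- restriction of a family of matrices to a subset of the index set -/
def rs {κ J : Type*} (Z : κ → Matrix J J ℂ) (p : J → Prop) (r : κ) : Matrix {i // p i} {i // p i} ℂ :=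
  (Z r).submatrix Subtype.val Subtype.val

end coinvariants

section words

variable {N : ℕ} {I : Fin N → Type}

/-- the matrix `z` acting on the letter number `m` of a word -/
noncomputable def At [∀ m, DecidableEq (I m)] (m : Fin N) (z : Matrix (I m) (I m) ℂ) :
    Matrix (∀ m, I m) (∀ m, I m) ℂ :=
  fun p q => if ∀ m', m' ≠ m → p m' = q m' then z (p m) (q m) else 0

/-- derivation: sum over the letters -/
noncomputable def Tot [∀ m, DecidableEq (I m)] (z : ∀ m, Matrix (I m) (I m) ℂ) :
    Matrix (∀ m, I m) (∀ m, I m) ℂ :=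
  ∑ m, At m (z m)

/-- tensor product of matrices -/
noncomputable def Kr (z : ∀ m, Matrix (I m) (I m) ℂ) : Matrix (∀ m, I m) (∀ m, I m) ℂ :=
  fun p q => ∏ m, z m (p m) (q m)

/-- words of total character one -/
abbrev One (c : ∀ m, I m → Lam) : Type := {p : ∀ m, I m // ∏ m, c m (p m) = 1}

/-- restriction of a matrix to the words of total character one -/
def res (c : ∀ m, I m → Lam) (Z : Matrix (∀ m, I m) (∀ m, I m) ℂ) : Matrix (One c) (One c) ℂ :=
  Z.submatrix Subtype.val Subtype.val

/-- extension of a permutation of the covector letters -/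
def ext {e : ℕ} (σ : Equiv.Perm (Fin e)) (m : Fin (e + 1)) : Fin (e + 1) :=
  Fin.lastCases (Fin.last e) (fun i => (σ i).castSucc) m

/-- permutation of the covector letters: `e_q ↦ e_(q ∘ ext σ)` -/
noncomputable def PW {e : ℕ} {X : Type} [DecidableEq X] (σ : Equiv.Perm (Fin e)) :
    Matrix (Fin (e + 1) → X) (Fin (e + 1) → X) ℂ :=
  fun p q => if p = fun m => q (ext σ m) then 1 else 0

end words

section letters

variable {β : Type} [DecidableEq β]

/-- index set of a letter with blocks of sizes `b` -/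
abbrev Idx (b : β → ℕ) : Type := Σ a, Fin (b a)

/-- the shift: `e (a, p) ↦ e (a, p + 1)` -/
def Sh (b : β → ℕ) : Matrix (Idx b) (Idx b) ℂ :=
  fun i k => if i.1 = k.1 ∧ (i.2 : ℕ) = (k.2 : ℕ) + 1 then 1 else 0

/-- the matrix commuting with the shift given by a matrix of polynomials -/
noncomputable def ymat (b : β → ℕ) (P : Matrix β β ℂ[X]) : Matrix (Idx b) (Idx b) ℂ :=
  fun i k => if (k.2 : ℕ) ≤ (i.2 : ℕ) then (P i.1 k.1).coeff ((i.2 : ℕ) - (k.2 : ℕ)) else 0

/-- the transposed matrix in the reversed basis with signs `(-1) ^ p` -/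
def rvs (b : β → ℕ) (z : Matrix (Idx b) (Idx b) ℂ) : Matrix (Idx b) (Idx b) ℂ :=
  fun i k => (-1) ^ ((i.2 : ℕ) + (k.2 : ℕ)) * z ⟨k.1, k.2.rev⟩ ⟨i.1, i.2.rev⟩

end letters

section letterwords

variable {N : ℕ} {β : Type} [Fintype β] [DecidableEq β]

/-- labels of the letters of sizes `s m` -/
def cw (c : Fin N → β → Lam) (s : Fin N → β → ℕ) (m : Fin N) (i : Idx (s m)) : Lam := c m i.1

/-- tuples of blocks of total label one -/
abbrev Tup (c : Fin N → β → Lam) : Type := {α : Fin N → β // ∏ m, c m (α m) = 1}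

/-- `ℓ` on words whose letter number `m` has blocks of sizes `s m` -/
noncomputable def WL (c : Fin N → β → Lam) (s : Fin N → β → ℕ) :
    Matrix (One (cw c s)) (One (cw c s)) ℂ :=
  res (cw c s) (Tot fun m => Sh (s m))

/-- `y` on words, given by matrices of polynomials -/
noncomputable def WY (c : Fin N → β → Lam) (s : Fin N → β → ℕ) (Q : Fin N → Matrix β β ℂ[X]) :
    Matrix (One (cw c s)) (One (cw c s)) ℂ :=
  res (cw c s) (Tot fun m => ymat (s m) (Q m))

/-- coinvariants of `(ℓ, y)` on words -/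
noncomputable def ckw (c : Fin N → β → Lam) (s : Fin N → β → ℕ) (Q : Fin N → Matrix β β ℂ[X]) : ℕ :=
  ck ![WL c s, WY c s Q]

/-- the matrices of polynomials `Q` define operators on the letters of sizes `s` -/
def Div (s : Fin N → β → ℕ) (Q : Fin N → Matrix β β ℂ[X]) : Prop :=
  ∀ m a a' d, d + s m a' < s m a → (Q m a a').coeff d = 0

/-- the matrices of polynomials `Q` respect the labels -/
def Lab (c : Fin N → β → Lam) (Q : Fin N → Matrix β β ℂ[X]) : Prop :=
  ∀ m a a', Q m a a' ≠ 0 → c m a = c m a'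

end letterwords

/-- Data in Jordan form: blocks `β` with sizes `b` and characters `χ`, a matrix `y` commuting with
the shift, and an involution `t` inverting both and the characters. -/
structure JD where
  /-- the blocks -/
  β : Type
  /-- finiteness -/
  fin : Fintype β
  /-- decidability -/
  dec : DecidableEq β
  /-- sizes -/
  b : β → ℕ
  /-- characters -/
  χ : β → Lam
  /-- the second nilpotent -/
  y : Matrix (Idx b) (Idx b) ℂ
  /-- the involution -/
  t : Matrix (Idx b) (Idx b) ℂ
  hb : ∀ a, 0 < b a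
  hy : ∀ i k, y i k ≠ 0 → χ i.1 = χ k.1
  ht : ∀ i k, t i k ≠ 0 → χ i.1 * χ k.1 = 1
  comm : Sh b * y = y * Sh b
  ynil : IsNilpotent y
  tt : t * t = 1
  tS : t * Sh b = - (Sh b * t)
  ty : t * y = - (y * t)

namespace JD

attribute [instance] JD.fin JD.dec

variable (D : JD)

/-- dimension -/
def n : ℕ := Fintype.card (Idx D.b)

/-- labels of the blocks: `e` covector letters, one vector letter (the last one) -/
def cb (e : ℕ) (m : Fin (e + 1)) (a : D.β) : Lam := if m = Fin.last e then D.χ a else (D.χ a)⁻¹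

/-- labels of the letters -/
def c (e : ℕ) : ∀ m : Fin (e + 1), Idx D.b → Lam := cw (D.cb e) fun _ => D.b

/-- words with `e` covector letters and one vector letter -/
abbrev J (e : ℕ) : Type := One (D.c e)

/-- the second nilpotent on the letters -/
noncomputable def z (e : ℕ) (m : Fin (e + 1)) : Matrix (Idx D.b) (Idx D.b) ℂ :=
  if m = Fin.last e then D.y else - rvs D.b D.y

/-- the involution on the letters -/
noncomputable def τ (e : ℕ) (m : Fin (e + 1)) : Matrix (Idx D.b) (Idx D.b) ℂ :=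
  if m = Fin.last e then D.t else rvs D.b D.t

/-- `ℓ` on words -/
noncomputable def LL (e : ℕ) : Matrix (D.J e) (D.J e) ℂ := res (D.c e) (Tot fun _ => Sh D.b)

/-- `y` on words -/
noncomputable def YY (e : ℕ) : Matrix (D.J e) (D.J e) ℂ := res (D.c e) (Tot (D.z e))

/-- `T` on words -/
noncomputable def TT (e : ℕ) : Matrix (D.J e) (D.J e) ℂ := res (D.c e) (Kr (D.τ e))

/-- permutation of the covector letters on words -/
noncomputable def PP (e : ℕ) (σ : Equiv.Perm (Fin e)) : Matrix (D.J e) (D.J e) ℂ :=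
  res (D.c e) (PW σ)

/-- the operator `Sh ^ k` on the letter `m` -/
noncomputable def AA1 (e : ℕ) (m : Fin (e + 1)) (k : ℕ) : Matrix (D.J e) (D.J e) ℂ :=
  res (D.c e) (At m (Sh D.b ^ k))

/-- `ℓ`, `y` and the symmetric group -/
noncomputable def ZS (e : ℕ) : Fin 2 ⊕ Equiv.Perm (Fin e) → Matrix (D.J e) (D.J e) ℂ :=
  Sum.elim ![D.LL e, D.YY e] fun σ => 1 - D.PP e σ

/-- `ℓ`, `y`, `T` and the symmetric group -/
noncomputable def ZG (e : ℕ) : Fin 3 ⊕ Equiv.Perm (Fin e) → Matrix (D.J e) (D.J e) ℂ :=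
  Sum.elim ![D.LL e, D.YY e, 1 - D.TT e] fun σ => 1 - D.PP e σ

/-- coinvariants of the full group (with the symmetric group) in degree `e` -/
noncomputable def cpl (e : ℕ) : ℕ := ck (D.ZG e)

/-- coinvariants of `(ℓ, y)` on words -/
noncomputable def h0 (e : ℕ) : ℕ := ck ![D.LL e, D.YY e]

/-- invariants of `(ℓ, y)` on words -/
noncomputable def hi (e : ℕ) : ℕ := ik ![D.LL e, D.YY e]

/-- number of `8`-tuples of blocks of size about `2 ^ i` and total character one -/
noncomputable def tau (i : ℕ) : ℕ :=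
  Fintype.card {α : Fin 8 → D.β // (∀ m, Nat.log 2 (D.b (α m)) = i) ∧ ∏ m, D.χ (α m) = 1}

/-- the main quantity -/
noncomputable def AA : ℕ := (Finset.range (D.n + 1)).sup fun i => 2 ^ (6 * i) * D.tau i

/-- the norm of a weight -/
noncomputable def nrm (u : D.β → ℝ) : ℝ :=
  (∑ α : {α : Fin 8 → D.β // ∏ m, D.χ (α m) = 1}, ∏ m, u (α.1 m)) ^ ((1 : ℝ) / 8)

/-- the norm of a weight which depends on the size -/
noncomputable def nw (w : ℕ → ℝ) : ℝ := D.nrm fun a => w (D.b a)

/-- symmetric weights -/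
def Sy (u : D.β → ℝ) : Prop := ∀ μ : Lam, ∑ a with D.χ a = μ, u a = ∑ a with D.χ a = μ⁻¹, u a

end JD

/-- `(l, y)` is good modulo `N` -/
def Good {W : Type*} [AddCommGroup W] [Module ℂ W] (l y : Module.End ℂ W) (N : Submodule ℂ W) :
    Prop :=
  ∀ (s : ℕ) (v : W), (l ^ (s + 1)) v ∈ N → ∃ w, (l ^ s) (y v) - (l ^ (s + 1)) w ∈ N

/-- the common kernel of `ℓ` and `y` on `V` -/
noncomputable def JD.soc (D : JD) : Submodule ℂ (Idx D.b → ℂ) :=
  LinearMap.ker (Sh D.b).mulVecLin ⊓ LinearMap.ker D.y.mulVecLin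

/-- the pencil element `ℓ` is generic -/
structure JD.Gen (D : JD) : Prop where
  w : Good (D.LL 7).mulVecLin (D.YY 7).mulVecLin ⊥
  v : Good (Sh D.b).mulVecLin D.y.mulVecLin ⊥
  q : Good (Sh D.b).mulVecLin D.y.mulVecLin D.soc

/-! ### words of the original representation -/

section gw

variable {n : ℕ}

/-- the matrix of `A` on words with `e` covector letters and one vector letter (the last one) -/
noncomputable def GW (e : ℕ) (A : Matrix (Fin n) (Fin n) ℂ) :
    Matrix (Fin (e + 1) → Fin n) (Fin (e + 1) → Fin n) ℂ :=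
  Kr fun m => if m = Fin.last e then A else (A⁻¹)ᵀ

/-- coinvariants of the group and of the symmetric group on words -/
noncomputable def cplus (n e : ℕ) (T : Fin 4 → Matrix (Fin n) (Fin n) ℂ) : ℕ :=
  ck (Sum.elim (fun k => 1 - GW e (T k)) fun σ : Equiv.Perm (Fin e) => 1 - PW σ)

/-- coinvariants of `(A, C)` on words -/
noncomputable def hz (n e : ℕ) (A C : Matrix (Fin n) (Fin n) ℂ) : ℕ := ck ![GW e A - 1, GW e C - 1]

/-- invariants of `(A, C)` on words -/
noncomputable def hv (n e : ℕ) (A C : Matrix (Fin n) (Fin n) ℂ) : ℕ := ik ![GW e A - 1, GW e C - 1]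

end gw

/-! ### matrices over tuples of long blocks -/

section long

variable (D : JD)

/-- tuples of long blocks -/
abbrev JD.JL (p : ℕ) : Type := {α : Fin 7 → {a : D.β // p < D.b a} // ∏ m, D.cb 6 m (α m).1 = 1}

/-- the sum of the matrices `Q m` on the line `X m = g m * τ` -/
noncomputable def JD.Dc (p : ℕ) (Q : Fin 7 → Matrix D.β D.β ℂ[X]) (g : Fin 7 → ℂ) :
    Matrix (D.JL p) (D.JL p) ℂ[X] :=
  fun α α' => ∑ m, if ∀ m', m' ≠ m → α.1 m' = α'.1 m' then
    (Q m (α.1 m).1 (α'.1 m).1).comp (C (g m) * X) else 0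

/-- `Q'` is dual to `Q` -/
def Dual {β : Type} (b : β → ℕ) (Q Q' : Matrix β β ℂ[X]) : Prop :=
  ∀ a a', Q' a a' * (-X) ^ b a' = - (-X) ^ b a * (Q a' a).comp (-X)

end long

end Pool.Agent.INV5
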