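import Pool.Agent.INV5.Defs

/-!
# INV5, module WO1: coinvariants of families of matrices (general linear algebra)

`img Z` is the span of the ranges, `ck Z` the dimension of the quotient by it, `ik Z` the dimension
of the common kernel, `rs Z p` the restriction of a family to the coordinates with `p`.

Proofs.
* `ck_le_of_surj`: `F` induces a surjection of the quotients (`Submodule.mapQ`,
  `LinearMap.finrank_le_finrank_of_surjective` or the like).
* `ck_mono`: the case `F = id`.
* `ck_split`: the coordinate subspace of `p` is stable. Restriction to the coordinates `¬ p` is a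
  surjection `ck Z → ck (rs Z ¬p)` whose kernel is the image of the coordinate subspace of `p`, and
  this image is a quotient of the coinvariants of `rs Z p`.
* `ck_quot`: `ck_le_of_surj` for the restriction to the coordinates with `¬ p`.
* `ck_sum`: direct sum of two stable coordinate subspaces.
* `ck_le_card`: the classes of the basis vectors of `S` span the quotient.
* `ck_nil`: if `h` commutes with all `Z r` and `h ^ N` maps into `img Z`, then on the quotient `Q` one
  has `h ^ N = 0`, hence `dim Q ≤ N * dim (Q / h Q)` (filtration by `h ^ i Q`).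
* `ik_eq`: the common kernel of the `Z r` is the annihilator of the span of the ranges of the
  transposed matrices (dot product), so the dimension is the codimension of the span.
* `ik_single`: rank-nullity for a square matrix.
* `ck_reindex`: change of the index set.
-/

namespace Pool.Agent.INV5

open Matrix

variable {J J' κ κ' : Type*} [Fintype J] [Fintype J']

theorem mem_img (Z : κ → Matrix J J ℂ) (r : κ) (v : J → ℂ) : (Z r).mulVec v ∈ img Z :=
  Submodule.mem_iSup_of_mem r ⟨v, rfl⟩

theorem img_le (Z : κ → Matrix J J ℂ) (N : Submodule ℂ (J → ℂ)) (h : ∀ r v, (Z r).mulVec v ∈ N) :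
    img Z ≤ N := by
  refine iSup_le fun r => ?_
  rintro _ ⟨v, rfl⟩
  exact h r v

private theorem wo1_finrank_le_of_surj {U V : Type*} [AddCommGroup U] [Module ℂ U]
    [AddCommGroup V] [Module ℂ V] [FiniteDimensional ℂ U] (f : U →ₗ[ℂ] V)
    (hf : Function.Surjective f) : Module.finrank ℂ V ≤ Module.finrank ℂ U := by
  have h1 := LinearMap.finrank_range_le f
  rw [LinearMap.range_eq_top.2 hf, finrank_top] at h1
  exact h1

private theorem wo1_exact {U V W : Type*} [AddCommGroup U] [Module ℂ U]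
    [AddCommGroup V] [Module ℂ V] [AddCommGroup W] [Module ℂ W] [FiniteDimensional ℂ U]
    [FiniteDimensional ℂ V] [FiniteDimensional ℂ W] (f : U →ₗ[ℂ] V) (g : V →ₗ[ℂ] W)
    (h : LinearMap.ker g ≤ LinearMap.range f) :
    Module.finrank ℂ V ≤ Module.finrank ℂ U + Module.finrank ℂ W := by
  have h1 := LinearMap.finrank_range_add_finrank_ker g
  have h2 : Module.finrank ℂ (LinearMap.ker g) ≤ Module.finrank ℂ (LinearMap.range f) :=
    Submodule.finrank_mono h
  have h3 := LinearMap.finrank_range_le f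
  have h4 : Module.finrank ℂ (LinearMap.range g) ≤ Module.finrank ℂ W :=
    Submodule.finrank_le _
  omega

theorem ck_le_of_surj (F : (J → ℂ) →ₗ[ℂ] (J' → ℂ)) (hF : Function.Surjective F)
    (Z : κ → Matrix J J ℂ) (Z' : κ' → Matrix J' J' ℂ)
    (h : ∀ r v, F ((Z r).mulVec v) ∈ img Z') : ck Z' ≤ ck Z := by
  have h1 : img Z ≤ (img Z').comap F := img_le Z _ fun r v => h r v
  refine wo1_finrank_le_of_surj ((img Z).mapQ (img Z') F h1) ?_
  intro x
  obtain ⟨y, rfl⟩ := (img Z').mkQ_surjective x
  obtain ⟨z, rfl⟩ := hF y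
  exact ⟨(img Z).mkQ z, by simp [Submodule.mapQ_apply]⟩

theorem ck_mono (Z : κ → Matrix J J ℂ) (Z' : κ' → Matrix J J ℂ)
    (h : ∀ r v, (Z r).mulVec v ∈ img Z') : ck Z' ≤ ck Z :=
  ck_le_of_surj LinearMap.id Function.surjective_id Z Z' h

/-- restriction to the coordinates with `p` -/
private def wo1_res (p : J → Prop) : (J → ℂ) →ₗ[ℂ] ({i // p i} → ℂ) :=
  LinearMap.funLeft ℂ ℂ Subtype.val

/-- extension by zero -/
private noncomputable def wo1_ext (p : J → Prop) [DecidablePred p] :
    ({i // p i} → ℂ) →ₗ[ℂ] (J → ℂ) where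
  toFun u := fun i => if h : p i then u ⟨i, h⟩ else 0
  map_add' u v := by
    funext i
    by_cases h : p i <;> simp [h]
  map_smul' a v := by
    funext i
    by_cases h : p i <;> simp [h]

private theorem wo1_ext_pos (p : J → Prop) [DecidablePred p] (u : {i // p i} → ℂ) (i : J)
    (h : p i) : wo1_ext p u i = u ⟨i, h⟩ := by
  simp [wo1_ext, h]

private theorem wo1_ext_neg (p : J → Prop) [DecidablePred p] (u : {i // p i} → ℂ) (i : J)
    (h : ¬ p i) : wo1_ext p u i = 0 := by
  simp [wo1_ext, h]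

private theorem wo1_res_apply (p : J → Prop) (v : J → ℂ) (i : {i // p i}) :
    wo1_res p v i = v i.1 := rfl

private theorem wo1_res_ext (p : J → Prop) [DecidablePred p] (u : {i // p i} → ℂ) :
    wo1_res p (wo1_ext p u) = u := by
  funext i
  rw [wo1_res_apply, wo1_ext_pos p u i.1 i.2]

private theorem wo1_res_surj (p : J → Prop) [DecidablePred p] :
    Function.Surjective (wo1_res p : (J → ℂ) →ₗ[ℂ] ({i // p i} → ℂ)) :=
  fun u => ⟨wo1_ext p u, wo1_res_ext p u⟩

private theorem wo1_sum (p : J → Prop) [DecidablePred p] (f : J → ℂ) (h : ∀ k, ¬ p k → f k = 0) :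
    ∑ k, f k = ∑ k : {i // p i}, f k.1 := by
  rw [← Fintype.sum_subtype_add_sum_subtype p f]
  have : ∑ i : {x // ¬ p x}, f i.1 = 0 := Finset.sum_eq_zero fun i _ => h i.1 i.2
  rw [this, add_zero]

/-- restriction commutes with the matrices when the other coordinates do not contribute -/
private theorem wo1_res_mulVec (Z : κ → Matrix J J ℂ) (p : J → Prop) [DecidablePred p]
    (r : κ) (v : J → ℂ) (h : ∀ i k, p i → ¬ p k → Z r i k * v k = 0) :
    wo1_res p ((Z r).mulVec v) = (rs Z p r).mulVec (wo1_res p v) := by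
  funext i
  rw [wo1_res_apply]
  simp only [Matrix.mulVec, dotProduct]
  rw [wo1_sum p _ fun k hk => h i.1 k i.2 hk]
  rfl

private theorem wo1_split_aux (Z : κ → Matrix J J ℂ) (p : J → Prop) [DecidablePred p]
    (h : ∀ r i k, p k → ¬ p i → Z r i k = 0) (r : κ) (v : J → ℂ) :
    wo1_res (fun i => ¬ p i) ((Z r).mulVec v)
      = (rs Z (fun i => ¬ p i) r).mulVec (wo1_res (fun i => ¬ p i) v) :=
  wo1_res_mulVec Z (fun i => ¬ p i) r v fun i k hi hk => by
    rw [h r i k (not_not.1 hk) hi, zero_mul]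

theorem ck_split (Z : κ → Matrix J J ℂ) (p : J → Prop) [DecidablePred p]
    (h : ∀ r i k, p k → ¬ p i → Z r i k = 0) :
    ck Z ≤ ck (rs Z p) + ck (rs Z fun i => ¬ p i) := by
  have h1 : img (rs Z p) ≤ (img Z).comap (wo1_ext p) := by
    refine img_le _ _ fun r u => ?_
    rw [Submodule.mem_comap]
    have e : wo1_ext p ((rs Z p r).mulVec u) = (Z r).mulVec (wo1_ext p u) := by
      funext i
      by_cases hi : p i
      · rw [wo1_ext_pos p _ i hi]
        simp only [Matrix.mulVec, dotProduct]
        rw [wo1_sum p _ fun k hk => by rw [wo1_ext_neg p u k hk, mul_zero]]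
        refine Finset.sum_congr rfl fun k _ => ?_
        rw [wo1_ext_pos p u k.1 k.2]
        rfl
      · rw [wo1_ext_neg p _ i hi]
        simp only [Matrix.mulVec, dotProduct]
        symm
        refine Finset.sum_eq_zero fun k _ => ?_
        by_cases hk : p k
        · rw [h r i k hk hi, zero_mul]
        · rw [wo1_ext_neg p u k hk, mul_zero]
    rw [e]
    exact mem_img Z r _
  have h2 : img Z ≤ (img (rs Z fun i => ¬ p i)).comap (wo1_res fun i => ¬ p i) := by
    refine img_le _ _ fun r v => ?_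
    rw [Submodule.mem_comap, wo1_split_aux Z p h r v]
    exact mem_img _ r _
  refine wo1_exact ((img (rs Z p)).mapQ (img Z) (wo1_ext p) h1)
    ((img Z).mapQ (img (rs Z fun i => ¬ p i)) (wo1_res fun i => ¬ p i) h2) ?_
  intro x hx
  obtain ⟨v, rfl⟩ := (img Z).mkQ_surjective x
  rw [LinearMap.mem_ker, Submodule.mkQ_apply, Submodule.mapQ_apply,
    Submodule.Quotient.mk_eq_zero] at hx
  have h3 : img (rs Z fun i => ¬ p i) ≤ (img Z).map (wo1_res fun i => ¬ p i) := by
    refine img_le _ _ fun r u => ?_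
    refine ⟨(Z r).mulVec (wo1_ext (fun i => ¬ p i) u), mem_img Z r _, ?_⟩
    rw [wo1_split_aux Z p h r, wo1_res_ext]
  obtain ⟨w, hw, hwv⟩ := h3 hx
  refine ⟨(img (rs Z p)).mkQ (wo1_res p (v - w)), ?_⟩
  rw [Submodule.mkQ_apply, Submodule.mapQ_apply, Submodule.mkQ_apply, Submodule.Quotient.eq]
  have e : wo1_ext p (wo1_res p (v - w)) = v - w := by
    funext i
    by_cases hi : p i
    · rw [wo1_ext_pos p _ i hi, wo1_res_apply]
    · rw [wo1_ext_neg p _ i hi]
      have := congrFun hwv ⟨i, hi⟩
      rw [wo1_res_apply, wo1_res_apply] at this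
      simp only [Pi.sub_apply]
      rw [this, sub_self]
  rw [e]
  have : v - w - v = - w := by abel
  rw [this]
  exact (img Z).neg_mem hw

theorem ck_quot (Z : κ → Matrix J J ℂ) (p : J → Prop) [DecidablePred p]
    (h : ∀ r i k, p k → ¬ p i → Z r i k = 0) : ck (rs Z fun i => ¬ p i) ≤ ck Z := by
  refine ck_le_of_surj (wo1_res fun i => ¬ p i) (wo1_res_surj _) Z _ fun r v => ?_
  rw [wo1_split_aux Z p h r v]
  exact mem_img _ r _

theorem ck_sum (Z : κ → Matrix J J ℂ) (p : J → Prop) [DecidablePred p]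
    (h : ∀ r i k, Z r i k ≠ 0 → (p i ↔ p k)) :
    ck Z = ck (rs Z p) + ck (rs Z fun i => ¬ p i) := by
  have h0 : ∀ r i k, p k → ¬ p i → Z r i k = 0 := fun r i k hk hi => by
    by_contra hz
    exact hi ((h r i k hz).2 hk)
  refine le_antisymm (ck_split Z p h0) ?_
  have e : ck (rs Z p) + ck (rs Z fun i => ¬ p i)
      = Module.finrank ℂ ((({i // p i} → ℂ) ⧸ img (rs Z p)) ×
        (({i // ¬ p i} → ℂ) ⧸ img (rs Z fun i => ¬ p i))) := by
    rw [Module.finrank_prod]
    rfl
  rw [e]
  set F : (J → ℂ) →ₗ[ℂ] ((({i // p i} → ℂ) ⧸ img (rs Z p)) ×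
        (({i // ¬ p i} → ℂ) ⧸ img (rs Z fun i => ¬ p i))) :=
    ((img (rs Z p)).mkQ.comp (wo1_res p)).prod
      ((img (rs Z fun i => ¬ p i)).mkQ.comp (wo1_res fun i => ¬ p i)) with hF
  have hk : img Z ≤ LinearMap.ker F := by
    refine img_le _ _ fun r v => ?_
    rw [LinearMap.mem_ker, hF]
    refine Prod.ext ?_ ?_
    · change (img (rs Z p)).mkQ (wo1_res p ((Z r).mulVec v)) = 0
      rw [wo1_res_mulVec Z p r v fun i k hi hk => by
        have : Z r i k = 0 := by
          by_contra hz
          exact hk ((h r i k hz).1 hi)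
        rw [this, zero_mul], Submodule.mkQ_apply, Submodule.Quotient.mk_eq_zero]
      exact mem_img _ r _
    · change (img (rs Z fun i => ¬ p i)).mkQ (wo1_res (fun i => ¬ p i) ((Z r).mulVec v)) = 0
      rw [wo1_split_aux Z p h0 r v, Submodule.mkQ_apply, Submodule.Quotient.mk_eq_zero]
      exact mem_img _ r _
  refine wo1_finrank_le_of_surj ((img Z).liftQ F hk) ?_
  rintro ⟨x, y⟩
  obtain ⟨u, rfl⟩ := (img (rs Z p)).mkQ_surjective x
  obtain ⟨w, rfl⟩ := (img (rs Z fun i => ¬ p i)).mkQ_surjective y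
  refine ⟨(img Z).mkQ (wo1_ext p u + wo1_ext (fun i => ¬ p i) w), ?_⟩
  rw [Submodule.mkQ_apply, Submodule.liftQ_apply, hF]
  refine Prod.ext ?_ ?_
  · change (img (rs Z p)).mkQ (wo1_res p (wo1_ext p u + wo1_ext (fun i => ¬ p i) w))
      = (img (rs Z p)).mkQ u
    congr 1
    funext i
    rw [wo1_res_apply, Pi.add_apply, wo1_ext_pos p u i.1 i.2,
      wo1_ext_neg (fun i => ¬ p i) w i.1 (not_not.2 i.2), add_zero]
  · change (img (rs Z fun i => ¬ p i)).mkQ (wo1_res (fun i => ¬ p i)
      (wo1_ext p u + wo1_ext (fun i => ¬ p i) w)) = (img (rs Z fun i => ¬ p i)).mkQ w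
    congr 1
    funext i
    rw [wo1_res_apply, Pi.add_apply, wo1_ext_neg p u i.1 i.2,
      wo1_ext_pos (fun i => ¬ p i) w i.1 i.2, zero_add]

private theorem wo1_span_card {V : Type*} [AddCommGroup V] [Module ℂ V] {ι : Type*}
    (f : ι → V) (S : Finset ι) :
    Module.finrank ℂ (Submodule.span ℂ (f '' (S : Set ι))) ≤ S.card := by
  classical
  have h2 := finrank_span_finset_le_card (R := ℂ) (S.image f)
  rw [Finset.coe_image] at h2
  exact h2.trans Finset.card_image_le

theorem ck_le_card [DecidableEq J] (Z : κ → Matrix J J ℂ) (S : Finset J)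
    (h : ∀ j, (Pi.single j 1 : J → ℂ) ∈
      img Z ⊔ Submodule.span ℂ ((fun i => (Pi.single i 1 : J → ℂ)) '' (S : Set J))) :
    ck Z ≤ S.card := by
  have htop : img Z ⊔ Submodule.span ℂ ((fun i => (Pi.single i 1 : J → ℂ)) '' (S : Set J)) = ⊤ := by
    rw [eq_top_iff]
    intro v _
    have : v = ∑ j, v j • (Pi.single j 1 : J → ℂ) := by
      funext i
      simp [Finset.sum_apply, Pi.single_apply]
    rw [this]
    exact Submodule.sum_mem _ fun j _ => Submodule.smul_mem _ _ (h j)
  have h1 : Submodule.span ℂ (((fun i => (img Z).mkQ (Pi.single i 1 : J → ℂ))) '' (S : Set J))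
      = ⊤ := by
    have e : (fun i => (img Z).mkQ (Pi.single i 1 : J → ℂ)) '' (S : Set J)
        = (img Z).mkQ '' ((fun i => (Pi.single i 1 : J → ℂ)) '' (S : Set J)) := by
      rw [Set.image_image]
    rw [e, Submodule.span_image, eq_top_iff]
    intro x _
    obtain ⟨v, rfl⟩ := (img Z).mkQ_surjective x
    have hv : v ∈ img Z ⊔ Submodule.span ℂ ((fun i => (Pi.single i 1 : J → ℂ)) '' (S : Set J)) := by
      rw [htop]
      exact Submodule.mem_top
    obtain ⟨a, ha, b, hb, rfl⟩ := Submodule.mem_sup.1 hv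
    refine ⟨b, hb, ?_⟩
    rw [map_add]
    have : (img Z).mkQ a = 0 := by
      rw [Submodule.mkQ_apply, Submodule.Quotient.mk_eq_zero]
      exact ha
    rw [this, zero_add]
  have h3 := wo1_span_card (fun i => (img Z).mkQ (Pi.single i 1 : J → ℂ)) S
  rw [h1, finrank_top] at h3
  exact h3

private theorem wo1_ker_comp {U V W : Type*} [AddCommGroup U] [Module ℂ U]
    [AddCommGroup V] [Module ℂ V] [AddCommGroup W] [Module ℂ W] [FiniteDimensional ℂ U]
    [FiniteDimensional ℂ V] (f : V →ₗ[ℂ] W) (g : U →ₗ[ℂ] V) :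
    Module.finrank ℂ (LinearMap.ker (f.comp g))
      ≤ Module.finrank ℂ (LinearMap.ker f) + Module.finrank ℂ (LinearMap.ker g) := by
  have hm : ∀ x : LinearMap.ker (f.comp g), g x.1 ∈ LinearMap.ker f := fun x => by
    have := x.2
    rw [LinearMap.mem_ker, LinearMap.comp_apply] at this
    exact this
  set G : LinearMap.ker (f.comp g) →ₗ[ℂ] LinearMap.ker f :=
    (g.comp (LinearMap.ker (f.comp g)).subtype).codRestrict (LinearMap.ker f) hm with hG
  have hle : LinearMap.ker g ≤ LinearMap.ker (f.comp g) := fun x hx => by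
    rw [LinearMap.mem_ker] at hx ⊢
    rw [LinearMap.comp_apply, hx, map_zero]
  have := wo1_exact (Submodule.inclusion hle) G (by
    intro x hx
    rw [LinearMap.mem_ker, hG] at hx
    have hx' : g x.1 = 0 := congrArg Subtype.val hx
    exact ⟨⟨x.1, hx'⟩, rfl⟩)
  omega

theorem ck_nil [DecidableEq J] (Z : κ → Matrix J J ℂ) (h : Matrix J J ℂ) (N : ℕ)
    (hc : ∀ r, Commute h (Z r)) (hN : ∀ v, (h ^ N).mulVec v ∈ img Z) :
    ck Z ≤ N * ck (Option.elim' h Z) := by
  have h1 : img Z ≤ (img Z).comap h.mulVecLin := by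
    refine img_le _ _ fun r v => ?_
    rw [Submodule.mem_comap, Matrix.mulVecLin_apply, Matrix.mulVec_mulVec, (hc r).eq,
      ← Matrix.mulVec_mulVec]
    exact mem_img Z r _
  set g : ((J → ℂ) ⧸ img Z) →ₗ[ℂ] ((J → ℂ) ⧸ img Z) := (img Z).mapQ (img Z) h.mulVecLin h1 with hg
  have hgv : ∀ v : J → ℂ, g ((img Z).mkQ v) = (img Z).mkQ (h.mulVec v) := fun v => by
    rw [hg, Submodule.mkQ_apply, Submodule.mapQ_apply, Submodule.mkQ_apply, Matrix.mulVecLin_apply]
  have hgk : ∀ (k : ℕ) (v : J → ℂ), (g ^ k) ((img Z).mkQ v) = (img Z).mkQ ((h ^ k).mulVec v) := by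
    intro k
    induction k with
    | zero => intro v; simp
    | succ k ih =>
      intro v
      rw [pow_succ, Module.End.mul_apply, hgv, ih, Matrix.mulVec_mulVec, ← pow_succ]
  have hgN : g ^ N = 0 := by
    refine LinearMap.ext fun x => ?_
    obtain ⟨v, rfl⟩ := (img Z).mkQ_surjective x
    rw [hgk, LinearMap.zero_apply, Submodule.mkQ_apply, Submodule.Quotient.mk_eq_zero]
    exact hN v
  have hker : ∀ k : ℕ, Module.finrank ℂ (LinearMap.ker (g ^ k))
      ≤ k * Module.finrank ℂ (LinearMap.ker g) := by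
    intro k
    induction k with
    | zero =>
      rw [pow_zero, zero_mul]
      have : LinearMap.ker (1 : ((J → ℂ) ⧸ img Z) →ₗ[ℂ] ((J → ℂ) ⧸ img Z)) = ⊥ :=
        LinearMap.ker_eq_bot.2 Function.injective_id
      rw [this, finrank_bot]
    | succ k ih =>
      have e : g ^ (k + 1) = (g ^ k).comp g := by
        rw [pow_succ]
        rfl
      rw [e]
      have := wo1_ker_comp (g ^ k) g
      rw [add_mul, one_mul]
      omega
  have h2 : ck Z ≤ N * Module.finrank ℂ (LinearMap.ker g) := by
    have := hker N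
    rw [hgN, LinearMap.ker_zero, finrank_top] at this
    exact this
  refine h2.trans (Nat.mul_le_mul_left N ?_)
  have h3 : Module.finrank ℂ (LinearMap.ker g)
      = Module.finrank ℂ (((J → ℂ) ⧸ img Z) ⧸ LinearMap.range g) := by
    have a := LinearMap.finrank_range_add_finrank_ker g
    have b := Submodule.finrank_quotient_add_finrank (LinearMap.range g)
    omega
  rw [h3]
  set F : (J → ℂ) →ₗ[ℂ] (((J → ℂ) ⧸ img Z) ⧸ LinearMap.range g) :=
    (LinearMap.range g).mkQ.comp (img Z).mkQ with hF
  have hk : img (Option.elim' h Z) ≤ LinearMap.ker F := by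
    refine img_le _ _ fun r v => ?_
    rw [LinearMap.mem_ker, hF, LinearMap.comp_apply]
    cases r with
    | none =>
      rw [Submodule.mkQ_apply (LinearMap.range g), Submodule.Quotient.mk_eq_zero]
      exact ⟨(img Z).mkQ v, hgv v⟩
    | some r =>
      have : (img Z).mkQ ((Option.elim' h Z (some r)).mulVec v) = 0 := by
        rw [Submodule.mkQ_apply, Submodule.Quotient.mk_eq_zero]
        exact mem_img Z r v
      rw [this, map_zero]
  refine wo1_finrank_le_of_surj ((img (Option.elim' h Z)).liftQ F hk) ?_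
  intro x
  obtain ⟨y, rfl⟩ := (LinearMap.range g).mkQ_surjective x
  obtain ⟨v, rfl⟩ := (img Z).mkQ_surjective y
  refine ⟨(img (Option.elim' h Z)).mkQ v, ?_⟩
  rw [Submodule.mkQ_apply, Submodule.liftQ_apply, hF, LinearMap.comp_apply]

theorem ik_eq (Z : κ → Matrix J J ℂ) : ik Z = ck fun r => (Z r)ᵀ := by
  classical
  set B : LinearMap.BilinForm ℂ (J → ℂ) := Matrix.toBilin' (1 : Matrix J J ℂ) with hB
  have hBv : ∀ u v : J → ℂ, B u v = u ⬝ᵥ v := fun u v => by
    rw [hB, Matrix.toBilin'_apply']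
    simp
  have hnd : B.Nondegenerate := by
    rw [hB]
    exact Matrix.Nondegenerate.toBilin' (Matrix.nondegenerate_of_det_ne_zero (by simp))
  have hrefl : B.IsRefl := by
    intro u v huv
    rw [hBv] at huv ⊢
    rw [dotProduct_comm]
    exact huv
  have e : (⨅ r, LinearMap.ker (Z r).mulVecLin : Submodule ℂ (J → ℂ))
      = B.orthogonal (img fun r => (Z r)ᵀ) := by
    ext v
    rw [Submodule.mem_iInf, LinearMap.BilinForm.mem_orthogonal_iff]
    constructor
    · intro hv u hu
      rw [hBv]
      have hle : (img fun r => (Z r)ᵀ) ≤ LinearMap.ker (B.flip v) := by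
        refine img_le _ _ fun r w => ?_
        rw [LinearMap.mem_ker, LinearMap.BilinForm.flip_apply, hBv]
        have h1 := hv r
        rw [LinearMap.mem_ker, Matrix.mulVecLin_apply] at h1
        rw [Matrix.mulVec_transpose, ← Matrix.dotProduct_mulVec, h1, dotProduct_zero]
      have := hle hu
      rw [LinearMap.mem_ker, LinearMap.BilinForm.flip_apply, hBv] at this
      exact this
    · intro hv r
      rw [LinearMap.mem_ker, Matrix.mulVecLin_apply]
      funext i
      have h1 := hv ((Z r)ᵀ.mulVec (Pi.single i 1)) (mem_img _ r _)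
      rw [hBv, Matrix.mulVec_transpose,
        ← Matrix.dotProduct_mulVec, single_one_dotProduct] at h1
      exact h1
  have h1 := LinearMap.BilinForm.finrank_orthogonal hnd (img fun r => (Z r)ᵀ)
  have h2 := Submodule.finrank_quotient_add_finrank (img fun r => (Z r)ᵀ)
  have h3 : Module.finrank ℂ (img fun r => (Z r)ᵀ) ≤ Module.finrank ℂ (J → ℂ) :=
    Submodule.finrank_le _
  rw [ik, ck, e, h1]
  omega

theorem ik_single (A : Matrix J J ℂ) : ik ![A] = ck ![A] := by
  have a := LinearMap.finrank_range_add_finrank_ker A.mulVecLin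
  have e1 : (⨅ r, LinearMap.ker ((![A] : Fin 1 → Matrix J J ℂ) r).mulVecLin : Submodule ℂ (J → ℂ))
      = LinearMap.ker A.mulVecLin := by
    rw [iInf_unique]
    rfl
  have e2 : img ![A] = LinearMap.range A.mulVecLin := by
    rw [img, iSup_unique]
    rfl
  have b := Submodule.finrank_quotient_add_finrank (LinearMap.range A.mulVecLin)
  rw [ik, ck, e1, e2]
  omega

theorem ik_le (A B : Matrix J J ℂ) : ik ![A, B] ≤ ck ![A] := by
  rw [← ik_single]
  refine Submodule.finrank_mono ?_
  refine le_iInf fun r => ?_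
  refine (iInf_le _ (0 : Fin 2)).trans ?_
  fin_cases r
  exact le_refl _

private theorem wo1_reindex_le (e : J ≃ J') (Z : κ → Matrix J J ℂ) :
    ck (fun r => (Z r).submatrix e.symm e.symm) ≤ ck Z := by
  refine ck_le_of_surj (LinearMap.funLeft ℂ ℂ e.symm) ?_ Z _ fun r v => ?_
  · intro u
    exact ⟨fun i => u (e i), by funext i; simp [LinearMap.funLeft_apply]⟩
  · have : LinearMap.funLeft ℂ ℂ e.symm ((Z r).mulVec v)
        = ((Z r).submatrix e.symm e.symm).mulVec (LinearMap.funLeft ℂ ℂ e.symm v) := by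
      funext i
      simp only [LinearMap.funLeft_apply, Matrix.mulVec, dotProduct, Matrix.submatrix_apply]
      exact (Equiv.sum_comp e.symm fun k => Z r (e.symm i) k * v k).symm
    rw [this]
    exact mem_img (fun r => (Z r).submatrix e.symm e.symm) r _

theorem ck_reindex (e : J ≃ J') (Z : κ → Matrix J J ℂ) :
    ck (fun r => (Z r).submatrix e.symm e.symm) = ck Z := by
  refine le_antisymm (wo1_reindex_le e Z) ?_
  have h := wo1_reindex_le e.symm fun r => (Z r).submatrix e.symm e.symm
  have e2 : (fun r => ((fun r => (Z r).submatrix e.symm e.symm) r).submatrix e.symm.symm e.symm.symm)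
      = Z := by
    funext r
    ext i k
    simp
  rw [e2] at h
  exact h

end Pool.Agent.INV5
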