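import Pool.Agent.INV5.N5
import Pool.Agent.INV5.WO1

/-!
# INV5, module N6: the graded pieces and the words

`XQ n M = V n ⧸ OVs n (M+1)`, `FQ n M e` the image of `OVs n e`. `α, γ` are endomorphisms of `XQ n M` which on
the graded piece `F e / F (e+1)` are the actions of `A, C`.
* `gr_h0`: the map `w ↦ class of pw n e w` from functions on words onto `F e / (F (e+1) + (α-1) F e + (γ-1) F e)`
  is surjective (`pw_surj`) and kills the ranges of `GW e A - 1` and `GW e C - 1` (`pw_act`). So the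
  dimension of the target is at most `hz n e A C`.
* `gr_hi`: let `x` be in the left space, `x = class of pw w` modulo `F (e+1)`; `w` can be chosen symmetric
  (average over the `PW σ`, `pw_PW`). `(α - 1) x ∈ F (e+1)` means that `pw ((GW e A - 1) w)` has order `≥ e+1`
  (for `e ≤ M`), so by `pw_ker` `(GW e A - 1) w` is in the span of the ranges of the `1 - PW σ`; it is also
  symmetric (`PW_Kr`), hence zero. So `w` is an invariant, and the left space is contained in
  `F (e+1) + class of pw (invariants)`.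
* `gr_top`: `w ↦ class of pw n M w` is a surjection onto `F M` (`F (M+1) = 0`) with kernel the span of the
  ranges of the `1 - PW σ` (`pw_ker`), and it is equivariant. So
  `dim F M / ∑ (1 - s k) F M = cplus n M T`.
-/

namespace Pool.Agent.INV5

open Pool.Agent.RevMaps MvPowerSeries Module

/-- tuples modulo order `M + 1` -/
abbrev XQ (n M : ℕ) : Type := V n ⧸ OVs n (M + 1)

/-- the filtration by order -/
noncomputable def FQ (n M e : ℕ) : Submodule ℂ (XQ n M) := (OVs n e).map (OVs n (M + 1)).mkQ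

section aux

variable {X : Type*} [AddCommGroup X] [Module ℂ X]

private theorem fin_le [FiniteDimensional ℂ X] (F N : Submodule ℂ X) :
    finrank ℂ F ≤ finrank ℂ N + finrank ℂ (F.map N.mkQ) := by
  let g : F →ₗ[ℂ] X ⧸ N := N.mkQ ∘ₗ F.subtype
  have h1 := LinearMap.finrank_range_add_finrank_ker g
  have h2 : LinearMap.range g = F.map N.mkQ := by
    rw [LinearMap.range_comp, Submodule.range_subtype]
  have h3 : finrank ℂ (LinearMap.ker g) ≤ finrank ℂ N := by
    have hmem : ∀ x : LinearMap.ker g, (x.1 : X) ∈ N := by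
      intro x
      have := x.2
      rw [LinearMap.mem_ker] at this
      exact (Submodule.Quotient.mk_eq_zero N).mp this
    let j : LinearMap.ker g →ₗ[ℂ] N :=
      { toFun := fun x => ⟨x.1, hmem x⟩
        map_add' := fun _ _ => rfl
        map_smul' := fun _ _ => rfl }
    refine LinearMap.finrank_le_finrank_of_injective (f := j) ?_
    intro x y hxy
    have h4 : (x.1 : X) = y.1 := congrArg (fun z : N => (z : X)) hxy
    exact Subtype.ext (Subtype.ext h4)
  rw [h2] at h1
  omega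

private theorem fin_eq [FiniteDimensional ℂ X] (F R : Submodule ℂ X) (h : R ≤ F) :
    finrank ℂ (F.map R.mkQ) + finrank ℂ R = finrank ℂ F := by
  let g : F →ₗ[ℂ] X ⧸ R := R.mkQ ∘ₗ F.subtype
  have h1 := LinearMap.finrank_range_add_finrank_ker g
  have h2 : LinearMap.range g = F.map R.mkQ := by
    rw [LinearMap.range_comp, Submodule.range_subtype]
  have h3 : LinearMap.ker g = R.comap F.subtype := by
    rw [LinearMap.ker_comp, Submodule.ker_mkQ]
  rw [h2, h3, (Submodule.comapSubtypeEquivOfLe h).finrank_eq] at h1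
  exact h1

variable {W : Type*} [AddCommGroup W] [Module ℂ W]

private theorem fin_map_le [FiniteDimensional ℂ W] (N : Submodule ℂ X)
    (F : Submodule ℂ X) (P : W →ₗ[ℂ] X) (I : Submodule ℂ W) (hI : I ≤ N.comap P)
    (hF : F ≤ N ⊔ LinearMap.range P) : finrank ℂ (F.map N.mkQ) ≤ finrank ℂ (W ⧸ I) := by
  have h1 : F.map N.mkQ ≤ LinearMap.range (N.mkQ ∘ₗ P) := by
    rw [LinearMap.range_comp]
    refine (Submodule.map_mono hF).trans ?_
    rw [Submodule.map_sup, Submodule.mkQ_map_self, bot_sup_eq]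
  let g : (W ⧸ I) →ₗ[ℂ] X ⧸ N := I.liftQ (N.mkQ ∘ₗ P) (by
    intro x hx
    rw [LinearMap.mem_ker]
    exact (Submodule.Quotient.mk_eq_zero N).mpr (hI hx))
  have h2 : LinearMap.range (N.mkQ ∘ₗ P) = LinearMap.range g := by
    rw [Submodule.range_liftQ]
  rw [h2] at h1
  exact (Submodule.finrank_mono h1).trans (LinearMap.finrank_range_le g)

end aux

section words

variable {n e M : ℕ}

/-- class of the polynomial tuple of a word -/
private noncomputable def Pq (n e M : ℕ) : ((Fin (e + 1) → Fin n) → ℂ) →ₗ[ℂ] XQ n M :=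
  (OVs n (M + 1)).mkQ ∘ₗ pw n e

private theorem Pq_mem (w : (Fin (e + 1) → Fin n) → ℂ) : Pq n e M w ∈ FQ n M e :=
  ⟨pw n e w, pw_OV n e w, rfl⟩

private theorem mem_FQ (he : e ≤ M + 1) (a : V n) : (OVs n (M + 1)).mkQ a ∈ FQ n M e ↔ OV e a := by
  constructor
  · rintro ⟨b, hb, hab⟩
    have h1 : b - a ∈ OVs n (M + 1) := by
      rw [← Submodule.ker_mkQ (OVs n (M + 1)), LinearMap.mem_ker, map_sub, hab, sub_self]
    have h2 : OV (M + 1) (b - a) := h1
    have h3 : OV e b := hb
    have h4 := h3.sub (h2.mono he)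
    rwa [sub_sub_cancel] at h4
  · intro h
    exact ⟨a, h, rfl⟩

private theorem exists_word (x : XQ n M) (hx : x ∈ FQ n M e) :
    ∃ w, x - Pq n e M w ∈ FQ n M (e + 1) := by
  obtain ⟨a, ha, rfl⟩ := hx
  obtain ⟨w, hw⟩ := pw_surj n e a ha
  refine ⟨w, a - pw n e w, hw, ?_⟩
  rw [map_sub]
  rfl

private theorem Pq_act (A A' : Matrix (Fin n) (Fin n) ℂ) (hA : A * A' = 1)
    (α : Module.End ℂ (XQ n M))
    (hα : ∀ a, OV e a → α ((OVs n (M + 1)).mkQ a) - (OVs n (M + 1)).mkQ (act A A' a) ∈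
      FQ n M (e + 1)) (w : (Fin (e + 1) → Fin n) → ℂ) :
    α (Pq n e M w) - Pq n e M ((GW e A).mulVec w) ∈ FQ n M (e + 1) := by
  have h := hα (pw n e w) (pw_OV n e w)
  rw [pw_act n e A A' hA w] at h
  exact h

private theorem PW_GW (σ : Equiv.Perm (Fin e)) (A : Matrix (Fin n) (Fin n) ℂ) :
    Commute (PW σ) (GW e A) := by
  refine PW_Kr σ _ fun i j => ?_
  simp only [(Fin.castSucc_lt_last i).ne, (Fin.castSucc_lt_last j).ne, if_false]

/-- average over the symmetric group -/
private noncomputable def Av (n e : ℕ) : Matrix (Fin (e + 1) → Fin n) (Fin (e + 1) → Fin n) ℂ :=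
  ((Fintype.card (Equiv.Perm (Fin e)) : ℂ)⁻¹) • ∑ σ : Equiv.Perm (Fin e), PW σ

private theorem sum_PW_mul (σ : Equiv.Perm (Fin e)) :
    (∑ τ : Equiv.Perm (Fin e), (PW τ : Matrix (Fin (e + 1) → Fin n) (Fin (e + 1) → Fin n) ℂ)) *
      PW σ = ∑ τ : Equiv.Perm (Fin e), PW τ := by
  rw [Finset.sum_mul]
  refine Eq.trans ?_ (Equiv.sum_comp (Equiv.mulLeft σ) fun τ =>
    (PW τ : Matrix (Fin (e + 1) → Fin n) (Fin (e + 1) → Fin n) ℂ))
  refine Finset.sum_congr rfl fun τ _ => ?_
  rw [PW_mul]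
  rfl

private theorem mul_sum_PW (σ : Equiv.Perm (Fin e)) :
    PW σ * (∑ τ : Equiv.Perm (Fin e),
      (PW τ : Matrix (Fin (e + 1) → Fin n) (Fin (e + 1) → Fin n) ℂ)) =
      ∑ τ : Equiv.Perm (Fin e), PW τ := by
  rw [Finset.mul_sum]
  refine Eq.trans ?_ (Equiv.sum_comp (Equiv.mulRight σ) fun τ =>
    (PW τ : Matrix (Fin (e + 1) → Fin n) (Fin (e + 1) → Fin n) ℂ))
  refine Finset.sum_congr rfl fun τ _ => ?_
  rw [PW_mul]
  rfl

private theorem Av_mul (σ : Equiv.Perm (Fin e)) : Av n e * PW σ = Av n e := by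
  rw [Av, Matrix.smul_mul, sum_PW_mul]

private theorem mul_Av (σ : Equiv.Perm (Fin e)) : PW σ * Av n e = Av n e := by
  rw [Av, Matrix.mul_smul, mul_sum_PW]

private theorem card_ne : (Fintype.card (Equiv.Perm (Fin e)) : ℂ) ≠ 0 := by
  rw [Nat.cast_ne_zero]
  exact Fintype.card_ne_zero

private theorem Av_fix (u : (Fin (e + 1) → Fin n) → ℂ) (h : ∀ σ, (PW σ).mulVec u = u) :
    (Av n e).mulVec u = u := by
  rw [Av, Matrix.smul_mulVec, Matrix.sum_mulVec]
  rw [Finset.sum_congr rfl fun σ _ => h σ, Finset.sum_const, Finset.card_univ, ← Nat.cast_smul_eq_nsmul ℂ,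
    smul_smul, inv_mul_cancel₀ card_ne, one_smul]

private theorem Av_kill (u : (Fin (e + 1) → Fin n) → ℂ)
    (h : u ∈ ⨆ σ : Equiv.Perm (Fin e), LinearMap.range (1 - PW (X := Fin n) σ).mulVecLin) :
    (Av n e).mulVec u = 0 := by
  have h1 : (⨆ σ : Equiv.Perm (Fin e), LinearMap.range (1 - PW (X := Fin n) σ).mulVecLin) ≤
      LinearMap.ker (Av n e).mulVecLin := by
    refine iSup_le fun σ => ?_
    rintro _ ⟨v, rfl⟩
    rw [LinearMap.mem_ker, Matrix.mulVecLin_apply, Matrix.mulVecLin_apply, Matrix.mulVec_mulVec,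
      Matrix.mul_sub, Matrix.mul_one, Av_mul, sub_self, Matrix.zero_mulVec]
  exact h1 h

private theorem pw_Av (w : (Fin (e + 1) → Fin n) → ℂ) :
    pw n e ((Av n e).mulVec w) = pw n e w := by
  rw [Av, Matrix.smul_mulVec, Matrix.sum_mulVec, map_smul, map_sum]
  rw [Finset.sum_congr rfl fun σ _ => pw_PW n e σ w, Finset.sum_const, Finset.card_univ,
    ← Nat.cast_smul_eq_nsmul ℂ, smul_smul, inv_mul_cancel₀ card_ne, one_smul]

end words

theorem gr_h0 (n M e : ℕ) (he : e ≤ M) (A A' C C' : Matrix (Fin n) (Fin n) ℂ) (hA : A * A' = 1)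
    (hC : C * C' = 1) (α γ : Module.End ℂ (XQ n M))
    (hα : ∀ a, OV e a → α ((OVs n (M + 1)).mkQ a) - (OVs n (M + 1)).mkQ (act A A' a) ∈
      FQ n M (e + 1))
    (hγ : ∀ a, OV e a → γ ((OVs n (M + 1)).mkQ a) - (OVs n (M + 1)).mkQ (act C C' a) ∈
      FQ n M (e + 1)) :
    finrank ℂ ↥(FQ n M e) ≤ finrank ℂ ↥(FQ n M (e + 1) ⊔ (FQ n M e).map (α - 1) ⊔
      (FQ n M e).map (γ - 1)) + hz n e A C := by
  have hfd : FiniteDimensional ℂ (XQ n M) := finite_quot n M
  set N := FQ n M (e + 1) ⊔ (FQ n M e).map (α - 1) ⊔ (FQ n M e).map (γ - 1) with hN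
  refine (fin_le (FQ n M e) N).trans (Nat.add_le_add_left ?_ _)
  refine fin_map_le N (FQ n M e) (Pq n e M) (img ![GW e A - 1, GW e C - 1]) ?_ ?_
  · have key : ∀ (B B' : Matrix (Fin n) (Fin n) ℂ) (hB : B * B' = 1) (β : Module.End ℂ (XQ n M))
        (hβ : ∀ a, OV e a → β ((OVs n (M + 1)).mkQ a) - (OVs n (M + 1)).mkQ (act B B' a) ∈
          FQ n M (e + 1)) (hβN : (FQ n M e).map (β - 1) ≤ N) (v : (Fin (e + 1) → Fin n) → ℂ),
        Pq n e M ((GW e B - 1).mulVec v) ∈ N := by
      intro B B' hB β hβ hβN v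
      have h1 := Pq_act B B' hB β hβ v
      have h2 : (β - 1) (Pq n e M v) ∈ N := hβN ⟨_, Pq_mem v, rfl⟩
      have h3 : FQ n M (e + 1) ≤ N := le_sup_left.trans le_sup_left
      have h4 := N.sub_mem h2 (h3 h1)
      rw [LinearMap.sub_apply, Module.End.one_apply, sub_sub_sub_cancel_left] at h4
      rw [Matrix.sub_mulVec, Matrix.one_mulVec, map_sub]
      exact h4
    refine img_le _ _ fun r v => ?_
    rw [Submodule.mem_comap]
    fin_cases r
    · exact key A A' hA α hα (le_sup_right.trans le_sup_left) v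
    · exact key C C' hC γ hγ le_sup_right v
  · intro x hx
    obtain ⟨w, hw⟩ := exists_word x hx
    have h1 : x = (x - Pq n e M w) + Pq n e M w := by rw [sub_add_cancel]
    rw [h1]
    exact Submodule.add_mem_sup ((le_sup_left.trans le_sup_left : FQ n M (e + 1) ≤ N) hw) ⟨w, rfl⟩

theorem gr_hi (n M e : ℕ) (he : e ≤ M) (A A' C C' : Matrix (Fin n) (Fin n) ℂ) (hA : A * A' = 1)
    (hC : C * C' = 1) (α γ : Module.End ℂ (XQ n M))
    (hα : ∀ a, OV e a → α ((OVs n (M + 1)).mkQ a) - (OVs n (M + 1)).mkQ (act A A' a) ∈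
      FQ n M (e + 1))
    (hγ : ∀ a, OV e a → γ ((OVs n (M + 1)).mkQ a) - (OVs n (M + 1)).mkQ (act C C' a) ∈
      FQ n M (e + 1)) :
    finrank ℂ ↥(FQ n M e ⊓ (FQ n M (e + 1)).comap (α - 1) ⊓ (FQ n M (e + 1)).comap (γ - 1)) ≤
      finrank ℂ ↥(FQ n M (e + 1)) + hv n e A C := by
  have hfd : FiniteDimensional ℂ (XQ n M) := finite_quot n M
  set I : Submodule ℂ ((Fin (e + 1) → Fin n) → ℂ) :=
    ⨅ r, LinearMap.ker (![GW e A - 1, GW e C - 1] r).mulVecLin with hI
  have hle : FQ n M e ⊓ (FQ n M (e + 1)).comap (α - 1) ⊓ (FQ n M (e + 1)).comap (γ - 1) ≤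
      FQ n M (e + 1) ⊔ I.map (Pq n e M) := by
    rintro x ⟨⟨⟨a, ha, rfl⟩, hxα⟩, hxγ⟩
    obtain ⟨w, hw⟩ := pw_surj n e a ha
    set w' := (Av n e).mulVec w with hw'
    have hpw : pw n e w' = pw n e w := pw_Av w
    have hsym : ∀ σ, (PW σ).mulVec w' = w' := by
      intro σ
      rw [hw', Matrix.mulVec_mulVec, mul_Av]
    have key : ∀ (B B' : Matrix (Fin n) (Fin n) ℂ) (hB : B * B' = 1) (β : Module.End ℂ (XQ n M))
        (hβ : ∀ a, OV e a → β ((OVs n (M + 1)).mkQ a) - (OVs n (M + 1)).mkQ (act B B' a) ∈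
          FQ n M (e + 1)) (hβx : (OVs n (M + 1)).mkQ a ∈ (FQ n M (e + 1)).comap (β - 1)),
        (GW e B - 1).mulVec w' = 0 := by
      intro B B' hB β hβ hβx
      have h1 := hβ a ha
      rw [Submodule.mem_comap, LinearMap.sub_apply, Module.End.one_apply] at hβx
      have h2 := (FQ n M (e + 1)).sub_mem hβx h1
      rw [sub_sub_sub_cancel_left, ← map_sub, mem_FQ (by omega)] at h2
      -- act B B' a - a has order e + 1
      have h3 : OV (e + 1) (act B B' (pw n e w') - pw n e w') := by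
        have h4 : OV (e + 1) (act B B' (a - pw n e w)) := hw.act B B'
        rw [act_sub] at h4
        have h5 := (h2.sub h4).add hw
        rw [hpw]
        convert h5 using 1
        abel
      rw [pw_act n e B B' hB] at h3
      have h6 : OV (e + 1) (pw n e ((GW e B - 1).mulVec w')) := by
        rw [Matrix.sub_mulVec, Matrix.one_mulVec, map_sub]
        exact h3
      have h7 := Av_kill _ (pw_ker n e _ h6)
      have h8 : (Av n e).mulVec ((GW e B - 1).mulVec w') = (GW e B - 1).mulVec w' := by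
        refine Av_fix _ fun σ => ?_
        rw [Matrix.mulVec_mulVec, Matrix.mul_sub, Matrix.mul_one, (PW_GW σ B).eq,
          Matrix.sub_mulVec, ← Matrix.mulVec_mulVec, hsym, Matrix.sub_mulVec, Matrix.one_mulVec]
      rw [← h8, h7]
    have hI' : w' ∈ I := by
      rw [hI, Submodule.mem_iInf]
      intro r
      rw [LinearMap.mem_ker, Matrix.mulVecLin_apply]
      fin_cases r
      · exact key A A' hA α hα hxα
      · exact key C C' hC γ hγ hxγ
    have h9 : (OVs n (M + 1)).mkQ a = (OVs n (M + 1)).mkQ (a - pw n e w) + Pq n e M w' := by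
      rw [Pq, LinearMap.comp_apply, hpw, ← map_add, sub_add_cancel]
    rw [h9]
    exact Submodule.add_mem_sup ⟨_, hw, rfl⟩ ⟨w', hI', rfl⟩
  refine (Submodule.finrank_mono hle).trans ?_
  refine (Submodule.finrank_add_le_finrank_add_finrank _ _).trans (Nat.add_le_add_left ?_ _)
  exact Submodule.finrank_map_le _ _

theorem gr_top (n M : ℕ) (T : Fin 4 → Matrix (Fin n) (Fin n) ℂ) (hT : ∀ k, T k * T k = 1)
    (s : Fin 4 → Module.End ℂ (XQ n M))
    (hs : ∀ k a, OV M a → s k ((OVs n (M + 1)).mkQ a) = (OVs n (M + 1)).mkQ (act (T k) (T k) a)) :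
    cplus n M T + finrank ℂ ↥(⨆ k, (FQ n M M).map (1 - s k)) ≤ finrank ℂ ↥(FQ n M M) := by
  have hfd : FiniteDimensional ℂ (XQ n M) := finite_quot n M
  have hbot : FQ n M (M + 1) = ⊥ := Submodule.mkQ_map_self _
  have hrange : LinearMap.range (Pq n M M) = FQ n M M := by
    refine le_antisymm ?_ ?_
    · rintro _ ⟨w, rfl⟩
      exact Pq_mem w
    · intro x hx
      obtain ⟨w, hw⟩ := exists_word x hx
      rw [hbot, Submodule.mem_bot, sub_eq_zero] at hw
      exact ⟨w, hw.symm⟩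
  have hs' : ∀ k w, s k (Pq n M M w) = Pq n M M ((GW M (T k)).mulVec w) := by
    intro k w
    have h1 := hs k (pw n M w) (pw_OV n M w)
    rw [pw_act n M (T k) (T k) (hT k) w] at h1
    exact h1
  set R := ⨆ k, (FQ n M M).map (1 - s k) with hR
  have hR1 : R = (⨆ k, LinearMap.range (1 - GW M (T k)).mulVecLin).map (Pq n M M) := by
    rw [hR, Submodule.map_iSup]
    refine iSup_congr fun k => ?_
    rw [← hrange, ← LinearMap.range_comp, ← LinearMap.range_comp]
    congr 1
    refine LinearMap.ext fun w => ?_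
    rw [LinearMap.comp_apply, LinearMap.comp_apply, LinearMap.sub_apply, Module.End.one_apply, hs',
      Matrix.mulVecLin_apply, Matrix.sub_mulVec, Matrix.one_mulVec, map_sub]
  have hRF : R ≤ FQ n M M := by
    rw [hR1, ← hrange]
    exact LinearMap.map_le_range
  have h1 := fin_eq (FQ n M M) R hRF
  rw [← h1]
  refine Nat.add_le_add_right ?_ _
  -- the words
  set Z : Fin 4 ⊕ Equiv.Perm (Fin M) → Matrix (Fin (M + 1) → Fin n) (Fin (M + 1) → Fin n) ℂ :=
    Sum.elim (fun k => 1 - GW M (T k)) fun σ : Equiv.Perm (Fin M) => 1 - PW σ with hZ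
  have hcom : R.comap (Pq n M M) ≤ img Z := by
    intro u hu
    rw [Submodule.mem_comap, hR1] at hu
    obtain ⟨u', hu', huu⟩ := hu
    have h2 : u' ∈ img Z := by
      have : (⨆ k, LinearMap.range (1 - GW M (T k)).mulVecLin) ≤ img Z := by
        refine iSup_le fun k => ?_
        rintro _ ⟨v, rfl⟩
        exact mem_img Z (Sum.inl k) v
      exact this hu'
    have h3 : u - u' ∈ img Z := by
      have h4 : OV (M + 1) (pw n M (u - u')) := by
        have h5 : Pq n M M (u - u') = 0 := by rw [map_sub, huu, sub_self]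
        exact (Submodule.Quotient.mk_eq_zero _).mp h5
      have h6 := pw_ker n M _ h4
      have : (⨆ σ : Equiv.Perm (Fin M), LinearMap.range (1 - PW (X := Fin n) σ).mulVecLin) ≤
          img Z := by
        refine iSup_le fun σ => ?_
        rintro _ ⟨v, rfl⟩
        exact mem_img Z (Sum.inr σ) v
      exact this h6
    have h7 := (img Z).add_mem h3 h2
    rwa [sub_add_cancel] at h7
  have h8 : (FQ n M M).map R.mkQ = LinearMap.range (R.mkQ ∘ₗ Pq n M M) := by
    rw [LinearMap.range_comp, hrange]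
  have hker : LinearMap.ker (R.mkQ ∘ₗ Pq n M M) = R.comap (Pq n M M) := by
    rw [LinearMap.ker_comp, Submodule.ker_mkQ]
  rw [h8, ← (LinearMap.quotKerEquivRange (R.mkQ ∘ₗ Pq n M M)).finrank_eq, hker]
  show finrank ℂ (_ ⧸ img Z) ≤ _
  refine LinearMap.finrank_le_finrank_of_surjective
    (f := (R.comap (Pq n M M)).mapQ (img Z) LinearMap.id ?_) ?_
  · rw [Submodule.comap_id]
    exact hcom
  · intro y
    obtain ⟨v, rfl⟩ := Submodule.Quotient.mk_surjective _ y
    exact ⟨Submodule.Quotient.mk v, rfl⟩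

end Pool.Agent.INV5
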