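import Pool.Agent.INV5.N1
import Pool.Agent.INV5.N6

/-!
# INV5, module N7: the generic map and the subspace of good directions

`sq σ` is the endomorphism of `XQ n M` induced by `Ad σ σ` (`Ad_OV`).
`w0`: let `ι` be the finite type of the pairs `(i, m)`, `m` a multi-index of degree `6` or `7`. Take `c, D` from
`der` and let `v i = ∑_m c (i, m) X ^ m`, so `OV 6 v`. Fix `M = 6` or `7` and the involutions `σ` with
product `oneAdd v`, with inverse `g = σ 3 * σ 2 * σ 1 * σ 0`. For a function `u` on the `(i, m)` with `m` of degree `M`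
put `D_u = ∑ u (i, m) • D (i, m)` (linear in `u`) and `û i = ∑ u (i, m) X ^ m`; then `dv D_u v = û`. Let
`x_k = xi D_u (σ k) (σ k)`, linear in `u` (`xi_add_left`, `xi_smul_left`), `OV 1 x_k`. Let `W0` be the space of the
classes of the `û` such that `OV 3 (x_k)` for all `k`. The map `û ↦ class` is an isomorphism of the `u`-space onto
`F M`, and the conditions are the kernel of a linear map into `(OVs 1 / OVs 3)^4`, so the codimension is
`≤ 4 (n² + n³)` (`finrank_OV`).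
For `u` in it: `Ad (σ k) (σ k) x_k = - x_k` (`xi_inv`), and by `xi_mul` three times
`xi D_u (oneAdd v) g = x_0 + s0 x_1 + s0 s1 x_2 + s0 s1 s2 x_3` (`s_k = Ad (σ k) (σ k)`, `Ad_mul`), which is
`û` modulo order `8 ≥ M + 1` (`xi_f`). With `x_k = (1 - s_k) (x_k / 2)` this is a sum of elements
`(1 - s_j) z`, `z ∈ F 3`: `s0 (1 - s1) z = (1 - s1) z - (1 - s0) ((1 - s1) z)` etc.; collect the terms with the
same `j`.
-/

namespace Pool.Agent.INV5

open Pool.Agent.RevMaps MvPowerSeries Module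

/-- the endomorphism of the quotient induced by the adjoint action of an involution -/
noncomputable def sq (n M : ℕ) (σ : FMap n) : Module.End ℂ (XQ n M) :=
  (OVs n (M + 1)).mapQ (OVs n (M + 1)) (Ad σ σ) fun _ ha => Ad_OV σ σ ha

theorem sq_mk (n M : ℕ) (σ : FMap n) (a : V n) :
    sq n M σ ((OVs n (M + 1)).mkQ a) = (OVs n (M + 1)).mkQ (Ad σ σ a) := rfl

/-- the multi-indices of degree `6` or `7` -/
private abbrev Ix (n : ℕ) : Type := {p : Fin n × (Fin n →₀ ℕ) // p.2.degree = 6 ∨ p.2.degree = 7}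

private theorem finite_Ix (n : ℕ) : Finite (Ix n) := by
  have h : Set.Finite {p : Fin n × (Fin n →₀ ℕ) | p.2.degree = 6 ∨ p.2.degree = 7} := by
    have h1 : Set.Finite {m : Fin n →₀ ℕ | m.degree = 6 ∨ m.degree = 7} := by
      refine (Finsupp.finite_of_degree_le (σ := Fin n) 7).subset ?_
      intro m hm
      have hm' : m.degree = 6 ∨ m.degree = 7 := hm
      show m.degree ≤ 7
      omega
    refine (Set.finite_univ.prod h1).subset ?_
    rintro ⟨i, m⟩ h
    exact ⟨trivial, h⟩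
  exact h.to_subtype

/-- the derivation in the direction `a` -/
private noncomputable def Dof (n M : ℕ) [Fintype (Ix n)] (D : Ix n → Derivation ℚ ℂ ℂ) :
    V n →ₗ[ℂ] Derivation ℚ ℂ ℂ where
  toFun a := ∑ p : Ix n, (if p.1.2.degree = M then coeff p.1.2 (a p.1.1) else 0) • D p
  map_add' a b := by
    rw [← Finset.sum_add_distrib]
    refine Finset.sum_congr rfl fun p _ => ?_
    rw [← add_smul]
    congr 1
    split_ifs
    · simp
    · simp
  map_smul' c a := by
    rw [RingHom.id_apply, Finset.smul_sum]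
    refine Finset.sum_congr rfl fun p _ => ?_
    rw [smul_smul]
    congr 1
    split_ifs
    · simp
    · simp

private noncomputable def evD (x : ℂ) : Derivation ℚ ℂ ℂ →+ ℂ where
  toFun d := d x
  map_zero' := rfl
  map_add' _ _ := rfl

/-- the generic tuple -/
private noncomputable def gv (n : ℕ) (c : Ix n → ℂ) : V n := fun i => fun m =>
  open Classical in if h : m.degree = 6 ∨ m.degree = 7 then c ⟨(i, m), h⟩ else 0

private theorem coeff_gv (n : ℕ) (c : Ix n → ℂ) (i : Fin n) (m : Fin n →₀ ℕ)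
    (h : m.degree = 6 ∨ m.degree = 7) : coeff m (gv n c i) = c ⟨(i, m), h⟩ := by
  show (if h : m.degree = 6 ∨ m.degree = 7 then c ⟨(i, m), h⟩ else 0) = _
  rw [dif_pos h]

private theorem coeff_gv_zero (n : ℕ) (c : Ix n → ℂ) (i : Fin n) (m : Fin n →₀ ℕ)
    (h : ¬ (m.degree = 6 ∨ m.degree = 7)) : coeff m (gv n c i) = 0 := by
  show (if h : m.degree = 6 ∨ m.degree = 7 then c ⟨(i, m), h⟩ else 0) = _
  rw [dif_neg h]

private theorem OV_gv (n : ℕ) (c : Ix n → ℂ) : OV 6 (gv n c) := fun i m hm =>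
  coeff_gv_zero n c i m (by omega)

private theorem dv_gv (n M : ℕ) (hM : M = 6 ∨ M = 7) [Fintype (Ix n)] [DecidableEq (Ix n)]
    (c : Ix n → ℂ) (D : Ix n → Derivation ℚ ℂ ℂ) (hD : ∀ i j, D i (c j) = if i = j then 1 else 0)
    (a : V n) (ha : OV M a) : OV (M + 1) (dv (Dof n M D a) (gv n c) - a) := by
  intro i m hm
  show coeff m (dc (Dof n M D a) (gv n c i) - a i) = 0
  rw [map_sub, coeff_dc]
  have e : Dof n M D a = ∑ p : Ix n, (if p.1.2.degree = M then coeff p.1.2 (a p.1.1) else 0) • D p :=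
    rfl
  have e2 : ∀ x : ℂ, (Dof n M D a) x =
      ∑ p : Ix n, (if p.1.2.degree = M then coeff p.1.2 (a p.1.1) else 0) * D p x := by
    intro x
    rw [e]
    exact map_sum (evD x) _ _
  by_cases h : m.degree = 6 ∨ m.degree = 7
  · rw [coeff_gv n c i m h, e2]
    simp only [hD]
    rw [Finset.sum_eq_single (⟨(i, m), h⟩ : Ix n)]
    · rw [if_pos rfl, mul_one]
      show (if m.degree = M then coeff m (a i) else 0) - _ = 0
      split_ifs with h'
      · rw [sub_self]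
      · rw [zero_sub, neg_eq_zero]
        exact ha i m (by omega)
    · intro b _ hb
      rw [if_neg hb, mul_zero]
    · intro h'
      exact absurd (Finset.mem_univ _) h'
  · rw [coeff_gv_zero n c i m h, map_zero, zero_sub, neg_eq_zero]
    exact ha i m (by omega)

/-- the linear map whose kernel are the good directions -/
private noncomputable def Lmap (n M : ℕ) [Fintype (Ix n)] (D : Ix n → Derivation ℚ ℂ ℂ)
    (σ : Fin 4 → FMap n) : V n →ₗ[ℂ] (Fin 4 → (↥(OVs n 1) ⧸ (OVs n 3).comap (OVs n 1).subtype)) where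
  toFun a := fun k => Submodule.Quotient.mk ⟨xi (Dof n M D a) (σ k) (σ k), xi_OV _ _ _⟩
  map_add' a b := by
    funext k
    rw [Pi.add_apply, ← Submodule.Quotient.mk_add]
    congr 1
    apply Subtype.ext
    show xi (Dof n M D (a + b)) (σ k) (σ k) = xi (Dof n M D a) (σ k) (σ k) +
      xi (Dof n M D b) (σ k) (σ k)
    rw [map_add, xi_add_left]
  map_smul' c a := by
    funext k
    rw [RingHom.id_apply, Pi.smul_apply, ← Submodule.Quotient.mk_smul]
    congr 1
    apply Subtype.ext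
    show xi (Dof n M D (c • a)) (σ k) (σ k) = c • xi (Dof n M D a) (σ k) (σ k)
    rw [map_smul, xi_smul_left]

private theorem Lmap_eq_zero (n M : ℕ) [Fintype (Ix n)] (D : Ix n → Derivation ℚ ℂ ℂ)
    (σ : Fin 4 → FMap n) (a : V n) :
    Lmap n M D σ a = 0 ↔ ∀ k, OV 3 (xi (Dof n M D a) (σ k) (σ k)) := by
  constructor
  · intro h k
    have h1 := congrFun h k
    exact (Submodule.Quotient.mk_eq_zero _).1 h1
  · intro h
    funext k
    exact (Submodule.Quotient.mk_eq_zero _).2 (h k)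

private theorem Dof_zero (n M : ℕ) [Fintype (Ix n)] (D : Ix n → Derivation ℚ ℂ ℂ) (a : V n)
    (ha : OV (M + 1) a) : Dof n M D a = 0 := by
  show ∑ p : Ix n, (if p.1.2.degree = M then coeff p.1.2 (a p.1.1) else 0) • D p = 0
  refine Finset.sum_eq_zero fun p _ => ?_
  split_ifs with h
  · rw [ha p.1.1 p.1.2 (by omega), zero_smul]
  · rw [zero_smul]

private theorem dc_zero_left {n : ℕ} (p : PS n) : dc 0 p = 0 := by
  ext m
  rw [coeff_dc]
  rfl

private theorem xi_zero_left {n : ℕ} (f g : FMap n) : xi 0 f g = 0 := by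
  have h := xi_smul_left (n := n) (0 : Derivation ℚ ℂ ℂ) 0 f g
  rwa [zero_smul, zero_smul] at h

theorem w0 (n : ℕ) : ∃ (v : V n) (hv1 : OV 1 v), OV 6 v ∧ ∀ M, M = 6 ∨ M = 7 →
    ∀ σ : Fin 4 → FMap n, (∀ k, σ k * σ k = 1) → σ 0 * σ 1 * σ 2 * σ 3 = oneAdd v hv1 →
    ∃ W0 : Submodule ℂ (XQ n M), finrank ℂ ↥(FQ n M M) ≤ finrank ℂ ↥W0 + 4 * (n ^ 2 + n ^ 3) ∧
      ∀ w ∈ W0, w ∈ FQ n M M ∧ ∃ x : Fin 4 → XQ n M, (∀ k, x k ∈ FQ n M 3) ∧
        w = ∑ k, (x k - sq n M (σ k) (x k)) := by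
  classical
  have hfin := finite_Ix n
  let _ : Fintype (Ix n) := Fintype.ofFinite _
  obtain ⟨c, D, hD⟩ := der (Ix n)
  refine ⟨gv n c, (OV_gv n c).mono (by norm_num), OV_gv n c, fun M hM σ hσ hprod => ?_⟩
  set v := gv n c with hv
  have hM3 : 3 ≤ M := by omega
  have := finite_quot n M
  obtain ⟨hQ1, hQ2⟩ := finrank_OV n
  -- the map on the quotient
  have hker : OVs n (M + 1) ≤ LinearMap.ker (Lmap n M D σ) := by
    intro a ha
    rw [LinearMap.mem_ker, Lmap_eq_zero]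
    intro k
    rw [Dof_zero n M D a ha, xi_zero_left]
    exact fun i => O_of_zero 3
  let L' : XQ n M →ₗ[ℂ] (Fin 4 → (↥(OVs n 1) ⧸ (OVs n 3).comap (OVs n 1).subtype)) :=
    (OVs n (M + 1)).liftQ (Lmap n M D σ) hker
  let L2 := L'.comp (FQ n M M).subtype
  refine ⟨(LinearMap.ker L2).map (FQ n M M).subtype, ?_, ?_⟩
  · have h1 := LinearMap.finrank_range_add_finrank_ker L2
    have h2 : finrank ℂ ↥((LinearMap.ker L2).map (FQ n M M).subtype) =
        finrank ℂ ↥(LinearMap.ker L2) :=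
      (Submodule.equivMapOfInjective (FQ n M M).subtype Subtype.val_injective
        (LinearMap.ker L2)).finrank_eq.symm
    have h3 : finrank ℂ ↥(LinearMap.range L2) ≤
        finrank ℂ (Fin 4 → (↥(OVs n 1) ⧸ (OVs n 3).comap (OVs n 1).subtype)) :=
      Submodule.finrank_le _
    have h4 : finrank ℂ (Fin 4 → (↥(OVs n 1) ⧸ (OVs n 3).comap (OVs n 1).subtype)) =
        4 * finrank ℂ (↥(OVs n 1) ⧸ (OVs n 3).comap (OVs n 1).subtype) := by
      have hfree : Module.Free ℂ (↥(OVs n 1) ⧸ (OVs n 3).comap (OVs n 1).subtype) :=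
        Module.Free.of_divisionRing _ _
      have := Module.finrank_pi_fintype ℂ
        (M := fun _ : Fin 4 => (↥(OVs n 1) ⧸ (OVs n 3).comap (OVs n 1).subtype))
      rw [this]
      simp
    rw [h2]
    omega
  · intro w hw
    obtain ⟨⟨w', hw'⟩, hk, rfl⟩ := Submodule.mem_map.1 hw
    refine ⟨hw', ?_⟩
    obtain ⟨a, ha, rfl⟩ := Submodule.mem_map.1 hw'
    have ha' : OV M a := ha
    have hL : Lmap n M D σ a = 0 := hk
    rw [Lmap_eq_zero] at hL
    set E := Dof n M D a with hE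
    have hx : ∀ k, sq n M (σ k) ((OVs n (M + 1)).mkQ (xi E (σ k) (σ k))) =
        - (OVs n (M + 1)).mkQ (xi E (σ k) (σ k)) := fun k => by
      rw [sq_mk, xi_inv E (σ k) (hσ k), map_neg]
    have h23 : (σ 2 * σ 3) * (σ 3 * σ 2) = 1 := by
      rw [mul_assoc, ← mul_assoc (σ 3), hσ 3, one_mul, hσ 2]
    have h32 : (σ 3 * σ 2) * (σ 2 * σ 3) = 1 := by
      rw [mul_assoc, ← mul_assoc (σ 2), hσ 2, one_mul, hσ 3]
    have h123 : (σ 1 * (σ 2 * σ 3)) * ((σ 3 * σ 2) * σ 1) = 1 := by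
      rw [mul_assoc, ← mul_assoc (σ 2 * σ 3), h23, one_mul, hσ 1]
    have h321 : ((σ 3 * σ 2) * σ 1) * (σ 1 * (σ 2 * σ 3)) = 1 := by
      rw [mul_assoc, ← mul_assoc (σ 1), hσ 1, one_mul, h32]
    have h0123 : (σ 0 * (σ 1 * (σ 2 * σ 3))) * (((σ 3 * σ 2) * σ 1) * σ 0) = 1 := by
      rw [mul_assoc, ← mul_assoc (σ 1 * (σ 2 * σ 3)), h123, one_mul, hσ 0]
    have h3210 : (((σ 3 * σ 2) * σ 1) * σ 0) * (σ 0 * (σ 1 * (σ 2 * σ 3))) = 1 := by
      rw [mul_assoc, ← mul_assoc (σ 0), hσ 0, one_mul, h321]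
    have hf : σ 0 * (σ 1 * (σ 2 * σ 3)) = oneAdd v ((OV_gv n c).mono (by norm_num)) := by
      rw [← hprod]; simp only [mul_assoc]
    have key := xi_mul E (σ 0) (σ 0) (σ 1 * (σ 2 * σ 3)) (σ 3 * σ 2 * σ 1) (hσ 0) (hσ 0) h123 h321
    rw [xi_mul E (σ 1) (σ 1) (σ 2 * σ 3) (σ 3 * σ 2) (hσ 1) (hσ 1) h23 h32,
      xi_mul E (σ 2) (σ 2) (σ 3) (σ 3) (hσ 2) (hσ 2) (hσ 3) (hσ 3)] at key
    rw [hf] at h0123 h3210 key
    have h8 := xi_f E v ((OV_gv n c).mono (by norm_num)) (OV_gv n c) _ h0123 h3210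
    have h9 := dv_gv n M hM c D hD a ha'
    rw [← hE, ← hv] at h9
    have h10 : OV (M + 1) (xi E (oneAdd v ((OV_gv n c).mono (by norm_num)))
        (σ 3 * σ 2 * σ 1 * σ 0) - a) := by
      have := (h8.mono (show M + 1 ≤ 8 by omega)).add h9
      rwa [sub_add_sub_cancel] at this
    rw [key] at h10
    have h11 : (OVs n (M + 1)).mkQ a = (OVs n (M + 1)).mkQ (xi E (σ 0) (σ 0) +
        (Ad (σ 0) (σ 0)) (xi E (σ 1) (σ 1) + (Ad (σ 1) (σ 1)) (xi E (σ 2) (σ 2) +
          (Ad (σ 2) (σ 2)) (xi E (σ 3) (σ 3))))) := by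
      symm
      rw [← sub_eq_zero, ← map_sub]
      exact (Submodule.Quotient.mk_eq_zero _).2 h10
    simp only [map_add, ← sq_mk] at h11
    have hmem : ∀ k, (OVs n (M + 1)).mkQ (xi E (σ k) (σ k)) ∈ FQ n M 3 := fun k =>
      Submodule.mem_map.2 ⟨_, hL k, rfl⟩
    have hst : ∀ k, ∀ y ∈ FQ n M 3, sq n M (σ k) y ∈ FQ n M 3 := by
      intro k y hy
      obtain ⟨b, hb, rfl⟩ := Submodule.mem_map.1 hy
      rw [sq_mk]
      exact Submodule.mem_map.2 ⟨_, Ad_OV _ _ hb, rfl⟩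
    set x : Fin 4 → XQ n M := fun k => (OVs n (M + 1)).mkQ (xi E (σ k) (σ k)) with hxdef
    have hx' : ∀ k, sq n M (σ k) (x k) = - x k := hx
    have hmem' : ∀ k, x k ∈ FQ n M 3 := hmem
    have h12 : (OVs n (M + 1)).mkQ a = x 0 + (sq n M (σ 0) (x 1) + (sq n M (σ 0) (sq n M (σ 1)
        (x 2)) + sq n M (σ 0) (sq n M (σ 1) (sq n M (σ 2) (x 3))))) := h11
    clear_value x
    refine ⟨![(1 / 2 : ℂ) • x 0 - x 1 - sq n M (σ 1) (x 2) - sq n M (σ 1) (sq n M (σ 2) (x 3)),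
      (1 / 2 : ℂ) • x 1 - x 2 - sq n M (σ 2) (x 3), (1 / 2 : ℂ) • x 2 - x 3, (1 / 2 : ℂ) • x 3],
      ?_, ?_⟩
    · intro k
      fin_cases k
      · exact sub_mem (sub_mem (sub_mem (Submodule.smul_mem _ _ (hmem' 0)) (hmem' 1))
          (hst 1 _ (hmem' 2))) (hst 1 _ (hst 2 _ (hmem' 3)))
      · exact sub_mem (sub_mem (Submodule.smul_mem _ _ (hmem' 1)) (hmem' 2)) (hst 2 _ (hmem' 3))
      · exact sub_mem (Submodule.smul_mem _ _ (hmem' 2)) (hmem' 3)
      · exact Submodule.smul_mem _ _ (hmem' 3)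
    · show (OVs n (M + 1)).mkQ a = _
      rw [h12, Fin.sum_univ_four]
      simp only [Matrix.cons_val_zero, Matrix.cons_val_one, Matrix.cons_val, map_sub,
        map_smul, hx']
      module

end Pool.Agent.INV5
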