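import Pool.Agent.INV5.N4
import Pool.Agent.INV5.N7

/-!
# INV5, module N8: the inequalities for a product of four involutions (assembly of the nonlinear part)

`f = oneAdd v` from `w0`, `T k = lin (σ k)`; `T 0 T 1 T 2 T 3 = lin f = 1`. For `M = 6, 7` apply `la_main` to
`X = XQ n M` (`finite_quot`), `F = FQ n M`, `s k = sq n M (σ k)`, `W0` from `w0`, `K = 4 (n² + n³)`,
`h0 e = hz n e (T 0 * T 1) (T 0 * T 3)`, `hi e = hv ...`. Hypotheses: `Ad_OV` (filtration), `Ad_mul`, `Ad_one`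
(`s k * s k = 1`), `Ad_mul`, `Ad_triv` (the product is the identity on `F 3`, since `8 ≥ M + 1`), `gr_h0`, `gr_hi`
with `α = s 0 * s 1`, `A = T 0 * T 1`, `A' = T 1 * T 0` (`Ad_lin` twice, `act_act`: the action of `Ad σ σ` on the
graded piece is `act (lin σ) (lin σ)`), `gr_top` with `Ad_lin` (`OV (M+1)` is zero in `XQ n M`).
-/

namespace Pool.Agent.INV5

open Pool.Agent.RevMaps

private theorem mk_mem {n M e : ℕ} {a : V n} (ha : OV e a) :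
    (OVs n (M + 1)).mkQ a ∈ FQ n M e := Submodule.mem_map.2 ⟨a, ha, rfl⟩

private theorem mem_FQ {n M e : ℕ} {x : XQ n M} (hx : x ∈ FQ n M e) :
    ∃ a : V n, OV e a ∧ (OVs n (M + 1)).mkQ a = x := by
  obtain ⟨a, ha, rfl⟩ := Submodule.mem_map.1 hx
  exact ⟨a, ha, rfl⟩

private theorem mk_eq {n M : ℕ} {a b : V n} (h : OV (M + 1) (a - b)) :
    (OVs n (M + 1)).mkQ a = (OVs n (M + 1)).mkQ b := by
  rw [← sub_eq_zero, ← map_sub]
  exact (Submodule.Quotient.mk_eq_zero _).2 h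

private theorem Ad_invol {n : ℕ} (σ : FMap n) (h : σ * σ = 1) (a : V n) :
    Ad σ σ (Ad σ σ a) = a := by
  rw [← Ad_mul σ σ σ σ h h h h, h, Ad_one]

/-- two involutions on a graded piece -/
private theorem two_graded {n e : ℕ} (σ τ : FMap n) {a : V n} (ha : OV e a) :
    OV (e + 1) (Ad σ σ (Ad τ τ a) - act (lin σ * lin τ) (lin τ * lin σ) a) := by
  have h1 := Ad_lin τ τ ha
  have h2 := Ad_OV (d := e + 1) σ σ h1
  have h3 := Ad_lin σ σ (ha.act (lin τ) (lin τ))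
  rw [act_act] at h3
  rw [map_sub] at h2
  have := h2.add h3
  rwa [sub_add_sub_cancel] at this

theorem nl_main (n : ℕ) : ∃ f : FMap n, lin f = 1 ∧ ∀ σ : Fin 4 → FMap n,
    (∀ k, σ k * σ k = 1) → σ 0 * σ 1 * σ 2 * σ 3 = f →
    ∃ T : Fin 4 → Matrix (Fin n) (Fin n) ℂ, (∀ k, T k * T k = 1) ∧ T 0 * T 1 * T 2 * T 3 = 1 ∧
      ∀ M, M = 6 ∨ M = 7 → cplus n M T ≤ 4 * (n ^ 2 + n ^ 3) +
        ∑ e ∈ Finset.Ico 3 M,
          (hz n e (T 0 * T 1) (T 0 * T 3) + hv n e (T 0 * T 1) (T 0 * T 3)) := by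
  obtain ⟨v, hv1, hv6, H⟩ := w0 n
  refine ⟨oneAdd v hv1, lin_oneAdd (by norm_num) v hv1 hv6, fun σ hσ hprod => ?_⟩
  have hT : ∀ k, lin (σ k) * lin (σ k) = 1 := fun k => by rw [← lin_mul, hσ k, lin_one]
  refine ⟨fun k => lin (σ k), hT, ?_, fun M hM => ?_⟩
  · show lin (σ 0) * lin (σ 1) * lin (σ 2) * lin (σ 3) = 1
    rw [← lin_mul, ← lin_mul, ← lin_mul, hprod]
    exact lin_oneAdd (by norm_num) v hv1 hv6
  obtain ⟨W0, hW0, hW⟩ := H M hM σ hσ hprod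
  have hM3 : 3 ≤ M := by omega
  have hM8 : M + 1 ≤ 8 := by omega
  have := finite_quot n M
  have hα : ∀ (σ τ : FMap n) (e : ℕ) (a : V n), OV e a →
      (sq n M σ * sq n M τ) ((OVs n (M + 1)).mkQ a) -
        (OVs n (M + 1)).mkQ (act (lin σ * lin τ) (lin τ * lin σ) a) ∈ FQ n M (e + 1) := by
    intro σ τ e a ha
    rw [Module.End.mul_apply, sq_mk, sq_mk, ← map_sub]
    exact mk_mem (two_graded σ τ ha)
  have hinv : ∀ k l, (lin (σ k) * lin (σ l)) * (lin (σ l) * lin (σ k)) = 1 := fun k l => by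
    rw [mul_assoc, ← mul_assoc (lin (σ l)) (lin (σ l)), hT l, one_mul, hT k]
  have key := la_main (X := XQ n M) (fun k => sq n M (σ k)) (FQ n M) M hM3
    (fun e => Submodule.map_mono fun a (ha : OV (e + 1) a) => ha.mono (Nat.le_succ e))
    (by
      rw [Submodule.eq_bot_iff]
      intro x hx
      obtain ⟨a, ha, rfl⟩ := mem_FQ hx
      exact (Submodule.Quotient.mk_eq_zero _).2 ha)
    (by
      intro k e x hx
      obtain ⟨a, ha, rfl⟩ := mem_FQ hx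
      show sq n M (σ k) _ ∈ _
      rw [sq_mk]
      exact mk_mem (Ad_OV _ _ ha))
    (by
      intro k
      refine LinearMap.ext fun x => ?_
      obtain ⟨a, rfl⟩ := (OVs n (M + 1)).mkQ_surjective x
      rw [Module.End.mul_apply, sq_mk, sq_mk, Ad_invol _ (hσ k)]
      rfl)
    (by
      intro x hx
      obtain ⟨a, ha, rfl⟩ := mem_FQ hx
      show sq n M (σ 0) (sq n M (σ 1) (sq n M (σ 2) (sq n M (σ 3) _))) = _
      rw [sq_mk, sq_mk, sq_mk, sq_mk]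
      have h23 : (σ 2 * σ 3) * (σ 3 * σ 2) = 1 := by
        rw [mul_assoc, ← mul_assoc (σ 3), hσ 3, one_mul, hσ 2]
      have h32 : (σ 3 * σ 2) * (σ 2 * σ 3) = 1 := by
        rw [mul_assoc, ← mul_assoc (σ 2), hσ 2, one_mul, hσ 3]
      have h123 : (σ 1 * (σ 2 * σ 3)) * ((σ 3 * σ 2) * σ 1) = 1 := by
        rw [mul_assoc, ← mul_assoc (σ 2 * σ 3), h23, one_mul, hσ 1]
      have h321 : ((σ 3 * σ 2) * σ 1) * (σ 1 * (σ 2 * σ 3)) = 1 := by
        rw [mul_assoc, ← mul_assoc (σ 1), hσ 1, one_mul, h32]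
      have h0123 : (σ 0 * (σ 1 * (σ 2 * σ 3))) * (((σ 3 * σ 2) * σ 1) * σ 0) = 1 := by
        rw [mul_assoc, ← mul_assoc (σ 1 * (σ 2 * σ 3)), h123, one_mul, hσ 0]
      have h3210 : (((σ 3 * σ 2) * σ 1) * σ 0) * (σ 0 * (σ 1 * (σ 2 * σ 3))) = 1 := by
        rw [mul_assoc, ← mul_assoc (σ 0), hσ 0, one_mul, h321]
      rw [← Ad_mul (σ 2) (σ 2) (σ 3) (σ 3) (hσ 2) (hσ 2) (hσ 3) (hσ 3),
        ← Ad_mul (σ 1) (σ 1) (σ 2 * σ 3) (σ 3 * σ 2) (hσ 1) (hσ 1) h23 h32,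
        ← Ad_mul (σ 0) (σ 0) (σ 1 * (σ 2 * σ 3)) (σ 3 * σ 2 * σ 1) (hσ 0) (hσ 0) h123 h321]
      have hf : σ 0 * (σ 1 * (σ 2 * σ 3)) = oneAdd v hv1 := by rw [← hprod]; simp only [mul_assoc]
      rw [hf] at h0123 h3210 ⊢
      exact mk_eq ((Ad_triv v hv1 hv6 _ h0123 h3210 ha).mono hM8))
    W0 (4 * (n ^ 2 + n ^ 3)) hW0 hW
    (fun e => hz n e (lin (σ 0) * lin (σ 1)) (lin (σ 0) * lin (σ 3)))
    (fun e => hv n e (lin (σ 0) * lin (σ 1)) (lin (σ 0) * lin (σ 3)))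
    (fun e _ he => gr_h0 n M e he.le _ _ _ _ (hinv 0 1) (hinv 0 3) _ _ (hα (σ 0) (σ 1) e)
      (hα (σ 0) (σ 3) e))
    (fun e _ he => gr_hi n M e he.le _ _ _ _ (hinv 0 1) (hinv 0 3) _ _ (hα (σ 0) (σ 1) e)
      (hα (σ 0) (σ 3) e))
  have top := gr_top n M (fun k => lin (σ k)) hT (fun k => sq n M (σ k)) (by
    intro k a ha
    show sq n M (σ k) _ = _
    rw [sq_mk]
    exact mk_eq (Ad_lin _ _ ha))
  have key' : Module.finrank ℂ ↥(FQ n M M) ≤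
      Module.finrank ℂ ↥(⨆ k, (FQ n M M).map (1 - sq n M (σ k))) + 4 * (n ^ 2 + n ^ 3) +
      ∑ e ∈ Finset.Ico 3 M, (hz n e (lin (σ 0) * lin (σ 1)) (lin (σ 0) * lin (σ 3)) +
        hv n e (lin (σ 0) * lin (σ 1)) (lin (σ 0) * lin (σ 3))) := key
  have top' : cplus n M (fun k => lin (σ k)) +
      Module.finrank ℂ ↥(⨆ k, (FQ n M M).map (1 - sq n M (σ k))) ≤
      Module.finrank ℂ ↥(FQ n M M) := top
  show cplus n M (fun k => lin (σ k)) ≤ 4 * (n ^ 2 + n ^ 3) + ∑ e ∈ Finset.Ico 3 M,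
    (hz n e (lin (σ 0) * lin (σ 1)) (lin (σ 0) * lin (σ 3)) +
      hv n e (lin (σ 0) * lin (σ 1)) (lin (σ 0) * lin (σ 3)))
  omega

end Pool.Agent.INV5
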