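import Pool.Agent.INV5.R0
import Pool.Agent.INU.NSP

/-!
# INV5, module R9: Jordan basis of a nilpotent matrix which respects labels

`jordan_nil`: Jordan basis of a nilpotent endomorphism. Induct on the dimension: if `W ≠ 0` let `s` be
maximal with `l ^ s ≠ 0`, `l ^ s v ≠ 0`, and split off the cyclic subspace spanned by the `l ^ i v`, `i ≤ s`
(module NSP of INU, file `Pool/Agent/INU/NSP.lean`, landed in the repository, has exactly this splitting), or
use the structure theorem for finite torsion modules over `ℂ[X]`. The basis vectors are `B (a, p)` with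
`l B(a, p) = B(a, p+1)`, or `0` if `p + 1 = b a`.
`jordan_lab`: `l` respects the labels, so it maps the span `V_μ` of the basis vectors with label `μ` to itself;
apply `jordan_nil` to each `V_μ` (finitely many nonzero ones) and collect the bases (blocks
`β = Σ μ ∈ image of χ, β_μ`). `B` is the matrix with the columns `B (a, p)` and `B'` its inverse.
-/

namespace Pool.Agent.INV5

open Matrix

private def R9_eq {γ : Type} (k : ℕ) (b : γ → ℕ) :
    (Fin k ⊕ Idx b) ≃ Idx (fun a : Option γ => Option.elim a k b) where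
  toFun := Sum.elim (fun j => ⟨none, j⟩) (fun x => ⟨some x.1, x.2⟩)
  invFun := fun x => match x with
    | ⟨none, j⟩ => Sum.inl j
    | ⟨some a, j⟩ => Sum.inr ⟨a, j⟩
  left_inv := by
    rintro (j | ⟨a, j⟩) <;> rfl
  right_inv := by
    rintro ⟨_ | a, j⟩ <;> rfl

private theorem R9_nil (m : ℕ) : ∀ (W : Type) [AddCommGroup W] [Module ℂ W] [FiniteDimensional ℂ W]
    (l : Module.End ℂ W) (_ : IsNilpotent l) (_ : Module.finrank ℂ W = m),
    ∃ (β : Type) (_ : Fintype β) (_ : DecidableEq β) (b : β → ℕ) (B : Module.Basis (Idx b) ℂ W),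
      (∀ a, 0 < b a) ∧ ∀ k : Idx b, l (B k) =
        if h : (k.2 : ℕ) + 1 < b k.1 then B ⟨k.1, ⟨(k.2 : ℕ) + 1, h⟩⟩ else 0 := by
  induction m using Nat.strong_induction_on with
  | _ m ih =>
    intro W _ _ _ l hl hm
    rcases Nat.eq_zero_or_pos m with h0 | h0
    · subst h0
      have : Subsingleton W := Module.finrank_zero_iff.mp hm
      refine ⟨Empty, inferInstance, inferInstance, fun _ => 0,
        Module.Basis.empty W, fun a => a.elim, fun k => k.1.elim⟩
    · obtain ⟨k, v, U', hk, hkv, hli, hU', hc⟩ := Pool.Agent.INU.nil_split l hl (by omega)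
      set U := Submodule.span ℂ (Set.range (fun j : Fin k => (l ^ (j : ℕ)) v)) with hU
      have hdim := Submodule.finrank_add_eq_of_isCompl hc
      have hUk : Module.finrank ℂ U = k := by
        rw [hU, finrank_span_eq_card hli, Fintype.card_fin]
      obtain ⟨N, hN⟩ := hl
      have hrn : ∀ (j : ℕ) (w : U'), (((l.restrict hU') ^ j) w : W) = (l ^ j) (w : W) := by
        intro j
        induction j with
        | zero => intro w; rfl
        | succ j ihj =>
          intro w
          rw [pow_succ, Module.End.mul_apply, ihj, pow_succ, Module.End.mul_apply]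
          rfl
      have hl' : IsNilpotent (l.restrict hU') := by
        refine ⟨N, LinearMap.ext fun w => Subtype.ext ?_⟩
        rw [hrn, hN]
        rfl
      obtain ⟨γ, h1, h2, b, B, hb, hB⟩ := ih (Module.finrank ℂ U') (by omega) U' (l.restrict hU') hl' rfl
      have := h1
      have := h2
      let B1 : Module.Basis (Fin k) ℂ U := Module.Basis.span hli
      have hB1 : ∀ j : Fin k, (B1 j : W) = (l ^ (j : ℕ)) v := by
        intro j
        exact congrArg Subtype.val (Module.Basis.span_apply hli j)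
      let B2 : Module.Basis (Idx (fun a : Option γ => Option.elim a k b)) ℂ W :=
        ((B1.prod B).map (Submodule.prodEquivOfIsCompl U U' hc)).reindex (R9_eq k b)
      have hB2a : ∀ j : Fin k, B2 ⟨none, j⟩ = (l ^ (j : ℕ)) v := by
        intro j
        have : (R9_eq k b).symm ⟨none, j⟩ = Sum.inl j := rfl
        simp only [B2, Module.Basis.reindex_apply, Module.Basis.map_apply, this]
        rw [← hB1 j]
        simp
      have hB2b : ∀ x : Idx b, B2 ⟨some x.1, x.2⟩ = (B x : W) := by
        intro x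
        have : (R9_eq k b).symm ⟨some x.1, x.2⟩ = Sum.inr x := rfl
        simp only [B2, Module.Basis.reindex_apply, Module.Basis.map_apply, this]
        simp
      refine ⟨Option γ, inferInstance, inferInstance, fun a => Option.elim a k b, B2, ?_, ?_⟩
      · rintro (_ | a)
        · exact hk
        · exact hb a
      · rintro ⟨_ | a, j⟩
        · rw [hB2a]
          simp only [Option.elim_none]
          split_ifs with h
          · rw [hB2a, ← Module.End.mul_apply, ← pow_succ']
          · have hj : (j : ℕ) + 1 = k := by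
              have := j.2
              simp only [Option.elim_none] at this
              omega
            rw [← Module.End.mul_apply, ← pow_succ', hj, hkv]
        · rw [show (⟨some a, j⟩ : Idx (fun a : Option γ => Option.elim a k b)) =
            ⟨some (⟨a, j⟩ : Idx b).1, (⟨a, j⟩ : Idx b).2⟩ from rfl, hB2b]
          have h3 := congrArg (Subtype.val) (hB ⟨a, j⟩)
          have h4 : ((l.restrict hU') (B ⟨a, j⟩) : W) = l (B ⟨a, j⟩ : W) := rfl
          rw [← h4, h3]
          simp only [Option.elim_some]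
          split_ifs with h
          · exact (hB2b ⟨a, ⟨(j : ℕ) + 1, h⟩⟩).symm
          · rfl

theorem jordan_nil {W : Type} [AddCommGroup W] [Module ℂ W] [FiniteDimensional ℂ W]
    (l : Module.End ℂ W) (hl : IsNilpotent l) :
    ∃ (β : Type) (_ : Fintype β) (_ : DecidableEq β) (b : β → ℕ) (B : Module.Basis (Idx b) ℂ W),
      (∀ a, 0 < b a) ∧ ∀ k : Idx b, l (B k) =
        if h : (k.2 : ℕ) + 1 < b k.1 then B ⟨k.1, ⟨(k.2 : ℕ) + 1, h⟩⟩ else 0 :=
  R9_nil _ W l hl rfl

private theorem R9_sum {n : ℕ} (p : Fin n → Prop) [DecidablePred p] (f : {i // p i} → ℂ) :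
    ∑ i, (if h : p i then f ⟨i, h⟩ else 0) = ∑ i : {i // p i}, f i := by
  have h1 : ∑ i ∈ Finset.univ.filter p, (if h : p i then f ⟨i, h⟩ else 0) =
      ∑ i : {i // p i}, (if h : p i.1 then f ⟨i.1, h⟩ else 0) :=
    Finset.sum_subtype (Finset.univ.filter p) (by simp) _
  have h2 : ∑ i ∈ Finset.univ.filter p, (if h : p i then f ⟨i, h⟩ else 0) =
      ∑ i, (if h : p i then f ⟨i, h⟩ else 0) := by
    apply Finset.sum_subset (Finset.subset_univ _)
    intro i _ hi
    have : ¬ p i := by simpa using hi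
    simp [this]
  rw [← h2, h1]
  apply Finset.sum_congr rfl
  intro i _
  rw [dif_pos i.2]

theorem jordan_lab (n : ℕ) (χ : Fin n → Lam) (l : Matrix (Fin n) (Fin n) ℂ)
    (hl : IsNilpotent l) (hχ : ∀ i k, l i k ≠ 0 → χ i = χ k) :
    ∃ (β : Type) (_ : Fintype β) (_ : DecidableEq β) (b : β → ℕ) (χ' : β → Lam)
      (B : Matrix (Fin n) (Idx b) ℂ) (B' : Matrix (Idx b) (Fin n) ℂ),
      (∀ a, 0 < b a) ∧ B * B' = 1 ∧ B' * B = 1 ∧ B' * l * B = Sh b ∧
      (∀ i k, B i k ≠ 0 → χ i = χ' k.1) ∧ ∀ k i, B' k i ≠ 0 → χ' k.1 = χ i := by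
  classical
  obtain ⟨N, hN⟩ := hl
  have hpow : ∀ (μ : Lam) (j : ℕ), (l.submatrix (Subtype.val : {i // χ i = μ} → Fin n)
      (Subtype.val : {i // χ i = μ} → Fin n)) ^ j = (l ^ j).submatrix Subtype.val Subtype.val := by
    intro μ j
    induction j with
    | zero =>
      rw [pow_zero, pow_zero]
      ext i k
      simp [Matrix.one_apply, Subtype.ext_iff]
    | succ j ih =>
      rw [pow_succ, ih, pow_succ]
      ext i k
      rw [Matrix.mul_apply, Matrix.submatrix_apply, Matrix.mul_apply]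
      simp only [Matrix.submatrix_apply]
      rw [← R9_sum (fun x => χ x = μ) (fun x => (l ^ j) i.1 x.1 * l x.1 k.1)]
      apply Finset.sum_congr rfl
      intro x _
      split_ifs with h
      · rfl
      · have : l x k.1 = 0 := by
          by_contra h1
          exact h ((hχ _ _ h1).trans k.2)
        rw [this, mul_zero]
  have hnil : ∀ μ : {μ : Lam // μ ∈ Set.range χ}, IsNilpotent (Matrix.toLinAlgEquiv'
      (l.submatrix (Subtype.val : {i // χ i = μ.1} → Fin n)
      (Subtype.val : {i // χ i = μ.1} → Fin n))) := by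
    intro μ
    refine IsNilpotent.map ?_ _
    refine ⟨N, ?_⟩
    rw [hpow, hN]
    rfl
  choose γ h1 h2 b Bs hb hB using fun μ : {μ : Lam // μ ∈ Set.range χ} => jordan_nil _ (hnil μ)
  have := h1
  have := h2
  have hsum : ∀ f : Idx (fun a : Σ μ : {μ : Lam // μ ∈ Set.range χ}, γ μ => b a.1 a.2) → ℂ,
      ∑ k, f k = ∑ μ, ∑ x : Idx (b μ), f ⟨⟨μ, x.1⟩, x.2⟩ := by
    intro f
    rw [Fintype.sum_sigma, Fintype.sum_sigma]
    apply Finset.sum_congr rfl
    intro μ _
    rw [Fintype.sum_sigma]
  let B : Matrix (Fin n) (Idx (fun a : Σ μ : {μ : Lam // μ ∈ Set.range χ}, γ μ => b a.1 a.2)) ℂ :=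
    fun i k => if h : χ i = k.1.1.1 then Bs k.1.1 ⟨k.1.2, k.2⟩ ⟨i, h⟩ else 0
  let B' : Matrix (Idx (fun a : Σ μ : {μ : Lam // μ ∈ Set.range χ}, γ μ => b a.1 a.2)) (Fin n) ℂ :=
    fun k i => if h : χ i = k.1.1.1 then
      (Bs k.1.1).repr (Pi.single ⟨i, h⟩ 1) ⟨k.1.2, k.2⟩ else 0
  have hBB : B * B' = 1 := by
    ext i i'
    rw [Matrix.mul_apply, hsum]
    by_cases hi : χ i = χ i'
    · rw [Finset.sum_eq_single (⟨χ i', ⟨i', rfl⟩⟩ : {μ : Lam // μ ∈ Set.range χ})]
      · simp only [B, B', hi, dif_pos]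
        have h3 := congrFun ((Bs ⟨χ i', ⟨i', rfl⟩⟩).sum_repr (Pi.single ⟨i', rfl⟩ 1)) ⟨i, hi⟩
        rw [Finset.sum_apply] at h3
        simp only [Pi.smul_apply, smul_eq_mul] at h3
        rw [Matrix.one_apply]
        refine (Finset.sum_congr rfl fun x _ => ?_).trans (h3.trans ?_)
        · rw [mul_comm]
        · rw [Pi.single_apply]
          simp [Subtype.ext_iff]
      · intro μ _ hμ
        apply Finset.sum_eq_zero
        intro x _
        have : ¬ χ i' = μ.1 := fun h => hμ (Subtype.ext h.symm)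
        simp [B', this]
      · intro h
        exact absurd (Finset.mem_univ _) h
    · rw [Matrix.one_apply_ne (fun h => hi (by rw [h]))]
      apply Finset.sum_eq_zero
      intro μ _
      apply Finset.sum_eq_zero
      intro x _
      by_cases h : χ i = μ.1
      · have : ¬ χ i' = μ.1 := fun h' => hi (h.trans h'.symm)
        simp [B', this]
      · simp [B, h]
  have hB'B : B' * B = 1 := by
    ext ⟨⟨μ, a⟩, p⟩ ⟨⟨μ', a'⟩, p'⟩
    rw [Matrix.mul_apply]
    by_cases hm : μ = μ'
    · subst hm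
      have h3 : ∀ i, B' ⟨⟨μ, a⟩, p⟩ i * B i ⟨⟨μ, a'⟩, p'⟩ = if h : χ i = μ.1 then
          (Bs μ).repr (Pi.single ⟨i, h⟩ 1) ⟨a, p⟩ * Bs μ ⟨a', p'⟩ ⟨i, h⟩ else 0 := by
        intro i
        by_cases h : χ i = μ.1
        · simp [B, B', h]
        · simp [B, B', h]
      simp only [h3]
      rw [R9_sum (fun i => χ i = μ.1)
        (fun i => (Bs μ).repr (Pi.single i 1) ⟨a, p⟩ * Bs μ ⟨a', p'⟩ i)]
      have h4 : Bs μ ⟨a', p'⟩ = ∑ i, (Bs μ ⟨a', p'⟩ i) • (Pi.single i (1 : ℂ)) := by
        exact (pi_eq_sum_univ' (Bs μ ⟨a', p'⟩)).trans (by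
          apply Finset.sum_congr rfl
          intro i _
          congr 1)
      have h5 : (Bs μ).repr (Bs μ ⟨a', p'⟩) ⟨a, p⟩ =
          ∑ i, (Bs μ ⟨a', p'⟩ i) * (Bs μ).repr (Pi.single i 1) ⟨a, p⟩ := by
        conv_lhs => rw [h4]
        rw [map_sum, Finsupp.finsetSum_apply]
        apply Finset.sum_congr rfl
        intro i _
        rw [map_smul, Finsupp.smul_apply, smul_eq_mul]
      rw [Module.Basis.repr_self, Finsupp.single_apply] at h5
      rw [Matrix.one_apply]
      refine (Finset.sum_congr rfl fun x _ => mul_comm _ _).trans (h5.symm.trans ?_)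
      by_cases h6 : (⟨a', p'⟩ : Idx (b μ)) = ⟨a, p⟩
      · rw [if_pos h6]
        obtain ⟨rfl, h7⟩ := Sigma.mk.inj h6
        rw [heq_iff_eq] at h7
        subst h7
        rw [if_pos rfl]
      · rw [if_neg h6, if_neg]
        intro h7
        apply h6
        obtain ⟨h8, h9⟩ := Sigma.mk.inj h7
        obtain ⟨_, h10⟩ := Sigma.mk.inj h8
        rw [heq_iff_eq] at h10
        subst h10
        rw [heq_iff_eq] at h9
        rw [h9]
    · rw [Matrix.one_apply_ne]
      · apply Finset.sum_eq_zero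
        intro i _
        by_cases h : χ i = μ.1
        · have : ¬ χ i = μ'.1 := fun h' => hm (Subtype.ext (h.symm.trans h'))
          simp [B, this]
        · simp [B', h]
      · intro h7
        exact hm (Sigma.mk.inj (Sigma.mk.inj h7).1).1
  have hlB : l * B = B * Sh (fun a : Σ μ : {μ : Lam // μ ∈ Set.range χ}, γ μ => b a.1 a.2) := by
    ext i ⟨⟨μ, a⟩, p⟩
    have h3 : (l * B) i ⟨⟨μ, a⟩, p⟩ = ∑ j : {j // χ j = μ.1}, l i j.1 * Bs μ ⟨a, p⟩ j := by
      rw [Matrix.mul_apply, ← R9_sum (fun i => χ i = μ.1)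
        (fun j => l i j.1 * Bs μ ⟨a, p⟩ j)]
      apply Finset.sum_congr rfl
      intro j _
      by_cases h : χ j = μ.1
      · simp [B, h]
      · simp [B, h]
    have h4 : (B * Sh (fun a : Σ μ : {μ : Lam // μ ∈ Set.range χ}, γ μ => b a.1 a.2)) i
        ⟨⟨μ, a⟩, p⟩ = if h : (p : ℕ) + 1 < b μ a then B i ⟨⟨μ, a⟩, ⟨(p : ℕ) + 1, h⟩⟩ else 0 := by
      rw [Matrix.mul_apply]
      split_ifs with h
      · rw [Finset.sum_eq_single (⟨⟨μ, a⟩, ⟨(p : ℕ) + 1, h⟩⟩ :
          Idx (fun a : Σ μ : {μ : Lam // μ ∈ Set.range χ}, γ μ => b a.1 a.2))]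
        · simp [Sh]
        · rintro ⟨⟨μ', a'⟩, p'⟩ _ h5
          rw [Sh, if_neg, mul_zero]
          rintro ⟨h6, h7⟩
          apply h5
          simp only at h6 h7
          obtain ⟨rfl, h8⟩ := Sigma.mk.inj h6
          rw [heq_iff_eq] at h8
          subst h8
          congr 1
          exact Fin.ext h7
        · intro h5
          exact absurd (Finset.mem_univ _) h5
      · apply Finset.sum_eq_zero
        rintro ⟨⟨μ', a'⟩, p'⟩ _
        rw [Sh, if_neg, mul_zero]
        rintro ⟨h6, h7⟩
        simp only at h6 h7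
        obtain ⟨rfl, h8⟩ := Sigma.mk.inj h6
        rw [heq_iff_eq] at h8
        subst h8
        have := p'.2
        simp only at this
        omega
    rw [h3, h4]
    by_cases h : χ i = μ.1
    · have h5 := congrFun (hB μ ⟨a, p⟩) ⟨i, h⟩
      rw [Matrix.toLinAlgEquiv'_apply] at h5
      have h6 : ((l.submatrix (Subtype.val : {i // χ i = μ.1} → Fin n)
        (Subtype.val : {i // χ i = μ.1} → Fin n)).mulVec (Bs μ ⟨a, p⟩)) ⟨i, h⟩ =
          ∑ j : {j // χ j = μ.1}, l i j.1 * Bs μ ⟨a, p⟩ j := rfl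
      rw [← h6, h5]
      simp only
      split_ifs with h7
      · simp [B, h]
      · rfl
    · have h5 : ∀ j : {j // χ j = μ.1}, l i j.1 = 0 := by
        intro j
        by_contra h6
        exact h ((hχ _ _ h6).trans j.2)
      rw [Finset.sum_eq_zero (fun j _ => by rw [h5, zero_mul])]
      split_ifs with h7
      · simp [B, h]
      · rfl
  refine ⟨Σ μ : {μ : Lam // μ ∈ Set.range χ}, γ μ, inferInstance, inferInstance,
    fun a => b a.1 a.2, fun a => a.1.1, B, B', fun a => hb a.1 a.2, hBB, ?_, ?_, ?_, ?_⟩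
  · convert hB'B
  · rw [Matrix.mul_assoc, hlB, ← Matrix.mul_assoc]
    have : B' * B * Sh (fun a : Σ μ : {μ : Lam // μ ∈ Set.range χ}, γ μ => b a.1 a.2) = Sh _ := by
      rw [hB'B, Matrix.one_mul]
    convert this
  · intro i k h
    by_contra h3
    exact h (by simp [B, h3])
  · intro k i h
    by_contra h3
    exact h (by
      have : ¬ χ i = k.1.1.1 := fun h4 => h3 h4.symm
      simp [B', this])

end Pool.Agent.INV5
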