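import Pool.Agent.INV5.WO2

/-!
# INV5, module RT: transport of words by a change of the letters

`KR K` is the (rectangular) tensor product of matrices `K m` between the letters. If `K m, K' m` are inverse to
each other and respect the labels, the restrictions `P, P'` of `KR K, KR K'` to the words of total label one
are inverse to each other (`KR` is multiplicative, and entries between words of different total label
vanish), and `P' * res c Z * P = res c' Z'` whenever `Z' = KR K' * Z * KR K`; for `Z = Tot z`,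
`Z' = Tot (K' m * z m * K m)`; for `Z = Kr z`, `Z' = Kr (K' m * z m * K m)`; for `Z = PW σ`, `Z' = PW σ` if `K` is the
same on all covector letters.
`ck_conj`, `ik_conj`, `good_conj`: an isomorphism `P` of function spaces.
-/

namespace Pool.Agent.INV5

open Matrix

private theorem mvl_pow {J : Type*} [Fintype J] [DecidableEq J] (l : Matrix J J ℂ) (k : ℕ)
    (v : J → ℂ) : (l.mulVecLin ^ k) v = (l ^ k) *ᵥ v := by
  induction k generalizing v with
  | zero => simp
  | succ k ih =>
    rw [pow_succ, pow_succ, Module.End.mul_apply, ih, Matrix.mulVecLin_apply, Matrix.mulVec_mulVec]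

section conj

variable {J J' κ : Type*} [Fintype J] [Fintype J'] [DecidableEq J] [DecidableEq J']

/-- the isomorphism of function spaces -/
private noncomputable def eqv (P : Matrix J J' ℂ) (P' : Matrix J' J ℂ) (h : P * P' = 1)
    (h' : P' * P = 1) : (J → ℂ) ≃ₗ[ℂ] (J' → ℂ) :=
  LinearEquiv.ofLinearMap P'.mulVecLin P.mulVecLin
    (by rw [← Matrix.mulVecLin_mul, h', Matrix.mulVecLin_one])
    (by rw [← Matrix.mulVecLin_mul, h, Matrix.mulVecLin_one])

private theorem range_conj (P : Matrix J J' ℂ) (P' : Matrix J' J ℂ) (h : P * P' = 1)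
    (h' : P' * P = 1) (Z : Matrix J J ℂ) :
    LinearMap.range (P' * Z * P).mulVecLin =
      (LinearMap.range Z.mulVecLin).map (eqv P P' h h' : (J → ℂ) →ₗ[ℂ] (J' → ℂ)) := by
  ext w
  simp only [LinearMap.mem_range, Submodule.mem_map]
  constructor
  · rintro ⟨v, rfl⟩
    refine ⟨Z.mulVecLin (P.mulVecLin v), ⟨_, rfl⟩, ?_⟩
    simp [eqv, Matrix.mulVec_mulVec]
  · rintro ⟨_, ⟨v, rfl⟩, rfl⟩
    refine ⟨P' *ᵥ v, ?_⟩
    simp only [eqv, Matrix.mulVecLin_apply, LinearEquiv.coe_coe, LinearEquiv.coe_ofLinearMap,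
      Matrix.mulVec_mulVec]
    rw [Matrix.mul_assoc, h, Matrix.mul_one]

private theorem ker_conj (P : Matrix J J' ℂ) (P' : Matrix J' J ℂ) (h : P * P' = 1)
    (h' : P' * P = 1) (Z : Matrix J J ℂ) :
    LinearMap.ker (P' * Z * P).mulVecLin =
      (LinearMap.ker Z.mulVecLin).map (eqv P P' h h' : (J → ℂ) →ₗ[ℂ] (J' → ℂ)) := by
  ext w
  simp only [LinearMap.mem_ker, Submodule.mem_map]
  constructor
  · intro hw
    refine ⟨P *ᵥ w, ?_, ?_⟩
    · have := congrArg (fun u => P *ᵥ u) hw
      simp only [Matrix.mulVecLin_apply, Matrix.mulVec_mulVec, Matrix.mulVec_zero] at this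
      rw [← Matrix.mul_assoc, ← Matrix.mul_assoc, h, Matrix.one_mul] at this
      simp only [Matrix.mulVecLin_apply, Matrix.mulVec_mulVec, this]
    · simp only [eqv, LinearEquiv.coe_coe, LinearEquiv.coe_ofLinearMap, Matrix.mulVecLin_apply,
        Matrix.mulVec_mulVec]
      rw [h', Matrix.one_mulVec]
  · rintro ⟨v, hv, rfl⟩
    simp only [Matrix.mulVecLin_apply] at hv
    simp only [eqv, LinearEquiv.coe_coe, LinearEquiv.coe_ofLinearMap, Matrix.mulVecLin_apply,
        Matrix.mulVec_mulVec]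
    rw [Matrix.mul_assoc, h, Matrix.mul_one, ← Matrix.mulVec_mulVec, hv, Matrix.mulVec_zero]

theorem ck_conj (P : Matrix J J' ℂ) (P' : Matrix J' J ℂ) (h : P * P' = 1) (h' : P' * P = 1)
    (Z : κ → Matrix J J ℂ) : ck (fun r => P' * Z r * P) = ck Z := by
  unfold ck
  have h1 : img (fun r => P' * Z r * P) =
      (img Z).map (eqv P P' h h' : (J → ℂ) →ₗ[ℂ] (J' → ℂ)) := by
    unfold img
    rw [Submodule.map_iSup]
    exact iSup_congr fun r => range_conj P P' h h' (Z r)
  exact (LinearEquiv.finrank_eq (Submodule.Quotient.equiv _ _ (eqv P P' h h') h1.symm)).symm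

theorem ik_conj (P : Matrix J J' ℂ) (P' : Matrix J' J ℂ) (h : P * P' = 1) (h' : P' * P = 1)
    (Z : κ → Matrix J J ℂ) : ik (fun r => P' * Z r * P) = ik Z := by
  unfold ik
  have h1 : (⨅ r, LinearMap.ker (P' * Z r * P).mulVecLin : Submodule ℂ (J' → ℂ)) =
      (⨅ r, LinearMap.ker (Z r).mulVecLin : Submodule ℂ (J → ℂ)).map
        (eqv P P' h h' : (J → ℂ) →ₗ[ℂ] (J' → ℂ)) := by
    ext w
    simp only [Submodule.mem_iInf, ker_conj P P' h h']
    rw [Submodule.mem_map]
    constructor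
    · intro hw
      refine ⟨(eqv P P' h h').symm w, ?_, by simp⟩
      rw [Submodule.mem_iInf]
      intro r
      obtain ⟨v, hv, hvw⟩ := Submodule.mem_map.1 (hw r)
      rw [← hvw]
      simpa using hv
    · rintro ⟨v, hv, rfl⟩ r
      rw [Submodule.mem_iInf] at hv
      exact Submodule.mem_map_of_mem (hv r)
  rw [h1]
  exact LinearEquiv.finrank_map_eq _ _

theorem good_conj (P : Matrix J J' ℂ) (P' : Matrix J' J ℂ) (h : P * P' = 1) (h' : P' * P = 1)
    (l y : Matrix J J ℂ) (N : Submodule ℂ (J → ℂ)) (hg : Good l.mulVecLin y.mulVecLin N) :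
    Good (P' * l * P).mulVecLin (P' * y * P).mulVecLin (N.comap P.mulVecLin) := by
  have hp : ∀ k : ℕ, P * (P' * l * P) ^ k = l ^ k * P := by
    intro k
    induction k with
    | zero => simp
    | succ k ih =>
      rw [pow_succ, ← Matrix.mul_assoc, ih, pow_succ]
      simp only [← Matrix.mul_assoc]
      rw [Matrix.mul_assoc (l ^ k) P P', h, Matrix.mul_one]
  intro s v hv
  simp only [Submodule.mem_comap, mvl_pow, Matrix.mulVecLin_apply, Matrix.mulVec_mulVec,
    Matrix.mulVec_sub] at hv ⊢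
  rw [hp, ← Matrix.mulVec_mulVec] at hv
  obtain ⟨w, hw⟩ := hg s (P *ᵥ v) (by rw [mvl_pow]; exact hv)
  refine ⟨P' *ᵥ w, ?_⟩
  simp only [mvl_pow, Matrix.mulVecLin_apply, Matrix.mulVec_mulVec] at hw
  rw [Matrix.mulVec_mulVec, ← Matrix.mul_assoc, ← Matrix.mul_assoc, ← Matrix.mul_assoc, hp, hp]
  have e1 : l ^ s * P * P' * y * P = l ^ s * (y * P) := by
    rw [Matrix.mul_assoc (l ^ s) P P', h, Matrix.mul_one, Matrix.mul_assoc]
  have e2 : l ^ (s + 1) * P * P' = l ^ (s + 1) := by
    rw [Matrix.mul_assoc, h, Matrix.mul_one]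
  rw [e2, e1]
  exact hw

end conj

section words

private theorem sub_mul_left {α β γ : Type*} [Fintype β] {p : α → Prop} {q : β → Prop} {r : γ → Prop}
    [Fintype {b // q b}] (A : Matrix α β ℂ) (B : Matrix β γ ℂ)
    (h : ∀ a b c, p a → r c → A a b * B b c ≠ 0 → q b) :
    (A.submatrix Subtype.val Subtype.val : Matrix {a // p a} {b // q b} ℂ) *
      (B.submatrix Subtype.val Subtype.val : Matrix {b // q b} {c // r c} ℂ) =
      (A * B).submatrix Subtype.val Subtype.val := by
  classical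
  ext a c
  simp only [Matrix.mul_apply, Matrix.submatrix_apply]
  rw [← Finset.sum_subtype (Finset.univ.filter q) (by simp) (fun j => A a.1 j * B j c.1)]
  apply Finset.sum_filter_of_ne
  intro j _ hj
  exact h a.1 j c.1 a.2 c.2 hj

variable {N : ℕ} {I I' : Fin N → Type} [∀ m, Fintype (I m)] [∀ m, DecidableEq (I m)]
  [∀ m, Fintype (I' m)] [∀ m, DecidableEq (I' m)]

/-- rectangular tensor product -/
noncomputable def KR (K : ∀ m, Matrix (I m) (I' m) ℂ) : Matrix (∀ m, I m) (∀ m, I' m) ℂ :=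
  fun p q => ∏ m, K m (p m) (q m)

/-- restriction to the words of total label one -/
noncomputable def KRr (c : ∀ m, I m → Lam) (c' : ∀ m, I' m → Lam)
    (K : ∀ m, Matrix (I m) (I' m) ℂ) : Matrix (One c) (One c') ℂ :=
  (KR K).submatrix Subtype.val Subtype.val

private theorem KR_mul {N : ℕ} {I I' I'' : Fin N → Type} [∀ m, Fintype (I' m)]
    (K : ∀ m, Matrix (I m) (I' m) ℂ) (L : ∀ m, Matrix (I' m) (I'' m) ℂ) :
    KR K * KR L = KR (fun m => K m * L m) := by
  classical
  ext p r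
  simp only [Matrix.mul_apply, KR]
  rw [Finset.prod_univ_sum, Fintype.piFinset_univ]
  exact Finset.sum_congr rfl fun q _ => Finset.prod_mul_distrib.symm

private theorem KR_one : KR (fun m => (1 : Matrix (I m) (I m) ℂ)) = 1 := Kr_one

private theorem KR_ne {N : ℕ} {I I' : Fin N → Type} (c : ∀ m, I m → Lam) (c' : ∀ m, I' m → Lam)
    (K : ∀ m, Matrix (I m) (I' m) ℂ)
    (hc : ∀ m i k, K m i k ≠ 0 → c m i = c' m k) (p : ∀ m, I m) (q : ∀ m, I' m) (h : KR K p q ≠ 0) :
    ∏ m, c m (p m) = ∏ m, c' m (q m) := by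
  refine Finset.prod_congr rfl fun m _ => hc m _ _ ?_
  intro h0
  exact h (Finset.prod_eq_zero (Finset.mem_univ m) h0)

private theorem conj_res {N : ℕ} {I I' : Fin N → Type} [∀ m, Fintype (I m)] [∀ m, DecidableEq (I m)]
    [∀ m, Fintype (I' m)] [∀ m, DecidableEq (I' m)] (c : ∀ m, I m → Lam) (c' : ∀ m, I' m → Lam)
    (K : ∀ m, Matrix (I m) (I' m) ℂ)
    (K' : ∀ m, Matrix (I' m) (I m) ℂ) (hc : ∀ m i k, K m i k ≠ 0 → c m i = c' m k)
    (hc' : ∀ m k i, K' m k i ≠ 0 → c' m k = c m i) (Z : Matrix (∀ m, I m) (∀ m, I m) ℂ) :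
    KRr c' c K' * res c Z * KRr c c' K = res c' (KR K' * Z * KR K) := by
  unfold KRr res
  rw [sub_mul_left, sub_mul_left]
  · intro a b d _ hd h
    rw [KR_ne c c' K hc b d (right_ne_zero_of_mul h)]
    exact hd
  · intro a b d ha _ h
    rw [← KR_ne c' c K' hc' a b (left_ne_zero_of_mul h)]
    exact ha

variable (c : ∀ m, I m → Lam) (c' : ∀ m, I' m → Lam) (K : ∀ m, Matrix (I m) (I' m) ℂ)
  (K' : ∀ m, Matrix (I' m) (I m) ℂ)

theorem KRr_mul (h : ∀ m, K m * K' m = 1) (hc : ∀ m i k, K m i k ≠ 0 → c m i = c' m k) :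
    KRr c c' K * KRr c' c K' = 1 := by
  unfold KRr
  rw [sub_mul_left, KR_mul]
  · simp only [h]
    rw [KR_one]
    ext a b
    simp [Matrix.one_apply, Subtype.ext_iff]
  · intro a b d ha _ h
    rw [← KR_ne c c' K hc a b (left_ne_zero_of_mul h)]
    exact ha

private theorem KR_At (h' : ∀ m, K' m * K m = 1) (m : Fin N) (z : Matrix (I m) (I m) ℂ) :
    KR K' * At m z * KR K = At m (K' m * z * K m) := by
  rw [At_eq_Kr, At_eq_Kr]
  change KR K' * KR _ * KR K = KR _
  rw [KR_mul, KR_mul]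
  congr 1
  funext m'
  by_cases hm : m' = m
  · subst hm
    simp
  · rw [Function.update_of_ne hm, Function.update_of_ne hm, Matrix.mul_one, h']

theorem KRr_Tot (h : ∀ m, K m * K' m = 1) (h' : ∀ m, K' m * K m = 1)
    (hc : ∀ m i k, K m i k ≠ 0 → c m i = c' m k) (hc' : ∀ m k i, K' m k i ≠ 0 → c' m k = c m i)
    (z : ∀ m, Matrix (I m) (I m) ℂ) :
    KRr c' c K' * res c (Tot z) * KRr c c' K = res c' (Tot fun m => K' m * z m * K m) := by
  rw [conj_res c c' K K' hc hc']
  congr 1
  unfold Tot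
  rw [Matrix.mul_sum, Matrix.sum_mul]
  exact Finset.sum_congr rfl fun m _ => KR_At K K' h' m (z m)

theorem KRr_Kr (h : ∀ m, K m * K' m = 1) (h' : ∀ m, K' m * K m = 1)
    (hc : ∀ m i k, K m i k ≠ 0 → c m i = c' m k) (hc' : ∀ m k i, K' m k i ≠ 0 → c' m k = c m i)
    (z : ∀ m, Matrix (I m) (I m) ℂ) :
    KRr c' c K' * res c (Kr z) * KRr c c' K = res c' (Kr fun m => K' m * z m * K m) := by
  rw [conj_res c c' K K' hc hc']
  congr 1
  change KR K' * KR z * KR K = KR _
  rw [KR_mul, KR_mul]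

end words

private theorem ext_inj {e : ℕ} (σ : Equiv.Perm (Fin e)) (m : Fin (e + 1)) :
    ext σ⁻¹ (ext σ m) = m := by
  rw [← ext_mul, inv_mul_cancel]
  induction m using Fin.lastCases with
  | last => rw [ext_last]
  | cast i => rw [ext_castSucc]; rfl

private theorem ext_inj' {e : ℕ} (σ : Equiv.Perm (Fin e)) (m : Fin (e + 1)) :
    ext σ (ext σ⁻¹ m) = m := by
  rw [← ext_mul, mul_inv_cancel]
  induction m using Fin.lastCases with
  | last => rw [ext_last]
  | cast i => rw [ext_castSucc]; rfl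

private theorem KR_PW {e : ℕ} {X X' : Type} [Fintype X] [DecidableEq X] [Fintype X'] [DecidableEq X']
    (K : Fin (e + 1) → Matrix X X' ℂ) (hK : ∀ i j : Fin e, K i.castSucc = K j.castSucc)
    (σ : Equiv.Perm (Fin e)) :
    (PW σ : Matrix (Fin (e + 1) → X) (Fin (e + 1) → X) ℂ) * KR (I := fun _ => X) (I' := fun _ => X') K =
      KR (I := fun _ => X) (I' := fun _ => X') K * PW σ := by
  have hKe : ∀ m, K (ext σ m) = K m := by
    intro m
    induction m using Fin.lastCases with
    | last => rw [ext_last]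
    | cast i => rw [ext_castSucc]; exact hK _ _
  ext p r
  change (∑ q : Fin (e + 1) → X, (if p = fun m => q (ext σ m) then (1 : ℂ) else 0) *
    KR (I := fun _ => X) (I' := fun _ => X') K q r) = ∑ q : Fin (e + 1) → X',
      KR (I := fun _ => X) (I' := fun _ => X') K p q * (if q = fun m => r (ext σ m) then (1 : ℂ) else 0)
  rw [Finset.sum_eq_single (fun m => p (ext σ⁻¹ m)), Finset.sum_eq_single (fun m => r (ext σ m))]
  · rw [if_pos (by funext m; simp only [ext_inj]), if_pos rfl, one_mul, mul_one]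
    unfold KR
    let τ : Equiv.Perm (Fin (e + 1)) := ⟨ext σ, ext σ⁻¹, ext_inj σ, ext_inj' σ⟩
    rw [← Equiv.prod_comp τ]
    refine Finset.prod_congr rfl fun m _ => ?_
    change K (ext σ m) (p (ext σ⁻¹ (ext σ m))) (r (ext σ m)) = _
    rw [hKe, ext_inj]
  · intro q _ hq
    rw [if_neg hq, mul_zero]
  · simp
  · intro q _ hq
    rw [if_neg, zero_mul]
    intro h
    apply hq
    funext m
    rw [h]
    simp only [ext_inj']
  · simp

theorem KRr_PW {e : ℕ} {X X' : Type} [Fintype X] [DecidableEq X] [Fintype X'] [DecidableEq X']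
    (c : Fin (e + 1) → X → Lam) (c' : Fin (e + 1) → X' → Lam) (K : Fin (e + 1) → Matrix X X' ℂ)
    (K' : Fin (e + 1) → Matrix X' X ℂ) (h : ∀ m, K m * K' m = 1) (h' : ∀ m, K' m * K m = 1)
    (hc : ∀ m i k, K m i k ≠ 0 → c m i = c' m k) (hc' : ∀ m k i, K' m k i ≠ 0 → c' m k = c m i)
    (hK : ∀ i j : Fin e, K i.castSucc = K j.castSucc)
    (hK' : ∀ i j : Fin e, K' i.castSucc = K' j.castSucc) (σ : Equiv.Perm (Fin e)) :
    KRr (I := fun _ => X') (I' := fun _ => X) c' c K' * res (I := fun _ => X) c (PW σ) *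
      KRr (I := fun _ => X) (I' := fun _ => X') c c' K = res (I := fun _ => X') c' (PW σ) := by
  rw [conj_res c c' K K' hc hc']
  congr 1
  refine (congrArg (fun Z => Z * KR (I := fun _ => X) (I' := fun _ => X') K)
    (KR_PW K' hK' σ).symm).trans ?_
  refine (Matrix.mul_assoc _ _ _).trans ?_
  have e2 : KR (I := fun _ => X') (I' := fun _ => X) K' * KR (I := fun _ => X) (I' := fun _ => X') K =
      (1 : Matrix (Fin (e + 1) → X') (Fin (e + 1) → X') ℂ) := by
    refine (KR_mul (I := fun _ => X') (I' := fun _ => X) (I'' := fun _ => X') K' K).trans ?_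
    simp only [h']
    exact KR_one
  exact (congrArg (fun Z => PW σ * Z) e2).trans (Matrix.mul_one _)

end Pool.Agent.INV5
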