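import Pool.Agent.INV5.Defs

/-!
# INV5, module WO2: matrices on words (`At`, `Tot`, `Kr`, `res`, `PW`)

All statements are entrywise computations. `Kr z p q = ∏ m, z m (p m) (q m)`, and
`At m z = Kr (update 1 m z)`: if `p` and `q` agree off `m` the product is `z (p m) (q m)`, otherwise
one factor is `1 (p m') (q m') = 0`. `Kr_mul` is `Finset.prod_univ_sum` (with
`Fintype.piFinset_univ`). Everything about `At` and `Tot` follows from `Kr_mul`:
`Kr τ * At m z = Kr (update τ m (τ m * z))`, `At m z' * Kr τ = Kr (update τ m (z' * τ m))`.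

`Pres c Z` : the matrix `Z` on all words does not mix the words of total label one with the others.
Then `res c` is multiplicative.

`PW σ` is the permutation matrix `e_q ↦ e_(q ∘ ext σ)`; `ext σ ∘ ext σ' = ext (σ * σ')`.
-/

namespace Pool.Agent.INV5

open Matrix

section general

variable {N : ℕ} {I : Fin N → Type} [∀ m, Fintype (I m)] [∀ m, DecidableEq (I m)]

theorem Kr_mul (z z' : ∀ m, Matrix (I m) (I m) ℂ) : Kr z * Kr z' = Kr fun m => z m * z' m := by
  ext p q
  simp only [Matrix.mul_apply, Kr, ← Finset.prod_mul_distrib]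
  rw [Finset.prod_univ_sum, Fintype.piFinset_univ]

theorem Kr_one : Kr (fun m => (1 : Matrix (I m) (I m) ℂ)) = 1 := by
  ext p q
  simp only [Kr, Matrix.one_apply]
  by_cases h : p = q
  · subst h
    simp
  · rw [if_neg h]
    obtain ⟨m, hm⟩ := Function.ne_iff.1 h
    exact Finset.prod_eq_zero (Finset.mem_univ m) (if_neg hm)

theorem At_eq_Kr (m : Fin N) (z : Matrix (I m) (I m) ℂ) :
    At m z = Kr (Function.update (fun m => (1 : Matrix (I m) (I m) ℂ)) m z) := by
  ext p q
  simp only [Kr, At]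
  by_cases h : ∀ m', m' ≠ m → p m' = q m'
  · rw [if_pos h, Finset.prod_eq_single m]
    · simp
    · intro m' _ hm'
      rw [Function.update_of_ne hm', h m' hm', Matrix.one_apply_eq]
    · intro hm
      exact absurd (Finset.mem_univ m) hm
  · rw [if_neg h]
    push Not at h
    obtain ⟨m', hm', hne⟩ := h
    symm
    apply Finset.prod_eq_zero (Finset.mem_univ m')
    rw [Function.update_of_ne hm', Matrix.one_apply_ne hne]

theorem At_mul (m : Fin N) (z z' : Matrix (I m) (I m) ℂ) : At m z * At m z' = At m (z * z') := by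
  rw [At_eq_Kr, At_eq_Kr, At_eq_Kr, Kr_mul]
  congr 1
  funext m'
  by_cases h : m' = m
  · subst h
    simp
  · simp [Function.update_of_ne h]

theorem At_one (m : Fin N) : At m (1 : Matrix (I m) (I m) ℂ) = 1 := by
  rw [At_eq_Kr, Function.update_eq_self_iff.2 rfl, Kr_one]

theorem At_pow (m : Fin N) (z : Matrix (I m) (I m) ℂ) (k : ℕ) : At m (z ^ k) = At m z ^ k := by
  induction k with
  | zero => rw [pow_zero, pow_zero, At_one]
  | succ k ih => rw [pow_succ, pow_succ, ← ih, At_mul]

theorem At_zero (m : Fin N) : At m (0 : Matrix (I m) (I m) ℂ) = 0 := by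
  ext p q
  simp [At]

theorem At_add (m : Fin N) (z z' : Matrix (I m) (I m) ℂ) : At m (z + z') = At m z + At m z' := by
  ext p q
  simp only [At, Matrix.add_apply]
  split_ifs <;> simp

theorem At_neg (m : Fin N) (z : Matrix (I m) (I m) ℂ) : At m (-z) = -At m z := by
  ext p q
  simp only [At, Matrix.neg_apply]
  split_ifs <;> simp

theorem At_smul (m : Fin N) (a : ℂ) (z : Matrix (I m) (I m) ℂ) : At m (a • z) = a • At m z := by
  ext p q
  simp only [At, Matrix.smul_apply]
  split_ifs <;> simp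

theorem At_comm {m m' : Fin N} (h : m ≠ m') (z : Matrix (I m) (I m) ℂ)
    (z' : Matrix (I m') (I m') ℂ) : Commute (At m z) (At m' z') := by
  unfold Commute SemiconjBy
  rw [At_eq_Kr, At_eq_Kr, Kr_mul, Kr_mul]
  congr 1
  funext k
  by_cases hk : k = m
  · subst hk
    rw [Function.update_of_ne h, Matrix.mul_one, Matrix.one_mul]
  · rw [Function.update_of_ne hk, Matrix.mul_one, Matrix.one_mul]

theorem At_comm' {m : Fin N} {z z' : Matrix (I m) (I m) ℂ} (h : Commute z z') :
    Commute (At m z) (At m z') := by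
  unfold Commute SemiconjBy
  rw [At_mul, At_mul, h.eq]

theorem Tot_comm (z z' : ∀ m, Matrix (I m) (I m) ℂ) (h : ∀ m, Commute (z m) (z' m)) :
    Commute (Tot z) (Tot z') := by
  unfold Tot
  apply Commute.sum_left
  intro m _
  apply Commute.sum_right
  intro m' _
  by_cases hm : m = m'
  · subst hm
    exact At_comm' (h m)
  · exact At_comm hm _ _

theorem At_Tot_comm (m : Fin N) (z : Matrix (I m) (I m) ℂ) (z' : ∀ m, Matrix (I m) (I m) ℂ)
    (h : Commute z (z' m)) : Commute (At m z) (Tot z') := by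
  unfold Tot
  apply Commute.sum_right
  intro m' _
  by_cases hm : m = m'
  · subst hm
    exact At_comm' h
  · exact At_comm hm _ _

theorem Kr_At (τ : ∀ m, Matrix (I m) (I m) ℂ) (m : Fin N) (z z' : Matrix (I m) (I m) ℂ)
    (h : τ m * z = z' * τ m) : Kr τ * At m z = At m z' * Kr τ := by
  rw [At_eq_Kr, At_eq_Kr, Kr_mul, Kr_mul]
  congr 1
  funext k
  by_cases hk : k = m
  · subst hk
    rw [Function.update_self, Function.update_self, h]
  · rw [Function.update_of_ne hk, Function.update_of_ne hk, Matrix.mul_one, Matrix.one_mul]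

theorem Kr_Tot (τ z z' : ∀ m, Matrix (I m) (I m) ℂ) (h : ∀ m, τ m * z m = z' m * τ m) :
    Kr τ * Tot z = Tot z' * Kr τ := by
  unfold Tot
  rw [Finset.mul_sum, Finset.sum_mul]
  exact Finset.sum_congr rfl fun m _ => Kr_At τ m (z m) (z' m) (h m)

theorem Tot_neg (z : ∀ m, Matrix (I m) (I m) ℂ) : Tot (fun m => -z m) = -Tot z := by
  unfold Tot
  rw [← Finset.sum_neg_distrib]
  exact Finset.sum_congr rfl fun m _ => At_neg m (z m)

theorem Tot_add (z z' : ∀ m, Matrix (I m) (I m) ℂ) : Tot (fun m => z m + z' m) = Tot z + Tot z' := by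
  unfold Tot
  rw [← Finset.sum_add_distrib]
  exact Finset.sum_congr rfl fun m _ => At_add m (z m) (z' m)

theorem Tot_smul (a : ℂ) (z : ∀ m, Matrix (I m) (I m) ℂ) : Tot (fun m => a • z m) = a • Tot z := by
  unfold Tot
  rw [Finset.smul_sum]
  exact Finset.sum_congr rfl fun m _ => At_smul m a (z m)

/-- the transposed matrices -/
theorem Tot_transpose (z : ∀ m, Matrix (I m) (I m) ℂ) : (Tot z)ᵀ = Tot fun m => (z m)ᵀ := by
  unfold Tot
  rw [Matrix.transpose_sum]
  refine Finset.sum_congr rfl fun m _ => ?_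
  ext p q
  simp only [At, Matrix.transpose_apply]
  by_cases h : ∀ m', m' ≠ m → p m' = q m'
  · rw [if_pos h, if_pos fun m' hm' => (h m' hm').symm]
  · rw [if_neg h, if_neg fun h' => h fun m' hm' => (h' m' hm').symm]

theorem Kr_transpose (z : ∀ m, Matrix (I m) (I m) ℂ) : (Kr z)ᵀ = Kr fun m => (z m)ᵀ := by
  ext p q
  simp [Kr, Matrix.transpose_apply]

theorem Tot_nil (z : ∀ m, Matrix (I m) (I m) ℂ) (h : ∀ m, IsNilpotent (z m)) :
    IsNilpotent (Tot z) := by
  unfold Tot
  have key : ∀ s : Finset (Fin N), IsNilpotent (∑ m ∈ s, At m (z m)) := by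
    intro s
    induction s using Finset.induction_on with
    | empty => simp
    | insert a s ha ih =>
      rw [Finset.sum_insert ha]
      apply Commute.isNilpotent_add _ _ ih
      · apply Commute.sum_right
        intro m' hm'
        exact At_comm (fun h' : a = m' => ha (by rw [h']; exact hm')) _ _
      · obtain ⟨k, hk⟩ := h a
        exact ⟨k, by rw [← At_pow, hk, At_zero]⟩
  exact key _

/-- `Z` does not mix the words of total label one with the others -/
def Pres (c : ∀ m, I m → Lam) (Z : Matrix (∀ m, I m) (∀ m, I m) ℂ) : Prop :=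
  ∀ p q, Z p q ≠ 0 → (∏ m, c m (p m) = 1 ↔ ∏ m, c m (q m) = 1)

private theorem sum_one (c : ∀ m, I m → Lam) (f : (∀ m, I m) → ℂ)
    (h : ∀ r, ¬ ∏ m, c m (r m) = 1 → f r = 0) : ∑ r, f r = ∑ r : One c, f r.1 := by
  classical
  rw [← Finset.sum_subtype (Finset.univ.filter fun r : ∀ m, I m => ∏ m, c m (r m) = 1)
    (fun r => by simp) f]
  symm
  apply Finset.sum_subset (Finset.filter_subset _ _)
  intro r _ hr
  exact h r fun hh => hr (Finset.mem_filter.2 ⟨Finset.mem_univ _, hh⟩)

theorem res_mul (c : ∀ m, I m → Lam) (Z Z' : Matrix (∀ m, I m) (∀ m, I m) ℂ) (h : Pres c Z) :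
    res c (Z * Z') = res c Z * res c Z' := by
  ext p q
  simp only [res, Matrix.submatrix_apply, Matrix.mul_apply]
  exact sum_one c _ fun r hr => by
    have h1 : Z p.1 r = 0 := by
      by_contra hne
      exact hr ((h p.1 r hne).1 p.2)
    rw [h1, zero_mul]

theorem res_mul' (c : ∀ m, I m → Lam) (Z Z' : Matrix (∀ m, I m) (∀ m, I m) ℂ) (h : Pres c Z') :
    res c (Z * Z') = res c Z * res c Z' := by
  ext p q
  simp only [res, Matrix.submatrix_apply, Matrix.mul_apply]
  exact sum_one c _ fun r hr => by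
    have h1 : Z' r q.1 = 0 := by
      by_contra hne
      exact hr ((h r q.1 hne).2 q.2)
    rw [h1, mul_zero]

theorem res_one (c : ∀ m, I m → Lam) : res c (1 : Matrix (∀ m, I m) (∀ m, I m) ℂ) = 1 := by
  ext p q
  simp only [res, Matrix.submatrix_apply, Matrix.one_apply, Subtype.ext_iff]

theorem Pres_mul (c : ∀ m, I m → Lam) {Z Z' : Matrix (∀ m, I m) (∀ m, I m) ℂ} (h : Pres c Z)
    (h' : Pres c Z') : Pres c (Z * Z') := by
  intro p q hpq
  rw [Matrix.mul_apply] at hpq
  obtain ⟨r, _, hr⟩ := Finset.exists_ne_zero_of_sum_ne_zero hpq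
  exact (h p r (left_ne_zero_of_mul hr)).trans (h' r q (right_ne_zero_of_mul hr))

theorem Pres_At (c : ∀ m, I m → Lam) (m : Fin N) (z : Matrix (I m) (I m) ℂ)
    (h : ∀ i k, z i k ≠ 0 → c m i = c m k) : Pres c (At m z) := by
  intro p q hpq
  unfold At at hpq
  by_cases hh : ∀ m', m' ≠ m → p m' = q m'
  · rw [if_pos hh] at hpq
    have : ∏ m, c m (p m) = ∏ m, c m (q m) := by
      apply Finset.prod_congr rfl
      intro m' _
      by_cases hm : m' = m
      · subst hm
        exact h _ _ hpq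
      · rw [hh m' hm]
    rw [this]
  · rw [if_neg hh] at hpq
    exact absurd rfl hpq

theorem Pres_Tot (c : ∀ m, I m → Lam) (z : ∀ m, Matrix (I m) (I m) ℂ)
    (h : ∀ m i k, z m i k ≠ 0 → c m i = c m k) : Pres c (Tot z) := by
  intro p q hpq
  unfold Tot at hpq
  rw [Matrix.sum_apply] at hpq
  obtain ⟨m, _, hm⟩ := Finset.exists_ne_zero_of_sum_ne_zero hpq
  exact Pres_At c m (z m) (h m) p q hm

/-- matrices which preserve the labels -/
theorem Pres_Kr (c : ∀ m, I m → Lam) (z : ∀ m, Matrix (I m) (I m) ℂ)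
    (h : ∀ m i k, z m i k ≠ 0 → c m i = c m k) : Pres c (Kr z) := by
  intro p q hpq
  unfold Kr at hpq
  have : ∏ m, c m (p m) = ∏ m, c m (q m) :=
    Finset.prod_congr rfl fun m hm => h m _ _ (Finset.prod_ne_zero_iff.1 hpq m hm)
  rw [this]

/-- matrices which invert the labels -/
theorem Pres_Kr' (c : ∀ m, I m → Lam) (z : ∀ m, Matrix (I m) (I m) ℂ)
    (h : ∀ m i k, z m i k ≠ 0 → c m i * c m k = 1) : Pres c (Kr z) := by
  intro p q hpq
  unfold Kr at hpq
  have : (∏ m, c m (p m)) * ∏ m, c m (q m) = 1 := by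
    rw [← Finset.prod_mul_distrib]
    exact Finset.prod_eq_one fun m hm => h m _ _ (Finset.prod_ne_zero_iff.1 hpq m hm)
  constructor
  · intro h1
    rwa [h1, one_mul] at this
  · intro h1
    rwa [h1, mul_one] at this

end general

section perm

variable {e : ℕ} {X : Type} [Fintype X] [DecidableEq X]

theorem ext_castSucc (σ : Equiv.Perm (Fin e)) (i : Fin e) : ext σ i.castSucc = (σ i).castSucc := by
  unfold ext
  rw [Fin.lastCases_castSucc]

theorem ext_last (σ : Equiv.Perm (Fin e)) : ext σ (Fin.last e) = Fin.last e := by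
  unfold ext
  rw [Fin.lastCases_last]

theorem ext_mul (σ σ' : Equiv.Perm (Fin e)) (m : Fin (e + 1)) :
    ext (σ * σ') m = ext σ (ext σ' m) := by
  refine Fin.lastCases ?_ (fun i => ?_) m
  · rw [ext_last, ext_last, ext_last]
  · rw [ext_castSucc, ext_castSucc, ext_castSucc, Equiv.Perm.mul_apply]

private theorem ext_one (m : Fin (e + 1)) : ext (1 : Equiv.Perm (Fin e)) m = m := by
  refine Fin.lastCases ?_ (fun i => ?_) m
  · rw [ext_last]
  · rw [ext_castSucc, Equiv.Perm.one_apply]

private theorem ext_inv (σ : Equiv.Perm (Fin e)) (m : Fin (e + 1)) :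
    ext σ (ext σ⁻¹ m) = m := by
  rw [← ext_mul, mul_inv_cancel, ext_one]

private theorem ext_inv' (σ : Equiv.Perm (Fin e)) (m : Fin (e + 1)) :
    ext σ⁻¹ (ext σ m) = m := by
  rw [← ext_mul, inv_mul_cancel, ext_one]

theorem PW_one : PW (1 : Equiv.Perm (Fin e)) = (1 : Matrix (Fin (e + 1) → X) (Fin (e + 1) → X) ℂ) := by
  ext p q
  have h : (fun m => q (ext (1 : Equiv.Perm (Fin e)) m)) = q := by
    funext m
    rw [ext_one]
  simp only [PW, Matrix.one_apply, h]

theorem PW_mul (σ σ' : Equiv.Perm (Fin e)) :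
    (PW σ : Matrix (Fin (e + 1) → X) (Fin (e + 1) → X) ℂ) * PW σ' = PW (σ' * σ) := by
  ext p q
  simp only [PW, Matrix.mul_apply]
  rw [Finset.sum_eq_single fun m => q (ext σ' m)]
  · rw [if_pos rfl, mul_one]
    have h : (fun m => q (ext σ' (ext σ m))) = fun m => q (ext (σ' * σ) m) := by
      funext m
      rw [ext_mul]
    rw [h]
  · intro r _ hr
    rw [if_neg hr, mul_zero]
  · intro h
    exact absurd (Finset.mem_univ _) h

private theorem PW_mul_apply (σ : Equiv.Perm (Fin e))
    (Z : Matrix (Fin (e + 1) → X) (Fin (e + 1) → X) ℂ) (p q : Fin (e + 1) → X) :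
    ((PW σ : Matrix (Fin (e + 1) → X) (Fin (e + 1) → X) ℂ) * Z) p q = Z (fun m => p (ext σ⁻¹ m)) q := by
  simp only [PW, Matrix.mul_apply]
  rw [Finset.sum_eq_single fun m => p (ext σ⁻¹ m)]
  · rw [if_pos (by funext m; exact congrArg p (ext_inv' σ m).symm), one_mul]
  · intro r _ hr
    rw [if_neg, zero_mul]
    rintro rfl
    exact hr (by funext m; exact congrArg r (ext_inv σ m).symm)
  · intro h
    exact absurd (Finset.mem_univ _) h

private theorem mul_PW_apply (σ : Equiv.Perm (Fin e))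
    (Z : Matrix (Fin (e + 1) → X) (Fin (e + 1) → X) ℂ) (p q : Fin (e + 1) → X) :
    (Z * (PW σ : Matrix (Fin (e + 1) → X) (Fin (e + 1) → X) ℂ)) p q = Z p (fun m => q (ext σ m)) := by
  simp only [PW, Matrix.mul_apply]
  rw [Finset.sum_eq_single fun m => q (ext σ m)]
  · rw [if_pos rfl, mul_one]
  · intro r _ hr
    rw [if_neg hr, mul_zero]
  · intro h
    exact absurd (Finset.mem_univ _) h

theorem PW_At (σ : Equiv.Perm (Fin e)) (m : Fin (e + 1)) (z : Matrix X X ℂ) :
    PW σ * At (I := fun _ => X) (ext σ m) z = At (I := fun _ => X) m z * PW σ := by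
  ext p q
  rw [PW_mul_apply, mul_PW_apply]
  simp only [At]
  rw [ext_inv']
  have h : (∀ m', m' ≠ ext σ m → p (ext σ⁻¹ m') = q m') ↔ ∀ m', m' ≠ m → p m' = q (ext σ m') := by
    constructor
    · intro h m' hm'
      have := h (ext σ m') (fun hh => hm' (by rw [← ext_inv' σ m', hh, ext_inv']))
      rwa [ext_inv'] at this
    · intro h m' hm'
      have := h (ext σ⁻¹ m') (fun hh => hm' (by rw [← hh, ext_inv]))
      rwa [ext_inv] at this
  by_cases hh : ∀ m', m' ≠ m → p m' = q (ext σ m')
  · rw [if_pos (h.2 hh), if_pos hh]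
  · rw [if_neg fun h' => hh (h.1 h'), if_neg hh]

private def extE (σ : Equiv.Perm (Fin e)) : Fin (e + 1) ≃ Fin (e + 1) where
  toFun := ext σ
  invFun := ext σ⁻¹
  left_inv := ext_inv' σ
  right_inv := ext_inv σ

private theorem z_ext {Y : Type*} (σ : Equiv.Perm (Fin e)) (z : Fin (e + 1) → Y)
    (h : ∀ i j : Fin e, z i.castSucc = z j.castSucc) (m : Fin (e + 1)) : z (ext σ m) = z m := by
  refine Fin.lastCases ?_ (fun i => ?_) m
  · rw [ext_last]
  · rw [ext_castSucc, h]

/-- permutations commute with sums over the letters -/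
theorem PW_Tot (σ : Equiv.Perm (Fin e)) (z : Fin (e + 1) → Matrix X X ℂ)
    (h : ∀ i j : Fin e, z i.castSucc = z j.castSucc) :
    Commute (PW σ) (Tot (I := fun _ => X) z) := by
  unfold Commute SemiconjBy Tot
  rw [Finset.mul_sum, Finset.sum_mul]
  rw [← (extE σ).sum_comp]
  refine Finset.sum_congr rfl fun m _ => ?_
  rw [show extE σ m = ext σ m from rfl, PW_At, z_ext σ z h]

/-- permutations commute with tensor products -/
theorem PW_Kr (σ : Equiv.Perm (Fin e)) (z : Fin (e + 1) → Matrix X X ℂ)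
    (h : ∀ i j : Fin e, z i.castSucc = z j.castSucc) :
    Commute (PW σ) (Kr (I := fun _ => X) z) := by
  unfold Commute SemiconjBy
  ext p q
  rw [PW_mul_apply, mul_PW_apply]
  simp only [Kr]
  rw [← (extE σ).prod_comp]
  refine Finset.prod_congr rfl fun m _ => ?_
  rw [show extE σ m = ext σ m from rfl, ext_inv', z_ext σ z h]

theorem Pres_PW (σ : Equiv.Perm (Fin e)) (c : Fin (e + 1) → X → Lam)
    (h : ∀ i j : Fin e, c i.castSucc = c j.castSucc) : Pres (I := fun _ => X) c (PW σ) := by
  intro p q hpq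
  unfold PW at hpq
  by_cases hh : p = fun m => q (ext σ m)
  · have : ∏ m, c m (p m) = ∏ m, c m (q m) := by
      rw [hh, ← (extE σ).prod_comp (fun m => c m (q m))]
      refine Finset.prod_congr rfl fun m _ => ?_
      rw [show extE σ m = ext σ m from rfl, z_ext σ c h]
    rw [this]
  · rw [if_neg hh] at hpq
    exact absurd rfl hpq

end perm

end Pool.Agent.INV5
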