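import Pool.Agent.INV5.WO1
import Pool.Agent.INV5.WO2

/-!
# INV5, module WO3: the operators on words of a `JD`

`rvs b z` is the transposed matrix in the basis `(-1) ^ p e*(a, rev p)`; it is an antihomomorphism, and
`rvs (Sh b) = - Sh b`. Everything else follows from module WO2: `D.z e m` commutes with `Sh`, `D.τ e m`
anticommutes with `Sh` and `D.z e m`, `D.τ e m` is an involution, `Sh`, `D.z`, `PW` preserve the labels
and `D.τ` inverts them, so all operators on all words are `Pres` and `res` is multiplicative on them.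
For `rs` with the predicate `re` below use that only `TT` changes the label of the last letter, to the
inverse.
-/

namespace Pool.Agent.INV5

open Matrix

section rvs

variable {β : Type} [Fintype β] [DecidableEq β] (b : β → ℕ)

/-- reversal of the positions -/
private def flipE : Idx b ≃ Idx b where
  toFun j := ⟨j.1, j.2.rev⟩
  invFun j := ⟨j.1, j.2.rev⟩
  left_inv j := by obtain ⟨a, p⟩ := j; simp
  right_inv j := by obtain ⟨a, p⟩ := j; simp

omit [Fintype β] [DecidableEq β] in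
private theorem rvs_apply (z : Matrix (Idx b) (Idx b) ℂ) (a a' : β) (p : Fin (b a))
    (p' : Fin (b a')) : rvs b z ⟨a, p⟩ ⟨a', p'⟩ =
      (-1) ^ ((p : ℕ) + (p' : ℕ)) * z ⟨a', p'.rev⟩ ⟨a, p.rev⟩ := rfl

theorem rvs_mul (z z' : Matrix (Idx b) (Idx b) ℂ) : rvs b (z * z') = rvs b z' * rvs b z := by
  ext ⟨a, p⟩ ⟨a', p'⟩
  rw [rvs_apply, Matrix.mul_apply, Matrix.mul_apply, Finset.mul_sum, ← Equiv.sum_comp (flipE b)]
  refine Finset.sum_congr rfl fun j _ => ?_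
  obtain ⟨c, r⟩ := j
  have h1 : ((-1 : ℂ)) ^ ((p : ℕ) + (p' : ℕ)) =
      (-1) ^ ((p : ℕ) + (r : ℕ)) * (-1) ^ ((r : ℕ) + (p' : ℕ)) := by
    rw [← pow_add, show (p : ℕ) + (r : ℕ) + ((r : ℕ) + (p' : ℕ)) =
      (p : ℕ) + (p' : ℕ) + 2 * (r : ℕ) by ring, pow_add _ ((p : ℕ) + (p' : ℕ)),
      pow_mul (-1 : ℂ) 2 (r : ℕ)]
    simp
  rw [rvs_apply, rvs_apply, h1]
  have h2 : flipE b ⟨c, r⟩ = ⟨c, r.rev⟩ := rfl
  rw [h2]
  ring

theorem rvs_one : rvs b 1 = 1 := by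
  ext ⟨a, p⟩ ⟨a', p'⟩
  rw [rvs_apply, Matrix.one_apply, Matrix.one_apply]
  by_cases h : a = a'
  · subst h
    by_cases hp : p = p'
    · subst hp
      simp [← two_mul]
    · have h1 : ¬ ((⟨a, p'.rev⟩ : Idx b) = ⟨a, p.rev⟩) := by
        intro h
        simp only [Sigma.mk.injEq, heq_eq_eq, true_and, Fin.rev_inj] at h
        exact hp h.symm
      have h2 : ¬ ((⟨a, p⟩ : Idx b) = ⟨a, p'⟩) := by
        intro h
        simp only [Sigma.mk.injEq, heq_eq_eq, true_and] at h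
        exact hp h
      rw [if_neg h1, if_neg h2, mul_zero]
  · have h1 : ¬ ((⟨a', p'.rev⟩ : Idx b) = ⟨a, p.rev⟩) := by
      intro h'
      exact h (congrArg Sigma.fst h').symm
    have h2 : ¬ ((⟨a, p⟩ : Idx b) = ⟨a', p'⟩) := by
      intro h'
      exact h (congrArg Sigma.fst h')
    rw [if_neg h1, if_neg h2, mul_zero]

theorem rvs_neg (z : Matrix (Idx b) (Idx b) ℂ) : rvs b (-z) = -rvs b z := by
  ext i k
  simp only [rvs, Matrix.neg_apply, mul_neg]

/-- `rvs` is an involution up to the signs `(-1) ^ b a` -/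
theorem rvs_rvs (z : Matrix (Idx b) (Idx b) ℂ) :
    rvs b (rvs b z) = fun i k => (-1) ^ (b i.1 + b k.1) * z i k := by
  ext ⟨a, p⟩ ⟨a', p'⟩
  rw [rvs_apply, rvs_apply, Fin.rev_rev, Fin.rev_rev, ← mul_assoc, ← pow_add]
  have h1 : (-1 : ℂ) ^ ((p : ℕ) + (p' : ℕ) +
      (((p'.rev : Fin (b a')) : ℕ) + ((p.rev : Fin (b a)) : ℕ))) = (-1) ^ (b a + b a') := by
    have e1 : (b a + b a' : ℕ) = (p : ℕ) + (p' : ℕ) +
        (((p'.rev : Fin (b a')) : ℕ) + ((p.rev : Fin (b a)) : ℕ)) + 2 * 1 := by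
      rw [Fin.val_rev, Fin.val_rev]
      have := p.2
      have := p'.2
      omega
    rw [e1, pow_add _ _ (2 * 1), pow_mul (-1 : ℂ) 2 1]
    simp
  rw [h1]

theorem rvs_Sh : rvs b (Sh b) = -Sh b := by
  ext ⟨a, p⟩ ⟨a', p'⟩
  rw [rvs_apply, Matrix.neg_apply]
  by_cases h : a = a'
  · subst h
    have e1 : (Sh b ⟨a, p'.rev⟩ ⟨a, p.rev⟩ : ℂ) = Sh b ⟨a, p⟩ ⟨a, p'⟩ := by
      have h1 := p.2
      have h2 := p'.2
      simp only [Sh, true_and, Fin.val_rev]
      congr 1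
      simp only [eq_iff_iff]
      omega
    rw [e1]
    by_cases h3 : (p : ℕ) = (p' : ℕ) + 1
    · have h4 : (-1 : ℂ) ^ ((p : ℕ) + (p' : ℕ)) = -1 := by
        rw [h3, show (p' : ℕ) + 1 + (p' : ℕ) = 2 * (p' : ℕ) + 1 by ring, pow_succ,
          pow_mul (-1 : ℂ) 2 (p' : ℕ)]
        simp
      rw [h4, neg_one_mul]
    · have h4 : (Sh b ⟨a, p⟩ ⟨a, p'⟩ : ℂ) = 0 := by
        simp only [Sh, true_and]
        rw [if_neg h3]
      rw [h4, mul_zero, neg_zero]
  · have h1 : (Sh b ⟨a', p'.rev⟩ ⟨a, p.rev⟩ : ℂ) = 0 := by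
      simp only [Sh]
      rw [if_neg fun h' => h h'.1.symm]
    have h2 : (Sh b ⟨a, p⟩ ⟨a', p'⟩ : ℂ) = 0 := by
      simp only [Sh]
      rw [if_neg fun h' => h h'.1]
    rw [h1, h2, mul_zero, neg_zero]

private theorem Sh_pow_apply (k : ℕ) (i j : Idx b) :
    (Sh b ^ k) i j = if i.1 = j.1 ∧ (i.2 : ℕ) = (j.2 : ℕ) + k then 1 else 0 := by
  induction k generalizing i j with
  | zero =>
    rw [pow_zero, Matrix.one_apply]
    obtain ⟨a, p⟩ := i
    obtain ⟨a', p'⟩ := j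
    by_cases h : a = a'
    · subst h
      by_cases hp : p = p'
      · subst hp
        simp
      · have h1 : ¬ ((⟨a, p⟩ : Idx b) = ⟨a, p'⟩) := by
          intro h
          simp only [Sigma.mk.injEq, heq_eq_eq, true_and] at h
          exact hp h
        rw [if_neg h1, if_neg]
        rintro ⟨-, h2⟩
        exact hp (Fin.ext h2)
    · have h1 : ¬ ((⟨a, p⟩ : Idx b) = ⟨a', p'⟩) := fun h' => h (congrArg Sigma.fst h')
      rw [if_neg h1, if_neg fun h' => h h'.1]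
  | succ k ih =>
    rw [pow_succ', Matrix.mul_apply]
    simp only [ih, mul_ite, mul_one, mul_zero, ← Finset.sum_filter]
    by_cases h : i.1 = j.1 ∧ (i.2 : ℕ) = (j.2 : ℕ) + (k + 1)
    · rw [if_pos h]
      obtain ⟨a, p⟩ := i
      obtain ⟨a', p'⟩ := j
      obtain ⟨h1, h2⟩ := h
      change a = a' at h1
      subst h1
      change (p : ℕ) = (p' : ℕ) + (k + 1) at h2
      have h3 := p.2
      rw [Finset.sum_eq_single (⟨a, ⟨(p' : ℕ) + k, by omega⟩⟩ : Idx b)]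
      · simp only [Sh, true_and]
        exact if_pos h2
      · rintro ⟨c, r⟩ hc hne
        rw [Finset.mem_filter] at hc
        exfalso
        apply hne
        obtain ⟨-, h4, h5⟩ := hc
        change c = a at h4
        subst h4
        congr 1
        exact Fin.ext h5
      · intro hc
        exfalso
        apply hc
        rw [Finset.mem_filter]
        exact ⟨Finset.mem_univ _, rfl, rfl⟩
    · rw [if_neg h]
      refine Finset.sum_eq_zero fun r hr => ?_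
      rw [Finset.mem_filter] at hr
      obtain ⟨-, h1, h2⟩ := hr
      simp only [Sh]
      rw [if_neg]
      rintro ⟨h3, h4⟩
      exact h ⟨h3.trans h1, by omega⟩

private theorem Sh_pow_ne (k : ℕ) (i j : Idx b) (h : (Sh b ^ k) i j ≠ 0) : i.1 = j.1 := by
  rw [Sh_pow_apply] at h
  by_contra h'
  exact h (if_neg fun h'' => h' h''.1)

theorem Sh_nil (a0 : ℕ) (h : ∀ a, b a ≤ a0) : Sh b ^ a0 = 0 := by
  ext ⟨a, p⟩ ⟨a', p'⟩
  rw [Sh_pow_apply, Matrix.zero_apply, if_neg]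
  rintro ⟨h1, h2⟩
  have h3 : (p : ℕ) < b a := p.2
  have h4 := h a
  change (p : ℕ) = (p' : ℕ) + a0 at h2
  omega

end rvs

namespace JD

variable (D : JD) (e : ℕ)

private theorem c_eq (m : Fin (e + 1)) (i : Idx D.b) : D.c e m i = D.cb e m i.1 := rfl

private theorem cb_mul (m : Fin (e + 1)) (a a' : D.β) (h : D.χ a * D.χ a' = 1) :
    D.cb e m a * D.cb e m a' = 1 := by
  unfold cb
  split_ifs
  · exact h
  · rw [← mul_inv, h, inv_one]

private theorem cb_congr (m : Fin (e + 1)) (a a' : D.β) (h : D.χ a = D.χ a') :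
    D.cb e m a = D.cb e m a' := by
  unfold cb
  rw [h]

private theorem z_label (m : Fin (e + 1)) (i k : Idx D.b) (h : D.z e m i k ≠ 0) :
    D.χ i.1 = D.χ k.1 := by
  unfold z at h
  split_ifs at h with h1
  · exact D.hy i k h
  · refine (D.hy ⟨k.1, k.2.rev⟩ ⟨i.1, i.2.rev⟩ fun h' => h ?_).symm
    rw [Matrix.neg_apply]
    unfold rvs
    rw [h', mul_zero, neg_zero]

private theorem τ_label (m : Fin (e + 1)) (i k : Idx D.b) (h : D.τ e m i k ≠ 0) :
    D.χ i.1 * D.χ k.1 = 1 := by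
  unfold τ at h
  split_ifs at h with h1
  · exact D.ht i k h
  · rw [mul_comm]
    refine D.ht ⟨k.1, k.2.rev⟩ ⟨i.1, i.2.rev⟩ fun h' => h ?_
    unfold rvs
    rw [h', mul_zero]

private theorem z_comm (m : Fin (e + 1)) : Sh D.b * D.z e m = D.z e m * Sh D.b := by
  unfold z
  split_ifs
  · exact D.comm
  · have h1 : rvs D.b (D.y * Sh D.b) = rvs D.b (Sh D.b * D.y) := by rw [D.comm]
    rw [rvs_mul, rvs_mul, rvs_Sh] at h1
    rw [mul_neg, neg_mul, ← neg_mul, h1, mul_neg]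

private theorem τ_τ (m : Fin (e + 1)) : D.τ e m * D.τ e m = 1 := by
  unfold τ
  split_ifs
  · exact D.tt
  · rw [← rvs_mul, D.tt, rvs_one]

private theorem τ_Sh (m : Fin (e + 1)) : D.τ e m * Sh D.b = -Sh D.b * D.τ e m := by
  unfold τ
  split_ifs
  · rw [D.tS, neg_mul]
  · have h1 : rvs D.b (Sh D.b * D.t) = rvs D.b (-(D.t * Sh D.b)) := by rw [D.tS, neg_neg]
    rw [rvs_neg, rvs_mul, rvs_mul, rvs_Sh] at h1
    rw [← neg_inj, ← mul_neg, h1]

private theorem τ_z (m : Fin (e + 1)) : D.τ e m * D.z e m = -D.z e m * D.τ e m := by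
  unfold τ z
  split_ifs
  · rw [D.ty, neg_mul]
  · have h1 : rvs D.b (D.y * D.t) = rvs D.b (-(D.t * D.y)) := by rw [D.ty, neg_neg]
    rw [rvs_neg, rvs_mul, rvs_mul] at h1
    rw [mul_neg, h1, neg_neg, neg_neg]

private theorem pres_LL : Pres (D.c e) (Tot fun _ => Sh D.b) := by
  refine Pres_Tot _ _ fun m i k h => ?_
  have h1 := Sh_pow_ne D.b 1 i k (by rwa [pow_one])
  rw [c_eq, c_eq, h1]

private theorem pres_AA (m : Fin (e + 1)) (k : ℕ) : Pres (D.c e) (At m (Sh D.b ^ k)) := by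
  refine Pres_At _ _ _ fun i j h => ?_
  rw [c_eq, c_eq, Sh_pow_ne D.b k i j h]

private theorem pres_YY : Pres (D.c e) (Tot (D.z e)) := by
  refine Pres_Tot _ _ fun m i k h => ?_
  rw [c_eq, c_eq]
  exact D.cb_congr e m _ _ (D.z_label e m i k h)

private theorem pres_TT : Pres (D.c e) (Kr (D.τ e)) := by
  refine Pres_Kr' _ _ fun m i k h => ?_
  rw [c_eq, c_eq]
  exact D.cb_mul e m _ _ (D.τ_label e m i k h)

private theorem pres_PP (σ : Equiv.Perm (Fin e)) : Pres (D.c e) (PW σ) := by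
  refine Pres_PW σ _ fun i j => ?_
  funext k
  rw [c_eq, c_eq]
  unfold cb
  rw [if_neg (Fin.castSucc_lt_last i).ne, if_neg (Fin.castSucc_lt_last j).ne]

theorem LL_YY : Commute (D.LL e) (D.YY e) := by
  have h := Tot_comm (I := fun _ => Idx D.b) (fun _ : Fin (e + 1) => Sh D.b) (D.z e)
    fun m => D.z_comm e m
  unfold Commute SemiconjBy LL YY
  rw [← res_mul _ _ _ (D.pres_LL e), ← res_mul _ _ _ (D.pres_YY e), h.eq]

theorem TT_TT : D.TT e * D.TT e = 1 := by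
  unfold TT
  rw [← res_mul _ _ _ (D.pres_TT e), Kr_mul, show (fun m => D.τ e m * D.τ e m) = fun _ => 1 from
    funext fun m => D.τ_τ e m, Kr_one, res_one]

theorem TT_LL : D.TT e * D.LL e = -(D.LL e * D.TT e) := by
  have h := Kr_Tot (I := fun _ => Idx D.b) (D.τ e) (fun _ => Sh D.b) (fun _ => -Sh D.b)
    fun m => D.τ_Sh e m
  rw [Tot_neg, neg_mul] at h
  unfold TT LL
  rw [← res_mul _ _ _ (D.pres_TT e), ← res_mul _ _ _ (D.pres_LL e), h]
  rfl

theorem TT_YY : D.TT e * D.YY e = -(D.YY e * D.TT e) := by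
  have h := Kr_Tot (I := fun _ => Idx D.b) (D.τ e) (D.z e) (fun m => -D.z e m)
    fun m => D.τ_z e m
  rw [Tot_neg, neg_mul] at h
  unfold TT YY
  rw [← res_mul _ _ _ (D.pres_TT e), ← res_mul _ _ _ (D.pres_YY e), h]
  rfl

theorem PP_one : D.PP e 1 = 1 := by
  unfold PP
  rw [PW_one, res_one]

theorem PP_mul (σ σ' : Equiv.Perm (Fin e)) : D.PP e σ * D.PP e σ' = D.PP e (σ' * σ) := by
  unfold PP
  rw [← res_mul _ _ _ (D.pres_PP e σ), PW_mul]

theorem PP_LL (σ : Equiv.Perm (Fin e)) : Commute (D.PP e σ) (D.LL e) := by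
  have h := PW_Tot (X := Idx D.b) σ (fun _ => Sh D.b) fun _ _ => rfl
  unfold Commute SemiconjBy LL PP
  rw [← res_mul _ _ _ (D.pres_PP e σ), ← res_mul _ _ _ (D.pres_LL e), h.eq]

theorem PP_YY (σ : Equiv.Perm (Fin e)) : Commute (D.PP e σ) (D.YY e) := by
  have h := PW_Tot (X := Idx D.b) σ (D.z e) fun i j => by
    unfold z
    rw [if_neg (Fin.castSucc_lt_last i).ne, if_neg (Fin.castSucc_lt_last j).ne]
  unfold Commute SemiconjBy YY PP
  rw [← res_mul _ _ _ (D.pres_PP e σ), ← res_mul _ _ _ (D.pres_YY e), h.eq]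

theorem PP_TT (σ : Equiv.Perm (Fin e)) : Commute (D.PP e σ) (D.TT e) := by
  have h := PW_Kr (X := Idx D.b) σ (D.τ e) fun i j => by
    unfold τ
    rw [if_neg (Fin.castSucc_lt_last i).ne, if_neg (Fin.castSucc_lt_last j).ne]
  unfold Commute SemiconjBy TT PP
  rw [← res_mul _ _ _ (D.pres_PP e σ), ← res_mul _ _ _ (D.pres_TT e), h.eq]

theorem AA1_pow (m : Fin (e + 1)) (k : ℕ) : D.AA1 e m k = D.AA1 e m 1 ^ k := by
  induction k with
  | zero =>
    unfold AA1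
    rw [pow_zero, pow_zero, At_one, res_one]
  | succ k ih =>
    rw [pow_succ, ← ih]
    unfold AA1
    rw [← res_mul _ _ _ (D.pres_AA e m k), At_mul, ← pow_add]

theorem AA1_comm (m m' : Fin (e + 1)) (k k' : ℕ) : Commute (D.AA1 e m k) (D.AA1 e m' k') := by
  unfold Commute SemiconjBy AA1
  rw [← res_mul _ _ _ (D.pres_AA e m k), ← res_mul _ _ _ (D.pres_AA e m' k')]
  congr 1
  by_cases h : m = m'
  · subst h
    rw [At_mul, At_mul, ← pow_add, ← pow_add, add_comm k k']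
  · exact At_comm h _ _

theorem AA1_LL (m : Fin (e + 1)) (k : ℕ) : Commute (D.AA1 e m k) (D.LL e) := by
  unfold Commute SemiconjBy AA1 LL
  rw [← res_mul _ _ _ (D.pres_AA e m k), ← res_mul _ _ _ (D.pres_LL e)]
  congr 1
  exact At_Tot_comm m _ _ ((Commute.refl _).pow_left k)

theorem AA1_YY (m : Fin (e + 1)) (k : ℕ) : Commute (D.AA1 e m k) (D.YY e) := by
  unfold Commute SemiconjBy AA1 YY
  rw [← res_mul _ _ _ (D.pres_AA e m k), ← res_mul _ _ _ (D.pres_YY e)]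
  congr 1
  exact At_Tot_comm m _ _ (Commute.pow_left (D.z_comm e m) k)

theorem LL_eq : D.LL e = ∑ m, D.AA1 e m 1 := by
  ext p q
  rw [Matrix.sum_apply]
  unfold LL AA1 Tot res
  simp only [Matrix.submatrix_apply, Matrix.sum_apply, pow_one]

theorem TT_AA1 (m : Fin (e + 1)) (k : ℕ) :
    D.TT e * D.AA1 e m k = (-1 : ℂ) ^ k • (D.AA1 e m k * D.TT e) := by
  have h1 : ∀ k : ℕ, D.τ e m * Sh D.b ^ k = ((-1 : ℂ) ^ k • Sh D.b ^ k) * D.τ e m := by
    intro k
    induction k with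
    | zero => simp
    | succ k ih =>
      rw [pow_succ (Sh D.b), ← mul_assoc, ih, mul_assoc, D.τ_Sh, neg_mul, mul_neg, ← mul_assoc,
        smul_mul_assoc, pow_succ (-1 : ℂ), mul_neg_one, neg_smul, neg_mul]
  have h := Kr_At (I := fun _ => Idx D.b) (D.τ e) m _ _ (h1 k)
  rw [At_smul, smul_mul_assoc] at h
  unfold TT AA1
  rw [← res_mul _ _ _ (D.pres_TT e), ← res_mul _ _ _ (D.pres_AA e m k), h]
  rfl

theorem PP_AA1 (σ : Equiv.Perm (Fin e)) (m : Fin (e + 1)) (k : ℕ) :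
    D.PP e σ * D.AA1 e (ext σ m) k = D.AA1 e m k * D.PP e σ := by
  unfold PP AA1
  rw [← res_mul _ _ _ (D.pres_PP e σ), ← res_mul _ _ _ (D.pres_AA e m k), PW_At]

theorem TT_label (p q : D.J e) (h : D.TT e p q ≠ 0) (m : Fin (e + 1)) :
    D.χ (p.1 m).1 * D.χ (q.1 m).1 = 1 := by
  have h1 : ∏ m, D.τ e m (p.1 m) (q.1 m) ≠ 0 := h
  exact D.τ_label e m _ _ (Finset.prod_ne_zero_iff.mp h1 m (Finset.mem_univ m))

private theorem At_ne (m' : Fin (e + 1)) (z : Matrix (Idx D.b) (Idx D.b) ℂ)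
    (p q : Fin (e + 1) → Idx D.b) (h : At (I := fun _ => Idx D.b) m' z p q ≠ 0)
    (m : Fin (e + 1)) : p m = q m ∨ (m = m' ∧ z (p m) (q m) ≠ 0) := by
  unfold At at h
  split_ifs at h with h1
  · by_cases h2 : m = m'
    · subst h2
      exact Or.inr ⟨rfl, h⟩
    · exact Or.inl (h1 m h2)
  · exact absurd rfl h

private theorem Tot_ne (z : Fin (e + 1) → Matrix (Idx D.b) (Idx D.b) ℂ)
    (p q : Fin (e + 1) → Idx D.b) (h : Tot (I := fun _ => Idx D.b) z p q ≠ 0)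
    (m : Fin (e + 1)) : p m = q m ∨ z m (p m) (q m) ≠ 0 := by
  unfold Tot at h
  rw [Matrix.sum_apply] at h
  obtain ⟨m', -, h1⟩ := Finset.exists_ne_zero_of_sum_ne_zero h
  rcases D.At_ne e m' _ p q h1 m with h2 | ⟨rfl, h2⟩
  · exact Or.inl h2
  · exact Or.inr h2

theorem LL_label (p q : D.J e) (h : D.LL e p q ≠ 0) (m : Fin (e + 1)) : (p.1 m).1 = (q.1 m).1 := by
  have h0 : Tot (I := fun _ => Idx D.b) (fun _ => Sh D.b) p.1 q.1 ≠ 0 := h
  rcases D.Tot_ne e _ _ _ h0 m with h1 | h1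
  · rw [h1]
  · exact Sh_pow_ne D.b 1 _ _ (by rwa [pow_one])

theorem AA1_label (m' : Fin (e + 1)) (k : ℕ) (p q : D.J e) (h : D.AA1 e m' k p q ≠ 0)
    (m : Fin (e + 1)) : (p.1 m).1 = (q.1 m).1 := by
  have h0 : At (I := fun _ => Idx D.b) m' (Sh D.b ^ k) p.1 q.1 ≠ 0 := h
  rcases D.At_ne e _ _ _ _ h0 m with h1 | ⟨-, h1⟩
  · rw [h1]
  · exact Sh_pow_ne D.b k _ _ h1

theorem YY_label (p q : D.J e) (h : D.YY e p q ≠ 0) (m : Fin (e + 1)) :
    D.χ (p.1 m).1 = D.χ (q.1 m).1 := by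
  have h0 : Tot (I := fun _ => Idx D.b) (D.z e) p.1 q.1 ≠ 0 := h
  rcases D.Tot_ne e _ _ _ h0 m with h1 | h1
  · rw [h1]
  · exact D.z_label e m _ _ h1

theorem PP_label (σ : Equiv.Perm (Fin e)) (p q : D.J e) (h : D.PP e σ p q ≠ 0)
    (m : Fin (e + 1)) : p.1 m = q.1 (ext σ m) := by
  have h0 : (if p.1 = fun m => q.1 (ext σ m) then (1 : ℂ) else 0) ≠ 0 := h
  have h1 : p.1 = fun m => q.1 (ext σ m) := by
    by_contra h2
    exact h0 (if_neg h2)
  exact congrFun h1 m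

end JD

end Pool.Agent.INV5
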