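import Pool.Agent.INV5.R8
import Pool.Agent.INV5.R9
import Pool.Agent.INV5.RT
import Pool.Agent.INV5.WO3

/-!
# INV5, module R10: from `ND` to `JD`

Let `l = x + c y`, `jordan_lab`: `β, b, χ', B, B'` with `B' l B = Sh b`. The data `D`: `y_D = B' y B`,
`t_D = B' t B`, labels `χ'`. `n`: the square matrices `B B' = 1`, `B' B = 1` force `card (Idx b) = n`
(`Matrix` rank or `LinearEquiv`). All axioms of `JD` follow from those of `ND` (`t l = - l t`).

Transport of words (module RT). Let `R (i, k) = (-1) ^ pos i` if `k = rev i`, `0` otherwise, and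
`R' (i, k) = (-1) ^ pos k` if `k = rev i`, `0` otherwise; `R R' = R' R = 1` and `rvs b z = R zᵀ R'`. Put
`Bc = B'ᵀ R'` and `Bc' = R Bᵀ`; then `Bc' (-zᵀ) Bc = - rvs b (B' z B)` and `Bc' tᵀ Bc = rvs b (B' t B)`.
Let `K` be the (rectangular) tensor product of `B` (last letter) and `Bc` (other letters), a matrix from
`D`-words to `E`-words, and `K'` the one of `B'`, `Bc'`. They are inverse to each other, do not change the
total label (for covector letters the labels are the inverses of the labels of the blocks on both sides),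
so their restrictions to the words of total label one are inverse to each other and
`K' (E.L e z) K = ` the operator of `D` with `z` replaced by `B' z B`; in particular `K' (E.L e l) K = LL e`,
`K' (E.L e y) K = YY e`, `K' (E.TT e) K = D.TT e`, `K' (E.PP e σ) K = D.PP e σ` (all covector letters are
transformed by the same matrix). Since `E.L e l = E.L e x + c E.L e y`, the span of the ranges (the
intersection of the kernels) of `E.L e x, E.L e y` and `E.L e l, E.L e y` agree. So all numbers agree, and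
`Good` is transported by the isomorphisms. For `Gen.q`: `soc` corresponds to `ker l ∩ ker y`.
-/

namespace Pool.Agent.INV5

open Matrix

section rev

variable {β : Type} [Fintype β] [DecidableEq β] (b : β → ℕ)

private def r10rev (i : Idx b) : Idx b := ⟨i.1, i.2.rev⟩

omit [Fintype β] [DecidableEq β] in
private theorem r10rev_rev (i : Idx b) : r10rev b (r10rev b i) = i := by
  obtain ⟨a, p⟩ := i
  simp [r10rev]

private def r10R : Matrix (Idx b) (Idx b) ℂ := fun i k =>
  if k = r10rev b i then (-1) ^ (i.2 : ℕ) else 0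

private def r10R' : Matrix (Idx b) (Idx b) ℂ := fun i k =>
  if k = r10rev b i then (-1) ^ (k.2 : ℕ) else 0

private theorem r10R_mul {J : Type*} (z : Matrix (Idx b) J ℂ) (i : Idx b) (k : J) :
    (r10R b * z) i k = (-1) ^ (i.2 : ℕ) * z (r10rev b i) k := by
  rw [Matrix.mul_apply, Finset.sum_eq_single (r10rev b i)]
  · simp [r10R]
  · intro j _ hj
    simp [r10R, hj]
  · intro h
    exact absurd (Finset.mem_univ _) h

private theorem r10_mulR' {J : Type*} [Fintype J] (z : Matrix J (Idx b) ℂ) (i : J) (k : Idx b) :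
    (z * r10R' b) i k = z i (r10rev b k) * (-1) ^ (k.2 : ℕ) := by
  rw [Matrix.mul_apply, Finset.sum_eq_single (r10rev b k)]
  · simp [r10R', r10rev_rev]
  · intro j _ hj
    have h : ¬ k = r10rev b j := by
      intro h
      apply hj
      rw [h, r10rev_rev]
    simp [r10R', h]
  · intro h
    exact absurd (Finset.mem_univ _) h

private theorem r10_sq (p : ℕ) : ((-1 : ℂ)) ^ p * (-1) ^ p = 1 := by
  rw [← mul_pow]
  simp

private theorem r10RR' : r10R b * r10R' b = 1 := by
  ext i k
  rw [r10_mulR', Matrix.one_apply]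
  by_cases h : i = k
  · subst h
    rw [if_pos rfl]
    simp only [r10R, if_true]
    exact r10_sq _
  · rw [if_neg h]
    have h2 : ¬ r10rev b k = r10rev b i := by
      intro h'
      apply h
      rw [← r10rev_rev b i, ← h', r10rev_rev]
    simp [r10R, h2]

private theorem r10R'R : r10R' b * r10R b = 1 := by
  have h := r10RR' b
  exact mul_eq_one_comm.mp h

private theorem r10_rvs (z : Matrix (Idx b) (Idx b) ℂ) : rvs b z = r10R b * zᵀ * r10R' b := by
  ext i k
  rw [r10_mulR', r10R_mul, Matrix.transpose_apply]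
  change (-1 : ℂ) ^ ((i.2 : ℕ) + (k.2 : ℕ)) * z (r10rev b k) (r10rev b i) = _
  rw [pow_add]
  ring

end rev

private theorem r10_ne {J1 J2 J3 J4 : Type*} [Fintype J2] [Fintype J3] (A : Matrix J1 J2 ℂ)
    (Z : Matrix J2 J3 ℂ) (C : Matrix J3 J4 ℂ) (i : J1) (k : J4) (h : (A * Z * C) i k ≠ 0) :
    ∃ j m, A i j ≠ 0 ∧ Z j m ≠ 0 ∧ C m k ≠ 0 := by
  rw [Matrix.mul_apply] at h
  obtain ⟨m, -, hm⟩ := Finset.exists_ne_zero_of_sum_ne_zero h
  have h1 : (A * Z) i m ≠ 0 := left_ne_zero_of_mul hm
  rw [Matrix.mul_apply] at h1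
  obtain ⟨j, -, hj⟩ := Finset.exists_ne_zero_of_sum_ne_zero h1
  exact ⟨j, m, left_ne_zero_of_mul hj, right_ne_zero_of_mul hj, right_ne_zero_of_mul hm⟩

private theorem r10_conj_mul {J J' : Type*} [Fintype J] [Fintype J'] [DecidableEq J]
    [DecidableEq J'] (P : Matrix J J' ℂ) (P' : Matrix J' J ℂ) (h : P * P' = 1)
    (z z' : Matrix J J ℂ) : P' * z * P * (P' * z' * P) = P' * (z * z') * P := by
  calc P' * z * P * (P' * z' * P) = P' * z * (P * P') * (z' * P) := by
        simp only [Matrix.mul_assoc]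
    _ = P' * (z * z') * P := by
        rw [h]
        simp only [Matrix.mul_assoc, Matrix.mul_one]

private theorem r10_conj_pow {J J' : Type*} [Fintype J] [Fintype J'] [DecidableEq J]
    [DecidableEq J'] (P : Matrix J J' ℂ) (P' : Matrix J' J ℂ) (h : P * P' = 1) (h' : P' * P = 1)
    (z : Matrix J J ℂ) (k : ℕ) : (P' * z * P) ^ k = P' * z ^ k * P := by
  induction k with
  | zero => rw [pow_zero, pow_zero, Matrix.mul_one, h']
  | succ k ih => rw [pow_succ, ih, r10_conj_mul P P' h, pow_succ]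

/-- the data in Jordan form -/
private noncomputable def r10D {n : ℕ} (E : ND n) (c : ℂ) {β : Type} [Fintype β] [DecidableEq β]
    (b : β → ℕ) (χ' : β → Lam) (B : Matrix (Fin n) (Idx b) ℂ) (B' : Matrix (Idx b) (Fin n) ℂ)
    (hb : ∀ a, 0 < b a) (h : B * B' = 1) (h' : B' * B = 1)
    (hl : B' * (E.x + c • E.y) * B = Sh b)
    (hB : ∀ i k, B i k ≠ 0 → E.χ i = χ' k.1) (hB' : ∀ k i, B' k i ≠ 0 → χ' k.1 = E.χ i) : JD where
  β := β
  fin := inferInstance
  dec := inferInstance
  b := b
  χ := χ'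
  y := B' * E.y * B
  t := B' * E.t * B
  hb := hb
  hy i k hik := by
    obtain ⟨j, m, h1, h2, h3⟩ := r10_ne _ _ _ i k hik
    rw [hB' i j h1, E.hy j m h2, hB m k h3]
  ht i k hik := by
    obtain ⟨j, m, h1, h2, h3⟩ := r10_ne _ _ _ i k hik
    rw [hB' i j h1, ← hB m k h3]
    exact E.ht j m h2
  comm := by
    rw [← hl, r10_conj_mul B B' h, r10_conj_mul B B' h]
    congr 2
    rw [Matrix.add_mul, Matrix.mul_add, Matrix.smul_mul, Matrix.mul_smul, E.comm.eq]
  ynil := by
    obtain ⟨k, hk⟩ := E.ynil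
    exact ⟨k, by rw [r10_conj_pow B B' h h', hk, Matrix.mul_zero, Matrix.zero_mul]⟩
  tt := by
    rw [r10_conj_mul B B' h, E.tt, Matrix.mul_one, h']
  tS := by
    rw [← hl, r10_conj_mul B B' h, r10_conj_mul B B' h, Matrix.mul_add, Matrix.mul_smul, E.tx, E.ty,
      Matrix.add_mul, Matrix.smul_mul, smul_neg, ← neg_add, Matrix.mul_neg, Matrix.neg_mul]
  ty := by
    rw [r10_conj_mul B B' h, r10_conj_mul B B' h, E.ty, Matrix.mul_neg, Matrix.neg_mul]

private theorem r10_L_add {n : ℕ} (E : ND n) (e : ℕ) (x y : Matrix (Fin n) (Fin n) ℂ) (c : ℂ) :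
    E.L e (x + c • y) = E.L e x + c • E.L e y := by
  have h : (fun m : Fin (e + 1) => if m = Fin.last e then x + c • y else -(x + c • y)ᵀ) =
      fun m : Fin (e + 1) => (if m = Fin.last e then x else -xᵀ) +
        c • (if m = Fin.last e then y else -yᵀ) := by
    funext m
    split_ifs
    · rfl
    · rw [Matrix.transpose_add, Matrix.transpose_smul, neg_add, smul_neg]
  unfold ND.L
  rw [h]
  have h2 := Tot_add (I := fun _ : Fin (e + 1) => Fin n)
    (fun m => if m = Fin.last e then x else -xᵀ) (fun m => c • (if m = Fin.last e then y else -yᵀ))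
  have h3 := Tot_smul (I := fun _ : Fin (e + 1) => Fin n) c
    (fun m => if m = Fin.last e then y else -yᵀ)
  rw [h3] at h2
  rw [h2]
  rfl

/-- the span of the ranges does not change -/
private theorem r10_ck_add {J κ : Type*} [Fintype J] (A C : Matrix J J ℂ) (c : ℂ)
    (Z Z' : κ → Matrix J J ℂ) (r0 r1 : κ) (h0 : Z r0 = A) (h1 : Z r1 = C) (h0' : Z' r0 = A + c • C)
    (h1' : Z' r1 = C) (hr : ∀ r, r ≠ r0 → Z' r = Z r) : ck Z' = ck Z := by
  apply le_antisymm
  · apply ck_mono Z Z'
    intro r v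
    by_cases h : r = r0
    · subst h
      have e : (Z r).mulVec v = (Z' r).mulVec v - c • (Z' r1).mulVec v := by
        rw [h0, h0', h1', Matrix.add_mulVec, Matrix.smul_mulVec, add_sub_cancel_right]
      rw [e]
      exact Submodule.sub_mem _ (mem_img Z' r v) (Submodule.smul_mem _ _ (mem_img Z' r1 v))
    · rw [← hr r h]
      exact mem_img Z' r v
  · apply ck_mono Z' Z
    intro r v
    by_cases h : r = r0
    · subst h
      have e : (Z' r).mulVec v = (Z r).mulVec v + c • (Z r1).mulVec v := by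
        rw [h0, h0', h1, Matrix.add_mulVec, Matrix.smul_mulVec]
      rw [e]
      exact Submodule.add_mem _ (mem_img Z r v) (Submodule.smul_mem _ _ (mem_img Z r1 v))
    · rw [hr r h]
      exact mem_img Z r v

private theorem r10_ik_add {J : Type*} [Fintype J] (A C : Matrix J J ℂ) (c : ℂ) :
    ik ![A + c • C, C] = ik ![A, C] := by
  rw [ik_eq, ik_eq]
  apply r10_ck_add Aᵀ Cᵀ c _ _ 0 1
  · rfl
  · rfl
  · change (A + c • C)ᵀ = _
    rw [Matrix.transpose_add, Matrix.transpose_smul]
  · rfl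
  · intro r hr
    fin_cases r
    · exact absurd rfl hr
    · rfl

section transport

variable {n : ℕ} (E : ND n) (c : ℂ) {β : Type} [Fintype β] [DecidableEq β]
    (b : β → ℕ) (χ' : β → Lam) (B : Matrix (Fin n) (Idx b) ℂ) (B' : Matrix (Idx b) (Fin n) ℂ)
    (hb : ∀ a, 0 < b a) (h : B * B' = 1) (h' : B' * B = 1)
    (hl : B' * (E.x + c • E.y) * B = Sh b)
    (hB : ∀ i k, B i k ≠ 0 → E.χ i = χ' k.1) (hB' : ∀ k i, B' k i ≠ 0 → χ' k.1 = E.χ i) (e : ℕ)

private noncomputable def r10K (m : Fin (e + 1)) : Matrix (Fin n) (Idx b) ℂ :=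
  if m = Fin.last e then B else B'ᵀ * r10R' b

private noncomputable def r10K' (m : Fin (e + 1)) : Matrix (Idx b) (Fin n) ℂ :=
  if m = Fin.last e then B' else r10R b * Bᵀ

include h in
private theorem r10KK (m : Fin (e + 1)) : r10K b B B' e m * r10K' b B B' e m = 1 := by
  unfold r10K r10K'
  split_ifs
  · exact h
  · calc B'ᵀ * r10R' b * (r10R b * Bᵀ) = B'ᵀ * (r10R' b * r10R b) * Bᵀ := by
          simp only [Matrix.mul_assoc]
      _ = (B * B')ᵀ := by rw [r10R'R, Matrix.mul_one, Matrix.transpose_mul]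
      _ = 1 := by rw [h, Matrix.transpose_one]

include h' in
private theorem r10KK' (m : Fin (e + 1)) : r10K' b B B' e m * r10K b B B' e m = 1 := by
  unfold r10K r10K'
  split_ifs
  · exact h'
  · calc r10R b * Bᵀ * (B'ᵀ * r10R' b) = r10R b * (Bᵀ * B'ᵀ) * r10R' b := by
          simp only [Matrix.mul_assoc]
      _ = 1 := by rw [← Matrix.transpose_mul, h', Matrix.transpose_one, Matrix.mul_one, r10RR']

include hB hB' in
private theorem r10hc (m : Fin (e + 1)) (i : Fin n) (k : Idx b) (hk : r10K b B B' e m i k ≠ 0) :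
    E.c e m i = (r10D E c b χ' B B' hb h h' hl hB hB').c e m k := by
  change (if m = Fin.last e then E.χ i else (E.χ i)⁻¹) =
    if m = Fin.last e then χ' k.1 else (χ' k.1)⁻¹
  unfold r10K at hk
  split_ifs at hk ⊢
  · exact hB i k hk
  · rw [r10_mulR', Matrix.transpose_apply] at hk
    have := hB' (r10rev b k) i (left_ne_zero_of_mul hk)
    change χ' k.1 = E.χ i at this
    rw [this]

include hB hB' in
private theorem r10hc' (m : Fin (e + 1)) (k : Idx b) (i : Fin n) (hk : r10K' b B B' e m k i ≠ 0) :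
    (r10D E c b χ' B B' hb h h' hl hB hB').c e m k = E.c e m i := by
  change (if m = Fin.last e then χ' k.1 else (χ' k.1)⁻¹) =
    (if m = Fin.last e then E.χ i else (E.χ i)⁻¹)
  unfold r10K' at hk
  split_ifs at hk ⊢
  · exact hB' k i hk
  · rw [r10R_mul, Matrix.transpose_apply] at hk
    have := hB i (r10rev b k) (right_ne_zero_of_mul hk)
    change E.χ i = χ' k.1 at this
    rw [this]

/-- words of `D` to words of `E` -/
private noncomputable def r10P : Matrix (E.J e) ((r10D E c b χ' B B' hb h h' hl hB hB').J e) ℂ :=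
  KRr (I := fun _ => Fin n) (I' := fun _ => Idx b) (E.c e)
    ((r10D E c b χ' B B' hb h h' hl hB hB').c e) (r10K b B B' e)

private noncomputable def r10P' : Matrix ((r10D E c b χ' B B' hb h h' hl hB hB').J e) (E.J e) ℂ :=
  KRr (I := fun _ => Idx b) (I' := fun _ => Fin n) ((r10D E c b χ' B B' hb h h' hl hB hB').c e)
    (E.c e) (r10K' b B B' e)

private theorem r10PP : r10P E c b χ' B B' hb h h' hl hB hB' e *
    r10P' E c b χ' B B' hb h h' hl hB hB' e = 1 :=
  KRr_mul (I := fun _ => Fin n) (I' := fun _ => Idx b) (E.c e) _ (r10K b B B' e) (r10K' b B B' e)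
    (r10KK b B B' h e) (r10hc E c b χ' B B' hb h h' hl hB hB' e)

private theorem r10PP' : r10P' E c b χ' B B' hb h h' hl hB hB' e *
    r10P E c b χ' B B' hb h h' hl hB hB' e = 1 :=
  KRr_mul (I := fun _ => Idx b) (I' := fun _ => Fin n) _ (E.c e) (r10K' b B B' e) (r10K b B B' e)
    (r10KK' b B B' h' e) (r10hc' E c b χ' B B' hb h h' hl hB hB' e)

private theorem r10_letter (z : Matrix (Fin n) (Fin n) ℂ) (m : Fin (e + 1)) :
    r10K' b B B' e m * (if m = Fin.last e then z else zᵀ) * r10K b B B' e m =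
      if m = Fin.last e then B' * z * B else rvs b (B' * z * B) := by
  unfold r10K r10K'
  split_ifs
  · rfl
  · rw [r10_rvs, Matrix.transpose_mul, Matrix.transpose_mul]
    simp only [Matrix.mul_assoc]

private theorem r10_letter_neg (z : Matrix (Fin n) (Fin n) ℂ) (m : Fin (e + 1)) :
    r10K' b B B' e m * (if m = Fin.last e then z else -zᵀ) * r10K b B B' e m =
      if m = Fin.last e then B' * z * B else -rvs b (B' * z * B) := by
  have h1 := r10_letter b B B' e z m
  split_ifs at h1 ⊢ with hm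
  · exact h1
  · rw [Matrix.mul_neg, Matrix.neg_mul, h1]

private theorem r10_L (z : Matrix (Fin n) (Fin n) ℂ) :
    r10P' E c b χ' B B' hb h h' hl hB hB' e * E.L e z * r10P E c b χ' B B' hb h h' hl hB hB' e =
      res (I := fun _ => Idx b) ((r10D E c b χ' B B' hb h h' hl hB hB').c e)
        (Tot fun m => if m = Fin.last e then B' * z * B else -rvs b (B' * z * B)) := by
  refine (KRr_Tot (I := fun _ => Fin n) (I' := fun _ => Idx b) (E.c e)
    ((r10D E c b χ' B B' hb h h' hl hB hB').c e) (r10K b B B' e)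
    (r10K' b B B' e) (r10KK b B B' h e) (r10KK' b B B' h' e)
    (r10hc E c b χ' B B' hb h h' hl hB hB' e) (r10hc' E c b χ' B B' hb h h' hl hB hB' e)
    (fun m => if m = Fin.last e then z else -zᵀ)).trans ?_
  congr 2
  funext m
  exact r10_letter_neg b B B' e z m

private theorem r10_LL :
    r10P' E c b χ' B B' hb h h' hl hB hB' e * E.L e (E.x + c • E.y) *
      r10P E c b χ' B B' hb h h' hl hB hB' e = (r10D E c b χ' B B' hb h h' hl hB hB').LL e := by
  rw [r10_L, hl]
  unfold JD.LL
  congr 2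
  funext m
  rw [rvs_Sh, neg_neg]
  split_ifs <;> rfl

private theorem r10_YY :
    r10P' E c b χ' B B' hb h h' hl hB hB' e * E.L e E.y *
      r10P E c b χ' B B' hb h h' hl hB hB' e = (r10D E c b χ' B B' hb h h' hl hB hB').YY e := by
  rw [r10_L]
  rfl

private theorem r10_TT :
    r10P' E c b χ' B B' hb h h' hl hB hB' e * E.TT e *
      r10P E c b χ' B B' hb h h' hl hB hB' e = (r10D E c b χ' B B' hb h h' hl hB hB').TT e := by
  refine (KRr_Kr (I := fun _ => Fin n) (I' := fun _ => Idx b) (E.c e)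
    ((r10D E c b χ' B B' hb h h' hl hB hB').c e) (r10K b B B' e)
    (r10K' b B B' e) (r10KK b B B' h e) (r10KK' b B B' h' e)
    (r10hc E c b χ' B B' hb h h' hl hB hB' e) (r10hc' E c b χ' B B' hb h h' hl hB hB' e)
    (fun m => if m = Fin.last e then E.t else E.tᵀ)).trans ?_
  unfold JD.TT
  congr 2
  funext m
  exact r10_letter b B B' e E.t m

private theorem r10_PW (σ : Equiv.Perm (Fin e)) :
    r10P' E c b χ' B B' hb h h' hl hB hB' e * E.PP e σ *
      r10P E c b χ' B B' hb h h' hl hB hB' e = (r10D E c b χ' B B' hb h h' hl hB hB').PP e σ :=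
  KRr_PW (E.c e) ((r10D E c b χ' B B' hb h h' hl hB hB').c e) (r10K b B B' e)
    (r10K' b B B' e) (r10KK b B B' h e) (r10KK' b B B' h' e)
    (r10hc E c b χ' B B' hb h h' hl hB hB' e) (r10hc' E c b χ' B B' hb h h' hl hB hB' e)
    (fun i j => by
      unfold r10K
      rw [if_neg (Fin.castSucc_lt_last i).ne, if_neg (Fin.castSucc_lt_last j).ne])
    (fun i j => by
      unfold r10K'
      rw [if_neg (Fin.castSucc_lt_last i).ne, if_neg (Fin.castSucc_lt_last j).ne]) σ

private theorem r10_one_sub {J J' : Type*} [Fintype J] [Fintype J'] [DecidableEq J]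
    [DecidableEq J'] (P : Matrix J J' ℂ) (P' : Matrix J' J ℂ) (h' : P' * P = 1)
    (z : Matrix J J ℂ) : P' * (1 - z) * P = 1 - P' * z * P := by
  rw [Matrix.mul_sub, Matrix.mul_one, Matrix.sub_mul, h']

private theorem r10_cpl : (r10D E c b χ' B B' hb h h' hl hB hB').cpl e = E.cpl e := by
  have e1 : (r10D E c b χ' B B' hb h h' hl hB hB').ZG e = fun r =>
      r10P' E c b χ' B B' hb h h' hl hB hB' e *
        (Sum.elim ![E.L e (E.x + c • E.y), E.L e E.y, 1 - E.TT e] fun σ => 1 - E.PP e σ) r *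
      r10P E c b χ' B B' hb h h' hl hB hB' e := by
    funext r
    rcases r with r | σ
    · fin_cases r
      · exact (r10_LL E c b χ' B B' hb h h' hl hB hB' e).symm
      · exact (r10_YY E c b χ' B B' hb h h' hl hB hB' e).symm
      · refine ((r10_one_sub _ _ (r10PP' E c b χ' B B' hb h h' hl hB hB' e) _).trans ?_).symm
        rw [r10_TT]
        rfl
    · refine ((r10_one_sub _ _ (r10PP' E c b χ' B B' hb h h' hl hB hB' e) _).trans ?_).symm
      rw [r10_PW]
      rfl
  unfold JD.cpl
  rw [e1]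
  refine (ck_conj _ _ (r10PP E c b χ' B B' hb h h' hl hB hB' e)
    (r10PP' E c b χ' B B' hb h h' hl hB hB' e) _).trans ?_
  unfold ND.cpl
  apply r10_ck_add (E.L e E.x) (E.L e E.y) c _ _ (Sum.inl 0) (Sum.inl 1)
  · rfl
  · rfl
  · exact r10_L_add E e E.x E.y c
  · rfl
  · intro r hr
    rcases r with r | σ
    · fin_cases r
      · exact absurd rfl hr
      · rfl
      · rfl
    · rfl

private theorem r10_h0 : (r10D E c b χ' B B' hb h h' hl hB hB').h0 e =
    ck ![E.L e E.x, E.L e E.y] := by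
  have e1 : ![(r10D E c b χ' B B' hb h h' hl hB hB').LL e,
      (r10D E c b χ' B B' hb h h' hl hB hB').YY e] = fun r =>
      r10P' E c b χ' B B' hb h h' hl hB hB' e *
        (![E.L e (E.x + c • E.y), E.L e E.y]) r *
      r10P E c b χ' B B' hb h h' hl hB hB' e := by
    funext r
    fin_cases r
    · exact (r10_LL E c b χ' B B' hb h h' hl hB hB' e).symm
    · exact (r10_YY E c b χ' B B' hb h h' hl hB hB' e).symm
  unfold JD.h0
  rw [e1]
  refine (ck_conj _ _ (r10PP E c b χ' B B' hb h h' hl hB hB' e)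
    (r10PP' E c b χ' B B' hb h h' hl hB hB' e) _).trans ?_
  apply r10_ck_add (E.L e E.x) (E.L e E.y) c _ _ 0 1
  · rfl
  · rfl
  · exact r10_L_add E e E.x E.y c
  · rfl
  · intro r hr
    fin_cases r
    · exact absurd rfl hr
    · rfl

private theorem r10_hi : (r10D E c b χ' B B' hb h h' hl hB hB').hi e =
    ik ![E.L e E.x, E.L e E.y] := by
  have e1 : ![(r10D E c b χ' B B' hb h h' hl hB hB').LL e,
      (r10D E c b χ' B B' hb h h' hl hB hB').YY e] = fun r =>
      r10P' E c b χ' B B' hb h h' hl hB hB' e *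
        (![E.L e (E.x + c • E.y), E.L e E.y]) r *
      r10P E c b χ' B B' hb h h' hl hB hB' e := by
    funext r
    fin_cases r
    · exact (r10_LL E c b χ' B B' hb h h' hl hB hB' e).symm
    · exact (r10_YY E c b χ' B B' hb h h' hl hB hB' e).symm
  unfold JD.hi
  rw [e1]
  refine (ik_conj _ _ (r10PP E c b χ' B B' hb h h' hl hB hB' e)
    (r10PP' E c b χ' B B' hb h h' hl hB hB' e) _).trans ?_
  rw [r10_L_add]
  exact r10_ik_add _ _ c

end transport

theorem nd_jd (n : ℕ) (E : ND n) (c : ℂ)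
    (h1 : Good (E.L 7 (E.x + c • E.y)).mulVecLin (E.L 7 E.y).mulVecLin ⊥)
    (h2 : Good (E.x + c • E.y).mulVecLin E.y.mulVecLin ⊥)
    (h3 : Good (E.x + c • E.y).mulVecLin E.y.mulVecLin
      (LinearMap.ker (E.x + c • E.y).mulVecLin ⊓ LinearMap.ker E.y.mulVecLin)) :
    ∃ D : JD, D.Gen ∧ D.n = n ∧ ∀ e, D.cpl e = E.cpl e ∧
      D.h0 e = ck ![E.L e E.x, E.L e E.y] ∧ D.hi e = ik ![E.L e E.x, E.L e E.y] := by
  obtain ⟨β, _, _, b, χ', B, B', hb, hB1, hB2, hl, hB, hB'⟩ := jordan_lab n E.χ (E.x + c • E.y)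
    (Commute.isNilpotent_add (E.comm.smul_right c) E.xnil (E.ynil.smul c))
    (by
      intro i k h
      by_cases h' : E.x i k = 0
      · have : E.y i k ≠ 0 := by
          intro h''
          apply h
          rw [Matrix.add_apply, Matrix.smul_apply, h', h'', smul_zero, add_zero]
        exact E.hy i k this
      · exact E.hx i k h')
  have hbot : ∀ {J J' : Type} [Fintype J] [Fintype J'] [DecidableEq J] [DecidableEq J']
      (P : Matrix J J' ℂ) (P' : Matrix J' J ℂ) (_ : P' * P = 1),
      (⊥ : Submodule ℂ (J → ℂ)).comap P.mulVecLin = ⊥ := by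
    intro J J' _ _ _ _ P P' hP
    rw [eq_bot_iff]
    intro v hv
    have hv' : P *ᵥ v = 0 := hv
    have : v = P' *ᵥ (P *ᵥ v) := by rw [Matrix.mulVec_mulVec, hP, Matrix.one_mulVec]
    rw [this, hv', Matrix.mulVec_zero]
    exact Submodule.zero_mem _
  refine ⟨r10D E c b χ' B B' hb hB1 hB2 hl hB hB', ⟨?_, ?_, ?_⟩, ?_, fun e =>
    ⟨r10_cpl E c b χ' B B' hb hB1 hB2 hl hB hB' e, r10_h0 E c b χ' B B' hb hB1 hB2 hl hB hB' e,
      r10_hi E c b χ' B B' hb hB1 hB2 hl hB hB' e⟩⟩
  · have h := good_conj _ _ (r10PP E c b χ' B B' hb hB1 hB2 hl hB hB' 7)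
      (r10PP' E c b χ' B B' hb hB1 hB2 hl hB hB' 7) _ _ _ h1
    rw [r10_LL, r10_YY, hbot _ _ (r10PP' E c b χ' B B' hb hB1 hB2 hl hB hB' 7)] at h
    exact h
  · have h := good_conj B B' hB1 hB2 _ _ _ h2
    rw [hl, hbot _ _ hB2] at h
    exact h
  · have h := good_conj B B' hB1 hB2 _ _ _ h3
    rw [hl] at h
    have e1 : (LinearMap.ker (E.x + c • E.y).mulVecLin ⊓ LinearMap.ker E.y.mulVecLin).comap
        B.mulVecLin = (r10D E c b χ' B B' hb hB1 hB2 hl hB hB').soc := by
      have key : ∀ (z : Matrix (Fin n) (Fin n) ℂ) (v : Idx b → ℂ),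
          z *ᵥ (B *ᵥ v) = 0 ↔ (B' * z * B) *ᵥ v = 0 := by
        intro z v
        constructor
        · intro hz
          rw [← Matrix.mulVec_mulVec, ← Matrix.mulVec_mulVec, hz, Matrix.mulVec_zero]
        · intro hz
          have e2 : z *ᵥ (B *ᵥ v) = B *ᵥ ((B' * z * B) *ᵥ v) := by
            rw [Matrix.mulVec_mulVec, Matrix.mulVec_mulVec, ← Matrix.mul_assoc,
              ← Matrix.mul_assoc, hB1, Matrix.one_mul]
          rw [e2, hz, Matrix.mulVec_zero]
      ext v
      constructor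
      · rintro ⟨ha, hb'⟩
        have ha' := (key _ v).mp ha
        rw [hl] at ha'
        exact ⟨ha', (key _ v).mp hb'⟩
      · rintro ⟨ha, hb'⟩
        refine ⟨(key _ v).mpr ?_, (key _ v).mpr hb'⟩
        rw [hl]
        exact ha
    rw [e1] at h
    exact h
  · have h := Matrix.square_of_invertible B B' hB1 hB2
    rw [Fintype.card_fin] at h
    exact h.symm

end Pool.Agent.INV5
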