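import Pool.Agent.INV5.R4

/-!
# INV5, module R5: coinvariants and invariants: from the group to the Lie algebra

After the base change `KW` (`GW_conj`) write `a = GW e (B' A B) - 1`, `c = GW e (B' C B) - 1` on all words, by
`GW_exp` `a = diagonal (λ.1) exp(X) - 1`, `c = diagonal (λ.2) exp(Y) - 1`, where `λ = ∏ c e m (p m)` is the total
label and `X = XW e x`, `Y = XW e y` preserve the total label. Words are decomposed by the total label. If
`λ.1 ≠ 1` then `a` is invertible on the words with total label `λ` (`λ.1 (1 + nilpotent) - 1`), if `λ.2 ≠ 1` then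
`c` is. If `λ = 1` then `a = exp X - 1 = X u` with a unit `u` commuting with `X` (`exp_sub_one`), so the range and
the kernel of `a` are those of `X`, whose restriction is `E.L e E.x`. So the coinvariants of `(a, c)` are those
of `(L x, L y)` on the words of total label one, and the same for the invariants.
For the coinvariants: every function on words is modulo the span of the ranges of `a, c` equal to one
supported on the words of total label one. (It is enough to split the words into the three sets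
`λ.1 ≠ 1`; `λ.1 = 1, λ.2 ≠ 1`; `λ = 1`, which are not mixed by `X, Y`.)
-/

namespace Pool.Agent.INV5

open Matrix

section aux

variable {J J' κ κ' : Type*} [Fintype J] [Fintype J']

private theorem ck_le_of_almost (F : (J → ℂ) →ₗ[ℂ] (J' → ℂ)) (Z : κ → Matrix J J ℂ)
    (Z' : κ' → Matrix J' J' ℂ) (h1 : ∀ r v, F ((Z r).mulVec v) ∈ img Z')
    (h2 : ∀ w, ∃ v, w - F v ∈ img Z') : ck Z' ≤ ck Z := by
  have h : img Z ≤ (img Z').comap F := img_le Z _ fun r v => h1 r v
  have hs : Function.Surjective ((img Z).mapQ (img Z') F h) := by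
    intro q
    obtain ⟨w, rfl⟩ := Submodule.mkQ_surjective _ q
    obtain ⟨v, hv⟩ := h2 w
    refine ⟨(img Z).mkQ v, ?_⟩
    rw [Submodule.mkQ_apply, Submodule.mapQ_apply, Submodule.mkQ_apply]
    symm
    exact (Submodule.Quotient.eq _).2 hv
  exact LinearMap.finrank_le_finrank_of_surjective hs

private theorem ik_le_of_inj (f : (J → ℂ) →ₗ[ℂ] (J' → ℂ)) (Z : κ → Matrix J J ℂ)
    (Z' : κ' → Matrix J' J' ℂ)
    (h : ∀ v, (∀ r, (Z r).mulVec v = 0) →
      (∀ r, (Z' r).mulVec (f v) = 0) ∧ (f v = 0 → v = 0)) : ik Z ≤ ik Z' := by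
  unfold ik
  set S : Submodule ℂ (J → ℂ) := ⨅ r, LinearMap.ker (Z r).mulVecLin with hS
  set S' : Submodule ℂ (J' → ℂ) := ⨅ r, LinearMap.ker (Z' r).mulVecLin with hS'
  have m1 : ∀ v ∈ S, ∀ r, (Z r).mulVec v = 0 := by
    intro v hv r
    have := (Submodule.mem_iInf _).1 hv r
    simpa using this
  have m2 : ∀ v ∈ S, f v ∈ S' := by
    intro v hv
    refine (Submodule.mem_iInf _).2 fun r => ?_
    have := (h v (m1 v hv)).1 r
    simpa using this
  refine LinearMap.finrank_le_finrank_of_injective (f := (f.restrict m2)) ?_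
  rw [← LinearMap.ker_eq_bot, LinearMap.ker_eq_bot']
  intro v hv
  have h0 : f v = 0 := congrArg Subtype.val hv
  exact Subtype.ext ((h v (m1 v v.2)).2 h0)

variable {W : Type*} [Fintype W] [DecidableEq W]

private theorem dcomm (d : W → ℂ) (X : Matrix W W ℂ) (hd : ∀ p q, X p q ≠ 0 → d p = d q)
    (f : ℂ → ℂ) : Commute X (diagonal fun p => f (d p)) := by
  ext i k
  rw [diagonal_mul, mul_diagonal]
  by_cases h : X i k = 0
  · simp [h]
  · rw [hd i k h, mul_comm]

private theorem diag_diag (f g : W → ℂ) : Commute (diagonal f) (diagonal g) := by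
  ext i k
  simp only [diagonal_mul_diagonal]
  congr 2
  funext j
  exact mul_comm _ _

private theorem one_op (d : W → ℂ) (X : Matrix W W ℂ) (hX : IsNilpotent X)
    (hd : ∀ p q, X p q ≠ 0 → d p = d q) :
    ∃ G v : Matrix W W ℂ,
      (diagonal d * IsNilpotent.exp X - 1) * G =
        diagonal (fun p => if d p = 1 then 0 else 1) ∧
      G * (diagonal d * IsNilpotent.exp X - 1) =
        diagonal (fun p => if d p = 1 then 0 else 1) ∧
      (∀ w : W → ℂ, (∀ p, d p ≠ 1 → w p = 0) → X.mulVec w =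
        (diagonal d * IsNilpotent.exp X - 1).mulVec (v.mulVec w)) ∧
      (∀ w : W → ℂ, (∀ p, d p ≠ 1 → w p = 0) →
        (diagonal d * IsNilpotent.exp X - 1).mulVec w = 0 → X.mulVec w = 0) := by
  obtain ⟨u, v, huv, hvu, hexp, hu⟩ := exp_sub_one X hX
  have hv : ∀ w, Commute X w → Commute v w := by
    intro w hw
    have h1 : u * w = w * u := hu w hw
    calc v * w = v * w * (u * v) := by rw [huv, mul_one]
      _ = v * (w * u) * v := by simp only [mul_assoc]
      _ = v * (u * w) * v := by rw [h1]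
      _ = (v * u) * w * v := by simp only [mul_assoc]
      _ = w * v := by rw [hvu, one_mul]
  set D : Matrix W W ℂ := diagonal d with hD
  set P : Matrix W W ℂ := diagonal (fun p => if d p = 1 then 0 else 1) with hP
  set P0 : Matrix W W ℂ := diagonal (fun p => if d p = 1 then 1 else 0) with hP0
  set G1 : Matrix W W ℂ := diagonal (fun p => if d p = 1 then 0 else (d p - 1)⁻¹) with hG1
  have cD : Commute X D := dcomm d X hd id
  have cP : Commute X P := dcomm d X hd fun z => if z = 1 then 0 else 1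
  have cP0 : Commute X P0 := dcomm d X hd fun z => if z = 1 then 1 else 0
  have cG : Commute X G1 := dcomm d X hd fun z => if z = 1 then 0 else (z - 1)⁻¹
  have hexp' : IsNilpotent.exp X = 1 + X * u := by
    rw [← hexp]
    abel
  rw [hexp']
  set a : Matrix W W ℂ := D * (1 + X * u) - 1 with ha
  have ha' : a = (D - 1) + D * (X * u) := by
    rw [ha, mul_add, mul_one]
    abel
  have uX : Commute u X := hu X (Commute.refl X)
  have uD := hu D cD
  have uP := hu P cP
  have uP0 := hu P0 cP0
  have uG := hu G1 cG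
  have DG : Commute D G1 := diag_diag _ _
  have DP : Commute D P := diag_diag _ _
  have PG : Commute P G1 := diag_diag _ _
  have hDG : (D - 1) * G1 = P := by
    have h1 : (D - 1 : Matrix W W ℂ) = diagonal fun p => d p - 1 := by
      rw [hD, ← diagonal_one, diagonal_sub]
    rw [h1, hG1, diagonal_mul_diagonal, hP]
    congr 1
    funext p
    by_cases h : d p = 1
    · simp [h]
    · have : d p - 1 ≠ 0 := sub_ne_zero.2 h
      simp [h, this]
  have hGP : G1 * P = G1 := by
    rw [hG1, hP, diagonal_mul_diagonal]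
    congr 1
    funext p
    by_cases h : d p = 1
    · simp [h]
    · simp [h]
  set N : Matrix W W ℂ := X * (u * D * G1) with hN
  have cN : Commute X (u * D * G1) := ((uX.symm.mul_right cD).mul_right cG)
  have nN : IsNilpotent N := cN.isNilpotent_mul_right hX
  have haG : a * G1 = P + N := by
    rw [ha', add_mul, hDG, hN]
    congr 1
    calc D * (X * u) * G1 = (D * X) * u * G1 := by simp only [mul_assoc]
      _ = (X * D) * u * G1 := by rw [cD.eq]
      _ = X * (D * u) * G1 := by simp only [mul_assoc]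
      _ = X * (u * D) * G1 := by rw [uD.eq]
      _ = X * (u * D * G1) := by simp only [mul_assoc]
  have PN : Commute P N := (cP.symm.mul_right ((uP.symm.mul_right DP.symm).mul_right PG))
  have hNP : P * N = N := by
    rw [PN.eq, hN]
    simp only [mul_assoc, hGP]
  have hNP' : P + N = P * (1 + N) := by
    rw [mul_add, mul_one, hNP]
  obtain ⟨w, hw⟩ := nN.isUnit_one_add
  have hw1 : (1 + N) * (↑w⁻¹ : Matrix W W ℂ) = 1 := by
    rw [← hw]
    exact w.mul_inv
  -- commutation with `a`
  have cXu : Commute X (X * u) := (Commute.refl X).mul_right uX.symm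
  have aX : Commute a X := by
    rw [ha]
    exact ((cD.symm.mul_left ((Commute.one_left X).add_left cXu.symm)).sub_left
      (Commute.one_left X))
  have au : Commute a u := by
    rw [ha]
    exact ((uD.symm.mul_left ((Commute.one_left u).add_left
      (uX.symm.mul_left (Commute.refl u)))).sub_left (Commute.one_left u))
  have aD : Commute a D := by
    rw [ha]
    exact (((Commute.refl D).mul_left ((Commute.one_left D).add_left
      (cD.mul_left uD))).sub_left (Commute.one_left D))
  have aG : Commute a G1 := by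
    rw [ha]
    exact ((DG.mul_left ((Commute.one_left G1).add_left
      (cG.mul_left uG))).sub_left (Commute.one_left G1))
  have aN : Commute a N := aX.mul_right ((au.mul_right aD).mul_right aG)
  have aw : Commute a (↑w⁻¹ : Matrix W W ℂ) := by
    refine Commute.units_inv_right ?_
    rw [hw]
    exact (Commute.one_right a).add_right aN
  have haP0 : a * P0 = X * (u * P0) := by
    have h1 : D * P0 = P0 := by
      rw [hD, hP0, diagonal_mul_diagonal]
      congr 1
      funext p
      by_cases h : d p = 1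
      · simp [h]
      · simp [h]
    have h2 : Commute (X * u) P0 := cP0.mul_left uP0
    have h3 : a * P0 = D * P0 - P0 + D * (X * u * P0) := by
      rw [ha', add_mul, sub_mul, one_mul, mul_assoc D]
    rw [h3, h1, h2.eq, ← mul_assoc, h1, ← h2.eq, sub_self, zero_add, mul_assoc]
  have hwP0 : ∀ w : W → ℂ, (∀ p, d p ≠ 1 → w p = 0) → P0.mulVec w = w := by
    intro w hw
    funext p
    rw [hP0, mulVec_diagonal]
    by_cases h : d p = 1
    · simp [h]
    · simp [h, hw p h]
  have vP0 := hv P0 cP0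
  refine ⟨G1 * (↑w⁻¹ : Matrix W W ℂ), v, ?_, ?_, ?_, ?_⟩
  · rw [← mul_assoc, haG, hNP', mul_assoc, hw1, mul_one]
  · rw [mul_assoc, ← aw.eq, ← mul_assoc, ← aG.eq, haG, hNP', mul_assoc, hw1, mul_one]
  · intro w hw
    have h1 := hwP0 w hw
    have h2 : a * (v * P0) = X * P0 := by
      rw [vP0.eq, ← mul_assoc, haP0, mul_assoc X, mul_assoc u, ← vP0.eq, ← mul_assoc u, huv,
        one_mul]
    calc X.mulVec w = (X * P0).mulVec w := by rw [← mulVec_mulVec, h1]
      _ = (a * (v * P0)).mulVec w := by rw [h2]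
      _ = a.mulVec (v.mulVec w) := by rw [← mulVec_mulVec, ← mulVec_mulVec, h1]
  · intro w hw h0
    have h1 := hwP0 w hw
    have h2 : (X * u).mulVec w = 0 := by
      calc (X * u).mulVec w = (X * (u * P0)).mulVec w := by
            rw [← mul_assoc, ← mulVec_mulVec w (X * u) P0, h1]
        _ = (a * P0).mulVec w := by rw [haP0]
        _ = 0 := by rw [← mulVec_mulVec, h1, h0]
    have h3 : (v * (X * u)).mulVec w = X.mulVec w := by
      rw [← uX.eq, ← mul_assoc, hvu, one_mul]
    rw [← h3, ← mulVec_mulVec, h2, mulVec_zero]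

private theorem abs_main (lam : W → Lam)
    (X Y K K' a0 c0 : Matrix W W ℂ) (hX : IsNilpotent X) (hY : IsNilpotent Y)
    (lX : ∀ p q, X p q ≠ 0 → lam p = lam q) (lY : ∀ p q, Y p q ≠ 0 → lam p = lam q)
    (hK : K * K' = 1) (hK' : K' * K = 1)
    (ha : K' * a0 * K = diagonal (fun p => ((lam p).1 : ℂ)) * IsNilpotent.exp X - 1)
    (hc : K' * c0 * K = diagonal (fun p => ((lam p).2 : ℂ)) * IsNilpotent.exp Y - 1) :
    ck ![a0, c0] ≤ ck ![X.submatrix (Subtype.val : {p : W // lam p = 1} → W) Subtype.val,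
        Y.submatrix (Subtype.val : {p : W // lam p = 1} → W) Subtype.val] ∧
      ik ![a0, c0] ≤ ik ![X.submatrix (Subtype.val : {p : W // lam p = 1} → W) Subtype.val,
        Y.submatrix (Subtype.val : {p : W // lam p = 1} → W) Subtype.val] := by
  classical
  obtain ⟨G, v, g1, g2, g3, g4⟩ := one_op (fun p => ((lam p).1 : ℂ)) X hX
    (fun p q h => by rw [lX p q h])
  obtain ⟨G', v', g1', g2', g3', g4'⟩ := one_op (fun p => ((lam p).2 : ℂ)) Y hY
    (fun p q h => by rw [lY p q h])
  rw [← ha] at g1 g2 g3 g4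
  rw [← hc] at g1' g2' g3' g4'
  have hlam : ∀ p, lam p = 1 ↔ ((lam p).1 : ℂ) = 1 ∧ ((lam p).2 : ℂ) = 1 := by
    intro p
    rw [Prod.ext_iff, Units.val_eq_one, Units.val_eq_one]
    exact Iff.rfl
  -- extension by zero
  let ι : ({p : W // lam p = 1} → ℂ) →ₗ[ℂ] (W → ℂ) :=
    { toFun := fun w p => if h : lam p = 1 then w ⟨p, h⟩ else 0
      map_add' := by
        intro w w'
        funext p
        by_cases h : lam p = 1
        · simp [h]
        · simp [h]
      map_smul' := by
        intro c w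
        funext p
        by_cases h : lam p = 1
        · simp [h]
        · simp [h] }
  let ρ : (W → ℂ) →ₗ[ℂ] ({p : W // lam p = 1} → ℂ) :=
    { toFun := fun w p => w p.1
      map_add' := fun _ _ => rfl
      map_smul' := fun _ _ => rfl }
  have hι1 : ∀ w p (h : lam p = 1), ι w p = w ⟨p, h⟩ := fun w p h => dif_pos h
  have hι0 : ∀ w p, lam p ≠ 1 → ι w p = 0 := fun w p h => dif_neg h
  have hρ : ∀ (w : W → ℂ) p, ρ w p = w p.1 := fun _ _ => rfl
  have hres : ∀ (Z : Matrix W W ℂ) (w : W → ℂ), (∀ p, lam p ≠ 1 → w p = 0) →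
      (Z.submatrix (Subtype.val : {p : W // lam p = 1} → W) Subtype.val).mulVec (ρ w) =
        ρ (Z.mulVec w) := by
    intro Z w hw
    funext p
    rw [hρ]
    simp only [mulVec, dotProduct, submatrix_apply, hρ]
    have h := Fintype.sum_subtype_add_sum_subtype (fun q => lam q = 1)
      (fun q => Z p.1 q * w q)
    have h0 : ∑ q : {q : W // ¬ lam q = 1}, Z p.1 q.1 * w q.1 = 0 :=
      Finset.sum_eq_zero fun q _ => by rw [hw q.1 q.2, mul_zero]
    rw [h0, add_zero] at h
    rw [← h]
  have hρι : ∀ w, ρ (ι w) = w := by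
    intro w
    funext p
    rw [hρ, hι1 w p.1 p.2]
  have hιs : ∀ w p, lam p ≠ 1 → ι w p = 0 := hι0
  have hsup : ∀ (Z : Matrix W W ℂ), (∀ p q, Z p q ≠ 0 → lam p = lam q) → ∀ w : W → ℂ,
      (∀ p, lam p ≠ 1 → w p = 0) → ∀ p, lam p ≠ 1 → Z.mulVec w p = 0 := by
    intro Z hZ w hw p hp
    simp only [mulVec, dotProduct]
    refine Finset.sum_eq_zero fun q _ => ?_
    by_cases h : Z p q = 0
    · rw [h, zero_mul]
    · rw [hw q (by rw [← hZ p q h]; exact hp), mul_zero]
  have hιρ : ∀ w : W → ℂ, (∀ p, lam p ≠ 1 → w p = 0) → ι (ρ w) = w := by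
    intro w hw
    funext p
    by_cases h : lam p = 1
    · rw [hι1 _ p h, hρ]
    · rw [hι0 _ p h, hw p h]
  have hιres : ∀ (Z : Matrix W W ℂ), (∀ p q, Z p q ≠ 0 → lam p = lam q) →
      ∀ w : {p : W // lam p = 1} → ℂ,
      ι ((Z.submatrix (Subtype.val : {p : W // lam p = 1} → W) Subtype.val).mulVec w) =
        Z.mulVec (ι w) := by
    intro Z hZ w
    have h1 := hres Z (ι w) (hι0 w)
    rw [hρι] at h1
    rw [h1, hιρ _ (hsup Z hZ _ (hι0 w))]
  have s1 : ∀ w : W → ℂ, (∀ p, lam p ≠ 1 → w p = 0) → ∀ p, ((lam p).1 : ℂ) ≠ 1 → w p = 0 :=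
    fun w hw p hp => hw p fun h => hp ((hlam p).1 h).1
  have s2 : ∀ w : W → ℂ, (∀ p, lam p ≠ 1 → w p = 0) → ∀ p, ((lam p).2 : ℂ) ≠ 1 → w p = 0 :=
    fun w hw p hp => hw p fun h => hp ((hlam p).1 h).2
  have q1 : ∀ x, K.mulVec ((K' * a0 * K).mulVec x) = a0.mulVec (K.mulVec x) := by
    intro x
    rw [mulVec_mulVec, mulVec_mulVec, mul_assoc K' a0 K, ← mul_assoc K K', hK, one_mul]
  have q2 : ∀ x, K.mulVec ((K' * c0 * K).mulVec x) = c0.mulVec (K.mulVec x) := by
    intro x
    rw [mulVec_mulVec, mulVec_mulVec, mul_assoc K' c0 K, ← mul_assoc K K', hK, one_mul]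
  have i1 : ∀ x, a0.mulVec x ∈ img ![a0, c0] := fun x => mem_img ![a0, c0] 0 x
  have i2 : ∀ x, c0.mulVec x ∈ img ![a0, c0] := fun x => mem_img ![a0, c0] 1 x
  constructor
  · refine ck_le_of_almost (K.mulVecLin ∘ₗ ι) _ _ ?_ ?_
    · intro r w
      rw [LinearMap.comp_apply, mulVecLin_apply]
      fin_cases r
      · change K.mulVec (ι ((X.submatrix Subtype.val Subtype.val).mulVec w)) ∈ _
        rw [hιres X lX w, g3 _ (s1 _ (hι0 w)), q1]
        exact i1 _
      · change K.mulVec (ι ((Y.submatrix Subtype.val Subtype.val).mulVec w)) ∈ _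
        rw [hιres Y lY w, g3' _ (s2 _ (hι0 w)), q2]
        exact i2 _
    · intro w
      refine ⟨ρ (K'.mulVec w), ?_⟩
      rw [LinearMap.comp_apply, mulVecLin_apply]
      set w' := K'.mulVec w with hw'
      have e1 : w = K.mulVec w' := by
        rw [hw', mulVec_mulVec, hK, one_mulVec]
      set x1 := (K' * a0 * K * G).mulVec w' with hx1
      set x2 := (K' * c0 * K * G').mulVec (w' - x1) with hx2
      have e2 : w' - ι (ρ w') = x1 + x2 := by
        funext p
        rw [Pi.sub_apply, Pi.add_apply, hx2, g1', mulVec_diagonal, Pi.sub_apply, hx1, g1,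
          mulVec_diagonal]
        by_cases h : lam p = 1
        · have h' := (hlam p).1 h
          rw [hι1 _ p h, hρ, if_pos h'.1, if_pos h'.2]
          ring
        · rw [hι0 _ p h]
          by_cases h1 : ((lam p).1 : ℂ) = 1
          · have h2 : ((lam p).2 : ℂ) ≠ 1 := fun h2 => h ((hlam p).2 ⟨h1, h2⟩)
            rw [if_pos h1, if_neg h2]
            ring
          · rw [if_neg h1]
            ring
      have e3 : w - K.mulVec (ι (ρ w')) = a0.mulVec (K.mulVec (G.mulVec w')) +
          c0.mulVec (K.mulVec (G'.mulVec (w' - x1))) := by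
        rw [← q1, ← q2, mulVec_mulVec w' _ G, mulVec_mulVec (w' - x1) _ G', ← hx1, ← hx2]
        rw [← mulVec_add, ← e2, mulVec_sub, ← e1]
      rw [e3]
      exact Submodule.add_mem _ (i1 _) (i2 _)
  · refine ik_le_of_inj (ρ ∘ₗ K'.mulVecLin) _ _ ?_
    intro w hw
    have z1 : a0.mulVec w = 0 := hw 0
    have z2 : c0.mulVec w = 0 := hw 1
    set w' := K'.mulVec w with hw'
    have e1 : w = K.mulVec w' := by
      rw [hw', mulVec_mulVec, hK, one_mulVec]
    have y1 : (K' * a0 * K).mulVec w' = 0 := by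
      rw [mul_assoc, ← mulVec_mulVec, ← mulVec_mulVec, ← e1, z1, mulVec_zero]
    have y2 : (K' * c0 * K).mulVec w' = 0 := by
      rw [mul_assoc, ← mulVec_mulVec, ← mulVec_mulVec, ← e1, z2, mulVec_zero]
    have t1 : ∀ p, ((lam p).1 : ℂ) ≠ 1 → w' p = 0 := by
      intro p hp
      have h1 : (G * (K' * a0 * K)).mulVec w' = 0 := by
        rw [← mulVec_mulVec, y1, mulVec_zero]
      rw [g2] at h1
      have h2 := congrFun h1 p
      rw [mulVec_diagonal, if_neg hp, one_mul] at h2
      exact h2
    have t2 : ∀ p, ((lam p).2 : ℂ) ≠ 1 → w' p = 0 := by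
      intro p hp
      have h1 : (G' * (K' * c0 * K)).mulVec w' = 0 := by
        rw [← mulVec_mulVec, y2, mulVec_zero]
      rw [g2'] at h1
      have h2 := congrFun h1 p
      rw [mulVec_diagonal, if_neg hp, one_mul] at h2
      exact h2
    have t3 : ∀ p, lam p ≠ 1 → w' p = 0 := by
      intro p hp
      by_cases h1 : ((lam p).1 : ℂ) = 1
      · exact t2 p fun h2 => hp ((hlam p).2 ⟨h1, h2⟩)
      · exact t1 p h1
    have u1 := g4 w' t1 y1
    have u2 := g4' w' t2 y2
    refine ⟨?_, ?_⟩
    · intro r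
      fin_cases r
      · change (X.submatrix Subtype.val Subtype.val).mulVec (ρ w') = 0
        rw [hres X w' t3, u1, map_zero]
      · change (Y.submatrix Subtype.val Subtype.val).mulVec (ρ w') = 0
        rw [hres Y w' t3, u2, map_zero]
    · intro h0
      have h1 : ρ w' = 0 := h0
      have h2 := hιρ w' t3
      rw [h1, map_zero] at h2
      rw [e1, ← h2, mulVec_zero]

end aux

private theorem XW_lab {n : ℕ} (E : ND n) (e : ℕ) (x : Matrix (Fin n) (Fin n) ℂ)
    (hl : ∀ i k, x i k ≠ 0 → E.χ i = E.χ k) (p q : Fin (e + 1) → Fin n) (h : XW e x p q ≠ 0) :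
    ∏ m, E.c e m (p m) = ∏ m, E.c e m (q m) := by
  unfold XW Tot at h
  rw [Matrix.sum_apply] at h
  obtain ⟨m, _, hm⟩ := Finset.exists_ne_zero_of_sum_ne_zero h
  unfold At at hm
  by_cases h1 : ∀ m', m' ≠ m → p m' = q m'
  · rw [if_pos h1] at hm
    refine Finset.prod_congr rfl fun m' _ => ?_
    by_cases h3 : m' = m
    · subst h3
      unfold ND.c
      by_cases h2 : m' = Fin.last e
      · have hm' : (if m' = Fin.last e then x else -xᵀ) (p m') (q m') ≠ 0 := hm
        rw [if_pos h2] at hm'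
        rw [hl _ _ hm']
      · have hm' : (if m' = Fin.last e then x else -xᵀ) (p m') (q m') ≠ 0 := hm
        rw [if_neg h2] at hm'
        have h4 : x (q m') (p m') ≠ 0 := by
          intro h4
          apply hm'
          rw [Matrix.neg_apply, Matrix.transpose_apply, h4, neg_zero]
        rw [hl _ _ h4]
    · rw [h1 m' h3]
  · rw [if_neg h1] at hm
    exact absurd rfl hm

theorem cmp_hz (n : ℕ) (E : ND n) (A C B B' : Matrix (Fin n) (Fin n) ℂ) (h1 : B * B' = 1)
    (h2 : B' * B = 1)
    (hA : B' * A * B = diagonal (fun i => ((E.χ i).1 : ℂ)) * IsNilpotent.exp E.x)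
    (hC : B' * C * B = diagonal (fun i => ((E.χ i).2 : ℂ)) * IsNilpotent.exp E.y) (e : ℕ) :
    hz n e A C ≤ ck ![E.L e E.x, E.L e E.y] ∧ hv n e A C ≤ ik ![E.L e E.x, E.L e E.y] := by
  have k1 := KW_mul e B B' h1 h2
  have k2 := KW_mul e B' B h2 h1
  have c1 := GW_conj e B B' A h1 h2
  have c2 := GW_conj e B B' C h1 h2
  have d1 := GW_exp E e (MonoidHom.fst ℂˣ ℂˣ) E.x E.xnil E.hx
  have d2 := GW_exp E e (MonoidHom.snd ℂˣ ℂˣ) E.y E.ynil E.hy
  rw [hA] at c1
  rw [hC] at c2
  have c1' := c1.symm.trans d1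
  have c2' := c2.symm.trans d2
  refine abs_main (fun p : Fin (e + 1) → Fin n => ∏ m, E.c e m (p m)) (XW e E.x) (XW e E.y)
    (KW e B B') (KW e B' B) _ _ (XW_nil e E.x E.xnil) (XW_nil e E.y E.ynil)
    (XW_lab E e E.x E.hx) (XW_lab E e E.y E.hy) k1 k2 ?_ ?_
  · rw [mul_sub, mul_one, sub_mul, c1', k2]
    rfl
  · rw [mul_sub, mul_one, sub_mul, c2', k2]
    rfl

end Pool.Agent.INV5
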