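import Pool.Agent.INV5.R4

/-!
# INV5, module R6: coinvariants of the full group: from the group to the Lie algebra

`cmp_cpl` by `ck_le_of_surj` with the surjection `F`: multiply by `KW e B' B` (base change, invertible by
`KW_mul`) and restrict to the words of total label one. The images of `1 - GW e (T k)` and of `1 - PW σ` go into
the span of the images of `L x, L y, 1 - TT, 1 - PP σ`: the matrices `GW e (B' T k B)` preserve the set of words
of total label one (`Pres`). `k = 0`: the restriction of `GW e t` is `TT` (`t⁻¹ = t`). With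
`a = B' (T 0 T 1) B`, `c = B' (T 0 T 3) B`: `B' (T 1) B = t a`, `B' (T 3) B = t c`,
`B' (T 2) B = a⁻¹ t c = t a c` (from the product relation and `t a⁻¹ t = a`). On the words of total label one
`GW e a = exp X`, `GW e c = exp Y` with `X = L x`, `Y = L y` (`GW_exp`), and for a product
`g = TT exp(X)`: `1 - g = (1 - TT) + TT (1 - exp X)`, and `TT (1 - exp X) = - TT X u = X TT u`, so its image is in
the image of `X`; similarly for `TT exp(X) exp(Y)`:
`1 - TT exp(X) exp(Y) = (1 - TT) + TT (1 - exp X) + TT exp(X) (1 - exp Y)`.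
(`TT X = - X TT` as in module WO3.)
-/

namespace Pool.Agent.INV5

open Matrix

section aux

variable {n : ℕ} (E : ND n) (e : ℕ)

/-- restriction to the words of total label one -/
private def rho : ((Fin (e + 1) → Fin n) → ℂ) →ₗ[ℂ] (E.J e → ℂ) :=
  LinearMap.funLeft ℂ ℂ Subtype.val

private theorem rho_apply (v : (Fin (e + 1) → Fin n) → ℂ) (p : E.J e) : rho E e v p = v p.1 := rfl

private theorem rho_surj : Function.Surjective (rho E e) := by
  classical
  intro w
  refine ⟨fun p => if h : ∏ m, E.c e m (p m) = 1 then w ⟨p, h⟩ else 0, ?_⟩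
  funext p
  rw [rho_apply, dif_pos p.2]

private theorem rho_mulVec (Z : Matrix (Fin (e + 1) → Fin n) (Fin (e + 1) → Fin n) ℂ)
    (h : Pres (I := fun _ => Fin n) (E.c e) Z) (v : (Fin (e + 1) → Fin n) → ℂ) :
    rho E e (Z.mulVec v) = (res (I := fun _ => Fin n) (E.c e) Z).mulVec (rho E e v) := by
  classical
  funext p
  rw [rho_apply, mulVec, dotProduct, mulVec, dotProduct]
  rw [← Finset.sum_filter_add_sum_filter_not Finset.univ
    (fun q : Fin (e + 1) → Fin n => ∏ m, E.c e m (q m) = 1)]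
  have h0 : ∑ q with ¬ ∏ m, E.c e m (q m) = 1, Z p.1 q * v q = 0 := by
    refine Finset.sum_eq_zero fun q hq => ?_
    rw [Finset.mem_filter] at hq
    by_cases hz : Z p.1 q = 0
    · rw [hz, zero_mul]
    · exact absurd ((h _ _ hz).1 p.2) hq.2
  rw [h0, add_zero]
  rw [Finset.sum_subtype (p := fun q : Fin (e + 1) → Fin n => ∏ m, E.c e m (q m) = 1)
    _ (fun q => by simp) (fun q => Z p.1 q * v q)]
  rfl

private theorem pres_kr : Pres (I := fun _ : Fin (e + 1) => Fin n) (E.c e)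
    (Kr fun m => if m = Fin.last e then E.t else E.tᵀ) := by
  refine Pres_Kr' _ _ fun m i k hik => ?_
  unfold ND.c
  split_ifs with hm
  · rw [if_pos hm] at hik
    exact E.ht _ _ hik
  · rw [if_neg hm, transpose_apply] at hik
    rw [← mul_inv, mul_comm, E.ht _ _ hik, inv_one]

private theorem pres_tot (x : Matrix (Fin n) (Fin n) ℂ) (hl : ∀ i k, x i k ≠ 0 → E.χ i = E.χ k) :
    Pres (I := fun _ : Fin (e + 1) => Fin n) (E.c e) (XW e x) := by
  refine Pres_Tot _ _ fun m i k hik => ?_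
  unfold ND.c
  split_ifs with hm
  · rw [if_pos hm] at hik
    exact hl _ _ hik
  · rw [if_neg hm, neg_apply, transpose_apply] at hik
    rw [hl _ _ (neg_ne_zero.1 hik)]

private theorem act (f : Lam →* ℂˣ) (x : Matrix (Fin n) (Fin n) ℂ)
    (hx : IsNilpotent x) (hl : ∀ i k, x i k ≠ 0 → E.χ i = E.χ k) :
    ∃ u : Matrix (Fin (e + 1) → Fin n) (Fin (e + 1) → Fin n) ℂ, ∀ w,
      rho E e ((GW e (diagonal (fun i => ((f (E.χ i) : ℂˣ) : ℂ)) * IsNilpotent.exp x)).mulVec w) =
        rho E e w + (E.L e x).mulVec (rho E e (u.mulVec w)) := by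
  obtain ⟨u, v, -, -, hu, -⟩ := exp_sub_one (XW e x) (XW_nil e x hx)
  refine ⟨u, fun w => ?_⟩
  have hexp : IsNilpotent.exp (XW e x) = 1 + XW e x * u := by rw [← hu]; abel
  rw [GW_exp E e f x hx hl, ← mulVec_mulVec]
  have h1 : ∀ v : (Fin (e + 1) → Fin n) → ℂ,
      rho E e ((diagonal (fun p : Fin (e + 1) → Fin n =>
        ((f (∏ m, E.c e m (p m)) : ℂˣ) : ℂ))).mulVec v) = rho E e v := by
    intro v
    funext p
    rw [rho_apply, mulVec_diagonal, p.2, map_one, Units.val_one, one_mul, rho_apply]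
  rw [h1, hexp, add_mulVec, one_mulVec, map_add, ← mulVec_mulVec,
    rho_mulVec E e _ (pres_tot E e x hl)]
  rfl

private theorem tt_l (x : Matrix (Fin n) (Fin n) ℂ) (htx : E.t * x = -(x * E.t)) :
    E.TT e * E.L e x = -(E.L e x * E.TT e) := by
  have h := Kr_Tot (I := fun _ : Fin (e + 1) => Fin n)
    (fun m => if m = Fin.last e then E.t else E.tᵀ)
    (fun m => if m = Fin.last e then x else -xᵀ)
    (fun m => -(if m = Fin.last e then x else -xᵀ)) (by
      intro m
      by_cases hm : m = Fin.last e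
      · simp only [hm, if_true]
        rw [htx, neg_mul]
      · simp only [hm, if_false]
        rw [neg_neg, ← transpose_mul, htx, mul_neg, ← transpose_mul, transpose_neg])
  rw [Tot_neg] at h
  unfold ND.TT ND.L
  rw [← res_mul _ _ _ (pres_kr E e), h, ← res_mul' _ _ _ (pres_kr E e), neg_mul]
  rfl

end aux

theorem cmp_cpl (n : ℕ) (E : ND n) (T : Fin 4 → Matrix (Fin n) (Fin n) ℂ)
    (h : ∀ k, T k * T k = 1) (ht : T 0 * T 1 * T 2 * T 3 = 1)
    (B B' : Matrix (Fin n) (Fin n) ℂ) (h1 : B * B' = 1) (h2 : B' * B = 1)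
    (h0 : B' * T 0 * B = E.t)
    (hA : B' * (T 0 * T 1) * B = diagonal (fun i => ((E.χ i).1 : ℂ)) * IsNilpotent.exp E.x)
    (hC : B' * (T 0 * T 3) * B = diagonal (fun i => ((E.χ i).2 : ℂ)) * IsNilpotent.exp E.y)
    (e : ℕ) : E.cpl e ≤ cplus n e T := by
  classical
  -- the base change
  set F : ((Fin (e + 1) → Fin n) → ℂ) →ₗ[ℂ] (E.J e → ℂ) :=
    (rho E e).comp (KW e B' B).mulVecLin with hF
  have hFs : Function.Surjective F := by
    rw [hF, LinearMap.coe_comp]
    refine (rho_surj E e).comp fun w => ⟨(KW e B B').mulVec w, ?_⟩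
    rw [mulVecLin_apply, mulVec_mulVec, KW_mul e B' B h2 h1, one_mulVec]
  -- the matrices after the base change
  have hconj : ∀ (M : Matrix (Fin n) (Fin n) ℂ) v,
      F ((GW e M).mulVec v) = rho E e ((GW e (B' * M * B)).mulVec ((KW e B' B).mulVec v)) := by
    intro M v
    rw [hF, LinearMap.comp_apply, mulVecLin_apply, mulVec_mulVec, mulVec_mulVec,
      GW_conj e B B' M h1 h2, Matrix.mul_assoc, KW_mul e B B' h1 h2, Matrix.mul_one]
  have hFv : ∀ v, F v = rho E e ((KW e B' B).mulVec v) := fun v => rfl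
  have ht' : E.t * E.t = 1 := E.tt
  have hG0 : GW e E.t = Kr fun m => if m = Fin.last e then E.t else E.tᵀ := by
    unfold GW
    rw [inv_eq_left_inv ht']
  have hact0 : ∀ w, rho E e ((GW e E.t).mulVec w) = (E.TT e).mulVec (rho E e w) := by
    intro w
    rw [hG0, rho_mulVec E e _ (pres_kr E e)]
    rfl
  obtain ⟨u, hu⟩ := act E e (MonoidHom.fst ℂˣ ℂˣ) E.x E.xnil E.hx
  obtain ⟨u', hu'⟩ := act E e (MonoidHom.snd ℂˣ ℂˣ) E.y E.ynil E.hy
  have hA' : B' * (T 0 * T 1) * B =
      diagonal (fun i => ((MonoidHom.fst ℂˣ ℂˣ (E.χ i) : ℂˣ) : ℂ)) * IsNilpotent.exp E.x := hA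
  have hC' : B' * (T 0 * T 3) * B =
      diagonal (fun i => ((MonoidHom.snd ℂˣ ℂˣ (E.χ i) : ℂˣ) : ℂ)) * IsNilpotent.exp E.y := hC
  have hx := tt_l E e E.x E.tx
  have hy := tt_l E e E.y E.ty
  -- the four matrices
  have e1 : B' * T 1 * B = E.t * (B' * (T 0 * T 1) * B) := by
    rw [← h0]
    calc B' * T 1 * B = B' * (T 0 * T 0) * T 1 * B := by rw [h 0, Matrix.mul_one]
      _ = B' * T 0 * (B * B') * (T 0 * T 1) * B := by
        rw [h1, Matrix.mul_one]; simp only [Matrix.mul_assoc]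
      _ = _ := by simp only [Matrix.mul_assoc]
  have e3 : B' * T 3 * B = E.t * (B' * (T 0 * T 3) * B) := by
    rw [← h0]
    calc B' * T 3 * B = B' * (T 0 * T 0) * T 3 * B := by rw [h 0, Matrix.mul_one]
      _ = B' * T 0 * (B * B') * (T 0 * T 3) * B := by
        rw [h1, Matrix.mul_one]; simp only [Matrix.mul_assoc]
      _ = _ := by simp only [Matrix.mul_assoc]
  have e2' : T 2 = T 1 * (T 0 * T 3) := by
    have h3 : T 0 * T 1 * T 2 = T 3 := by
      calc T 0 * T 1 * T 2 = T 0 * T 1 * T 2 * (T 3 * T 3) := by rw [h 3, Matrix.mul_one]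
        _ = (T 0 * T 1 * T 2 * T 3) * T 3 := by simp only [Matrix.mul_assoc]
        _ = T 3 := by rw [ht, Matrix.one_mul]
    calc T 2 = (T 1 * T 1) * T 2 := by rw [h 1, Matrix.one_mul]
      _ = T 1 * ((T 0 * T 0) * T 1 * T 2) := by rw [h 0, Matrix.one_mul, Matrix.mul_assoc]
      _ = T 1 * (T 0 * (T 0 * T 1 * T 2)) := by simp only [Matrix.mul_assoc]
      _ = T 1 * (T 0 * T 3) := by rw [h3]
  have e2 : B' * T 2 * B = E.t * ((B' * (T 0 * T 1) * B) * (B' * (T 0 * T 3) * B)) := by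
    calc B' * T 2 * B = B' * T 1 * (B * B') * (T 0 * T 3) * B := by
          rw [h1, Matrix.mul_one, e2']; simp only [Matrix.mul_assoc]
      _ = (B' * T 1 * B) * (B' * (T 0 * T 3) * B) := by simp only [Matrix.mul_assoc]
      _ = _ := by rw [e1, Matrix.mul_assoc]
  refine ck_le_of_surj F hFs _ _ ?_
  -- membership
  set Z : Fin 3 ⊕ Equiv.Perm (Fin e) → Matrix (E.J e) (E.J e) ℂ :=
    Sum.elim ![E.L e E.x, E.L e E.y, 1 - E.TT e] fun σ => 1 - E.PP e σ with hZ
  have mx : ∀ v, (E.L e E.x).mulVec v ∈ img Z := fun v => mem_img Z (Sum.inl 0) v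
  have my : ∀ v, (E.L e E.y).mulVec v ∈ img Z := fun v => mem_img Z (Sum.inl 1) v
  have mt : ∀ v, (1 - E.TT e).mulVec v ∈ img Z := fun v => mem_img Z (Sum.inl 2) v
  have mp : ∀ σ v, (1 - E.PP e σ).mulVec v ∈ img Z := fun σ v => mem_img Z (Sum.inr σ) v
  have kx : ∀ v, (E.TT e).mulVec ((E.L e E.x).mulVec v) ∈ img Z := by
    intro v
    rw [mulVec_mulVec, hx, neg_mulVec, ← mulVec_mulVec]
    exact Submodule.neg_mem _ (mx _)
  have ky : ∀ v, (E.TT e).mulVec ((E.L e E.y).mulVec v) ∈ img Z := by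
    intro v
    rw [mulVec_mulVec, hy, neg_mulVec, ← mulVec_mulVec]
    exact Submodule.neg_mem _ (my _)
  rintro (k | σ) v
  · rw [Sum.elim_inl, sub_mulVec, one_mulVec, map_sub, hconj, hFv]
    set w := (KW e B' B).mulVec v
    fin_cases k
    · change rho E e w - rho E e ((GW e (B' * T 0 * B)).mulVec w) ∈ img Z
      rw [h0, hact0]
      have := mt (rho E e w)
      rwa [sub_mulVec, one_mulVec] at this
    · change rho E e w - rho E e ((GW e (B' * T 1 * B)).mulVec w) ∈ img Z
      rw [e1, hA', GW_mul, ← mulVec_mulVec, hact0, hu, mulVec_add, ← sub_sub]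
      refine Submodule.sub_mem _ ?_ (kx _)
      have := mt (rho E e w)
      rwa [sub_mulVec, one_mulVec] at this
    · change rho E e w - rho E e ((GW e (B' * T 2 * B)).mulVec w) ∈ img Z
      rw [e2, hA', hC', GW_mul, GW_mul, ← mulVec_mulVec, ← mulVec_mulVec, hact0, hu, hu',
        mulVec_add, mulVec_add, ← sub_sub, ← sub_sub]
      refine Submodule.sub_mem _ (Submodule.sub_mem _ ?_ (ky _)) (kx _)
      have := mt (rho E e w)
      rwa [sub_mulVec, one_mulVec] at this
    · change rho E e w - rho E e ((GW e (B' * T 3 * B)).mulVec w) ∈ img Z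
      rw [e3, hC', GW_mul, ← mulVec_mulVec, hact0, hu', mulVec_add, ← sub_sub]
      refine Submodule.sub_mem _ ?_ (ky _)
      have := mt (rho E e w)
      rwa [sub_mulVec, one_mulVec] at this
  · rw [Sum.elim_inr, sub_mulVec, one_mulVec, map_sub]
    have hP : F ((PW σ).mulVec v) = (E.PP e σ).mulVec (F v) := by
      rw [hFv, hFv, mulVec_mulVec, ← (KW_PW e B' B σ).eq, ← mulVec_mulVec,
        rho_mulVec E e _ (Pres_PW σ (E.c e) fun i j => ?_)]
      · rfl
      · funext a
        unfold ND.c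
        rw [if_neg (Fin.castSucc_lt_last i).ne, if_neg (Fin.castSucc_lt_last j).ne]
    rw [hP]
    have := mp σ (F v)
    rwa [sub_mulVec, one_mulVec] at this

end Pool.Agent.INV5
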