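import Pool.Agent.INV5.R3
import Pool.Agent.INV5.R5
import Pool.Agent.INV5.R6
import Pool.Agent.INV5.R10

/-!
# INV5, module R11: reduction of the linear data to Jordan form (assembly of R3, R5, R6, R8, R10)
-/

namespace Pool.Agent.INV5

theorem lr_main (n : ℕ) (T : Fin 4 → Matrix (Fin n) (Fin n) ℂ) (h : ∀ k, T k * T k = 1)
    (h1 : T 0 * T 1 * T 2 * T 3 = 1) : ∃ D : JD, D.Gen ∧ D.n = n ∧
      (∀ e, D.cpl e ≤ cplus n e T) ∧
      ∀ e, hz n e (T 0 * T 1) (T 0 * T 3) ≤ D.h0 e ∧ hv n e (T 0 * T 1) (T 0 * T 3) ≤ D.hi e := by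
  obtain ⟨E, B, B', hB, hB', h0, hA, hC⟩ := nd_exists n T h h1
  obtain ⟨c, c1, c2, c3⟩ := nd_gen n E
  obtain ⟨D, hD, hn, hall⟩ := nd_jd n E c c1 c2 c3
  refine ⟨D, hD, hn, fun e => ?_, fun e => ?_⟩
  · rw [(hall e).1]
    exact cmp_cpl n E T h h1 B B' hB hB' h0 hA hC e
  · rw [(hall e).2.1, (hall e).2.2]
    exact cmp_hz n E _ _ B B' hB hB' hA hC e

end Pool.Agent.INV5
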