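import Pool.Agent.INV5.FJ
import Pool.Agent.INV5.N8
import Pool.Agent.INV5.R11

/-!
# INV5, final theorem: not every map is a product of four involutions (large dimension)
-/

namespace Pool.Agent.INV5

open Pool.Agent.RevMaps

theorem not_four : ∃ N : ℕ, ∀ n, N ≤ n → ∃ f : FMap n, lin f = 1 ∧
    ¬ ∃ σ : Fin 4 → FMap n, (∀ k, σ k * σ k = 1) ∧ σ 0 * σ 1 * σ 2 * σ 3 = f := by
  obtain ⟨N, hN⟩ := jd_main
  refine ⟨N, fun n hn => ?_⟩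
  obtain ⟨f, hf, hall⟩ := nl_main n
  refine ⟨f, hf, ?_⟩
  rintro ⟨σ, hσ, hp⟩
  obtain ⟨T, hT, hT1, hM⟩ := hall σ hσ hp
  obtain ⟨D, hD, hDn, hc, hh⟩ := lr_main n T hT hT1
  have key : ∀ M, M = 6 ∨ M = 7 → D.cpl M ≤ 4 * (D.n ^ 2 + D.n ^ 3) +
      ∑ e ∈ Finset.Ico 3 M, (D.h0 e + D.hi e) := by
    intro M h
    rw [hDn]
    refine (hc M).trans ((hM M h).trans ?_)
    exact Nat.add_le_add_left (Finset.sum_le_sum fun e _ => Nat.add_le_add (hh e).1 (hh e).2) _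
  exact hN D hD (hDn ▸ hn) (key 6 (Or.inl rfl)) (key 7 (Or.inr rfl))

end Pool.Agent.INV5
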