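import Pool.Agent.INV5.PC

/-!
# INV5, module PD: the coinvariants of `ℓ_tot, ℓ_8, ∑_{m<8} ℓ_m³`

By `ck_mono` it suffices to bound `ck (rs ![LL, AA1 last 1, ∑_{m < 7} AA1 m 3] re)`, by `ck_le_card`.
Write `t_m` for `AA1 7 m 1` (`AA1_pow`: `AA1 7 m 3 = t_m ^ 3`), `U` for the sum of the image and of the
span of the basis vectors `e_p`, `p ∈ S`. For a tuple `α` of blocks (with the last character real)
choose three different letters `a, b, c < 7` with `s_a ≥ s_b ≥ s_c` the three largest sizes among the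
first seven letters (ties arbitrarily). `S` is the set of the words `p` with
`p_8 = 0, p_a = 0` and (`p_c ≤ 1` or `p_b = 0`) (positions of the letters; the last letter is number
`8` here). Number of words in `S` with the tuple `α`:
`≤ (2 s_b + s_c) * ∏_{other four letters} s ≤ 3 s_b ∏_{others} s ≤ 3 ∏_{m < 7} s_m ^ (5/7)`
(with sorted sizes `s_1 ≥ ... ≥ s_7 ≥ 1`: `(s_2 s_4 s_5 s_6 s_7) ^ 7 ≤ (s_1 ⋯ s_7) ^ 5`, because
`s_2² ≤ s_1²`, `(s_4 s_5 s_6 s_7)² ≤ s_3⁸` and `s_1² s_3⁸ ≤ s_1⁵ s_3⁵`; all products are products of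
sizes of the chosen letters).
Claim: all `e_p ∈ U`. A word with `p_8 > 0` is in the image of `t_8`. Downward induction on the total
position `k` of the four other letters (for large `k` there are no words): assume that all words with
a larger total are in `U`.
(1) `p_a > 0`: `e_p = t_a e_p'`; `t_a = (∑ t) - t_8 - t_b - t_c - ∑_{others} t`. The term `∑ t = LL` gives an
element of the image, `t_8` too, the others have larger `k`, and `t_b e_p'`, `t_c e_p'` have a smaller
`p_a`: induction on `p_a`.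
(2) `p_a = p_8 = 0`, `p_b ≥ 1`, `p_c ≥ 2`: `e_p = t_b t_c² e_p'`. In the commutative polynomial ring
`∑_{m<7} t_m³ + 3 t_b t_c (t_b + t_c)` lies in the ideal generated by `∑ t`, `t_8` and the four `t_m`:
with `r = ∑_{others} t + t_8`, `s = ∑ t`: `t_a = s - r - t_b - t_c` and
`t_a³ + t_b³ + t_c³ + 3 t_b t_c (t_b + t_c) = t_a³ + (t_b + t_c)³ = t_a³ + (s - r - t_a)³`, which is
divisible by `s - r`. So `t_b t_c² e_p' ∈ - t_b² t_c e_p' + U` and the word `t_b² t_c e_p'` has a smaller
`p_c` (and `p_a = 0`): induction on `p_c`. (Words with tuple `α` only are involved. If a product of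
shifts leaves the block the vector is zero.)
-/

namespace Pool.Agent.INV5

open Matrix

private theorem pdDec (x : Fin 8 → ℕ) (m : Fin 8) (n : ℕ) (h : n ≤ x m) :
    ∃ y : Fin 8 → ℕ, x = y + Pi.single m n ∧ y m = x m - n ∧ ∀ m', m' ≠ m → y m' = x m' := by
  refine ⟨x - Pi.single m n, ?_, by simp, fun m' hm' => by simp [hm']⟩
  rw [tsub_add_cancel_of_le]
  intro m'
  by_cases hm : m' = m
  · subst hm; simpa using h
  · simp [hm]

private theorem pdSum3 {N : Type*} [AddCommGroup N] (a b c : Fin 7) (hab : a ≠ b) (hac : a ≠ c)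
    (hbc : b ≠ c) (g : Fin 7 → N) (hg : ∀ o, o ≠ a → o ≠ b → o ≠ c → g o = 0) :
    ∑ m, g m = g a + g b + g c := by
  have h1 : ∑ m ∈ ({a, b, c} : Finset (Fin 7)), g m = ∑ m, g m := by
    apply Finset.sum_subset (Finset.subset_univ _)
    intro o _ ho
    simp only [Finset.mem_insert, Finset.mem_singleton, not_or] at ho
    exact hg o ho.1 ho.2.1 ho.2.2
  rw [← h1, Finset.sum_insert (by simp [hab, hac]), Finset.sum_insert (by simp [hbc]),
    Finset.sum_singleton, add_assoc]

private def pdO (a b c : Fin 7) : Finset (Fin 7) :=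
  Finset.univ.filter fun o => o ≠ a ∧ o ≠ b ∧ o ≠ c

private def pdK (a b c : Fin 7) (x : Fin 8 → ℕ) : ℕ := ∑ o ∈ pdO a b c, x o.castSucc

private theorem pdK_add (a b c : Fin 7) (x : Fin 8 → ℕ) (m : Fin 7) (n : ℕ) :
    pdK a b c (x + Pi.single m.castSucc n) =
      pdK a b c x + if m ∈ pdO a b c then n else 0 := by
  unfold pdK
  simp only [Pi.add_apply, Finset.sum_add_distrib]
  congr 1
  have : ∀ o : Fin 7, (Pi.single m.castSucc n : Fin 8 → ℕ) o.castSucc = if o = m then n else 0 := by
    intro o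
    rw [Pi.single_apply]
    simp [Fin.castSucc_inj]
  simp only [this]
  rw [Finset.sum_ite_eq']

private theorem pdAbs {N : Type*} [AddCommGroup N] [Module ℂ N] (F : (Fin 8 → ℕ) → N)
    (a b c : Fin 7) (hab : a ≠ b) (hac : a ≠ c) (hbc : b ≠ c)
    (h1 : ∀ x : Fin 8 → ℕ, ∑ m : Fin 8, F (x + Pi.single m 1) = 0)
    (h2 : ∀ x : Fin 8 → ℕ, F (x + Pi.single (Fin.last 7) 1) = 0)
    (h3 : ∀ x : Fin 8 → ℕ, ∑ m : Fin 7, F (x + Pi.single m.castSucc 3) = 0)
    (B : ℕ) (h0 : ∀ x m, B ≤ x m → F x = 0)
    (h4 : ∀ x, x (Fin.last 7) = 0 → x a.castSucc = 0 →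
      (x c.castSucc ≤ 1 ∨ x b.castSucc = 0) → F x = 0) :
    ∀ x, F x = 0 := by
  have hlast : ∀ x : Fin 8 → ℕ, x (Fin.last 7) ≠ 0 → F x = 0 := by
    intro x hx
    obtain ⟨y, hy, -, -⟩ := pdDec x (Fin.last 7) 1 (by omega)
    rw [hy]
    exact h2 y
  have haO : a ∉ pdO a b c := by simp [pdO]
  have hbO : b ∉ pdO a b c := by simp [pdO]
  have hcO : c ∉ pdO a b c := by simp [pdO]
  have step : ∀ K : ℕ, (∀ y, K + 1 ≤ pdK a b c y → F y = 0) → ∀ x, pdK a b c x = K → F x = 0 := by
    intro K hK
    have R1 : ∀ y : Fin 8 → ℕ, pdK a b c y = K →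
        F (y + Pi.single a.castSucc 1) + F (y + Pi.single b.castSucc 1) +
          F (y + Pi.single c.castSucc 1) = 0 := by
      intro y hy
      have := h1 y
      rw [Fin.sum_univ_castSucc, h2, add_zero] at this
      rw [← this]
      symm
      apply pdSum3 a b c hab hac hbc (fun m => F (y + Pi.single m.castSucc 1))
      intro o hoa hob hoc
      apply hK
      rw [pdK_add, if_pos (by simp [pdO, hoa, hob, hoc]), hy]
    have R3 : ∀ y : Fin 8 → ℕ, pdK a b c y = K →
        F (y + Pi.single a.castSucc 3) + F (y + Pi.single b.castSucc 3) +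
          F (y + Pi.single c.castSucc 3) = 0 := by
      intro y hy
      rw [← h3 y]
      symm
      apply pdSum3 a b c hab hac hbc (fun m => F (y + Pi.single m.castSucc 3))
      intro o hoa hob hoc
      apply hK
      rw [pdK_add, if_pos (by simp [pdO, hoa, hob, hoc]), hy]
      omega
    have base : ∀ l : ℕ, ∀ x, pdK a b c x = K → x a.castSucc = 0 → x c.castSucc = l →
        F x = 0 := by
      intro l
      induction l using Nat.strong_induction_on with
      | _ l ih =>
        intro x hx hxa hxc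
        by_cases hl : x (Fin.last 7) = 0
        swap
        · exact hlast x hl
        by_cases hh : x c.castSucc ≤ 1 ∨ x b.castSucc = 0
        · exact h4 x hl hxa hh
        push Not at hh
        obtain ⟨hc2, hb1⟩ := hh
        obtain ⟨y1, hy1, hy1c, hy1o⟩ := pdDec x c.castSucc 2 (by omega)
        have hcb : b.castSucc ≠ c.castSucc := by
          intro h; exact hbc (Fin.castSucc_injective _ h)
        have hca : a.castSucc ≠ c.castSucc := by
          intro h; exact hac (Fin.castSucc_injective _ h)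
        have hba : a.castSucc ≠ b.castSucc := by
          intro h; exact hab (Fin.castSucc_injective _ h)
        obtain ⟨y, hy, hyb, hyo⟩ := pdDec y1 b.castSucc 1 (by rw [hy1o _ hcb]; omega)
        have hKy : pdK a b c y = K := by
          rw [hy1, hy, pdK_add, pdK_add, if_neg hbO, if_neg hcO] at hx
          simpa using hx
        have hya : y a.castSucc = 0 := by
          rw [hyo _ hba, hy1o _ hca, hxa]
        set ea : Fin 8 → ℕ := Pi.single a.castSucc 1 with hea
        set eb : Fin 8 → ℕ := Pi.single b.castSucc 1 with heb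
        set ec : Fin 8 → ℕ := Pi.single c.castSucc 1 with hec
        have t3 : ∀ m : Fin 7, (Pi.single m.castSucc 3 : Fin 8 → ℕ) =
            Pi.single m.castSucc 1 + Pi.single m.castSucc 1 + Pi.single m.castSucc 1 := by
          intro m
          rw [← Pi.single_add, ← Pi.single_add]
        have t2 : ∀ m : Fin 7, (Pi.single m.castSucc 2 : Fin 8 → ℕ) =
            Pi.single m.castSucc 1 + Pi.single m.castSucc 1 := by
          intro m
          rw [← Pi.single_add]
        have kk : ∀ z : Fin 8 → ℕ, pdK a b c z = K → pdK a b c (z + ea) = K ∧ pdK a b c (z + eb) = K ∧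
            pdK a b c (z + ec) = K := by
          intro z hz
          rw [hea, heb, hec, pdK_add, pdK_add, pdK_add, if_neg haO, if_neg hbO, if_neg hcO]
          simpa using hz
        have q0 := R3 y hKy
        rw [t3, t3, t3] at q0
        have q1 := R1 (y + ea + ea) (kk _ (kk _ hKy).1).1
        have q2 := R1 (y + ea + eb) (kk _ (kk _ hKy).1).2.1
        have q3 := R1 (y + ea + ec) (kk _ (kk _ hKy).1).2.2
        have q4 := R1 (y + eb + eb) (kk _ (kk _ hKy).2.1).2.1
        have q5 := R1 (y + eb + ec) (kk _ (kk _ hKy).2.1).2.2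
        have q6 := R1 (y + ec + ec) (kk _ (kk _ hKy).2.2).2.2
        have c1 : y + (ea + ea + ea) = y + ea + ea + ea := by ring
        have c2 : y + (eb + eb + eb) = y + eb + eb + eb := by ring
        have c3 : y + (ec + ec + ec) = y + ec + ec + ec := by ring
        have c4 : y + ea + eb + ea = y + ea + ea + eb := by ring
        have c5 : y + ea + ec + ea = y + ea + ea + ec := by ring
        have c6 : y + ea + ec + eb = y + ea + eb + ec := by ring
        have c7 : y + eb + eb + ea = y + ea + eb + eb := by ring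
        have c8 : y + eb + ec + ea = y + ea + eb + ec := by ring
        have c9 : y + ec + ec + ea = y + ea + ec + ec := by ring
        have c10 : y + eb + ec + eb = y + eb + eb + ec := by ring
        have c11 : y + ec + ec + eb = y + eb + ec + ec := by ring
        rw [c1, c2, c3] at q0
        rw [c4] at q2
        rw [c5, c6] at q3
        rw [c7] at q4
        rw [c8, c10] at q5
        rw [c9, c11] at q6
        have q7 : (3 : ℂ) • (F (y + eb + eb + ec) + F (y + eb + ec + ec)) = 0 := by
          linear_combination (norm := module) -q0 + q1 - q2 - q3 + q4 + (2 : ℂ) • q5 + q6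
        have q8 : F (y + eb + eb + ec) + F (y + eb + ec + ec) = 0 := by
          have := (smul_eq_zero.1 q7).resolve_left (by norm_num)
          exact this
        have q9 : F (y + eb + eb + ec) = 0 := by
          apply ih (y c.castSucc + 1) ?_ _ (kk _ (kk _ (kk _ hKy).2.1).2.1).2.2 ?_ ?_
          · rw [hyo _ hcb.symm, hy1c]; omega
          · simp only [Pi.add_apply, hya, heb, hec, Pi.single_eq_of_ne hba,
              Pi.single_eq_of_ne hca, add_zero]
          · simp only [Pi.add_apply, heb, hec, Pi.single_eq_of_ne hcb.symm, Pi.single_eq_same,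
              add_zero]
        rw [q9, zero_add] at q8
        rw [hy1, hy, t2, ← add_assoc]
        exact q8
    intro x hx
    have main : ∀ i : ℕ, ∀ x, pdK a b c x = K → x a.castSucc = i → F x = 0 := by
      intro i
      induction i with
      | zero => intro x hx hxa; exact base _ x hx hxa rfl
      | succ i ih =>
        intro x hx hxa
        obtain ⟨y, hy, hya, hyo⟩ := pdDec x a.castSucc 1 (by omega)
        have hKy : pdK a b c y = K := by
          rw [hy, pdK_add, if_neg haO] at hx
          simpa using hx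
        have hba : a.castSucc ≠ b.castSucc := by
          intro h; exact hab (Fin.castSucc_injective _ h)
        have hca : a.castSucc ≠ c.castSucc := by
          intro h; exact hac (Fin.castSucc_injective _ h)
        have r := R1 y hKy
        rw [ih (y + Pi.single b.castSucc 1) (by rw [pdK_add, if_neg hbO, hKy]; rfl)
            (by simp only [Pi.add_apply, Pi.single_eq_of_ne hba]; omega),
          ih (y + Pi.single c.castSucc 1) (by rw [pdK_add, if_neg hcO, hKy]; rfl)
            (by simp only [Pi.add_apply, Pi.single_eq_of_ne hca]; omega), add_zero, add_zero] at r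
        rw [hy]
        exact r
    exact main _ x hx rfl
  have down : ∀ d : ℕ, ∀ x, 7 * B ≤ pdK a b c x + d → F x = 0 := by
    intro d
    induction d with
    | zero =>
      intro x hx
      by_contra hne
      have hlt : ∀ m, x m < B := by
        intro m
        by_contra hm
        exact hne (h0 x m (by omega))
      have hB : 0 < B := lt_of_le_of_lt (Nat.zero_le _) (hlt 0)
      have : pdK a b c x ≤ (pdO a b c).card • (B - 1) := by
        apply Finset.sum_le_card_nsmul
        intro o _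
        have := hlt o.castSucc
        omega
      have hcard : (pdO a b c).card ≤ 7 := by
        have := Finset.card_le_univ (pdO a b c)
        simpa using this
      have h7 : (pdO a b c).card • (B - 1) ≤ 7 * (B - 1) := by
        rw [smul_eq_mul]
        exact Nat.mul_le_mul_right _ hcard
      omega
    | succ d ih =>
      intro x hx
      apply step (pdK a b c x) _ x rfl
      intro y hy
      apply ih
      omega
  intro x
  exact down (7 * B) x (by omega)

end Pool.Agent.INV5

namespace Pool.Agent.INV5.JD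

open Matrix

variable (D : JD)

private abbrev pdJ : Type := {p : D.J 7 // D.re p}

private theorem pdIdx {β : Type} {b : β → ℕ} (i k : Idx b) (h1 : i.1 = k.1)
    (h2 : (i.2 : ℕ) = (k.2 : ℕ)) : i = k := by
  obtain ⟨a, p⟩ := i
  obtain ⟨a', p'⟩ := k
  simp only at h1
  subst h1
  simp only at h2
  rw [Fin.ext h2]

private theorem pdShPow {β : Type} [Fintype β] [DecidableEq β] (b : β → ℕ) (k : ℕ) (i j : Idx b) :
    (Sh b ^ k) i j = if i.1 = j.1 ∧ (i.2 : ℕ) = (j.2 : ℕ) + k then 1 else 0 := by
  induction k generalizing i with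
  | zero =>
    rw [pow_zero, Matrix.one_apply]
    by_cases h : i = j
    · subst h; simp
    · rw [if_neg h, if_neg]
      rintro ⟨h1, h2⟩
      exact h (pdIdx i j h1 (by simpa using h2))
  | succ k ih =>
    rw [pow_succ', Matrix.mul_apply]
    simp only [ih]
    by_cases h : i.1 = j.1 ∧ (i.2 : ℕ) = (j.2 : ℕ) + (k + 1)
    · rw [if_pos h]
      have hlt : (j.2 : ℕ) + k < b i.1 := by
        have := i.2.isLt
        omega
      rw [Finset.sum_eq_single (⟨i.1, ⟨(j.2 : ℕ) + k, hlt⟩⟩ : Idx b)]
      · rw [if_pos ⟨h.1, rfl⟩, mul_one]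
        have h9 : (i.2 : ℕ) = ((j.2 : ℕ) + k) + 1 := by omega
        exact if_pos ⟨rfl, h9⟩
      · intro l _ hl
        by_cases h3 : l.1 = j.1 ∧ (l.2 : ℕ) = (j.2 : ℕ) + k
        · exfalso
          apply hl
          exact pdIdx _ _ (h3.1.trans h.1.symm) h3.2
        · rw [if_neg h3, mul_zero]
      · intro h3
        exact absurd (Finset.mem_univ _) h3
    · rw [if_neg h]
      apply Finset.sum_eq_zero
      intro l _
      by_cases h3 : l.1 = j.1 ∧ (l.2 : ℕ) = (j.2 : ℕ) + k
      · rw [if_pos h3, mul_one]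
        simp only [Sh]
        rw [if_neg]
        rintro ⟨h4, h5⟩
        apply h
        exact ⟨h4.trans h3.1, by omega⟩
      · rw [if_neg h3, mul_zero]

/-- the basis vector with the blocks of `j` and the positions `x` (zero if there is no such word) -/
private noncomputable def pdE (j : pdJ D) (x : Fin 8 → ℕ) : pdJ D → ℂ := fun p =>
  open Classical in
  if ∀ m, (p.1.1 m).1 = (j.1.1 m).1 ∧ ((p.1.1 m).2 : ℕ) = x m then 1 else 0

private noncomputable def pdQ (j : pdJ D) (x : Fin 8 → ℕ) (hx : ∀ m, x m < D.b (j.1.1 m).1) :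
    pdJ D :=
  ⟨⟨fun m => ⟨(j.1.1 m).1, ⟨x m, hx m⟩⟩, j.1.2⟩, j.2⟩

private theorem pdQ_eq (j : pdJ D) (x : Fin 8 → ℕ) (hx : ∀ m, x m < D.b (j.1.1 m).1)
    (p : pdJ D) (h : ∀ m, (p.1.1 m).1 = (j.1.1 m).1 ∧ ((p.1.1 m).2 : ℕ) = x m) :
    p = pdQ D j x hx := by
  apply Subtype.ext
  apply Subtype.ext
  funext m
  exact pdIdx _ _ (h m).1 (h m).2

private theorem pdE_zero (j : pdJ D) (x : Fin 8 → ℕ) (hx : ¬ ∀ m, x m < D.b (j.1.1 m).1) :
    pdE D j x = 0 := by
  funext p
  rw [pdE, if_neg]
  · rfl
  · intro h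
    apply hx
    intro m
    rw [← (h m).2, ← (h m).1]
    exact (p.1.1 m).2.isLt

private theorem pdE_Q (j : pdJ D) (x : Fin 8 → ℕ) (hx : ∀ m, x m < D.b (j.1.1 m).1) :
    pdE D j x (pdQ D j x hx) = 1 := by
  rw [pdE, if_pos]
  intro m
  exact ⟨rfl, rfl⟩

private theorem pdE_single (j : pdJ D) [DecidableEq (pdJ D)] :
    pdE D j (fun m => ((j.1.1 m).2 : ℕ)) = Pi.single j 1 := by
  funext p
  by_cases h : p = j
  · subst h
    rw [pdE, if_pos (fun m => ⟨rfl, rfl⟩), Pi.single_eq_same]
  · rw [pdE, if_neg, Pi.single_eq_of_ne h]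
    intro h1
    apply h
    apply Subtype.ext
    apply Subtype.ext
    funext m
    exact pdIdx _ _ (h1 m).1 (h1 m).2

private theorem pdAct (j : pdJ D) (x : Fin 8 → ℕ) (m : Fin 8) (k : ℕ) :
    ((D.AA1 7 m k).submatrix Subtype.val Subtype.val : Matrix (pdJ D) (pdJ D) ℂ).mulVec
      (pdE D j x) = pdE D j (x + Pi.single m k) := by
  by_cases hx : ∀ m, x m < D.b (j.1.1 m).1
  · funext p
    rw [Matrix.mulVec, dotProduct, Finset.sum_eq_single (pdQ D j x hx)]
    · rw [pdE_Q, mul_one, Matrix.submatrix_apply]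
      simp only [AA1, res, Matrix.submatrix_apply, At, pdShPow]
      by_cases h1 : ∀ m', (p.1.1 m').1 = (j.1.1 m').1 ∧ ((p.1.1 m').2 : ℕ) =
          (x + Pi.single m k : Fin 8 → ℕ) m'
      · rw [pdE, if_pos h1, if_pos, if_pos]
        · refine ⟨(h1 m).1, ?_⟩
          have := (h1 m).2
          rw [Pi.add_apply, Pi.single_eq_same] at this
          exact this
        · intro m' hm'
          apply pdIdx
          · exact (h1 m').1
          · have := (h1 m').2
            rw [Pi.add_apply, Pi.single_eq_of_ne hm', add_zero] at this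
            exact this
      · rw [pdE, if_neg h1]
        by_cases h2 : ∀ m', m' ≠ m → p.1.1 m' = (pdQ D j x hx).1.1 m'
        · rw [if_pos h2, if_neg]
          rintro ⟨h3, h4⟩
          apply h1
          intro m'
          by_cases hm : m' = m
          · subst hm
            refine ⟨h3, ?_⟩
            rw [Pi.add_apply, Pi.single_eq_same]
            exact h4
          · have := h2 m' hm
            rw [this]
            refine ⟨rfl, ?_⟩
            rw [Pi.add_apply, Pi.single_eq_of_ne hm, add_zero]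
            rfl
        · rw [if_neg h2]
    · intro q _ hq
      rw [pdE, if_neg, mul_zero]
      intro h
      exact hq (pdQ_eq D j x hx q h)
    · intro h
      exact absurd (Finset.mem_univ _) h
  · rw [pdE_zero D j x hx, Matrix.mulVec_zero, pdE_zero]
    intro h
    apply hx
    intro m'
    refine lt_of_le_of_lt ?_ (h m')
    simp

/-- the three operators -/
private noncomputable def pdZ : Fin 3 → Matrix (D.J 7) (D.J 7) ℂ :=
  ![D.LL 7, D.AA1 7 (Fin.last 7) 1, ∑ m : Fin 7, D.AA1 7 m.castSucc 3]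

private theorem pdMono : ck (rs D.ZF D.re) ≤ ck (rs (pdZ D) D.re) := by
  apply ck_mono
  intro r v
  fin_cases r
  · exact mem_img (rs D.ZF D.re) (Sum.inl (Sum.inl 0)) v
  · exact mem_img (rs D.ZF D.re) (Sum.inr 0) v
  · exact mem_img (rs D.ZF D.re) (Sum.inr 1) v

private theorem pdTop (s : Fin 7 → ℕ) : ∃ a b c : Fin 7, a ≠ b ∧ a ≠ c ∧ b ≠ c ∧ s b ≤ s a ∧
    s c ≤ s b ∧ ∀ o, o ≠ a → o ≠ b → o ≠ c → s o ≤ s c := by
  obtain ⟨a, -, ha⟩ := Finset.exists_max_image (Finset.univ : Finset (Fin 7)) s ⟨0, Finset.mem_univ _⟩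
  have h1 : ((Finset.univ : Finset (Fin 7)).erase a).Nonempty := by
    rw [← Finset.card_pos, Finset.card_erase_of_mem (Finset.mem_univ _)]
    simp
  obtain ⟨b, hb, hb'⟩ := Finset.exists_max_image _ s h1
  have h2 : (((Finset.univ : Finset (Fin 7)).erase a).erase b).Nonempty := by
    rw [← Finset.card_pos, Finset.card_erase_of_mem hb, Finset.card_erase_of_mem (Finset.mem_univ _)]
    simp
  obtain ⟨c, hc, hc'⟩ := Finset.exists_max_image _ s h2
  simp only [Finset.mem_erase, Finset.mem_univ, and_true, ne_eq] at hb hc hb' hc'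
  refine ⟨a, b, c, fun h => hb h.symm, fun h => hc.2 h.symm, fun h => hc.1 h.symm,
    ha b (Finset.mem_univ _), hb' c hc.2, ?_⟩
  intro o h1 h2 _
  exact hc' o ⟨h2, h1⟩

private noncomputable def pdA (s : Fin 7 → ℕ) : Fin 7 := (pdTop s).choose
private noncomputable def pdB (s : Fin 7 → ℕ) : Fin 7 := (pdTop s).choose_spec.choose
private noncomputable def pdC (s : Fin 7 → ℕ) : Fin 7 := (pdTop s).choose_spec.choose_spec.choose

private theorem pdABC (s : Fin 7 → ℕ) : pdA s ≠ pdB s ∧ pdA s ≠ pdC s ∧ pdB s ≠ pdC s ∧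
    s (pdB s) ≤ s (pdA s) ∧ s (pdC s) ≤ s (pdB s) ∧
    ∀ o, o ≠ pdA s → o ≠ pdB s → o ≠ pdC s → s o ≤ s (pdC s) :=
  (pdTop s).choose_spec.choose_spec.choose_spec

/-- sizes of the blocks of the first seven letters -/
private def pdSz (α : Fin 8 → D.β) (m : Fin 7) : ℕ := D.b (α m.castSucc)

private def pdGood (p : pdJ D) : Prop :=
  ((p.1.1 (Fin.last 7)).2 : ℕ) = 0 ∧
  ((p.1.1 (pdA (D.pdSz fun m => (p.1.1 m).1)).castSucc).2 : ℕ) = 0 ∧
  (((p.1.1 (pdC (D.pdSz fun m => (p.1.1 m).1)).castSucc).2 : ℕ) ≤ 1 ∨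
    ((p.1.1 (pdB (D.pdSz fun m => (p.1.1 m).1)).castSucc).2 : ℕ) = 0)

open Classical in
private noncomputable def pdS : Finset (pdJ D) := Finset.univ.filter (pdGood D)

private theorem pdSpan [DecidableEq (pdJ D)] (j : pdJ D) : (Pi.single j 1 : pdJ D → ℂ) ∈
      img (rs (pdZ D) D.re) ⊔
        Submodule.span ℂ ((fun i => (Pi.single i 1 : pdJ D → ℂ)) '' (pdS D : Set (pdJ D))) := by
  set U : Submodule ℂ (pdJ D → ℂ) := img (rs (pdZ D) D.re) ⊔
        Submodule.span ℂ ((fun i => (Pi.single i 1 : pdJ D → ℂ)) '' (pdS D : Set (pdJ D))) with hU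
  set s := D.pdSz fun m => (j.1.1 m).1 with hs
  obtain ⟨hab, hac, hbc, -, -, -⟩ := pdABC s
  have key := pdAbs (fun x => U.mkQ (pdE D j x)) (pdA s) (pdB s) (pdC s) hab hac hbc
    (by
      intro x
      rw [← map_sum]
      rw [Submodule.mkQ_apply, Submodule.Quotient.mk_eq_zero]
      apply Submodule.mem_sup_left
      have h := mem_img (rs (pdZ D) D.re) 0 (pdE D j x)
      convert h using 1
      have h2 : rs (pdZ D) D.re 0 = ∑ m : Fin 8,
          ((D.AA1 7 m 1).submatrix Subtype.val Subtype.val : Matrix (pdJ D) (pdJ D) ℂ) := by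
        ext p q
        simp only [rs, pdZ, Matrix.submatrix_apply, Matrix.sum_apply, Matrix.cons_val_zero]
        rw [LL_eq, Matrix.sum_apply]
      rw [h2, Matrix.sum_mulVec]
      refine Finset.sum_congr rfl fun m _ => ?_
      rw [pdAct])
    (by
      intro x
      rw [Submodule.mkQ_apply, Submodule.Quotient.mk_eq_zero]
      apply Submodule.mem_sup_left
      have h := mem_img (rs (pdZ D) D.re) 1 (pdE D j x)
      convert h using 1
      exact (pdAct D j x (Fin.last 7) 1).symm)
    (by
      intro x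
      rw [← map_sum]
      rw [Submodule.mkQ_apply, Submodule.Quotient.mk_eq_zero]
      apply Submodule.mem_sup_left
      have h := mem_img (rs (pdZ D) D.re) 2 (pdE D j x)
      convert h using 1
      have h2 : rs (pdZ D) D.re 2 = ∑ m : Fin 7,
          ((D.AA1 7 m.castSucc 3).submatrix Subtype.val Subtype.val :
            Matrix (pdJ D) (pdJ D) ℂ) := by
        ext p q
        rw [Matrix.sum_apply]
        change (∑ m : Fin 7, D.AA1 7 m.castSucc 3) p.1 q.1 = _
        rw [Matrix.sum_apply]
        rfl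
      rw [h2, Matrix.sum_mulVec]
      refine Finset.sum_congr rfl fun m _ => ?_
      rw [pdAct])
    (∑ m : Fin 8, D.b (j.1.1 m).1)
    (by
      intro x m hm
      rw [pdE_zero, map_zero]
      intro h
      have h1 := h m
      have h2 : D.b (j.1.1 m).1 ≤ ∑ m : Fin 8, D.b (j.1.1 m).1 :=
        Finset.single_le_sum (f := fun m : Fin 8 => D.b (j.1.1 m).1) (fun _ _ => Nat.zero_le _)
          (Finset.mem_univ m)
      exact absurd (lt_of_le_of_lt hm h1) (not_lt.mpr h2))
    (by
      intro x h1 h2 h3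
      by_cases hx : ∀ m, x m < D.b (j.1.1 m).1
      swap
      · rw [pdE_zero D j x hx, map_zero]
      rw [Submodule.mkQ_apply, Submodule.Quotient.mk_eq_zero]
      apply Submodule.mem_sup_right
      apply Submodule.subset_span
      refine ⟨pdQ D j x hx, ?_, ?_⟩
      · rw [pdS, Finset.coe_filter]
        refine ⟨Finset.mem_univ _, ?_⟩
        exact ⟨h1, h2, h3⟩
      · simp only
        rw [← pdE_single]
        funext p
        rfl)
  have h := key (fun m => ((j.1.1 m).2 : ℕ))
  simp only at h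
  rw [pdE_single, Submodule.mkQ_apply, Submodule.Quotient.mk_eq_zero] at h
  exact h

private theorem pdCk : ck (rs D.ZF D.re) ≤ (pdS D).card := by
  classical
  exact (pdMono D).trans (ck_le_card _ _ (pdSpan D))

/-! counting -/

private def pdF (p : pdJ D) : Tup (D.cb 7) := ⟨fun m => (p.1.1 m).1, p.1.2⟩

private noncomputable def pdT1 (s : Fin 7 → ℕ) (m : Fin 7) : Finset ℕ :=
  if m = pdA s then Finset.range 1 else if m = pdC s then Finset.range 2 else Finset.range (s m)

private noncomputable def pdT2 (s : Fin 7 → ℕ) (m : Fin 7) : Finset ℕ :=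
  if m = pdA s then Finset.range 1 else if m = pdB s then Finset.range 1 else Finset.range (s m)

private noncomputable def pdPo (s : Fin 7 → ℕ) : ℕ := ∏ o ∈ pdO (pdA s) (pdB s) (pdC s), s o

private theorem pdProd (s g : Fin 7 → ℕ)
    (hg : ∀ o ∈ pdO (pdA s) (pdB s) (pdC s), g o = s o) :
    ∏ m, g m = g (pdA s) * (g (pdB s) * (g (pdC s) * pdPo s)) := by
  obtain ⟨hab, hac, hbc, -, -, -⟩ := pdABC s
  have hU : (Finset.univ : Finset (Fin 7)) =
      insert (pdA s) (insert (pdB s) (insert (pdC s) (pdO (pdA s) (pdB s) (pdC s)))) := by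
    ext o
    simp only [Finset.mem_univ, Finset.mem_insert, pdO, Finset.mem_filter, true_and, true_iff]
    tauto
  rw [hU, Finset.prod_insert, Finset.prod_insert, Finset.prod_insert, pdPo]
  · rw [Finset.prod_congr rfl hg]
  · simp [pdO]
  · simp [pdO, hbc]
  · simp [pdO, hab, hac]

private theorem pdT1_card (s : Fin 7 → ℕ) :
    (Fintype.piFinset (pdT1 s)).card = 2 * (s (pdB s) * pdPo s) := by
  obtain ⟨hab, hac, hbc, -, -, -⟩ := pdABC s
  rw [Fintype.card_piFinset, pdProd s]
  · simp only [pdT1, if_neg hab.symm, if_neg hac.symm, if_neg hbc, if_true, Finset.card_range]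
    ring
  · intro o ho
    simp only [pdO, Finset.mem_filter, Finset.mem_univ, true_and] at ho
    simp only [pdT1, if_neg ho.1, if_neg ho.2.2, Finset.card_range]

private theorem pdT2_card (s : Fin 7 → ℕ) :
    (Fintype.piFinset (pdT2 s)).card = s (pdC s) * pdPo s := by
  obtain ⟨hab, hac, hbc, -, -, -⟩ := pdABC s
  rw [Fintype.card_piFinset, pdProd s]
  · simp only [pdT2, if_neg hab.symm, if_neg hac.symm, if_neg hbc.symm, if_true, Finset.card_range]
    ring
  · intro o ho
    simp only [pdO, Finset.mem_filter, Finset.mem_univ, true_and] at ho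
    simp only [pdT2, if_neg ho.1, if_neg ho.2.1, Finset.card_range]

private theorem pdFib [DecidableEq (Tup (D.cb 7))] (α : Tup (D.cb 7)) :
    ((pdS D).filter fun p => pdF D p = α).card ≤
    (Fintype.piFinset (pdT1 (D.pdSz α.1)) ∪ Fintype.piFinset (pdT2 (D.pdSz α.1))).card := by
  classical
  apply Finset.card_le_card_of_injOn (fun p m => ((p.1.1 (Fin.castSucc m)).2 : ℕ))
  · intro p hp
    rw [Finset.coe_filter] at hp
    obtain ⟨hp1, hp2⟩ := hp
    subst hp2
    rw [pdS, Finset.mem_filter] at hp1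
    obtain ⟨-, hg1, hg2, hg3⟩ := hp1
    have hlt : ∀ m : Fin 7, ((p.1.1 m.castSucc).2 : ℕ) < D.pdSz (pdF D p).1 m :=
      fun m => (p.1.1 m.castSucc).2.isLt
    rw [Finset.mem_coe, Finset.mem_union, Fintype.mem_piFinset, Fintype.mem_piFinset]
    rcases hg3 with hg3 | hg3
    · left
      intro m
      unfold pdT1
      split_ifs with h1 h2
      · rw [Finset.mem_range, h1]
        change ((p.1.1 (pdA (D.pdSz fun m => (p.1.1 m).1)).castSucc).2 : ℕ) < 1
        omega
      · rw [Finset.mem_range, h2]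
        change ((p.1.1 (pdC (D.pdSz fun m => (p.1.1 m).1)).castSucc).2 : ℕ) < 2
        omega
      · rw [Finset.mem_range]
        exact hlt m
    · right
      intro m
      unfold pdT2
      split_ifs with h1 h2
      · rw [Finset.mem_range, h1]
        change ((p.1.1 (pdA (D.pdSz fun m => (p.1.1 m).1)).castSucc).2 : ℕ) < 1
        omega
      · rw [Finset.mem_range, h2]
        change ((p.1.1 (pdB (D.pdSz fun m => (p.1.1 m).1)).castSucc).2 : ℕ) < 1
        omega
      · rw [Finset.mem_range]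
        exact hlt m
  · intro p hp q hq hpq
    rw [Finset.coe_filter] at hp hq
    obtain ⟨hp1, hp2⟩ := hp
    obtain ⟨hq1, hq2⟩ := hq
    rw [pdS, Finset.mem_filter] at hp1 hq1
    apply Subtype.ext
    apply Subtype.ext
    funext m
    have h1 : (p.1.1 m).1 = (q.1.1 m).1 := congrFun (congrArg Subtype.val (hp2.trans hq2.symm)) m
    apply pdIdx _ _ h1
    refine Fin.lastCases ?_ (fun m => ?_) m
    · rw [hp1.2.1, hq1.2.1]
    · exact congrFun hpq m

private theorem pdFib0 [DecidableEq (Tup (D.cb 7))] (α : Tup (D.cb 7))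
    (hα : D.χ (α.1 (Fin.last 7)) ^ 2 ≠ 1) : ((pdS D).filter fun p => pdF D p = α).card = 0 := by
  rw [Finset.card_eq_zero, Finset.filter_eq_empty_iff]
  intro p _ hp
  apply hα
  rw [← hp]
  exact p.2

private theorem pdNat (s : Fin 7 → ℕ) : (s (pdB s) * pdPo s) ^ 7 ≤ (∏ m, s m) ^ 5 := by
  obtain ⟨hab, hac, hbc, h1, h2, h3⟩ := pdABC s
  rw [pdProd s s (fun _ _ => rfl)]
  have hcard : (pdO (pdA s) (pdB s) (pdC s)).card = 4 := by
    have hO : pdO (pdA s) (pdB s) (pdC s) =
        (((Finset.univ : Finset (Fin 7)).erase (pdA s)).erase (pdB s)).erase (pdC s) := by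
      ext o
      simp only [pdO, Finset.mem_filter, Finset.mem_univ, true_and, Finset.mem_erase, and_true,
        ne_eq]
      tauto
    rw [hO, Finset.card_erase_of_mem, Finset.card_erase_of_mem, Finset.card_erase_of_mem]
    · simp
    · simp
    · simp [hab.symm]
    · simp [hac.symm, hbc.symm]
  have hPo : pdPo s ≤ s (pdC s) ^ 4 := by
    rw [pdPo, ← hcard]
    apply Finset.prod_le_pow_card
    intro o ho
    simp only [pdO, Finset.mem_filter, Finset.mem_univ, true_and] at ho
    exact h3 o ho.1 ho.2.1 ho.2.2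
  set A := s (pdA s)
  set B := s (pdB s)
  set C := s (pdC s)
  set P := pdPo s
  have hCA : C ≤ A := h2.trans h1
  calc (B * P) ^ 7 = (B * P) ^ 5 * (B ^ 2 * P ^ 2) := by ring
    _ ≤ (B * P) ^ 5 * (A ^ 2 * (C ^ 4) ^ 2) := by gcongr
    _ = (B * P) ^ 5 * (A ^ 2 * C ^ 5 * C ^ 3) := by ring
    _ ≤ (B * P) ^ 5 * (A ^ 2 * C ^ 5 * A ^ 3) := by gcongr
    _ = (A * (B * (C * P))) ^ 5 := by ring

private theorem pdReal (s : Fin 7 → ℕ) : ((s (pdB s) * pdPo s : ℕ) : ℝ) ≤
    ∏ m, (s m : ℝ) ^ ((5 : ℝ) / 7) := by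
  rw [Real.finsetProd_rpow _ _ (fun m _ => Nat.cast_nonneg _)]
  have h := pdNat s
  have h' : ((s (pdB s) * pdPo s : ℕ) : ℝ) ^ 7 ≤ (∏ m, (s m : ℝ)) ^ 5 := by
    exact_mod_cast h
  set x : ℝ := ((s (pdB s) * pdPo s : ℕ) : ℝ) with hx
  have hx0 : 0 ≤ x := Nat.cast_nonneg _
  set y : ℝ := ∏ m, (s m : ℝ) with hy
  have hy0 : 0 ≤ y := Finset.prod_nonneg fun _ _ => Nat.cast_nonneg _
  calc x = (x ^ 7) ^ ((1 : ℝ) / 7) := by
        rw [← Real.rpow_natCast, ← Real.rpow_mul hx0]
        norm_num
    _ ≤ (y ^ 5) ^ ((1 : ℝ) / 7) := Real.rpow_le_rpow (by positivity) h' (by norm_num)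
    _ = y ^ ((5 : ℝ) / 7) := by
        rw [← Real.rpow_natCast, ← Real.rpow_mul hy0]
        norm_num

theorem pd (D : JD) : (ck (rs D.ZF D.re) : ℝ) ≤
    3 * ∑ α : Tup (D.cb 7), (if D.χ (α.1 (Fin.last 7)) ^ 2 = 1 then
      ∏ m : Fin 7, (D.b (α.1 m.castSucc) : ℝ) ^ ((5 : ℝ) / 7) else 0) := by
  classical
  refine le_trans (Nat.cast_le.mpr (pdCk D)) ?_
  rw [Finset.card_eq_sum_card_fiberwise (f := pdF D) (t := Finset.univ)
    (fun _ _ => Finset.mem_coe.mpr (Finset.mem_univ _))]
  rw [Nat.cast_sum, Finset.mul_sum]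
  apply Finset.sum_le_sum
  intro α _
  by_cases hα : D.χ (α.1 (Fin.last 7)) ^ 2 = 1
  · rw [if_pos hα]
    have h1 := (pdFib D α).trans (Finset.card_union_le _ _)
    rw [pdT1_card, pdT2_card] at h1
    have h2 : D.pdSz α.1 (pdC (D.pdSz α.1)) * pdPo (D.pdSz α.1) ≤
        D.pdSz α.1 (pdB (D.pdSz α.1)) * pdPo (D.pdSz α.1) :=
      Nat.mul_le_mul_right _ (pdABC (D.pdSz α.1)).2.2.2.2.1
    have h3 := pdReal (D.pdSz α.1)
    calc (((pdS D).filter fun p => pdF D p = α).card : ℝ)
        ≤ ((3 * (D.pdSz α.1 (pdB (D.pdSz α.1)) * pdPo (D.pdSz α.1)) : ℕ) : ℝ) := by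
          apply Nat.cast_le.mpr
          omega
      _ = 3 * ((D.pdSz α.1 (pdB (D.pdSz α.1)) * pdPo (D.pdSz α.1) : ℕ) : ℝ) := by
          rw [Nat.cast_mul]
          norm_num
      _ ≤ _ := by
          apply mul_le_mul_of_nonneg_left h3
          norm_num
  · rw [if_neg hα, pdFib0 D α hα]
    simp

end Pool.Agent.INV5.JD
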