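import Pool.Agent.INV5.NO3

/-!
# INV5, module PE: many small blocks with the same real character

Put `A = AA`, `u a = (b a) ^ (5/7)`, `v a = 1` if `χ a ^ 2 = 1` and `0` otherwise. The sum is
`S(u, ..., u, v)` (`u` seven times, all labels of the form `χ` or `χ⁻¹`). Let `u = u' + u''` where `u'` is
the part with `b a < K` and `u''` the part with `K ≤ b a`, similarly `v = v' + v''`. Then
`S(u, ..., u, v) ≤ S(u', ..., u', v') + ∑_{m<7} S(u, .., u'' (place m), .., u, v) + S(u, ..., u, v'')`
(pointwise: if some letter is large the product is bounded by one of the other terms), and by `holder`,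
`nw_57`, `nw_57_ge`, `nw_one`, `nw_one_ge` the last two are `≤ C A (K ^ (-1/28) + K ^ (-3/4))`, where `C` does
not depend on `D`, `K`. For `K` large this is `≤ (c/2) A`. So
`(c/2) A ≤ S(u', ..., u', v') ≤ nrm(u)^7 nrm(v') ≤ (C A ^ (1/8)) ^ 7 nrm(v')`, i.e. `nrm(v') ≥ c'' A ^ (1/8)`.
Finally `v' a = ∑_{μ ^ 2 = 1} 1_{χ a = μ, b a < K}`; there are four characters with `μ ^ 2 = 1`
(`(±1, ±1)`), and `nrm v'` is at most the sum of the four numbers (pointwise sum, `nrm_sum`, `nrm_real`;
each of these weights is symmetric as `μ⁻¹ = μ`). If `A = 0` the claim is trivial.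
-/

namespace Pool.Agent.INV5.JD

private theorem pe_sy (D : JD) (μ : Lam) (hμ : μ ^ 2 = 1) (q : ℕ → Prop) [DecidablePred q] :
    D.Sy fun a => if D.χ a = μ ∧ q (D.b a) then 1 else 0 := by
  have hinv : μ⁻¹ = μ := by
    rw [inv_eq_iff_mul_eq_one, ← sq]
    exact hμ
  intro ν
  by_cases h : ν = μ
  · subst h
    rw [hinv]
  · have h1 : ∀ ν' : Lam, ν' ≠ μ → ∑ a with D.χ a = ν',
        (if D.χ a = μ ∧ q (D.b a) then (1 : ℝ) else 0) = 0 := by
      intro ν' hν'
      refine Finset.sum_eq_zero fun a ha => ?_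
      rw [Finset.mem_filter] at ha
      rw [if_neg]
      rintro ⟨h2, -⟩
      exact hν' (ha.2.symm.trans h2)
    rw [h1 ν h, h1 ν⁻¹]
    intro h2
    apply h
    rw [← inv_inv ν, h2, hinv]

private theorem pe_four (μ : Lam) (h : μ ^ 2 = 1) :
    μ = (1, 1) ∨ μ = (1, -1) ∨ μ = (-1, 1) ∨ μ = (-1, -1) := by
  obtain ⟨x, y⟩ := μ
  have hx : x ^ 2 = 1 := congrArg Prod.fst h
  have hy : y ^ 2 = 1 := congrArg Prod.snd h
  have key : ∀ z : ℂˣ, z ^ 2 = 1 → z = 1 ∨ z = -1 := by
    intro z hz
    have h1 : (z : ℂ) * (z : ℂ) = 1 := by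
      rw [← sq, ← Units.val_pow_eq_pow_val, hz, Units.val_one]
    rcases mul_self_eq_one_iff.1 h1 with h2 | h2
    · left
      exact Units.ext h2
    · right
      exact Units.ext (by rw [h2, Units.val_neg, Units.val_one])
  rcases key x hx with rfl | rfl <;> rcases key y hy with rfl | rfl
  · left; rfl
  · right; left; rfl
  · right; right; left; rfl
  · right; right; right; rfl

private theorem pe_holder (D : JD) (U : Fin 8 → D.β → ℝ) (h0 : ∀ m a, 0 ≤ U m a)
    (hs : ∀ m, D.Sy (U m)) :
    ∑ α : Tup (D.cb 7), ∏ m, U m (α.1 m) ≤ ∏ m, D.nrm (U m) := by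
  refine D.holder (N := 8) le_rfl (D.cb 7) (fun m => ?_) U h0 hs
  by_cases hm : m = Fin.last 7
  · left
    intro a
    unfold cb
    rw [if_pos hm]
  · right
    intro a
    unfold cb
    rw [if_neg hm]

private theorem pe_split (D : JD) (K : ℕ) (U : Fin 8 → D.β → ℝ) (h0 : ∀ m a, 0 ≤ U m a)
    (α : Fin 8 → D.β) :
    ∏ m, U m (α m) ≤ ∏ m, (if D.b (α m) < K then U m (α m) else 0) +
      ∑ m, ∏ m', (Function.update U m fun a => if K ≤ D.b a then U m a else 0) m' (α m') := by
  have hnn : ∀ m, 0 ≤ ∏ m', (Function.update U m fun a => if K ≤ D.b a then U m a else 0)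
      m' (α m') := by
    intro m
    refine Finset.prod_nonneg fun m' _ => ?_
    by_cases h : m' = m
    · subst h
      rw [Function.update_self]
      split_ifs
      · exact h0 _ _
      · exact le_rfl
    · rw [Function.update_of_ne h]
      exact h0 _ _
  by_cases hall : ∀ m, D.b (α m) < K
  · have h1 : ∏ m, (if D.b (α m) < K then U m (α m) else 0) = ∏ m, U m (α m) :=
      Finset.prod_congr rfl fun m _ => if_pos (hall m)
    rw [h1]
    exact le_add_of_nonneg_right (Finset.sum_nonneg fun m _ => hnn m)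
  · push Not at hall
    obtain ⟨m, hm⟩ := hall
    have h1 : ∏ m', (Function.update U m fun a => if K ≤ D.b a then U m a else 0) m' (α m') =
        ∏ m', U m' (α m') := by
      refine Finset.prod_congr rfl fun m' _ => ?_
      by_cases h : m' = m
      · subst h
        rw [Function.update_self, if_pos hm]
      · rw [Function.update_of_ne h]
    have h2 := Finset.single_le_sum (f := fun m => ∏ m', (Function.update U m
      fun a => if K ≤ D.b a then U m a else 0) m' (α m')) (fun m _ => hnn m) (Finset.mem_univ m)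
    rw [← h1]
    refine h2.trans (le_add_of_nonneg_left (Finset.prod_nonneg fun m' _ => ?_))
    split_ifs
    · exact h0 _ _
    · exact le_rfl

private theorem pe_prod (N : Fin 8 → ℝ) (B : ℝ) (h0 : ∀ m, 0 ≤ N m) (h1 : ∀ m, N m ≤ B) :
    ∏ m, N m ≤ B ^ 7 * N (Fin.last 7) := by
  rw [Fin.prod_univ_castSucc]
  refine mul_le_mul_of_nonneg_right ?_ (h0 _)
  have step := Finset.prod_le_prod (s := (Finset.univ : Finset (Fin 7)))
    (f := fun m => N m.castSucc) (g := fun _ => B) (fun m _ => h0 m.castSucc)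
    (fun m _ => h1 m.castSucc)
  rw [Finset.prod_const, Finset.card_univ, Fintype.card_fin] at step
  exact step

private theorem pe_prod' (N : Fin 8 → ℝ) (B κ : ℝ) (m : Fin 8) (h0 : ∀ m, 0 ≤ N m)
    (h1 : ∀ m', N m' ≤ B * (if m' = m then κ else 1)) : ∏ m, N m ≤ B ^ 8 * κ := by
  have step := Finset.prod_le_prod (s := (Finset.univ : Finset (Fin 8)))
    (f := N) (g := fun m' => B * (if m' = m then κ else 1)) (fun m _ => h0 m)
    (fun m _ => h1 m)
  rw [Finset.prod_mul_distrib, Finset.prod_const, Finset.card_univ, Fintype.card_fin,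
    Finset.prod_ite_eq' Finset.univ m fun _ => κ, if_pos (Finset.mem_univ m)] at step
  exact step

/-- the weights -/
private noncomputable def peU (D : JD) (m : Fin 8) (a : D.β) : ℝ :=
  if m = Fin.last 7 then (if D.χ a ^ 2 = 1 then 1 else 0) else (D.b a : ℝ) ^ ((5 : ℝ) / 7)

private theorem peU_nonneg (D : JD) (m : Fin 8) (a : D.β) : 0 ≤ peU D m a := by
  unfold peU
  split_ifs
  · exact zero_le_one
  · exact le_rfl
  · positivity

private theorem peU_sy (D : JD) (m : Fin 8) (q : ℕ → Prop) [DecidablePred q] :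
    D.Sy fun a => if q (D.b a) then peU D m a else 0 := by
  by_cases hm : m = Fin.last 7
  · have h1 := D.sy_real fun b => if q b then 1 else 0
    have h2 : (fun a => if q (D.b a) then peU D m a else 0) =
        fun a => if D.χ a ^ 2 = 1 then (if q (D.b a) then (1 : ℝ) else 0) else 0 := by
      funext a
      unfold peU
      rw [if_pos hm]
      split_ifs <;> rfl
    rw [h2]
    exact h1
  · have h1 := D.sy_size fun b => if q b then (b : ℝ) ^ ((5 : ℝ) / 7) else 0
    have h2 : (fun a => if q (D.b a) then peU D m a else 0) =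
        fun a => if q (D.b a) then (D.b a : ℝ) ^ ((5 : ℝ) / 7) else 0 := by
      funext a
      unfold peU
      rw [if_neg hm]
    rw [h2]
    exact h1

private theorem peU_sy' (D : JD) (m : Fin 8) : D.Sy (peU D m) := by
  have h1 := peU_sy D m fun _ => True
  simp only [if_true] at h1
  exact h1

theorem pe (c : ℝ) (hc : 0 < c) : ∃ K : ℕ, ∃ c' : ℝ, 0 < K ∧ 0 < c' ∧ ∀ D : JD,
    c * (D.AA : ℝ) ≤ ∑ α : Tup (D.cb 7), (if D.χ (α.1 (Fin.last 7)) ^ 2 = 1 then
      ∏ m : Fin 7, (D.b (α.1 m.castSucc) : ℝ) ^ ((5 : ℝ) / 7) else 0) →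
    ∃ μ : Lam, μ ^ 2 = 1 ∧ c' * (D.AA : ℝ) ^ ((1 : ℝ) / 8) ≤
      ((Finset.univ.filter fun a => D.χ a = μ ∧ D.b a < K).card : ℝ) := by
  obtain ⟨C1, hC1, h1⟩ := nw_57
  obtain ⟨C2, hC2, h2⟩ := nw_57_ge
  obtain ⟨C3, hC3, h3⟩ := nw_one
  obtain ⟨C4, hC4, h4⟩ := nw_one_ge
  obtain ⟨C, hC⟩ : ∃ C : ℝ, C = C1 + C2 + C3 + C4 := ⟨_, rfl⟩
  have hC0 : 0 < C := by rw [hC]; positivity
  have ht : Filter.Tendsto (fun x : ℝ => x ^ (-(1 / 28 : ℝ))) Filter.atTop (nhds 0) :=
    tendsto_rpow_neg_atTop (by norm_num)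
  have hev := (ht.comp tendsto_natCast_atTop_atTop).eventually
    (gt_mem_nhds (show (0 : ℝ) < c / (16 * C ^ 8) by positivity))
  obtain ⟨K, hK1, hK2⟩ := (hev.and (Filter.eventually_ge_atTop 1)).exists
  obtain ⟨κ, hκ⟩ : ∃ κ : ℝ, κ = (K : ℝ) ^ (-(1 / 28 : ℝ)) := ⟨_, rfl⟩
  have hK1' : κ < c / (16 * C ^ 8) := by
    rw [hκ]
    exact hK1
  have hK3 : (1 : ℝ) ≤ K := by exact_mod_cast hK2
  have hκ0 : 0 ≤ κ := by rw [hκ]; positivity
  refine ⟨K, c / (16 * C ^ 7), hK2, by positivity, fun D hD => ?_⟩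
  obtain ⟨A, hA⟩ : ∃ A : ℝ, A = (D.AA : ℝ) ^ ((1 : ℝ) / 8) := ⟨_, rfl⟩
  have hA0 : 0 ≤ A := by rw [hA]; positivity
  have hA8 : A ^ 8 = D.AA := by
    rw [hA, ← Real.rpow_natCast, ← Real.rpow_mul (by positivity)]
    norm_num
  rw [← hA]
  rcases hA0.eq_or_lt with hAz | hApos
  · refine ⟨1, one_pow _, ?_⟩
    rw [← hAz, mul_zero]
    positivity
  -- bounds for the norms
  have nU : ∀ m, D.nrm (peU D m) ≤ C * A := by
    intro m
    by_cases hm : m = Fin.last 7
    · have e1 := h3 D
      rw [← hA] at e1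
      refine le_trans (D.nrm_mono _ (fun _ => 1) (peU_nonneg D m) fun a => ?_)
        (le_trans e1 (mul_le_mul_of_nonneg_right (by rw [hC]; linarith) hA0))
      unfold peU
      rw [if_pos hm]
      split_ifs <;> norm_num
    · have e1 := h1 D
      rw [← hA] at e1
      have e2 : peU D m = fun a => (D.b a : ℝ) ^ ((5 : ℝ) / 7) := by
        funext a
        unfold peU
        rw [if_neg hm]
      rw [e2]
      exact le_trans e1 (mul_le_mul_of_nonneg_right (by rw [hC]; linarith) hA0)
  have nUl : ∀ m, D.nrm (fun a => if K ≤ D.b a then peU D m a else 0) ≤ C * A * κ := by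
    intro m
    by_cases hm : m = Fin.last 7
    · have e1 := h4 D K hK2
      rw [← hA] at e1
      have e3 : (K : ℝ) ^ (-(3 / 4 : ℝ)) ≤ κ := by
        rw [hκ]
        exact Real.rpow_le_rpow_of_exponent_le hK3 (by norm_num)
      have e4 : C4 * A * (K : ℝ) ^ (-(3 / 4 : ℝ)) ≤ C * A * κ := by
        refine mul_le_mul ?_ e3 (by positivity) (by positivity)
        exact mul_le_mul_of_nonneg_right (by rw [hC]; linarith) hA0
      refine le_trans (D.nrm_mono _ (fun a => if K ≤ D.b a then 1 else 0) (fun a => ?_)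
        fun a => ?_) (le_trans e1 e4)
      · split_ifs
        · exact peU_nonneg D m a
        · exact le_rfl
      · unfold peU
        rw [if_pos hm]
        split_ifs <;> norm_num
    · have e1 := h2 D K hK2
      rw [← hA, ← hκ] at e1
      have e2 : (fun a => if K ≤ D.b a then peU D m a else 0) =
          fun a => if K ≤ D.b a then (D.b a : ℝ) ^ ((5 : ℝ) / 7) else 0 := by
        funext a
        unfold peU
        rw [if_neg hm]
      rw [e2]
      refine le_trans e1 (mul_le_mul_of_nonneg_right ?_ hκ0)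
      exact mul_le_mul_of_nonneg_right (by rw [hC]; linarith) hA0
  have nUs : ∀ m, D.nrm (fun a => if D.b a < K then peU D m a else 0) ≤ C * A := by
    intro m
    refine le_trans (D.nrm_mono _ _ (fun a => ?_) fun a => ?_) (nU m)
    · split_ifs
      · exact peU_nonneg D m a
      · exact le_rfl
    · split_ifs
      · exact le_rfl
      · exact peU_nonneg D m a
  -- the large terms
  have hlarge : ∀ m : Fin 8, ∑ α : Tup (D.cb 7), ∏ m', (Function.update (peU D) m
      fun a => if K ≤ D.b a then peU D m a else 0) m' (α.1 m') ≤ C ^ 8 * A ^ 8 * κ := by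
    intro m
    refine (pe_holder D _ (fun m' a => ?_) fun m' => ?_).trans ?_
    · by_cases h : m' = m
      · subst h
        rw [Function.update_self]
        split_ifs
        · exact peU_nonneg D m' a
        · exact le_rfl
      · rw [Function.update_of_ne h]
        exact peU_nonneg D m' a
    · by_cases h : m' = m
      · subst h
        rw [Function.update_self]
        exact peU_sy D m' fun b => K ≤ b
      · rw [Function.update_of_ne h]
        exact peU_sy' D m'
    · rw [← mul_pow]
      refine pe_prod' _ (C * A) κ m (fun m' => ?_) fun m' => ?_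
      · refine D.nrm_nonneg _ fun a => ?_
        by_cases h : m' = m
        · subst h
          rw [Function.update_self]
          split_ifs
          · exact peU_nonneg D m' a
          · exact le_rfl
        · rw [Function.update_of_ne h]
          exact peU_nonneg D m' a
      · by_cases h : m' = m
        · subst h
          rw [Function.update_self, if_pos rfl]
          exact nUl m'
        · rw [Function.update_of_ne h, if_neg h, mul_one]
          exact nU m'
  have hsmall : ∑ α : Tup (D.cb 7), ∏ m, (if D.b (α.1 m) < K then peU D m (α.1 m) else 0) ≤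
      (C * A) ^ 7 * D.nrm (fun a => if D.b a < K then peU D (Fin.last 7) a else 0) := by
    refine (pe_holder D (fun m a => if D.b a < K then peU D m a else 0) (fun m a => ?_)
      fun m => peU_sy D m fun b => b < K).trans ?_
    · split_ifs
      · exact peU_nonneg D m a
      · exact le_rfl
    · have hnn : ∀ m, 0 ≤ D.nrm (fun a => if D.b a < K then peU D m a else 0) := by
        intro m
        refine D.nrm_nonneg _ fun a => ?_
        split_ifs
        · exact peU_nonneg D m a
        · exact le_rfl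
      exact pe_prod (fun m => D.nrm (fun a => if D.b a < K then peU D m a else 0)) (C * A)
        hnn nUs
  have hsum : c * (D.AA : ℝ) ≤
      (C * A) ^ 7 * D.nrm (fun a => if D.b a < K then peU D (Fin.last 7) a else 0) +
        8 * (C ^ 8 * A ^ 8 * κ) := by
    refine hD.trans ?_
    have e1 : ∀ α : Tup (D.cb 7), (if D.χ (α.1 (Fin.last 7)) ^ 2 = 1 then
        ∏ m : Fin 7, (D.b (α.1 m.castSucc) : ℝ) ^ ((5 : ℝ) / 7) else 0) =
        ∏ m, peU D m (α.1 m) := by
      intro α
      have e0 := Fin.prod_univ_castSucc (n := 7) (fun m => peU D m (α.1 m))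
      rw [e0]
      have e2 : ∀ m : Fin 7, peU D m.castSucc (α.1 m.castSucc) =
          (D.b (α.1 m.castSucc) : ℝ) ^ ((5 : ℝ) / 7) := by
        intro m
        unfold peU
        rw [if_neg (Fin.castSucc_lt_last m).ne]
      rw [Finset.prod_congr rfl fun m _ => e2 m]
      unfold peU
      rw [if_pos rfl]
      split_ifs
      · rw [mul_one]
      · rw [mul_zero]
    rw [Finset.sum_congr rfl fun α _ => e1 α]
    have e3 := Finset.sum_le_sum fun (α : Tup (D.cb 7)) (_ : α ∈ Finset.univ) =>
      pe_split D K (peU D) (peU_nonneg D) α.1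
    rw [Finset.sum_add_distrib, Finset.sum_comm (s := (Finset.univ : Finset (Tup (D.cb 7))))
      (t := (Finset.univ : Finset (Fin 8)))] at e3
    have e4 := Finset.sum_le_sum fun (m : Fin 8) (_ : m ∈ Finset.univ) => hlarge m
    rw [Finset.sum_const, Finset.card_univ, Fintype.card_fin, nsmul_eq_mul] at e4
    refine e3.trans (add_le_add hsmall (e4.trans (le_of_eq ?_)))
    norm_num
  obtain ⟨ν, hν⟩ : ∃ ν, ν = D.nrm (fun a => if D.b a < K then peU D (Fin.last 7) a else 0) :=
    ⟨_, rfl⟩
  rw [← hν, ← hA8] at hsum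
  have hκ8 : 8 * (C ^ 8 * A ^ 8 * κ) ≤ c / 2 * A ^ 8 := by
    have e1 : C ^ 8 * κ ≤ c / 16 := by
      have e2 := mul_le_mul_of_nonneg_left hK1'.le (by positivity : (0 : ℝ) ≤ C ^ 8)
      refine e2.trans (le_of_eq ?_)
      field_simp
    have e3 := mul_le_mul_of_nonneg_right e1 (by positivity : (0 : ℝ) ≤ A ^ 8)
    linarith
  have hν1 : c / 2 * A ≤ C ^ 7 * ν := by
    have e1 : c / 2 * A * A ^ 7 ≤ C ^ 7 * ν * A ^ 7 := by
      have e2 : c / 2 * A * A ^ 7 = c / 2 * A ^ 8 := by ring
      have e3 : C ^ 7 * ν * A ^ 7 = (C * A) ^ 7 * ν := by ring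
      rw [e2, e3]
      linarith
    exact le_of_mul_le_mul_right e1 (by positivity)
  -- the four real characters
  by_contra hcon
  push Not at hcon
  classical
  obtain ⟨M, hM⟩ : ∃ M : Finset Lam, M = {(1, 1), (1, -1), (-1, 1), (-1, -1)} := ⟨_, rfl⟩
  have hM1 : ∀ μ ∈ M, μ ^ 2 = 1 := by
    intro μ hμ
    rw [hM] at hμ
    simp only [Finset.mem_insert, Finset.mem_singleton] at hμ
    rcases hμ with rfl | rfl | rfl | rfl <;> ext <;> simp
  have hM2 : M.card ≤ 4 := by
    rw [hM]
    exact Finset.card_le_four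
  have hν2 : ν ≤ ∑ μ ∈ M, ((Finset.univ.filter fun a => D.χ a = μ ∧ D.b a < K).card : ℝ) := by
    have e1 : ν ≤ D.nrm (fun a => ∑ μ ∈ M, if D.χ a = μ ∧ D.b a < K then 1 else 0) := by
      rw [hν]
      refine D.nrm_mono _ _ (fun a => ?_) fun a => ?_
      · split_ifs
        · exact peU_nonneg D _ a
        · exact le_rfl
      · have hnn : 0 ≤ ∑ μ ∈ M, (if D.χ a = μ ∧ D.b a < K then (1 : ℝ) else 0) :=
          Finset.sum_nonneg fun μ _ => by split_ifs <;> norm_num
        unfold peU
        rw [if_pos rfl]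
        split_ifs with g1 g2
        · have hmem : D.χ a ∈ M := by
            rw [hM]
            simp only [Finset.mem_insert, Finset.mem_singleton]
            exact pe_four _ g2
          refine le_trans (le_of_eq ?_) (Finset.single_le_sum
            (f := fun μ => if D.χ a = μ ∧ D.b a < K then (1 : ℝ) else 0)
            (fun μ _ => by split_ifs <;> norm_num) hmem)
          rw [if_pos ⟨rfl, g1⟩]
        · exact hnn
        · exact hnn
    refine e1.trans ((D.nrm_sum M _ (fun μ _ a => by split_ifs <;> norm_num)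
      (fun μ hμ => pe_sy D μ (hM1 μ hμ) fun b => b < K)).trans (le_of_eq ?_))
    exact Finset.sum_congr rfl fun μ hμ => D.nrm_real μ (hM1 μ hμ) fun a => D.b a < K
  have hν3 : ν ≤ 4 * (c / (16 * C ^ 7) * A) := by
    refine hν2.trans ((Finset.sum_le_card_nsmul M _ (c / (16 * C ^ 7) * A) fun μ hμ =>
      (hcon μ (hM1 μ hμ)).le).trans ?_)
    rw [nsmul_eq_mul]
    refine mul_le_mul_of_nonneg_right ?_ (by positivity)
    exact_mod_cast hM2
  have hν4 : C ^ 7 * ν ≤ c / 4 * A := by
    refine (mul_le_mul_of_nonneg_left hν3 (by positivity)).trans (le_of_eq ?_)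
    field_simp
    ring
  have hpos : 0 < c * A := by positivity
  linarith

end Pool.Agent.INV5.JD
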