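import Pool.Agent.INV5.Defs

/-!
# INV5, module PA: a generic pencil element has few blocks of each size (abstract linear algebra)

`W` finite-dimensional, `l, y` commuting, `Good l y ⊥`: `l ^ (s+1) v = 0` implies
`l ^ s y v ∈ l ^ (s+1) W`. The number of Jordan blocks of `l` of exact size `s + 1` is
`E s = 2 dim ker l ^ (s+1) - dim ker l ^ s - dim ker l ^ (s+2)`.
* Coinvariants. Let `U = W / l W` and `F_s` the image of `ker l ^ s` in `U`. Then
  `dim F_s = dim ker l ^ s - dim (ker l ^ s ∩ l W) = dim ker l ^ s - (dim ker l ^ (s+1) - dim ker l)`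
  (`l` maps `ker l ^ (s+1)` onto `ker l ^ s ∩ l W` with kernel `ker l`), so `dim F_(s+1) - dim F_s = E s`.
  By `Good`, for `v ∈ ker l ^ (s+1)` there is `w` with `l ^ s (y v - l w) = 0`, so `y` maps `F_(s+1)` into
  `F_s`. Hence the kernel of `y` on `U` has dimension `≥ E s`, and the kernel of an endomorphism of `U`
  has the dimension of its cokernel `W / (l W + y W)`.
* Invariants. Let `G_s = ker l ∩ l ^ s W`; `dim G_s = dim ker l ^ (s+1) - dim ker l ^ s`. By `Good`,
  `y` maps `G_s` into `G_(s+1)`: if `v' = l ^ s v` and `l v' = 0` then `y v' = l ^ s y v ∈ l ^ (s+1) W`. So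
  `dim (ker l ∩ ker y) ≥ dim G_s - dim G_(s+1) = E s`.
* `good_count`: if `W = W1 ⊕ W2`, both stable under `l`, `l ^ S W1 = 0`, then
  `E s (W) = E s (W1) + E s (W2)` and `E s (W2) ≥ 0`, `∑_{s < S} E s (W1) = dim ker (l | W1)` and
  `dim W1 ≤ S dim ker (l | W1)`. So `dim W1 ≤ S * ∑_{s < S} E s (W) ≤ S ^ 2 * coinv`.
* `good_small`: the same for the number of blocks of size `≤ K` of `W`:
  `∑_{s < K} E s = dim ker l - (dim ker l ^ (K+1) - dim ker l ^ K)`.
* `swap`: let `d⁺ = dim ker (1 - T) = dim W / (1 - T) W` and `d⁻ = dim ker (1 + T)`, `d⁺ + d⁻ = dim W`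
  (`T` is an involution). `f i` maps the even part to the odd part and conversely, so
  `dim W / ∑ f i W ≥ dim W⁻ / ∑ f i W⁺ ≥ d⁻ - k d⁺`.
-/

namespace Pool.Agent.INV5

open Module

variable {W : Type*} [AddCommGroup W] [Module ℂ W] [FiniteDimensional ℂ W]

/-- rank and nullity on a submodule -/
private theorem pa_rn {W' : Type*} [AddCommGroup W'] [Module ℂ W'] (f : W →ₗ[ℂ] W')
    (p : Submodule ℂ W) : finrank ℂ ↥(p.map f) + finrank ℂ ↥(p ⊓ LinearMap.ker f) = finrank ℂ ↥p := by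
  have h := LinearMap.finrank_range_add_finrank_ker (f.domRestrict p)
  rw [LinearMap.range_domRestrict, LinearMap.ker_domRestrict] at h
  rw [← h]
  congr 1
  have e := Submodule.map_comap_subtype p (LinearMap.ker f)
  rw [← e]
  exact (LinearEquiv.finrank_eq (Submodule.equivMapOfInjective p.subtype
    (Submodule.injective_subtype p) _)).symm

private theorem pa_ker_le (l : Module.End ℂ W) (s : ℕ) :
    LinearMap.ker (l ^ s) ≤ LinearMap.ker (l ^ (s + 1)) := by
  intro v hv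
  rw [LinearMap.mem_ker] at hv ⊢
  rw [pow_succ', Module.End.mul_apply, hv, map_zero]

private theorem pa_ker_one_le (l : Module.End ℂ W) (s : ℕ) :
    LinearMap.ker l ≤ LinearMap.ker (l ^ (s + 1)) := by
  intro v hv
  rw [LinearMap.mem_ker] at hv ⊢
  rw [pow_succ, Module.End.mul_apply, hv, map_zero]

private theorem pa_G (l : Module.End ℂ W) (s : ℕ) :
    finrank ℂ ↥(LinearMap.ker l ⊓ LinearMap.range (l ^ s)) + finrank ℂ ↥(LinearMap.ker (l ^ s)) =
      finrank ℂ ↥(LinearMap.ker (l ^ (s + 1))) := by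
  have h := pa_rn (l ^ s) (LinearMap.ker (l ^ (s + 1)))
  rw [inf_eq_right.2 (pa_ker_le l s)] at h
  have e : (LinearMap.ker (l ^ (s + 1))).map (l ^ s) = LinearMap.ker l ⊓ LinearMap.range (l ^ s) := by
    ext v
    simp only [Submodule.mem_inf, LinearMap.mem_ker, LinearMap.mem_range, Submodule.mem_map]
    constructor
    · rintro ⟨w, h1, rfl⟩
      refine ⟨?_, w, rfl⟩
      rw [pow_succ', Module.End.mul_apply] at h1
      exact h1
    · rintro ⟨h1, w, rfl⟩
      exact ⟨w, by rw [pow_succ', Module.End.mul_apply]; exact h1, rfl⟩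
  rw [e] at h
  exact h

private theorem pa_H (l : Module.End ℂ W) (s : ℕ) :
    finrank ℂ ↥(LinearMap.ker (l ^ s) ⊓ LinearMap.range l) + finrank ℂ ↥(LinearMap.ker l) =
      finrank ℂ ↥(LinearMap.ker (l ^ (s + 1))) := by
  have h := pa_rn l (LinearMap.ker (l ^ (s + 1)))
  rw [inf_eq_right.2 (pa_ker_one_le l s)] at h
  have e : (LinearMap.ker (l ^ (s + 1))).map l = LinearMap.ker (l ^ s) ⊓ LinearMap.range l := by
    ext v
    simp only [Submodule.mem_inf, LinearMap.mem_ker, LinearMap.mem_range, Submodule.mem_map]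
    constructor
    · rintro ⟨w, h1, rfl⟩
      refine ⟨?_, w, rfl⟩
      rw [pow_succ, Module.End.mul_apply] at h1
      exact h1
    · rintro ⟨h1, w, rfl⟩
      exact ⟨w, by rw [pow_succ, Module.End.mul_apply]; exact h1, rfl⟩
  rw [e] at h
  exact h

private theorem pa_comm (l y : Module.End ℂ W) (hc : Commute l y) (s : ℕ) (v : W) :
    (l ^ s) (y v) = y ((l ^ s) v) := LinearMap.congr_fun (hc.pow_left s).eq v

theorem good_coinv (l y : Module.End ℂ W) (hc : Commute l y) (hg : Good l y ⊥) (s : ℕ) :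
    2 * finrank ℂ ↥(LinearMap.ker (l ^ (s + 1))) ≤ finrank ℂ ↥(LinearMap.ker (l ^ s)) +
      finrank ℂ ↥(LinearMap.ker (l ^ (s + 2))) +
      finrank ℂ (W ⧸ (LinearMap.range l ⊔ LinearMap.range y)) := by
  have hA : LinearMap.range l ≤ (LinearMap.range l).comap y := by
    rintro _ ⟨v, rfl⟩
    exact ⟨y v, LinearMap.congr_fun hc.eq v⟩
  let yb : Module.End ℂ (W ⧸ LinearMap.range l) := (LinearMap.range l).mapQ (LinearMap.range l) y hA
  have h0 : finrank ℂ (W ⧸ (LinearMap.range l ⊔ LinearMap.range y)) = finrank ℂ ↥(LinearMap.ker yb) := by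
    have h1 : LinearMap.range yb = (LinearMap.range y).map (LinearMap.range l).mkQ := by
      ext v
      simp only [LinearMap.mem_range, Submodule.mem_map]
      constructor
      · rintro ⟨w, rfl⟩
        obtain ⟨w, rfl⟩ := (LinearMap.range l).mkQ_surjective w
        exact ⟨y w, ⟨w, rfl⟩, rfl⟩
      · rintro ⟨_, ⟨w, rfl⟩, rfl⟩
        exact ⟨(LinearMap.range l).mkQ w, rfl⟩
    have h2 := LinearEquiv.finrank_eq
      (Submodule.quotientQuotientEquivQuotientSup (LinearMap.range l) (LinearMap.range y))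
    rw [← h1] at h2
    rw [← h2]
    have h3 := LinearMap.finrank_range_add_finrank_ker yb
    have h4 := Submodule.finrank_quotient_add_finrank (LinearMap.range yb)
    omega
  have F : ∀ s, finrank ℂ ↥((LinearMap.ker (l ^ s)).map (LinearMap.range l).mkQ) +
      finrank ℂ ↥(LinearMap.ker (l ^ (s + 1))) =
      finrank ℂ ↥(LinearMap.ker (l ^ s)) + finrank ℂ ↥(LinearMap.ker l) := by
    intro s
    have h1 := pa_rn (LinearMap.range l).mkQ (LinearMap.ker (l ^ s))
    rw [Submodule.ker_mkQ] at h1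
    have h2 := pa_H l s
    omega
  have h5 := pa_rn yb ((LinearMap.ker (l ^ (s + 1))).map (LinearMap.range l).mkQ)
  have h6 : ((LinearMap.ker (l ^ (s + 1))).map (LinearMap.range l).mkQ).map yb ≤
      (LinearMap.ker (l ^ s)).map (LinearMap.range l).mkQ := by
    rintro _ ⟨_, ⟨v, hv, rfl⟩, rfl⟩
    obtain ⟨w, hw⟩ := hg s v (by rw [Submodule.mem_bot]; exact hv)
    rw [Submodule.mem_bot, sub_eq_zero, pow_succ, Module.End.mul_apply] at hw
    refine ⟨y v - l w, ?_, ?_⟩
    · change (l ^ s) (y v - l w) = 0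
      rw [map_sub, hw, sub_self]
    · have hz : (LinearMap.range l).mkQ (l w) = 0 := (Submodule.Quotient.mk_eq_zero _).2 ⟨w, rfl⟩
      rw [map_sub, hz, sub_zero]
      rfl
  have h7 := Submodule.finrank_mono h6
  have h8 := Submodule.finrank_mono (inf_le_right :
    ((LinearMap.ker (l ^ (s + 1))).map (LinearMap.range l).mkQ) ⊓ LinearMap.ker yb ≤ LinearMap.ker yb)
  have F1 := F s
  have F2 := F (s + 1)
  rw [show s + 1 + 1 = s + 2 from rfl] at F2
  rw [h0]
  omega

theorem good_inv (l y : Module.End ℂ W) (hc : Commute l y) (hg : Good l y ⊥) (s : ℕ) :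
    2 * finrank ℂ ↥(LinearMap.ker (l ^ (s + 1))) ≤ finrank ℂ ↥(LinearMap.ker (l ^ s)) +
      finrank ℂ ↥(LinearMap.ker (l ^ (s + 2))) +
      finrank ℂ ↥(LinearMap.ker l ⊓ LinearMap.ker y) := by
  have h1 := pa_G l s
  have h2 := pa_G l (s + 1)
  have h3 := pa_rn y (LinearMap.ker l ⊓ LinearMap.range (l ^ s))
  have h4 : (LinearMap.ker l ⊓ LinearMap.range (l ^ s)).map y ≤
      LinearMap.ker l ⊓ LinearMap.range (l ^ (s + 1)) := by
    rintro _ ⟨_, ⟨h5, v, rfl⟩, rfl⟩
    have h5' : l ((l ^ s) v) = 0 := h5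
    refine ⟨?_, ?_⟩
    · change l (y ((l ^ s) v)) = 0
      have := pa_comm l y hc 1 ((l ^ s) v)
      rw [pow_one, h5', map_zero] at this
      exact this
    · obtain ⟨w, hw⟩ := hg s v (by rw [Submodule.mem_bot, pow_succ', Module.End.mul_apply]; exact h5')
      rw [Submodule.mem_bot, sub_eq_zero] at hw
      exact ⟨w, by rw [← hw]; exact pa_comm l y hc s v⟩
  have h6 := Submodule.finrank_mono h4
  have h7 : LinearMap.ker l ⊓ LinearMap.range (l ^ s) ⊓ LinearMap.ker y ≤
      LinearMap.ker l ⊓ LinearMap.ker y := inf_le_inf_right _ inf_le_left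
  have h8 := Submodule.finrank_mono h7
  rw [show s + 1 + 1 = s + 2 from rfl] at h2
  omega

/-- descent of the differences -/
private theorem pa_diff (a : ℕ → ℕ) (c : ℕ) (h : ∀ s, 2 * a (s + 1) ≤ a s + a (s + 2) + c) (K : ℕ) :
    ∀ s, a (s + 1) + a (s + K) ≤ a s + a (s + K + 1) + K * c := by
  induction K with
  | zero => intro s; simp [add_comm]
  | succ K ih =>
    intro s
    have h1 := ih s
    have h2 := h (s + K)
    have e1 : s + (K + 1) = s + K + 1 := by ring
    have e2 : s + K + 1 + 1 = s + K + 2 := by ring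
    rw [e1, e2, Nat.succ_mul]
    omega

private theorem pa_conc (l : Module.End ℂ W) (p : Submodule ℂ W) (hp : p ≤ p.comap l) (s : ℕ) :
    finrank ℂ ↥(p ⊓ LinearMap.ker (l ^ s)) + finrank ℂ ↥(p ⊓ LinearMap.ker (l ^ (s + 2))) ≤
      2 * finrank ℂ ↥(p ⊓ LinearMap.ker (l ^ (s + 1))) := by
  have R : ∀ s, finrank ℂ ↥((p ⊓ LinearMap.ker (l ^ (s + 1))).map (l ^ s)) +
      finrank ℂ ↥(p ⊓ LinearMap.ker (l ^ s)) = finrank ℂ ↥(p ⊓ LinearMap.ker (l ^ (s + 1))) := by
    intro s
    have h := pa_rn (l ^ s) (p ⊓ LinearMap.ker (l ^ (s + 1)))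
    rw [inf_assoc, inf_eq_right.2 (pa_ker_le l s)] at h
    exact h
  have h1 := R s
  have h2 := R (s + 1)
  have h3 : (p ⊓ LinearMap.ker (l ^ (s + 1 + 1))).map (l ^ (s + 1)) ≤
      (p ⊓ LinearMap.ker (l ^ (s + 1))).map (l ^ s) := by
    rintro _ ⟨v, ⟨h4, h5⟩, rfl⟩
    refine ⟨l v, ⟨hp h4, ?_⟩, ?_⟩
    · change (l ^ (s + 1)) (l v) = 0
      have h5' : (l ^ (s + 1 + 1)) v = 0 := h5
      rw [pow_succ, Module.End.mul_apply] at h5'
      exact h5'
    · rw [pow_succ, Module.End.mul_apply]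
  have h6 := Submodule.finrank_mono h3
  rw [show s + 1 + 1 = s + 2 from rfl] at h2 h6
  omega

theorem good_count (l y : Module.End ℂ W) (hc : Commute l y) (hg : Good l y ⊥)
    (W1 W2 : Submodule ℂ W) (hW : IsCompl W1 W2) (h1 : W1 ≤ W1.comap l) (h2 : W2 ≤ W2.comap l)
    (S : ℕ) (hS : ∀ w ∈ W1, (l ^ S) w = 0) :
    finrank ℂ ↥W1 ≤ S ^ 2 * finrank ℂ (W ⧸ (LinearMap.range l ⊔ LinearMap.range y)) := by
  have hst : ∀ (p : Submodule ℂ W), p ≤ p.comap l → ∀ s, p.map (l ^ s) ≤ p := by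
    intro p hp s
    induction s with
    | zero => rintro _ ⟨v, hv, rfl⟩; exact hv
    | succ s ih =>
      rintro _ ⟨v, hv, rfl⟩
      rw [pow_succ', Module.End.mul_apply]
      exact hp (ih ⟨v, hv, rfl⟩)
  have hk : ∀ s, finrank ℂ ↥(LinearMap.ker (l ^ s)) =
      finrank ℂ ↥(W1 ⊓ LinearMap.ker (l ^ s)) + finrank ℂ ↥(W2 ⊓ LinearMap.ker (l ^ s)) := by
    intro s
    have e1 := pa_rn (l ^ s) W1
    have e2 := pa_rn (l ^ s) W2
    have e3 := pa_rn (l ^ s) (⊤ : Submodule ℂ W)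
    rw [top_inf_eq] at e3
    have e4 := Submodule.finrank_sup_add_finrank_inf_eq W1 W2
    rw [hW.sup_eq_top, hW.inf_eq_bot, finrank_bot] at e4
    have e5 := Submodule.finrank_sup_add_finrank_inf_eq (W1.map (l ^ s)) (W2.map (l ^ s))
    rw [← Submodule.map_sup, hW.sup_eq_top] at e5
    have e6 : W1.map (l ^ s) ⊓ W2.map (l ^ s) = ⊥ := by
      rw [eq_bot_iff, ← hW.inf_eq_bot]
      exact inf_le_inf (hst W1 h1 s) (hst W2 h2 s)
    rw [e6, finrank_bot] at e5
    omega
  let c := finrank ℂ (W ⧸ (LinearMap.range l ⊔ LinearMap.range y))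
  let a : ℕ → ℕ := fun s => finrank ℂ ↥(W1 ⊓ LinearMap.ker (l ^ s))
  have ha : ∀ s, 2 * a (s + 1) ≤ a s + a (s + 2) + c := by
    intro s
    have g := good_coinv l y hc hg s
    have g1 := hk s
    have g2 := hk (s + 1)
    have g3 := hk (s + 2)
    have g4 := pa_conc l W2 h2 s
    change 2 * finrank ℂ ↥(W1 ⊓ LinearMap.ker (l ^ (s + 1))) ≤ finrank ℂ ↥(W1 ⊓ LinearMap.ker (l ^ s)) +
      finrank ℂ ↥(W1 ⊓ LinearMap.ker (l ^ (s + 2))) +
      finrank ℂ (W ⧸ (LinearMap.range l ⊔ LinearMap.range y))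
    omega
  have haS : ∀ s, S ≤ s → a s = finrank ℂ ↥W1 := by
    intro s hs
    have : W1 ⊓ LinearMap.ker (l ^ s) = W1 := by
      rw [inf_eq_left]
      intro v hv
      obtain ⟨t, rfl⟩ := Nat.exists_eq_add_of_le hs
      change (l ^ (S + t)) v = 0
      rw [add_comm, pow_add, Module.End.mul_apply, hS v hv, map_zero]
    change finrank ℂ ↥(W1 ⊓ LinearMap.ker (l ^ s)) = _
    rw [this]
  have ha0 : a 0 = 0 := by
    change finrank ℂ ↥(W1 ⊓ LinearMap.ker (l ^ 0)) = 0
    have : W1 ⊓ LinearMap.ker (l ^ 0) = ⊥ := by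
      rw [eq_bot_iff]
      rintro v ⟨_, hv⟩
      exact hv
    rw [this, finrank_bot]
  have hd : ∀ s, s ≤ S → a (s + 1) ≤ a s + S * c := by
    intro s hs
    have g := pa_diff a c ha (S - s) s
    have e1 : s + (S - s) = S := by omega
    rw [e1, haS S le_rfl, haS (S + 1) (by omega)] at g
    have g2 : (S - s) * c ≤ S * c := Nat.mul_le_mul_right c (by omega)
    omega
  have hs : ∀ s, s ≤ S → a s ≤ s * (S * c) := by
    intro s
    induction s with
    | zero => intro _; rw [ha0]; exact Nat.zero_le _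
    | succ s ih =>
      intro h
      have g1 := ih (by omega)
      have g2 := hd s (by omega)
      rw [Nat.succ_mul]
      omega
  have g := hs S le_rfl
  rw [haS S le_rfl] at g
  calc finrank ℂ ↥W1 ≤ S * (S * c) := g
    _ = S ^ 2 * c := by ring

theorem good_small_coinv (l y : Module.End ℂ W) (hc : Commute l y) (hg : Good l y ⊥) (K : ℕ) :
    finrank ℂ ↥(LinearMap.ker l) + finrank ℂ ↥(LinearMap.ker (l ^ K)) ≤
      finrank ℂ ↥(LinearMap.ker (l ^ (K + 1))) +
      K * finrank ℂ (W ⧸ (LinearMap.range l ⊔ LinearMap.range y)) := by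
  have h : finrank ℂ ↥(LinearMap.ker (l ^ (0 + 1))) + finrank ℂ ↥(LinearMap.ker (l ^ (0 + K))) ≤
      finrank ℂ ↥(LinearMap.ker (l ^ 0)) + finrank ℂ ↥(LinearMap.ker (l ^ (0 + K + 1))) +
      K * finrank ℂ (W ⧸ (LinearMap.range l ⊔ LinearMap.range y)) :=
    pa_diff (fun s => finrank ℂ ↥(LinearMap.ker (l ^ s))) _ (good_coinv l y hc hg) K 0
  have h0 : LinearMap.ker (l ^ 0) = ⊥ := by
    rw [pow_zero]; exact LinearMap.ker_id
  rw [h0, finrank_bot, zero_add K, zero_add, zero_add, pow_one] at h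
  exact h

theorem good_small_inv (l y : Module.End ℂ W) (hc : Commute l y) (hg : Good l y ⊥) (K : ℕ) :
    finrank ℂ ↥(LinearMap.ker l) + finrank ℂ ↥(LinearMap.ker (l ^ K)) ≤
      finrank ℂ ↥(LinearMap.ker (l ^ (K + 1))) +
      K * finrank ℂ ↥(LinearMap.ker l ⊓ LinearMap.ker y) := by
  have h : finrank ℂ ↥(LinearMap.ker (l ^ (0 + 1))) + finrank ℂ ↥(LinearMap.ker (l ^ (0 + K))) ≤
      finrank ℂ ↥(LinearMap.ker (l ^ 0)) + finrank ℂ ↥(LinearMap.ker (l ^ (0 + K + 1))) +
      K * finrank ℂ ↥(LinearMap.ker l ⊓ LinearMap.ker y) :=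
    pa_diff (fun s => finrank ℂ ↥(LinearMap.ker (l ^ s))) _ (good_inv l y hc hg) K 0
  have h0 : LinearMap.ker (l ^ 0) = ⊥ := by
    rw [pow_zero]; exact LinearMap.ker_id
  rw [h0, finrank_bot, zero_add K, zero_add, zero_add, pow_one] at h
  exact h

/-- endomorphisms which anticommute with an involution: few even coinvariants imply few
coinvariants -/
theorem swap {k : ℕ} (T : Module.End ℂ W) (hT : T * T = 1) (f : Fin k → Module.End ℂ W)
    (hf : ∀ i, T * f i = -(f i * T)) :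
    finrank ℂ W ≤ (k + 1) * finrank ℂ (W ⧸ LinearMap.range (1 - T)) +
      finrank ℂ (W ⧸ ⨆ i, LinearMap.range (f i)) := by
  have hTT : ∀ v, T (T v) = v := fun v => LinearMap.congr_fun hT v
  have hfT : ∀ i v, T (f i v) = -(f i (T v)) := fun i v => LinearMap.congr_fun (hf i) v
  let Wp := LinearMap.ker (1 - T)
  let Wm := LinearMap.range (1 - T)
  have e1 := LinearMap.finrank_range_add_finrank_ker (1 - T)
  have e2 := Submodule.finrank_quotient_add_finrank (LinearMap.range (1 - T))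
  have e3 := pa_rn (⨆ i, LinearMap.range (f i)).mkQ (LinearMap.range (1 - T))
  rw [Submodule.ker_mkQ] at e3
  have e4 := Submodule.finrank_le ((LinearMap.range (1 - T)).map (⨆ i, LinearMap.range (f i)).mkQ)
  let Φ : (Fin k → W) →ₗ[ℂ] W := ∑ i, (f i).comp (LinearMap.proj i)
  let Φ' : (Fin k → Wp) →ₗ[ℂ] W := ∑ i, ((f i).comp Wp.subtype).comp (LinearMap.proj i)
  have hΦ : (⨆ i, LinearMap.range (f i)) ≤ LinearMap.range Φ := by
    refine iSup_le fun i => ?_
    rintro _ ⟨v, rfl⟩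
    refine ⟨Pi.single i v, ?_⟩
    simp only [Φ, LinearMap.sum_apply, LinearMap.comp_apply, LinearMap.proj_apply]
    rw [Finset.sum_eq_single i]
    · rw [Pi.single_eq_same]
    · intro j _ hj
      rw [Pi.single_eq_of_ne hj, map_zero]
    · simp
  have hle : LinearMap.range (1 - T) ⊓ (⨆ i, LinearMap.range (f i)) ≤ LinearMap.range Φ' := by
    rintro v ⟨⟨u, hu⟩, hv⟩
    obtain ⟨w, hw⟩ := hΦ hv
    have hTv : T v = -v := by
      rw [← hu, LinearMap.sub_apply, Module.End.one_apply, map_sub, hTT]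
      abel
    have hmem : ∀ i, (1 / 2 : ℂ) • (w i + T (w i)) ∈ Wp := by
      intro i
      change (1 - T) ((1 / 2 : ℂ) • (w i + T (w i))) = 0
      rw [map_smul, LinearMap.sub_apply, Module.End.one_apply, map_add, hTT]
      rw [add_comm (T (w i)), sub_self, smul_zero]
    refine ⟨fun i => ⟨(1 / 2 : ℂ) • (w i + T (w i)), hmem i⟩, ?_⟩
    simp only [Φ', LinearMap.sum_apply, LinearMap.comp_apply, LinearMap.proj_apply,
      Submodule.subtype_apply, map_smul, map_add]
    simp only [Φ, LinearMap.sum_apply, LinearMap.comp_apply, LinearMap.proj_apply] at hw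
    rw [← Finset.smul_sum, Finset.sum_add_distrib, hw]
    have h5 : ∑ i, f i (T (w i)) = v := by
      have h6 : ∑ i, f i (T (w i)) = -T (∑ i, f i (w i)) := by
        rw [map_sum, ← Finset.sum_neg_distrib]
        exact Finset.sum_congr rfl fun i _ => by rw [hfT, neg_neg]
      rw [h6, hw, hTv, neg_neg]
    rw [h5, ← two_smul ℂ v, smul_smul]
    norm_num
  have e5 := Submodule.finrank_mono hle
  have e6 := LinearMap.finrank_range_le Φ'
  have e7 : finrank ℂ (Fin k → Wp) = k * finrank ℂ ↥(LinearMap.ker (1 - T)) := by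
    rw [Module.finrank_pi_fintype]
    simp [Wp]
  have e8 : finrank ℂ (W ⧸ LinearMap.range (1 - T)) = finrank ℂ ↥(LinearMap.ker (1 - T)) := by omega
  rw [e8, Nat.succ_mul]
  omega

end Pool.Agent.INV5
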