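import Pool.Agent.INV5.PG0
import Pool.Agent.INV5.PA

/-!
# INV5, module PG: small blocks with a real character; the second socle

`pg1`: by `lm_ker`, `dim ker lm + dim ker lm ^ K - dim ker lm ^ (K+1)` is the number of the `a` with `χ a = μ`,
`b a ≤ K`. Use `good_small_inv`, `good_small_coinv` for `lm, ym` (`Vm_good`), `Vm_soc`, `Vm_top`.

`pg2`. Let `ε = ± 1`. `E` is a complement of `S μ (-ε)` in the space of the `v ∈ V_μ` with
`t v = -ε v`, `l v ∈ soc`, `y v ∈ soc` (then automatically `l v, y v ∈ S μ ε` as `t` anticommutes with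
`l, y`). Put `V' = V_μ / (soc ∩ V_μ)`, with the induced `l, y, t`; `Good l y ⊥` on `V'` by `Gen.q` (take the
`μ`-part of `w`).
* `dim (ker l ∩ ker y) on V'` is `≤ dim E + 2 sg μ (-ε)`: the part with `t = -ε` is `E`, and for the
  part with `t = ε` the map `v ↦ (l v, y v) ∈ (S μ (-ε))²` is injective.
* `dim V' / l V' ≤ #(blocks of V' of size ≤ t0) + dim l ^ t0 V' / l ^ (t0+1) V'`, by `good_small_inv` the
  first number is `≤ t0 (dim E + 2 sg μ (-ε))`, and the second is at most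
  `dim l ^ t0 V_μ / l ^ (t0+1) V_μ = #{a | χ a = μ, t0 < b a}`.
* `dim V' / l V' ≥ dim V' / (l V' + y V') = dim V_μ / (l V_μ + y V_μ + soc_μ)
  ≥ mu μ 1 + mu μ (-1) - mu μ ε - sg μ (-ε)`: the image of `soc_μ` in the quotient `Q` of `V_μ` by
  `l V_μ + y V_μ` is contained in the sum of the part of `Q` where `t = ε` (dimension `mu μ ε`) and of the
  image of `S μ (-ε)`.
-/

namespace Pool.Agent.INV5.JD

open Matrix Module

section abs

variable {W : Type*} [AddCommGroup W] [Module ℂ W] [FiniteDimensional ℂ W]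

private theorem fr_map {W' : Type*} [AddCommGroup W'] [Module ℂ W'] [FiniteDimensional ℂ W']
    (f : W →ₗ[ℂ] W') (S : Submodule ℂ W) :
    finrank ℂ ↥(S.map f) + finrank ℂ ↥(S ⊓ LinearMap.ker f) = finrank ℂ ↥S := by
  have h1 := LinearMap.finrank_range_add_finrank_ker (f.domRestrict S)
  have h2 : LinearMap.range (f.domRestrict S) = S.map f := by
    ext x
    simp [Submodule.mem_map]
  have h3 : (LinearMap.ker (f.domRestrict S)).map S.subtype = S ⊓ LinearMap.ker f := by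
    ext x
    simp only [Submodule.mem_map, LinearMap.mem_ker, LinearMap.domRestrict_apply,
      Submodule.subtype_apply, Subtype.exists, exists_and_right, exists_eq_right, Submodule.mem_inf]
    constructor
    · rintro ⟨h, h'⟩
      exact ⟨h, h'⟩
    · rintro ⟨h, h'⟩
      exact ⟨h, h'⟩
  rw [h2] at h1
  rw [← h3, Submodule.finrank_map_subtype_eq]
  exact h1

/-- eigenspace -/
private def Ae (t : Module.End ℂ W) (ε : ℂ) : Submodule ℂ W := LinearMap.ker (t - ε • 1)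

omit [FiniteDimensional ℂ W] in
private theorem mem_Ae (t : Module.End ℂ W) (ε : ℂ) (v : W) : v ∈ Ae t ε ↔ t v = ε • v := by
  simp [Ae, sub_eq_zero]

omit [FiniteDimensional ℂ W] in
private theorem ei_sup (t : Module.End ℂ W) (ht : t * t = 1) (N : Submodule ℂ W)
    (hN : ∀ v ∈ N, t v ∈ N) (ε : ℂ) (hε : ε = 1 ∨ ε = -1) :
    (N ⊓ Ae t ε) ⊔ (N ⊓ Ae t (-ε)) = N := by
  have hεε : ε * ε = 1 := by rcases hε with rfl | rfl <;> norm_num
  apply le_antisymm
  · exact sup_le inf_le_left inf_le_left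
  · intro v hv
    have htt : t (t v) = v := by
      have := congrArg (fun f => f v) ht
      simpa using this
    have e1 : v = (1 / 2 : ℂ) • (v + ε • t v) + (1 / 2 : ℂ) • (v - ε • t v) := by
      rw [← smul_add]
      have : v + ε • t v + (v - ε • t v) = (2 : ℂ) • v := by
        rw [two_smul]; abel
      rw [this, smul_smul]
      norm_num
    rw [e1]
    apply Submodule.add_mem_sup
    · refine ⟨N.smul_mem _ (N.add_mem hv (N.smul_mem _ (hN v hv))), ?_⟩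
      rw [SetLike.mem_coe, mem_Ae]
      simp only [map_smul, map_add, htt]
      rw [smul_comm ε (1 / 2 : ℂ), smul_add ε, smul_smul ε ε, hεε, one_smul, add_comm]
    · refine ⟨N.smul_mem _ (N.sub_mem hv (N.smul_mem _ (hN v hv))), ?_⟩
      rw [SetLike.mem_coe, mem_Ae]
      simp only [map_smul, map_sub, htt]
      rw [smul_comm (-ε) (1 / 2 : ℂ), smul_sub (-ε), smul_smul (-ε) ε, neg_mul, hεε, neg_smul,
        neg_smul, one_smul]
      congr 1
      abel

omit [FiniteDimensional ℂ W] in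
private theorem ei_inf (t : Module.End ℂ W) (ε : ℂ) (hε : ε = 1 ∨ ε = -1) :
    Ae t ε ⊓ Ae t (-ε) = ⊥ := by
  rw [eq_bot_iff]
  rintro v ⟨ha, hb⟩
  rw [SetLike.mem_coe, mem_Ae] at ha hb
  rw [Submodule.mem_bot]
  have h1 : (2 * ε) • v = 0 := by
    rw [ha, neg_smul] at hb
    rw [two_mul, add_smul]
    nth_rewrite 1 [hb]
    abel
  rcases smul_eq_zero.1 h1 with h | h
  · rcases hε with rfl | rfl <;> norm_num at h
  · exact h

private theorem fr_ei (t : Module.End ℂ W) (ht : t * t = 1) (N : Submodule ℂ W)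
    (hN : ∀ v ∈ N, t v ∈ N) (ε : ℂ) (hε : ε = 1 ∨ ε = -1) :
    finrank ℂ ↥(N ⊓ Ae t ε) + finrank ℂ ↥(N ⊓ Ae t (-ε)) = finrank ℂ ↥N := by
  have h2 : (N ⊓ Ae t ε) ⊓ (N ⊓ Ae t (-ε)) = ⊥ := by
    rw [eq_bot_iff, ← ei_inf t ε hε]
    exact inf_le_inf inf_le_right inf_le_right
  have h3 := Submodule.finrank_sup_add_finrank_inf_eq (N ⊓ Ae t ε) (N ⊓ Ae t (-ε))
  rw [ei_sup t ht N hN ε hε, h2, finrank_bot, add_zero] at h3
  exact h3.symm

/-- the number `q ε` -/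
private theorem q_eq (l y t : Module.End ℂ W) (ht : t * t = 1)
    (tl : t * l = -(l * t)) (ty : t * y = -(y * t)) (ε : ℂ) (hε : ε = 1 ∨ ε = -1) :
    finrank ℂ ↥(LinearMap.range l ⊔ LinearMap.range y ⊔ Ae t ε) +
      finrank ℂ ↥(LinearMap.range l ⊔ LinearMap.range y ⊔ Ae t (-ε)) =
      finrank ℂ W + finrank ℂ ↥(LinearMap.range l ⊔ LinearMap.range y) := by
  have tl' : ∀ v, t (l v) = -(l (t v)) := fun v => by
    have := congrArg (fun f => f v) tl
    simpa using this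
  have ty' : ∀ v, t (y v) = -(y (t v)) := fun v => by
    have := congrArg (fun f => f v) ty
    simpa using this
  have htt : ∀ v, t (t v) = v := fun v => by
    have := congrArg (fun f => f v) ht
    simpa using this
  set P := LinearMap.range l ⊔ LinearMap.range y with hP
  have hPt : ∀ v ∈ P, t v ∈ P := by
    intro v hv
    obtain ⟨a, ⟨a', rfl⟩, b, ⟨b', rfl⟩, rfl⟩ := Submodule.mem_sup.1 hv
    rw [map_add, tl', ty']
    exact Submodule.add_mem_sup ⟨-(t a'), map_neg _ _⟩ ⟨-(t b'), map_neg _ _⟩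
  have h1 : (P ⊔ Ae t ε) ⊔ (P ⊔ Ae t (-ε)) = ⊤ := by
    rw [eq_top_iff]
    have := ei_sup t ht ⊤ (fun v _ => Submodule.mem_top) ε hε
    rw [← this, top_inf_eq, top_inf_eq]
    exact sup_le_sup le_sup_right le_sup_right
  have h2 : (P ⊔ Ae t ε) ⊓ (P ⊔ Ae t (-ε)) = P := by
    apply le_antisymm
    · rintro v ⟨hv1, hv2⟩
      obtain ⟨p, hp, a, ha, rfl⟩ := Submodule.mem_sup.1 hv1
      obtain ⟨p', hp', a', ha', hh⟩ := Submodule.mem_sup.1 hv2
      rw [mem_Ae] at ha ha'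
      apply P.add_mem hp
      have h3 : a - a' ∈ P := by
        have : a - a' = p' - p := by
          rw [sub_eq_sub_iff_add_eq_add, add_comm a p, ← hh]
        rw [this]
        exact P.sub_mem hp' hp
      have h4 : t (a - a') ∈ P := hPt _ h3
      rw [map_sub, ha, ha'] at h4
      have h5 : (ε • a - -ε • a') + ε • (a - a') = (2 * ε) • a := by
        rw [smul_sub, neg_smul, two_mul, add_smul]; abel
      have h6 : (2 * ε) • a ∈ P := by
        rw [← h5]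
        exact P.add_mem h4 (P.smul_mem _ h3)
      have h7 : a = (2 * ε)⁻¹ • ((2 * ε) • a) := by
        rw [smul_smul, inv_mul_cancel₀, one_smul]
        rcases hε with rfl | rfl <;> norm_num
      rw [h7]
      exact P.smul_mem _ h6
    · exact le_inf le_sup_left le_sup_left
  have h3 := Submodule.finrank_sup_add_finrank_inf_eq (P ⊔ Ae t ε) (P ⊔ Ae t (-ε))
  rw [h1, h2, finrank_top] at h3
  exact h3.symm

private theorem key (l y t : Module.End ℂ W) (hc : Commute l y) (ht : t * t = 1)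
    (tl : t * l = -(l * t)) (ty : t * y = -(y * t))
    (hg : Good l y (LinearMap.ker l ⊓ LinearMap.ker y)) (ε : ℂ) (hε : ε = 1 ∨ ε = -1) (t0 : ℕ) :
    ∃ E : Submodule ℂ W, (∀ v ∈ E, t v = (-ε) • v ∧ l v ∈ LinearMap.ker l ⊓ LinearMap.ker y ∧
      y v ∈ LinearMap.ker l ⊓ LinearMap.ker y) ∧ (∀ v ∈ E, l v = 0 → y v = 0 → v = 0) ∧
    finrank ℂ W + finrank ℂ ↥(LinearMap.ker (l ^ t0)) ≤
      finrank ℂ ↥(LinearMap.range l ⊔ LinearMap.range y ⊔ Ae t ε) +
      finrank ℂ ↥(LinearMap.ker l ⊓ LinearMap.ker y ⊓ Ae t (-ε)) +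
      t0 * (finrank ℂ ↥E + 2 * finrank ℂ ↥(LinearMap.ker l ⊓ LinearMap.ker y ⊓ Ae t (-ε))) +
      finrank ℂ ↥(LinearMap.ker (l ^ (t0 + 1))) := by
  have tl' : ∀ v, t (l v) = -(l (t v)) := fun v => by
    have := congrArg (fun f => f v) tl
    simpa using this
  have ty' : ∀ v, t (y v) = -(y (t v)) := fun v => by
    have := congrArg (fun f => f v) ty
    simpa using this
  have htt : ∀ v, t (t v) = v := fun v => by
    have := congrArg (fun f => f v) ht
    simpa using this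
  have hly : ∀ v, l (y v) = y (l v) := fun v => by
    have := congrArg (fun f => f v) hc.eq
    simpa using this
  set P := LinearMap.range l ⊔ LinearMap.range y with hP
  set soc := LinearMap.ker l ⊓ LinearMap.ker y with hsoc
  have mem_soc : ∀ v, v ∈ soc ↔ l v = 0 ∧ y v = 0 := fun v => by
    rw [hsoc, Submodule.mem_inf, LinearMap.mem_ker, LinearMap.mem_ker]
  have soc_t : ∀ v ∈ soc, t v ∈ soc := by
    intro v hv
    rw [mem_soc] at hv ⊢
    have h1 := tl' v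
    have h2 := ty' v
    rw [hv.1, map_zero] at h1
    rw [hv.2, map_zero] at h2
    exact ⟨neg_eq_zero.1 h1.symm, neg_eq_zero.1 h2.symm⟩
  set N := soc.comap l ⊓ soc.comap y with hN
  have mem_N : ∀ v, v ∈ N ↔ l v ∈ soc ∧ y v ∈ soc := fun v => Iff.rfl
  have N_t : ∀ v ∈ N, t v ∈ N := by
    intro v hv
    rw [mem_N] at hv ⊢
    constructor
    · have h1 := soc_t _ hv.1
      rw [tl'] at h1
      simpa using h1
    · have h1 := soc_t _ hv.2
      rw [ty'] at h1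
      simpa using h1
  have soc_N : soc ≤ N := by
    intro v hv
    rw [mem_N]
    rw [mem_soc] at hv
    rw [hv.1, hv.2]
    exact ⟨soc.zero_mem, soc.zero_mem⟩
  -- dimensions of the eigenspaces of `N` and `soc`
  have d1 := fr_ei t ht N N_t ε hε
  have d2 := fr_ei t ht soc soc_t ε hε
  -- the part with `t = ε`
  have d3 : finrank ℂ ↥(N ⊓ Ae t ε) ≤
      finrank ℂ ↥(soc ⊓ Ae t ε) + 2 * finrank ℂ ↥(soc ⊓ Ae t (-ε)) := by
    have a1 := fr_map l (N ⊓ Ae t ε)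
    have a2 := fr_map y (N ⊓ Ae t ε ⊓ LinearMap.ker l)
    have a3 : (N ⊓ Ae t ε).map l ≤ soc ⊓ Ae t (-ε) := by
      rintro _ ⟨v, ⟨hv1, hv2⟩, rfl⟩
      refine ⟨((mem_N v).1 hv1).1, ?_⟩
      rw [SetLike.mem_coe, mem_Ae] at hv2 ⊢
      rw [tl', hv2, map_smul, neg_smul]
    have a4 : (N ⊓ Ae t ε ⊓ LinearMap.ker l).map y ≤ soc ⊓ Ae t (-ε) := by
      rintro _ ⟨v, ⟨⟨hv1, hv2⟩, _⟩, rfl⟩
      refine ⟨((mem_N v).1 hv1).2, ?_⟩
      rw [SetLike.mem_coe, mem_Ae] at hv2 ⊢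
      rw [ty', hv2, map_smul, neg_smul]
    have a5 : N ⊓ Ae t ε ⊓ LinearMap.ker l ⊓ LinearMap.ker y ≤ soc ⊓ Ae t ε := by
      rintro v ⟨⟨⟨_, hv2⟩, hv3⟩, hv4⟩
      exact ⟨⟨hv3, hv4⟩, hv2⟩
    have b3 := Submodule.finrank_mono a3
    have b4 := Submodule.finrank_mono a4
    have b5 := Submodule.finrank_mono a5
    omega
  -- the space `E`
  obtain ⟨T, hT⟩ := Submodule.exists_isCompl (soc ⊓ Ae t (-ε))
  have hE1 : (T ⊓ (N ⊓ Ae t (-ε))) ⊓ (soc ⊓ Ae t (-ε)) = ⊥ := by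
    rw [eq_bot_iff, ← hT.inf_eq_bot]
    rintro v ⟨⟨h1, _⟩, h2⟩
    exact ⟨h2, h1⟩
  have hE2 : (T ⊓ (N ⊓ Ae t (-ε))) ⊔ (soc ⊓ Ae t (-ε)) = N ⊓ Ae t (-ε) := by
    have h0 : soc ⊓ Ae t (-ε) ≤ N ⊓ Ae t (-ε) := inf_le_inf_right _ soc_N
    rw [sup_comm, ← sup_inf_assoc_of_le _ h0, hT.sup_eq_top, top_inf_eq]
  have d4 := Submodule.finrank_sup_add_finrank_inf_eq (T ⊓ (N ⊓ Ae t (-ε))) (soc ⊓ Ae t (-ε))
  rw [hE1, hE2, finrank_bot, add_zero] at d4
  refine ⟨T ⊓ (N ⊓ Ae t (-ε)), ?_, ?_, ?_⟩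
  · rintro v ⟨_, hv1, hv2⟩
    rw [SetLike.mem_coe, mem_Ae] at hv2
    exact ⟨hv2, ((mem_N v).1 hv1).1, ((mem_N v).1 hv1).2⟩
  · intro v hv h1 h2
    have h3 : v ∈ (T ⊓ (N ⊓ Ae t (-ε))) ⊓ (soc ⊓ Ae t (-ε)) :=
      ⟨hv, (mem_soc v).2 ⟨h1, h2⟩, hv.2.2⟩
    rw [hE1] at h3
    exact (Submodule.mem_bot ℂ).1 h3
  -- the quotient
  have hl : soc ≤ soc.comap l := fun v hv => ((mem_N v).1 (soc_N hv)).1
  have hy : soc ≤ soc.comap y := fun v hv => ((mem_N v).1 (soc_N hv)).2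
  set l' := soc.mapQ soc l hl with hl'
  set y' := soc.mapQ soc y hy with hy'
  have lpow : ∀ k v, (l' ^ k) (Submodule.Quotient.mk v) = Submodule.Quotient.mk ((l ^ k) v) := by
    intro k v
    rw [hl', ← Submodule.mapQ_pow, Submodule.mapQ_apply]
  have hc' : Commute l' y' := by
    ext v
    simp only [hl', hy', LinearMap.coe_comp, Function.comp_apply, Module.End.mul_apply,
      Submodule.mkQ_apply, Submodule.mapQ_apply, hly]
  have hg' : Good l' y' ⊥ := by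
    intro s v' hv'
    obtain ⟨v, rfl⟩ := Submodule.Quotient.mk_surjective _ v'
    rw [lpow, Submodule.mem_bot, Submodule.Quotient.mk_eq_zero] at hv'
    obtain ⟨w, hw⟩ := hg s v hv'
    refine ⟨Submodule.Quotient.mk w, ?_⟩
    rw [hy', Submodule.mapQ_apply, lpow, lpow, ← Submodule.Quotient.mk_sub, Submodule.mem_bot,
      Submodule.Quotient.mk_eq_zero]
    exact hw
  have g := good_small_inv l' y' hc' hg' t0
  -- kernels of powers of `l'`
  have k1 : ∀ k, finrank ℂ ↥(LinearMap.ker (l' ^ k)) + finrank ℂ ↥(LinearMap.range (l ^ k)) +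
      finrank ℂ ↥soc = finrank ℂ W + finrank ℂ ↥(LinearMap.range (l ^ k) ⊓ soc) := by
    intro k
    have a1 := LinearMap.finrank_range_add_finrank_ker (l' ^ k)
    have a2 := Submodule.finrank_quotient_add_finrank soc
    have a3 := fr_map soc.mkQ (LinearMap.range (l ^ k))
    rw [Submodule.ker_mkQ] at a3
    have a4 : LinearMap.range (l' ^ k) = (LinearMap.range (l ^ k)).map soc.mkQ := by
      rw [hl', ← Submodule.mapQ_pow, Submodule.range_mapQ]
    rw [a4] at a1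
    omega
  have k2 : ∀ k, finrank ℂ ↥(LinearMap.range (l ^ k)) + finrank ℂ ↥(LinearMap.ker (l ^ k)) =
      finrank ℂ W := fun k => LinearMap.finrank_range_add_finrank_ker (l ^ k)
  have k3 : finrank ℂ ↥(LinearMap.range (l ^ (t0 + 1)) ⊓ soc) ≤
      finrank ℂ ↥(LinearMap.range (l ^ t0) ⊓ soc) := by
    apply Submodule.finrank_mono
    apply inf_le_inf_right
    rw [pow_succ]
    exact LinearMap.range_comp_le_range _ _
  -- the common kernel of `l'` and `y'`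
  have k4 : LinearMap.ker l' ⊓ LinearMap.ker y' = N.map soc.mkQ := by
    ext v'
    obtain ⟨v, rfl⟩ := Submodule.Quotient.mk_surjective _ v'
    rw [Submodule.mem_inf, LinearMap.mem_ker, LinearMap.mem_ker, hl', hy', Submodule.mapQ_apply,
      Submodule.mapQ_apply, Submodule.Quotient.mk_eq_zero, Submodule.Quotient.mk_eq_zero]
    constructor
    · intro h
      exact ⟨v, h, rfl⟩
    · rintro ⟨w, hw, hwv⟩
      rw [Submodule.mkQ_apply, Submodule.Quotient.eq] at hwv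
      have : v = w - (w - v) := by abel
      have h2 : v ∈ N := by
        rw [this]
        exact N.sub_mem hw (soc_N hwv)
      exact h2
  have k5 := fr_map soc.mkQ N
  rw [← k4, Submodule.ker_mkQ, inf_eq_right.2 soc_N] at k5
  -- the range of `l`
  have k6 := k1 1
  rw [pow_one, pow_one] at k6
  have k7 := Submodule.finrank_sup_add_finrank_inf_eq (LinearMap.range l) soc
  have k8 : finrank ℂ ↥(LinearMap.range l ⊔ soc) ≤ finrank ℂ ↥(P ⊔ soc) := by
    apply Submodule.finrank_mono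
    exact sup_le_sup_right le_sup_left _
  have k9 : finrank ℂ ↥(P ⊔ soc) ≤ finrank ℂ ↥(P ⊔ Ae t ε) + finrank ℂ ↥(soc ⊓ Ae t (-ε)) := by
    have a1 : P ⊔ soc ≤ (P ⊔ Ae t ε) ⊔ (soc ⊓ Ae t (-ε)) := by
      rw [← ei_sup t ht soc soc_t ε hε]
      refine sup_le (le_sup_of_le_left le_sup_left) (sup_le ?_ ?_)
      · exact le_sup_of_le_left (le_sup_of_le_right inf_le_right)
      · rw [ei_sup t ht soc soc_t ε hε]
        exact le_sup_right
    have a2 := Submodule.finrank_mono a1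
    have a3 := Submodule.finrank_sup_add_finrank_inf_eq (P ⊔ Ae t ε) (soc ⊓ Ae t (-ε))
    omega
  have e1 := k1 t0
  have e2 := k1 (t0 + 1)
  have e3 := k2 t0
  have e4 := k2 (t0 + 1)
  have f1 : finrank ℂ ↥(LinearMap.ker l' ⊓ LinearMap.ker y') ≤
      finrank ℂ ↥(T ⊓ (N ⊓ Ae t (-ε))) + 2 * finrank ℂ ↥(soc ⊓ Ae t (-ε)) := by
    omega
  have f2 := Nat.mul_le_mul_left t0 f1
  omega

end abs


section transport

variable (D : JD) (μ : Lam)

/-- the part with the character `μ` -/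
private noncomputable def pr : (Idx D.b → ℂ) →ₗ[ℂ] (Idx D.b → ℂ) where
  toFun := fun v i => open Classical in if D.χ i.1 = μ then v i else 0
  map_add' := by
    intro v w
    ext i
    by_cases h : D.χ i.1 = μ <;> simp [h]
  map_smul' := by
    intro a v
    ext i
    by_cases h : D.χ i.1 = μ <;> simp [h]

private theorem pr_app (v : Idx D.b → ℂ) (i : Idx D.b) :
    (h : D.χ i.1 = μ) → D.pr μ v i = v i := by
  intro h
  simp [pr, h]

private theorem pr_app' (v : Idx D.b → ℂ) (i : Idx D.b) :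
    (h : D.χ i.1 ≠ μ) → D.pr μ v i = 0 := by
  intro h
  simp [pr, h]

private theorem pr_mem (v : Idx D.b → ℂ) : D.pr μ v ∈ D.Vm μ := by
  intro i hi
  by_contra h
  exact hi (D.pr_app' μ v i h)

private theorem pr_of_mem (v : Idx D.b → ℂ) (hv : v ∈ D.Vm μ) : D.pr μ v = v := by
  ext i
  by_cases h : D.χ i.1 = μ
  · exact D.pr_app μ v i h
  · rw [D.pr_app' μ v i h]
    by_contra h'
    exact h (hv i (fun h'' => h' h''.symm))

private theorem pr_comm (z : Matrix (Idx D.b) (Idx D.b) ℂ)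
    (hz : ∀ i k, z i k ≠ 0 → D.χ i.1 = D.χ k.1) (v : Idx D.b → ℂ) :
    D.pr μ (z.mulVecLin v) = z.mulVecLin (D.pr μ v) := by
  ext i
  by_cases h : D.χ i.1 = μ
  · rw [D.pr_app μ _ i h, mulVecLin_apply, mulVecLin_apply, mulVec, mulVec, dotProduct, dotProduct]
    apply Finset.sum_congr rfl
    intro k _
    by_cases hk : z i k = 0
    · rw [hk, zero_mul, zero_mul]
    · rw [D.pr_app μ v k (by rw [← hz i k hk, h])]
  · rw [D.pr_app' μ _ i h, mulVecLin_apply, mulVec, dotProduct]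
    symm
    apply Finset.sum_eq_zero
    intro k _
    by_cases hk : z i k = 0
    · rw [hk, zero_mul]
    · rw [D.pr_app' μ v k (by rw [← hz i k hk]; exact h), mul_zero]

private theorem t_stable (hμ : μ ^ 2 = 1) : ∀ v ∈ D.Vm μ, D.t.mulVecLin v ∈ D.Vm μ := by
  intro v hv i hi
  rw [mulVecLin_apply, mulVec, dotProduct] at hi
  obtain ⟨k, _, hk⟩ := Finset.exists_ne_zero_of_sum_ne_zero hi
  have h1 := D.ht i k (left_ne_zero_of_mul hk)
  have h2 := hv k (right_ne_zero_of_mul hk)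
  rw [h2] at h1
  have h3 : μ * μ = 1 := by rw [← pow_two, hμ]
  exact mul_right_cancel (h1.trans h3.symm)

/-- `t` on `V_μ` -/
private noncomputable def tm (hμ : μ ^ 2 = 1) : Module.End ℂ ↥(D.Vm μ) :=
  D.t.mulVecLin.restrict (D.t_stable μ hμ)

private theorem lm_val (v : ↥(D.Vm μ)) : ((D.lm μ v : ↥(D.Vm μ)) : Idx D.b → ℂ) =
    (Sh D.b).mulVec v.1 := rfl

private theorem ym_val (v : ↥(D.Vm μ)) : ((D.ym μ v : ↥(D.Vm μ)) : Idx D.b → ℂ) =
    D.y.mulVec v.1 := rfl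

private theorem tm_val (hμ : μ ^ 2 = 1) (v : ↥(D.Vm μ)) :
    ((D.tm μ hμ v : ↥(D.Vm μ)) : Idx D.b → ℂ) = D.t.mulVec v.1 := rfl

private theorem lm_pow (s : ℕ) (v : ↥(D.Vm μ)) :
    (((D.lm μ ^ s) v : ↥(D.Vm μ)) : Idx D.b → ℂ) = ((Sh D.b).mulVecLin ^ s) v.1 := by
  induction s generalizing v with
  | zero => rfl
  | succ s ih =>
    rw [pow_succ, pow_succ, Module.End.mul_apply, Module.End.mul_apply, ih]
    rfl

private theorem mem_soc (v : Idx D.b → ℂ) :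
    v ∈ D.soc ↔ (Sh D.b).mulVecLin v = 0 ∧ D.y.mulVecLin v = 0 := Iff.rfl

private theorem mem_socm (v : ↥(D.Vm μ)) :
    v ∈ LinearMap.ker (D.lm μ) ⊓ LinearMap.ker (D.ym μ) ↔ v.1 ∈ D.soc := by
  rw [Submodule.mem_inf, LinearMap.mem_ker, LinearMap.mem_ker, mem_soc, Subtype.ext_iff,
    Subtype.ext_iff]
  rfl

private theorem goodm (hD : D.Gen) :
    Good (D.lm μ) (D.ym μ) (LinearMap.ker (D.lm μ) ⊓ LinearMap.ker (D.ym μ)) := by
  intro s v hv
  rw [mem_socm, lm_pow] at hv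
  obtain ⟨w, hw⟩ := hD.q s v.1 hv
  refine ⟨⟨D.pr μ w, D.pr_mem μ w⟩, ?_⟩
  rw [mem_socm]
  have e1 : (((D.lm μ ^ s) (D.ym μ v) - (D.lm μ ^ (s + 1)) ⟨D.pr μ w, D.pr_mem μ w⟩ :
      ↥(D.Vm μ)) : Idx D.b → ℂ) = D.pr μ (((Sh D.b).mulVecLin ^ s) (D.y.mulVecLin v.1) -
      ((Sh D.b).mulVecLin ^ (s + 1)) w) := by
    have hp : ∀ k u, D.pr μ (((Sh D.b).mulVecLin ^ k) u) = ((Sh D.b).mulVecLin ^ k) (D.pr μ u) := by
      intro k
      induction k with
      | zero => intro u; rfl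
      | succ k ih =>
        intro u
        rw [pow_succ, Module.End.mul_apply, Module.End.mul_apply, ih, D.pr_comm μ _ D.Sh_lab]
    rw [map_sub, hp, hp, Submodule.coe_sub, lm_pow, lm_pow, D.pr_comm μ _ D.hy,
      D.pr_of_mem μ v.1 v.2]
    rfl
  rw [e1]
  rw [mem_soc] at hw ⊢
  rw [← D.pr_comm μ _ D.Sh_lab, ← D.pr_comm μ _ D.hy, hw.1, hw.2, map_zero]
  exact ⟨rfl, rfl⟩

private theorem tm_tm (hμ : μ ^ 2 = 1) : D.tm μ hμ * D.tm μ hμ = 1 := by
  ext v i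
  have h1 : D.t.mulVec (D.t.mulVec v.1) = v.1 := by rw [mulVec_mulVec, D.tt, one_mulVec]
  exact congrFun h1 i

private theorem tm_lm (hμ : μ ^ 2 = 1) : D.tm μ hμ * D.lm μ = -(D.lm μ * D.tm μ hμ) := by
  ext v i
  have h1 : D.t.mulVec ((Sh D.b).mulVec v.1) = -((Sh D.b).mulVec (D.t.mulVec v.1)) := by
    rw [mulVec_mulVec, mulVec_mulVec, D.tS, neg_mulVec]
  exact congrFun h1 i

private theorem tm_ym (hμ : μ ^ 2 = 1) : D.tm μ hμ * D.ym μ = -(D.ym μ * D.tm μ hμ) := by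
  ext v i
  have h1 : D.t.mulVec (D.y.mulVec v.1) = -(D.y.mulVec (D.t.mulVec v.1)) := by
    rw [mulVec_mulVec, mulVec_mulVec, D.ty, neg_mulVec]
  exact congrFun h1 i

private theorem S_eq (hμ : μ ^ 2 = 1) (ε : ℂ) :
    D.S μ ε = (LinearMap.ker (D.lm μ) ⊓ LinearMap.ker (D.ym μ) ⊓ Ae (D.tm μ hμ) ε).map
      (D.Vm μ).subtype := by
  ext v
  rw [Submodule.mem_map]
  constructor
  · rintro ⟨h1, h2, h3, h4⟩
    refine ⟨⟨v, h1⟩, ⟨?_, ?_⟩, rfl⟩
    · exact (D.mem_socm μ ⟨v, h1⟩).2 ⟨h2, h3⟩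
    · rw [SetLike.mem_coe, mem_Ae]
      exact Subtype.ext h4
  · rintro ⟨w, ⟨hw1, hw2⟩, rfl⟩
    have h1 := (D.mem_socm μ w).1 hw1
    rw [SetLike.mem_coe, mem_Ae] at hw2
    exact ⟨w.2, h1.1, h1.2, congrArg Subtype.val hw2⟩

private theorem sg_eq (hμ : μ ^ 2 = 1) (ε : ℂ) : D.sg μ ε =
    finrank ℂ ↥(LinearMap.ker (D.lm μ) ⊓ LinearMap.ker (D.ym μ) ⊓ Ae (D.tm μ hμ) ε) := by
  rw [sg, D.S_eq μ hμ, Submodule.finrank_map_subtype_eq]

private theorem mu_le (hμ : μ ^ 2 = 1) (ε : ℂ) (hε : ε = 1 ∨ ε = -1) : D.mu μ ε +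
    finrank ℂ ↥(LinearMap.range (D.lm μ) ⊔ LinearMap.range (D.ym μ) ⊔ Ae (D.tm μ hμ) (-ε)) ≤
    finrank ℂ ↥(D.Vm μ) := by
  have h1 := Subspace.finrank_add_finrank_dualAnnihilator_eq
    (LinearMap.range (D.lm μ) ⊔ LinearMap.range (D.ym μ) ⊔ Ae (D.tm μ hμ) (-ε))
  -- the functional
  let φ : (Idx D.b → ℂ) →ₗ[ℂ] Module.Dual ℂ ↥(D.Vm μ) :=
    { toFun := fun r =>
        { toFun := fun v => r ⬝ᵥ v.1
          map_add' := fun v w => by simp [dotProduct_add]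
          map_smul' := fun a v => by simp [dotProduct_smul] }
      map_add' := fun r s => by
        ext v
        simp [add_dotProduct]
      map_smul' := fun a r => by
        ext v
        simp [smul_dotProduct] }
  have hφ : ∀ r v, φ r v = r ⬝ᵥ v.1 := fun r v => rfl
  have hmem : ∀ r ∈ D.R μ ε, φ r ∈
      (LinearMap.range (D.lm μ) ⊔ LinearMap.range (D.ym μ) ⊔
        Ae (D.tm μ hμ) (-ε)).dualAnnihilator := by
    rintro r ⟨_, r2, r3, r4⟩
    rw [Submodule.dualAnnihilator_sup_eq, Submodule.dualAnnihilator_sup_eq]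
    refine ⟨⟨?_, ?_⟩, ?_⟩
    · rw [SetLike.mem_coe, Submodule.mem_dualAnnihilator]
      rintro _ ⟨v, rfl⟩
      rw [hφ, lm_val, dotProduct_mulVec, ← mulVec_transpose, r2, zero_dotProduct]
    · rw [SetLike.mem_coe, Submodule.mem_dualAnnihilator]
      rintro _ ⟨v, rfl⟩
      rw [hφ, ym_val, dotProduct_mulVec, ← mulVec_transpose, r3, zero_dotProduct]
    · rw [SetLike.mem_coe, Submodule.mem_dualAnnihilator]
      intro v hv
      rw [mem_Ae] at hv
      have hv' : D.t.mulVec v.1 = (-ε) • v.1 := congrArg Subtype.val hv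
      have e1 : r ⬝ᵥ (D.t.mulVec v.1) = ε • (r ⬝ᵥ v.1) := by
        rw [dotProduct_mulVec, ← mulVec_transpose, r4, smul_dotProduct]
      rw [hv', dotProduct_smul, smul_eq_mul, smul_eq_mul] at e1
      rw [hφ]
      have e2 : (2 * ε) * (r ⬝ᵥ v.1) = 0 := by linear_combination -e1
      rcases mul_eq_zero.1 e2 with h | h
      · rcases hε with rfl | rfl <;> norm_num at h
      · exact h
  have hinj : D.mu μ ε ≤ finrank ℂ ↥((LinearMap.range (D.lm μ) ⊔ LinearMap.range (D.ym μ) ⊔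
      Ae (D.tm μ hμ) (-ε)).dualAnnihilator) := by
    have h2 := fr_map φ (D.R μ ε)
    have h3 : D.R μ ε ⊓ LinearMap.ker φ = ⊥ := by
      rw [eq_bot_iff]
      rintro r ⟨⟨r1, _⟩, hr⟩
      rw [SetLike.mem_coe, LinearMap.mem_ker] at hr
      rw [Submodule.mem_bot]
      ext i
      by_contra hi
      have hi' : r i ≠ 0 := hi
      have h4 : Pi.single i (1 : ℂ) ∈ D.Vm μ := by
        intro k hk
        by_cases hki : k = i
        · rw [hki]
          exact r1 i hi'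
        · rw [Pi.single_eq_of_ne hki] at hk
          exact absurd rfl hk
      have h5 := congrArg (fun f => f ⟨Pi.single i (1 : ℂ), h4⟩) hr
      simp only [hφ, LinearMap.zero_apply, dotProduct_single, mul_one] at h5
      exact hi' h5
    rw [h3, finrank_bot, add_zero] at h2
    have h4 : (D.R μ ε).map φ ≤ (LinearMap.range (D.lm μ) ⊔ LinearMap.range (D.ym μ) ⊔
        Ae (D.tm μ hμ) (-ε)).dualAnnihilator := by
      rintro _ ⟨r, hr, rfl⟩
      exact hmem r hr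
    rw [mu, ← h2]
    exact Submodule.finrank_mono h4
  omega

private theorem mu_eq (hμ : μ ^ 2 = 1) (ε : ℂ) (hε : ε = 1 ∨ ε = -1) : D.mu μ ε +
    finrank ℂ ↥(LinearMap.range (D.lm μ) ⊔ LinearMap.range (D.ym μ)) =
    finrank ℂ ↥(LinearMap.range (D.lm μ) ⊔ LinearMap.range (D.ym μ) ⊔ Ae (D.tm μ hμ) ε) ∧
    D.mu μ 1 + D.mu μ (-1) +
    finrank ℂ ↥(LinearMap.range (D.lm μ) ⊔ LinearMap.range (D.ym μ)) = finrank ℂ ↥(D.Vm μ) := by
  have h1 := q_eq (D.lm μ) (D.ym μ) (D.tm μ hμ) (D.tm_tm μ hμ) (D.tm_lm μ hμ) (D.tm_ym μ hμ) ε hε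
  have hε' : -ε = 1 ∨ -ε = -1 := by rcases hε with rfl | rfl <;> simp
  have h2 := D.mu_le μ hμ ε hε
  have h3 := D.mu_le μ hμ (-ε) hε'
  rw [neg_neg] at h3
  have h4 := Vm_top D μ hμ
  have h5 := Submodule.finrank_quotient_add_finrank
    (LinearMap.range (D.lm μ) ⊔ LinearMap.range (D.ym μ))
  rw [h4] at h5
  have h6 : D.mu μ ε + D.mu μ (-ε) = D.mu μ 1 + D.mu μ (-1) := by
    rcases hε with rfl | rfl
    · rfl
    · rw [neg_neg, add_comm]
  constructor <;> omega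

end transport

theorem pg1 (D : JD) (hD : D.Gen) (μ : Lam) (hμ : μ ^ 2 = 1) (K : ℕ) :
    (Finset.univ.filter fun a => D.χ a = μ ∧ D.b a ≤ K).card ≤ K * (D.sg μ 1 + D.sg μ (-1)) ∧
    (Finset.univ.filter fun a => D.χ a = μ ∧ D.b a ≤ K).card ≤ K * (D.mu μ 1 + D.mu μ (-1)) := by
  have h1 : ∀ s, finrank ℂ ↥(LinearMap.ker (D.lm μ ^ s)) =
    ∑ a with D.χ a = μ, min (D.b a) s := D.lm_ker μ
  have h0 := h1 1
  rw [pow_one] at h0
  have hcard : (Finset.univ.filter fun a => D.χ a = μ ∧ D.b a ≤ K).card +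
      finrank ℂ ↥(LinearMap.ker (D.lm μ ^ (K + 1))) =
      finrank ℂ ↥(LinearMap.ker (D.lm μ)) + finrank ℂ ↥(LinearMap.ker (D.lm μ ^ K)) := by
    rw [h1 (K + 1), h1 K, h0, Finset.card_filter, ← Finset.sum_add_distrib]
    have e1 : (∑ a, if D.χ a = μ ∧ D.b a ≤ K then 1 else 0) =
        ∑ a with D.χ a = μ, if D.b a ≤ K then 1 else 0 := by
      rw [Finset.sum_filter]
      apply Finset.sum_congr rfl
      intro a _
      by_cases h : D.χ a = μ <;> simp [h]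
    rw [e1, ← Finset.sum_add_distrib]
    apply Finset.sum_congr rfl
    intro a _
    have := D.hb a
    split_ifs <;> omega
  have hs := Vm_soc D μ hμ
  have ht := Vm_top D μ hμ
  have g1 := good_small_inv (D.lm μ) (D.ym μ) (D.lm_ym μ) (D.Vm_good μ hD) K
  have g2 := good_small_coinv (D.lm μ) (D.ym μ) (D.lm_ym μ) (D.Vm_good μ hD) K
  rw [hs] at g1
  rw [ht] at g2
  constructor <;> omega

theorem pg2 (D : JD) (hD : D.Gen) (μ : Lam) (hμ : μ ^ 2 = 1) (ε : ℂ) (hε : ε = 1 ∨ ε = -1)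
    (t0 : ℕ) : ∃ E : Submodule ℂ (Idx D.b → ℂ),
    (∀ v ∈ E, (∀ i, v i ≠ 0 → D.χ i.1 = μ) ∧ D.t.mulVec v = (-ε) • v ∧
      (Sh D.b).mulVec v ∈ D.S μ ε ∧ D.y.mulVec v ∈ D.S μ ε) ∧
    (∀ v ∈ E, (Sh D.b).mulVec v = 0 → D.y.mulVec v = 0 → v = 0) ∧
    D.mu μ 1 + D.mu μ (-1) ≤ D.mu μ ε + D.sg μ (-ε) +
      t0 * (Module.finrank ℂ ↥E + 2 * D.sg μ (-ε)) +
      (Finset.univ.filter fun a => D.χ a = μ ∧ t0 < D.b a).card := by
  obtain ⟨E, hE1, hE2, hE3⟩ := key (D.lm μ) (D.ym μ) (D.tm μ hμ) (D.lm_ym μ) (D.tm_tm μ hμ)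
    (D.tm_lm μ hμ) (D.tm_ym μ hμ) (D.goodm μ hD) ε hε t0
  refine ⟨E.map (D.Vm μ).subtype, ?_, ?_, ?_⟩
  · rintro _ ⟨v, hv, rfl⟩
    obtain ⟨h1, h2, h3⟩ := hE1 v hv
    have h1' : D.t.mulVec v.1 = (-ε) • v.1 := congrArg Subtype.val h1
    rw [mem_socm] at h2 h3
    refine ⟨v.2, h1', ⟨(D.lm μ v).2, h2.1, h2.2, ?_⟩, ⟨(D.ym μ v).2, h3.1, h3.2, ?_⟩⟩
    · change D.t.mulVec ((Sh D.b).mulVec v.1) = ε • (Sh D.b).mulVec v.1
      rw [mulVec_mulVec, D.tS, neg_mulVec, ← mulVec_mulVec, h1', mulVec_smul, neg_smul, neg_neg]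
    · change D.t.mulVec (D.y.mulVec v.1) = ε • D.y.mulVec v.1
      rw [mulVec_mulVec, D.ty, neg_mulVec, ← mulVec_mulVec, h1', mulVec_smul, neg_smul, neg_neg]
  · rintro _ ⟨v, hv, rfl⟩ h1 h2
    have h3 := hE2 v hv (Subtype.ext h1) (Subtype.ext h2)
    rw [h3]
    rfl
  · rw [Submodule.finrank_map_subtype_eq]
    obtain ⟨m1, m2⟩ := D.mu_eq μ hμ ε hε
    rw [← D.sg_eq μ hμ] at hE3
    have hk : (Finset.univ.filter fun a => D.χ a = μ ∧ t0 < D.b a).card +
        finrank ℂ ↥(LinearMap.ker (D.lm μ ^ t0)) =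
        finrank ℂ ↥(LinearMap.ker (D.lm μ ^ (t0 + 1))) := by
      rw [D.lm_ker μ (t0 + 1), D.lm_ker μ t0, Finset.card_filter]
      have e1 : (∑ a, if D.χ a = μ ∧ t0 < D.b a then 1 else 0) =
          ∑ a with D.χ a = μ, if t0 < D.b a then 1 else 0 := by
        rw [Finset.sum_filter]
        apply Finset.sum_congr rfl
        intro a _
        by_cases h : D.χ a = μ <;> simp [h]
      rw [e1, ← Finset.sum_add_distrib]
      apply Finset.sum_congr rfl
      intro a _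
      split_ifs <;> omega
    omega

end Pool.Agent.INV5.JD
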