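import Pool.Agent.INV5.PF0
import Pool.Agent.INV5.WO3

/-!
# INV5, module PH: even functionals on the words of degree seven

For `Θ ∈ TH μ ε` and `ρ ∈ R μ ε` let `Φ(p) = (-1) ^ (∑_{m<7} pos p_m) * Θ (m ↦ rev p_m) * ρ (p_8)` for a word
`p` (`rev (a, i) = (a, rev i)`; the seven covector letters and the vector letter). `Φ` vanishes on `img ZG 7`:
the transposed matrices kill `Φ`. In fact with the matrix `r (i, k) = (-1) ^ pos i` if `k = rev i`, `0`
otherwise, one has `(rvs z)ᵀ r = r z` for every `z` (check the entries), so the transposed operator of the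
letter `m < 7` of `YY`, i.e. `(- rvs y)ᵀ`, applied to `r ⊗ ⋯ ⊗ r Θ`, gives `- r ⊗ ⋯ ⊗ r (y_m Θ)`, the sum
over `m < 7` is zero, and the last letter gives `yᵀ ρ = 0`. Similarly for `LL` (`Sh = - rvs Sh`) and
`PP σ` (symmetry of `Θ`), and `TTᵀ Φ = ε² Φ = Φ`. The support of `Θ ⊗ ρ` consists of tuples of letters
with the character `μ`, and `μ ^ (-6) = 1`, so these are words of total label one and nothing is lost by the
restriction to `J 7`. The bilinear map `(Θ, ρ) ↦ Φ` is the tensor product of spaces of functions, so it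
induces an injective map of `TH μ ε ⊗ R μ ε` into the dual of the quotient by `img (ZG 7)`.
(E.g.: bases `Θ_i`, `ρ_j`; if `∑ x_ij Θ_i(q) ρ_j(k) = 0` for all `q, k` then `x = 0`.)
-/

namespace Pool.Agent.INV5.JD

open Matrix

section general

variable {I : Type} [Fintype I] [DecidableEq I]

/-- tensor product of a function of seven letters and of a function of one letter -/
private def ph_tp (v : (Fin 7 → I) → ℂ) (ρ : I → ℂ) (p : Fin 8 → I) : ℂ :=
  v (fun m => p m.castSucc) * ρ (p (Fin.last 7))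

/-- words of eight letters -/
private def ph_eq : (Fin 8 → I) ≃ (Fin 7 → I) × I where
  toFun p := (fun m => p m.castSucc, p (Fin.last 7))
  invFun x := Fin.snoc (α := fun _ => I) x.1 x.2
  left_inv p := by
    funext m
    refine Fin.lastCases ?_ (fun m' => ?_) m
    · exact Fin.snoc_last (α := fun _ => I) _ _
    · exact Fin.snoc_castSucc (α := fun _ => I) _ _ _
  right_inv x := by
    refine Prod.ext (funext fun m => ?_) ?_
    · exact Fin.snoc_castSucc (α := fun _ => I) _ _ _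
    · change Fin.snoc (α := fun _ : Fin 8 => I) x.1 x.2 (Fin.last 7) = x.2
      exact Fin.snoc_last (α := fun _ => I) _ _

omit [DecidableEq I] in
private theorem ph_tp_Kr (z : Fin 8 → Matrix I I ℂ) (v : (Fin 7 → I) → ℂ) (ρ : I → ℂ) :
    (Kr (I := fun _ => I) z).mulVec (ph_tp v ρ) =
      ph_tp ((Kr (I := fun _ : Fin 7 => I) fun m => z m.castSucc).mulVec v)
        ((z (Fin.last 7)).mulVec ρ) := by
  funext p
  simp only [ph_tp, Matrix.mulVec, dotProduct]
  rw [Finset.sum_mul_sum, ← Finset.sum_product', Finset.univ_product_univ]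
  refine Fintype.sum_equiv ph_eq _ _ fun q => ?_
  change Kr (I := fun _ => I) z p q * _ = Kr (I := fun _ : Fin 7 => I) (fun m => z m.castSucc)
    (fun m => p m.castSucc) (fun m => q m.castSucc) * v (fun m => q m.castSucc) *
    (z (Fin.last 7) (p (Fin.last 7)) (q (Fin.last 7)) * ρ (q (Fin.last 7)))
  simp only [Kr, Fin.prod_univ_castSucc (n := 7)]
  ring

omit [Fintype I] [DecidableEq I] in
private theorem ph_tp_zero (v : (Fin 7 → I) → ℂ) : ph_tp v (0 : I → ℂ) = 0 := by
  funext p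
  simp [ph_tp]

omit [Fintype I] [DecidableEq I] in
private theorem ph_zero_tp (ρ : I → ℂ) : ph_tp (0 : (Fin 7 → I) → ℂ) ρ = 0 := by
  funext p
  simp [ph_tp]

private theorem ph_tp_Tot (z : Fin 8 → Matrix I I ℂ) (v : (Fin 7 → I) → ℂ) (ρ : I → ℂ) :
    (Tot (I := fun _ => I) z).mulVec (ph_tp v ρ) =
      ph_tp ((Tot (I := fun _ : Fin 7 => I) fun m => z m.castSucc).mulVec v) ρ +
        ph_tp v ((z (Fin.last 7)).mulVec ρ) := by
  have h1 : ∀ m : Fin 7, (At (I := fun _ => I) m.castSucc (z m.castSucc)).mulVec (ph_tp v ρ) =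
      ph_tp ((At (I := fun _ : Fin 7 => I) m (z m.castSucc)).mulVec v) ρ := by
    intro m
    rw [At_eq_Kr, At_eq_Kr, ph_tp_Kr, Function.update_of_ne (Fin.castSucc_lt_last m).ne',
      Matrix.one_mulVec]
    congr 3
    funext k
    by_cases hk : k = m
    · subst hk
      rw [Function.update_self, Function.update_self]
    · rw [Function.update_of_ne hk, Function.update_of_ne
        (fun h => hk (Fin.castSucc_injective _ h))]
  have h2 : (At (I := fun _ => I) (Fin.last 7) (z (Fin.last 7))).mulVec (ph_tp v ρ) =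
      ph_tp v ((z (Fin.last 7)).mulVec ρ) := by
    rw [At_eq_Kr, ph_tp_Kr, Function.update_self]
    have h3 : (fun m : Fin 7 => Function.update (fun _ : Fin 8 => (1 : Matrix I I ℂ)) (Fin.last 7)
        (z (Fin.last 7)) m.castSucc) = fun _ => 1 := by
      funext k
      rw [Function.update_of_ne (Fin.castSucc_lt_last k).ne]
    rw [h3, Kr_one, Matrix.one_mulVec]
  unfold Tot
  rw [Fin.sum_univ_castSucc, Matrix.add_mulVec, Matrix.sum_mulVec, Matrix.sum_mulVec, h2]
  simp only [h1]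
  congr 1
  funext p
  simp only [ph_tp, Finset.sum_apply, Finset.sum_mul]

end general

section rev

variable {β : Type} [Fintype β] [DecidableEq β] (b : β → ℕ)

/-- the reversal -/
private def ph_rv (i : Idx b) : Idx b := ⟨i.1, i.2.rev⟩

/-- the sign -/
private def ph_sg (i : Idx b) : ℂ := (-1) ^ (i.2 : ℕ)

omit [Fintype β] [DecidableEq β] in
private theorem ph_rv_rv (i : Idx b) : ph_rv b (ph_rv b i) = i := by
  obtain ⟨a, p⟩ := i
  change (⟨a, p.rev.rev⟩ : Idx b) = ⟨a, p⟩
  rw [Fin.rev_rev]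

omit [Fintype β] [DecidableEq β] in
private theorem ph_sg_sq (i : Idx b) : ph_sg b i * ph_sg b i = 1 := by
  unfold ph_sg
  rw [← pow_add, ← two_mul, pow_mul]
  simp

omit [Fintype β] [DecidableEq β] in
private theorem ph_rvs_apply (z : Matrix (Idx b) (Idx b) ℂ) (i k : Idx b) :
    rvs b z i k = ph_sg b i * ph_sg b k * z (ph_rv b k) (ph_rv b i) := by
  unfold ph_sg
  rw [← pow_add]
  rfl

/-- the reversal with signs -/
private def ph_r : Matrix (Idx b) (Idx b) ℂ :=
  fun i k => if k = ph_rv b i then ph_sg b i else 0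

private theorem ph_r_mul (z : Matrix (Idx b) (Idx b) ℂ) (i k : Idx b) :
    (ph_r b * z) i k = ph_sg b i * z (ph_rv b i) k := by
  rw [Matrix.mul_apply, Finset.sum_eq_single (ph_rv b i)]
  · simp only [ph_r, if_true]
  · intro j _ hj
    simp only [ph_r, if_neg hj, zero_mul]
  · intro h
    exact absurd (Finset.mem_univ _) h

private theorem ph_mul_r (z : Matrix (Idx b) (Idx b) ℂ) (i k : Idx b) :
    (z * ph_r b) i k = z i (ph_rv b k) * ph_sg b (ph_rv b k) := by
  rw [Matrix.mul_apply, Finset.sum_eq_single (ph_rv b k)]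
  · simp only [ph_r]
    rw [if_pos (ph_rv_rv b k).symm]
  · intro j _ hj
    simp only [ph_r]
    rw [if_neg (fun h => hj (by rw [h, ph_rv_rv])), mul_zero]
  · intro h
    exact absurd (Finset.mem_univ _) h

private theorem ph_rvs (z : Matrix (Idx b) (Idx b) ℂ) : (rvs b z)ᵀ * ph_r b = ph_r b * z := by
  ext i k
  rw [ph_r_mul, ph_mul_r, Matrix.transpose_apply, ph_rvs_apply, ph_rv_rv]
  linear_combination (ph_sg b i * z (ph_rv b i) k) * ph_sg_sq b (ph_rv b k)

/-- the reversal of seven letters with signs -/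
private def ph_fl (v : (Fin 7 → Idx b) → ℂ) (q : Fin 7 → Idx b) : ℂ :=
  (∏ m, ph_sg b (q m)) * v fun m => ph_rv b (q m)

private theorem ph_fl_eq (v : (Fin 7 → Idx b) → ℂ) :
    ph_fl b v = (Kr (I := fun _ : Fin 7 => Idx b) fun _ => ph_r b).mulVec v := by
  funext q
  rw [Matrix.mulVec, dotProduct, Finset.sum_eq_single (fun m => ph_rv b (q m))]
  · simp only [Kr, ph_r, if_true, ph_fl]
  · intro p _ hp
    have h1 : ∃ m, p m ≠ ph_rv b (q m) := by
      by_contra hne
      push Not at hne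
      exact hp (funext hne)
    obtain ⟨m, hm⟩ := h1
    have h2 : Kr (I := fun _ : Fin 7 => Idx b) (fun _ => ph_r b) q p = 0 := by
      unfold Kr
      exact Finset.prod_eq_zero (Finset.mem_univ m) (by simp only [ph_r, if_neg hm])
    rw [h2, zero_mul]
  · intro h
    exact absurd (Finset.mem_univ _) h

private theorem ph_fl_Kr (z : Matrix (Idx b) (Idx b) ℂ) (v : (Fin 7 → Idx b) → ℂ) :
    (Kr (I := fun _ : Fin 7 => Idx b) fun _ => (rvs b z)ᵀ).mulVec (ph_fl b v) =
      ph_fl b ((Kr (I := fun _ : Fin 7 => Idx b) fun _ => z).mulVec v) := by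
  rw [ph_fl_eq, ph_fl_eq, Matrix.mulVec_mulVec, Matrix.mulVec_mulVec, Kr_mul, Kr_mul, ph_rvs]

private theorem ph_fl_Tot (z : Matrix (Idx b) (Idx b) ℂ) (v : (Fin 7 → Idx b) → ℂ) :
    (Tot (I := fun _ : Fin 7 => Idx b) fun _ => (rvs b z)ᵀ).mulVec (ph_fl b v) =
      ph_fl b ((Tot (I := fun _ : Fin 7 => Idx b) fun _ => z).mulVec v) := by
  rw [ph_fl_eq, ph_fl_eq, Matrix.mulVec_mulVec, Matrix.mulVec_mulVec,
    Kr_Tot (I := fun _ : Fin 7 => Idx b) (fun _ => ph_r b) (fun _ => z) (fun _ => (rvs b z)ᵀ)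
      fun m => (ph_rvs b z).symm]

end rev

variable (D : JD)

private theorem ph_label (m : Fin 8) (i k : Idx D.b) (h : D.χ i.1 = D.χ k.1) :
    D.c 7 m i = D.c 7 m k := by
  change D.cb 7 m i.1 = D.cb 7 m k.1
  unfold cb
  rw [h]

private theorem ph_pres_LL : Pres (D.c 7) (Tot fun _ => Sh D.b) := by
  refine Pres_Tot _ _ fun m i k h => D.ph_label m i k ?_
  have h1 : i.1 = k.1 := by
    by_contra hne
    exact h (if_neg fun hh => hne hh.1)
  rw [h1]

private theorem ph_pres_YY : Pres (D.c 7) (Tot (D.z 7)) := by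
  refine Pres_Tot _ _ fun m i k h => D.ph_label m i k ?_
  unfold z at h
  split_ifs at h with h1
  · exact D.hy i k h
  · refine (D.hy ⟨k.1, k.2.rev⟩ ⟨i.1, i.2.rev⟩ fun h' => h ?_).symm
    rw [Matrix.neg_apply]
    simp only [rvs, h', mul_zero, neg_zero]

private theorem ph_pres_TT : Pres (D.c 7) (Kr (D.τ 7)) := by
  refine Pres_Kr' _ _ fun m i k h => ?_
  have h2 : D.χ i.1 * D.χ k.1 = 1 := by
    unfold τ at h
    split_ifs at h with h1
    · exact D.ht i k h
    · rw [mul_comm]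
      refine D.ht ⟨k.1, k.2.rev⟩ ⟨i.1, i.2.rev⟩ fun h' => h ?_
      simp only [rvs, h', mul_zero]
  change D.cb 7 m i.1 * D.cb 7 m k.1 = 1
  unfold cb
  split_ifs
  · exact h2
  · rw [← mul_inv, h2, inv_one]

private theorem ph_pres_PP (σ : Equiv.Perm (Fin 7)) : Pres (D.c 7) (PW σ) := by
  refine Pres_PW σ _ fun i j => ?_
  funext k
  change D.cb 7 i.castSucc k.1 = D.cb 7 j.castSucc k.1
  unfold cb
  rw [if_neg (Fin.castSucc_lt_last i).ne, if_neg (Fin.castSucc_lt_last j).ne]

private theorem ph_res (Z : Matrix (Fin 8 → Idx D.b) (Fin 8 → Idx D.b) ℂ) (h : Pres (D.c 7) Z)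
    (Φ : (Fin 8 → Idx D.b) → ℂ) (Φ' : (Fin 8 → Idx D.b) → ℂ) (hΦ : Zᵀ.mulVec Φ = Φ') :
    (res (D.c 7) Z)ᵀ.mulVec (fun p : D.J 7 => Φ p.1) = fun p : D.J 7 => Φ' p.1 := by
  classical
  funext p
  rw [← hΦ]
  simp only [Matrix.mulVec, dotProduct, Matrix.transpose_apply, res, Matrix.submatrix_apply]
  rw [← Finset.sum_subtype (Finset.univ.filter fun r : Fin 8 → Idx D.b =>
    ∏ m, D.c 7 m (r m) = 1) (fun r => by simp) fun r => Z r p.1 * Φ r]
  apply Finset.sum_subset (Finset.filter_subset _ _)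
  intro r _ hr
  have h1 : Z r p.1 = 0 := by
    by_contra hne
    exact hr (Finset.mem_filter.2 ⟨Finset.mem_univ _, (h r p.1 hne).2 p.2⟩)
  rw [h1, zero_mul]

/-- the functional -/
private def ph_F (v : (Fin 7 → Idx D.b) → ℂ) (ρ : Idx D.b → ℂ) (p : D.J 7) : ℂ :=
  ph_tp (ph_fl D.b v) ρ p.1

private theorem ph_kill (μ : Lam) (ε : ℂ) (hε : ε = 1 ∨ ε = -1)
    (v : (Fin 7 → Idx D.b) → ℂ) (hv : v ∈ D.TH μ ε) (ρ : Idx D.b → ℂ) (hρ : ρ ∈ D.R μ ε)
    (r : Fin 3 ⊕ Equiv.Perm (Fin 7)) : (D.ZG 7 r)ᵀ.mulVec (D.ph_F v ρ) = 0 := by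
  obtain ⟨-, hsym, hS, hy, ht⟩ := hv
  obtain ⟨-, hS', hy', ht'⟩ := hρ
  have hfl0 : ph_fl D.b (0 : (Fin 7 → Idx D.b) → ℂ) = 0 := by
    rw [ph_fl_eq, Matrix.mulVec_zero]
  -- `ℓ`
  have h1 : (D.LL 7)ᵀ.mulVec (D.ph_F v ρ) = 0 := by
    refine D.ph_res _ D.ph_pres_LL (ph_tp (ph_fl D.b v) ρ) 0 ?_
    rw [Tot_transpose, ph_tp_Tot, hS', ph_tp_zero, add_zero]
    have e1 : (fun _ : Fin 7 => (Sh D.b)ᵀ) = fun _ => -(rvs D.b (Sh D.b))ᵀ := by
      funext _
      rw [rvs_Sh, Matrix.transpose_neg, neg_neg]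
    rw [e1, Tot_neg, Matrix.neg_mulVec, ph_fl_Tot]
    have e2 : (Tot (I := fun _ : Fin 7 => Idx D.b) fun _ => Sh D.b).mulVec v = 0 := hS
    rw [e2, hfl0, neg_zero, ph_zero_tp]
  -- `y`
  have h2 : (D.YY 7)ᵀ.mulVec (D.ph_F v ρ) = 0 := by
    refine D.ph_res _ D.ph_pres_YY (ph_tp (ph_fl D.b v) ρ) 0 ?_
    rw [Tot_transpose, ph_tp_Tot]
    have e0 : (D.z 7 (Fin.last 7))ᵀ.mulVec ρ = 0 := by
      unfold z
      rw [if_pos rfl]
      exact hy'
    have e1 : (fun m : Fin 7 => (D.z 7 m.castSucc)ᵀ) = fun _ => -(rvs D.b D.y)ᵀ := by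
      funext m
      unfold z
      rw [if_neg (Fin.castSucc_lt_last m).ne, Matrix.transpose_neg]
    rw [e0, ph_tp_zero, add_zero, e1, Tot_neg, Matrix.neg_mulVec, ph_fl_Tot]
    have e2 : (Tot (I := fun _ : Fin 7 => Idx D.b) fun _ => D.y).mulVec v = 0 := hy
    rw [e2, hfl0, neg_zero, ph_zero_tp]
  -- the involution
  have h3 : (D.TT 7)ᵀ.mulVec (D.ph_F v ρ) = D.ph_F v ρ := by
    refine D.ph_res _ D.ph_pres_TT (ph_tp (ph_fl D.b v) ρ) (ph_tp (ph_fl D.b v) ρ) ?_
    rw [Kr_transpose, ph_tp_Kr]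
    have e0 : (D.τ 7 (Fin.last 7))ᵀ.mulVec ρ = ε • ρ := by
      unfold τ
      rw [if_pos rfl]
      exact ht'
    have e1 : (fun m : Fin 7 => (D.τ 7 m.castSucc)ᵀ) = fun _ => (rvs D.b D.t)ᵀ := by
      funext m
      unfold τ
      rw [if_neg (Fin.castSucc_lt_last m).ne]
    rw [e0, e1, ph_fl_Kr]
    have e2 : (Kr (I := fun _ : Fin 7 => Idx D.b) fun _ => D.t).mulVec v = ε • v := ht
    rw [e2]
    funext p
    have e3 : ε * ε = 1 := by
      rcases hε with h | h <;> rw [h] <;> norm_num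
    simp only [ph_tp, ph_fl, Pi.smul_apply, smul_eq_mul]
    linear_combination ((∏ m : Fin 7, ph_sg D.b (p m.castSucc)) *
      v (fun m => ph_rv D.b (p m.castSucc)) * ρ (p (Fin.last 7))) * e3
  -- the symmetric group
  have h4 : ∀ σ, (D.PP 7 σ)ᵀ.mulVec (D.ph_F v ρ) = D.ph_F v ρ := by
    intro σ
    refine D.ph_res _ (D.ph_pres_PP σ) (ph_tp (ph_fl D.b v) ρ) (ph_tp (ph_fl D.b v) ρ) ?_
    funext p
    rw [Matrix.mulVec, dotProduct, Finset.sum_eq_single (fun m => p (ext σ m))]
    · simp only [Matrix.transpose_apply, PW, if_true, one_mul]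
      have e1 : ext σ (Fin.last 7) = Fin.last 7 := Fin.lastCases_last
      have e2 : ∀ m : Fin 7, ext σ m.castSucc = (σ m).castSucc := fun m =>
        Fin.lastCases_castSucc m
      simp only [ph_tp, ph_fl, e1, e2]
      congr 2
      · exact Equiv.prod_comp σ fun m : Fin 7 => ph_sg D.b (p m.castSucc)
      · exact hsym σ fun m => ph_rv D.b (p m.castSucc)
    · intro q _ hq
      simp only [Matrix.transpose_apply, PW, if_neg hq, zero_mul]
    · intro h
      exact absurd (Finset.mem_univ _) h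
  rcases r with r | σ
  · change ((![D.LL 7, D.YY 7, 1 - D.TT 7] : Fin 3 → Matrix (D.J 7) (D.J 7) ℂ) r)ᵀ.mulVec _ = 0
    fin_cases r
    · exact h1
    · exact h2
    · change (1 - D.TT 7)ᵀ.mulVec _ = 0
      rw [Matrix.transpose_sub, Matrix.transpose_one, Matrix.sub_mulVec, Matrix.one_mulVec, h3,
        sub_self]
  · change (1 - D.PP 7 σ)ᵀ.mulVec _ = 0
    rw [Matrix.transpose_sub, Matrix.transpose_one, Matrix.sub_mulVec, Matrix.one_mulVec, h4,
      sub_self]

theorem ph (D : JD) (μ : Lam) (hμ : μ ^ 2 = 1) (ε : ℂ) (hε : ε = 1 ∨ ε = -1) :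
    Module.finrank ℂ ↥(D.TH μ ε) * D.mu μ ε ≤ D.cpl 7 := by
  have hck : D.cpl 7 = Module.finrank ℂ
      (⨅ r, LinearMap.ker ((D.ZG 7 r)ᵀ).mulVecLin : Submodule ℂ (D.J 7 → ℂ)) := by
    have h1 := ik_eq fun r => (D.ZG 7 r)ᵀ
    simp only [Matrix.transpose_transpose] at h1
    exact h1.symm
  rw [hck]
  unfold mu
  let bT := Module.finBasis ℂ ↥(D.TH μ ε)
  let bR := Module.finBasis ℂ ↥(D.R μ ε)
  let F : Fin (Module.finrank ℂ ↥(D.TH μ ε)) × Fin (Module.finrank ℂ ↥(D.R μ ε)) →
      (⨅ r, LinearMap.ker ((D.ZG 7 r)ᵀ).mulVecLin : Submodule ℂ (D.J 7 → ℂ)) := fun x =>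
    ⟨D.ph_F (bT x.1).1 (bR x.2).1, by
      rw [Submodule.mem_iInf]
      intro r
      rw [LinearMap.mem_ker, Matrix.mulVecLin_apply]
      exact D.ph_kill μ ε hε _ (bT x.1).2 _ (bR x.2).2 r⟩
  have hF : LinearIndependent ℂ F := by
    rw [Fintype.linearIndependent_iff]
    intro x hx
    have h1 : ∀ p : D.J 7, ∑ ij, x ij * D.ph_F (bT ij.1).1 (bR ij.2).1 p = 0 := by
      intro p
      have h2 := congrFun (congrArg Subtype.val hx) p
      rw [Submodule.coe_sum, Finset.sum_apply] at h2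
      exact h2
    have h3 : ∀ (q : Fin 7 → Idx D.b) (k : Idx D.b),
        ∑ j, (∑ i, x (i, j) * (bT i).1 q) * (bR j).1 k = 0 := by
      intro q k
      by_cases hk : D.χ k.1 = μ
      · by_cases hq : ∀ m, D.χ (q m).1 = μ
        · let w : Fin 8 → Idx D.b := Fin.snoc (α := fun _ => Idx D.b)
            (fun m => ph_rv D.b (q m)) k
          have hw1 : ∀ m : Fin 7, w m.castSucc = ph_rv D.b (q m) := fun m =>
            Fin.snoc_castSucc (α := fun _ => Idx D.b) _ _ _
          have hw2 : w (Fin.last 7) = k := Fin.snoc_last (α := fun _ => Idx D.b) _ _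
          have hw : ∏ m, D.c 7 m (w m) = 1 := by
            rw [Fin.prod_univ_castSucc, hw2]
            have e1 : ∀ m : Fin 7, D.c 7 m.castSucc (w m.castSucc) = μ⁻¹ := by
              intro m
              rw [hw1]
              change D.cb 7 m.castSucc (q m).1 = μ⁻¹
              unfold cb
              rw [if_neg (Fin.castSucc_lt_last m).ne, hq]
            have e2 : D.c 7 (Fin.last 7) k = μ := by
              change D.cb 7 (Fin.last 7) k.1 = μ
              unfold cb
              rw [if_pos rfl, hk]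
            rw [Finset.prod_congr rfl fun m _ => e1 m, e2, Finset.prod_const, Finset.card_univ,
              Fintype.card_fin, inv_pow, show μ ^ 7 = μ ^ 2 * μ ^ 2 * μ ^ 2 * μ by group, hμ]
            simp
          have h4 := h1 ⟨w, hw⟩
          have h5 : ∀ ij : Fin (Module.finrank ℂ ↥(D.TH μ ε)) × Fin (Module.finrank ℂ ↥(D.R μ ε)),
              D.ph_F (bT ij.1).1 (bR ij.2).1 ⟨w, hw⟩ =
                (∏ m : Fin 7, ph_sg D.b (ph_rv D.b (q m))) * ((bT ij.1).1 q * (bR ij.2).1 k) := by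
            intro ij
            unfold ph_F ph_tp ph_fl
            simp only [hw1, hw2, ph_rv_rv, mul_assoc]
          simp only [h5] at h4
          have h6 : (∏ m : Fin 7, ph_sg D.b (ph_rv D.b (q m))) ≠ 0 :=
            Finset.prod_ne_zero_iff.2 fun m _ => pow_ne_zero _ (by norm_num)
          have h7 : (∏ m : Fin 7, ph_sg D.b (ph_rv D.b (q m))) *
              ∑ j, (∑ i, x (i, j) * (bT i).1 q) * (bR j).1 k = 0 := by
            rw [← h4, Fintype.sum_prod_type, Finset.sum_comm, Finset.mul_sum]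
            refine Finset.sum_congr rfl fun j _ => ?_
            rw [Finset.sum_mul, Finset.mul_sum]
            refine Finset.sum_congr rfl fun i _ => ?_
            ring
          exact (mul_eq_zero.1 h7).resolve_left h6
        · have h4 : ∀ i, (bT i).1 q = 0 := by
            intro i
            by_contra hne
            exact hq ((bT i).2.1 q hne)
          simp [h4]
      · have h4 : ∀ j, (bR j).1 k = 0 := by
          intro j
          by_contra hne
          exact hk ((bR j).2.1 k hne)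
        simp [h4]
    have h4 : ∀ (q : Fin 7 → Idx D.b) j, ∑ i, x (i, j) * (bT i).1 q = 0 := by
      intro q
      have h5 := Fintype.linearIndependent_iff.1 bR.linearIndependent
        (fun j => ∑ i, x (i, j) * (bT i).1 q) (by
          apply Subtype.ext
          funext k
          rw [Submodule.coe_sum, Finset.sum_apply]
          exact h3 q k)
      exact h5
    rintro ⟨i, j⟩
    have h5 := Fintype.linearIndependent_iff.1 bT.linearIndependent (fun i => x (i, j)) (by
        apply Subtype.ext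
        funext q
        rw [Submodule.coe_sum, Finset.sum_apply]
        exact h4 q j)
    exact h5 i
  have h := hF.fintype_card_le_finrank
  rw [Fintype.card_prod, Fintype.card_fin, Fintype.card_fin] at h
  exact h

end Pool.Agent.INV5.JD
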