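import Mathlib
import Pool.Agent.INV5.WO2

/-!
# INV5, module PI2: symmetric tensors killed by two derivations (abstract)

`κ = Fin e ⊕ Fin f`. `Λ, H` are matrices on `κ` whose only nonzero entries are in the places
`(inr j, inl i)` (they map `x_i`, `i < e`, into the span of the `x_j`, `j < f`, and kill the latter). The space of
the symmetric functions `g` on `Fin 7 → κ`, supported on the tuples with exactly one index in `Fin e`, and
killed by `Tot Λ` and `Tot H`, has dimension at least `e C(f+5, 6) - 2 C(f+6, 7)`.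
Proof. For `h : Fin e × Sym (Fin f) 6 → ℂ` let `g_h` be the symmetric function on the tuples with exactly
one index `inl i`, with value `h (i, multiset of the other six)`. `h ↦ g_h` is linear and injective.
`Tot Λ g_h` is symmetric and supported on the tuples with all indices in `Fin f`: it is given by a function on
`Sym (Fin f) 7`, linear in `h`. So the common kernel of the two linear maps
`(Fin e × Sym (Fin f) 6 → ℂ) → (Sym (Fin f) 7 → ℂ)` has dimension at least
`e * card (Sym (Fin f) 6) - 2 card (Sym (Fin f) 7)` (`Sym.card_sym_eq_choose`, `Nat.multichoose`), and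
`7 C(f+6, 7) = (f+6) C(f+5, 6)`, so `7 * dim ≥ C(f+5, 6) (7 e - 2 (f + 6))`.
For `f ≤ 2 e`, `e ≤ 2 f`, `12 ≤ e`: `7 e - 2 f - 12 ≥ 3 e - 12 ≥ 2 e`, `C(f+5, 6) ≥ f ^ 6 / 720` and
`f ^ 6 ≥ e ^ 6 / 64`, so `dim ≥ e ^ 7 / 161280`.
-/

namespace Pool.Agent.INV5

open Matrix

/-- the space of tensors -/
noncomputable def KE (e f : ℕ) (Λ H : Matrix (Fin e ⊕ Fin f) (Fin e ⊕ Fin f) ℂ) :
    Submodule ℂ ((Fin 7 → Fin e ⊕ Fin f) → ℂ) where
  carrier := {g | (∀ (σ : Equiv.Perm (Fin 7)) k, g (k ∘ σ) = g k) ∧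
    (∀ k, g k ≠ 0 → ∃ m, (k m).isLeft ∧ ∀ m', m' ≠ m → (k m').isRight) ∧
    (Tot (I := fun _ : Fin 7 => Fin e ⊕ Fin f) fun _ => Λ).mulVec g = 0 ∧
    (Tot (I := fun _ : Fin 7 => Fin e ⊕ Fin f) fun _ => H).mulVec g = 0}
  add_mem' := by
    rintro v w ⟨h1, h2, h3, h4⟩ ⟨k1, k2, k3, k4⟩
    refine ⟨fun σ q => ?_, fun q hq => ?_, ?_, ?_⟩
    · rw [Pi.add_apply, Pi.add_apply, h1, k1]
    · by_cases hv : v q = 0
      · exact k2 q (by intro hw; exact hq (by simp [hv, hw]))
      · exact h2 q hv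
    · rw [mulVec_add, h3, k3, add_zero]
    · rw [mulVec_add, h4, k4, add_zero]
  zero_mem' := ⟨fun _ _ => rfl, fun q hq => absurd rfl hq, mulVec_zero _, mulVec_zero _⟩
  smul_mem' := by
    rintro a v ⟨h1, h2, h3, h4⟩
    refine ⟨fun σ q => ?_, fun q hq => h2 q (fun hv => hq (by simp [hv])), ?_, ?_⟩
    · rw [Pi.smul_apply, Pi.smul_apply, h1]
    · rw [mulVec_smul, h3, smul_zero]
    · rw [mulVec_smul, h4, smul_zero]

section tensors

variable {e f : ℕ}

/-- the right part of an index -/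
private def rt : Fin e ⊕ Fin f → Multiset (Fin f)
  | Sum.inl _ => 0
  | Sum.inr j => {j}

private def RR (k : Fin 7 → Fin e ⊕ Fin f) : Multiset (Fin f) := ∑ m, rt (k m)

private noncomputable def hx (h : Fin e × Sym (Fin f) 6 → ℂ) (i : Fin e)
    (M : Multiset (Fin f)) : ℂ :=
  if hc : Multiset.card M = 6 then h (i, ⟨M, hc⟩) else 0

private theorem hx_zero (h : Fin e × Sym (Fin f) 6 → ℂ) (i : Fin e) {M : Multiset (Fin f)}
    (hM : Multiset.card M ≠ 6) : hx h i M = 0 := dif_neg hM

private theorem hx_add (h h' : Fin e × Sym (Fin f) 6 → ℂ) (i : Fin e) (M : Multiset (Fin f)) :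
    hx (h + h') i M = hx h i M + hx h' i M := by
  unfold hx
  split_ifs
  · rfl
  · rw [add_zero]

private theorem hx_smul (r : ℂ) (h : Fin e × Sym (Fin f) 6 → ℂ) (i : Fin e)
    (M : Multiset (Fin f)) : hx (r • h) i M = r * hx h i M := by
  unfold hx
  split_ifs
  · rfl
  · rw [mul_zero]

private noncomputable def gh (h : Fin e × Sym (Fin f) 6 → ℂ) (k : Fin 7 → Fin e ⊕ Fin f) : ℂ :=
  ∑ m, Sum.elim (fun i => hx h i (RR k)) (fun _ => 0) (k m)

private noncomputable def Phi (e f : ℕ) :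
    (Fin e × Sym (Fin f) 6 → ℂ) →ₗ[ℂ] ((Fin 7 → Fin e ⊕ Fin f) → ℂ) where
  toFun h := gh h
  map_add' h h' := by
    funext k
    change gh (h + h') k = gh h k + gh h' k
    unfold gh
    rw [← Finset.sum_add_distrib]
    refine Finset.sum_congr rfl fun m _ => ?_
    rcases k m with i | j
    · exact hx_add h h' i _
    · exact (add_zero (0 : ℂ)).symm
  map_smul' r h := by
    funext k
    change gh (r • h) k = r * gh h k
    unfold gh
    rw [Finset.mul_sum]
    refine Finset.sum_congr rfl fun m _ => ?_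
    rcases k m with i | j
    · exact hx_smul r h i _
    · exact (mul_zero r).symm

private noncomputable def Psi (Λ : Matrix (Fin e ⊕ Fin f) (Fin e ⊕ Fin f) ℂ) :
    (Fin e × Sym (Fin f) 6 → ℂ) →ₗ[ℂ] (Sym (Fin f) 7 → ℂ) where
  toFun h s := (s.1.map fun j => ∑ i, Λ (Sum.inr j) (Sum.inl i) * hx h i (s.1.erase j)).sum
  map_add' h h' := by
    funext s
    change (s.1.map fun j => ∑ i, Λ (Sum.inr j) (Sum.inl i) * hx (h + h') i (s.1.erase j)).sum =
      (s.1.map fun j => ∑ i, Λ (Sum.inr j) (Sum.inl i) * hx h i (s.1.erase j)).sum +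
      (s.1.map fun j => ∑ i, Λ (Sum.inr j) (Sum.inl i) * hx h' i (s.1.erase j)).sum
    rw [← Multiset.sum_map_add]
    congr 1
    refine Multiset.map_congr rfl fun j _ => ?_
    rw [← Finset.sum_add_distrib]
    refine Finset.sum_congr rfl fun i _ => ?_
    rw [hx_add, mul_add]
  map_smul' r h := by
    funext s
    change (s.1.map fun j => ∑ i, Λ (Sum.inr j) (Sum.inl i) * hx (r • h) i (s.1.erase j)).sum =
      r * (s.1.map fun j => ∑ i, Λ (Sum.inr j) (Sum.inl i) * hx h i (s.1.erase j)).sum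
    rw [← Multiset.sum_map_mul_left]
    congr 1
    refine Multiset.map_congr rfl fun j _ => ?_
    rw [Finset.mul_sum]
    refine Finset.sum_congr rfl fun i _ => ?_
    rw [hx_smul]
    ring

private theorem sum_sing {n : ℕ} (J : Fin n → Fin f) :
    ∑ m, ({J m} : Multiset (Fin f)) = Finset.univ.val.map J := by
  have h1 := Multiset.sum_map_singleton (Finset.univ.val.map J)
  rw [Multiset.map_map] at h1
  exact h1

private theorem sum_map {n : ℕ} (J : Fin n → Fin f) (G : Fin f → ℂ) {M : Multiset (Fin f)}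
    (hM : M = Finset.univ.val.map J) : ∑ m, G (J m) = (M.map G).sum := by
  subst hM
  rw [Multiset.map_map]
  rfl

private theorem ex_ofFn (n : ℕ) (l : List (Fin f)) (hl : l.length = n) :
    ∃ J : Fin n → Fin f, List.ofFn J = l := by
  subst hl
  exact ⟨l.get, List.ofFn_get l⟩

private theorem card_RR (k : Fin 7 → Fin e ⊕ Fin f) :
    Multiset.card (RR k) = (Finset.univ.filter fun m => (k m).isRight = true).card := by
  unfold RR
  rw [Multiset.card_sum, Finset.card_filter]
  refine Finset.sum_congr rfl fun m _ => ?_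
  rcases k m with i | j
  · simp [rt]
  · simp [rt]

private theorem card_two (k : Fin 7 → Fin e ⊕ Fin f) {m m' : Fin 7} (hm : (k m).isLeft = true)
    (hm' : (k m').isLeft = true) (h : m ≠ m') : Multiset.card (RR k) ≠ 6 := by
  rw [card_RR]
  have h1 : (Finset.univ.filter fun m => (k m).isRight = true) ⊆
      (Finset.univ.erase m).erase m' := by
    intro x hx
    rw [Finset.mem_filter] at hx
    refine Finset.mem_erase.2 ⟨?_, Finset.mem_erase.2 ⟨?_, Finset.mem_univ _⟩⟩
    · rintro rfl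
      rw [Sum.isLeft_iff] at hm'
      obtain ⟨y, hy⟩ := hm'
      rw [hy] at hx
      exact absurd hx.2 (by simp)
    · rintro rfl
      rw [Sum.isLeft_iff] at hm
      obtain ⟨y, hy⟩ := hm
      rw [hy] at hx
      exact absurd hx.2 (by simp)
  have h2 := Finset.card_le_card h1
  rw [Finset.card_erase_of_mem (Finset.mem_erase.2 ⟨h.symm, Finset.mem_univ _⟩),
    Finset.card_erase_of_mem (Finset.mem_univ _), Finset.card_univ, Fintype.card_fin] at h2
  omega

private theorem gh_two (h : Fin e × Sym (Fin f) 6 → ℂ) (k : Fin 7 → Fin e ⊕ Fin f) {m m' : Fin 7}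
    (hm : (k m).isLeft = true) (hm' : (k m').isLeft = true) (hne : m ≠ m') : gh h k = 0 := by
  have h1 := card_two k hm hm' hne
  refine Finset.sum_eq_zero fun x _ => ?_
  rcases k x with i | j
  · exact hx_zero h i h1
  · rfl

private theorem gh_one (h : Fin e × Sym (Fin f) 6 → ℂ) (k : Fin 7 → Fin e ⊕ Fin f) {m : Fin 7}
    {i : Fin e} (hm : k m = Sum.inl i) (hr : ∀ m', m' ≠ m → (k m').isRight = true) :
    gh h k = hx h i (RR k) := by
  unfold gh
  rw [Finset.sum_eq_single m]
  · rw [hm]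
    rfl
  · intro m' _ hm'
    have h1 := hr m' hm'
    rw [Sum.isRight_iff] at h1
    obtain ⟨y, hy⟩ := h1
    rw [hy]
    rfl
  · intro hc
    exact absurd (Finset.mem_univ m) hc

private theorem at_mulVec (z : Matrix (Fin e ⊕ Fin f) (Fin e ⊕ Fin f) ℂ)
    (g : (Fin 7 → Fin e ⊕ Fin f) → ℂ) (m : Fin 7) (k : Fin 7 → Fin e ⊕ Fin f) :
    ((At (I := fun _ : Fin 7 => Fin e ⊕ Fin f) m z).mulVec g) k =
      ∑ x, z (k m) x * g (Function.update k m x) := by
  classical
  have h1 : ((At (I := fun _ : Fin 7 => Fin e ⊕ Fin f) m z).mulVec g) k =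
      ∑ q ∈ Finset.univ.image (Function.update k m), z (k m) (q m) * g q := by
    change ∑ q, At (I := fun _ : Fin 7 => Fin e ⊕ Fin f) m z k q * g q = _
    have h2 : ∑ q ∈ Finset.univ.image (Function.update k m),
        At (I := fun _ : Fin 7 => Fin e ⊕ Fin f) m z k q * g q =
        ∑ q, At (I := fun _ : Fin 7 => Fin e ⊕ Fin f) m z k q * g q := by
      refine Finset.sum_subset (Finset.subset_univ _) fun q _ hq => ?_
      unfold At
      rw [if_neg, zero_mul]
      intro h2
      apply hq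
      rw [Finset.mem_image]
      refine ⟨q m, Finset.mem_univ _, ?_⟩
      funext m'
      by_cases h3 : m' = m
      · subst h3
        rw [Function.update_self]
      · rw [Function.update_of_ne h3, h2 m' h3]
    rw [← h2]
    refine Finset.sum_congr rfl fun q hq => ?_
    rw [Finset.mem_image] at hq
    obtain ⟨x, -, rfl⟩ := hq
    unfold At
    rw [if_pos]
    intro m' hm'
    rw [Function.update_of_ne hm']
  rw [h1, Finset.sum_image fun x _ y _ hxy => Function.update_injective k m hxy]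
  refine Finset.sum_congr rfl fun x _ => ?_
  rw [Function.update_self]

private theorem tot_mulVec (z : Matrix (Fin e ⊕ Fin f) (Fin e ⊕ Fin f) ℂ)
    (g : (Fin 7 → Fin e ⊕ Fin f) → ℂ) (k : Fin 7 → Fin e ⊕ Fin f) :
    ((Tot (I := fun _ : Fin 7 => Fin e ⊕ Fin f) fun _ => z).mulVec g) k =
      ∑ m, ∑ x, z (k m) x * g (Function.update k m x) := by
  unfold Tot
  rw [Matrix.sum_mulVec, Finset.sum_apply]
  exact Finset.sum_congr rfl fun m _ => at_mulVec z g m k

private theorem tot_gh (Λ : Matrix (Fin e ⊕ Fin f) (Fin e ⊕ Fin f) ℂ)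
    (hΛ : ∀ i k, Λ i k ≠ 0 → i.isRight ∧ k.isLeft) (h : Fin e × Sym (Fin f) 6 → ℂ)
    (hh : Psi Λ h = 0) :
    (Tot (I := fun _ : Fin 7 => Fin e ⊕ Fin f) fun _ => Λ).mulVec (gh h) = 0 := by
  funext k
  rw [tot_mulVec, Pi.zero_apply]
  by_cases hl : ∃ m0, (k m0).isLeft = true
  · obtain ⟨m0, hm0⟩ := hl
    refine Finset.sum_eq_zero fun m _ => Finset.sum_eq_zero fun x _ => ?_
    by_cases hz : Λ (k m) x = 0
    · rw [hz, zero_mul]
    · obtain ⟨h1, h2⟩ := hΛ _ _ hz
      have hne : m ≠ m0 := by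
        rintro rfl
        rw [Sum.isLeft_iff] at hm0
        obtain ⟨y, hy⟩ := hm0
        rw [hy] at h1
        exact absurd h1 (by simp)
      rw [gh_two h (Function.update k m x) (m := m) (m' := m0)
        (by rw [Function.update_self]; exact h2)
        (by rw [Function.update_of_ne hne.symm]; exact hm0) hne, mul_zero]
  · push Not at hl
    have hr : ∀ m, ∃ j, k m = Sum.inr j := by
      intro m
      have h1 := hl m
      rcases hk : k m with i | j
      · rw [hk] at h1
        exact absurd rfl h1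
      · exact ⟨j, rfl⟩
    choose J hJ using hr
    have hRR : RR k = Finset.univ.val.map J := by
      unfold RR
      have h1 : ∀ m, rt (k m) = {J m} := by
        intro m
        rw [hJ]
        rfl
      rw [Finset.sum_congr rfl fun m _ => h1 m]
      exact sum_sing J
    have hcard : Multiset.card (RR k) = 7 := by
      rw [hRR, Multiset.card_map, Finset.card_val, Finset.card_univ, Fintype.card_fin]
    have herase : ∀ (m : Fin 7) (i : Fin e), RR (Function.update k m (Sum.inl i)) =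
        (RR k).erase (J m) := by
      intro m i
      have h1 : RR k = J m ::ₘ RR (Function.update k m (Sum.inl i)) := by
        unfold RR
        rw [← Finset.add_sum_erase Finset.univ (fun m => rt (k m)) (Finset.mem_univ m),
          ← Finset.add_sum_erase Finset.univ
            (fun m' => rt (Function.update k m (Sum.inl i) m')) (Finset.mem_univ m)]
        have h2 : ∑ x ∈ Finset.univ.erase m, rt (Function.update k m (Sum.inl i) x) =
            ∑ x ∈ Finset.univ.erase m, rt (k x) := by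
          refine Finset.sum_congr rfl fun x hx => ?_
          rw [Function.update_of_ne (Finset.ne_of_mem_erase hx)]
        rw [h2, Function.update_self, hJ]
        change {J m} + _ = J m ::ₘ (0 + _)
        rw [zero_add, Multiset.singleton_add]
      rw [h1, Multiset.erase_cons_head]
    have hterm : ∀ m, ∑ x, Λ (k m) x * gh h (Function.update k m x) =
        ∑ i, Λ (Sum.inr (J m)) (Sum.inl i) * hx h i ((RR k).erase (J m)) := by
      intro m
      rw [Fintype.sum_sum_type]
      have h0 : ∑ j : Fin f, Λ (k m) (Sum.inr j) * gh h (Function.update k m (Sum.inr j)) = 0 := by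
        refine Finset.sum_eq_zero fun j _ => ?_
        have hz : Λ (k m) (Sum.inr j) = 0 := by
          by_contra hz
          exact absurd (hΛ _ _ hz).2 (by simp)
        rw [hz, zero_mul]
      rw [h0, add_zero]
      refine Finset.sum_congr rfl fun i _ => ?_
      rw [gh_one h (Function.update k m (Sum.inl i)) (m := m) (i := i) (Function.update_self ..)
        (fun m' hm' => by rw [Function.update_of_ne hm', hJ]; rfl), herase, hJ]
    rw [Finset.sum_congr rfl fun m _ => hterm m]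
    have h3 := congrFun hh ⟨RR k, hcard⟩
    change ((RR k).map fun j => ∑ i, Λ (Sum.inr j) (Sum.inl i) *
      hx h i ((RR k).erase j)).sum = 0 at h3
    rw [← h3]
    exact sum_map J (fun j => ∑ i, Λ (Sum.inr j) (Sum.inl i) * hx h i ((RR k).erase j)) hRR

private theorem gh_mem (Λ H : Matrix (Fin e ⊕ Fin f) (Fin e ⊕ Fin f) ℂ)
    (hΛ : ∀ i k, Λ i k ≠ 0 → i.isRight ∧ k.isLeft) (hH : ∀ i k, H i k ≠ 0 → i.isRight ∧ k.isLeft)
    (h : Fin e × Sym (Fin f) 6 → ℂ) (h1 : Psi Λ h = 0) (h2 : Psi H h = 0) :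
    gh h ∈ KE e f Λ H := by
  refine ⟨?_, ?_, tot_gh Λ hΛ h h1, tot_gh H hH h h2⟩
  · intro σ k
    have h3 : RR (k ∘ σ) = RR k := Equiv.sum_comp σ fun m => rt (k m)
    unfold gh
    rw [h3]
    exact Equiv.sum_comp σ fun m => Sum.elim (fun i => hx h i (RR k)) (fun _ => 0) (k m)
  · intro k hk
    obtain ⟨m, -, hm⟩ := Finset.exists_ne_zero_of_sum_ne_zero hk
    have hm1 : (k m).isLeft = true := by
      rcases hkm : k m with i | j
      · rfl
      · rw [hkm] at hm
        exact absurd rfl hm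
    refine ⟨m, hm1, fun m' hm' => ?_⟩
    by_contra hcon
    have hm2 : (k m').isLeft = true := by
      rcases hkm : k m' with i | j
      · rfl
      · rw [hkm] at hcon
        exact absurd rfl hcon
    exact hk (gh_two h k hm1 hm2 hm'.symm)

private theorem Phi_inj : Function.Injective (Phi e f) := by
  rw [← LinearMap.ker_eq_bot, LinearMap.ker_eq_bot']
  intro h hh
  funext ⟨i, s⟩
  obtain ⟨J, hJ⟩ : ∃ J : Fin 6 → Fin f, Finset.univ.val.map J = s.1 := by
    obtain ⟨M, hM⟩ := s
    obtain ⟨l, rfl⟩ := Quot.exists_rep M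
    have hl : l.length = 6 := hM
    obtain ⟨J, hJ⟩ := ex_ofFn 6 l hl
    refine ⟨J, ?_⟩
    rw [Fin.univ_val_map, hJ]
    rfl
  obtain ⟨k, hk⟩ : ∃ k : Fin 7 → Fin e ⊕ Fin f, k = Fin.cons (Sum.inl i) fun n => Sum.inr (J n) :=
    ⟨_, rfl⟩
  have h0 : k 0 = Sum.inl i := by rw [hk]; rfl
  have hs : ∀ n : Fin 6, k n.succ = Sum.inr (J n) := by
    intro n
    rw [hk]
    rfl
  have hRR : RR k = s.1 := by
    unfold RR
    rw [Fin.sum_univ_succ, h0]
    have h1 : ∀ n : Fin 6, rt (k n.succ) = {J n} := by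
      intro n
      rw [hs]
      rfl
    rw [Finset.sum_congr rfl fun n _ => h1 n]
    rw [sum_sing J, hJ]
    exact zero_add _
  have h1 := gh_one h k h0 (fun m' hm' => by
    obtain ⟨n, rfl⟩ := Fin.exists_succ_eq.2 hm'
    rw [hs]
    rfl)
  have h2 : gh h k = 0 := congrFun hh k
  rw [h2, hRR] at h1
  unfold hx at h1
  rw [dif_pos s.2] at h1
  exact h1.symm

end tensors

theorem pi2_dim (e f : ℕ) (Λ H : Matrix (Fin e ⊕ Fin f) (Fin e ⊕ Fin f) ℂ)
    (hΛ : ∀ i k, Λ i k ≠ 0 → i.isRight ∧ k.isLeft) (hH : ∀ i k, H i k ≠ 0 → i.isRight ∧ k.isLeft)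
    (h1 : e ≤ 2 * f) (h2 : f ≤ 2 * e) (h3 : 12 ≤ e) :
    e ^ 7 ≤ 161280 * Module.finrank ℂ ↥(KE e f Λ H) := by
  obtain ⟨c, hc⟩ : ∃ c, c = (f + 5).choose 6 := ⟨_, rfl⟩
  obtain ⟨d, hd⟩ : ∃ d, d = (f + 6).choose 7 := ⟨_, rfl⟩
  have hc6 : Fintype.card (Sym (Fin f) 6) = c := by
    rw [Sym.card_sym_eq_choose, Fintype.card_fin, hc]
    rfl
  have hc7 : Fintype.card (Sym (Fin f) 7) = d := by
    rw [Sym.card_sym_eq_choose, Fintype.card_fin, hd]
    rfl
  have hrn := LinearMap.finrank_range_add_finrank_ker ((Psi Λ).prod (Psi H))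
  have hV : Module.finrank ℂ (Fin e × Sym (Fin f) 6 → ℂ) = e * c := by
    rw [Module.finrank_fintype_fun_eq_card, Fintype.card_prod, Fintype.card_fin, hc6]
  have hW : Module.finrank ℂ (LinearMap.range ((Psi Λ).prod (Psi H))) ≤ 2 * d := by
    refine (Submodule.finrank_le _).trans ?_
    rw [Module.finrank_prod, Module.finrank_fintype_fun_eq_card, hc7]
    omega
  have hK : Module.finrank ℂ (LinearMap.ker ((Psi Λ).prod (Psi H))) ≤
      Module.finrank ℂ ↥(KE e f Λ H) := by
    have h4 : (LinearMap.ker ((Psi Λ).prod (Psi H))).map (Phi e f) ≤ KE e f Λ H := by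
      rintro _ ⟨h, hh, rfl⟩
      have h5 : ((Psi Λ).prod (Psi H)) h = 0 := hh
      exact gh_mem Λ H hΛ hH h (congrArg Prod.fst h5) (congrArg Prod.snd h5)
    have h5 := Submodule.finrank_mono h4
    rw [← (Submodule.equivMapOfInjective (Phi e f) Phi_inj
      (LinearMap.ker ((Psi Λ).prod (Psi H)))).finrank_eq] at h5
    exact h5
  obtain ⟨D, hD⟩ : ∃ D, D = Module.finrank ℂ ↥(KE e f Λ H) := ⟨_, rfl⟩
  rw [← hD] at hK ⊢
  rw [hV] at hrn
  have h4 : e * c ≤ 2 * d + D := by omega
  have h5 : (f + 6) * c = 7 * d := by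
    have h6 := Nat.add_one_mul_choose_eq (f + 5) 6
    rw [hc, hd, mul_comm 7]
    exact h6
  have h6 : f ^ 6 ≤ 720 * c := by
    have h7 := Nat.pow_sub_le_descFactorial (f + 5) 6
    rw [Nat.descFactorial_eq_factorial_mul_choose, ← hc] at h7
    exact h7
  have h7 : 2 * (e * c) ≤ 7 * D := by
    have h8 : 7 * (e * c) ≤ 2 * ((f + 6) * c) + 7 * D := by omega
    have h9 : 2 * ((f + 6) * c) + 2 * (e * c) ≤ 7 * (e * c) := by
      have h10 : (2 * (f + 6) + 2 * e) * c ≤ (7 * e) * c := Nat.mul_le_mul_right c (by omega)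
      calc 2 * ((f + 6) * c) + 2 * (e * c) = (2 * (f + 6) + 2 * e) * c := by ring
        _ ≤ (7 * e) * c := h10
        _ = 7 * (e * c) := by ring
    omega
  have h8 : e ^ 6 ≤ 64 * f ^ 6 := by
    calc e ^ 6 ≤ (2 * f) ^ 6 := Nat.pow_le_pow_left h1 6
      _ = 64 * f ^ 6 := by rw [mul_pow]; norm_num
  calc e ^ 7 = e * e ^ 6 := by ring
    _ ≤ e * (64 * f ^ 6) := Nat.mul_le_mul_left _ h8
    _ ≤ e * (64 * (720 * c)) := Nat.mul_le_mul_left _ (Nat.mul_le_mul_left _ h6)
    _ = 23040 * (2 * (e * c)) := by ring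
    _ ≤ 23040 * (7 * D) := Nat.mul_le_mul_left _ h7
    _ = 161280 * D := by ring

end Pool.Agent.INV5
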