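import Pool.Agent.INV5.PI0
import Pool.Agent.INV5.PI2

/-!
# INV5, module PI: symmetric tensors from the second socle

Let `F = ℓ E + y E ⊆ S μ ε`, `f = dim F`, `e = dim E`; `f ≤ 2 e`, and `e ≤ 2 f` since `v ↦ (ℓ v, y v)` is injective on
`E`. `E ∩ F = 0` (signs `-ε` and `ε`, `ε ≠ 0`). Let `x` be a basis of `E` together with a basis of `F` (index set
`Fin e ⊕ Fin f`), linearly independent, with `ℓ x_(inl i) = ∑_j Λ (inr j) (inl i) x_(inr j)`, `ℓ x_(inr j) = 0`,
and the same for `y` with `H`. `xg x` maps `KE e f Λ H` injectively into `TH μ (-ε)` (`xg_inj`, `xg_symm`,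
`xg_supp`, `xg_T7`, `xg_K7`: the sign of a tuple with one index in `E` is `(-ε) ε ^ 6 = -ε`). Then `pi2_dim`.
-/

namespace Pool.Agent.INV5.JD

open Matrix

theorem pi3 (D : JD) (μ : Lam) (ε : ℂ) (hε : ε = 1 ∨ ε = -1) (E : Submodule ℂ (Idx D.b → ℂ))
    (h1 : ∀ v ∈ E, (∀ i, v i ≠ 0 → D.χ i.1 = μ) ∧ D.t.mulVec v = (-ε) • v ∧
      (Sh D.b).mulVec v ∈ D.S μ ε ∧ D.y.mulVec v ∈ D.S μ ε)
    (h2 : ∀ v ∈ E, (Sh D.b).mulVec v = 0 → D.y.mulVec v = 0 → v = 0)
    (h3 : 12 ≤ Module.finrank ℂ ↥E) :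
    Module.finrank ℂ ↥E ^ 7 ≤ 161280 * Module.finrank ℂ ↥(D.TH μ (-ε)) := by
  classical
  obtain ⟨F, hF⟩ : ∃ F : Submodule ℂ (Idx D.b → ℂ),
    F = E.map (Sh D.b).mulVecLin ⊔ E.map D.y.mulVecLin := ⟨_, rfl⟩
  obtain ⟨e, he⟩ : ∃ e, e = Module.finrank ℂ ↥E := ⟨_, rfl⟩
  obtain ⟨f, hf⟩ : ∃ f, f = Module.finrank ℂ ↥F := ⟨_, rfl⟩
  have hε0 : ε ≠ 0 := by
    rcases hε with h | h <;> rw [h] <;> norm_num
  have hεε : ε * ε = 1 := by
    rcases hε with h | h <;> rw [h] <;> norm_num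
  have hFS : F ≤ D.S μ ε := by
    rw [hF, sup_le_iff]
    constructor
    · rintro _ ⟨v, hv, rfl⟩
      exact (h1 v hv).2.2.1
    · rintro _ ⟨v, hv, rfl⟩
      exact (h1 v hv).2.2.2
  have hfe : f ≤ 2 * e := by
    have k1 := Submodule.finrank_add_le_finrank_add_finrank (E.map (Sh D.b).mulVecLin)
      (E.map D.y.mulVecLin)
    have k2 := Submodule.finrank_map_le (Sh D.b).mulVecLin E
    have k3 := Submodule.finrank_map_le D.y.mulVecLin E
    rw [← hF, ← hf] at k1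
    omega
  have hSh : ∀ v : E, (Sh D.b).mulVec v.1 ∈ F := fun v => by
    rw [hF]
    exact Submodule.mem_sup_left ⟨v.1, v.2, rfl⟩
  have hYy : ∀ v : E, D.y.mulVec v.1 ∈ F := fun v => by
    rw [hF]
    exact Submodule.mem_sup_right ⟨v.1, v.2, rfl⟩
  have hef : e ≤ 2 * f := by
    let A1 : E →ₗ[ℂ] F := LinearMap.codRestrict F ((Sh D.b).mulVecLin ∘ₗ E.subtype) hSh
    let A2 : E →ₗ[ℂ] F := LinearMap.codRestrict F (D.y.mulVecLin ∘ₗ E.subtype) hYy
    have hinj : Function.Injective (A1.prod A2) := by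
      rw [← LinearMap.ker_eq_bot, LinearMap.ker_eq_bot']
      intro v hv
      have k1 : A1 v = 0 := congrArg Prod.fst hv
      have k2 : A2 v = 0 := congrArg Prod.snd hv
      have k3 : (Sh D.b).mulVec v.1 = 0 := congrArg Subtype.val k1
      have k4 : D.y.mulVec v.1 = 0 := congrArg Subtype.val k2
      exact Subtype.ext (h2 v.1 v.2 k3 k4)
    have k := LinearMap.finrank_le_finrank_of_injective hinj
    rw [Module.finrank_prod, ← he, ← hf] at k
    omega
  have hdis : Disjoint E F := by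
    rw [Submodule.disjoint_def]
    intro v hv hv'
    have k1 := (h1 v hv).2.1
    have k2 := (hFS hv').2.2.2
    rw [k1] at k2
    have k3 : (2 * ε) • v = 0 := by
      have k4 : (2 * ε) • v = ε • v - (-ε) • v := by
        rw [← sub_smul]
        congr 1
        ring
      rw [k4, k2, sub_self]
    exact (smul_eq_zero.1 k3).resolve_left (mul_ne_zero two_ne_zero hε0)
  obtain ⟨bE⟩ : Nonempty (Module.Basis (Fin e) ℂ E) := ⟨he ▸ Module.finBasis ℂ E⟩
  obtain ⟨bF⟩ : Nonempty (Module.Basis (Fin f) ℂ F) := ⟨hf ▸ Module.finBasis ℂ F⟩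
  obtain ⟨x, hx⟩ : ∃ x : Fin e ⊕ Fin f → Idx D.b → ℂ,
    x = Sum.elim (fun i => ((bE i : E) : Idx D.b → ℂ)) fun j => ((bF j : F) : Idx D.b → ℂ) := ⟨_, rfl⟩
  have hxl : ∀ i, x (Sum.inl i) = (bE i).1 := fun i => by rw [hx]; rfl
  have hxr : ∀ j, x (Sum.inr j) = (bF j).1 := fun j => by rw [hx]; rfl
  have hli : LinearIndependent ℂ x := by
    rw [hx]
    apply LinearIndependent.sum_type
    · exact bE.linearIndependent.map' E.subtype (Submodule.ker_subtype E)
    · exact bF.linearIndependent.map' F.subtype (Submodule.ker_subtype F)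
    · refine hdis.mono ?_ ?_
      · rw [Submodule.span_le]
        rintro _ ⟨i, rfl⟩
        exact (bE i).2
      · rw [Submodule.span_le]
        rintro _ ⟨j, rfl⟩
        exact (bF j).2
  -- the matrices
  have key : ∀ z : Matrix (Idx D.b) (Idx D.b) ℂ, (∀ v : E, z.mulVec v.1 ∈ F) →
      (∀ v ∈ D.S μ ε, z.mulVec v = 0) → ∃ Λ : Matrix (Fin e ⊕ Fin f) (Fin e ⊕ Fin f) ℂ,
        (∀ i k, Λ i k ≠ 0 → i.isRight ∧ k.isLeft) ∧
        ∀ k, z.mulVec (x k) = ∑ j, Λ j k • x j := by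
    intro z hz1 hz2
    refine ⟨fun j k => Sum.elim (fun _ => 0) (fun j' => Sum.elim
      (fun i => bF.repr ⟨z.mulVec (bE i).1, hz1 (bE i)⟩ j') (fun _ => 0) k) j, ?_, ?_⟩
    · rintro (i | j) (k | k) h
      · exact absurd rfl h
      · exact absurd rfl h
      · exact ⟨rfl, rfl⟩
      · exact absurd rfl h
    · rintro (k | k)
      · rw [hxl, Fintype.sum_sum_type]
        simp only [Sum.elim_inl, Sum.elim_inr, zero_smul, Finset.sum_const_zero, zero_add, hxr]
        have k1 := bF.sum_repr ⟨z.mulVec (bE k).1, hz1 (bE k)⟩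
        have k2 := congrArg Subtype.val k1
        rw [AddSubmonoidClass.coe_finset_sum] at k2
        exact k2.symm
      · rw [hxr, Fintype.sum_sum_type]
        simp only [Sum.elim_inl, Sum.elim_inr, zero_smul, Finset.sum_const_zero, zero_add]
        exact hz2 _ (hFS (bF k).2)
  obtain ⟨Λ, hΛ1, hΛ2⟩ := key (Sh D.b) hSh (fun v hv => hv.2.1)
  obtain ⟨H, hH1, hH2⟩ := key D.y hYy (fun v hv => hv.2.2.1)
  have hsupp : ∀ k i, x k i ≠ 0 → D.χ i.1 = μ := by
    rintro (k | k) i hi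
    · rw [hxl] at hi
      exact (h1 _ (bE k).2).1 i hi
    · rw [hxr] at hi
      exact (hFS (bF k).2).1 i hi
  obtain ⟨d, hd⟩ : ∃ d : Fin e ⊕ Fin f → ℂ, d = Sum.elim (fun _ => -ε) fun _ => ε := ⟨_, rfl⟩
  have hdt : ∀ k, D.t.mulVec (x k) = d k • x k := by
    rintro (k | k)
    · rw [hxl, hd]
      exact (h1 _ (bE k).2).2.1
    · rw [hxr, hd]
      exact (hFS (bF k).2).2.2.2
  have hprod : ∀ k : Fin 7 → Fin e ⊕ Fin f, (∃ m, (k m).isLeft ∧ ∀ m', m' ≠ m → (k m').isRight) →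
      ∏ m, d (k m) = -ε := by
    rintro k ⟨m, hm, hm'⟩
    rw [← Finset.mul_prod_erase Finset.univ _ (Finset.mem_univ m)]
    have k1 : d (k m) = -ε := by
      rw [hd]
      rcases hkm : k m with i | j
      · rfl
      · rw [hkm] at hm
        exact absurd hm (by simp)
    have k2 : ∏ m' ∈ Finset.univ.erase m, d (k m') = ∏ _m' ∈ Finset.univ.erase m, ε := by
      refine Finset.prod_congr rfl fun m' hmm => ?_
      have k3 := hm' m' (Finset.ne_of_mem_erase hmm)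
      rw [hd]
      rcases hkm : k m' with i | j
      · rw [hkm] at k3
        exact absurd k3 (by simp)
      · rfl
    rw [k1, k2, Finset.prod_const, Finset.card_erase_of_mem (Finset.mem_univ m), Finset.card_univ,
      Fintype.card_fin]
    have k4 : ε ^ (7 - 1) = 1 := by
      have : ε ^ (7 - 1) = (ε * ε) ^ 3 := by ring
      rw [this, hεε, one_pow]
    rw [k4, mul_one]
  have hmem : ∀ g : KE e f Λ H, D.xg x g.1 ∈ D.TH μ (-ε) := by
    rintro ⟨g, g1, g2, g3, g4⟩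
    refine ⟨fun q hq m => D.xg_supp x μ hsupp g q hq m, D.xg_symm x g g1, ?_, ?_, ?_⟩
    · rw [D.xg_T7 x _ Λ hΛ2, g3, map_zero]
    · rw [D.xg_T7 x _ H hH2, g4, map_zero]
    · rw [D.xg_K7 x _ d hdt, ← map_smul]
      congr 1
      funext k
      rw [Pi.smul_apply, smul_eq_mul]
      change (∏ m, d (k m)) * g k = -ε * g k
      by_cases hk : g k = 0
      · rw [hk, mul_zero, mul_zero]
      · rw [hprod k (g2 k hk)]
  have hdim : Module.finrank ℂ ↥(KE e f Λ H) ≤ Module.finrank ℂ ↥(D.TH μ (-ε)) := by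
    have hinj : Function.Injective (LinearMap.codRestrict (D.TH μ (-ε))
        (D.xg x ∘ₗ (KE e f Λ H).subtype) hmem) := by
      intro g g' hg
      have k1 : D.xg x g.1 = D.xg x g'.1 := congrArg Subtype.val hg
      exact Subtype.ext (D.xg_inj x hli k1)
    exact LinearMap.finrank_le_finrank_of_injective hinj
  rw [← he] at h3 ⊢
  exact (pi2_dim e f Λ H hΛ1 hH1 hef hfe h3).trans (Nat.mul_le_mul_left _ hdim)

end Pool.Agent.INV5.JD
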