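import Pool.Agent.INV5.PI0

/-!
# INV5, module PI1: symmetric tensors from the socle

`pi1`: let `x` be a basis of `S μ ε` (index set `Fin (sg μ ε)`), with seven disjoint groups of `⌊sg/7⌋` indices.
For a choice `(i_1, ..., i_7)` of one index of each group take the symmetric function `g` with `g k = 1` if `k`
is a permutation of `(i_1, ..., i_7)` and `0` otherwise. These functions have disjoint supports, so they are
linearly independent, and so are the `xg x g` (`xg_inj`); all `x_k` are killed by `ℓ, y` (`xg_T7` with `Λ = 0`),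
and the sign is `ε ^ 7 = ε` (`xg_K7`). `pi2`: `x` = a basis of `S μ ε` together with a basis of `S μ (-ε)` (the
union is linearly independent: different eigenvalues of `t`), six groups of the first basis and one index of
the second, the sign is `ε ^ 6 (-ε) = -ε`.
-/

namespace Pool.Agent.INV5.JD

open Matrix

section aux

variable {κ : Type} (a : Fin 7 → ℕ) (ι : (Σ m, Fin (a m)) → κ)

/-- the word of a choice -/
private def wd (i : ∀ m, Fin (a m)) (m : Fin 7) : κ := ι ⟨m, i m⟩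

private theorem wd_inj (hι : Function.Injective ι) (i i' : ∀ m, Fin (a m))
    (σ : Equiv.Perm (Fin 7)) (h : wd a ι i = wd a ι i' ∘ σ) : i = i' := by
  funext m
  have h1 : (⟨m, i m⟩ : Σ m, Fin (a m)) = ⟨σ m, i' (σ m)⟩ := hι (congrFun h m)
  have hm : m = σ m := congrArg Sigma.fst h1
  rw [← hm] at h1
  exact eq_of_heq (Sigma.mk.inj h1).2

/-- the symmetric functions -/
private noncomputable def gs : ((∀ m, Fin (a m)) → ℂ) →ₗ[ℂ] ((Fin 7 → κ) → ℂ) := by
  classical
  exact
  { toFun := fun h k => ∑ i, h i * (if ∃ σ : Equiv.Perm (Fin 7), k = wd a ι i ∘ σ then 1 else 0)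
    map_add' := by
      intro h h'
      funext k
      simp only [Pi.add_apply, add_mul, Finset.sum_add_distrib]
    map_smul' := by
      intro r h
      funext k
      simp only [Pi.smul_apply, smul_eq_mul, mul_assoc, Finset.mul_sum, RingHom.id_apply] }

private theorem gs_apply (h : (∀ m, Fin (a m)) → ℂ) (k : Fin 7 → κ) [∀ i,
    Decidable (∃ σ : Equiv.Perm (Fin 7), k = wd a ι i ∘ σ)] :
    gs a ι h k = ∑ i, h i * (if ∃ σ : Equiv.Perm (Fin 7), k = wd a ι i ∘ σ then 1 else 0) := by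
  change (∑ i, h i * _) = _
  refine Finset.sum_congr rfl fun i _ => ?_
  congr

private theorem gs_wd (hι : Function.Injective ι) (h : (∀ m, Fin (a m)) → ℂ)
    (i : ∀ m, Fin (a m)) : gs a ι h (wd a ι i) = h i := by
  classical
  rw [gs_apply, Finset.sum_eq_single i]
  · rw [if_pos ⟨1, rfl⟩, mul_one]
  · intro i' _ hi
    rw [if_neg, mul_zero]
    rintro ⟨σ, hσ⟩
    exact hi (wd_inj a ι hι i i' σ hσ).symm
  · intro hi
    exact absurd (Finset.mem_univ i) hi

private theorem gs_symm (h : (∀ m, Fin (a m)) → ℂ) (τ : Equiv.Perm (Fin 7)) (k : Fin 7 → κ) :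
    gs a ι h (k ∘ τ) = gs a ι h k := by
  classical
  rw [gs_apply, gs_apply]
  refine Finset.sum_congr rfl fun i _ => ?_
  have : (∃ σ : Equiv.Perm (Fin 7), k ∘ τ = wd a ι i ∘ σ) ↔
      ∃ σ : Equiv.Perm (Fin 7), k = wd a ι i ∘ σ := by
    constructor
    · rintro ⟨σ, hσ⟩
      refine ⟨τ⁻¹.trans σ, ?_⟩
      funext m
      have := congrFun hσ (τ⁻¹ m)
      simpa using this
    · rintro ⟨σ, rfl⟩
      exact ⟨τ.trans σ, rfl⟩
  simp only [this]

private theorem gs_supp (d : κ → ℂ) (η : ℂ)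
    (hd : ∀ i : (∀ m, Fin (a m)), ∏ m, d (ι ⟨m, i m⟩) = η) (h : (∀ m, Fin (a m)) → ℂ)
    (k : Fin 7 → κ) : (∏ m, d (k m)) * gs a ι h k = η * gs a ι h k := by
  classical
  rw [gs_apply, Finset.mul_sum, Finset.mul_sum]
  refine Finset.sum_congr rfl fun i _ => ?_
  split_ifs with hk
  · obtain ⟨σ, rfl⟩ := hk
    have : ∏ m, d ((wd a ι i ∘ σ) m) = η := by
      rw [← hd i]
      exact Equiv.prod_comp σ fun m => d (wd a ι i m)
    rw [this]
  · simp

end aux

private theorem key (D : JD) {κ : Type} [Fintype κ] [DecidableEq κ] (x : κ → Idx D.b → ℂ)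
    (hx : LinearIndependent ℂ x) (μ : Lam) (d : κ → ℂ)
    (h1 : ∀ k i, x k i ≠ 0 → D.χ i.1 = μ) (h2 : ∀ k, (Sh D.b).mulVec (x k) = 0)
    (h3 : ∀ k, D.y.mulVec (x k) = 0) (h4 : ∀ k, D.t.mulVec (x k) = d k • x k)
    (a : Fin 7 → ℕ) (ι : (Σ m, Fin (a m)) → κ) (hι : Function.Injective ι) (η : ℂ)
    (hd : ∀ i : (∀ m, Fin (a m)), ∏ m, d (ι ⟨m, i m⟩) = η) :
    ∏ m, a m ≤ Module.finrank ℂ ↥(D.TH μ η) := by
  classical
  have hT : ∀ z : Matrix (Idx D.b) (Idx D.b) ℂ, (∀ k, z.mulVec (x k) = 0) → ∀ g,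
      (D.T7 z).mulVec (D.xg x g) = 0 := by
    intro z hz g
    have h0 : (Tot (I := fun _ : Fin 7 => κ) fun _ => (0 : Matrix κ κ ℂ)) = 0 := by
      unfold Tot
      exact Finset.sum_eq_zero fun m _ => At_zero m
    rw [xg_T7 D x z 0 (fun k => by simp [hz k]) g, h0, zero_mulVec, map_zero]
  let Φ : ((∀ m, Fin (a m)) → ℂ) →ₗ[ℂ] ↥(D.TH μ η) :=
    LinearMap.codRestrict (D.TH μ η) ((D.xg x).comp (gs a ι)) (by
      intro h
      refine ⟨?_, ?_, ?_, ?_, ?_⟩
      · intro q hq m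
        exact D.xg_supp x μ h1 _ q hq m
      · intro σ q
        exact D.xg_symm x _ (fun τ k => gs_symm a ι h τ k) σ q
      · exact hT _ h2 _
      · exact hT _ h3 _
      · rw [LinearMap.comp_apply, xg_K7 D x D.t d h4, ← map_smul]
        congr 1
        funext k
        rw [Pi.smul_apply, smul_eq_mul]
        exact gs_supp a ι d η hd h k)
  have hΦ : Function.Injective Φ := by
    intro h h' hh
    have h5 : D.xg x (gs a ι h) = D.xg x (gs a ι h') := congrArg Subtype.val hh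
    have h6 := D.xg_inj x hx h5
    funext i
    rw [← gs_wd a ι hι h i, h6, gs_wd a ι hι h' i]
  have h7 := LinearMap.finrank_le_finrank_of_injective hΦ
  rw [Module.finrank_fintype_fun_eq_card, Fintype.card_pi] at h7
  simpa using h7

/-- a basis of the common kernel -/
private noncomputable def bs (D : JD) (μ : Lam) (ε : ℂ) (k : Fin (D.sg μ ε)) : Idx D.b → ℂ :=
  ((Module.finBasis ℂ ↥(D.S μ ε)) k : Idx D.b → ℂ)

private theorem bs_mem (D : JD) (μ : Lam) (ε : ℂ) (k : Fin (D.sg μ ε)) : bs D μ ε k ∈ D.S μ ε :=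
  ((Module.finBasis ℂ ↥(D.S μ ε)) k).2

private theorem bs_li (D : JD) (μ : Lam) (ε : ℂ) : LinearIndependent ℂ (bs D μ ε) :=
  (Module.finBasis ℂ ↥(D.S μ ε)).linearIndependent.map' (D.S μ ε).subtype
    (Submodule.ker_subtype _)

theorem pi1 (D : JD) (μ : Lam) (ε : ℂ) (hε : ε = 1 ∨ ε = -1) :
    (D.sg μ ε / 7) ^ 7 ≤ Module.finrank ℂ ↥(D.TH μ ε) := by
  classical
  set q := D.sg μ ε / 7 with hq
  have hq7 : 7 * q ≤ D.sg μ ε := Nat.mul_div_le _ _
  have hlt : ∀ (m : Fin 7) (i : Fin q), m.val * q + i.val < D.sg μ ε := by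
    intro m i
    have h1 : (m.val + 1) * q ≤ 7 * q := Nat.mul_le_mul_right _ m.2
    have h2 := i.2
    rw [Nat.add_mul, one_mul] at h1
    omega
  have h := key D (bs D μ ε) (bs_li D μ ε) μ (fun _ => ε) (fun k => (bs_mem D μ ε k).1)
    (fun k => (bs_mem D μ ε k).2.1) (fun k => (bs_mem D μ ε k).2.2.1)
    (fun k => (bs_mem D μ ε k).2.2.2) (fun _ => q)
    (fun p => ⟨p.1.val * q + p.2.val, hlt p.1 p.2⟩) (by
      rintro ⟨m, i⟩ ⟨m', i'⟩ h
      have h1 : m.val * q + i.val = m'.val * q + i'.val := congrArg Fin.val h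
      have hqp : 0 < q := lt_of_le_of_lt (Nat.zero_le _) i.2
      have h2 : m.val = m'.val := by
        have h3 : (m.val * q + i.val) / q = m.val := by
          rw [mul_comm, Nat.mul_add_div hqp, Nat.div_eq_of_lt i.2, add_zero]
        have h4 : (m'.val * q + i'.val) / q = m'.val := by
          rw [mul_comm, Nat.mul_add_div hqp, Nat.div_eq_of_lt i'.2, add_zero]
        rw [← h3, h1, h4]
      have h5 : m = m' := Fin.ext h2
      subst h5
      have h6 : i = i' := Fin.ext (by omega)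
      rw [h6]) ε (fun i => by
      rw [Finset.prod_const, Finset.card_univ, Fintype.card_fin]
      rcases hε with rfl | rfl <;> norm_num)
  simpa using h

theorem pi2 (D : JD) (μ : Lam) (ε : ℂ) (hε : ε = 1 ∨ ε = -1) :
    (D.sg μ ε / 6) ^ 6 * D.sg μ (-ε) ≤ Module.finrank ℂ ↥(D.TH μ (-ε)) := by
  classical
  set q := D.sg μ ε / 6 with hq
  set s := D.sg μ (-ε) with hs
  have hq6 : 6 * q ≤ D.sg μ ε := Nat.mul_div_le _ _
  have hε0 : ε ≠ 0 := by rcases hε with rfl | rfl <;> norm_num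
  have hdis : Disjoint (D.S μ ε) (D.S μ (-ε)) := by
    rw [Submodule.disjoint_def]
    intro v hv hv'
    have h1 : ε • v = (-ε) • v := by rw [← hv.2.2.2, ← hv'.2.2.2]
    have h2 : (2 * ε) • v = 0 := by
      rw [two_mul, add_smul]
      nth_rewrite 2 [h1]
      rw [← add_smul, add_neg_cancel, zero_smul]
    rcases smul_eq_zero.1 h2 with h3 | h3
    · exact absurd h3 (mul_ne_zero two_ne_zero hε0)
    · exact h3
  set x : Fin (D.sg μ ε) ⊕ Fin s → Idx D.b → ℂ := Sum.elim (bs D μ ε) (bs D μ (-ε)) with hx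
  have hxl : LinearIndependent ℂ x := by
    rw [linearIndependent_sum]
    refine ⟨bs_li D μ ε, bs_li D μ (-ε), hdis.mono ?_ ?_⟩
    · rw [Submodule.span_le]
      rintro v ⟨k, rfl⟩
      exact bs_mem D μ ε k
    · rw [Submodule.span_le]
      rintro v ⟨k, rfl⟩
      exact bs_mem D μ (-ε) k
  have hm1 : ∀ k i, x k i ≠ 0 → D.χ i.1 = μ := by
    rintro (k | k)
    · exact (bs_mem D μ ε k).1
    · exact (bs_mem D μ (-ε) k).1
  have hm2 : ∀ k, (Sh D.b).mulVec (x k) = 0 := by
    rintro (k | k)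
    · exact (bs_mem D μ ε k).2.1
    · exact (bs_mem D μ (-ε) k).2.1
  have hm3 : ∀ k, D.y.mulVec (x k) = 0 := by
    rintro (k | k)
    · exact (bs_mem D μ ε k).2.2.1
    · exact (bs_mem D μ (-ε) k).2.2.1
  have hm4 : ∀ k, D.t.mulVec (x k) =
      (Sum.elim (fun _ => ε) (fun _ => -ε) k : ℂ) • x k := by
    rintro (k | k)
    · exact (bs_mem D μ ε k).2.2.2
    · exact (bs_mem D μ (-ε) k).2.2.2
  let a : Fin 7 → ℕ := fun m => if m.val < 6 then q else s
  have ha1 : ∀ m : Fin 7, m.val < 6 → a m = q := fun m hm => if_pos hm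
  have ha2 : ∀ m : Fin 7, ¬ m.val < 6 → a m = s := fun m hm => if_neg hm
  have hlt : ∀ (m : Fin 7) (i : Fin (a m)), m.val < 6 → m.val * q + i.val < D.sg μ ε := by
    intro m i hm
    have h1 : (m.val + 1) * q ≤ 6 * q := Nat.mul_le_mul_right _ hm
    have h2 : i.val < q := lt_of_lt_of_eq i.2 (ha1 m hm)
    rw [Nat.add_mul, one_mul] at h1
    omega
  let ι : (Σ m, Fin (a m)) → Fin (D.sg μ ε) ⊕ Fin s := fun p =>
    if hm : p.1.val < 6 then Sum.inl ⟨p.1.val * q + p.2.val, hlt p.1 p.2 hm⟩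
    else Sum.inr ⟨p.2.val, lt_of_lt_of_eq p.2.2 (ha2 _ hm)⟩
  have hι1 : ∀ (m : Fin 7) (i : Fin (a m)) (hm : m.val < 6),
      ι ⟨m, i⟩ = Sum.inl ⟨m.val * q + i.val, hlt m i hm⟩ := fun m i hm => dif_pos hm
  have hι2 : ∀ (m : Fin 7) (i : Fin (a m)) (hm : ¬ m.val < 6),
      ι ⟨m, i⟩ = Sum.inr ⟨i.val, lt_of_lt_of_eq i.2 (ha2 _ hm)⟩ := fun m i hm => dif_neg hm
  have hι : Function.Injective ι := by
    rintro ⟨m, i⟩ ⟨m', i'⟩ h
    by_cases hm : m.val < 6 <;> by_cases hm' : m'.val < 6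
    · rw [hι1 m i hm, hι1 m' i' hm'] at h
      have h1 : m.val * q + i.val = m'.val * q + i'.val := congrArg Fin.val (Sum.inl.inj h)
      have hi : i.val < q := lt_of_lt_of_eq i.2 (ha1 m hm)
      have hi' : i'.val < q := lt_of_lt_of_eq i'.2 (ha1 m' hm')
      have hqp : 0 < q := lt_of_le_of_lt (Nat.zero_le _) hi
      have h2 : m.val = m'.val := by
        have h3 : (m.val * q + i.val) / q = m.val := by
          rw [mul_comm, Nat.mul_add_div hqp, Nat.div_eq_of_lt hi, add_zero]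
        have h4 : (m'.val * q + i'.val) / q = m'.val := by
          rw [mul_comm, Nat.mul_add_div hqp, Nat.div_eq_of_lt hi', add_zero]
        rw [← h3, h1, h4]
      have h5 : m = m' := Fin.ext h2
      subst h5
      have h6 : i = i' := Fin.ext (by omega)
      rw [h6]
    · rw [hι1 m i hm, hι2 m' i' hm'] at h
      exact absurd h (by simp)
    · rw [hι2 m i hm, hι1 m' i' hm'] at h
      exact absurd h (by simp)
    · rw [hι2 m i hm, hι2 m' i' hm'] at h
      have h1 : i.val = i'.val := congrArg Fin.val (Sum.inr.inj h)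
      have h5 : m = m' := Fin.ext (by have := m.2; have := m'.2; omega)
      subst h5
      rw [Fin.ext h1]
  have h := key D x hxl μ (Sum.elim (fun _ => ε) (fun _ => -ε)) hm1 hm2 hm3 hm4 a ι hι (-ε) (by
    intro i
    rw [Fin.prod_univ_castSucc]
    have h1 : ∀ m : Fin 6, Sum.elim (fun _ => ε) (fun _ => -ε)
        (ι ⟨m.castSucc, i m.castSucc⟩) = ε := by
      intro m
      rw [hι1 m.castSucc _ m.2]
      rfl
    have h2 : Sum.elim (fun _ => ε) (fun _ => -ε)
        (ι ⟨Fin.last 6, i (Fin.last 6)⟩) = -ε := by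
      rw [hι2 (Fin.last 6) _ (by simp)]
      rfl
    rw [Finset.prod_congr rfl fun m _ => h1 m, h2, Finset.prod_const, Finset.card_univ,
      Fintype.card_fin]
    rcases hε with rfl | rfl <;> norm_num)
  rw [Fin.prod_univ_castSucc, Finset.prod_congr rfl fun (m : Fin 6) _ => ha1 m.castSucc m.2,
    ha2 (Fin.last 6) (by simp), Finset.prod_const, Finset.card_univ, Fintype.card_fin] at h
  exact h

end Pool.Agent.INV5.JD
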