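import Pool.Agent.INV5.PB
import Pool.Agent.INV5.PD
import Pool.Agent.INV5.PE
import Pool.Agent.INV5.PG
import Pool.Agent.INV5.PH
import Pool.Agent.INV5.PI
import Pool.Agent.INV5.PI1

/-!
# INV5, module PJ: `cpl 7 ≥ c * AA`

Let `C1 = 1290240`, `A = AA`. If `A ≤ 6 C1 cpl 7` we are done. Otherwise by `pb`, `pc`:
`A / C1 ≤ ck (ZS 7) ≤ 3 cpl 7 + ck (rs ZF re) ≤ A / (2 C1) + ck (rs ZF re)`, so by `pd` the hypothesis of `pe`
holds with `c = 1 / (6 C1)`. Let `K, c', μ` be as in `pe` and `ν = c' A ^ (1/8) / K`. By `pg1`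
`sg μ 1 + sg μ (-1) ≥ ν` and `mu μ 1 + mu μ (-1) ≥ ν`. Choose `ε = ±1` with `sg μ ε ≥ sg μ (-ε)`, so
`sg μ ε ≥ ν / 2`. By `card_real` choose `t0 ≥ 1` (depending only on the constants) such that
`#{a | χ a = μ, t0 < b a} ≤ ν / 4`, and `δ = 1 / (8 (1 + t0))`. `A ≥ A0` makes `ν` as large as needed.
* `mu μ ε ≥ δ ν`: `cpl 7 ≥ dim TH μ ε * mu μ ε ≥ (sg μ ε / 7) ^ 7 δ ν ≥ c ν ^ 8` (`ph`, `pi1`).
* `mu μ ε < δ ν`, `sg μ (-ε) ≥ δ ν`: `mu μ (-ε) ≥ ν / 2`, `cpl 7 ≥ dim TH μ (-ε) * mu μ (-ε)`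
  `≥ (sg μ ε / 6) ^ 6 δ ν * ν / 2` (`pi2`).
* both `< δ ν`: `pg2` gives `ν ≤ 2 δ ν + t0 (e + 2 δ ν) + ν / 4`, `e = dim E ≥ ν / (2 t0)`, and
  `cpl 7 ≥ e ^ 7 / 161280 * ν / 2` (`pi3`).
In all cases `cpl 7 ≥ c ν ^ 8 = c'' A`.
-/

namespace Pool.Agent.INV5.JD

private theorem div_lower (s k : ℕ) (hk : 0 < k) (hs : k ≤ s) :
    (s : ℝ) / (2 * k) ≤ ((s / k : ℕ) : ℝ) := by
  have h1 : s < k * (s / k + 1) := by
    have := Nat.div_add_mod s k
    have := Nat.mod_lt s hk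
    nlinarith
  have h2 : 1 ≤ s / k := (Nat.one_le_div_iff hk).2 hs
  have h3 : s ≤ s / k * (2 * k) := by nlinarith
  rw [div_le_iff₀ (by positivity)]
  exact_mod_cast h3

private theorem key (D : JD) (hD : D.Gen) (μ : Lam) (hμ : μ ^ 2 = 1) (ν : ℝ) (t0 : ℕ)
    (ht0 : 1 ≤ t0) (hν : 24 * (t0 : ℝ) ≤ ν)
    (hm : ν ≤ D.mu μ 1 + D.mu μ (-1))
    (hc : ((Finset.univ.filter fun a => D.χ a = μ ∧ t0 < D.b a).card : ℝ) ≤ ν / 4)
    (ε : ℂ) (hε : ε = 1 ∨ ε = -1) (hsg : ν / 2 ≤ D.sg μ ε) :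
    1 / (322560 * 28 ^ 7 * (8 * (1 + (t0 : ℝ))) ^ 7) * ν ^ 8 ≤ D.cpl 7 := by
  have hε' : -ε = 1 ∨ -ε = -1 := by
    rcases hε with rfl | rfl
    · right; rfl
    · left; simp
  have hT : (1 : ℝ) ≤ t0 := by exact_mod_cast ht0
  set T : ℝ := (t0 : ℝ) with hTdef
  have hν24 : 24 ≤ ν := by linarith
  have hν0 : 0 < ν := by linarith
  have hsum : D.mu μ 1 + D.mu μ (-1) = D.mu μ ε + D.mu μ (-ε) := by
    rcases hε with rfl | rfl
    · rfl
    · rw [neg_neg, add_comm]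
  have hm' : ν ≤ D.mu μ ε + D.mu μ (-ε) := by
    have : ((D.mu μ 1 + D.mu μ (-1) : ℕ) : ℝ) = ((D.mu μ ε + D.mu μ (-ε) : ℕ) : ℝ) := by
      rw [hsum]
    push_cast at this
    linarith
  have hsg12 : 12 ≤ D.sg μ ε := by
    have : (12 : ℝ) ≤ (D.sg μ ε : ℝ) := by linarith
    exact_mod_cast this
  have hδ : (0 : ℝ) < 8 * (1 + T) := by positivity
  have hX : (1 : ℝ) ≤ 8 * (1 + T) := by linarith
  set X : ℝ := 8 * (1 + T) with hXdef
  have hX7 : X ≤ X ^ 7 := by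
    calc X = X ^ 1 := (pow_one X).symm
      _ ≤ X ^ 7 := pow_le_pow_right₀ hX (by norm_num)
  by_cases h1 : ν / X ≤ D.mu μ ε
  · -- first case
    have hp := ph D μ hμ ε hε
    have hp1 := pi1 D μ ε hε
    have hd := div_lower (D.sg μ ε) 7 (by norm_num) (by omega)
    have h2 : ν / 28 ≤ ((D.sg μ ε / 7 : ℕ) : ℝ) := by
      refine le_trans ?_ hd
      push_cast
      linarith
    have h3 : (ν / 28) ^ 7 ≤ (((D.sg μ ε / 7 : ℕ) : ℝ)) ^ 7 :=
      pow_le_pow_left₀ (by positivity) h2 7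
    have h4 : (((D.sg μ ε / 7 : ℕ) : ℝ)) ^ 7 ≤ (Module.finrank ℂ ↥(D.TH μ ε) : ℝ) := by
      exact_mod_cast hp1
    have h5 : (ν / 28) ^ 7 * (ν / X) ≤ (Module.finrank ℂ ↥(D.TH μ ε) : ℝ) * (D.mu μ ε : ℝ) :=
      mul_le_mul (h3.trans h4) h1 (by positivity) (by positivity)
    have h6 : (Module.finrank ℂ ↥(D.TH μ ε) : ℝ) * (D.mu μ ε : ℝ) ≤ (D.cpl 7 : ℝ) := by
      exact_mod_cast hp
    refine le_trans ?_ (h5.trans h6)
    have e1 : (ν / 28) ^ 7 * (ν / X) = 1 / (28 ^ 7 * X) * ν ^ 8 := by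
      field_simp
    rw [e1]
    refine mul_le_mul_of_nonneg_right ?_ (by positivity)
    refine one_div_le_one_div_of_le (by positivity) ?_
    have : (28 : ℝ) ^ 7 * X ≤ 28 ^ 7 * X ^ 7 := mul_le_mul_of_nonneg_left hX7 (by positivity)
    have h28 : (0 : ℝ) ≤ 28 ^ 7 * X ^ 7 := by positivity
    nlinarith
  · push Not at h1
    have hmu : ν / 2 ≤ D.mu μ (-ε) := by
      have : ν / X ≤ ν / 2 := div_le_div_of_nonneg_left hν0.le (by norm_num) (by linarith)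
      linarith
    have hp := ph D μ hμ (-ε) hε'
    have hp' : (Module.finrank ℂ ↥(D.TH μ (-ε)) : ℝ) * (D.mu μ (-ε) : ℝ) ≤ (D.cpl 7 : ℝ) := by
      exact_mod_cast hp
    by_cases h2 : ν / X ≤ D.sg μ (-ε)
    · have hp1 := pi2 D μ ε hε
      have hd := div_lower (D.sg μ ε) 6 (by norm_num) (by omega)
      have h3 : ν / 28 ≤ ((D.sg μ ε / 6 : ℕ) : ℝ) := by
        refine le_trans ?_ hd
        push_cast
        linarith
      have h4 : (ν / 28) ^ 6 ≤ (((D.sg μ ε / 6 : ℕ) : ℝ)) ^ 6 :=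
        pow_le_pow_left₀ (by positivity) h3 6
      have h5 : (((D.sg μ ε / 6 : ℕ) : ℝ)) ^ 6 * (D.sg μ (-ε) : ℝ) ≤
          (Module.finrank ℂ ↥(D.TH μ (-ε)) : ℝ) := by
        exact_mod_cast hp1
      have h6 : (ν / 28) ^ 6 * (ν / X) ≤ (Module.finrank ℂ ↥(D.TH μ (-ε)) : ℝ) :=
        (mul_le_mul h4 h2 (by positivity) (by positivity)).trans h5
      have h7 : (ν / 28) ^ 6 * (ν / X) * (ν / 2) ≤
          (Module.finrank ℂ ↥(D.TH μ (-ε)) : ℝ) * (D.mu μ (-ε) : ℝ) :=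
        mul_le_mul h6 hmu (by positivity) (by positivity)
      refine le_trans ?_ (h7.trans hp')
      have e1 : (ν / 28) ^ 6 * (ν / X) * (ν / 2) = 1 / (28 ^ 6 * X * 2) * ν ^ 8 := by
        field_simp
      rw [e1]
      refine mul_le_mul_of_nonneg_right ?_ (by positivity)
      refine one_div_le_one_div_of_le (by positivity) ?_
      have : (28 : ℝ) ^ 6 * X ≤ 28 ^ 6 * X ^ 7 := mul_le_mul_of_nonneg_left hX7 (by positivity)
      have h28 : (0 : ℝ) ≤ 28 ^ 6 * X ^ 7 := by positivity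
      nlinarith
    · push Not at h2
      obtain ⟨E, hE1, hE2, hE3⟩ := pg2 D hD μ hμ ε hε t0
      have hE3' : (D.mu μ 1 : ℝ) + D.mu μ (-1) ≤ D.mu μ ε + D.sg μ (-ε) +
          T * ((Module.finrank ℂ ↥E : ℝ) + 2 * D.sg μ (-ε)) +
          ((Finset.univ.filter fun a => D.χ a = μ ∧ t0 < D.b a).card : ℝ) := by
        rw [hTdef]
        exact_mod_cast hE3
      set e : ℝ := (Module.finrank ℂ ↥E : ℝ) with hedef
      have hs0 : (0 : ℝ) ≤ D.sg μ (-ε) := by positivity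
      have h3 : ν ≤ ν / X + ν / X + T * (e + 2 * (ν / X)) + ν / 4 := by
        have h31 : T * (e + 2 * (D.sg μ (-ε) : ℝ)) ≤ T * (e + 2 * (ν / X)) :=
          mul_le_mul_of_nonneg_left (by linarith) (by linarith)
        linarith
      have h4 : ν / 2 ≤ T * e := by
        have h41 : ν / X * (2 * (1 + T)) = ν / 4 := by
          rw [hXdef]
          field_simp
          ring
        nlinarith
      have h5 : ν / (2 * T) ≤ e := by
        rw [div_le_iff₀ (by positivity)]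
        linarith
      have h6 : 12 ≤ Module.finrank ℂ ↥E := by
        have : (12 : ℝ) ≤ e := by
          refine le_trans ?_ h5
          rw [le_div_iff₀ (by positivity)]
          linarith
        rw [hedef] at this
        exact_mod_cast this
      have hp3 := pi3 D μ ε hε E hE1 hE2 h6
      have hp3' : e ^ 7 ≤ 161280 * (Module.finrank ℂ ↥(D.TH μ (-ε)) : ℝ) := by
        rw [hedef]
        exact_mod_cast hp3
      have h7 : (ν / X) ^ 7 ≤ e ^ 7 := by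
        refine pow_le_pow_left₀ (by positivity) (le_trans ?_ h5) 7
        exact div_le_div_of_nonneg_left hν0.le (by positivity) (by rw [hXdef]; linarith)
      have h8 : (ν / X) ^ 7 / 161280 ≤ (Module.finrank ℂ ↥(D.TH μ (-ε)) : ℝ) := by
        rw [div_le_iff₀ (by norm_num)]
        linarith
      have h9 : (ν / X) ^ 7 / 161280 * (ν / 2) ≤
          (Module.finrank ℂ ↥(D.TH μ (-ε)) : ℝ) * (D.mu μ (-ε) : ℝ) :=
        mul_le_mul h8 hmu (by positivity) (by positivity)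
      refine le_trans ?_ (h9.trans hp')
      have e1 : (ν / X) ^ 7 / 161280 * (ν / 2) = 1 / (322560 * X ^ 7) * ν ^ 8 := by
        field_simp
        norm_num
      rw [e1]
      refine mul_le_mul_of_nonneg_right ?_ (by positivity)
      refine one_div_le_one_div_of_le (by positivity) ?_
      have h28 : (0 : ℝ) ≤ X ^ 7 := by positivity
      nlinarith

theorem p7 : ∃ c : ℝ, 0 < c ∧ ∃ A0 : ℕ, ∀ D : JD, D.Gen → A0 ≤ D.AA →
    c * (D.AA : ℝ) ≤ D.cpl 7 := by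
  obtain ⟨K, c', hK, hc', hpe⟩ := pe (1 / (6 * 1290240)) (by norm_num)
  obtain ⟨C2, hC2, hcr⟩ := card_real
  have hK' : (0 : ℝ) < K := by exact_mod_cast hK
  -- choice of `t0`
  obtain ⟨t0, ht0, ht0'⟩ : ∃ t0 : ℕ, 1 ≤ t0 ∧ C2 * (t0 : ℝ) ^ (-(3 / 4 : ℝ)) ≤ c' / (4 * K) := by
    have h1 : Filter.Tendsto (fun t : ℕ => C2 * (t : ℝ) ^ (-(3 / 4 : ℝ))) Filter.atTop
        (nhds (C2 * 0)) :=
      ((tendsto_rpow_neg_atTop (by norm_num : (0 : ℝ) < 3 / 4)).comp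
        tendsto_natCast_atTop_atTop).const_mul C2
    rw [mul_zero] at h1
    have h2 := (h1.eventually_le_const (show (0 : ℝ) < c' / (4 * K) by positivity))
    obtain ⟨t0, h3⟩ := ((Filter.eventually_ge_atTop 1).and h2).exists
    exact ⟨t0, h3.1, h3.2⟩
  set c3 : ℝ := 1 / (322560 * 28 ^ 7 * (8 * (1 + (t0 : ℝ))) ^ 7) with hc3
  have hc3pos : 0 < c3 := by positivity
  refine ⟨min (1 / (6 * 1290240)) (c3 * (c' / K) ^ 8), by positivity,
    ⌈(24 * (t0 : ℝ) * K / c') ^ 8⌉₊, fun D hD hA => ?_⟩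
  have hA' : (24 * (t0 : ℝ) * K / c') ^ 8 ≤ (D.AA : ℝ) :=
    (Nat.le_ceil _).trans (by exact_mod_cast hA)
  have hA0 : (0 : ℝ) ≤ (D.AA : ℝ) := by positivity
  by_cases h1 : D.AA ≤ 6 * 1290240 * D.cpl 7
  · have h1' : (D.AA : ℝ) ≤ 6 * 1290240 * (D.cpl 7 : ℝ) := by exact_mod_cast h1
    calc min (1 / (6 * 1290240)) (c3 * (c' / K) ^ 8) * (D.AA : ℝ)
        ≤ 1 / (6 * 1290240) * (D.AA : ℝ) := mul_le_mul_of_nonneg_right (min_le_left _ _) hA0
      _ ≤ D.cpl 7 := by linarith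
  · push Not at h1
    have hb := pb D hD
    have hc := pc D
    have hd := pd D
    have h2 : D.AA ≤ 2 * 1290240 * ck (rs D.ZF D.re) := by
      have := Nat.mul_le_mul_left 1290240 hc
      omega
    have h2' : (D.AA : ℝ) ≤ 2 * 1290240 * (ck (rs D.ZF D.re) : ℝ) := by exact_mod_cast h2
    obtain ⟨μ, hμ, hμ'⟩ := hpe D (by linarith)
    set R : ℝ := (D.AA : ℝ) ^ ((1 : ℝ) / 8) with hR
    have hR0 : 0 ≤ R := by positivity
    have hR8 : R ^ 8 = (D.AA : ℝ) := by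
      rw [hR, ← Real.rpow_natCast, ← Real.rpow_mul hA0]
      norm_num
    set ν : ℝ := c' / K * R with hν
    have hcard : ((Finset.univ.filter fun a => D.χ a = μ ∧ D.b a < K).card : ℝ) ≤
        ((Finset.univ.filter fun a => D.χ a = μ ∧ D.b a ≤ K).card : ℝ) := by
      exact_mod_cast Finset.card_le_card (fun a ha => by
        simp only [Finset.mem_filter, Finset.mem_univ, true_and] at ha ⊢
        exact ⟨ha.1, ha.2.le⟩)
    obtain ⟨hg1, hg2⟩ := pg1 D hD μ hμ K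
    have hg1' : ((Finset.univ.filter fun a => D.χ a = μ ∧ D.b a ≤ K).card : ℝ) ≤
        K * ((D.sg μ 1 : ℝ) + D.sg μ (-1)) := by exact_mod_cast hg1
    have hg2' : ((Finset.univ.filter fun a => D.χ a = μ ∧ D.b a ≤ K).card : ℝ) ≤
        K * ((D.mu μ 1 : ℝ) + D.mu μ (-1)) := by exact_mod_cast hg2
    have hνK : ν * K = c' * R := by
      rw [hν]
      field_simp
    have hs : ν ≤ D.sg μ 1 + D.sg μ (-1) := by
      have : ν * K ≤ ((D.sg μ 1 : ℝ) + D.sg μ (-1)) * K := by linarith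
      exact le_of_mul_le_mul_right this hK'
    have hm : ν ≤ D.mu μ 1 + D.mu μ (-1) := by
      have : ν * K ≤ ((D.mu μ 1 : ℝ) + D.mu μ (-1)) * K := by linarith
      exact le_of_mul_le_mul_right this hK'
    have hRl : 24 * (t0 : ℝ) * K / c' ≤ R := by
      rw [← hR8] at hA'
      exact le_of_pow_le_pow_left₀ (by norm_num) hR0 hA'
    have hνl : 24 * (t0 : ℝ) ≤ ν := by
      rw [div_le_iff₀ hc'] at hRl
      have : 24 * (t0 : ℝ) * K ≤ ν * K := by rw [hνK]; linarith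
      exact le_of_mul_le_mul_right this hK'
    have hcc : ((Finset.univ.filter fun a => D.χ a = μ ∧ t0 < D.b a).card : ℝ) ≤ ν / 4 := by
      refine (hcr D μ t0 hμ ht0).trans ?_
      have h3 : C2 * (t0 : ℝ) ^ (-(3 / 4 : ℝ)) * R ≤ c' / (4 * K) * R :=
        mul_le_mul_of_nonneg_right ht0' hR0
      have h4 : c' / (4 * K) * R = ν / 4 := by
        rw [hν]
        field_simp
      calc C2 * R * (t0 : ℝ) ^ (-(3 / 4 : ℝ)) = C2 * (t0 : ℝ) ^ (-(3 / 4 : ℝ)) * R := by ring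
        _ ≤ ν / 4 := by rw [← h4]; exact h3
    have hfin : c3 * ν ^ 8 ≤ D.cpl 7 := by
      rcases le_total (D.sg μ (-1) : ℝ) (D.sg μ 1 : ℝ) with h | h
      · exact key D hD μ hμ ν t0 ht0 hνl hm hcc 1 (Or.inl rfl) (by linarith)
      · exact key D hD μ hμ ν t0 ht0 hνl hm hcc (-1) (Or.inr rfl) (by linarith)
    have hν8 : ν ^ 8 = (c' / K) ^ 8 * (D.AA : ℝ) := by
      rw [hν, mul_pow, hR8]
    calc min (1 / (6 * 1290240)) (c3 * (c' / K) ^ 8) * (D.AA : ℝ)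
        ≤ c3 * (c' / K) ^ 8 * (D.AA : ℝ) := mul_le_mul_of_nonneg_right (min_le_right _ _) hA0
      _ = c3 * ν ^ 8 := by rw [hν8]; ring
      _ ≤ D.cpl 7 := hfin

end Pool.Agent.INV5.JD
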