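import Pool.Agent.INV5.LI
import Pool.Agent.INV5.PJ

/-!
# INV5, module FJ: contradiction for Jordan data of large dimension (analysis)

`A = AA`. `n_le`: `n ^ 4 ≤ C A`, so `A ≥ n ^ 4 / C` is large, and `n² + n³ ≤ 2 n³ ≤ 2 (C A) ^ (3/4) ≤ C' A ^ (6/7)`
(`A ≥ 1`). `h0_le`, `hi_le`: for `e ≤ 5` both are `≤ C A ^ ((e+1)/7) ≤ C A ^ (6/7)`. Hence the right sides are
`≤ R A ^ (6/7)` (degree six) and `≤ R A ^ (6/7) + h0 6 + hi 6` (degree seven) with a constant `R`. `p7`: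
`c A ≤ cpl 7`, so for large `A` `h0 6 + hi 6 ≥ (c/2) A` and one of them is `≥ (c/4) A`. `l7` with `κ = c/4`:
`κ' A ≤ cpl 6 ≤ R A ^ (6/7)`, impossible for large `A`.
-/

namespace Pool.Agent.INV5

theorem jd_main : ∃ N : ℕ, ∀ D : JD, D.Gen → N ≤ D.n →
    D.cpl 6 ≤ 4 * (D.n ^ 2 + D.n ^ 3) + ∑ e ∈ Finset.Ico 3 6, (D.h0 e + D.hi e) →
    D.cpl 7 ≤ 4 * (D.n ^ 2 + D.n ^ 3) + ∑ e ∈ Finset.Ico 3 7, (D.h0 e + D.hi e) → False := by
  obtain ⟨C0, hC0, hn⟩ := JD.n_le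
  obtain ⟨C1, hC1, h1⟩ := h0_le
  obtain ⟨C2, hC2, h2⟩ := hi_le
  obtain ⟨c, hc, A1, hp⟩ := JD.p7
  obtain ⟨κ', hκ', A2, hl⟩ := JD.l7 (c / 4) (by positivity)
  obtain ⟨R, hR⟩ : ∃ R : ℝ, R = 8 * C0 ^ ((3 : ℝ) / 4) + 3 * (C1 + C2) := ⟨_, rfl⟩
  obtain ⟨m, hm⟩ : ∃ m : ℝ, m = min (c / 2) κ' := ⟨_, rfl⟩
  have hm0 : 0 < m := by
    rw [hm]
    exact lt_min (by positivity) hκ'
  have hm1 : m ≤ c / 2 := hm ▸ min_le_left _ _
  have hm2 : m ≤ κ' := hm ▸ min_le_right _ _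
  have ht := (tendsto_rpow_atTop (by norm_num : (0 : ℝ) < 1 / 7)).eventually_gt_atTop (R / m)
  obtain ⟨T1, hT1⟩ := Filter.eventually_atTop.1 ht
  obtain ⟨T, hT⟩ : ∃ T : ℝ, T = max 1 (max T1 (max (A1 : ℝ) A2)) := ⟨_, rfl⟩
  refine ⟨max 1 ⌈C0 * T⌉₊, fun D hG hN h6 h7 => ?_⟩
  obtain ⟨A, hA⟩ : ∃ A : ℝ, A = (D.AA : ℝ) := ⟨_, rfl⟩
  have hn1 : (1 : ℝ) ≤ D.n := by exact_mod_cast (le_max_left _ _).trans hN
  have hn2 : C0 * T ≤ D.n :=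
    (Nat.le_ceil _).trans (by exact_mod_cast (le_max_right _ _).trans hN)
  have hn4 : (D.n : ℝ) ≤ (D.n : ℝ) ^ 4 := le_self_pow₀ hn1 (by norm_num)
  have hnD := hn D
  rw [← hA] at hnD
  have hAT : T ≤ A := le_of_mul_le_mul_left (by linarith : C0 * T ≤ C0 * A) hC0
  have hA1 : 1 ≤ A := le_trans (by rw [hT]; exact le_max_left _ _) hAT
  have hA2 : T1 ≤ A := le_trans (by rw [hT]; exact (le_max_left _ _).trans (le_max_right _ _)) hAT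
  have hA3 : A1 ≤ D.AA := by
    have h3 : (A1 : ℝ) ≤ A := le_trans (by
      rw [hT]
      exact (le_max_left _ _).trans ((le_max_right _ _).trans (le_max_right _ _))) hAT
    rw [hA] at h3
    exact_mod_cast h3
  have hA4 : A2 ≤ D.AA := by
    have h3 : (A2 : ℝ) ≤ A := le_trans (by
      rw [hT]
      exact (le_max_right _ _).trans ((le_max_right _ _).trans (le_max_right _ _))) hAT
    rw [hA] at h3
    exact_mod_cast h3
  have hA0 : 0 < A := by linarith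
  obtain ⟨B, hB⟩ : ∃ B : ℝ, B = A ^ ((6 : ℝ) / 7) := ⟨_, rfl⟩
  have hB0 : 0 < B := by rw [hB]; exact Real.rpow_pos_of_pos hA0 _
  have hAB : A = A ^ ((1 : ℝ) / 7) * B := by
    rw [hB, ← Real.rpow_add hA0]
    norm_num
  have hkey : R * B < m * A := by
    have h3 := hT1 A hA2
    rw [div_lt_iff₀ hm0] at h3
    have h4 : R * B < A ^ ((1 : ℝ) / 7) * m * B := mul_lt_mul_of_pos_right h3 hB0
    have h5 : A ^ ((1 : ℝ) / 7) * m * B = m * (A ^ ((1 : ℝ) / 7) * B) := by ring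
    rw [h5, ← hAB] at h4
    exact h4
  have hn3 : (D.n : ℝ) ^ 3 ≤ C0 ^ ((3 : ℝ) / 4) * B := by
    have e1 : (D.n : ℝ) ^ 3 = ((D.n : ℝ) ^ 4) ^ ((3 : ℝ) / 4) := by
      rw [← Real.rpow_natCast, ← Real.rpow_natCast, ← Real.rpow_mul (by positivity)]
      norm_num
    have e2 : ((D.n : ℝ) ^ 4) ^ ((3 : ℝ) / 4) ≤ (C0 * A) ^ ((3 : ℝ) / 4) :=
      Real.rpow_le_rpow (by positivity) hnD (by norm_num)
    have e3 : A ^ ((3 : ℝ) / 4) ≤ B := by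
      rw [hB]
      exact Real.rpow_le_rpow_of_exponent_le hA1 (by norm_num)
    rw [Real.mul_rpow hC0.le hA0.le] at e2
    rw [e1]
    exact e2.trans (mul_le_mul_of_nonneg_left e3 (by positivity))
  have hn5 : (D.n : ℝ) ^ 2 ≤ (D.n : ℝ) ^ 3 := pow_le_pow_right₀ hn1 (by norm_num)
  have hle : ∀ e : ℕ, e ≤ 5 → (D.h0 e : ℝ) + D.hi e ≤ (C1 + C2) * B := by
    intro e he
    have e1 := h1 D e (by omega)
    have e2 := h2 D e (by omega)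
    rw [← hA] at e1 e2
    have e3 : A ^ (((e : ℝ) + 1) / 7) ≤ B := by
      rw [hB]
      refine Real.rpow_le_rpow_of_exponent_le hA1 ?_
      have : (e : ℝ) ≤ 5 := by exact_mod_cast he
      linarith
    have e4 := mul_le_mul_of_nonneg_left e3 hC1.le
    have e5 := mul_le_mul_of_nonneg_left e3 hC2.le
    linarith
  have s6 : (D.cpl 6 : ℝ) ≤ R * B := by
    have e0 : ∑ e ∈ Finset.Ico 3 6, (D.h0 e + D.hi e) =
        (D.h0 3 + D.hi 3) + (D.h0 4 + D.hi 4) + (D.h0 5 + D.hi 5) := by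
      simp [Finset.sum_Ico_succ_top]
    rw [e0] at h6
    have e1 : (D.cpl 6 : ℝ) ≤ 4 * ((D.n : ℝ) ^ 2 + (D.n : ℝ) ^ 3) +
        (((D.h0 3 : ℝ) + D.hi 3) + ((D.h0 4 : ℝ) + D.hi 4) + ((D.h0 5 : ℝ) + D.hi 5)) := by
      exact_mod_cast h6
    have e2 := hle 3 (by norm_num)
    have e3 := hle 4 (by norm_num)
    have e4 := hle 5 (by norm_num)
    rw [hR]
    linarith
  have s7 : (D.cpl 7 : ℝ) ≤ R * B + ((D.h0 6 : ℝ) + D.hi 6) := by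
    have e0 : ∑ e ∈ Finset.Ico 3 7, (D.h0 e + D.hi e) =
        (D.h0 3 + D.hi 3) + (D.h0 4 + D.hi 4) + (D.h0 5 + D.hi 5) + (D.h0 6 + D.hi 6) := by
      simp [Finset.sum_Ico_succ_top]
    rw [e0] at h7
    have e1 : (D.cpl 7 : ℝ) ≤ 4 * ((D.n : ℝ) ^ 2 + (D.n : ℝ) ^ 3) +
        (((D.h0 3 : ℝ) + D.hi 3) + ((D.h0 4 : ℝ) + D.hi 4) + ((D.h0 5 : ℝ) + D.hi 5) +
          ((D.h0 6 : ℝ) + D.hi 6)) := by
      exact_mod_cast h7
    have e2 := hle 3 (by norm_num)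
    have e3 := hle 4 (by norm_num)
    have e4 := hle 5 (by norm_num)
    rw [hR]
    linarith
  have hp7 := hp D hG hA3
  rw [← hA] at hp7
  have hmA : m * A ≤ c / 2 * A := mul_le_mul_of_nonneg_right hm1 hA0.le
  have hmA' : m * A ≤ κ' * A := mul_le_mul_of_nonneg_right hm2 hA0.le
  have hor : c / 4 * A ≤ D.h0 6 ∨ c / 4 * A ≤ D.hi 6 := by
    by_contra hcon
    push Not at hcon
    linarith [hcon.1, hcon.2]
  rw [hA] at hor
  have hl6 := hl D hA4 hor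
  rw [← hA] at hl6
  linarith

end Pool.Agent.INV5
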