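import Pool.Agent.INV5.WO1
import Pool.Agent.INV5.WO2

/-!
# INV5, module LA: coordinate subquotients of words

Words with letters of sizes `s m : β → ℕ`, the label of the letter `(a, i)` of number `m` is `c m a`, and
matrices of polynomials `Q m` with `Div s Q`: `X ^ (s m a - s m a')` divides `Q m a a'`.

`mon`: if `s' ≤ s` (and `Div` for both) the coordinate subspace of the words `p` of sizes `s` with
`(p m).2 ≥ s' m a` for some `m` (`a` the block of the letter `m`) is stable under `WL` and `WY`: for the
letter `m` itself, `Q m a a'` has order `≥ s' m a - s' m a'`, so a position `≥ s' m a'` goes to positions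
`≥ s' m a`. The restriction to the other words is the family for the sizes `s'`
(`ck_quot`, `ck_reindex`; or `ck_le_of_surj` with the restriction map).

`tel`: `s' = min (s m0) p` at the letter `m0`. The stable subspace of the words with `(p m0).2 ≥ p` is
isomorphic to the words with the size `s m0 a - p` at the letter `m0` (shift the position by `p`), with the
same `Q` (the blocks with `s m0 a ≤ p` do not occur). Use `ck_split` and `ck_reindex`.
The conditions `Div` for `min (s m0) p` and `s m0 - p` follow from that for `s`.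
-/

namespace Pool.Agent.INV5

open Matrix Polynomial

section aux

variable {N : ℕ} {I : Fin N → Type} [∀ m, DecidableEq (I m)]

private theorem tot_apply (z : ∀ m, Matrix (I m) (I m) ℂ) (p q : ∀ m, I m) :
    Tot z p q = ∑ m, if ∀ m', m' ≠ m → p m' = q m' then z m (p m) (q m) else 0 := by
  simp only [Tot, At, Matrix.sum_apply]

private theorem tot_stab (z : ∀ m, Matrix (I m) (I m) ℂ) (b : ∀ m, I m → Prop)
    (hb : ∀ m i k, b m k → ¬ b m i → z m i k = 0) (p q : ∀ m, I m) (hq : ∃ m, b m (q m))
    (hp : ¬ ∃ m, b m (p m)) : Tot z p q = 0 := by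
  rw [tot_apply]
  refine Finset.sum_eq_zero fun m _ => ?_
  split_ifs with h
  · obtain ⟨m1, h1⟩ := hq
    rcases eq_or_ne m1 m with rfl | hne
    · exact hb _ _ _ h1 fun h2 => hp ⟨_, h2⟩
    · exact absurd ⟨m1, by rw [h m1 hne]; exact h1⟩ hp
  · rfl

end aux

variable {N : ℕ} {β : Type} [Fintype β] [DecidableEq β]

/-- the shifted inclusion of letters -/
private def sft (s s' : Fin N → β → ℕ) (t : Fin N → ℕ)
    (h : ∀ m a i, i < s' m a → i + t m < s m a) (m : Fin N) (x : Idx (s' m)) : Idx (s m) :=
  ⟨x.1, ⟨x.2 + t m, h m x.1 x.2 x.2.2⟩⟩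

omit [Fintype β] [DecidableEq β] in
private theorem sft_inj (s s' : Fin N → β → ℕ) (t : Fin N → ℕ)
    (h : ∀ m a i, i < s' m a → i + t m < s m a) (m : Fin N) :
    Function.Injective (sft s s' t h m) := by
  rintro ⟨a, i⟩ ⟨a', i'⟩ hh
  have h1 : a = a' := congrArg Sigma.fst hh
  subst h1
  have h2 : (⟨(i : ℕ) + t m, h m a i i.2⟩ : Fin (s m a)) = ⟨(i' : ℕ) + t m, h m a i' i'.2⟩ :=
    eq_of_heq (Sigma.mk.inj hh).2
  have h3 := congrArg Fin.val h2
  simp only at h3
  have h4 : i = i' := Fin.ext (by omega)
  rw [h4]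

private theorem reind (c : Fin N → β → Lam) (s s' : Fin N → β → ℕ) (Q : Fin N → Matrix β β ℂ[X])
    (t : Fin N → ℕ) (h : ∀ m a i, i < s' m a → i + t m < s m a)
    (p : One (cw c s) → Prop) [Fintype {x // p x}]
    (hp : ∀ x, p x ↔ ∀ m, t m ≤ ((x.1 m).2 : ℕ) ∧ ((x.1 m).2 : ℕ) - t m < s' m (x.1 m).1) :
    ck (rs ![WL c s, WY c s Q] p) = ckw c s' Q := by
  set F : One (cw c s') → {x // p x} := fun y =>
    ⟨⟨fun m => sft s s' t h m (y.1 m), y.2⟩, (hp _).2 fun m => by
      refine ⟨?_, ?_⟩
      · simp only [sft]; omega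
      · simp only [sft]
        have := (y.1 m).2.2
        omega⟩ with hF
  have hbij : Function.Bijective F := by
    constructor
    · intro x y hxy
      apply Subtype.ext
      funext m
      apply sft_inj s s' t h m
      exact congrFun (congrArg Subtype.val (congrArg Subtype.val hxy)) m
    · rintro ⟨x, hx⟩
      have hx' := (hp x).1 hx
      refine ⟨⟨fun m => ⟨(x.1 m).1, ⟨((x.1 m).2 : ℕ) - t m, (hx' m).2⟩⟩, x.2⟩, ?_⟩
      apply Subtype.ext
      apply Subtype.ext
      funext m
      simp only [hF, sft]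
      refine Sigma.ext rfl (heq_of_eq (Fin.ext ?_))
      have := (hx' m).1
      simp only
      omega
  rw [ckw, ← ck_reindex (Equiv.ofBijective F hbij).symm]
  congr 1
  funext r
  have key : ∀ (z : ∀ m, Matrix (Idx (s m)) (Idx (s m)) ℂ) (z' : ∀ m, Matrix (Idx (s' m)) (Idx (s' m)) ℂ)
      (hz : ∀ m i k, z m (sft s s' t h m i) (sft s s' t h m k) = z' m i k),
      ((res (cw c s) (Tot z)).submatrix (Subtype.val : {x // p x} → _) Subtype.val).submatrix F F =
        res (cw c s') (Tot z') := by
    intro z z' hz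
    ext x y
    simp only [res, Matrix.submatrix_apply, tot_apply]
    refine Finset.sum_congr rfl fun m _ => ?_
    have e1 : (∀ m', m' ≠ m → (F x).1.1 m' = (F y).1.1 m') ↔ ∀ m', m' ≠ m → x.1 m' = y.1 m' :=
      forall_congr' fun m' => imp_congr_right fun _ =>
        ⟨fun hh => sft_inj s s' t h m' hh, fun hh => by simp only [hF]; rw [hh]⟩
    rw [if_congr e1 (hz m _ _) rfl]
  fin_cases r
  · exact key _ _ fun m i k => by
      simp only [Sh, sft]
      refine if_congr (and_congr_right fun _ => ?_) rfl rfl
      omega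
  · exact key _ _ fun m i k => by
      refine if_congr (Nat.add_le_add_iff_right) ?_ rfl
      simp only [sft]
      rw [Nat.add_sub_add_right]

theorem Div_min {s : Fin N → β → ℕ} {Q : Fin N → Matrix β β ℂ[X]} (h : Div s Q) (m0 : Fin N)
    (p : ℕ) : Div (Function.update s m0 fun a => min (s m0 a) p) Q := by
  intro m a a' d hd
  rcases eq_or_ne m m0 with rfl | hne
  · rw [Function.update_self] at hd
    apply h
    omega
  · rw [Function.update_of_ne hne] at hd
    exact h m a a' d hd

theorem Div_sub {s : Fin N → β → ℕ} {Q : Fin N → Matrix β β ℂ[X]} (h : Div s Q) (m0 : Fin N)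
    (p : ℕ) : Div (Function.update s m0 fun a => s m0 a - p) Q := by
  intro m a a' d hd
  rcases eq_or_ne m m0 with rfl | hne
  · rw [Function.update_self] at hd
    apply h
    omega
  · rw [Function.update_of_ne hne] at hd
    exact h m a a' d hd

theorem mon (c : Fin N → β → Lam) (s s' : Fin N → β → ℕ) (Q : Fin N → Matrix β β ℂ[X])
    (h : Div s Q) (h' : Div s' Q) (hs : ∀ m a, s' m a ≤ s m a) : ckw c s' Q ≤ ckw c s Q := by
  classical
  rw [← reind c s s' Q 0 (fun m a i hi => by simpa using lt_of_lt_of_le hi (hs m a))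
    (fun x => ¬ ∃ m, s' m (x.1 m).1 ≤ ((x.1 m).2 : ℕ)) (fun x => by
      simp only [not_exists, not_le, Pi.zero_apply, Nat.zero_le, true_and, Nat.sub_zero])]
  refine ck_quot _ _ fun r i k hk hi => ?_
  fin_cases r
  · refine tot_stab _ (fun m x => s' m x.1 ≤ (x.2 : ℕ)) (fun m i k hk hi => ?_) _ _ hk hi
    simp only [Sh]
    rw [if_neg]
    rintro ⟨h1, h2⟩
    simp only [not_le] at hi
    have h3 : s' m i.1 = s' m k.1 := by rw [h1]
    omega
  · refine tot_stab _ (fun m x => s' m x.1 ≤ (x.2 : ℕ)) (fun m i k hk hi => ?_) _ _ hk hi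
    simp only [ymat]
    split_ifs with h1
    · apply h'
      simp only [not_le] at hi
      omega
    · rfl

theorem tel (c : Fin N → β → Lam) (s : Fin N → β → ℕ) (Q : Fin N → Matrix β β ℂ[X])
    (h : Div s Q) (m0 : Fin N) (p : ℕ) :
    ckw c s Q ≤ ckw c (Function.update s m0 fun a => min (s m0 a) p) Q +
      ckw c (Function.update s m0 fun a => s m0 a - p) Q := by
  classical
  have h1 := reind c s (Function.update s m0 fun a => min (s m0 a) p) Q 0 (fun m a i hi => by
      rcases eq_or_ne m m0 with rfl | hne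
      · rw [Function.update_self] at hi
        simpa using lt_of_lt_of_le hi (min_le_left _ _)
      · rw [Function.update_of_ne hne] at hi
        simpa using hi)
    (fun x => ¬ ∃ m, m = m0 ∧ p ≤ ((x.1 m).2 : ℕ)) (fun x => by
      simp only [Pi.zero_apply, Nat.zero_le, true_and, Nat.sub_zero]
      constructor
      · intro hh m
        rcases eq_or_ne m m0 with rfl | hne
        · rw [Function.update_self]
          refine lt_min (x.1 m).2.2 ?_
          by_contra h3
          exact hh ⟨m, rfl, not_lt.1 h3⟩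
        · rw [Function.update_of_ne hne]
          exact (x.1 m).2.2
      · rintro hh ⟨m, rfl, h3⟩
        have h4 := hh m
        rw [Function.update_self] at h4
        have h5 := lt_of_lt_of_le h4 (min_le_right _ _)
        omega)
  have h2 := reind c s (Function.update s m0 fun a => s m0 a - p) Q
    (fun m => if m = m0 then p else 0) (fun m a i hi => by
      rcases eq_or_ne m m0 with rfl | hne
      · rw [Function.update_self] at hi
        simp only [if_true]
        omega
      · rw [Function.update_of_ne hne] at hi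
        simpa [hne] using hi)
    (fun x => ∃ m, m = m0 ∧ p ≤ ((x.1 m).2 : ℕ)) (fun x => by
      constructor
      · rintro ⟨m, rfl, h3⟩ m'
        rcases eq_or_ne m' m with rfl | hne
        · rw [Function.update_self, if_pos rfl]
          have h4 := (x.1 m').2.2
          exact ⟨h3, by omega⟩
        · rw [Function.update_of_ne hne, if_neg hne]
          exact ⟨Nat.zero_le _, (x.1 m').2.2⟩
      · intro hh
        have h4 := (hh m0).1
        rw [if_pos rfl] at h4
        exact ⟨m0, rfl, h4⟩)
  rw [← h1, ← h2, add_comm]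
  refine ck_split _ _ fun r i k hk hi => ?_
  fin_cases r
  · refine tot_stab _ (fun m x => m = m0 ∧ p ≤ (x.2 : ℕ)) (fun m i k hk hi => ?_) _ _ hk hi
    simp only [Sh]
    rw [if_neg]
    rintro ⟨-, h2⟩
    exact hi ⟨hk.1, by have := hk.2; omega⟩
  · refine tot_stab _ (fun m x => m = m0 ∧ p ≤ (x.2 : ℕ)) (fun m i k hk hi => ?_) _ _ hk hi
    simp only [ymat]
    rw [if_neg]
    intro h2
    exact hi ⟨hk.1, le_trans hk.2 h2⟩

end Pool.Agent.INV5
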