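import Pool.Agent.INV5.WO3

/-!
# INV5, module WO4: matrices commuting with the shift are matrices of polynomials; the dual word

* `exists_poly`: a matrix `y` with `Sh * y = y * Sh` is determined by its columns `(a', 0)`:
  `y (a, p) (a', p') = y (a, p - p') (a', 0)` if `p' ≤ p` and `0` otherwise; put
  `P a a' = ∑ d < b a, y (a, d) (a', 0) X ^ d`. The relation `y Sh ^ (b a') e(a', 0) = 0` gives
  `y (a, p) (a', 0) = 0` for `p + b a' < b a`, this is the divisibility condition. (Recall that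
  `Sh e(a, p) = e(a, p + 1)`, or `0` if `p + 1 = b a`.)
* `exists_Q`: apply this to `y` and to `- rvs b y` (which commutes with `Sh` by `rvs_mul`, `rvs_Sh`).
  Coefficients: for `P' a a'` the coefficient of `X ^ d` is `-(-1) ^ d` times the coefficient of
  `X ^ (d + b a' - b a)` of `P a' a` (if `b a ≤ d + b a'`, and `0` otherwise; for `d < b a`), this is
  `Dual b P P'`. Both `P a a'` and `P' a a'` have degree `< b a`.
* `h0_eq` is the definition. `hi_eq`: `ik ![L, Y] = ck ![Lᵀ, Yᵀ]` (`ik_eq`); conjugate by the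
  diagonal matrix of signs `(-1) ^ (∑ p_m)` and the reversal `(a, p) ↦ (a, rev p)` of all letters:
  `Lᵀ` becomes the sum of the `rvs Sh = - Sh`, and `Yᵀ` becomes the sum of the `rvs (z m)`, and
  `rvs (- rvs y) = - y` up to the signs `(-1) ^ b a`, `rvs y = - (- rvs y)`. So up to the sign one gets the
  words with the letters `y` (six times, after a further conjugation by the signs `(-1) ^ b a`) and
  `- rvs y` (the last letter). The labels are not changed by the reversal.
-/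

namespace Pool.Agent.INV5

open Matrix Polynomial

private theorem Sh_pow_apply {β : Type} [Fintype β] [DecidableEq β] (b : β → ℕ) (k : ℕ)
    (i j : Idx b) :
    (Sh b ^ k) i j = if i.1 = j.1 ∧ (i.2 : ℕ) = (j.2 : ℕ) + k then 1 else 0 := by
  induction k generalizing i j with
  | zero =>
    rw [pow_zero, Matrix.one_apply]
    obtain ⟨a, p⟩ := i
    obtain ⟨a', p'⟩ := j
    by_cases h : a = a'
    · subst h
      by_cases hp : p = p'
      · subst hp
        simp
      · have h1 : ¬ ((⟨a, p⟩ : Idx b) = ⟨a, p'⟩) := by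
          intro h
          simp only [Sigma.mk.injEq, heq_eq_eq, true_and] at h
          exact hp h
        rw [if_neg h1, if_neg]
        rintro ⟨-, h2⟩
        exact hp (Fin.ext h2)
    · have h1 : ¬ ((⟨a, p⟩ : Idx b) = ⟨a', p'⟩) := fun h' => h (congrArg Sigma.fst h')
      rw [if_neg h1, if_neg fun h' => h h'.1]
  | succ k ih =>
    rw [pow_succ', Matrix.mul_apply]
    simp only [ih, mul_ite, mul_one, mul_zero, ← Finset.sum_filter]
    by_cases h : i.1 = j.1 ∧ (i.2 : ℕ) = (j.2 : ℕ) + (k + 1)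
    · rw [if_pos h]
      obtain ⟨a, p⟩ := i
      obtain ⟨a', p'⟩ := j
      obtain ⟨h1, h2⟩ := h
      change a = a' at h1
      subst h1
      change (p : ℕ) = (p' : ℕ) + (k + 1) at h2
      have h3 := p.2
      rw [Finset.sum_eq_single (⟨a, ⟨(p' : ℕ) + k, by omega⟩⟩ : Idx b)]
      · simp only [Sh, true_and]
        exact if_pos h2
      · rintro ⟨c, r⟩ hc hne
        rw [Finset.mem_filter] at hc
        exfalso
        apply hne
        obtain ⟨-, h4, h5⟩ := hc
        change c = a at h4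
        subst h4
        congr 1
        exact Fin.ext h5
      · intro hc
        exfalso
        apply hc
        rw [Finset.mem_filter]
        exact ⟨Finset.mem_univ _, rfl, rfl⟩
    · rw [if_neg h]
      refine Finset.sum_eq_zero fun r hr => ?_
      rw [Finset.mem_filter] at hr
      obtain ⟨-, h1, h2⟩ := hr
      simp only [Sh]
      rw [if_neg]
      rintro ⟨h3, h4⟩
      exact h ⟨h3.trans h1, by omega⟩

section aux

variable {β : Type} [Fintype β] [DecidableEq β] (b : β → ℕ) (y : Matrix (Idx b) (Idx b) ℂ)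

private theorem pow_comm (h : Sh b * y = y * Sh b) (k : ℕ) : Sh b ^ k * y = y * Sh b ^ k := by
  have h1 : Commute (Sh b) y := h
  exact (h1.pow_left k).eq

private theorem left_apply (k : ℕ) (a a' : β) (p : Fin (b a)) (p' : Fin (b a')) :
    (Sh b ^ k * y) ⟨a, p⟩ ⟨a', p'⟩ =
      if h : k ≤ (p : ℕ) then y ⟨a, ⟨(p : ℕ) - k, by omega⟩⟩ ⟨a', p'⟩ else 0 := by
  rw [Matrix.mul_apply]
  simp only [Sh_pow_apply, ite_mul, one_mul, zero_mul, ← Finset.sum_filter]
  split_ifs with h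
  · rw [Finset.sum_eq_single (⟨a, ⟨(p : ℕ) - k, by omega⟩⟩ : Idx b)]
    · rintro ⟨c, r⟩ hc hne
      rw [Finset.mem_filter] at hc
      exfalso
      apply hne
      obtain ⟨-, h4, h5⟩ := hc
      change a = c at h4
      subst h4
      congr 1
      apply Fin.ext
      change (p : ℕ) = (r : ℕ) + k at h5
      change (r : ℕ) = (p : ℕ) - k
      omega
    · intro hc
      exfalso
      apply hc
      rw [Finset.mem_filter]
      refine ⟨Finset.mem_univ _, rfl, ?_⟩
      change (p : ℕ) = (p : ℕ) - k + k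
      omega
  · refine Finset.sum_eq_zero fun r hr => ?_
    rw [Finset.mem_filter] at hr
    obtain ⟨-, h1, h2⟩ := hr
    change (p : ℕ) = (r.2 : ℕ) + k at h2
    omega

private theorem right_apply (k : ℕ) (a a' : β) (p : Fin (b a)) (p' : Fin (b a')) :
    (y * Sh b ^ k) ⟨a, p⟩ ⟨a', p'⟩ =
      if h : (p' : ℕ) + k < b a' then y ⟨a, p⟩ ⟨a', ⟨(p' : ℕ) + k, h⟩⟩ else 0 := by
  rw [Matrix.mul_apply]
  simp only [Sh_pow_apply, mul_ite, mul_one, mul_zero, ← Finset.sum_filter]
  split_ifs with h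
  · rw [Finset.sum_eq_single (⟨a', ⟨(p' : ℕ) + k, h⟩⟩ : Idx b)]
    · rintro ⟨c, r⟩ hc hne
      rw [Finset.mem_filter] at hc
      exfalso
      apply hne
      obtain ⟨-, h4, h5⟩ := hc
      change c = a' at h4
      subst h4
      congr 1
      exact Fin.ext h5
    · intro hc
      exfalso
      apply hc
      rw [Finset.mem_filter]
      exact ⟨Finset.mem_univ _, rfl, rfl⟩
  · refine Finset.sum_eq_zero fun r hr => ?_
    rw [Finset.mem_filter] at hr
    obtain ⟨-, h1, h2⟩ := hr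
    obtain ⟨c, r⟩ := r
    change c = a' at h1
    subst h1
    change (r : ℕ) = (p' : ℕ) + k at h2
    have := r.2
    omega

/-- the polynomials of a matrix which commutes with the shift -/
private noncomputable def pol (a a' : β) : ℂ[X] :=
  if h : 0 < b a' then ∑ d : Fin (b a), monomial (d : ℕ) (y ⟨a, d⟩ ⟨a', ⟨0, h⟩⟩) else 0

omit [Fintype β] [DecidableEq β] in
private theorem pol_coeff (a a' : β) (d : ℕ) : (pol b y a a').coeff d =
    if h : 0 < b a' ∧ d < b a then y ⟨a, ⟨d, h.2⟩⟩ ⟨a', ⟨0, h.1⟩⟩ else 0 := by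
  unfold pol
  by_cases h1 : 0 < b a'
  · rw [dif_pos h1, Polynomial.finsetSum_coeff]
    simp only [coeff_monomial]
    by_cases h2 : d < b a
    · rw [dif_pos ⟨h1, h2⟩, Finset.sum_eq_single (⟨d, h2⟩ : Fin (b a))]
      · rw [if_pos rfl]
      · intro r _ hr
        rw [if_neg]
        intro h3
        exact hr (Fin.ext h3)
      · intro h3
        exact absurd (Finset.mem_univ _) h3
    · rw [dif_neg fun h => h2 h.2]
      refine Finset.sum_eq_zero fun r _ => if_neg fun h3 => h2 ?_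
      rw [← h3]
      exact r.2
  · rw [dif_neg h1, dif_neg fun h => h1 h.1, coeff_zero]

end aux

theorem exists_poly {β : Type} [Fintype β] [DecidableEq β] (b : β → ℕ)
    (y : Matrix (Idx b) (Idx b) ℂ) (h : Sh b * y = y * Sh b) :
    ∃ P : Matrix β β ℂ[X], y = ymat b P ∧ (∀ a a' d, d + b a' < b a → (P a a').coeff d = 0) ∧
      (∀ a a' d, b a ≤ d → (P a a').coeff d = 0) ∧
      ∀ a a', P a a' ≠ 0 → ∃ p p', y ⟨a, p⟩ ⟨a', p'⟩ ≠ 0 := by
  refine ⟨fun a a' => pol b y a a', ?_, ?_, ?_, ?_⟩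
  · ext ⟨a, p⟩ ⟨a', p'⟩
    have h0 : 0 < b a' := lt_of_le_of_lt (Nat.zero_le _) p'.2
    have h1 := congrFun (congrFun (pow_comm b y h (p' : ℕ)) ⟨a, p⟩) ⟨a', ⟨0, h0⟩⟩
    rw [left_apply, right_apply] at h1
    have h2 : ((⟨0, h0⟩ : Fin (b a')) : ℕ) + (p' : ℕ) < b a' := by
      simp
    rw [dif_pos h2] at h1
    have h3 : (⟨((⟨0, h0⟩ : Fin (b a')) : ℕ) + (p' : ℕ), h2⟩ : Fin (b a')) = p' := by
      apply Fin.ext
      simp
    rw [h3] at h1
    rw [← h1]
    simp only [ymat]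
    by_cases h4 : (p' : ℕ) ≤ (p : ℕ)
    · rw [dif_pos h4, if_pos h4, pol_coeff, dif_pos ⟨h0, by have := p.2; omega⟩]
    · rw [dif_neg h4, if_neg h4]
  · intro a a' d hd
    rw [pol_coeff]
    split_ifs with h0
    · have h1 := congrFun (congrFun (pow_comm b y h (b a')) ⟨a, ⟨d + b a', hd⟩⟩) ⟨a', ⟨0, h0.1⟩⟩
      rw [left_apply, right_apply] at h1
      rw [dif_pos (show b a' ≤ ((⟨d + b a', hd⟩ : Fin (b a)) : ℕ) from Nat.le_add_left _ _),
        dif_neg (by simp)] at h1
      rw [← h1]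
      congr 2
      apply Fin.ext
      simp
    · rfl
  · intro a a' d hd
    rw [pol_coeff, dif_neg]
    rintro ⟨-, h1⟩
    omega
  · intro a a' hP
    by_contra h1
    push Not at h1
    apply hP
    ext d
    rw [pol_coeff, coeff_zero]
    split_ifs with h2
    · exact h1 _ _
    · rfl

private theorem ck_conj {J κ : Type*} [Fintype J] (ρ : J → J) (hρ : ∀ p, ρ (ρ p) = p) (ε : J → ℂ)
    (hε : ∀ p, ε p * ε p = 1) (Z Z' : κ → Matrix J J ℂ)
    (h : ∀ r p q, Z' r p q * ε q = -(ε p * Z r (ρ p) (ρ q))) : ck Z = ck Z' := by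
  classical
  let ρe : J ≃ J := ⟨ρ, ρ, hρ, hρ⟩
  let F : (J → ℂ) →ₗ[ℂ] (J → ℂ) :=
    { toFun := fun v p => ε p * v (ρ p)
      map_add' := fun v w => by
        funext p
        simp only [Pi.add_apply]
        ring
      map_smul' := fun a v => by
        funext p
        simp only [Pi.smul_apply, smul_eq_mul, RingHom.id_apply]
        ring }
  let G : (J → ℂ) →ₗ[ℂ] (J → ℂ) :=
    { toFun := fun v p => ε (ρ p) * v (ρ p)
      map_add' := fun v w => by
        funext p
        simp only [Pi.add_apply]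
        ring
      map_smul' := fun a v => by
        funext p
        simp only [Pi.smul_apply, smul_eq_mul, RingHom.id_apply]
        ring }
  have hFG : ∀ v, F (G v) = v := by
    intro v
    funext p
    change ε p * (ε (ρ (ρ p)) * v (ρ (ρ p))) = v p
    rw [hρ, ← mul_assoc, hε, one_mul]
  have hGF : ∀ v, G (F v) = v := by
    intro v
    funext p
    change ε (ρ p) * (ε (ρ p) * v (ρ (ρ p))) = v p
    rw [hρ, ← mul_assoc, hε, one_mul]
  have hF : ∀ r v, F ((Z r).mulVec v) = (Z' r).mulVec (-(F v)) := by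
    intro r v
    funext p
    change ε p * ∑ q, Z r (ρ p) q * v q = ∑ q, Z' r p q * (-(ε q * v (ρ q)))
    rw [Finset.mul_sum, ← Equiv.sum_comp ρe]
    refine Finset.sum_congr rfl fun q _ => ?_
    have h1 := h r p q
    change ε p * (Z r (ρ p) (ρ q) * v (ρ q)) = _
    linear_combination (v (ρ q)) * h1
  apply le_antisymm
  · refine ck_le_of_surj G (fun v => ⟨F v, hGF v⟩) Z' Z fun r w => ?_
    have h1 : (Z' r).mulVec w = F ((Z r).mulVec (-(G w))) := by
      rw [hF, map_neg, hFG, neg_neg]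
    rw [h1, hGF]
    exact mem_img Z r _
  · refine ck_le_of_surj F (fun v => ⟨G v, hFG v⟩) Z Z' fun r v => ?_
    rw [hF]
    exact mem_img Z' r _

/-- the polynomials of a word whose last letter is different -/
def qw {β : Type} (P' P : Matrix β β ℂ[X]) (m : Fin 7) : Matrix β β ℂ[X] :=
  if m = Fin.last 6 then P else P'

namespace JD

variable (D : JD)

theorem exists_Q : ∃ P P' : Matrix D.β D.β ℂ[X],
    D.y = ymat D.b P ∧ -rvs D.b D.y = ymat D.b P' ∧
    (∀ a a' d, d + D.b a' < D.b a → (P a a').coeff d = 0) ∧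
    (∀ a a' d, d + D.b a' < D.b a → (P' a a').coeff d = 0) ∧
    (∀ a a', P a a' ≠ 0 → D.χ a = D.χ a') ∧ (∀ a a', P' a a' ≠ 0 → D.χ a = D.χ a') ∧
    Dual D.b P P' := by
  obtain ⟨P, hP, hP1, hP2, hP3⟩ := exists_poly D.b D.y D.comm
  have hc : Sh D.b * (-rvs D.b D.y) = -rvs D.b D.y * Sh D.b := by
    have h1 : rvs D.b (D.y * Sh D.b) = rvs D.b (Sh D.b * D.y) := by rw [D.comm]
    rw [rvs_mul, rvs_mul, rvs_Sh] at h1
    rw [mul_neg, neg_mul, ← neg_mul, h1, mul_neg]
  obtain ⟨P', hP', hP1', hP2', hP3'⟩ := exists_poly D.b (-rvs D.b D.y) hc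
  refine ⟨P, P', hP, hP', hP1, hP1', ?_, ?_, ?_⟩
  · intro a a' h
    obtain ⟨p, p', h1⟩ := hP3 a a' h
    exact D.hy _ _ h1
  · intro a a' h
    obtain ⟨p, p', h1⟩ := hP3' a a' h
    refine (D.hy ⟨a', p'.rev⟩ ⟨a, p.rev⟩ fun h' => h1 ?_).symm
    rw [Matrix.neg_apply]
    unfold rvs
    rw [h', mul_zero, neg_zero]
  · intro a a'
    -- the coefficients
    have key : ∀ d, d < D.b a → (P' a a').coeff d =
        -((-1) ^ d * if D.b a ≤ d + D.b a' then (P a' a).coeff (d + D.b a' - D.b a) else 0) := by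
      intro d hd
      have h0 : 0 < D.b a' := D.hb a'
      have h1 := congrFun (congrFun hP' ⟨a, ⟨d, hd⟩⟩) ⟨a', ⟨0, h0⟩⟩
      have h2 : ymat D.b P' ⟨a, ⟨d, hd⟩⟩ ⟨a', ⟨0, h0⟩⟩ = (P' a a').coeff d := by
        simp only [ymat]
        rw [if_pos (Nat.zero_le _)]
        rfl
      rw [h2, Matrix.neg_apply] at h1
      rw [← h1]
      congr 1
      have h3 : rvs D.b D.y ⟨a, ⟨d, hd⟩⟩ ⟨a', ⟨0, h0⟩⟩ = (-1) ^ (d + 0) *
          D.y ⟨a', Fin.rev ⟨0, h0⟩⟩ ⟨a, Fin.rev ⟨d, hd⟩⟩ := rfl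
      rw [h3, add_zero]
      congr 1
      have h4 := congrFun (congrFun hP ⟨a', Fin.rev ⟨0, h0⟩⟩) ⟨a, Fin.rev ⟨d, hd⟩⟩
      rw [h4]
      simp only [ymat, Fin.val_rev]
      by_cases h5 : D.b a ≤ d + D.b a'
      · rw [if_pos h5, if_pos (by omega)]
        congr 1
        omega
      · rw [if_neg h5, if_neg (by omega)]
    ext n
    have hX : ∀ k : ℕ, (-X : ℂ[X]) ^ k = C ((-1) ^ k) * X ^ k := by
      intro k
      rw [neg_pow, map_pow, map_neg, map_one]
    rw [hX, hX]
    have e1 : P' a a' * (C ((-1) ^ D.b a') * X ^ D.b a') =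
        C ((-1) ^ D.b a') * (P' a a' * X ^ D.b a') := by ring
    have e2 : -(C ((-1) ^ D.b a) * X ^ D.b a) * (P a' a).comp (-X) =
        C (-(-1) ^ D.b a) * ((P a' a).comp (-X) * X ^ D.b a) := by
      rw [C_neg]
      ring
    rw [e1, e2, coeff_C_mul, coeff_C_mul, coeff_mul_X_pow', coeff_mul_X_pow']
    have e3 : ∀ j, ((P a' a).comp (-X)).coeff j = (-1) ^ j * (P a' a).coeff j := by
      intro j
      have h6 : (-X : ℂ[X]) = C (-1) * X := by
        rw [C_neg, C_1, neg_one_mul]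
      rw [h6, comp_C_mul_X_coeff, mul_comm]
    rw [e3]
    by_cases c1 : D.b a' ≤ n
    · rw [if_pos c1]
      by_cases c2 : D.b a ≤ n
      · rw [if_pos c2]
        by_cases c3 : n - D.b a' < D.b a
        · rw [key _ c3, if_pos (by omega)]
          have h7 : n - D.b a' + D.b a' - D.b a = n - D.b a := by omega
          rw [h7]
          have h8 : (-1 : ℂ) ^ D.b a' * (-1) ^ (n - D.b a') = (-1) ^ n := by
            rw [← pow_add]
            congr 1
            omega
          have h9 : (-1 : ℂ) ^ D.b a * (-1) ^ (n - D.b a) = (-1) ^ n := by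
            rw [← pow_add]
            congr 1
            omega
          linear_combination (-(P a' a).coeff (n - D.b a)) * h8 + ((P a' a).coeff (n - D.b a)) * h9
        · rw [hP2' a a' _ (by omega), hP2 a' a _ (by omega)]
          ring
      · rw [if_neg c2, hP1' a a' _ (by omega)]
        ring
    · rw [if_neg c1]
      by_cases c2 : D.b a ≤ n
      · rw [if_pos c2, hP1 a' a _ (by omega)]
        ring
      · rw [if_neg c2]
        ring

theorem YY_eq {P P' : Matrix D.β D.β ℂ[X]} (h : D.y = ymat D.b P)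
    (h' : -rvs D.b D.y = ymat D.b P') : D.YY 6 = WY (D.cb 6) (fun _ => D.b) (qw P' P) := by
  unfold YY WY
  have h1 : D.z 6 = fun m => ymat D.b (qw P' P m) := by
    funext m
    unfold z qw
    split_ifs
    · exact h
    · exact h'
  rw [h1]
  rfl

theorem h0_eq {P P' : Matrix D.β D.β ℂ[X]} (h : D.y = ymat D.b P)
    (h' : -rvs D.b D.y = ymat D.b P') : D.h0 6 = ckw (D.cb 6) (fun _ => D.b) (qw P' P) := by
  unfold h0 ckw
  rw [D.YY_eq h h']
  rfl

private theorem sgn_aux (x x' s : ℕ) :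
    (-1 : ℂ) ^ (x + x') * (-1) ^ (x' + s) = (-1) ^ (x + s) := by
  rw [← pow_add, show x + x' + (x' + s) = x + s + 2 * x' by ring, pow_add _ (x + s),
    pow_mul (-1 : ℂ) 2 x']
  simp

/-- the sign of a letter -/
private def em (m : Fin 7) (i : Idx D.b) : ℂ :=
  (-1) ^ ((i.2 : ℕ) + if m = Fin.last 6 then 0 else D.b i.1)

private theorem em_sq (m : Fin 7) (i : Idx D.b) : D.em m i * D.em m i = 1 := by
  unfold em
  rw [← pow_add, ← two_mul, pow_mul]
  simp

/-- the sign of a word -/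
private noncomputable def eps (p : Fin 7 → Idx D.b) : ℂ := ∏ m, D.em m (p m)

private theorem eps_sq (p : Fin 7 → Idx D.b) : D.eps p * D.eps p = 1 := by
  unfold eps
  rw [← Finset.prod_mul_distrib]
  exact Finset.prod_eq_one fun m _ => D.em_sq m _

/-- reversal of a word -/
private def rho (p : Fin 7 → Idx D.b) (m : Fin 7) : Idx D.b := ⟨(p m).1, (p m).2.rev⟩

/-- reversal of the words of total label one -/
private def rhoE (p : D.J 6) : D.J 6 := ⟨D.rho p.1, p.2⟩

private theorem rho_rho (p : D.J 6) : D.rhoE (D.rhoE p) = p := by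
  apply Subtype.ext
  funext m
  change (⟨(p.1 m).1, (p.1 m).2.rev.rev⟩ : Idx D.b) = p.1 m
  rw [Fin.rev_rev]

private theorem tot_conj (z z' : Fin 7 → Matrix (Idx D.b) (Idx D.b) ℂ)
    (h : ∀ m i k, z' m i k * D.em m k =
      -(D.em m i * z m ⟨k.1, k.2.rev⟩ ⟨i.1, i.2.rev⟩)) (p q : Fin 7 → Idx D.b) :
    Tot (I := fun _ => Idx D.b) z' p q * D.eps q =
      -(D.eps p * Tot (I := fun _ => Idx D.b) z (D.rho q) (D.rho p)) := by
  unfold Tot
  rw [Matrix.sum_apply, Matrix.sum_apply, Finset.sum_mul, Finset.mul_sum, ← Finset.sum_neg_distrib]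
  refine Finset.sum_congr rfl fun m _ => ?_
  by_cases hc : ∀ m', m' ≠ m → p m' = q m'
  · have e1 : At (I := fun _ => Idx D.b) m (z' m) p q = z' m (p m) (q m) := if_pos hc
    have e2 : At (I := fun _ => Idx D.b) m (z m) (D.rho q) (D.rho p) =
        z m (D.rho q m) (D.rho p m) := by
      refine if_pos fun m' hm => ?_
      unfold rho
      rw [hc m' hm]
    have e3 : D.eps q = D.em m (q m) * ∏ m' ∈ Finset.univ.erase m, D.em m' (q m') :=
      (Finset.mul_prod_erase _ _ (Finset.mem_univ m)).symm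
    have e4 : D.eps p = D.em m (p m) * ∏ m' ∈ Finset.univ.erase m, D.em m' (q m') := by
      rw [show (∏ m' ∈ Finset.univ.erase m, D.em m' (q m')) =
        ∏ m' ∈ Finset.univ.erase m, D.em m' (p m') from Finset.prod_congr rfl fun m' hm => by
          rw [hc m' (Finset.ne_of_mem_erase hm)]]
      exact (Finset.mul_prod_erase _ _ (Finset.mem_univ m)).symm
    rw [e1, e2, e3, e4]
    have h1 := h m (p m) (q m)
    change z' m (p m) (q m) * _ = _
    have e5 : D.rho q m = ⟨(q m).1, (q m).2.rev⟩ := rfl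
    have e6 : D.rho p m = ⟨(p m).1, (p m).2.rev⟩ := rfl
    rw [e5, e6]
    linear_combination (∏ m' ∈ Finset.univ.erase m, D.em m' (q m')) * h1
  · have e1 : At (I := fun _ => Idx D.b) m (z' m) p q = 0 := if_neg hc
    have e2 : At (I := fun _ => Idx D.b) m (z m) (D.rho q) (D.rho p) = 0 := by
      refine if_neg fun hc' => hc fun m' hm => ?_
      have h1 := hc' m' hm
      have h2 : D.rho (D.rho q) m' = D.rho (D.rho p) m' := by
        change (⟨(D.rho q m').1, (D.rho q m').2.rev⟩ : Idx D.b) =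
          ⟨(D.rho p m').1, (D.rho p m').2.rev⟩
        rw [h1]
      have h3 : ∀ q : Fin 7 → Idx D.b, D.rho (D.rho q) m' = q m' := by
        intro q
        change (⟨(q m').1, (q m').2.rev.rev⟩ : Idx D.b) = q m'
        rw [Fin.rev_rev]
      rw [h3, h3] at h2
      exact h2.symm
    rw [e1, e2]
    ring

theorem hi_eq {P P' : Matrix D.β D.β ℂ[X]} (h : D.y = ymat D.b P)
    (h' : -rvs D.b D.y = ymat D.b P') : D.hi 6 = ckw (D.cb 6) (fun _ => D.b) (qw P P') := by
  unfold hi ckw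
  rw [ik_eq]
  refine ck_conj D.rhoE D.rho_rho (fun p => D.eps p.1) (fun p => D.eps_sq p.1) _ _ ?_
  intro r p q
  fin_cases r
  · have h1 := D.tot_conj (fun _ => Sh D.b) (fun _ => Sh D.b) (fun m i k => ?_) p.1 q.1
    · exact h1
    · obtain ⟨a, x⟩ := i
      obtain ⟨a', x'⟩ := k
      by_cases ha : a = a'
      · subst ha
        have h2 := congrFun (congrFun (rvs_Sh D.b) ⟨a, x⟩) ⟨a, x'⟩
        have h3 : rvs D.b (Sh D.b) ⟨a, x⟩ ⟨a, x'⟩ = (-1) ^ ((x : ℕ) + (x' : ℕ)) *
          Sh D.b ⟨a, x'.rev⟩ ⟨a, x.rev⟩ := rfl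
        rw [h3, Matrix.neg_apply] at h2
        have h4 : Sh D.b ⟨a, x⟩ ⟨a, x'⟩ = -((-1) ^ ((x : ℕ) + (x' : ℕ)) *
          Sh D.b ⟨a, x'.rev⟩ ⟨a, x.rev⟩) := by rw [h2, neg_neg]
        rw [h4]
        have h5 : (-1 : ℂ) ^ ((x : ℕ) + (x' : ℕ)) * D.em m ⟨a, x'⟩ = D.em m ⟨a, x⟩ := by
          change (-1 : ℂ) ^ ((x : ℕ) + (x' : ℕ)) * (-1) ^ ((x' : ℕ) + _) = (-1) ^ ((x : ℕ) + _)
          exact sgn_aux _ _ _
        linear_combination (-(Sh D.b ⟨a, x'.rev⟩ ⟨a, x.rev⟩ : ℂ)) * h5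
      · have h2 : (Sh D.b ⟨a, x⟩ ⟨a', x'⟩ : ℂ) = 0 := by
          simp only [Sh]
          exact if_neg fun h' => ha h'.1
        have h3 : (Sh D.b ⟨a', x'.rev⟩ ⟨a, x.rev⟩ : ℂ) = 0 := by
          simp only [Sh]
          exact if_neg fun h' => ha h'.1.symm
        rw [h2, h3]
        ring
  · have h1 := D.tot_conj (D.z 6) (fun m => ymat D.b (qw P P' m)) (fun m i k => ?_) p.1 q.1
    · exact h1
    · obtain ⟨a, x⟩ := i
      obtain ⟨a', x'⟩ := k
      by_cases hm : m = Fin.last 6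
      · have e1 : ymat D.b (qw P P' m) = -rvs D.b D.y := by
          unfold qw
          rw [if_pos hm, h']
        have e2 : D.z 6 m = D.y := by
          unfold z
          rw [if_pos hm]
        have e3 : ∀ (a : D.β) (x : Fin (D.b a)), D.em m ⟨a, x⟩ = (-1) ^ ((x : ℕ) + 0) := by
          intro a x
          unfold em
          rw [if_pos hm]
        have e4 : rvs D.b D.y ⟨a, x⟩ ⟨a', x'⟩ = (-1) ^ ((x : ℕ) + (x' : ℕ)) *
          D.y ⟨a', x'.rev⟩ ⟨a, x.rev⟩ := rfl
        rw [e1, e2, e3, e3, Matrix.neg_apply, e4]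
        have h5 := sgn_aux (x : ℕ) (x' : ℕ) 0
        linear_combination (-(D.y ⟨a', x'.rev⟩ ⟨a, x.rev⟩ : ℂ)) * h5
      · have e1 : ymat D.b (qw P P' m) = D.y := by
          unfold qw
          rw [if_neg hm, h]
        have e2 : D.z 6 m = -rvs D.b D.y := by
          unfold z
          rw [if_neg hm]
        have e3 : ∀ (a : D.β) (x : Fin (D.b a)), D.em m ⟨a, x⟩ = (-1) ^ ((x : ℕ) + D.b a) := by
          intro a x
          unfold em
          rw [if_neg hm]
        have e4 : rvs D.b (rvs D.b D.y) ⟨a, x⟩ ⟨a', x'⟩ = (-1) ^ ((x : ℕ) + (x' : ℕ)) *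
          rvs D.b D.y ⟨a', x'.rev⟩ ⟨a, x.rev⟩ := rfl
        rw [rvs_rvs] at e4
        change (-1) ^ (D.b a + D.b a') * D.y ⟨a, x⟩ ⟨a', x'⟩ = _ at e4
        rw [e1, e2, e3, e3, Matrix.neg_apply]
        have h6 : (-1 : ℂ) ^ ((x' : ℕ) + D.b a') = (-1) ^ ((x : ℕ) + D.b a) *
            ((-1) ^ ((x : ℕ) + (x' : ℕ)) * (-1) ^ (D.b a + D.b a')) := by
          rw [← pow_add, ← pow_add, show (x : ℕ) + D.b a + ((x : ℕ) + (x' : ℕ) + (D.b a + D.b a')) =
            (x' : ℕ) + D.b a' + 2 * ((x : ℕ) + D.b a) by ring, pow_add _ ((x' : ℕ) + D.b a'),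
            pow_mul (-1 : ℂ) 2 ((x : ℕ) + D.b a)]
          simp
        have h7 : (-1 : ℂ) ^ ((x : ℕ) + (x' : ℕ)) * (-1) ^ ((x : ℕ) + (x' : ℕ)) = 1 := by
          rw [← pow_add, ← two_mul, pow_mul (-1 : ℂ) 2]
          simp
        rw [h6]
        linear_combination ((-1) ^ ((x : ℕ) + D.b a) * (-1) ^ ((x : ℕ) + (x' : ℕ))) * e4 +
          ((-1) ^ ((x : ℕ) + D.b a) * rvs D.b D.y ⟨a', x'.rev⟩ ⟨a, x.rev⟩) * h7

theorem Lab_qw {P P' : Matrix D.β D.β ℂ[X]} (h : ∀ a a', P a a' ≠ 0 → D.χ a = D.χ a')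
    (h' : ∀ a a', P' a a' ≠ 0 → D.χ a = D.χ a') : Lab (D.cb 6) (qw P' P) := by
  intro m a a' hQ
  unfold qw at hQ
  unfold cb
  split_ifs at hQ with h1
  · rw [if_pos h1, if_pos h1, h a a' hQ]
  · rw [if_neg h1, if_neg h1, h' a a' hQ]

end JD

theorem Div_qw {β : Type} {b : β → ℕ} {P P' : Matrix β β ℂ[X]}
    (h : ∀ a a' d, d + b a' < b a → (P a a').coeff d = 0)
    (h' : ∀ a a' d, d + b a' < b a → (P' a a').coeff d = 0) :
    Div (fun _ => b) (qw P' P) := by
  intro m a a' d hd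
  unfold qw
  split_ifs
  · exact h a a' d hd
  · exact h' a a' d hd

end Pool.Agent.INV5
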