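import Pool.Agent.INV5.NO3
import Pool.Agent.INV5.WO4

/-!
# INV5, module UB: upper bounds for coinvariants and invariants of words

`ubw_card`: for every tuple `α` let `m0(α)` be a letter with the largest size `s m (α m)`. The words
`e_p` with `(p m0).2 = 0` (where `m0 = m0(α)`, `α` the tuple of blocks of `p`) span modulo the image of
`WL`: induction on `(p m0).2 = j + 1`: let `p'` be `p` with the `m0`-position `j`;
`WL e_(p') = e_p + ∑_{m ≠ m0} e_(...)`, where the other words have the `m0`-position `j` (or are zero).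
Then `ck_le_card`. The number of these words with tuple `α` is `∏_{m ≠ m0} s m (α m)` if all sizes are
positive, and `0` otherwise. `ubw`: `∏_{m ≠ m0} s_m ≤ ∏_m s_m ^ (6/7)` for `N ≤ 7` since
`∏_m s_m ^ (1/7) ≤ s_(m0) ^ (N/7) ≤ s_(m0)`.
`h0_le`, `hi_le`: `h0 e = ck ![LL, YY] ≤ ck ![LL]`, `hi e ≤ ik ![LL] = ck ![LL]` (`ck_mono`, `ik_le`), then
`ubw`, `holder`, `nw_67`.
-/

namespace Pool.Agent.INV5

open Matrix

section words

variable {N : ℕ} {β : Type} [Fintype β] [DecidableEq β] (c : Fin N → β → Lam) (s : Fin N → β → ℕ)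

/-- tuple of blocks of a word -/
private def tp (p : One (cw c s)) : Tup c := ⟨fun m => (p.1 m).1, p.2⟩

private theorem WL_apply (r p : One (cw c s)) : WL c s r p =
    ∑ m, if ∀ m', m' ≠ m → r.1 m' = p.1 m' then Sh (s m) (r.1 m) (p.1 m) else 0 := by
  show (∑ m, At m (Sh (s m))) r.1 p.1 = _
  rw [Matrix.sum_apply]
  rfl

private theorem mulVec_single (p : One (cw c s)) :
    (WL c s).mulVec (Pi.single p 1) = ∑ r, WL c s r p • (Pi.single r 1 : One (cw c s) → ℂ) := by
  rw [Matrix.mulVec_single_one]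
  funext q
  rw [Finset.sum_apply, Finset.sum_eq_single q]
  · rw [Pi.smul_apply, Pi.single_eq_same, smul_eq_mul, mul_one]
    rfl
  · intro r _ hr
    rw [Pi.smul_apply, Pi.single_eq_of_ne hr.symm, smul_zero]
  · intro h
    exact absurd (Finset.mem_univ _) h

omit [Fintype β] [DecidableEq β] in
private theorem idx_ext {b : β → ℕ} {i k : Idx b} (h : i.1 = k.1) (h' : (i.2 : ℕ) = (k.2 : ℕ)) :
    i = k := by
  obtain ⟨a, x⟩ := i
  obtain ⟨a', x'⟩ := k
  dsimp only at h
  subst h
  congr 1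
  exact Fin.ext h'

private theorem span_aux (m0 : Tup c → Fin N) (j : ℕ) : ∀ p : One (cw c s),
    ((p.1 (m0 (tp c s p))).2 : ℕ) = j → (Pi.single p 1 : One (cw c s) → ℂ) ∈
      img ![WL c s] ⊔ Submodule.span ℂ ((fun i => (Pi.single i 1 : One (cw c s) → ℂ)) ''
        ((Finset.univ.filter fun p : One (cw c s) => ((p.1 (m0 (tp c s p))).2 : ℕ) = 0 :
          Finset (One (cw c s))) : Set (One (cw c s)))) := by
  classical
  induction j with
  | zero =>
    intro p hp
    refine Submodule.mem_sup_right (Submodule.subset_span ⟨p, ?_, rfl⟩)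
    simpa using hp
  | succ j ih =>
    intro p hp
    set S := img ![WL c s] ⊔ Submodule.span ℂ ((fun i => (Pi.single i 1 : One (cw c s) → ℂ)) ''
        ((Finset.univ.filter fun p : One (cw c s) => ((p.1 (m0 (tp c s p))).2 : ℕ) = 0 :
          Finset (One (cw c s))) : Set (One (cw c s)))) with hS
    set m1 := m0 (tp c s p) with hm1
    have hlt : j < s m1 (p.1 m1).1 := by
      have := (p.1 m1).2.2
      omega
    let p0 : ∀ m, Idx (s m) := Function.update p.1 m1 ⟨(p.1 m1).1, ⟨j, hlt⟩⟩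
    have hp0 : p0 m1 = ⟨(p.1 m1).1, ⟨j, hlt⟩⟩ := Function.update_self _ _ _
    have hpj : ((p0 m1).2 : ℕ) = j := congrArg (fun i : Idx (s m1) => (i.2 : ℕ)) hp0
    have hp01 : ∀ m, (p0 m).1 = (p.1 m).1 := by
      intro m
      by_cases h : m = m1
      · subst h
        simp only [p0, Function.update_self]
      · simp only [p0, Function.update_of_ne h]
    let p' : One (cw c s) := ⟨p0, by
      rw [← p.2]
      refine Finset.prod_congr rfl fun m _ => ?_
      show c m (p0 m).1 = c m (p.1 m).1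
      rw [hp01]⟩
    have htp : tp c s p' = tp c s p := Subtype.ext (funext hp01)
    have h1 : (WL c s).mulVec (Pi.single p' 1) ∈ S :=
      Submodule.mem_sup_left (mem_img ![WL c s] 0 _)
    rw [mulVec_single, ← Finset.add_sum_erase _ _ (Finset.mem_univ p)] at h1
    have h2 : WL c s p p' = 1 := by
      rw [WL_apply, Finset.sum_eq_single m1]
      · rw [if_pos]
        · show (if (p.1 m1).1 = (p0 m1).1 ∧ ((p.1 m1).2 : ℕ) = ((p0 m1).2 : ℕ) + 1 then (1 : ℂ)
            else 0) = 1
          rw [if_pos]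
          exact ⟨(hp01 m1).symm, by rw [hpj, hp]⟩
        · intro m' hm'
          simp only [p', p0, Function.update_of_ne hm']
      · intro m _ hm
        rw [if_neg]
        intro h
        have h3 := h m1 hm.symm
        have h4 : ((p.1 m1).2 : ℕ) = j :=
          (congrArg (fun i : Idx (s m1) => (i.2 : ℕ)) h3).trans hpj
        omega
      · intro h
        exact absurd (Finset.mem_univ _) h
    have h3 : ∑ r ∈ Finset.univ.erase p, WL c s r p' • (Pi.single r 1 : One (cw c s) → ℂ) ∈ S := by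
      refine S.sum_mem fun r hr => ?_
      rw [Finset.mem_erase] at hr
      by_cases h4 : WL c s r p' = 0
      · rw [h4, zero_smul]
        exact S.zero_mem
      · refine S.smul_mem _ (ih r ?_)
        rw [WL_apply] at h4
        obtain ⟨m, _, hm⟩ := Finset.exists_ne_zero_of_sum_ne_zero h4
        have h5 : ∀ m', m' ≠ m → r.1 m' = p'.1 m' := by
          by_contra h6
          rw [if_neg h6] at hm
          exact hm rfl
        rw [if_pos h5, Sh] at hm
        have h6 : (r.1 m).1 = (p'.1 m).1 ∧ ((r.1 m).2 : ℕ) = ((p'.1 m).2 : ℕ) + 1 := by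
          by_contra h7
          rw [if_neg h7] at hm
          exact hm rfl
        have h7 : ∀ m', (r.1 m').1 = (p'.1 m').1 := by
          intro m'
          by_cases h8 : m' = m
          · subst h8
            exact h6.1
          · rw [h5 m' h8]
        have htr : tp c s r = tp c s p := by
          rw [← htp]
          exact Subtype.ext (funext h7)
        rw [htr]
        show ((r.1 m1).2 : ℕ) = j
        by_cases h8 : m1 = m
        · exfalso
          apply hr.1
          refine Subtype.ext (funext fun m' => ?_)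
          by_cases h9 : m' = m
          · subst h9
            subst h8
            refine idx_ext ((h6.1).trans (hp01 _)) ?_
            rw [h6.2]
            show ((p0 m1).2 : ℕ) + 1 = _
            rw [hpj, hp]
          · rw [h5 m' h9]
            simp only [p', p0]
            rw [Function.update_of_ne]
            rw [h8]
            exact h9
        · exact (congrArg (fun i : Idx (s m1) => (i.2 : ℕ)) (h5 m1 h8)).trans hpj
    rw [h2, one_smul] at h1
    have h4 := S.sub_mem h1 h3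
    rwa [add_sub_cancel_right] at h4

end words

theorem ubw {N : ℕ} {β : Type} [Fintype β] [DecidableEq β] (hN0 : 0 < N) (hN : N ≤ 7)
    (c : Fin N → β → Lam) (s : Fin N → β → ℕ) :
    (ck ![WL c s] : ℝ) ≤ ∑ α : Tup c, ∏ m, (s m (α.1 m) : ℝ) ^ ((6 : ℝ) / 7) := by
  classical
  have hne : Nonempty (Fin N) := ⟨⟨0, hN0⟩⟩
  have hmax : ∀ α : Tup c, ∃ m0, ∀ m, s m (α.1 m) ≤ s m0 (α.1 m0) := fun α =>
    Finite.exists_max fun m => s m (α.1 m)
  choose m0 hm0 using hmax
  have h1 := ck_le_card ![WL c s]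
    (Finset.univ.filter fun p : One (cw c s) => ((p.1 (m0 (tp c s p))).2 : ℕ) = 0)
    fun p => span_aux c s m0 _ p rfl
  have h2 : (Finset.univ.filter fun p : One (cw c s) => ((p.1 (m0 (tp c s p))).2 : ℕ) = 0).card =
      ∑ α : Tup c, ((Finset.univ.filter fun p : One (cw c s) =>
        ((p.1 (m0 (tp c s p))).2 : ℕ) = 0).filter fun p => tp c s p = α).card :=
    Finset.card_eq_sum_card_fiberwise fun p _ => Finset.mem_univ _
  have h3 : (ck ![WL c s] : ℝ) ≤ ∑ α : Tup c, ((((Finset.univ.filter fun p : One (cw c s) =>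
        ((p.1 (m0 (tp c s p))).2 : ℕ) = 0).filter fun p => tp c s p = α).card : ℕ) : ℝ) := by
    rw [← Nat.cast_sum, ← h2]
    exact_mod_cast h1
  refine h3.trans (Finset.sum_le_sum fun α _ => ?_)
  -- number of words
  set F := ((Finset.univ.filter fun p : One (cw c s) =>
        ((p.1 (m0 (tp c s p))).2 : ℕ) = 0).filter fun p => tp c s p = α) with hF
  have hmem : ∀ p ∈ F, ((p.1 (m0 α)).2 : ℕ) = 0 ∧ tp c s p = α := by
    intro p hp
    rw [hF, Finset.mem_filter, Finset.mem_filter] at hp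
    have h4 := hp.1.2
    rw [hp.2] at h4
    exact ⟨h4, hp.2⟩
  have hcard : F.card ≤ ∏ m ∈ Finset.univ.erase (m0 α), s m (α.1 m) := by
    have h5 : F.card ≤ (Finset.univ.pi fun m => if m = m0 α then {0} else
        Finset.range (s m (α.1 m)) : Finset (∀ m ∈ (Finset.univ : Finset (Fin N)), ℕ)).card := by
      refine Finset.card_le_card_of_injOn (fun p => fun m _ => ((p.1 m).2 : ℕ)) ?_ ?_
      · intro p hp
        obtain ⟨h6, h7⟩ := hmem p hp
        rw [Finset.mem_coe, Finset.mem_pi]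
        intro m _
        by_cases h8 : m = m0 α
        · rw [if_pos h8, Finset.mem_singleton]
          subst h8
          exact h6
        · rw [if_neg h8, Finset.mem_range]
          have h9 : (p.1 m).1 = α.1 m := by rw [← h7]; rfl
          rw [← h9]
          exact (p.1 m).2.2
      · intro p hp q hq hpq
        obtain ⟨h6, h7⟩ := hmem p hp
        obtain ⟨h6', h7'⟩ := hmem q hq
        refine Subtype.ext (funext fun m => ?_)
        refine idx_ext ?_ ?_
        · have h9 : (p.1 m).1 = α.1 m := by rw [← h7]; rfl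
          have h10 : (q.1 m).1 = α.1 m := by rw [← h7']; rfl
          rw [h9, h10]
        · exact congrFun (congrFun hpq m) (Finset.mem_univ m)
    rw [Finset.card_pi, ← Finset.mul_prod_erase _ _ (Finset.mem_univ (m0 α))] at h5
    rw [if_pos rfl, Finset.card_singleton, one_mul] at h5
    refine h5.trans (le_of_eq (Finset.prod_congr rfl fun m hm => ?_))
    rw [if_neg (Finset.ne_of_mem_erase hm), Finset.card_range]
  have hnn : 0 ≤ ∏ m, (s m (α.1 m) : ℝ) ^ ((6 : ℝ) / 7) :=
    Finset.prod_nonneg fun m _ => Real.rpow_nonneg (Nat.cast_nonneg _) _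
  rcases Nat.eq_zero_or_pos (s (m0 α) (α.1 (m0 α))) with h0 | h0
  · have : F = ∅ := by
      rw [Finset.eq_empty_iff_forall_notMem]
      intro p hp
      obtain ⟨-, h7⟩ := hmem p hp
      have h9 : ∀ m, (p.1 m).1 = α.1 m := by
        intro m
        rw [← h7]
        rfl
      have h10 : 0 < s (m0 α) (p.1 (m0 α)).1 := lt_of_le_of_lt (Nat.zero_le _) (p.1 (m0 α)).2.2
      rw [h9, h0] at h10
      exact absurd h10 (Nat.not_lt_zero _)
    rw [this, Finset.card_empty, Nat.cast_zero]
    exact hnn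
  · refine (Nat.cast_le.mpr hcard).trans ?_
    rw [Nat.cast_prod, ← Finset.mul_prod_erase _ (fun m => (s m (α.1 m) : ℝ) ^ ((6 : ℝ) / 7))
      (Finset.mem_univ (m0 α))]
    set M : ℝ := (s (m0 α) (α.1 (m0 α)) : ℝ) with hM
    have hM1 : 1 ≤ M := by
      rw [hM]
      exact_mod_cast h0
    have h4 : ∏ m ∈ Finset.univ.erase (m0 α), (s m (α.1 m) : ℝ) ^ ((1 : ℝ) / 7) ≤
        M ^ ((6 : ℝ) / 7) := by
      calc ∏ m ∈ Finset.univ.erase (m0 α), (s m (α.1 m) : ℝ) ^ ((1 : ℝ) / 7)
          ≤ ∏ m ∈ Finset.univ.erase (m0 α), M ^ ((1 : ℝ) / 7) := by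
            refine Finset.prod_le_prod (fun m _ => Real.rpow_nonneg (Nat.cast_nonneg _) _)
              fun m _ => ?_
            refine Real.rpow_le_rpow (Nat.cast_nonneg _) ?_ (by norm_num)
            rw [hM]
            exact_mod_cast hm0 α m
        _ = M ^ (((1 : ℝ) / 7) * (N - 1 : ℕ)) := by
            rw [Finset.prod_const, Finset.card_erase_of_mem (Finset.mem_univ _), Finset.card_univ,
              Fintype.card_fin, Real.rpow_mul (by linarith), Real.rpow_natCast]
        _ ≤ M ^ ((6 : ℝ) / 7) := by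
            refine Real.rpow_le_rpow_of_exponent_le hM1 ?_
            have : ((N - 1 : ℕ) : ℝ) ≤ 6 := by
              have : N - 1 ≤ 6 := by omega
              exact_mod_cast this
            linarith
    have h5 : ∏ m ∈ Finset.univ.erase (m0 α), (s m (α.1 m) : ℝ) =
        (∏ m ∈ Finset.univ.erase (m0 α), (s m (α.1 m) : ℝ) ^ ((1 : ℝ) / 7)) *
        ∏ m ∈ Finset.univ.erase (m0 α), (s m (α.1 m) : ℝ) ^ ((6 : ℝ) / 7) := by
      rw [← Finset.prod_mul_distrib]
      refine Finset.prod_congr rfl fun m _ => ?_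
      rcases Nat.eq_zero_or_pos (s m (α.1 m)) with h6 | h6
      · rw [h6, Nat.cast_zero, Real.zero_rpow (by norm_num), zero_mul]
      · rw [← Real.rpow_add (by exact_mod_cast h6)]
        norm_num
    rw [h5]
    exact mul_le_mul_of_nonneg_right h4
      (Finset.prod_nonneg fun m _ => Real.rpow_nonneg (Nat.cast_nonneg _) _)

private theorem LL_le : ∃ C : ℝ, 0 < C ∧ ∀ (D : JD) (e : ℕ), e ≤ 6 →
    (ck ![D.LL e] : ℝ) ≤ C * (D.AA : ℝ) ^ (((e : ℝ) + 1) / 7) := by
  obtain ⟨C, hC, h⟩ := JD.nw_67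
  refine ⟨max C 1 ^ 7, by positivity, fun D e he => ?_⟩
  have h1 : (ck ![D.LL e] : ℝ) ≤ ∑ α : Tup (D.cb e), ∏ m, (D.b (α.1 m) : ℝ) ^ ((6 : ℝ) / 7) :=
    ubw (Nat.succ_pos e) (by omega) (D.cb e) fun _ => D.b
  have h2 := D.holder (N := e + 1) (by omega) (D.cb e) (fun m => by
    by_cases hm : m = Fin.last e
    · left
      intro a
      rw [JD.cb, if_pos hm]
    · right
      intro a
      rw [JD.cb, if_neg hm]) (fun _ a => (D.b a : ℝ) ^ ((6 : ℝ) / 7))
    (fun _ a => Real.rpow_nonneg (Nat.cast_nonneg _) _)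
    (fun _ => D.sy_size fun b => (b : ℝ) ^ ((6 : ℝ) / 7))
  refine h1.trans (h2.trans ?_)
  rw [Finset.prod_const, Finset.card_univ, Fintype.card_fin]
  have h3 := h D
  have h4 : 0 ≤ D.nrm fun a => (D.b a : ℝ) ^ ((6 : ℝ) / 7) :=
    D.nrm_nonneg _ fun a => Real.rpow_nonneg (Nat.cast_nonneg _) _
  have h5 : (0 : ℝ) ≤ (D.AA : ℝ) := Nat.cast_nonneg _
  calc (D.nrm fun a => (D.b a : ℝ) ^ ((6 : ℝ) / 7)) ^ (e + 1)
      ≤ (C * (D.AA : ℝ) ^ ((1 : ℝ) / 7)) ^ (e + 1) := pow_le_pow_left₀ h4 h3 _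
    _ = C ^ (e + 1) * (D.AA : ℝ) ^ (((e : ℝ) + 1) / 7) := by
        rw [mul_pow, ← Real.rpow_natCast ((D.AA : ℝ) ^ ((1 : ℝ) / 7)), ← Real.rpow_mul h5]
        congr 2
        push_cast
        ring
    _ ≤ max C 1 ^ 7 * (D.AA : ℝ) ^ (((e : ℝ) + 1) / 7) := by
        refine mul_le_mul_of_nonneg_right ?_ (Real.rpow_nonneg h5 _)
        calc C ^ (e + 1) ≤ max C 1 ^ (e + 1) := pow_le_pow_left₀ hC.le (le_max_left _ _) _
          _ ≤ max C 1 ^ 7 := pow_le_pow_right₀ (le_max_right _ _) (by omega)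

theorem h0_le : ∃ C : ℝ, 0 < C ∧ ∀ (D : JD) (e : ℕ), e ≤ 6 →
    (D.h0 e : ℝ) ≤ C * (D.AA : ℝ) ^ (((e : ℝ) + 1) / 7) := by
  obtain ⟨C, hC, h⟩ := LL_le
  refine ⟨C, hC, fun D e he => le_trans ?_ (h D e he)⟩
  refine Nat.cast_le.mpr (ck_mono ![D.LL e] ![D.LL e, D.YY e] fun r v => ?_)
  fin_cases r
  exact mem_img ![D.LL e, D.YY e] 0 v

theorem hi_le : ∃ C : ℝ, 0 < C ∧ ∀ (D : JD) (e : ℕ), e ≤ 6 →
    (D.hi e : ℝ) ≤ C * (D.AA : ℝ) ^ (((e : ℝ) + 1) / 7) := by
  obtain ⟨C, hC, h⟩ := LL_le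
  exact ⟨C, hC, fun D e he => le_trans (Nat.cast_le.mpr (ik_le _ _)) (h D e he)⟩

end Pool.Agent.INV5
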