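import Pool.Agent.INV5.LA
import Pool.Agent.INV5.UB

/-!
# INV5, module LB: truncation of the words to free words on the long blocks

`lb`. Step 1: for `m = 0, ..., 6` let `s_m` be the sizes `b - p` for the letters `< m` and `b` for the letters
`≥ m`. `tel` at the letter `m`: `ckw s_m ≤ ckw (s_m with min (b, p) at m) + ckw s_(m+1)`. The first term is
`≤ ck ![WL]` (`ck_mono`), so by `ubw` and `holder` (weights `≤ b ^ (6/7)` for the other letters) it is
`≤ nw (min b p ^ (6/7)) * nw (b ^ (6/7)) ^ 6`. After seven steps: all sizes are `b - p`.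
Step 2: `tel` with `q` instead of `p`, repeatedly for every letter: the size `b - p - j q` is replaced by
`min (b - p - j q) q` and `b - p - (j + 1) q`; after `L` steps the size is `0` (and `ckw = 0`, there are no
words). So `ckw (b - p) ≤ ∑_{j : Fin 7 → Fin L} ckw (min (b - p - j m * q) q)`, and by `mon` every term is
`≤ ckw (min (b - p) q)`, and `min (b a - p) q = if p < b a then q else 0` by the gap condition.
-/

namespace Pool.Agent.INV5.JD

open Matrix Polynomial

private theorem ckw_empty (D : JD) {c : Fin 7 → D.β → Lam} (s : Fin 7 → D.β → ℕ)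
    (Q : Fin 7 → Matrix D.β D.β ℂ[X]) (m0 : Fin 7) (h : ∀ a, s m0 a = 0) : ckw c s Q = 0 := by
  have hE : IsEmpty (One (cw c s)) := ⟨fun x => by
    have h1 := (x.1 m0).2.2
    have h2 := h (x.1 m0).1
    omega⟩
  have : Subsingleton (One (cw c s) → ℂ) := ⟨fun a b => funext fun x => (hE.false x).elim⟩
  unfold ckw ck
  exact Module.finrank_zero_of_subsingleton

private theorem letter (D : JD) {c : Fin 7 → D.β → Lam} (Q : Fin 7 → Matrix D.β D.β ℂ[X])
    (m0 : Fin 7) (q : ℕ) : ∀ (L : ℕ) (s : Fin 7 → D.β → ℕ), Div s Q → (∀ a, s m0 a ≤ L * q) →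
    ckw c s Q ≤ L * ckw c (Function.update s m0 fun a => min (s m0 a) q) Q := by
  intro L
  induction L with
  | zero =>
    intro s _ h
    rw [ckw_empty D s Q m0 fun a => by have := h a; omega]
    exact Nat.zero_le _
  | succ L ih =>
    intro s hs h
    have h1 := tel c s Q hs m0 q
    have h2 := ih (Function.update s m0 fun a => s m0 a - q) (Div_sub hs m0 q) fun a => by
      rw [Function.update_self]
      have h3 := h a
      rw [Nat.add_mul, Nat.one_mul] at h3
      omega
    rw [Function.update_self, Function.update_idem] at h2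
    have h3 : ckw c (Function.update s m0 fun a => min (s m0 a - q) q) Q ≤
        ckw c (Function.update s m0 fun a => min (s m0 a) q) Q := by
      refine mon c _ _ Q (Div_min hs m0 q) ?_ fun m a => ?_
      · have h4 := Div_min (Div_sub hs m0 q) m0 q
        rwa [Function.update_self, Function.update_idem] at h4
      · rcases eq_or_ne m m0 with rfl | hne
        · rw [Function.update_self, Function.update_self]
          omega
        · rw [Function.update_of_ne hne, Function.update_of_ne hne]
    calc ckw c s Q ≤ _ := h1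
      _ ≤ ckw c (Function.update s m0 fun a => min (s m0 a) q) Q +
          L * ckw c (Function.update s m0 fun a => min (s m0 a) q) Q :=
        Nat.add_le_add_left (le_trans h2 (Nat.mul_le_mul_left _ h3)) _
      _ = _ := by ring

private theorem ckw_le (D : JD) (s : Fin 7 → D.β → ℕ) (Q : Fin 7 → Matrix D.β D.β ℂ[X]) :
    (ckw (D.cb 6) s Q : ℝ) ≤ ∑ α : Tup (D.cb 6), ∏ m, (s m (α.1 m) : ℝ) ^ ((6 : ℝ) / 7) := by
  refine le_trans ?_ (ubw (by norm_num) (by norm_num) (D.cb 6) s)
  have h : ckw (D.cb 6) s Q ≤ ck ![WL (D.cb 6) s] := by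
    refine ck_mono _ _ fun r v => ?_
    fin_cases r
    exact mem_img ![WL (D.cb 6) s, WY (D.cb 6) s Q] 0 v
  exact_mod_cast h

private theorem prodk (k : Fin 7) (A B : ℝ) : ∏ m : Fin 7, (if m = k then A else B) = A * B ^ 6 := by
  fin_cases k <;> simp [Fin.prod_univ_succ] <;> ring

theorem lb (D : JD) (Q : Fin 7 → Matrix D.β D.β ℂ[X]) (hQ : Div (fun _ => D.b) Q)
    (p q L : ℕ) (hq : 0 < q) (hgap : ∀ a, p < D.b a → p + q ≤ D.b a)
    (hL : ∀ a, D.b a ≤ p + L * q) :
    (ckw (D.cb 6) (fun _ => D.b) Q : ℝ) ≤
      7 * D.nw (fun b => ((min b p : ℕ) : ℝ) ^ ((6 : ℝ) / 7)) *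
        D.nw (fun b => (b : ℝ) ^ ((6 : ℝ) / 7)) ^ 6 +
      (L : ℝ) ^ 7 * ckw (D.cb 6) (fun _ a => if p < D.b a then q else 0) Q := by
  set V : ℝ := D.nw (fun b => ((min b p : ℕ) : ℝ) ^ ((6 : ℝ) / 7)) *
        D.nw (fun b => (b : ℝ) ^ ((6 : ℝ) / 7)) ^ 6 with hV
  -- step 1
  have step1 : ∀ k : ℕ, k ≤ 7 → (ckw (D.cb 6) (fun _ => D.b) Q : ℝ) ≤
      k * V + ckw (D.cb 6) (fun m a => if (m : ℕ) < k then D.b a - p else D.b a) Q := by
    intro k
    induction k with
    | zero =>
      intro _
      simp
    | succ k ih =>
      intro hk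
      refine le_trans (ih (by omega)) ?_
      have hdiv : Div (fun (m : Fin 7) a => if (m : ℕ) < k then D.b a - p else D.b a) Q := by
        intro m a a' d hd
        refine hQ m a a' d ?_
        beta_reduce at hd ⊢
        split_ifs at hd <;> omega
      have h1 := tel (D.cb 6) _ Q hdiv ⟨k, by omega⟩ p
      have h2 : (Function.update (fun (m : Fin 7) a => if (m : ℕ) < k then D.b a - p else D.b a)
          ⟨k, by omega⟩ fun a => (if ((⟨k, by omega⟩ : Fin 7) : ℕ) < k then D.b a - p else D.b a) - p) =
          fun (m : Fin 7) a => if (m : ℕ) < k + 1 then D.b a - p else D.b a := by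
        funext m a
        rcases eq_or_ne m ⟨k, by omega⟩ with rfl | hne
        · rw [Function.update_self]
          simp
        · rw [Function.update_of_ne hne]
          have : (m : ℕ) ≠ k := fun h => hne (Fin.ext h)
          exact if_congr (by omega) rfl rfl
      rw [h2] at h1
      have h3 : (ckw (D.cb 6) (Function.update
          (fun (m : Fin 7) a => if (m : ℕ) < k then D.b a - p else D.b a)
          ⟨k, by omega⟩ fun a => min (if ((⟨k, by omega⟩ : Fin 7) : ℕ) < k then D.b a - p
            else D.b a) p) Q : ℝ) ≤ V := by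
        refine le_trans (ckw_le D _ Q) ?_
        set u : Fin 7 → D.β → ℝ := fun m => if m = ⟨k, by omega⟩ then
          (fun a => ((min (D.b a) p : ℕ) : ℝ) ^ ((6 : ℝ) / 7)) else
          (fun a => ((D.b a : ℕ) : ℝ) ^ ((6 : ℝ) / 7)) with hu
        have h4 : ∑ α : Tup (D.cb 6), ∏ m, u m (α.1 m) ≤ ∏ m, D.nrm (u m) := by
          refine D.holder (by norm_num) (D.cb 6) (fun m => ?_) u (fun m a => ?_) fun m => ?_
          · unfold JD.cb
            split_ifs
            · exact Or.inl fun a => rfl
            · exact Or.inr fun a => rfl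
          · simp only [hu]
            split_ifs
            · exact Real.rpow_nonneg (Nat.cast_nonneg _) _
            · exact Real.rpow_nonneg (Nat.cast_nonneg _) _
          · simp only [hu]
            split_ifs
            · exact D.sy_size fun b => ((min b p : ℕ) : ℝ) ^ ((6 : ℝ) / 7)
            · exact D.sy_size fun b => ((b : ℕ) : ℝ) ^ ((6 : ℝ) / 7)
        have h5 : ∏ m, D.nrm (u m) = V := by
          rw [hV, ← prodk ⟨k, by omega⟩]
          refine Finset.prod_congr rfl fun m _ => ?_
          simp only [hu]
          split_ifs <;> rfl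
        rw [← h5]
        refine le_trans (Finset.sum_le_sum fun α _ => Finset.prod_le_prod (fun m _ =>
          Real.rpow_nonneg (Nat.cast_nonneg _) _) fun m _ => ?_) h4
        rcases eq_or_ne m ⟨k, by omega⟩ with rfl | hne
        · rw [Function.update_self]
          simp only [hu, if_true]
          refine Real.rpow_le_rpow (Nat.cast_nonneg _) ?_ (by norm_num)
          simp
        · rw [Function.update_of_ne hne]
          simp only [hu, if_neg hne]
          refine Real.rpow_le_rpow (Nat.cast_nonneg _) ?_ (by norm_num)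
          split_ifs
          · exact_mod_cast Nat.sub_le _ _
          · exact le_refl _
      have h6 : (ckw (D.cb 6) (fun (m : Fin 7) a => if (m : ℕ) < k then D.b a - p else D.b a) Q : ℝ)
          ≤ V + ckw (D.cb 6) (fun (m : Fin 7) a => if (m : ℕ) < k + 1 then D.b a - p else D.b a) Q := by
        refine le_trans (Nat.cast_le.2 h1) ?_
        rw [Nat.cast_add]
        exact add_le_add_left h3 _
      push_cast
      linarith
  -- step 2
  have step2 : ∀ k : ℕ, k ≤ 7 → ckw (D.cb 6) (fun _ a => D.b a - p) Q ≤
      L ^ k * ckw (D.cb 6) (fun (m : Fin 7) a => if (m : ℕ) < k then min (D.b a - p) q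
        else D.b a - p) Q := by
    intro k
    induction k with
    | zero =>
      intro _
      simp
    | succ k ih =>
      intro hk
      refine le_trans (ih (by omega)) ?_
      have hdiv : Div (fun (m : Fin 7) a => if (m : ℕ) < k then min (D.b a - p) q
          else D.b a - p) Q := by
        intro m a a' d hd
        refine hQ m a a' d ?_
        beta_reduce at hd ⊢
        split_ifs at hd <;> omega
      have h1 := letter D (c := D.cb 6) Q ⟨k, by omega⟩ q L _ hdiv fun a => by
        have := hL a
        beta_reduce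
        rw [if_neg (by simp)]
        omega
      have h2 : (Function.update (fun (m : Fin 7) a => if (m : ℕ) < k then min (D.b a - p) q
          else D.b a - p)
          ⟨k, by omega⟩ fun a => min (if ((⟨k, by omega⟩ : Fin 7) : ℕ) < k then min (D.b a - p) q
            else D.b a - p) q) =
          fun (m : Fin 7) a => if (m : ℕ) < k + 1 then min (D.b a - p) q else D.b a - p := by
        funext m a
        rcases eq_or_ne m ⟨k, by omega⟩ with rfl | hne
        · rw [Function.update_self]
          simp
        · rw [Function.update_of_ne hne]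
          have : (m : ℕ) ≠ k := fun h => hne (Fin.ext h)
          exact if_congr (by omega) rfl rfl
      rw [h2] at h1
      calc _ ≤ L ^ k * (L * _) := Nat.mul_le_mul_left _ h1
        _ = _ := by ring
  have e1 := step1 7 le_rfl
  have e2 := step2 7 le_rfl
  have f1 : (fun (m : Fin 7) a => if (m : ℕ) < 7 then D.b a - p else D.b a) =
      fun _ a => D.b a - p := by
    funext m a
    rw [if_pos m.2]
  have f2 : (fun (m : Fin 7) a => if (m : ℕ) < 7 then min (D.b a - p) q else D.b a - p) =
      fun _ a => if p < D.b a then q else 0 := by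
    funext m a
    rw [if_pos m.2]
    split_ifs with h
    · have := hgap a h
      omega
    · omega
  rw [f1] at e1
  rw [f2] at e2
  have e3 : (ckw (D.cb 6) (fun _ a => D.b a - p) Q : ℝ) ≤
      (L : ℝ) ^ 7 * ckw (D.cb 6) (fun _ a => if p < D.b a then q else 0) Q := by
    exact_mod_cast e2
  push_cast at e1
  linarith

end Pool.Agent.INV5.JD
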