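import Pool.Agent.INV5.NO3

/-!
# INV5, module LC: choice of the cut-off and of the gap

Let `A = AA`, `C, C'` the constants of `nw_67` and `nw_min`. If `p ≤ θ0 A ^ (1/6)` then the last expression is
`≤ 7 C' A ^ (1/8) θ0 ^ (3/28) A ^ (1/56) C ^ 6 A ^ (6/7) = 7 C' C ^ 6 θ0 ^ (3/28) A ≤ κ A` for a suitable `θ0`.
Put `p0 = ⌊θ0 A ^ (1/6)⌋` (large, as `A ≥ A0`) and let `M` bound the number of blocks with
`⌊p0/2⌋ < b a` (`card_long`: `≤ C'' A ^ (1/4) (p0/2) ^ (-3/2)`, a constant). Put `q = ⌊p0 / (2 (M + 2))⌋`,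
and for `j = 0, ..., M` let `p_j = ⌊p0/2⌋ + j q ≤ p0`. The `M + 1` sets `{a | p_j < b a < p_j + q}` are disjoint,
so one of them is empty: `p = p_j`. `b a ≤ 2 A ^ (1/6)` (`b_pow_le`) gives the bound by `p + L q` with a
constant `L`.
-/

namespace Pool.Agent.INV5.JD

theorem lc (κ : ℝ) (hκ : 0 < κ) : ∃ θ : ℝ, 0 < θ ∧ ∃ M L A0 : ℕ, ∀ D : JD, A0 ≤ D.AA →
    ∃ p q : ℕ, 0 < q ∧ θ * (D.AA : ℝ) ^ ((1 : ℝ) / 6) ≤ q ∧
      (∀ a, p < D.b a → p + q ≤ D.b a) ∧ (∀ a, D.b a ≤ p + L * q) ∧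
      (Finset.univ.filter fun a => p < D.b a).card ≤ M ∧
      7 * D.nw (fun b => ((min b p : ℕ) : ℝ) ^ ((6 : ℝ) / 7)) *
        D.nw (fun b => (b : ℝ) ^ ((6 : ℝ) / 7)) ^ 6 ≤ κ * D.AA := by
  obtain ⟨C, hC, h67⟩ := nw_67
  obtain ⟨C', hC', hmin⟩ := nw_min
  obtain ⟨C2, hC2, hlong⟩ := card_long
  set θ0 : ℝ := (κ / (7 * C' * C ^ 6)) ^ ((28 : ℝ) / 3) with hθ0
  have hk : 0 < κ / (7 * C' * C ^ 6) := by positivity
  have hθ0pos : 0 < θ0 := Real.rpow_pos_of_pos hk _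
  have hθ0pow : θ0 ^ ((3 : ℝ) / 28) = κ / (7 * C' * C ^ 6) := by
    rw [hθ0, ← Real.rpow_mul hk.le]
    norm_num
  set M : ℕ := ⌈C2 * (θ0 / 8) ^ (-(3 / 2 : ℝ))⌉₊ with hM
  set θ : ℝ := θ0 / (8 * (M + 2)) with hθ
  have hθpos : 0 < θ := by positivity
  set L : ℕ := ⌈2 / θ⌉₊ with hL
  set R : ℝ := 8 * (M + 2) / θ0 with hR
  have hRpos : 0 < R := by positivity
  refine ⟨θ, hθpos, M, L, ⌈R ^ 6⌉₊, fun D hA0 => ?_⟩
  have hA1 : R ^ 6 ≤ (D.AA : ℝ) := Nat.ceil_le.1 hA0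
  set x : ℝ := (D.AA : ℝ) ^ ((1 : ℝ) / 6) with hx
  have hApow : ∀ r : ℝ, (D.AA : ℝ) ^ r = x ^ (6 * r) := fun r => by
    rw [hx, ← Real.rpow_mul (Nat.cast_nonneg _)]
    congr 1
    ring
  have hRx : R ≤ x := by
    have h1 : (R ^ 6) ^ ((1 : ℝ) / 6) ≤ x := Real.rpow_le_rpow (by positivity) hA1 (by norm_num)
    rwa [← Real.rpow_natCast, ← Real.rpow_mul hRpos.le,
      show ((6 : ℕ) : ℝ) * (1 / 6) = 1 by norm_num, Real.rpow_one] at h1
  have hxpos : 0 < x := lt_of_lt_of_le hRpos hRx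
  have hbig : 8 * ((M : ℝ) + 2) ≤ θ0 * x := by
    have h1 := mul_le_mul_of_nonneg_left hRx hθ0pos.le
    rw [hR, mul_div_cancel₀ _ hθ0pos.ne'] at h1
    exact h1
  have hMnn : (0 : ℝ) ≤ M := Nat.cast_nonneg _
  set p0 : ℕ := ⌊θ0 * x⌋₊ with hp0
  have hp0le : (p0 : ℝ) ≤ θ0 * x := Nat.floor_le (by positivity)
  have hp0ge : θ0 * x < (p0 : ℝ) + 1 := Nat.lt_floor_add_one _
  have hP2 : (p0 : ℝ) < 2 * ((p0 / 2 : ℕ) : ℝ) + 2 := by
    have : p0 < 2 * (p0 / 2) + 2 := by omega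
    exact_mod_cast this
  set P : ℕ := p0 / 2 with hP
  have hPge : θ0 / 8 * x ≤ (P : ℝ) := by
    nlinarith
  have hPpos : 1 ≤ P := by
    have : (0 : ℝ) < (P : ℝ) := lt_of_lt_of_le (by positivity) hPge
    exact_mod_cast this
  set q : ℕ := p0 / (2 * (M + 2)) with hq
  have hq1 : (p0 : ℝ) < (q + 1) * (2 * (M + 2)) := by
    have h1 : p0 < (p0 / (2 * (M + 2)) + 1) * (2 * (M + 2)) := by
      have := Nat.lt_div_mul_add (a := p0) (b := 2 * (M + 2)) (by positivity)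
      linarith
    exact_mod_cast h1
  have hqθ : θ * x ≤ q := by
    have h1 : θ0 * x < (q + 1) * (2 * (M + 2)) + 1 := by linarith
    have h2 : θ * x = (θ0 * x) / (8 * (M + 2)) := by rw [hθ]; ring
    rw [h2, div_le_iff₀ (by positivity)]
    nlinarith
  have hqpos : 0 < q := by
    have : (0 : ℝ) < (q : ℝ) := lt_of_lt_of_le (by positivity) hqθ
    exact_mod_cast this
  have hcard : (Finset.univ.filter fun a => P < D.b a).card ≤ M := by
    have h1 := hlong D P hPpos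
    have h2 : (P : ℝ) ^ (-(3 / 2 : ℝ)) ≤ (θ0 / 8 * x) ^ (-(3 / 2 : ℝ)) :=
      Real.rpow_le_rpow_of_nonpos (by positivity) hPge (by norm_num)
    have h3 : (D.AA : ℝ) ^ ((1 : ℝ) / 4) = x ^ ((3 : ℝ) / 2) := by
      rw [hApow]
      norm_num
    have h4 : C2 * (D.AA : ℝ) ^ ((1 : ℝ) / 4) * (P : ℝ) ^ (-(3 / 2 : ℝ)) ≤
        C2 * (θ0 / 8) ^ (-(3 / 2 : ℝ)) := by
      rw [h3]
      calc C2 * x ^ ((3 : ℝ) / 2) * (P : ℝ) ^ (-(3 / 2 : ℝ))
          ≤ C2 * x ^ ((3 : ℝ) / 2) * (θ0 / 8 * x) ^ (-(3 / 2 : ℝ)) :=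
            mul_le_mul_of_nonneg_left h2 (by positivity)
        _ = C2 * (θ0 / 8) ^ (-(3 / 2 : ℝ)) * (x ^ ((3 : ℝ) / 2) * x ^ (-(3 / 2 : ℝ))) := by
            rw [Real.mul_rpow (by positivity) hxpos.le]
            ring
        _ = _ := by
            rw [← Real.rpow_add hxpos]
            norm_num
    have h5 : ((Finset.univ.filter fun a => P < D.b a).card : ℝ) ≤ M :=
      le_trans h1 (le_trans h4 (Nat.le_ceil _))
    exact_mod_cast h5
  have hqM : 2 * ((M + 2) * q) ≤ p0 := by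
    have := Nat.div_mul_le_self p0 (2 * (M + 2))
    rw [← hq] at this
    linarith
  -- the gap
  have hgap : ∃ j : ℕ, j ≤ M ∧ ∀ a, P + j * q < D.b a → P + j * q + q ≤ D.b a := by
    by_contra hcon
    push Not at hcon
    obtain ⟨a0, -⟩ := hcon 0 (Nat.zero_le _)
    have : Nonempty D.β := ⟨a0⟩
    choose! f hf1 hf2 using hcon
    have hinj : Set.InjOn f (Finset.range (M + 1) : Set ℕ) := by
      intro i hi j hj hij
      simp only [Finset.coe_range, Set.mem_Iio] at hi hj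
      have a1 := hf1 i (by omega)
      have a2 := hf2 i (by omega)
      have a3 := hf1 j (by omega)
      have a4 := hf2 j (by omega)
      rw [hij] at a1 a2
      rcases lt_trichotomy i j with h | h | h
      · have : (i + 1) * q ≤ j * q := Nat.mul_le_mul_right _ h
        rw [Nat.add_mul, Nat.one_mul] at this
        omega
      · exact h
      · have : (j + 1) * q ≤ i * q := Nat.mul_le_mul_right _ h
        rw [Nat.add_mul, Nat.one_mul] at this
        omega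
    have h1 : (Finset.range (M + 1)).card ≤ (Finset.univ.filter fun a => P < D.b a).card := by
      refine Finset.card_le_card_of_injOn f (fun j hj => ?_) hinj
      simp only [Finset.coe_range, Set.mem_Iio] at hj
      have := hf1 j (by omega)
      simp only [Finset.coe_filter, Finset.mem_univ, true_and, Set.mem_ofPred_eq]
      omega
    rw [Finset.card_range] at h1
    omega
  obtain ⟨j, hj, hjg⟩ := hgap
  have hpp : P + j * q ≤ p0 := by
    have h1 : j * q ≤ M * q := Nat.mul_le_mul_right _ hj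
    have h2 : (M + 2) * q = M * q + 2 * q := by ring
    omega
  refine ⟨P + j * q, q, hqpos, hqθ, hjg, fun a => ?_, ?_, ?_⟩
  · have h1 : (D.b a : ℝ) ^ 6 ≤ 64 * D.AA := by exact_mod_cast D.b_pow_le a
    have h2 : (D.b a : ℝ) ≤ 2 * x := by
      have h3 : (2 * x) ^ 6 = 64 * (D.AA : ℝ) := by
        have h4 := hApow 1
        rw [Real.rpow_one, mul_one] at h4
        rw [mul_pow, h4, ← Real.rpow_natCast x 6]
        norm_num
      rw [← h3] at h1
      exact (pow_le_pow_iff_left₀ (Nat.cast_nonneg _) (by positivity) (by norm_num)).1 h1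
    have h3 : 2 * x ≤ L * q := by
      have h4 : 2 / θ ≤ (L : ℝ) := Nat.le_ceil _
      have h5 : 2 ≤ (L : ℝ) * θ := by rwa [div_le_iff₀ hθpos] at h4
      calc 2 * x ≤ (L * θ) * x := mul_le_mul_of_nonneg_right h5 hxpos.le
        _ = L * (θ * x) := by ring
        _ ≤ L * q := mul_le_mul_of_nonneg_left hqθ (Nat.cast_nonneg _)
    have h4 : D.b a ≤ L * q := by exact_mod_cast le_trans h2 h3
    omega
  · refine le_trans (Finset.card_le_card ?_) hcard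
    intro a ha
    simp only [Finset.mem_filter, Finset.mem_univ, true_and] at ha ⊢
    omega
  · have hp1 : 1 ≤ P + j * q := by omega
    have h1 := hmin D (P + j * q) hp1
    have h2 := h67 D
    have h3 : ((P + j * q : ℕ) : ℝ) ^ ((3 : ℝ) / 28) ≤ (θ0 * x) ^ ((3 : ℝ) / 28) := by
      refine Real.rpow_le_rpow (Nat.cast_nonneg _) ?_ (by norm_num)
      exact le_trans (by exact_mod_cast hpp) hp0le
    have hn1 : 0 ≤ D.nw (fun b => (b : ℝ) ^ ((6 : ℝ) / 7)) :=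
      D.nrm_nonneg _ fun a => Real.rpow_nonneg (Nat.cast_nonneg _) _
    have h4 : (D.AA : ℝ) ^ ((1 : ℝ) / 8) = x ^ ((3 : ℝ) / 4) := by
      rw [hApow]
      norm_num
    have h5 : (D.AA : ℝ) ^ ((1 : ℝ) / 7) = x ^ ((6 : ℝ) / 7) := by
      rw [hApow]
      norm_num
    have h6 : (D.AA : ℝ) = x ^ (6 : ℝ) := by
      have h4 := hApow 1
      rwa [Real.rpow_one, mul_one] at h4
    calc 7 * D.nw (fun b => ((min b (P + j * q) : ℕ) : ℝ) ^ ((6 : ℝ) / 7)) *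
        D.nw (fun b => (b : ℝ) ^ ((6 : ℝ) / 7)) ^ 6
        ≤ 7 * (C' * (D.AA : ℝ) ^ ((1 : ℝ) / 8) * (θ0 * x) ^ ((3 : ℝ) / 28)) *
          (C * (D.AA : ℝ) ^ ((1 : ℝ) / 7)) ^ 6 := by
          gcongr
          exact le_trans h1 (mul_le_mul_of_nonneg_left h3 (by positivity))
      _ = (7 * C' * C ^ 6 * θ0 ^ ((3 : ℝ) / 28)) *
          (x ^ ((3 : ℝ) / 4) * x ^ ((3 : ℝ) / 28) * (x ^ ((6 : ℝ) / 7)) ^ 6) := by
          rw [h4, h5, Real.mul_rpow hθ0pos.le hxpos.le]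
          ring
      _ = κ * D.AA := by
          rw [hθ0pow, h6, ← Real.rpow_natCast (x ^ ((6 : ℝ) / 7)) 6, ← Real.rpow_mul hxpos.le,
            ← Real.rpow_add hxpos, ← Real.rpow_add hxpos, mul_div_cancel₀ _ (by positivity)]
          norm_num
      _ ≤ _ := le_rfl

end Pool.Agent.INV5.JD
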