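import Pool.Agent.INV5.WO4

/-!
# INV5, module LD: coinvariants of the free words and the order of the determinant

The words have the letters `(a, i)`, `p < b a`, `i < q`. Write `X_m` for the shift of the letter `m`; the
`X_m` commute with each other and with `WL = ∑ X_m` and `WY` (`res_mul`: the shifts preserve the labels;
`ymat` with constant size `q` on the long blocks commutes with the shift), and `X_m ^ q = 0`.
Step 1. For `i = 0, ..., 4` let `h_i = g_(i+1) X_i - g_i X_(i+1)`; `h_i ^ (2 q) = 0`. `ck_nil` five times: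
`ckw ≤ (2 q) ^ 5 ck ![WL, WY, h_0, ..., h_4]`.
Step 2. Let `Qt` be the quotient by the images of `WL, WY, h_i`. On `Qt`: `X_(i+1) = (g_(i+1)/g_i) X_i` for
`i < 5`, so `X_m = (g_m/g_0) X_0` for `m < 6`, and for the last letter by `∑ X_m = 0`, `∑ g = 0`. So with
`τ = X_0 / g_0` one has `X_m = g_m τ` on `Qt`, `Qt` is generated over `ℂ[τ]` by the classes `e_α` of the
words with all positions zero, `τ ^ q = 0`, and `WY e_α' = ∑_α Dc(τ)_(α α') e_α = 0`. Hence there is a
surjection of `ℂ[X]^JL / (X ^ q, Dc ℂ[X]^JL)` onto `Qt`.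
Step 3. `det Dc` maps `ℂ[X]^JL` into the image of `Dc` (adjugate). If `X ^ v` does not divide `det Dc` then
`det Dc = X ^ k w` with `k < v`, `w 0 ≠ 0`, `w` is invertible modulo `X ^ q`, so `X ^ k` kills the cokernel modulo
`X ^ q`, and its dimension is `≤ card * k ≤ card * v`. (In other words: `τ ^ v = 0` on `Qt`, so `Qt` is spanned by
the `τ ^ i e_α`, `i < v`.)
-/

namespace Pool.Agent.INV5.JD

open Matrix Polynomial

section abs

variable {E : Type*} [AddCommGroup E] [Module ℂ E]

private theorem pow_mem' (τ : Module.End ℂ E) (U : Submodule ℂ E)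
    (hU : ∀ u ∈ U, τ u ∈ U) (n : ℕ) (u : E) (hu : u ∈ U) : (τ ^ n) u ∈ U := by
  induction n with
  | zero => simpa using hu
  | succ n ih =>
    rw [pow_succ', Module.End.mul_apply]
    exact hU _ ih

private theorem aeval_mem (τ : Module.End ℂ E) (U : Submodule ℂ E)
    (hU : ∀ u ∈ U, τ u ∈ U) (P : ℂ[X]) (u : E) (hu : u ∈ U) : aeval τ P u ∈ U := by
  induction P using Polynomial.induction_on' with
  | add p q hp hq =>
    rw [map_add, LinearMap.add_apply]
    exact U.add_mem hp hq
  | monomial n a =>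
    rw [aeval_monomial, Module.End.mul_apply, Module.algebraMap_end_apply]
    exact U.smul_mem _ (pow_mem' τ U hU n u hu)

private theorem absl {I : Type*} [Fintype I] [DecidableEq I]
    (τ : Module.End ℂ E) (U : Submodule ℂ E) (hU : ∀ u ∈ U, τ u ∈ U) (q : ℕ) (hq : τ ^ q = 0)
    (e : I → E) (M : Matrix I I ℂ[X]) (hM : ∀ α', ∑ α, aeval τ (M α α') (e α) ∈ U) (v : ℕ)
    (hv : ¬ X ^ v ∣ M.det)
    (hE : U ⊔ Submodule.span ℂ (Set.range fun x : ℕ × I => (τ ^ x.1) (e x.2)) = ⊤) :
    Module.finrank ℂ (E ⧸ U) ≤ Fintype.card I * v := by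
  classical
  have hdet : ∀ α'', aeval τ M.det (e α'') ∈ U := by
    intro α''
    have h1 : ∑ α', aeval τ (M.adjugate α' α'') (∑ α, aeval τ (M α α') (e α)) ∈ U :=
      U.sum_mem fun α' _ => aeval_mem τ U hU _ _ (hM α')
    have h2 : ∑ α', aeval τ (M.adjugate α' α'') (∑ α, aeval τ (M α α') (e α)) =
        aeval τ M.det (e α'') := by
      calc _ = ∑ α', ∑ α, aeval τ (M α α' * M.adjugate α' α'') (e α) := by
            refine Finset.sum_congr rfl fun α' _ => ?_
            rw [map_sum]
            refine Finset.sum_congr rfl fun α _ => ?_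
            rw [mul_comm (M α α'), map_mul, Module.End.mul_apply]
        _ = ∑ α, aeval τ ((M * M.adjugate) α α'') (e α) := by
            rw [Finset.sum_comm]
            refine Finset.sum_congr rfl fun α _ => ?_
            rw [Matrix.mul_apply, map_sum, LinearMap.sum_apply]
        _ = _ := by
            rw [Matrix.mul_adjugate, Finset.sum_eq_single α'']
            · simp
            · intro α _ hne
              simp [Matrix.one_apply_ne hne]
            · simp
    rwa [h2] at h1
  have hk : ∃ k, k < v ∧ M.det.coeff k ≠ 0 := by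
    by_contra hcon
    push Not at hcon
    exact hv (X_pow_dvd_iff.2 hcon)
  obtain ⟨k, ⟨hkv, hk0⟩, hmin⟩ : ∃ k, (k < v ∧ M.det.coeff k ≠ 0) ∧ ∀ j < k, M.det.coeff j = 0 := by
    refine ⟨Nat.find hk, Nat.find_spec hk, fun j hj => ?_⟩
    by_contra h
    exact Nat.find_min hk hj ⟨lt_trans hj (Nat.find_spec hk).1, h⟩
  obtain ⟨w, hw⟩ := X_pow_dvd_iff.2 hmin
  have hw0 : ¬ X ∣ w := by
    rw [X_dvd_iff]
    intro h
    apply hk0
    rw [hw, coeff_X_pow_mul']
    simp [h]
  have hcop : IsCoprime w (X ^ q) := (((irreducible_X).coprime_iff_not_dvd).2 hw0).symm.pow_right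
  obtain ⟨a, b, hab⟩ := hcop
  have hτk : ∀ α, (τ ^ k) (e α) ∈ U := by
    intro α
    have h1 := aeval_mem τ U hU a _ (hdet α)
    have h2 : aeval τ a (aeval τ M.det (e α)) = (τ ^ k) (e α) := by
      rw [← Module.End.mul_apply, ← map_mul, hw,
        show a * (X ^ k * w) = X ^ k * (1 - b * X ^ q) by rw [← hab]; ring]
      rw [map_mul, map_sub, map_mul, map_pow, aeval_X, map_pow, aeval_X, hq]
      simp
    rwa [h2] at h1
  set f : I × Fin v → E ⧸ U := fun x => U.mkQ ((τ ^ (x.2 : ℕ)) (e x.1)) with hf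
  have hspan : Submodule.span ℂ (Set.range f) = ⊤ := by
    rw [eq_top_iff]
    rintro y -
    obtain ⟨x, rfl⟩ := U.mkQ_surjective y
    have hx : x ∈ U ⊔ Submodule.span ℂ (Set.range fun x : ℕ × I => (τ ^ x.1) (e x.2)) := by
      rw [hE]
      trivial
    obtain ⟨u, hu, z, hz, rfl⟩ := Submodule.mem_sup.1 hx
    have h3 : Submodule.span ℂ (Set.range fun x : ℕ × I => (τ ^ x.1) (e x.2)) ≤
        (Submodule.span ℂ (Set.range f)).comap U.mkQ := by
      rw [Submodule.span_le]
      rintro _ ⟨⟨i, α⟩, rfl⟩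
      by_cases hi : i < v
      · exact Submodule.subset_span ⟨(α, ⟨i, hi⟩), rfl⟩
      · have h4 : (τ ^ i) (e α) ∈ U := by
          have h5 : τ ^ i = τ ^ (i - k) * τ ^ k := by rw [← pow_add]; congr 1; omega
          rw [h5, Module.End.mul_apply]
          exact pow_mem' τ U hU _ _ (hτk α)
        have h5 : U.mkQ ((τ ^ i) (e α)) = 0 := (Submodule.Quotient.mk_eq_zero U).2 h4
        change U.mkQ ((τ ^ i) (e α)) ∈ Submodule.span ℂ (Set.range f)
        rw [h5]
        exact Submodule.zero_mem _
    rw [map_add, show U.mkQ u = 0 from (Submodule.Quotient.mk_eq_zero U).2 hu, zero_add]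
    exact h3 hz
  have h6 := finrank_range_le_card (R := ℂ) f
  rw [Set.finrank, hspan, finrank_top, Fintype.card_prod, Fintype.card_fin] at h6
  exact h6

end abs

section nil

variable {J : Type*} [Fintype J] [DecidableEq J]

private theorem nil_many (N : ℕ) : ∀ (n : ℕ) (κ : Type) (Z : κ → Matrix J J ℂ)
    (h : Fin n → Matrix J J ℂ), (∀ i r, Commute (h i) (Z r)) → (∀ i j, Commute (h i) (h j)) →
    (∀ i, h i ^ N = 0) → ck Z ≤ N ^ n * ck (Sum.elim Z h) := by
  intro n
  induction n with
  | zero =>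
    intro κ Z h _ _ _
    rw [pow_zero, one_mul]
    refine ck_mono _ _ fun r v => ?_
    rcases r with r | i
    · exact mem_img Z r v
    · exact i.elim0
  | succ n ih =>
    intro κ Z h h1 h2 h3
    have e1 := ck_nil Z (h 0) N (h1 0) fun v => by
      rw [h3 0, Matrix.zero_mulVec]
      exact Submodule.zero_mem _
    have e2 := ih (Option κ) (Option.elim' (h 0) Z) (fun i => h i.succ) (fun i r => by
      cases r with
      | none => exact h2 _ _
      | some r => exact h1 _ r) (fun i j => h2 _ _) fun i => h3 _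
    have e3 : ck (Sum.elim (Option.elim' (h 0) Z) fun i : Fin n => h i.succ) ≤ ck (Sum.elim Z h) := by
      refine ck_mono _ _ fun r v => ?_
      rcases r with r | i
      · exact mem_img (Sum.elim (Option.elim' (h 0) Z) fun i : Fin n => h i.succ) (Sum.inl (some r)) v
      · refine Fin.cases ?_ (fun i => ?_) i
        · exact mem_img (Sum.elim (Option.elim' (h 0) Z) fun i : Fin n => h i.succ) (Sum.inl none) v
        · exact mem_img (Sum.elim (Option.elim' (h 0) Z) fun i : Fin n => h i.succ) (Sum.inr i) v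
    calc ck Z ≤ N * (N ^ n * ck (Sum.elim Z h)) :=
          le_trans e1 (Nat.mul_le_mul_left _ (le_trans e2 (Nat.mul_le_mul_left _ e3)))
      _ = _ := by ring

end nil

/-- the sizes -/
private def sz (D : JD) (p q : ℕ) (_ : Fin 7) (a : D.β) : ℕ := if p < D.b a then q else 0

/-- the shift of the letter `m` -/
private noncomputable def Am (D : JD) (p q : ℕ) (m : Fin 7) :
    Matrix (One (cw (D.cb 6) (sz D p q))) (One (cw (D.cb 6) (sz D p q))) ℂ :=
  res (cw (D.cb 6) (sz D p q)) (At m (Sh (sz D p q m)))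

private theorem comm_res {N : ℕ} {I : Fin N → Type} [∀ m, Fintype (I m)] [∀ m, DecidableEq (I m)]
    (c : ∀ m, I m → Lam) {Z Z' : Matrix (∀ m, I m) (∀ m, I m) ℂ} (h : Pres c Z)
    (hc : Commute Z Z') : Commute (res c Z) (res c Z') := by
  change res c Z * res c Z' = res c Z' * res c Z
  rw [← res_mul c Z Z' h, ← res_mul' c Z' Z h, hc.eq]

private theorem res_pow {N : ℕ} {I : Fin N → Type} [∀ m, Fintype (I m)] [∀ m, DecidableEq (I m)]
    (c : ∀ m, I m → Lam) {Z : Matrix (∀ m, I m) (∀ m, I m) ℂ} (h : Pres c Z) (k : ℕ) :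
    res c Z ^ k = res c (Z ^ k) := by
  induction k with
  | zero => rw [pow_zero, pow_zero, res_one]
  | succ k ih => rw [pow_succ, pow_succ, res_mul' c _ _ h, ih]

variable (D : JD) (p q : ℕ)

private theorem presA (m : Fin 7) :
    Pres (cw (D.cb 6) (sz D p q)) (At m (Sh (sz D p q m))) := by
  refine Pres_At _ m _ fun i k h => ?_
  have h1 : i.1 = k.1 := by
    by_contra hne
    exact h (if_neg fun hh => hne hh.1)
  simp only [cw, h1]

private theorem commSY (P : Matrix D.β D.β ℂ[X]) (m : Fin 7) :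
    Commute (Sh (sz D p q m)) (ymat (sz D p q m) P) := by
  have hlen : ∀ x : Idx (sz D p q m), ((x.2 : Fin _) : ℕ) < q ∧ sz D p q m x.1 = q := by
    intro x
    have h1 := x.2.2
    have h2 : sz D p q m x.1 = q := by
      unfold sz at h1 ⊢
      split_ifs at h1 ⊢ with h
      · rfl
      · omega
    exact ⟨by omega, h2⟩
  change _ * _ = _ * _
  ext i k
  rw [Matrix.mul_apply, Matrix.mul_apply]
  by_cases hik : (k.2 : ℕ) + 1 ≤ (i.2 : ℕ)
  · have hi := hlen i
    have hk := hlen k
    rw [Finset.sum_eq_single (⟨i.1, ⟨(i.2 : ℕ) - 1, by omega⟩⟩ : Idx (sz D p q m)),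
      Finset.sum_eq_single (⟨k.1, ⟨(k.2 : ℕ) + 1, by omega⟩⟩ : Idx (sz D p q m))]
    · simp only [Sh, ymat]
      rw [if_pos ⟨trivial, by omega⟩, if_pos (by omega), if_pos (by omega),
        if_pos ⟨trivial, trivial⟩, one_mul, mul_one]
      congr 1
      omega
    · intro j _ hj
      simp only [Sh]
      rw [if_neg, mul_zero]
      rintro ⟨h1, h2⟩
      apply hj
      obtain ⟨a, j⟩ := j
      obtain rfl : a = k.1 := h1
      exact congrArg _ (Fin.ext h2)
    · intro h
      exact absurd (Finset.mem_univ _) h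
    · intro j _ hj
      simp only [Sh]
      rw [if_neg, zero_mul]
      rintro ⟨h1, h2⟩
      apply hj
      obtain ⟨a, j⟩ := j
      obtain rfl : i.1 = a := h1
      refine congrArg _ (Fin.ext ?_)
      simp only at h2 ⊢
      omega
    · intro h
      exact absurd (Finset.mem_univ _) h
  · rw [Finset.sum_eq_zero, Finset.sum_eq_zero]
    · intro j _
      simp only [Sh, ymat]
      split_ifs with h1 h2 h2
      · omega
      · rw [mul_zero]
      · rw [zero_mul]
      · rw [zero_mul]
    · intro j _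
      simp only [Sh, ymat]
      split_ifs with h1 h2 h2
      · omega
      · rw [mul_zero]
      · rw [zero_mul]
      · rw [zero_mul]

private theorem commAA (m m' : Fin 7) : Commute (Am D p q m) (Am D p q m') := by
  refine comm_res _ (presA D p q m) ?_
  rcases eq_or_ne m m' with rfl | hne
  · exact Commute.refl _
  · exact At_comm hne _ _

private theorem commAY (Q : Fin 7 → Matrix D.β D.β ℂ[X]) (m : Fin 7) :
    Commute (Am D p q m) (WY (D.cb 6) (sz D p q) Q) :=
  comm_res _ (presA D p q m) (At_Tot_comm m _ _ (commSY D p q (Q m) m))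

private theorem WL_eq : WL (D.cb 6) (sz D p q) = ∑ m, Am D p q m := by
  ext x y
  simp only [WL, Am, res, Tot, Matrix.submatrix_apply, Matrix.sum_apply]

private theorem Am_pow (m : Fin 7) : Am D p q m ^ q = 0 := by
  unfold Am
  rw [res_pow _ (presA D p q m), ← At_pow, Sh_nil, At_zero]
  · rfl
  · intro a
    unfold sz
    split_ifs
    · exact le_rfl
    · exact Nat.zero_le _

/-- words with given blocks and positions -/
private def wd (α : D.JL p) (κ : Fin 7 → Fin q) : One (cw (D.cb 6) (sz D p q)) :=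
  ⟨fun m => ⟨(α.1 m).1, ⟨κ m, by rw [sz, if_pos (α.1 m).2]; exact (κ m).2⟩⟩, α.2⟩

private theorem wd_surj (x : One (cw (D.cb 6) (sz D p q))) : ∃ α κ, x = wd D p q α κ := by
  have h : ∀ m, p < D.b (x.1 m).1 ∧ ((x.1 m).2 : ℕ) < q := by
    intro m
    have h1 := (x.1 m).2.2
    unfold sz at h1
    split_ifs at h1 with h2
    · exact ⟨h2, h1⟩
    · omega
  exact ⟨⟨fun m => ⟨(x.1 m).1, (h m).1⟩, x.2⟩, fun m => ⟨(x.1 m).2, (h m).2⟩, rfl⟩

private theorem wd_letter (α β : D.JL p) (κ μ : Fin 7 → Fin q) (m : Fin 7) :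
    (wd D p q α κ).1 m = (wd D p q β μ).1 m ↔ α.1 m = β.1 m ∧ κ m = μ m := by
  constructor
  · intro h
    have h1 : (α.1 m).1 = (β.1 m).1 := congrArg Sigma.fst h
    have h2 : (((wd D p q α κ).1 m).2 : ℕ) = (((wd D p q β μ).1 m).2 : ℕ) := by rw [h]
    exact ⟨Subtype.ext h1, Fin.ext h2⟩
  · rintro ⟨h1, h2⟩
    simp only [wd]
    generalize_proofs e1 e2
    revert e1 e2
    rw [h1, h2]
    intros
    rfl

private theorem wd_inj (α β : D.JL p) (κ μ : Fin 7 → Fin q) :
    wd D p q α κ = wd D p q β μ ↔ α = β ∧ κ = μ := by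
  constructor
  · intro h
    have h1 : ∀ m, α.1 m = β.1 m ∧ κ m = μ m := fun m => by
      rw [← wd_letter]
      rw [h]
    exact ⟨Subtype.ext (funext fun m => (h1 m).1), funext fun m => (h1 m).2⟩
  · rintro ⟨rfl, rfl⟩
    rfl

/-- the basis vectors -/
private def ev (α : D.JL p) (κ : Fin 7 → Fin q) : One (cw (D.cb 6) (sz D p q)) → ℂ :=
  Pi.single (wd D p q α κ) 1

private theorem tot_apply {N : ℕ} {I : Fin N → Type} [∀ m, DecidableEq (I m)]
    (z : ∀ m, Matrix (I m) (I m) ℂ) (p q : ∀ m, I m) :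
    Tot z p q = ∑ m, if ∀ m', m' ≠ m → p m' = q m' then z m (p m) (q m) else 0 := by
  simp only [Tot, At, Matrix.sum_apply]

private theorem Sh_wd (α β : D.JL p) (κ μ : Fin 7 → Fin q) (m : Fin 7) :
    Sh (sz D p q m) ((wd D p q α κ).1 m) ((wd D p q β μ).1 m) =
      if α.1 m = β.1 m ∧ (κ m : ℕ) = (μ m : ℕ) + 1 then 1 else 0 :=
  if_congr (and_congr Subtype.ext_iff.symm Iff.rfl) rfl rfl

private theorem A_ev (α : D.JL p) (κ : Fin 7 → Fin q) (m : Fin 7) (i : Fin q)
    (h : (κ m : ℕ) = (i : ℕ) + 1) :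
    (Am D p q m).mulVec (ev D p q α (Function.update κ m i)) = ev D p q α κ := by
  unfold ev
  rw [Matrix.mulVec_single_one]
  funext x
  obtain ⟨β, μ, rfl⟩ := wd_surj D p q x
  rw [Pi.single_apply]
  simp only [Matrix.col_apply, Am, res, Matrix.submatrix_apply, At, wd_letter, wd_inj, Sh_wd]
  rw [← ite_and]
  refine if_congr ?_ rfl rfl
  rw [Function.update_self]
  constructor
  · rintro ⟨h1, h2, h3⟩
    refine ⟨Subtype.ext (funext fun m' => ?_), funext fun m' => ?_⟩
    · rcases eq_or_ne m' m with rfl | hne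
      · exact h2
      · exact (h1 m' hne).1
    · rcases eq_or_ne m' m with rfl | hne
      · exact Fin.ext (by omega)
      · have h4 := (h1 m' hne).2
        rwa [Function.update_of_ne hne] at h4
  · rintro ⟨rfl, rfl⟩
    refine ⟨fun m' hne => ⟨rfl, ?_⟩, rfl, by omega⟩
    rw [Function.update_of_ne hne]

private theorem WY_ev (Q : Fin 7 → Matrix D.β D.β ℂ[X]) (α' : D.JL p) [NeZero q] :
    (WY (D.cb 6) (sz D p q) Q).mulVec (ev D p q α' 0) =
      ∑ α : D.JL p, ∑ m, if ∀ m', m' ≠ m → α.1 m' = α'.1 m' then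
        ∑ i : Fin q, (Q m (α.1 m).1 (α'.1 m).1).coeff i • ev D p q α (Function.update 0 m i) else 0 := by
  unfold ev
  rw [Matrix.mulVec_single_one]
  funext x
  obtain ⟨β, μ, rfl⟩ := wd_surj D p q x
  rw [Finset.sum_apply, Finset.sum_eq_single β]
  · rw [Finset.sum_apply]
    simp only [Matrix.col_apply, WY, res, Matrix.submatrix_apply, tot_apply, wd_letter]
    refine Finset.sum_congr rfl fun m _ => ?_
    by_cases h1 : ∀ m', m' ≠ m → β.1 m' = α'.1 m'
    · rw [if_pos h1, Finset.sum_apply]
      by_cases h2 : ∀ m', m' ≠ m → μ m' = 0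
      · rw [if_pos fun m' hm' => ⟨h1 m' hm', h2 m' hm'⟩, Finset.sum_eq_single (μ m)]
        · have h3 : Function.update (0 : Fin 7 → Fin q) m (μ m) = μ := by
            funext m'
            rcases eq_or_ne m' m with rfl | hne
            · rw [Function.update_self]
            · rw [Function.update_of_ne hne, h2 m' hne]
              rfl
          rw [h3]
          simp [ymat, wd]
        · intro i _ hi
          rw [Pi.smul_apply, Pi.single_apply, if_neg, smul_zero]
          rw [wd_inj]
          rintro ⟨-, h4⟩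
          apply hi
          rw [h4, Function.update_self]
        · intro h
          exact absurd (Finset.mem_univ _) h
      · rw [if_neg fun hh => h2 fun m' hm' => (hh m' hm').2, eq_comm]
        refine Finset.sum_eq_zero fun i _ => ?_
        rw [Pi.smul_apply, Pi.single_apply, if_neg, smul_zero]
        rw [wd_inj]
        rintro ⟨-, h4⟩
        apply h2
        intro m' hm'
        rw [h4, Function.update_of_ne hm']
        rfl
    · rw [if_neg h1, if_neg fun hh => h1 fun m' hm' => (hh m' hm').1]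
      rfl
  · intro β' _ hne
    rw [Finset.sum_apply]
    refine Finset.sum_eq_zero fun m _ => ?_
    split_ifs
    · rw [Finset.sum_apply]
      refine Finset.sum_eq_zero fun i _ => ?_
      rw [Pi.smul_apply, Pi.single_apply, if_neg, smul_zero]
      rw [wd_inj]
      rintro ⟨h4, -⟩
      exact hne h4.symm
    · rfl
  · intro h
    exact absurd (Finset.mem_univ _) h

/-- the element `h_i` -/
private noncomputable def hh (g : Fin 7 → ℂ) (i : Fin 5) :
    Matrix (One (cw (D.cb 6) (sz D p q))) (One (cw (D.cb 6) (sz D p q))) ℂ :=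
  g ⟨i + 1, by omega⟩ • Am D p q ⟨i, by omega⟩ + -(g ⟨i, by omega⟩ • Am D p q ⟨i + 1, by omega⟩)

private theorem hh_pow (g : Fin 7 → ℂ) (i : Fin 5) : hh D p q g i ^ (2 * q) = 0 := by
  refine Commute.add_pow_eq_zero_of_add_le_succ_of_pow_eq_zero (m := q) (n := q) ?_ ?_ ?_ (by omega)
  · exact ((commAA D p q _ _).smul_left _ |>.smul_right _).neg_right
  · rw [_root_.smul_pow, Am_pow, smul_zero]
  · rw [neg_pow, _root_.smul_pow, Am_pow, smul_zero, mul_zero]

private theorem comm_hh (g : Fin 7 → ℂ) (i : Fin 5)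
    (Z : Matrix (One (cw (D.cb 6) (sz D p q))) (One (cw (D.cb 6) (sz D p q))) ℂ)
    (h : ∀ m, Commute (Am D p q m) Z) : Commute (hh D p q g i) Z :=
  ((h _).smul_left _).add_left ((h _).smul_left _).neg_left

private theorem A_stab {κ : Type*} (Z : κ → Matrix (One (cw (D.cb 6) (sz D p q)))
    (One (cw (D.cb 6) (sz D p q))) ℂ) (m : Fin 7) (h : ∀ r, Commute (Am D p q m) (Z r)) :
    ∀ u ∈ img Z, (Am D p q m).mulVecLin u ∈ img Z := by
  have h1 : img Z ≤ (img Z).comap (Am D p q m).mulVecLin := by
    refine img_le _ _ fun r v => ?_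
    rw [Submodule.mem_comap, Matrix.mulVecLin_apply, Matrix.mulVec_mulVec, (h r).eq,
      ← Matrix.mulVec_mulVec]
    exact mem_img Z r _
  exact h1

theorem ld (D : JD) (Q : Fin 7 → Matrix D.β D.β ℂ[X]) (p q : ℕ) (hq : 0 < q)
    (g : Fin 7 → ℂ) (hg : ∀ m, g m ≠ 0) (hs : ∑ m, g m = 0) (v : ℕ)
    (hv : ¬ X ^ v ∣ (D.Dc p Q g).det) :
    ckw (D.cb 6) (fun _ a => if p < D.b a then q else 0) Q ≤
      (2 * q) ^ 5 * (Fintype.card (D.JL p) * v) := by
  classical
  have : NeZero q := ⟨hq.ne'⟩
  set W := WL (D.cb 6) (sz D p q) with hW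
  set Y := WY (D.cb 6) (sz D p q) Q with hY
  have hAW : ∀ m, Commute (Am D p q m) W := fun m => by
    rw [hW, WL_eq]
    exact Commute.sum_right _ _ _ fun m' _ => commAA D p q m m'
  have hAY : ∀ m, Commute (Am D p q m) Y := commAY D p q Q
  have hAh : ∀ m i, Commute (Am D p q m) (hh D p q g i) := fun m i =>
    (comm_hh D p q g i _ fun m' => commAA D p q m' m).symm
  set Z : Fin 2 ⊕ Fin 5 → Matrix (One (cw (D.cb 6) (sz D p q))) (One (cw (D.cb 6) (sz D p q))) ℂ :=
    Sum.elim ![W, Y] (hh D p q g) with hZ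
  have step1 : ckw (D.cb 6) (sz D p q) Q ≤ (2 * q) ^ 5 * ck Z := by
    refine nil_many (2 * q) 5 (Fin 2) ![W, Y] (hh D p q g) (fun i r => ?_) (fun i j => ?_) fun i =>
      hh_pow D p q g i
    · fin_cases r
      · exact comm_hh D p q g i _ hAW
      · exact comm_hh D p q g i _ hAY
    · exact comm_hh D p q g i _ fun m => hAh m j
  refine le_trans step1 (Nat.mul_le_mul_left _ ?_)
  -- the quotient
  have hAZ : ∀ m r, Commute (Am D p q m) (Z r) := by
    intro m r
    rcases r with r | i
    · fin_cases r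
      · exact hAW m
      · exact hAY m
    · exact hAh m i
  set U := img Z with hU
  have hAU : ∀ m, ∀ u ∈ U, (Am D p q m).mulVecLin u ∈ U := fun m => A_stab D p q Z m (hAZ m)
  set τ : Module.End ℂ (One (cw (D.cb 6) (sz D p q)) → ℂ) :=
    (g 0)⁻¹ • (Am D p q 0).mulVecLin with hτ
  have hτU : ∀ u ∈ U, τ u ∈ U := fun u hu => U.smul_mem _ (hAU 0 u hu)
  have hpowlin : ∀ (B : Matrix (One (cw (D.cb 6) (sz D p q))) (One (cw (D.cb 6) (sz D p q))) ℂ)
      (n : ℕ), (B.mulVecLin : Module.End ℂ _) ^ n = (B ^ n).mulVecLin := by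
    intro B n
    induction n with
    | zero =>
      rw [pow_zero, pow_zero, Matrix.mulVecLin_one]
      rfl
    | succ n ih =>
      rw [pow_succ, pow_succ, Matrix.mulVecLin_mul, ih]
      rfl
  have hτq : τ ^ q = 0 := by
    rw [hτ, _root_.smul_pow, hpowlin, Am_pow, Matrix.mulVecLin_zero, smul_zero]
  have hmem : ∀ r x, (Z r).mulVec x ∈ U := fun r x => mem_img Z r x
  -- the letters act by multiples of `τ`
  have hlow : ∀ n (hn : n ≤ 5) x, (Am D p q ⟨n, by omega⟩).mulVec x - g ⟨n, by omega⟩ • τ x ∈ U := by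
    intro n
    induction n with
    | zero =>
      intro hn x
      have h1 : (Am D p q 0).mulVec x - g 0 • τ x = 0 := by
        rw [hτ, LinearMap.smul_apply, smul_smul, mul_inv_cancel₀ (hg 0), one_smul,
          Matrix.mulVecLin_apply, sub_self]
      have h2 := U.zero_mem
      rw [← h1] at h2
      exact h2
    | succ n ih =>
      intro hn x
      have h1 := ih (by omega) x
      have h2 := hmem (Sum.inr ⟨n, by omega⟩) x
      have h3 : (Z (Sum.inr ⟨n, by omega⟩)).mulVec x =
          g ⟨n + 1, by omega⟩ • (Am D p q ⟨n, by omega⟩).mulVec x -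
            g ⟨n, by omega⟩ • (Am D p q ⟨n + 1, by omega⟩).mulVec x := by
        change (hh D p q g ⟨n, by omega⟩).mulVec x = _
        unfold hh
        rw [Matrix.add_mulVec, Matrix.neg_mulVec, Matrix.smul_mulVec, Matrix.smul_mulVec,
          sub_eq_add_neg]
      rw [h3] at h2
      have h4 := U.sub_mem (U.smul_mem (g ⟨n + 1, by omega⟩ * (g ⟨n, by omega⟩)⁻¹) h1)
        (U.smul_mem (g ⟨n, by omega⟩)⁻¹ h2)
      have h5 : (g ⟨n + 1, by omega⟩ * (g ⟨n, by omega⟩)⁻¹) •
          ((Am D p q ⟨n, by omega⟩).mulVec x - g ⟨n, by omega⟩ • τ x) -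
          (g ⟨n, by omega⟩)⁻¹ • (g ⟨n + 1, by omega⟩ • (Am D p q ⟨n, by omega⟩).mulVec x -
            g ⟨n, by omega⟩ • (Am D p q ⟨n + 1, by omega⟩).mulVec x) =
          (Am D p q ⟨n + 1, by omega⟩).mulVec x - g ⟨n + 1, by omega⟩ • τ x := by
        have hn0 := hg ⟨n, by omega⟩
        rw [smul_sub, smul_sub, smul_smul, smul_smul, smul_smul, inv_mul_cancel₀ hn0, one_smul,
          mul_assoc, inv_mul_cancel₀ hn0, mul_one, mul_comm (g ⟨n, by omega⟩)⁻¹]
        abel
      rwa [h5] at h4
  have hτm : ∀ m x, (Am D p q m).mulVec x - g m • τ x ∈ U := by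
    intro m x
    rcases lt_or_eq_of_le (Nat.lt_succ_iff.1 m.2) with h | h
    · exact hlow m (by omega) x
    · have hm : m = Fin.last 6 := Fin.ext h
      subst hm
      have h1 : W.mulVec x ∈ U := hmem (Sum.inl 0) x
      have h2 : ∑ i : Fin 6, ((Am D p q i.castSucc).mulVec x - g i.castSucc • τ x) ∈ U :=
        U.sum_mem fun i _ => hlow i (by omega) x
      have h3 := U.sub_mem h1 h2
      have h4 : W.mulVec x - ∑ i : Fin 6, ((Am D p q i.castSucc).mulVec x - g i.castSucc • τ x) =
          (Am D p q (Fin.last 6)).mulVec x - g (Fin.last 6) • τ x := by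
        have h5 : W.mulVec x = ∑ i : Fin 6, (Am D p q i.castSucc).mulVec x +
            (Am D p q (Fin.last 6)).mulVec x := by
          rw [hW, WL_eq, Matrix.sum_mulVec, Fin.sum_univ_castSucc]
        have h6 : g (Fin.last 6) • τ x = - ∑ i : Fin 6, g i.castSucc • τ x := by
          rw [← Finset.sum_smul, ← neg_smul]
          congr 1
          rw [Fin.sum_univ_castSucc] at hs
          exact eq_neg_of_add_eq_zero_right hs
        rw [h5, h6, Finset.sum_sub_distrib]
        abel
      rwa [h4] at h3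
  -- generation
  set e : D.JL p → (One (cw (D.cb 6) (sz D p q)) → ℂ) := fun α => ev D p q α 0 with he
  set S := U ⊔ Submodule.span ℂ (Set.range fun x : ℕ × D.JL p => (τ ^ x.1) (e x.2)) with hS
  have hτS : ∀ x ∈ S, τ x ∈ S := by
    intro x hx
    have h1 : S ≤ S.comap τ := by
      rw [hS]
      refine sup_le (fun u hu => ?_) ?_
      · exact Submodule.mem_sup_left (hτU u hu)
      · rw [Submodule.span_le]
        rintro _ ⟨⟨i, α⟩, rfl⟩
        refine Submodule.mem_sup_right (Submodule.subset_span ⟨(i + 1, α), ?_⟩)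
        simp only
        rw [pow_succ', Module.End.mul_apply]
    exact h1 hx
  have hAS : ∀ m, ∀ x ∈ S, (Am D p q m).mulVec x ∈ S := by
    intro m x hx
    have h1 := S.add_mem (Submodule.mem_sup_left (T := Submodule.span ℂ
      (Set.range fun x : ℕ × D.JL p => (τ ^ x.1) (e x.2))) (hτm m x)) (S.smul_mem (g m) (hτS x hx))
    rwa [sub_add_cancel] at h1
  have hgen : ∀ (α : D.JL p) (s : Finset (Fin 7)) (κ : Fin 7 → Fin q), (∀ m ∉ s, κ m = 0) →
      ev D p q α κ ∈ S := by
    intro α s
    induction s using Finset.induction with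
    | empty =>
      intro κ hκ
      obtain rfl : κ = 0 := funext fun m => hκ m (Finset.notMem_empty _)
      exact Submodule.mem_sup_right (Submodule.subset_span ⟨(0, α), by simp [he]⟩)
    | insert m s hm ih =>
      intro κ hκ
      have h1 : ∀ i (hi : i < q), ev D p q α (Function.update κ m ⟨i, hi⟩) ∈ S := by
        intro i
        induction i with
        | zero =>
          intro hi
          refine ih _ fun m' hm' => ?_
          rcases eq_or_ne m' m with rfl | hne
          · rw [Function.update_self]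
            rfl
          · rw [Function.update_of_ne hne]
            exact hκ m' (by simp [hne, hm'])
        | succ i ihi =>
          intro hi
          have h2 := A_ev D p q α (Function.update κ m ⟨i + 1, hi⟩) m ⟨i, by omega⟩ (by
            rw [Function.update_self])
          rw [← h2, Function.update_idem]
          exact hAS m _ (ihi (by omega))
      have h2 := h1 (κ m) (κ m).2
      rwa [Fin.eta, Function.update_eq_self] at h2
  have hE : S = ⊤ := by
    rw [eq_top_iff, ← (Pi.basisFun ℂ (One (cw (D.cb 6) (sz D p q)))).span_eq, Submodule.span_le]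
    rintro _ ⟨x, rfl⟩
    obtain ⟨α, κ, rfl⟩ := wd_surj D p q x
    rw [Pi.basisFun_apply]
    exact hgen α Finset.univ κ fun m hm => absurd (Finset.mem_univ m) hm
  -- reduction of the vectors with one letter
  have hone : ∀ (α : D.JL p) (m : Fin 7) (i : ℕ) (hi : i < q),
      ev D p q α (Function.update 0 m ⟨i, hi⟩) - ((g m • τ) ^ i) (e α) ∈ U := by
    intro α m i
    induction i with
    | zero =>
      intro hi
      have h1 : Function.update (0 : Fin 7 → Fin q) m ⟨0, hi⟩ = 0 := by
        funext m'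
        rcases eq_or_ne m' m with rfl | hne
        · rw [Function.update_self]
          rfl
        · rw [Function.update_of_ne hne]
      rw [h1, pow_zero]
      simp only [he, Module.End.one_apply, sub_self]
      exact U.zero_mem
    | succ i ih =>
      intro hi
      have h2 := A_ev D p q α (Function.update 0 m ⟨i + 1, hi⟩) m ⟨i, by omega⟩ (by
        rw [Function.update_self])
      rw [Function.update_idem] at h2
      have h3 := hτm m (ev D p q α (Function.update 0 m ⟨i, by omega⟩))
      rw [h2] at h3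
      have h4 := U.smul_mem (g m) (hτU _ (ih (by omega)))
      have h5 := U.add_mem h3 h4
      rw [map_sub, smul_sub] at h5
      rw [pow_succ', Module.End.mul_apply, LinearMap.smul_apply]
      convert h5 using 1
      abel
  -- the relation
  have hM : ∀ α', ∑ α, aeval τ (D.Dc p Q g α α') (e α) ∈ U := by
    intro α'
    have h1 : Y.mulVec (e α') ∈ U := hmem (Sum.inl 1) _
    rw [hY, he, WY_ev D p q Q α'] at h1
    have h2 : ∀ (P : ℂ[X]) (m : Fin 7) (α : D.JL p),
        aeval τ (P.comp (C (g m) * X)) (e α) = ∑ i : Fin q, P.coeff i • ((g m • τ) ^ (i : ℕ)) (e α) := by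
      intro P m α
      have h3 : aeval τ (C (g m) * X) = g m • τ := by
        rw [map_mul, aeval_C, aeval_X, Algebra.smul_def]
      have h4 : (g m • τ) ^ q = 0 := by rw [_root_.smul_pow, hτq, smul_zero]
      rw [aeval_comp, h3, aeval_eq_sum_range' (n := max q (P.natDegree + 1)) (by omega),
        LinearMap.sum_apply, ← Finset.sum_range (fun i => P.coeff i • ((g m • τ) ^ i) (e α))]
      symm
      refine Finset.sum_subset_zero_on_sdiff (fun i hi => ?_) (fun i hi => ?_) fun i _ => ?_
      · rw [Finset.mem_range] at hi ⊢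
        omega
      · rw [Finset.mem_sdiff, Finset.mem_range, Finset.mem_range, not_lt] at hi
        have h5 : (g m • τ) ^ i = 0 := pow_eq_zero_of_le hi.2 h4
        rw [h5]
        simp
      · rw [LinearMap.smul_apply]
    have h3 : (∑ α : D.JL p, ∑ m, if ∀ m', m' ≠ m → α.1 m' = α'.1 m' then
        ∑ i : Fin q, (Q m (α.1 m).1 (α'.1 m).1).coeff i • ev D p q α (Function.update 0 m i) else 0) -
        ∑ α, aeval τ (D.Dc p Q g α α') (e α) ∈ U := by
      rw [← Finset.sum_sub_distrib]
      refine U.sum_mem fun α _ => ?_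
      unfold JD.Dc
      rw [map_sum, LinearMap.sum_apply, ← Finset.sum_sub_distrib]
      refine U.sum_mem fun m _ => ?_
      split_ifs
      · rw [h2, ← Finset.sum_sub_distrib]
        refine U.sum_mem fun i _ => ?_
        rw [← smul_sub]
        exact U.smul_mem _ (hone α m i i.2)
      · simp
    have h4 := U.sub_mem h1 h3
    rwa [sub_sub_cancel] at h4
  exact absl τ U hτU q hτq e (D.Dc p Q g) hM v hv hE

end Pool.Agent.INV5.JD
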