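import Pool.Agent.INV5.WO4

/-!
# INV5, module LE: the determinant for the word and for the dual word

Let `E α = ∏ m, (± g m X) ^ (b (α m))` for `α ∈ JL`, with the sign `+` for the last letter only. By `Dual`
(substitute `X ↦ g m X`, and `X ↦ - g m X` for the last letter) one has for every letter `m`, with
`(Q, Q') = (P, P')` or `(P', P)`:
`(Q' a a').comp (g m X) * (± g m X) ^ b a' = - (± g m X) ^ b a * (Q a' a).comp (- g m X)`.
Hence `Dc (qw P' P) (X) * diag E = - diag E * (Dc (qw P P') (-X))ᵀ` (entrywise: if `α, α'` agree off `m`,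
the other factors of `E` agree; note that the words `qw P' P` and `qw P P'` have dual letters at every
place). `E α ≠ 0` and `ℂ[X]` is a domain, so `det Dc (qw P' P) = ± (det Dc (qw P P')).comp (-X)`, and
`X ^ v` divides one iff it divides the other.
-/

namespace Pool.Agent.INV5.JD

open Matrix Polynomial

/-- the linear polynomial of the letter `m` -/
noncomputable def LE_u (g : Fin 7 → ℂ) (m : Fin 7) : ℂ[X] :=
  if m = Fin.last 6 then C (g m) * X else -(C (g m) * X)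

theorem LE_key {β : Type} (b : β → ℕ) (P P' : Matrix β β ℂ[X]) (h : Dual b P P')
    (g : Fin 7 → ℂ) (m : Fin 7) (a a' : β) :
    (qw P' P m a a').comp (C (g m) * X) * LE_u g m ^ b a' =
      -(LE_u g m ^ b a * ((qw P P' m a' a).comp (C (g m) * X)).comp (-X)) := by
  unfold LE_u qw
  split_ifs with hm
  · have h1 := congrArg (fun q : ℂ[X] => q.comp (-(C (g m) * X))) (h a' a)
    simp only [mul_comp, neg_comp, pow_comp, X_comp, comp_assoc, neg_neg] at h1
    rw [comp_assoc, mul_comp, C_comp, X_comp, mul_neg]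
    rw [mul_comm ((C (g m) * X) ^ b a), h1]
    ring
  · have h1 := congrArg (fun q : ℂ[X] => q.comp (C (g m) * X)) (h a a')
    simp only [mul_comp, neg_comp, pow_comp, X_comp, comp_assoc] at h1
    rw [h1, comp_assoc, mul_comp, C_comp, X_comp, mul_neg, neg_mul]

/-- the diagonal entries -/
noncomputable def LE_E (D : JD) (p : ℕ) (g : Fin 7 → ℂ) (α : D.JL p) : ℂ[X] :=
  ∏ m, LE_u g m ^ D.b (α.1 m).1

theorem LE_E_ne (D : JD) (p : ℕ) (g : Fin 7 → ℂ) (hg : ∀ m, g m ≠ 0) (α : D.JL p) :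
    LE_E D p g α ≠ 0 := by
  unfold LE_E
  apply Finset.prod_ne_zero_iff.2
  intro m _
  apply pow_ne_zero
  have h1 : C (g m) * (X : ℂ[X]) ≠ 0 := mul_ne_zero (C_ne_zero.2 (hg m)) X_ne_zero
  unfold LE_u
  split_ifs
  · exact h1
  · exact neg_ne_zero.2 h1

theorem LE_term (D : JD) (P P' : Matrix D.β D.β ℂ[X]) (h : Dual D.b P P')
    (p : ℕ) (g : Fin 7 → ℂ) (α α' : D.JL p) (m : Fin 7)
    (hm : ∀ m', m' ≠ m → α.1 m' = α'.1 m') :
    (qw P' P m (α.1 m).1 (α'.1 m).1).comp (C (g m) * X) * LE_E D p g α' =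
      -(LE_E D p g α * ((qw P P' m (α'.1 m).1 (α.1 m).1).comp (C (g m) * X)).comp (-X)) := by
  have h1 : LE_E D p g α' = LE_u g m ^ D.b (α'.1 m).1 *
      ∏ m' ∈ Finset.univ.erase m, LE_u g m' ^ D.b (α'.1 m').1 :=
    (Finset.mul_prod_erase Finset.univ (fun m' => LE_u g m' ^ D.b (α'.1 m').1)
      (Finset.mem_univ m)).symm
  have h2 : LE_E D p g α = LE_u g m ^ D.b (α.1 m).1 *
      ∏ m' ∈ Finset.univ.erase m, LE_u g m' ^ D.b (α.1 m').1 :=
    (Finset.mul_prod_erase Finset.univ (fun m' => LE_u g m' ^ D.b (α.1 m').1)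
      (Finset.mem_univ m)).symm
  have h3 : ∏ m' ∈ Finset.univ.erase m, LE_u g m' ^ D.b (α.1 m').1 =
      ∏ m' ∈ Finset.univ.erase m, LE_u g m' ^ D.b (α'.1 m').1 := by
    apply Finset.prod_congr rfl
    intro m' hm'
    rw [hm m' (Finset.ne_of_mem_erase hm')]
  have hk := LE_key D.b P P' h g m (α.1 m).1 (α'.1 m).1
  rw [h1, h2, h3, ← mul_assoc, hk]
  ring

theorem LE_entry (D : JD) (P P' : Matrix D.β D.β ℂ[X]) (h : Dual D.b P P')
    (p : ℕ) (g : Fin 7 → ℂ) (α α' : D.JL p) :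
    D.Dc p (qw P' P) g α α' * LE_E D p g α' =
      -(LE_E D p g α * (D.Dc p (qw P P') g α' α).comp (-X)) := by
  have hc : ∀ F : Fin 7 → ℂ[X], (∑ m, F m).comp (-X) = ∑ m, (F m).comp (-X) := by
    intro F
    exact map_sum (Polynomial.compRingHom (-X)) F Finset.univ
  unfold Dc
  rw [Finset.sum_mul, hc, Finset.mul_sum, ← Finset.sum_neg_distrib]
  apply Finset.sum_congr rfl
  intro m _
  by_cases hm : ∀ m', m' ≠ m → α.1 m' = α'.1 m'
  · have hm2 : ∀ m', m' ≠ m → α'.1 m' = α.1 m' := fun m' h0 => (hm m' h0).symm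
    rw [if_pos hm, if_pos hm2]
    exact LE_term D P P' h p g α α' m hm
  · have hm2 : ¬ ∀ m', m' ≠ m → α'.1 m' = α.1 m' := fun h0 => hm fun m' h1 => (h0 m' h1).symm
    rw [if_neg hm, if_neg hm2]
    simp

theorem LE_dvd (v : ℕ) (q : ℂ[X]) : X ^ v ∣ q.comp (-X) ↔ X ^ v ∣ q := by
  have h1 : ∀ q : ℂ[X], X ^ v ∣ q → X ^ v ∣ q.comp (-X) := by
    rintro q ⟨r, rfl⟩
    rw [mul_comp, pow_comp, X_comp, neg_pow, mul_comm ((-1) ^ v) (X ^ v), mul_assoc]
    exact dvd_mul_right _ _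
  refine ⟨fun h => ?_, h1 q⟩
  have h2 := h1 _ h
  rw [comp_assoc, neg_comp, X_comp, neg_neg, comp_X] at h2
  exact h2

theorem le_det (D : JD) (P P' : Matrix D.β D.β ℂ[X]) (h : Dual D.b P P')
    (p : ℕ) (g : Fin 7 → ℂ) (hg : ∀ m, g m ≠ 0) (v : ℕ) :
    X ^ v ∣ (D.Dc p (qw P' P) g).det ↔ X ^ v ∣ (D.Dc p (qw P P') g).det := by
  have hmat : D.Dc p (qw P' P) g * diagonal (LE_E D p g) =
      -(diagonal (LE_E D p g) *
        ((Polynomial.compRingHom (-X)).mapMatrix (D.Dc p (qw P P') g))ᵀ) := by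
    ext1 α α'
    rw [mul_diagonal, neg_apply, diagonal_mul, transpose_apply]
    exact LE_entry D P P' h p g α α'
  have hdet := congrArg Matrix.det hmat
  rw [det_mul, det_neg, det_mul, det_transpose, ← RingHom.map_det, det_diagonal] at hdet
  have hE : ∏ i, LE_E D p g i ≠ 0 := Finset.prod_ne_zero_iff.2 fun i _ => LE_E_ne D p g hg i
  have h1 : (D.Dc p (qw P' P) g).det = (-1) ^ Fintype.card (D.JL p) *
      ((D.Dc p (qw P P') g).det).comp (-X) := by
    apply mul_right_cancel₀ hE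
    rw [hdet]
    simp only [Polynomial.coe_compRingHom_apply]
    ring
  rw [h1, IsUnit.dvd_mul_left]
  · exact LE_dvd v _
  · exact IsUnit.pow _ (by simp)

end Pool.Agent.INV5.JD
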