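import Mathlib

/-!
# INV5, module LF1: polynomial matrices with a highly divisible determinant

`lf1`: for fixed `k` let `N_k` be the set of the `X ^ q w + Dc k z`. Step 1: `X ^ (L-1) ℂ[X]^J ⊄ N_k`: otherwise
there are matrices `Z, E` with `Dc Z + X ^ q E = X ^ (L-1) 1`, so
`det Dc * det Z = X ^ (card (L-1)) det (1 - X ^ (q-L+1) E)`, the last determinant has the value `1` at `0`
(`L ≤ q`), but `X ^ (card L)` divides the left side and `card (L-1) < card L`, a contradiction.
Step 2: the constant vectors `v` with `X ^ (L-1) v ∈ N_k` form a subspace of `J → ℂ`, which is proper (`N_k` is a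
`ℂ[X]`-submodule and the constant vectors generate `ℂ[X]^J`). A finite union of proper subspaces over the
infinite field `ℂ` is not everything (`Subspace.biUnion_ne_univ_of_top_notMem` or similar).
`lf3`: let `Pd ≠ 0` be the homogeneous component of `Pl` of the smallest degree `d`, `d < L`. There is a grid
point `k ∈ {1, ..., L}^6` with `Pd(k) ≠ 0` (degrees `< L` in each variable;
`MvPolynomial.eq_zero_of_eval_zero_at_prod_finset`, or `MvPolynomial.funext_set`-like lemmas, or
`MvPolynomial.exists_eval_ne_zero...`). The value at `(k i X)` is `X ^ d (Pd(k) + X ...)`.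
-/

namespace Pool.Agent.INV5

open Matrix Polynomial

private theorem lf1a {J : Type} [Fintype J] [DecidableEq J] [Nonempty J]
    (D : Matrix J J ℂ[X]) (q L : ℕ) (hL : 1 ≤ L) (hLq : L ≤ q)
    (hdet : X ^ (Fintype.card J * L) ∣ D.det)
    (h : ∀ v : J → ℂ, ∃ z w : J → ℂ[X],
      (fun j => C (v j) * X ^ (L - 1)) = D.mulVec z + fun j => X ^ q * w j) : False := by
  have h1 : ∀ i : J, ∃ z w : J → ℂ[X],
      (fun j => C ((Pi.single i (1 : ℂ) : J → ℂ) j) * X ^ (L - 1)) = D.mulVec z + fun j => X ^ q * w j :=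
    fun i => h _
  choose z w hzw using h1
  have hq : q = (L - 1) + (q - L + 1) := by omega
  have h2 : D * (Matrix.of fun j i => z i j) =
      (X : ℂ[X]) ^ (L - 1) • ((1 : Matrix J J ℂ[X]) -
        (X : ℂ[X]) ^ (q - L + 1) • (Matrix.of fun j i => w i j)) := by
    ext1 j i
    have h3 := congrFun (hzw i) j
    simp only [Pi.add_apply] at h3
    rw [Matrix.smul_apply, Matrix.sub_apply, Matrix.smul_apply, Matrix.of_apply, smul_eq_mul,
      smul_eq_mul, mul_sub, ← mul_assoc, ← pow_add, ← hq]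
    have h4 : D.mulVec (z i) j = (D * (Matrix.of fun j i => z i j)) j i := by
      simp only [Matrix.mulVec, dotProduct, Matrix.mul_apply, Matrix.of_apply]
    rw [← h4, eq_sub_iff_add_eq, ← h3, Matrix.one_apply]
    by_cases hji : j = i
    · subst hji
      simp
    · rw [if_neg hji, Pi.single_eq_of_ne hji]
      simp
  have h5 := congrArg Matrix.det h2
  rw [Matrix.det_mul, Matrix.det_smul, ← pow_mul] at h5
  obtain ⟨r, hr⟩ := hdet
  rw [hr] at h5
  have hc : Fintype.card J * L = (L - 1) * Fintype.card J + Fintype.card J := by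
    obtain ⟨L', rfl⟩ : ∃ L', L = L' + 1 := ⟨L - 1, by omega⟩
    rw [Nat.add_sub_cancel]
    ring
  rw [hc, pow_add, mul_assoc, mul_assoc] at h5
  have h6 := mul_left_cancel₀ (pow_ne_zero _ (X_ne_zero : (X : ℂ[X]) ≠ 0)) h5
  have h7 := congrArg (Polynomial.eval 0) h6
  have hcard : Fintype.card J ≠ 0 := Fintype.card_ne_zero
  rw [Polynomial.eval_mul, Polynomial.eval_pow, Polynomial.eval_X, zero_pow hcard, zero_mul] at h7
  have h8 : Polynomial.eval 0 ((1 : Matrix J J ℂ[X]) -
      (X : ℂ[X]) ^ (q - L + 1) • (Matrix.of fun j i => w i j)).det = 1 := by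
    rw [← Polynomial.coe_evalRingHom, RingHom.map_det, RingHom.mapMatrix_apply]
    have h9 : ((1 : Matrix J J ℂ[X]) - (X : ℂ[X]) ^ (q - L + 1) • (Matrix.of fun j i => w i j)).map
        ⇑(Polynomial.evalRingHom (0 : ℂ)) = (1 : Matrix J J ℂ) := by
      ext1 j i
      rw [Matrix.map_apply, Matrix.sub_apply, Matrix.smul_apply, Matrix.one_apply, Matrix.one_apply,
        smul_eq_mul, map_sub, map_mul, map_pow, Polynomial.coe_evalRingHom, Polynomial.eval_X,
        zero_pow (Nat.succ_ne_zero _), zero_mul, sub_zero]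
      split_ifs <;> simp
    rw [h9, Matrix.det_one]
  rw [h8] at h7
  exact zero_ne_one h7

private noncomputable def lf1V {J : Type} [Fintype J] (D : Matrix J J ℂ[X]) (q L : ℕ) :
    Submodule ℂ (J → ℂ) where
  carrier := {v | ∃ z w : J → ℂ[X], (fun j => C (v j) * X ^ (L - 1)) = D.mulVec z + fun j => X ^ q * w j}
  zero_mem' := ⟨0, 0, by
    ext1 j
    simp⟩
  add_mem' := by
    rintro v v' ⟨z, w, h⟩ ⟨z', w', h'⟩
    refine ⟨z + z', w + w', ?_⟩
    rw [Matrix.mulVec_add]
    ext1 j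
    have h1 := congrFun h j
    have h2 := congrFun h' j
    simp only [Pi.add_apply] at h1 h2 ⊢
    rw [map_add, add_mul, h1, h2]
    ring
  smul_mem' := by
    rintro c v ⟨z, w, h⟩
    refine ⟨C c • z, C c • w, ?_⟩
    rw [Matrix.mulVec_smul]
    ext1 j
    have h1 := congrFun h j
    simp only [Pi.add_apply, Pi.smul_apply, smul_eq_mul] at h1 ⊢
    rw [map_mul, mul_assoc, h1]
    ring

theorem lf1 {J ι : Type} [Fintype J] [DecidableEq J] [Nonempty J] [Finite ι]
    (Dc : ι → Matrix J J ℂ[X]) (q L : ℕ) (hL : 1 ≤ L) (hLq : L ≤ q)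
    (hdet : ∀ k, X ^ (Fintype.card J * L) ∣ (Dc k).det) :
    ∃ v : J → ℂ, ∀ k, ¬ ∃ z w : J → ℂ[X],
      (fun j => C (v j) * X ^ (L - 1)) = (Dc k).mulVec z + fun j => X ^ q * w j := by
  by_contra hcon
  push Not at hcon
  have h1 : ⋃ k, (lf1V (Dc k) q L : Set (J → ℂ)) = Set.univ := by
    apply Set.eq_univ_of_forall
    intro v
    obtain ⟨k, hk⟩ := hcon v
    exact Set.mem_iUnion.2 ⟨k, hk⟩
  obtain ⟨k, hk⟩ := Subspace.exists_eq_top_of_iUnion_eq_univ h1
  refine lf1a (Dc k) q L hL hLq (hdet k) fun v => ?_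
  have h2 : v ∈ lf1V (Dc k) q L := by rw [hk]; exact Submodule.mem_top
  exact h2

private theorem lf3a (Pl : MvPolynomial (Fin 6) ℂ) (k : Fin 6 → ℕ) (e : ℕ) :
    (MvPolynomial.aeval (fun i => C (k i : ℂ) * X) Pl : ℂ[X]).coeff e =
      MvPolynomial.eval (fun i => (k i : ℂ)) (MvPolynomial.homogeneousComponent e Pl) := by
  rw [MvPolynomial.homogeneousComponent_apply, MvPolynomial.aeval_def, MvPolynomial.eval₂_eq',
    Polynomial.finsetSum_coeff, map_sum, Finset.sum_filter]
  refine Finset.sum_congr rfl fun d _ => ?_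
  have h1 : (∏ i, (C (k i : ℂ) * X) ^ d i : ℂ[X]) = C (∏ i, (k i : ℂ) ^ d i) * X ^ d.degree := by
    simp only [mul_pow]
    rw [Finset.prod_mul_distrib, Finset.prod_pow_eq_pow_sum, map_prod, Finsupp.degree_eq_sum]
    simp only [map_pow]
  rw [h1, Polynomial.algebraMap_eq, ← mul_assoc, ← C_mul, Polynomial.coeff_C_mul_X_pow,
    MvPolynomial.eval_monomial]
  by_cases h : d.degree = e
  · rw [if_pos h.symm, if_pos h, Finsupp.prod_fintype]
    intro i
    exact pow_zero _
  · rw [if_neg (fun h' => h h'.symm), if_neg h]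

theorem lf3 (L : ℕ) (Pl : MvPolynomial (Fin 6) ℂ) (h0 : Pl ≠ 0) (hL : Pl.totalDegree < L) :
    ∃ k : Fin 6 → ℕ, (∀ i, 1 ≤ k i ∧ k i ≤ L) ∧ ∃ (d : ℕ) (r : ℂ[X]), d < L ∧ r.coeff 0 ≠ 0 ∧
      MvPolynomial.aeval (fun i => C (k i : ℂ) * X) Pl = X ^ d * r := by
  classical
  have hex : ∃ d, MvPolynomial.homogeneousComponent d Pl ≠ 0 := by
    by_contra hcon
    push Not at hcon
    apply h0
    rw [← MvPolynomial.sum_homogeneousComponent Pl]
    exact Finset.sum_eq_zero fun i _ => hcon i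
  set d := Nat.find hex with hd
  have hd1 : MvPolynomial.homogeneousComponent d Pl ≠ 0 := Nat.find_spec hex
  have hd2 : ∀ e, e < d → MvPolynomial.homogeneousComponent e Pl = 0 := fun e he => by
    by_contra hne
    exact Nat.find_min hex he hne
  have hdL : d < L := by
    by_contra hcon
    exact hd1 (MvPolynomial.homogeneousComponent_eq_zero d Pl (by omega))
  have hk : ∃ k : Fin 6 → ℕ, (∀ i, 1 ≤ k i ∧ k i ≤ L) ∧
      MvPolynomial.eval (fun i => (k i : ℂ)) (MvPolynomial.homogeneousComponent d Pl) ≠ 0 := by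
    by_contra hcon
    push Not at hcon
    apply hd1
    apply MvPolynomial.eq_zero_of_eval_zero_at_prod_finset _
      (fun _ => (Finset.Icc 1 L).image (fun n : ℕ => (n : ℂ)))
    · intro i
      rw [Finset.card_image_of_injective _ Nat.cast_injective, Nat.card_Icc]
      have h1 := MvPolynomial.degreeOf_le_totalDegree (MvPolynomial.homogeneousComponent d Pl) i
      have h2 := (MvPolynomial.homogeneousComponent_isHomogeneous d Pl).totalDegree_le
      omega
    · intro x hx
      have h1 : ∀ i, ∃ n : ℕ, (1 ≤ n ∧ n ≤ L) ∧ (n : ℂ) = x i := by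
        intro i
        obtain ⟨n, hn, hnx⟩ := Finset.mem_image.1 (hx i)
        exact ⟨n, Finset.mem_Icc.1 hn, hnx⟩
      choose k hk hkx using h1
      have := hcon k hk
      rwa [show (fun i => (k i : ℂ)) = x from funext hkx] at this
  obtain ⟨k, hk1, hk2⟩ := hk
  refine ⟨k, hk1, d, ?_⟩
  have hdvd : X ^ d ∣ (MvPolynomial.aeval (fun i => C (k i : ℂ) * X) Pl : ℂ[X]) := by
    rw [Polynomial.X_pow_dvd_iff]
    intro e he
    rw [lf3a, hd2 e he, map_zero]
  obtain ⟨r, hr⟩ := hdvd
  refine ⟨r, hdL, ?_, hr⟩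
  have h1 := lf3a Pl k d
  rw [hr] at h1
  have h2 : (X ^ d * r).coeff d = r.coeff 0 := by
    have := Polynomial.coeff_X_pow_mul r d 0
    rwa [zero_add] at this
  rw [← h2, h1]
  exact hk2

end Pool.Agent.INV5
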