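import Pool.Agent.INV5.WO4
import Pool.Agent.INV5.LF1

/-!
# INV5, module LF: many independent classes in the coinvariants of the words

`gg k` is the point with coordinates `k 0, ..., k 5, - ∑ k`. `K = ℂ[X]^JL`, `N_g = X ^ q K + Dc K` for `g = gg k`,
`v` from `lf1` (index set `ι` = the grid `Fin 6 → Fin L`, `k i = ι i + 1`), `w0 = ∑_α v α e_(α, 0)`.
For `g = gg k` let `ev : (J 6 → ℂ) → K` be the linear map
`e_(α, j) ↦ ∏ m, g m ^ j m * X ^ (∑ j m) e_α` if all blocks `α m` are long (`p < b`), and `0` otherwise. Modulo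
`N_g` it kills the image of `LL`: `LL e_(α, j) = ∑_m e_(α, j + 1_m)`, where a term with `j m + 1 = b (α m)` is
zero, but then `X ^ (j m + 1)` is divisible by `X ^ q` as `b (α m) ≥ p + q`; and `∑ g m = 0`. It kills the image
of `YY` (`= WY`, `hY`): if all `α m` are long the long terms give `Dc` applied to a vector modulo `X ^ q` (the
missing positions `≥ b a ≥ p + q` give `X ^ q`), the terms with a short block give zero; if exactly one letter
`m` is short, the terms with a long block `a` at `m` contain `Q m a (α m) (g m X)`, which is divisible by `X ^ q`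
(`Div` and the gap: `b a - b (α m) ≥ q`); if two letters are short all terms are zero.
`ev (φ Pl w0) = Pl(g_0 X, ..., g_5 X) v` modulo `N_g` (check it for monomials, `hφ`; a shift out of the block
gives `X ^ q`), where `Pl(...) = X ^ d r` with `d < L`, `r(0) ≠ 0` for a suitable grid point (`lf3`). `r` is
invertible modulo `X ^ q`. If `φ Pl w0` is in the image of `LL, YY` then `X ^ d r v ∈ N_g`, `X ^ d v ∈ N_g`, hence
`X ^ (L-1) v ∈ N_g`, a contradiction.
-/

namespace Pool.Agent.INV5.JD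

open Matrix Polynomial

/-- the point `(k, - ∑ k)` -/
noncomputable def gg (k : Fin 6 → ℕ) : Fin 7 → ℂ :=
  Fin.snoc (α := fun _ => ℂ) (fun i => (k i : ℂ)) (-∑ i, (k i : ℂ))

section lfaux

variable (D : JD) (p : ℕ) (g : Fin 7 → ℂ)

/-- the vector of a word -/
private noncomputable def lfmon (i : D.J 6) (α : D.JL p) : ℂ[X] :=
  if ∀ m, (i.1 m).1 = (α.1 m).1 then ∏ m, (C (g m) * X) ^ ((i.1 m).2 : ℕ) else 0

/-- evaluation -/
private noncomputable def lfev (w : D.J 6 → ℂ) (α : D.JL p) : ℂ[X] :=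
  ∑ i, C (w i) * lfmon D p g i α

private theorem lfev_mulVec (Z : Matrix (D.J 6) (D.J 6) ℂ) (w : D.J 6 → ℂ) (α : D.JL p) :
    lfev D p g (Z.mulVec w) α = ∑ i, C (w i) * ∑ i', C (Z i' i) * lfmon D p g i' α := by
  unfold lfev
  simp only [Matrix.mulVec, dotProduct, map_sum, map_mul, Finset.sum_mul, Finset.mul_sum]
  rw [Finset.sum_comm]
  refine Finset.sum_congr rfl fun i _ => Finset.sum_congr rfl fun i' _ => ?_
  ring

private theorem lfkey (m : Fin 7) (z : Matrix (Idx D.b) (Idx D.b) ℂ) (i : D.J 6) (α : D.JL p) :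
    ∑ i', C (res (D.c 6) (At m z) i' i) * lfmon D p g i' α =
      if ∀ m', m' ≠ m → (i.1 m').1 = (α.1 m').1 then
        (∑ x : Fin (D.b (α.1 m).1), C (z ⟨(α.1 m).1, x⟩ (i.1 m)) * (C (g m) * X) ^ (x : ℕ)) *
          ∏ m' ∈ Finset.univ.erase m, (C (g m') * X) ^ ((i.1 m').2 : ℕ) else 0 := by
  by_cases h : ∀ m', m' ≠ m → (i.1 m').1 = (α.1 m').1
  · rw [if_pos h]
    have hlab : ∀ x : Fin (D.b (α.1 m).1),
        ∏ m', D.c 6 m' (Function.update i.1 m ⟨(α.1 m).1, x⟩ m') = 1 := by
      intro x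
      refine Eq.trans ?_ α.2
      refine Finset.prod_congr rfl fun m' _ => ?_
      change D.cb 6 m' (Function.update i.1 m ⟨(α.1 m).1, x⟩ m').1 = D.cb 6 m' (α.1 m').1
      by_cases hm : m' = m
      · subst hm
        rw [Function.update_self]
      · rw [Function.update_of_ne hm, h m' hm]
    rw [Finset.sum_mul]
    symm
    refine Fintype.sum_of_injective
      (fun x : Fin (D.b (α.1 m).1) => (⟨Function.update i.1 m ⟨(α.1 m).1, x⟩, hlab x⟩ : D.J 6))
      ?_ _ _ ?_ ?_
    · intro x x' hxx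
      have h1 := congrFun (congrArg Subtype.val hxx) m
      simp only [Function.update_self, Sigma.mk.injEq, heq_eq_eq, true_and] at h1
      exact h1
    · intro i' hi'
      unfold lfmon
      split_ifs with h1
      · have h2 : res (D.c 6) (At m z) i' i = 0 := by
          change (if ∀ m', m' ≠ m → i'.1 m' = i.1 m' then z (i'.1 m) (i.1 m) else 0) = 0
          rw [if_neg]
          intro h3
          apply hi'
          have h4 := h1 m
          refine ⟨Fin.cast (congrArg D.b h4) (i'.1 m).2, ?_⟩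
          apply Subtype.ext
          funext m'
          by_cases hm : m' = m
          · subst hm
            simp only [Function.update_self]
            refine Sigma.ext h4.symm ?_
            rw [Fin.heq_ext_iff (congrArg D.b h4).symm]
            rfl
          · simp only [Function.update_of_ne hm]
            exact (h3 m' hm).symm
        rw [h2, C_0, zero_mul]
      · rw [mul_zero]
    · intro x
      unfold lfmon
      rw [if_pos]
      · have h2 : res (D.c 6) (At m z) ⟨Function.update i.1 m ⟨(α.1 m).1, x⟩, hlab x⟩ i =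
            z ⟨(α.1 m).1, x⟩ (i.1 m) := by
          change (if ∀ m', m' ≠ m → Function.update i.1 m ⟨(α.1 m).1, x⟩ m' = i.1 m' then
            z (Function.update i.1 m ⟨(α.1 m).1, x⟩ m) (i.1 m) else 0) = _
          rw [if_pos (fun m' hm => Function.update_of_ne hm _ _), Function.update_self]
        rw [h2, mul_assoc, ← Finset.mul_prod_erase Finset.univ _ (Finset.mem_univ m)]
        congr 2
        · exact (congrArg (fun t : Idx D.b => ((C (g m) * X) ^ (t.2 : ℕ) : ℂ[X]))
            (Function.update_self (β := fun _ => Idx D.b) m ⟨(α.1 m).1, x⟩ i.1)).symm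
        · refine Finset.prod_congr rfl fun m' hm' => ?_
          exact (congrArg (fun t : Idx D.b => ((C (g m') * X) ^ (t.2 : ℕ) : ℂ[X]))
            (Function.update_of_ne (β := fun _ => Idx D.b) (Finset.ne_of_mem_erase hm')
              ⟨(α.1 m).1, x⟩ i.1)).symm
      · intro m'
        by_cases hm : m' = m
        · subst hm
          simp only [Function.update_self]
        · simp only [Function.update_of_ne hm]
          exact h m' hm
  · rw [if_neg h]
    refine Finset.sum_eq_zero fun i' _ => ?_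
    unfold lfmon
    split_ifs with h1
    · have h2 : res (D.c 6) (At m z) i' i = 0 := by
        change (if ∀ m', m' ≠ m → i'.1 m' = i.1 m' then z (i'.1 m) (i.1 m) else 0) = 0
        rw [if_neg]
        intro h3
        apply h
        intro m' hm
        rw [← h3 m' hm]
        exact h1 m'
      rw [h2, C_0, zero_mul]
    · rw [mul_zero]

private theorem lfX_dvd (γ : ℂ) (q x : ℕ) (h : q ≤ x) : (X : ℂ[X]) ^ q ∣ (C γ * X) ^ x := by
  rw [mul_pow]
  exact Dvd.dvd.mul_left (pow_dvd_pow _ h) _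

private theorem lfmon_erase (m : Fin 7) (i : D.J 6) (α : D.JL p)
    (h : ∀ m, (i.1 m).1 = (α.1 m).1) :
    lfmon D p g i α = (C (g m) * X) ^ ((i.1 m).2 : ℕ) *
      ∏ m' ∈ Finset.univ.erase m, (C (g m') * X) ^ ((i.1 m').2 : ℕ) := by
  unfold lfmon
  rw [if_pos h, ← Finset.mul_prod_erase Finset.univ _ (Finset.mem_univ m)]

private theorem lfA (q : ℕ) (hgap : ∀ a, p < D.b a → p + q ≤ D.b a) (m : Fin 7) (i : D.J 6)
    (α : D.JL p) :
    X ^ q ∣ ∑ i', C (D.AA1 6 m 1 i' i) * lfmon D p g i' α - C (g m) * X * lfmon D p g i α := by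
  have h0 : D.AA1 6 m 1 = res (D.c 6) (At m (Sh D.b)) := by
    unfold AA1
    rw [pow_one]
  rw [h0, lfkey]
  by_cases h : ∀ m', m' ≠ m → (i.1 m').1 = (α.1 m').1
  · rw [if_pos h]
    by_cases hm : (i.1 m).1 = (α.1 m).1
    · have hall : ∀ m', (i.1 m').1 = (α.1 m').1 := by
        intro m'
        by_cases hm' : m' = m
        · rw [hm']; exact hm
        · exact h m' hm'
      rw [lfmon_erase D p g m i α hall]
      have hz : ∀ x : Fin (D.b (α.1 m).1), Sh D.b ⟨(α.1 m).1, x⟩ (i.1 m) =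
          if (x : ℕ) = ((i.1 m).2 : ℕ) + 1 then 1 else 0 := by
        intro x
        unfold Sh
        simp only [hm.symm, true_and]
      simp only [hz]
      by_cases hb : ((i.1 m).2 : ℕ) + 1 < D.b (α.1 m).1
      · rw [Finset.sum_eq_single (⟨((i.1 m).2 : ℕ) + 1, hb⟩ : Fin (D.b (α.1 m).1))]
        · rw [if_pos rfl, C_1, one_mul, pow_succ]
          have : (C (g m) * X) ^ ((i.1 m).2 : ℕ) * (C (g m) * X) *
              ∏ m' ∈ Finset.univ.erase m, (C (g m') * X) ^ ((i.1 m').2 : ℕ) -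
            C (g m) * X * ((C (g m) * X) ^ ((i.1 m).2 : ℕ) *
              ∏ m' ∈ Finset.univ.erase m, (C (g m') * X) ^ ((i.1 m').2 : ℕ)) = 0 := by ring
          rw [this]
          exact dvd_zero _
        · intro x _ hx
          rw [if_neg, C_0, zero_mul]
          intro h1
          exact hx (Fin.ext h1)
        · intro h1
          exact absurd (Finset.mem_univ _) h1
      · have h1 : ∑ x : Fin (D.b (α.1 m).1), C (if (x : ℕ) = ((i.1 m).2 : ℕ) + 1 then (1 : ℂ) else 0) *
            (C (g m) * X) ^ (x : ℕ) = 0 := by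
          refine Finset.sum_eq_zero fun x _ => ?_
          rw [if_neg, C_0, zero_mul]
          intro h1
          apply hb
          rw [← h1]
          exact x.2
        rw [h1, zero_mul, zero_sub, dvd_neg, ← mul_assoc, ← pow_succ']
        refine Dvd.dvd.mul_right (lfX_dvd _ _ _ ?_) _
        have := hgap (α.1 m).1 (α.1 m).2
        omega
    · have h1 : ∑ x : Fin (D.b (α.1 m).1), C (Sh D.b ⟨(α.1 m).1, x⟩ (i.1 m)) *
          (C (g m) * X) ^ (x : ℕ) = 0 := by
        refine Finset.sum_eq_zero fun x _ => ?_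
        unfold Sh
        rw [if_neg, C_0, zero_mul]
        intro h1
        exact hm h1.1.symm
      have h2 : lfmon D p g i α = 0 := by
        unfold lfmon
        rw [if_neg]
        intro h3
        exact hm (h3 m)
      rw [h1, h2, zero_mul, mul_zero, sub_zero]
      exact dvd_zero _
  · rw [if_neg h]
    have h2 : lfmon D p g i α = 0 := by
      unfold lfmon
      rw [if_neg]
      intro h3
      exact h fun m' _ => h3 m'
    rw [h2, mul_zero, sub_zero]
    exact dvd_zero _

private theorem lfpoly (R : ℂ[X]) (γ : ℂ) (q B : ℕ) (h : q ≤ B) :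
    X ^ q ∣ ∑ x : Fin B, C (R.coeff x) * (C γ * X) ^ (x : ℕ) - R.comp (C γ * X) := by
  rw [X_pow_dvd_iff]
  intro d hd
  rw [coeff_sub, comp_C_mul_X_coeff, finsetSum_coeff]
  have h1 : ∀ x : Fin B, (C (R.coeff x) * (C γ * X) ^ (x : ℕ)).coeff d =
      if (x : ℕ) = d then R.coeff d * γ ^ d else 0 := by
    intro x
    rw [mul_pow, ← C_pow, ← mul_assoc, ← C_mul, coeff_C_mul_X_pow]
    by_cases hx : (x : ℕ) = d
    · rw [if_pos hx.symm, if_pos hx, hx]
    · rw [if_neg (fun h => hx h.symm), if_neg hx]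
  simp only [h1]
  rw [Finset.sum_eq_single (⟨d, by omega⟩ : Fin B)]
  · rw [if_pos rfl, sub_self]
  · intro x _ hx
    rw [if_neg]
    intro h2
    exact hx (Fin.ext h2)
  · intro h2
    exact absurd (Finset.mem_univ _) h2

private theorem lfB (Q : Fin 7 → Matrix D.β D.β ℂ[X]) (hQ : Div (fun _ => D.b) Q) (q : ℕ)
    (hgap : ∀ a, p < D.b a → p + q ≤ D.b a) (m : Fin 7) (i : D.J 6) (α : D.JL p) :
    X ^ q ∣ ∑ i', C (res (D.c 6) (At m (ymat D.b (Q m))) i' i) * lfmon D p g i' α -
      ∑ α' : D.JL p, (if ∀ m', m' ≠ m → α.1 m' = α'.1 m' then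
        (Q m (α.1 m).1 (α'.1 m).1).comp (C (g m) * X) else 0) * lfmon D p g i α' := by
  rw [lfkey]
  have hqα : q ≤ D.b (α.1 m).1 := by
    have := hgap (α.1 m).1 (α.1 m).2
    omega
  by_cases hlong : ∀ m', p < D.b (i.1 m').1
  · -- all blocks are long
    have hl : ∏ m', D.cb 6 m' (i.1 m').1 = 1 := i.2
    have h1 : ∑ α' : D.JL p, (if ∀ m', m' ≠ m → α.1 m' = α'.1 m' then
        (Q m (α.1 m).1 (α'.1 m).1).comp (C (g m) * X) else 0) * lfmon D p g i α' =
        (if ∀ m', m' ≠ m → (i.1 m').1 = (α.1 m').1 then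
          (Q m (α.1 m).1 (i.1 m).1).comp (C (g m) * X) else 0) *
          ∏ m', (C (g m') * X) ^ ((i.1 m').2 : ℕ) := by
      rw [Finset.sum_eq_single (⟨fun m' => ⟨(i.1 m').1, hlong m'⟩, hl⟩ : D.JL p)]
      · have h2 : lfmon D p g i (⟨fun m' => ⟨(i.1 m').1, hlong m'⟩, hl⟩ : D.JL p) =
            ∏ m', (C (g m') * X) ^ ((i.1 m').2 : ℕ) := by
          unfold lfmon
          rw [if_pos]
          intro m'
          rfl
        rw [h2]
        congr 1
        refine if_congr ?_ rfl rfl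
        refine forall_congr' fun m' => imp_congr_right fun _ => ?_
        constructor
        · intro h3
          rw [h3]
        · intro h3
          exact Subtype.ext h3.symm
      · intro α' _ hα'
        have h2 : lfmon D p g i α' = 0 := by
          unfold lfmon
          rw [if_neg]
          intro h3
          apply hα'
          apply Subtype.ext
          funext m'
          exact Subtype.ext (h3 m').symm
        rw [h2, mul_zero]
      · intro h2
        exact absurd (Finset.mem_univ _) h2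
    rw [h1]
    by_cases h : ∀ m', m' ≠ m → (i.1 m').1 = (α.1 m').1
    · rw [if_pos h, if_pos h, ← Finset.mul_prod_erase Finset.univ _ (Finset.mem_univ m),
        ← mul_assoc, ← sub_mul]
      refine Dvd.dvd.mul_right ?_ _
      have h2 := lfpoly (Q m (α.1 m).1 (i.1 m).1 * X ^ ((i.1 m).2 : ℕ)) (g m) q _ hqα
      rw [mul_comp, X_pow_comp] at h2
      convert h2 using 4 with x
      rw [coeff_mul_X_pow']
      rfl
    · rw [if_neg h, if_neg h, zero_mul, sub_zero]
      exact dvd_zero _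
  · -- a short block
    have h1 : ∑ α' : D.JL p, (if ∀ m', m' ≠ m → α.1 m' = α'.1 m' then
        (Q m (α.1 m).1 (α'.1 m).1).comp (C (g m) * X) else 0) * lfmon D p g i α' = 0 := by
      refine Finset.sum_eq_zero fun α' _ => ?_
      have h2 : lfmon D p g i α' = 0 := by
        unfold lfmon
        rw [if_neg]
        intro h3
        apply hlong
        intro m'
        rw [h3 m']
        exact (α'.1 m').2
      rw [h2, mul_zero]
    rw [h1, sub_zero]
    split_ifs with h
    · have hshort : D.b (i.1 m).1 ≤ p := by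
        by_contra hcon
        apply hlong
        intro m'
        by_cases hm : m' = m
        · rw [hm]
          omega
        · rw [h m' hm]
          exact (α.1 m').2
      refine Dvd.dvd.mul_right ?_ _
      refine Finset.dvd_sum fun x _ => ?_
      unfold ymat
      by_cases hx : ((i.1 m).2 : ℕ) ≤ (x : ℕ)
      · simp only [if_pos hx]
        by_cases hx2 : (x : ℕ) - ((i.1 m).2 : ℕ) < q
        · have h3 : (Q m (α.1 m).1 (i.1 m).1).coeff ((x : ℕ) - ((i.1 m).2 : ℕ)) = 0 := by
            apply hQ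
            have := hgap (α.1 m).1 (α.1 m).2
            change (x : ℕ) - ((i.1 m).2 : ℕ) + D.b (i.1 m).1 < D.b (α.1 m).1
            omega
          rw [h3, C_0, zero_mul]
          exact dvd_zero _
        · exact Dvd.dvd.mul_left (lfX_dvd _ _ _ (by omega)) _
      · simp only [if_neg hx]
        rw [C_0, zero_mul]
        exact dvd_zero _
    · exact dvd_zero _

private theorem lfA' (q : ℕ) (hgap : ∀ a, p < D.b a → p + q ≤ D.b a) (m : Fin 7) (w : D.J 6 → ℂ)
    (α : D.JL p) :
    X ^ q ∣ lfev D p g ((D.AA1 6 m 1).mulVec w) α - C (g m) * X * lfev D p g w α := by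
  rw [lfev_mulVec]
  unfold lfev
  rw [Finset.mul_sum, ← Finset.sum_sub_distrib]
  refine Finset.dvd_sum fun i _ => ?_
  have h1 := lfA D p g q hgap m i α
  have h2 : C (w i) * ∑ i', C (D.AA1 6 m 1 i' i) * lfmon D p g i' α -
      C (g m) * X * (C (w i) * lfmon D p g i α) =
      C (w i) * (∑ i', C (D.AA1 6 m 1 i' i) * lfmon D p g i' α - C (g m) * X * lfmon D p g i α) := by
    ring
  rw [h2]
  exact Dvd.dvd.mul_left h1 _

private theorem lfev_add (w w' : D.J 6 → ℂ) (α : D.JL p) :
    lfev D p g (w + w') α = lfev D p g w α + lfev D p g w' α := by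
  unfold lfev
  rw [← Finset.sum_add_distrib]
  refine Finset.sum_congr rfl fun i _ => ?_
  rw [Pi.add_apply, map_add, add_mul]

private theorem lfev_smul (c : ℂ) (w : D.J 6 → ℂ) (α : D.JL p) :
    lfev D p g (c • w) α = C c * lfev D p g w α := by
  unfold lfev
  rw [Finset.mul_sum]
  refine Finset.sum_congr rfl fun i _ => ?_
  rw [Pi.smul_apply, smul_eq_mul, map_mul, mul_assoc]

private theorem lfev_sum {ι : Type*} (s : Finset ι) (f : ι → D.J 6 → ℂ) (α : D.JL p) :
    lfev D p g (∑ k ∈ s, f k) α = ∑ k ∈ s, lfev D p g (f k) α := by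
  classical
  induction s using Finset.induction_on with
  | empty =>
    rw [Finset.sum_empty, Finset.sum_empty]
    unfold lfev
    refine Finset.sum_eq_zero fun i _ => ?_
    rw [Pi.zero_apply, C_0, zero_mul]
  | insert a s ha ih => rw [Finset.sum_insert ha, Finset.sum_insert ha, lfev_add, ih]

private theorem lfLL (q : ℕ) (hgap : ∀ a, p < D.b a → p + q ≤ D.b a) (hg : ∑ m, g m = 0)
    (w : D.J 6 → ℂ) (α : D.JL p) : X ^ q ∣ lfev D p g ((D.LL 6).mulVec w) α := by
  have h1 : (D.LL 6).mulVec w = ∑ m, (D.AA1 6 m 1).mulVec w := by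
    rw [LL_eq, Matrix.sum_mulVec]
  rw [h1, lfev_sum]
  have h2 : ∑ m, lfev D p g ((D.AA1 6 m 1).mulVec w) α =
      ∑ m, (lfev D p g ((D.AA1 6 m 1).mulVec w) α - C (g m) * X * lfev D p g w α) := by
    rw [Finset.sum_sub_distrib, ← Finset.sum_mul, ← Finset.sum_mul, ← map_sum, hg, C_0, zero_mul,
      zero_mul, sub_zero]
  rw [h2]
  exact Finset.dvd_sum fun m _ => lfA' D p g q hgap m w α

private theorem lfYY (Q : Fin 7 → Matrix D.β D.β ℂ[X]) (hQ : Div (fun _ => D.b) Q)
    (hY : D.YY 6 = WY (D.cb 6) (fun _ => D.b) Q) (q : ℕ)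
    (hgap : ∀ a, p < D.b a → p + q ≤ D.b a) (w : D.J 6 → ℂ) (α : D.JL p) :
    X ^ q ∣ lfev D p g ((D.YY 6).mulVec w) α - (D.Dc p Q g).mulVec (lfev D p g w) α := by
  have h0 : D.YY 6 = ∑ m, res (D.c 6) (At m (ymat D.b (Q m))) := by
    rw [hY]
    unfold WY Tot
    ext i j
    simp only [res, Matrix.sum_apply, Matrix.submatrix_apply] <;> rfl
  have h1 : (D.YY 6).mulVec w = ∑ m, (res (D.c 6) (At m (ymat D.b (Q m)))).mulVec w := by
    rw [h0, Matrix.sum_mulVec]
  rw [h1, lfev_sum]
  have h2 : (D.Dc p Q g).mulVec (lfev D p g w) α = ∑ m, ∑ i, C (w i) *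
      ∑ α' : D.JL p, (if ∀ m', m' ≠ m → α.1 m' = α'.1 m' then
        (Q m (α.1 m).1 (α'.1 m).1).comp (C (g m) * X) else 0) * lfmon D p g i α' := by
    unfold lfev Dc
    simp only [Matrix.mulVec, dotProduct, Finset.sum_mul, Finset.mul_sum]
    rw [Finset.sum_comm]
    have : ∀ (f : D.JL p → D.J 6 → Fin 7 → ℂ[X]), ∑ i, ∑ α', ∑ m, f α' i m = ∑ m, ∑ i, ∑ α', f α' i m := by
      intro f
      have h3 : ∀ i, ∑ α', ∑ m, f α' i m = ∑ m, ∑ α', f α' i m := fun i => Finset.sum_comm
      simp only [h3]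
      exact Finset.sum_comm
    rw [this]
    refine Finset.sum_congr rfl fun m _ => Finset.sum_congr rfl fun i _ =>
      Finset.sum_congr rfl fun α' _ => ?_
    ring
  rw [h2, ← Finset.sum_sub_distrib]
  refine Finset.dvd_sum fun m _ => ?_
  rw [lfev_mulVec, ← Finset.sum_sub_distrib]
  refine Finset.dvd_sum fun i _ => ?_
  rw [← mul_sub]
  exact Dvd.dvd.mul_left (lfB D p g Q hQ q hgap m i α) _

/-- the words in position zero -/
private noncomputable def lfi0 (α : D.JL p) : D.J 6 :=
  ⟨fun m => ⟨(α.1 m).1, ⟨0, D.hb _⟩⟩, α.2⟩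

private theorem lfmon_i0 (α α' : D.JL p) :
    lfmon D p g (lfi0 D p α') α = if α' = α then 1 else 0 := by
  unfold lfmon
  by_cases h : α' = α
  · subst h
    rw [if_pos rfl]
    refine (if_pos (fun m => rfl)).trans ?_
    refine Finset.prod_eq_one fun m _ => ?_
    exact pow_zero _
  · rw [if_neg h, if_neg]
    intro h1
    apply h
    apply Subtype.ext
    funext m
    exact Subtype.ext (h1 m)

private theorem lfev_w0 (v : D.JL p → ℂ) (α : D.JL p) :
    lfev D p g (∑ α', Pi.single (lfi0 D p α') (v α')) α = C (v α) := by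
  rw [lfev_sum]
  have h1 : ∀ α', lfev D p g (Pi.single (lfi0 D p α') (v α')) α =
      C (v α') * if α' = α then 1 else 0 := by
    intro α'
    rw [← lfmon_i0 D p g]
    unfold lfev
    rw [Finset.sum_eq_single (lfi0 D p α')]
    · rw [Pi.single_eq_same]
    · intro i _ hi
      rw [Pi.single_eq_of_ne hi, C_0, zero_mul]
    · intro h2
      exact absurd (Finset.mem_univ _) h2
  simp only [h1]
  rw [Finset.sum_eq_single α]
  · rw [if_pos rfl, mul_one]
  · intro α' _ h
    rw [if_neg h, mul_zero]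
  · intro h2
    exact absurd (Finset.mem_univ _) h2

private theorem lfφ (q : ℕ) (hgap : ∀ a, p < D.b a → p + q ≤ D.b a) (k : Fin 6 → ℂ)
    (hk : ∀ i : Fin 6, g i.castSucc = k i)
    (φ : MvPolynomial (Fin 6) ℂ →ₐ[ℂ] Matrix (D.J 6) (D.J 6) ℂ)
    (hφ : ∀ i, φ (MvPolynomial.X i) = D.AA1 6 i.castSucc 1) (Pl : MvPolynomial (Fin 6) ℂ)
    (w : D.J 6 → ℂ) (α : D.JL p) :
    X ^ q ∣ lfev D p g ((φ Pl).mulVec w) α -
      MvPolynomial.aeval (fun i => C (k i) * X) Pl * lfev D p g w α := by
  induction Pl using MvPolynomial.induction_on generalizing w with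
  | C a =>
    have h1 : φ (MvPolynomial.C a) = a • (1 : Matrix (D.J 6) (D.J 6) ℂ) := by
      rw [← MvPolynomial.algebraMap_eq, AlgHom.commutes, Algebra.algebraMap_eq_smul_one]
    rw [h1, Matrix.smul_mulVec, Matrix.one_mulVec, lfev_smul, MvPolynomial.aeval_C]
    rw [Polynomial.algebraMap_eq, sub_self]
    exact dvd_zero _
  | add P P' h h' =>
    rw [map_add, Matrix.add_mulVec, lfev_add, map_add, add_mul]
    have h1 := dvd_add (h w) (h' w)
    have h2 : ∀ a b c d : ℂ[X], a + b - (c + d) = (a - c) + (b - d) := fun a b c d => by ring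
    rw [h2]
    exact h1
  | mul_X P i h =>
    rw [map_mul, ← Matrix.mulVec_mulVec, map_mul, MvPolynomial.aeval_X, hφ]
    have h1 := h ((D.AA1 6 i.castSucc 1).mulVec w)
    have h2 := lfA' D p g q hgap i.castSucc w α
    rw [hk] at h2
    have h3 := dvd_add h1 (Dvd.dvd.mul_left h2 (MvPolynomial.aeval (fun i => C (k i) * X) P))
    have h4 : ∀ a b c d e : ℂ[X], a - b * c + b * (c - d * e) = a - b * d * e := by
      intro a b c d e
      ring
    rw [h4] at h3
    exact h3

/-- the submodule `X ^ q K + Dc K` -/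
private def lfN (Q : Fin 7 → Matrix D.β D.β ℂ[X]) (q : ℕ) (u : D.JL p → ℂ[X]) : Prop :=
  ∃ z : D.JL p → ℂ[X], ∀ α, X ^ q ∣ u α - (D.Dc p Q g).mulVec z α

private theorem lfN_add (Q : Fin 7 → Matrix D.β D.β ℂ[X]) (q : ℕ) (u u' : D.JL p → ℂ[X])
    (h : lfN D p g Q q u) (h' : lfN D p g Q q u') : lfN D p g Q q (u + u') := by
  obtain ⟨z, hz⟩ := h
  obtain ⟨z', hz'⟩ := h'
  refine ⟨z + z', fun α => ?_⟩
  have h1 := dvd_add (hz α) (hz' α)
  rw [Matrix.mulVec_add, Pi.add_apply, Pi.add_apply]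
  have h2 : ∀ a b c d : ℂ[X], a + b - (c + d) = (a - c) + (b - d) := fun a b c d => by ring
  rw [h2]
  exact h1

private theorem lfN_smul (Q : Fin 7 → Matrix D.β D.β ℂ[X]) (q : ℕ) (r : ℂ[X]) (u : D.JL p → ℂ[X])
    (h : lfN D p g Q q u) : lfN D p g Q q (r • u) := by
  obtain ⟨z, hz⟩ := h
  refine ⟨r • z, fun α => ?_⟩
  have h1 := Dvd.dvd.mul_left (hz α) r
  rw [Matrix.mulVec_smul, Pi.smul_apply, Pi.smul_apply, smul_eq_mul, smul_eq_mul, ← mul_sub]
  exact h1

private theorem lfN_of_dvd (Q : Fin 7 → Matrix D.β D.β ℂ[X]) (q : ℕ) (u u' : D.JL p → ℂ[X])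
    (h : lfN D p g Q q u) (h' : ∀ α, X ^ q ∣ u α - u' α) : lfN D p g Q q u' := by
  obtain ⟨z, hz⟩ := h
  refine ⟨z, fun α => ?_⟩
  have h1 := dvd_sub (hz α) (h' α)
  have h2 : ∀ a b c : ℂ[X], a - b - (a - c) = c - b := fun a b c => by ring
  rw [h2] at h1
  exact h1

private theorem lfN_img (Q : Fin 7 → Matrix D.β D.β ℂ[X]) (hQ : Div (fun _ => D.b) Q)
    (hY : D.YY 6 = WY (D.cb 6) (fun _ => D.b) Q) (q : ℕ)
    (hgap : ∀ a, p < D.b a → p + q ≤ D.b a) (hg : ∑ m, g m = 0) (w : D.J 6 → ℂ)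
    (hw : w ∈ img ![D.LL 6, D.YY 6]) : lfN D p g Q q (lfev D p g w) := by
  let S : Submodule ℂ (D.J 6 → ℂ) :=
    { carrier := {w | lfN D p g Q q (lfev D p g w)}
      zero_mem' := by
        refine ⟨0, fun α => ?_⟩
        rw [Matrix.mulVec_zero, Pi.zero_apply, sub_zero]
        have : lfev D p g 0 α = 0 := by
          unfold lfev
          refine Finset.sum_eq_zero fun i _ => ?_
          rw [Pi.zero_apply, C_0, zero_mul]
        rw [this]
        exact dvd_zero _
      add_mem' := by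
        intro w w' h h'
        have h1 := lfN_add D p g Q q _ _ h h'
        have h2 : lfev D p g (w + w') = lfev D p g w + lfev D p g w' := by
          funext α
          exact lfev_add D p g w w' α
        change lfN D p g Q q (lfev D p g (w + w'))
        rw [h2]
        exact h1
      smul_mem' := by
        intro c w h
        have h1 := lfN_smul D p g Q q (C c) _ h
        have h2 : lfev D p g (c • w) = (C c : ℂ[X]) • lfev D p g w := by
          funext α
          exact lfev_smul D p g c w α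
        change lfN D p g Q q (lfev D p g (c • w))
        rw [h2]
        exact h1 }
  have hle : img ![D.LL 6, D.YY 6] ≤ S := by
    refine img_le _ S fun r v => ?_
    fin_cases r
    · refine ⟨0, fun α => ?_⟩
      rw [Matrix.mulVec_zero, Pi.zero_apply, sub_zero]
      exact lfLL D p g q hgap hg v α
    · exact ⟨lfev D p g v, fun α => lfYY D p g Q hQ hY q hgap v α⟩
  exact hle hw

private theorem lf_inv (r : ℂ[X]) (h : r.coeff 0 ≠ 0) (q : ℕ) : ∃ s, X ^ q ∣ s * r - 1 := by
  have h1 : IsCoprime r (X ^ q : ℂ[X]) := by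
    apply IsCoprime.pow_right
    apply IsCoprime.symm
    rw [(Polynomial.prime_X (R := ℂ)).coprime_iff_not_dvd, Polynomial.X_dvd_iff]
    exact h
  obtain ⟨a, b, hab⟩ := h1
  refine ⟨a, -b, ?_⟩
  linear_combination hab

end lfaux

theorem lf (D : JD) (Q : Fin 7 → Matrix D.β D.β ℂ[X]) (hQ : Div (fun _ => D.b) Q)
    (hY : D.YY 6 = WY (D.cb 6) (fun _ => D.b) Q) (p q L : ℕ)
    (hgap : ∀ a, p < D.b a → p + q ≤ D.b a) (hL : 1 ≤ L) (hLq : L ≤ q) (hne : Nonempty (D.JL p))
    (hdet : ∀ k : Fin 6 → ℕ, (∀ i, 1 ≤ k i ∧ k i ≤ L) →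
      X ^ (Fintype.card (D.JL p) * L) ∣ (D.Dc p Q (gg k)).det)
    (φ : MvPolynomial (Fin 6) ℂ →ₐ[ℂ] Matrix (D.J 6) (D.J 6) ℂ)
    (hφ : ∀ i, φ (MvPolynomial.X i) = D.AA1 6 i.castSucc 1) :
    ∃ w0 : D.J 6 → ℂ, ∀ Pl : MvPolynomial (Fin 6) ℂ, Pl ≠ 0 → Pl.totalDegree < L →
      (φ Pl).mulVec w0 ∉ img ![D.LL 6, D.YY 6] := by
  classical
  obtain ⟨v, hv⟩ := lf1 (J := D.JL p) (ι := Fin 6 → Fin L)
    (fun k => D.Dc p Q (gg fun i => (k i : ℕ) + 1)) q L hL hLq
    (fun k => hdet _ fun i => ⟨by omega, by have := (k i).2; omega⟩)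
  refine ⟨∑ α', Pi.single (lfi0 D p α') (v α'), fun Pl hPl hdeg hmem => ?_⟩
  obtain ⟨k, hk, d, r, hd, hr, hPk⟩ := lf3 L Pl hPl hdeg
  have hgs : ∀ i : Fin 6, gg k i.castSucc = (k i : ℂ) := by
    intro i
    unfold gg
    rw [Fin.snoc_castSucc]
  have hgl : gg k (Fin.last 6) = -∑ i, (k i : ℂ) := by
    unfold gg
    rw [Fin.snoc_last]
  have hg : ∑ m, gg k m = 0 := by
    rw [Fin.sum_univ_castSucc, hgl]
    simp only [hgs]
    exact add_neg_cancel _
  have h1 := lfN_img D p (gg k) Q hQ hY q hgap hg _ hmem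
  have h2 := lfN_of_dvd D p (gg k) Q q _ _ h1
    (fun α => lfφ D p (gg k) q hgap (fun i => (k i : ℂ)) hgs φ hφ Pl _ α)
  obtain ⟨s, hs⟩ := lf_inv r hr q
  have h3 := lfN_smul D p (gg k) Q q (s * X ^ (L - 1 - d)) _ h2
  have h4 : lfN D p (gg k) Q q (fun α => C (v α) * X ^ (L - 1)) := by
    refine lfN_of_dvd D p (gg k) Q q _ _ h3 fun α => ?_
    rw [Pi.smul_apply, smul_eq_mul, hPk, lfev_w0]
    have h5 : s * X ^ (L - 1 - d) * (X ^ d * r * C (v α)) - C (v α) * X ^ (L - 1) =
        (s * r - 1) * (C (v α) * X ^ (L - 1)) := by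
      have h6 : (X : ℂ[X]) ^ (L - 1) = X ^ (L - 1 - d) * X ^ d := by
        rw [← pow_add]
        congr 1
        omega
      rw [h6]
      ring
    rw [h5]
    exact Dvd.dvd.mul_right hs _
  obtain ⟨z, hz⟩ := h4
  have h5 : ∀ α, ∃ w : ℂ[X], C (v α) * X ^ (L - 1) - (D.Dc p Q (gg k)).mulVec z α = X ^ q * w :=
    fun α => hz α
  choose w hw using h5
  have hkk : (fun i => (((⟨k i - 1, by have := hk i; omega⟩ : Fin L) : ℕ) + 1)) = k := by
    funext i
    have := hk i
    change k i - 1 + 1 = k i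
    omega
  apply hv (fun i => ⟨k i - 1, by have := hk i; omega⟩)
  simp only [hkk]
  refine ⟨z, w, ?_⟩
  funext α
  rw [Pi.add_apply, ← hw α]
  ring

end Pool.Agent.INV5.JD
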