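import Pool.Agent.INV5.Defs

/-!
# INV5, module LG: elimination lemma (abstract)

`exists_phi`: the subalgebra generated by pairwise commuting elements is commutative
(`Algebra.adjoinCommRingOfComm`), so `MvPolynomial.aeval` into it exists; compose with the inclusion.
(Or construct the map on monomials by `Finset.noncommProd`; or induct on `k` with
`MvPolynomial.finSuccEquiv` and `Polynomial.aeval`.)

`elim`: put `Δ = ∏_{g ≠ 1} (u 1 - u g)` and let `∏_{g ≠ 1} (Z - u g) = ∑_{k < |G|} c_k Z ^ k` in `A[Z]`. For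
`v ∈ W` and `k < |G|` let `e_k = ∑_g ρ g (φ (u 1) ^ k v)`, an invariant vector (`ρ h e_k = e_k`). By `hu`
(iterated) `e_k = ∑_g φ (u g) ^ k (ρ g v)`, so
`∑_k φ (c_k) e_k = ∑_g φ (∏_{h ≠ 1} (u g - u h)) (ρ g v) = φ Δ v` (for `g ≠ 1` the product contains the factor
`h = g`, and `ρ 1 = 1`). So the range of `φ Δ` is contained in the sum of the `|G|` subspaces
`φ (c_k) W^G`, and `dim W^G = dim W / ∑_g (1 - ρ g) W` (averaging: `W = W^G ⊕ ∑ (1 - ρ g) W`; only `≤`
is needed, i.e. `W^G ∩ ∑ (1 - ρ g) W = 0`).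
-/

namespace Pool.Agent.INV5

theorem exists_phi {k : ℕ} {R : Type*} [Ring R] [Algebra ℂ R] (Z : Fin k → R)
    (h : ∀ i j, Commute (Z i) (Z j)) :
    ∃ φ : MvPolynomial (Fin k) ℂ →ₐ[ℂ] R, ∀ i, φ (MvPolynomial.X i) = Z i := by
  classical
  let S := Algebra.adjoin ℂ (Set.range Z)
  have hc : IsMulCommutative S := Algebra.isMulCommutative_adjoin ℂ (by
    rintro _ ⟨i, rfl⟩ _ ⟨j, rfl⟩
    exact h i j)
  let _ : CommRing S := { (inferInstance : Ring S) with mul_comm := fun a b => hc.is_comm.comm a b }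
  let Z' : Fin k → S := fun i => ⟨Z i, Algebra.subset_adjoin ⟨i, rfl⟩⟩
  refine ⟨S.val.comp (MvPolynomial.aeval Z'), fun i => ?_⟩
  simp [Z']

open Module in
private theorem finrank_iSup_fin_le {W : Type*} [AddCommGroup W] [Module ℂ W]
    [FiniteDimensional ℂ W] (n : ℕ) (N : ℕ → Submodule ℂ W) (d : ℕ)
    (h : ∀ k, finrank ℂ ↥(N k) ≤ d) :
    finrank ℂ ↥(⨆ k ∈ Finset.range n, N k) ≤ n * d := by
  induction n with
  | zero =>
    have h1 : (⨆ k ∈ Finset.range 0, N k) = ⊥ := by
      rw [eq_bot_iff]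
      exact iSup₂_le fun k hk => absurd hk (by simp)
    rw [h1, finrank_bot]
    exact Nat.zero_le _
  | succ n ih =>
    have h1 : (⨆ k ∈ Finset.range (n + 1), N k) = N n ⊔ ⨆ k ∈ Finset.range n, N k := by
      rw [Finset.range_add_one, Finset.iSup_insert]
    rw [h1]
    have h2 := Submodule.finrank_add_le_finrank_add_finrank (N n) (⨆ k ∈ Finset.range n, N k)
    have h3 := h n
    rw [Nat.succ_mul]
    omega

theorem elim {W : Type*} [AddCommGroup W] [Module ℂ W] [FiniteDimensional ℂ W] {G : Type*}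
    [Group G] [Fintype G] [DecidableEq G] (ρ : G →* Module.End ℂ W) {A : Type*} [CommRing A]
    [Algebra ℂ A] (φ : A →ₐ[ℂ] Module.End ℂ W) (u : G → A)
    (hu : ∀ g, ρ g * φ (u 1) = φ (u g) * ρ g) :
    Module.finrank ℂ ↥(LinearMap.range (φ (∏ g ∈ Finset.univ.erase 1, (u 1 - u g)))) ≤
      Fintype.card G * Module.finrank ℂ (W ⧸ ⨆ g, LinearMap.range (1 - ρ g)) := by
  classical
  -- invariants
  let Inv : Submodule ℂ W := ⨅ g, LinearMap.ker (1 - ρ g)
  have hInv : ∀ w, w ∈ Inv ↔ ∀ g, ρ g w = w := by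
    intro w
    simp only [Inv, Submodule.mem_iInf, LinearMap.mem_ker, LinearMap.sub_apply, Module.End.one_apply,
      sub_eq_zero]
    exact forall_congr' fun g => eq_comm
  let e : Module.End ℂ W := ∑ g, ρ g
  have he : ∀ h, e * (1 - ρ h) = 0 := by
    intro h
    rw [mul_sub, mul_one, sub_eq_zero]
    simp only [e]
    rw [Finset.sum_mul]
    simp only [← map_mul]
    exact (Fintype.sum_equiv (Equiv.mulRight h) (fun g => ρ (g * h)) (fun g => ρ g)
      (fun g => rfl)).symm
  have he' : ∀ w ∈ ⨆ g, LinearMap.range (1 - ρ g), e w = 0 := by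
    intro w hw
    have : (⨆ g, LinearMap.range (1 - ρ g)) ≤ LinearMap.ker e := by
      refine iSup_le fun g => ?_
      rintro _ ⟨v, rfl⟩
      rw [LinearMap.mem_ker, ← Module.End.mul_apply, he, LinearMap.zero_apply]
    exact this hw
  have hdim : Module.finrank ℂ ↥Inv ≤ Module.finrank ℂ (W ⧸ ⨆ g, LinearMap.range (1 - ρ g)) := by
    refine LinearMap.finrank_le_finrank_of_injective
      (f := (⨆ g, LinearMap.range (1 - ρ g)).mkQ.comp Inv.subtype) ?_
    rw [← LinearMap.ker_eq_bot, LinearMap.ker_eq_bot']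
    rintro ⟨w, hw⟩ h0
    have h1 : w ∈ ⨆ g, LinearMap.range (1 - ρ g) := by
      simpa using h0
    have h2 := he' w h1
    have h3 : e w = (Fintype.card G : ℂ) • w := by
      simp only [e, LinearMap.sum_apply]
      rw [Finset.sum_congr rfl (fun g _ => (hInv w).1 hw g), Finset.sum_const, Finset.card_univ,
        ← Nat.cast_smul_eq_nsmul ℂ]
    rw [h3] at h2
    have h4 : (Fintype.card G : ℂ) ≠ 0 := by
      exact_mod_cast Fintype.card_ne_zero
    have h5 := (smul_eq_zero.mp h2).resolve_left h4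
    exact Subtype.ext h5
  -- iterated relation
  have hpow : ∀ (k : ℕ) g, ρ g * φ (u 1) ^ k = φ (u g) ^ k * ρ g := by
    intro k g
    induction k with
    | zero => simp
    | succ k ih =>
      rw [pow_succ, ← mul_assoc, ih, mul_assoc, hu, ← mul_assoc, pow_succ]
  let P : Polynomial A := ∏ g ∈ Finset.univ.erase (1 : G), (Polynomial.X - Polynomial.C (u g))
  have hPdeg : P.natDegree < Fintype.card G := by
    have h1 : P.natDegree ≤ ∑ g ∈ Finset.univ.erase (1 : G),
        (Polynomial.X - Polynomial.C (u g)).natDegree := Polynomial.natDegree_prod_le _ _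
    have h2 : ∑ g ∈ Finset.univ.erase (1 : G),
        (Polynomial.X - Polynomial.C (u g)).natDegree ≤ ∑ g ∈ Finset.univ.erase (1 : G), 1 :=
      Finset.sum_le_sum fun g _ => Polynomial.natDegree_X_sub_C_le _
    rw [Finset.sum_const, smul_eq_mul, mul_one, Finset.card_erase_of_mem (Finset.mem_univ _),
      Finset.card_univ] at h2
    have h3 : 0 < Fintype.card G := Fintype.card_pos
    omega
  have hPeval : ∀ g, P.eval (u g) = ∏ h ∈ Finset.univ.erase (1 : G), (u g - u h) := by
    intro g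
    simp [P, Polynomial.eval_prod]
  have hkey : ∀ v, φ (∏ g ∈ Finset.univ.erase 1, (u 1 - u g)) v =
      ∑ k ∈ Finset.range (Fintype.card G), φ (P.coeff k) (∑ g, ρ g ((φ (u 1) ^ k) v)) := by
    intro v
    have h1 : ∀ g, ∑ k ∈ Finset.range (Fintype.card G),
        φ (P.coeff k) (ρ g ((φ (u 1) ^ k) v)) = φ (P.eval (u g)) (ρ g v) := by
      intro g
      rw [Polynomial.eval_eq_sum_range' hPdeg, map_sum, LinearMap.sum_apply]
      refine Finset.sum_congr rfl fun k _ => ?_
      rw [← Module.End.mul_apply (ρ g), hpow, map_mul, map_pow]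
      rfl
    have h2 : ∀ k ∈ Finset.range (Fintype.card G),
        φ (P.coeff k) (∑ g, ρ g ((φ (u 1) ^ k) v)) =
        ∑ g, φ (P.coeff k) (ρ g ((φ (u 1) ^ k) v)) := fun k _ => map_sum _ _ _
    rw [Finset.sum_congr rfl h2, Finset.sum_comm, Finset.sum_congr rfl (fun g _ => h1 g),
      Finset.sum_eq_single (1 : G)]
    · rw [hPeval, map_one, Module.End.one_apply]
    · intro g _ hg
      rw [hPeval, Finset.prod_eq_zero (Finset.mem_erase.mpr ⟨hg, Finset.mem_univ g⟩) (sub_self _),
        map_zero, LinearMap.zero_apply]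
    · intro h
      exact absurd (Finset.mem_univ _) h
  have hle : LinearMap.range (φ (∏ g ∈ Finset.univ.erase 1, (u 1 - u g))) ≤
      ⨆ k ∈ Finset.range (Fintype.card G), Inv.map (φ (P.coeff k)) := by
    rintro _ ⟨v, rfl⟩
    rw [hkey]
    refine Submodule.sum_mem _ fun k hk => ?_
    refine Submodule.mem_iSup_of_mem k (Submodule.mem_iSup_of_mem hk ?_)
    refine Submodule.mem_map_of_mem ?_
    rw [hInv]
    intro h
    rw [map_sum]
    refine Fintype.sum_equiv (Equiv.mulLeft h) _ _ fun g => ?_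
    rw [← Module.End.mul_apply, ← map_mul]
    rfl
  refine (Submodule.finrank_mono hle).trans ?_
  refine finrank_iSup_fin_le _ (fun k => Inv.map (φ (P.coeff k))) _ fun k => ?_
  exact (Submodule.finrank_map_le _ _).trans hdim

end Pool.Agent.INV5
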