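import Pool.Agent.INV5.LG
import Pool.Agent.INV5.WO3

/-!
# INV5, module LH: many independent classes give many coinvariants of the full group in degree six

Let `W = (J 6 → ℂ) / img ![LL 6, YY 6]`. The algebra map `φ` (values commute with `LL` and `YY`: the
`AA1 6 m 1` do) and the operators `TT`, `PP σ` act on `W` (`TT` anticommutes with `LL`, `YY`). Let
`G = Perm (Fin 6) × ℤˣ` (`card G = 1440`), `ρ (σ, ε) = PP σ⁻¹ * (if ε = 1 then 1 else TT)`, a homomorphism
by `PP_mul`, `PP_TT`, `TT_TT`. `cpl 6 = ck (ZG 6) = dim W / ∑_g (1 - ρ g) W` (the ranges of the `1 - ρ g` lie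
in the sum of the ranges of `1 - TT` and the `1 - PP σ`, and conversely; only `≥` is needed).
`u (σ, ε) = ε ∑_i (i + 1) X_(s i)` with `s = σ` or `σ⁻¹`, according to `PP_AA1`; `u 1 = ∑ (i + 1) X_i`.
`hu` follows from `PP_AA1` (with `ext σ i.castSucc = (σ i).castSucc`) and `TT_AA1`. For `g ≠ 1` the linear form
`u 1 - u g` is not zero: for `ε = 1` some coefficient `(i + 1) - (j + 1) ≠ 0`, for `ε = -1` all coefficients
are positive. So `Δ = ∏_{g ≠ 1} (u 1 - u g)` is a nonzero polynomial of total degree `≤ 1439`.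
Let `k = (L - 1439) / 6`. The `k ^ 6` monomials `M` with exponents `< k` have total degree
`≤ 6 (k - 1)`, so every nonzero combination `P` of them satisfies `Δ P ≠ 0`, `totalDegree (Δ P) < L`, and by
`hw` the classes of the `φ (Δ M) w0 = φ Δ (φ M w0)` in `W` are linearly independent. So the range of
`φ Δ` on `W` has dimension `≥ k ^ 6`, and `elim` gives the claim. (If `k = 0` there is nothing to prove.)
-/

namespace Pool.Agent.INV5.JD

open MvPolynomial

private theorem ext_castSucc (σ : Equiv.Perm (Fin 6)) (i : Fin 6) :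
    ext σ i.castSucc = (σ i).castSucc := by
  simp [ext]

/-- the matrix of a group element -/
private noncomputable def mg (D : JD) (g : Equiv.Perm (Fin 6) × ℤˣ) : Matrix (D.J 6) (D.J 6) ℂ :=
  D.PP 6 g.1⁻¹ * if g.2 = 1 then 1 else D.TT 6

private theorem mg_one (D : JD) : mg D 1 = 1 := by
  simp [mg, D.PP_one 6]

private theorem mg_mul (D : JD) (g h : Equiv.Perm (Fin 6) × ℤˣ) : mg D (g * h) = mg D g * mg D h := by
  have hc := D.PP_TT 6 h.1⁻¹
  have hm := D.PP_mul 6 g.1⁻¹ h.1⁻¹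
  have ht := D.TT_TT 6
  have hinv : (g * h).1⁻¹ = h.1⁻¹ * g.1⁻¹ := by simp
  unfold mg
  rw [hinv, ← hm]
  rcases Int.units_eq_one_or g.2 with hg | hg <;> rcases Int.units_eq_one_or h.2 with hh | hh
  · simp [hg, hh]
  · have : (-1 : ℤˣ) ≠ 1 := by decide
    simp [hg, hh, this, mul_assoc]
  · have : (-1 : ℤˣ) ≠ 1 := by decide
    simp only [Prod.snd_mul, hg, hh, mul_one, this, if_false, if_true, mul_assoc]
    rw [hc.eq]
  · have : (-1 : ℤˣ) ≠ 1 := by decide
    simp only [Prod.snd_mul, hg, hh, this, if_false]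
    have e1 : ((-1 : ℤˣ) * -1) = 1 := by decide
    rw [e1, if_pos rfl, mul_one]
    calc D.PP 6 g.1⁻¹ * D.PP 6 h.1⁻¹ = D.PP 6 g.1⁻¹ * D.PP 6 h.1⁻¹ * (D.TT 6 * D.TT 6) := by
          rw [ht, mul_one]
      _ = D.PP 6 g.1⁻¹ * (D.PP 6 h.1⁻¹ * D.TT 6) * D.TT 6 := by simp only [mul_assoc]
      _ = D.PP 6 g.1⁻¹ * (D.TT 6 * D.PP 6 h.1⁻¹) * D.TT 6 := by rw [hc.eq]
      _ = _ := by simp only [mul_assoc]

private theorem stab_of {D : JD} (M : Matrix (D.J 6) (D.J 6) ℂ)
    (hL : ∃ s : ℂ, M * D.LL 6 = s • (D.LL 6 * M)) (hY : ∃ s : ℂ, M * D.YY 6 = s • (D.YY 6 * M)) :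
    img ![D.LL 6, D.YY 6] ≤ (img ![D.LL 6, D.YY 6]).comap M.mulVecLin := by
  obtain ⟨s, hs⟩ := hL
  obtain ⟨r, hr⟩ := hY
  apply img_le
  intro i v
  rw [Submodule.mem_comap]
  fin_cases i
  · change M.mulVec ((D.LL 6).mulVec v) ∈ _
    rw [Matrix.mulVec_mulVec, hs, Matrix.smul_mulVec, ← Matrix.mulVec_mulVec]
    exact Submodule.smul_mem _ _ (mem_img ![D.LL 6, D.YY 6] 0 _)
  · change M.mulVec ((D.YY 6).mulVec v) ∈ _
    rw [Matrix.mulVec_mulVec, hr, Matrix.smul_mulVec, ← Matrix.mulVec_mulVec]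
    exact Submodule.smul_mem _ _ (mem_img ![D.LL 6, D.YY 6] 1 _)

private theorem mg_stab (D : JD) (g : Equiv.Perm (Fin 6) × ℤˣ) :
    img ![D.LL 6, D.YY 6] ≤ (img ![D.LL 6, D.YY 6]).comap (mg D g).mulVecLin := by
  have hpl := (D.PP_LL 6 g.1⁻¹).eq
  have hpy := (D.PP_YY 6 g.1⁻¹).eq
  by_cases h : g.2 = 1
  · apply stab_of
    · exact ⟨1, by simp only [mg, h, if_true, mul_one, one_smul]; exact hpl⟩
    · exact ⟨1, by simp only [mg, h, if_true, mul_one, one_smul]; exact hpy⟩
  · apply stab_of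
    · refine ⟨-1, ?_⟩
      simp only [mg, h, if_false]
      rw [mul_assoc, D.TT_LL 6, mul_neg, ← mul_assoc, hpl, neg_smul, one_smul, mul_assoc]
    · refine ⟨-1, ?_⟩
      simp only [mg, h, if_false]
      rw [mul_assoc, D.TT_YY 6, mul_neg, ← mul_assoc, hpy, neg_smul, one_smul, mul_assoc]

/-- the quotient -/
private abbrev Wq (D : JD) : Type := (D.J 6 → ℂ) ⧸ img ![D.LL 6, D.YY 6]

private noncomputable def rho (D : JD) : Equiv.Perm (Fin 6) × ℤˣ →* Module.End ℂ (Wq D) where
  toFun g := (img ![D.LL 6, D.YY 6]).mapQ _ (mg D g).mulVecLin (mg_stab D g)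
  map_one' := by
    ext v
    simp [mg_one]
  map_mul' g h := by
    ext v
    simp [mg_mul]

private theorem rho_mk (D : JD) (g : Equiv.Perm (Fin 6) × ℤˣ) (v : D.J 6 → ℂ) :
    rho D g (Submodule.Quotient.mk v) = Submodule.Quotient.mk ((mg D g).mulVec v) := rfl

private theorem aa_stab (D : JD) (i : Fin 6) :
    img ![D.LL 6, D.YY 6] ≤ (img ![D.LL 6, D.YY 6]).comap (D.AA1 6 i.castSucc 1).mulVecLin := by
  apply stab_of
  · exact ⟨1, by rw [one_smul]; exact (D.AA1_LL 6 i.castSucc 1).eq⟩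
  · exact ⟨1, by rw [one_smul]; exact (D.AA1_YY 6 i.castSucc 1).eq⟩

private noncomputable def aq (D : JD) (i : Fin 6) : Module.End ℂ (Wq D) :=
  (img ![D.LL 6, D.YY 6]).mapQ _ (D.AA1 6 i.castSucc 1).mulVecLin (aa_stab D i)

private theorem aq_mk (D : JD) (i : Fin 6) (v : D.J 6 → ℂ) :
    aq D i (Submodule.Quotient.mk v) =
      Submodule.Quotient.mk ((D.AA1 6 i.castSucc 1).mulVec v) := rfl

private theorem aq_comm (D : JD) (i j : Fin 6) : Commute (aq D i) (aq D j) := by
  have h := (D.AA1_comm 6 i.castSucc j.castSucc 1 1).eq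
  apply LinearMap.ext
  intro w
  obtain ⟨v, rfl⟩ := Submodule.Quotient.mk_surjective _ w
  simp only [Module.End.mul_apply, aq_mk, Matrix.mulVec_mulVec, h]

/-- the linear forms -/
private noncomputable def uu (g : Equiv.Perm (Fin 6) × ℤˣ) : MvPolynomial (Fin 6) ℂ :=
  C (((g.2 : ℤ) : ℂ)) * ∑ j : Fin 6, C (((j : ℕ) : ℂ) + 1) * X (g.1 j)

private theorem aq_rho (D : JD) (g : Equiv.Perm (Fin 6) × ℤˣ) (j : Fin 6) :
    rho D g * aq D j = ((g.2 : ℤ) : ℂ) • (aq D (g.1 j) * rho D g) := by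
  have h1 := D.PP_AA1 6 g.1⁻¹ (g.1 j).castSucc 1
  rw [ext_castSucc] at h1
  have e0 : g.1⁻¹ (g.1 j) = j := by simp
  rw [e0] at h1
  have h2 := D.TT_AA1 6 j.castSucc 1
  rw [pow_one] at h2
  have key : mg D g * D.AA1 6 j.castSucc 1 =
      ((g.2 : ℤ) : ℂ) • (D.AA1 6 (g.1 j).castSucc 1 * mg D g) := by
    rcases Int.units_eq_one_or g.2 with hg | hg
    · simp only [mg, hg, if_true, mul_one, Units.val_one, Int.cast_one, one_smul]
      exact h1
    · have : (-1 : ℤˣ) ≠ 1 := by decide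
      simp only [mg, hg, this, if_false, Units.val_neg, Units.val_one, Int.cast_neg, Int.cast_one]
      rw [mul_assoc, h2, mul_smul_comm, ← mul_assoc, h1, mul_assoc]
  apply LinearMap.ext
  intro w
  obtain ⟨v, rfl⟩ := Submodule.Quotient.mk_surjective _ w
  rw [LinearMap.smul_apply]
  simp only [Module.End.mul_apply, aq_mk, rho_mk, Matrix.mulVec_mulVec, key]
  rw [← Submodule.Quotient.mk_smul, Matrix.smul_mulVec]

private theorem hu_aux (D : JD) (φ : MvPolynomial (Fin 6) ℂ →ₐ[ℂ] Module.End ℂ (Wq D))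
    (hφ : ∀ i, φ (X i) = aq D i) (g : Equiv.Perm (Fin 6) × ℤˣ) :
    rho D g * φ (uu 1) = φ (uu g) * rho D g := by
  have hC : ∀ c : ℂ, φ (C c) = c • (1 : Module.End ℂ (Wq D)) := by
    intro c
    have := φ.commutes c
    rw [MvPolynomial.algebraMap_eq] at this
    rw [this, Algebra.algebraMap_eq_smul_one]
  simp only [uu, map_mul, map_sum, hC, hφ, Prod.snd_one, Units.val_one, Int.cast_one, one_smul,
    one_mul, Prod.fst_one, Equiv.Perm.coe_one, id_eq, Finset.mul_sum, Finset.sum_mul]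
  apply Finset.sum_congr rfl
  intro j _
  rw [smul_one_mul, smul_one_mul, smul_one_mul, mul_smul_comm, aq_rho D g j, smul_mul_assoc,
    smul_mul_assoc, smul_comm]

private theorem eval_uu (g : Equiv.Perm (Fin 6) × ℤˣ) (i : Fin 6) :
    eval (Pi.single i (1 : ℂ)) (uu g) = ((g.2 : ℤ) : ℂ) * ((((g.1⁻¹ i : Fin 6) : ℕ) : ℂ) + 1) := by
  simp only [uu, map_mul, map_sum, eval_C, eval_X, map_add, map_one]
  congr 1
  rw [Finset.sum_eq_single (g.1⁻¹ i)]
  · simp
  · intro j _ hj
    have : g.1 j ≠ i := fun h => hj (by rw [← h]; simp)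
    simp [this]
  · simp

private theorem uu_ne (g : Equiv.Perm (Fin 6) × ℤˣ) (hg : g ≠ 1) : uu 1 - uu g ≠ 0 := by
  intro h
  have hev : ∀ i : Fin 6, ((i : ℕ) : ℂ) + 1 =
      ((g.2 : ℤ) : ℂ) * ((((g.1⁻¹ i : Fin 6) : ℕ) : ℂ) + 1) := by
    intro i
    have := congrArg (eval (Pi.single i (1 : ℂ))) h
    rw [map_sub, eval_uu, eval_uu, map_zero, sub_eq_zero] at this
    simpa using this
  rcases Int.units_eq_one_or g.2 with h2 | h2
  · apply hg
    apply Prod.ext _ h2
    have : g.1⁻¹ = 1 := by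
      ext i
      have := hev i
      rw [h2] at this
      simp only [Units.val_one, Int.cast_one, one_mul, add_left_inj, Nat.cast_inj] at this
      rw [← this]; rfl
    rw [Prod.fst_one]
    exact inv_eq_one.1 this
  · have := hev 0
    rw [h2] at this
    simp only [Fin.val_zero, Nat.cast_zero, zero_add, Units.val_neg, Units.val_one, Int.cast_neg,
      Int.cast_one] at this
    have h3 : (((((g.1⁻¹ 0 : Fin 6) : ℕ) + 2 : ℕ) : ℂ)) = 0 := by
      push_cast
      linear_combination this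
    exact absurd (Nat.cast_eq_zero.1 h3) (by omega)

private theorem deg_uu (g : Equiv.Perm (Fin 6) × ℤˣ) : (uu g).totalDegree ≤ 1 := by
  unfold uu
  refine (totalDegree_mul _ _).trans ?_
  rw [totalDegree_C, zero_add]
  refine totalDegree_finsetSum_le fun j _ => ?_
  refine (totalDegree_mul _ _).trans ?_
  rw [totalDegree_C, zero_add, totalDegree_X]

private theorem card_G : Fintype.card (Equiv.Perm (Fin 6) × ℤˣ) = 1440 := by
  rw [Fintype.card_prod, Fintype.card_perm, Fintype.card_fin, Fintype.card_units_int]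
  rfl

private theorem prod_erase_ne {G A : Type*} [Fintype G] [DecidableEq G] [_root_.One G] [CommRing A]
    [IsDomain A] (f : G → A) (h : ∀ g, g ≠ 1 → f g ≠ 0) :
    ∏ g ∈ Finset.univ.erase (1 : G), f g ≠ 0 := by
  rw [Finset.prod_ne_zero_iff]
  intro g hg
  exact h g (Finset.mem_erase.1 hg).1

private theorem delta_ne :
    (∏ g ∈ Finset.univ.erase (1 : Equiv.Perm (Fin 6) × ℤˣ), (uu 1 - uu g)) ≠ 0 :=
  prod_erase_ne _ uu_ne

private theorem deg_delta :
    (∏ g ∈ Finset.univ.erase (1 : Equiv.Perm (Fin 6) × ℤˣ), (uu 1 - uu g)).totalDegree ≤ 1439 := by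
  have h1 : ∀ g : Equiv.Perm (Fin 6) × ℤˣ, (uu 1 - uu g).totalDegree ≤ 1 := fun g =>
    (totalDegree_sub _ _).trans (max_le (deg_uu 1) (deg_uu g))
  have h2 : (Finset.univ.erase (1 : Equiv.Perm (Fin 6) × ℤˣ)).card = 1439 := by
    rw [Finset.card_erase_of_mem (Finset.mem_univ _), Finset.card_univ, card_G]
  have h3 := Finset.sum_le_card_nsmul (Finset.univ.erase (1 : Equiv.Perm (Fin 6) × ℤˣ))
    (fun g => (uu 1 - uu g).totalDegree) 1 fun g _ => h1 g
  rw [h2, smul_eq_mul, mul_one] at h3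
  exact (totalDegree_finsetProd _ _).trans h3

private theorem phi_mk (D : JD) (φ : MvPolynomial (Fin 6) ℂ →ₐ[ℂ] Matrix (D.J 6) (D.J 6) ℂ)
    (hφ : ∀ i, φ (X i) = D.AA1 6 i.castSucc 1)
    (ψ : MvPolynomial (Fin 6) ℂ →ₐ[ℂ] Module.End ℂ (Wq D)) (hψ : ∀ i, ψ (X i) = aq D i)
    (P : MvPolynomial (Fin 6) ℂ) (v : D.J 6 → ℂ) :
    ψ P (Submodule.Quotient.mk v) = Submodule.Quotient.mk ((φ P).mulVec v) := by
  induction P using MvPolynomial.induction_on generalizing v with
  | C c =>
    have h1 := ψ.commutes c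
    have h2 := φ.commutes c
    rw [MvPolynomial.algebraMap_eq] at h1 h2
    rw [h1, h2, Algebra.algebraMap_eq_smul_one, Algebra.algebraMap_eq_smul_one,
      LinearMap.smul_apply, Module.End.one_apply, Matrix.smul_mulVec, Matrix.one_mulVec,
      Submodule.Quotient.mk_smul]
  | add P Q hP hQ =>
    rw [map_add, map_add, LinearMap.add_apply, hP, hQ, Matrix.add_mulVec, Submodule.Quotient.mk_add]
  | mul_X P i hP =>
    rw [map_mul, map_mul, Module.End.mul_apply, hψ, aq_mk, hP, hφ, Matrix.mulVec_mulVec]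

theorem lh (D : JD) (L : ℕ) (φ : MvPolynomial (Fin 6) ℂ →ₐ[ℂ] Matrix (D.J 6) (D.J 6) ℂ)
    (hφ : ∀ i, φ (MvPolynomial.X i) = D.AA1 6 i.castSucc 1) (w0 : D.J 6 → ℂ)
    (hw : ∀ Pl : MvPolynomial (Fin 6) ℂ, Pl ≠ 0 → Pl.totalDegree < L →
      (φ Pl).mulVec w0 ∉ img ![D.LL 6, D.YY 6]) :
    ((L - 1439) / 6) ^ 6 ≤ 1440 * D.cpl 6 := by
  classical
  obtain ⟨ψ, hψ⟩ := exists_phi (aq D) (aq_comm D)
  set k := (L - 1439) / 6 with hk
  rcases Nat.eq_zero_or_pos k with h0 | hkpos
  · rw [h0]; simp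
  have hkL : 1439 + 6 * k ≤ L := by
    have : 6 * k ≤ L - 1439 := by rw [hk]; exact Nat.mul_div_le _ _
    omega
  have he := elim (rho D) ψ uu (hu_aux D ψ hψ)
  rw [card_G] at he
  have hΔ0 := delta_ne
  have hΔd := deg_delta
  generalize (∏ g ∈ Finset.univ.erase (1 : Equiv.Perm (Fin 6) × ℤˣ), (uu 1 - uu g)) = Δ
    at he hΔ0 hΔd
  refine le_trans ?_ (he.trans (Nat.mul_le_mul_left _ ?_))
  · -- lower bound of the rank
    let mon : (Fin 6 → Fin k) → (Fin 6 →₀ ℕ) := fun e => Finsupp.equivFunOnFinite.symm fun i => (e i : ℕ)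
    have hmon : Function.Injective mon := by
      intro e e' h
      funext i
      have := DFunLike.congr_fun h i
      simpa [mon, Fin.ext_iff] using this
    have hdeg : ∀ e, (monomial (mon e) (1 : ℂ)).totalDegree ≤ 6 * (k - 1) := by
      intro e
      rw [totalDegree_monomial _ one_ne_zero, Finsupp.sum_fintype _ _ (fun _ => rfl)]
      refine (Finset.sum_le_card_nsmul _ _ (k - 1) fun i _ => ?_).trans ?_
      · have := (e i).2
        simp only [mon, Finsupp.equivFunOnFinite_symm_apply_apply]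
        omega
      · simp
    let vec : (Fin 6 → Fin k) → LinearMap.range (ψ Δ) := fun e =>
      ⟨ψ Δ (ψ (monomial (mon e) 1) (Submodule.Quotient.mk w0)), LinearMap.mem_range_self _ _⟩
    have hli : LinearIndependent ℂ vec := by
      rw [Fintype.linearIndependent_iff]
      intro c hc
      by_contra hne
      push Not at hne
      obtain ⟨e0, he0⟩ := hne
      set P : MvPolynomial (Fin 6) ℂ := ∑ e, c e • monomial (mon e) (1 : ℂ) with hP
      have hPc : coeff (mon e0) P = c e0 := by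
        rw [hP, coeff_sum, Finset.sum_eq_single e0]
        · rw [coeff_smul, coeff_monomial, if_pos rfl]; simp
        · intro e _ hne'
          rw [coeff_smul, coeff_monomial, if_neg fun h => hne' (hmon h)]; simp
        · simp
      have hP0 : P ≠ 0 := by
        intro h
        rw [h, coeff_zero] at hPc
        exact he0 hPc.symm
      have hPd : P.totalDegree ≤ 6 * (k - 1) :=
        totalDegree_finsetSum_le fun e _ => (totalDegree_smul_le _ _).trans (hdeg e)
      apply hw (Δ * P) (mul_ne_zero hΔ0 hP0)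
      · refine lt_of_le_of_lt ((totalDegree_mul _ _).trans (add_le_add hΔd hPd)) ?_
        omega
      · rw [← Submodule.Quotient.mk_eq_zero, ← phi_mk D φ hφ ψ hψ]
        have h1 : ψ (Δ * P) (Submodule.Quotient.mk w0) =
            ((∑ e, c e • vec e : LinearMap.range (ψ Δ)) : Wq D) := by
          rw [Submodule.coe_sum, map_mul, Module.End.mul_apply, hP, map_sum, LinearMap.sum_apply,
            map_sum]
          apply Finset.sum_congr rfl
          intro e _
          rw [map_smul, LinearMap.smul_apply, map_smul]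
          rfl
        rw [h1, hc]; rfl
    have := hli.fintype_card_le_finrank
    rwa [Fintype.card_fun, Fintype.card_fin, Fintype.card_fin] at this
  · -- the coinvariants
    unfold cpl ck
    let F : (D.J 6 → ℂ) →ₗ[ℂ] (Wq D ⧸ ⨆ g, LinearMap.range (1 - rho D g)) :=
      (Submodule.mkQ _) ∘ₗ (Submodule.mkQ _)
    have hF : Function.Surjective F :=
      (Submodule.mkQ_surjective _).comp (Submodule.mkQ_surjective _)
    have hle : img (D.ZG 6) ≤ LinearMap.ker F := by
      apply img_le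
      intro r v
      rw [LinearMap.mem_ker]
      change Submodule.Quotient.mk (Submodule.Quotient.mk ((D.ZG 6 r).mulVec v)) = _
      rcases r with r | σ
      · fin_cases r
        · have : (Submodule.Quotient.mk ((D.LL 6).mulVec v) : Wq D) = 0 :=
            (Submodule.Quotient.mk_eq_zero _).2 (mem_img ![D.LL 6, D.YY 6] 0 v)
          change Submodule.Quotient.mk (Submodule.Quotient.mk ((D.LL 6).mulVec v)) = _
          rw [this]; rfl
        · have : (Submodule.Quotient.mk ((D.YY 6).mulVec v) : Wq D) = 0 :=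
            (Submodule.Quotient.mk_eq_zero _).2 (mem_img ![D.LL 6, D.YY 6] 1 v)
          change Submodule.Quotient.mk (Submodule.Quotient.mk ((D.YY 6).mulVec v)) = _
          rw [this]; rfl
        · rw [Submodule.Quotient.mk_eq_zero]
          refine Submodule.mem_iSup_of_mem (1, -1) ⟨Submodule.Quotient.mk v, ?_⟩
          have h1 : mg D (1, -1) = D.TT 6 := by
            have : (-1 : ℤˣ) ≠ 1 := by decide
            simp [mg, this, D.PP_one 6]
          rw [LinearMap.sub_apply, Module.End.one_apply, rho_mk, h1, ← Submodule.Quotient.mk_sub]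
          congr 1
          change _ = (1 - D.TT 6).mulVec v
          rw [Matrix.sub_mulVec, Matrix.one_mulVec]
      · rw [Submodule.Quotient.mk_eq_zero]
        refine Submodule.mem_iSup_of_mem (σ⁻¹, 1) ⟨Submodule.Quotient.mk v, ?_⟩
        have h1 : mg D (σ⁻¹, 1) = D.PP 6 σ := by simp [mg]
        rw [LinearMap.sub_apply, Module.End.one_apply, rho_mk, h1, ← Submodule.Quotient.mk_sub]
        congr 1
        change _ = (1 - D.PP 6 σ).mulVec v
        rw [Matrix.sub_mulVec, Matrix.one_mulVec]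
    have hsurj : Function.Surjective ((img (D.ZG 6)).liftQ F hle) := by
      intro w
      obtain ⟨v, rfl⟩ := hF w
      exact ⟨Submodule.Quotient.mk v, by simp⟩
    exact LinearMap.finrank_le_finrank_of_surjective hsurj

end Pool.Agent.INV5.JD
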