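import Pool.Agent.INV5.LB
import Pool.Agent.INV5.LC
import Pool.Agent.INV5.LD
import Pool.Agent.INV5.LE
import Pool.Agent.INV5.LF
import Pool.Agent.INV5.LH

/-!
# INV5, module LI: many coinvariants or invariants in degree six give many even ones

`exists_Q`: `P, P'`. Let `Q1 = qw P' P` if `κ A ≤ h0 6` and `Q1 = qw P P'` if `κ A ≤ hi 6` (`A = AA`), so
`κ A ≤ ckw (cb 6) b Q1` (`h0_eq`, `hi_eq`), and `Div` holds (`Div_qw`). Apply `lc` with `κ / 2`: constants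
`θ, M, L1` and numbers `p, q`. By `lb`: `F := ckw (free words of Q1) ≥ (κ / 2) A / L1 ^ 7` (`L1 ≥ 1`; otherwise
`F`'s coefficient is zero and `κ A ≤ (κ/2) A`, impossible for `A ≥ 1`). Let `card = card (JL p) ≤ M ^ 7`,
`card > 0` (by `ld` with e.g. `v = ...`, or directly: no words if `JL` is empty). `q ≤ p + q ≤ b a ≤ 2 A ^ (1/6)`
for some `a` (there is a long block), so `q ^ 6 ≤ 64 A`. Choose `L = ⌊κ3 q⌋` with a constant `κ3 ≤ 1` such that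
`(2 q) ^ 5 card ^ 2 L ≤ 32 M ^ 14 κ3 q ^ 6 ≤ 32 * 64 M ^ 14 κ3 A < (κ / 2) A / L1 ^ 7`. By `ld` (contraposition, with
`v = card * L`): `X ^ (card L)` divides `det Dc p Q1 g` for all `g` with nonzero entries and sum zero, in
particular for `gg k`, `k ∈ {1..L}^6`. By `le_det` the same holds for `qw P' P`. Apply `lf` with
`Q = qw P' P`, `hY = YY_eq`, `φ` from `exists_phi` (`AA1_comm`), then `lh`:
`((L - 1439) / 6) ^ 6 ≤ 1440 cpl 6`, and `L ≥ κ3 θ A ^ (1/6) - 1`, so the left side is `≥ κ' A` for `A ≥ A0`.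
-/

namespace Pool.Agent.INV5.JD

open Matrix Polynomial

private theorem card_JL (D : JD) (p M : ℕ)
    (hM : (Finset.univ.filter fun a => p < D.b a).card ≤ M) : Fintype.card (D.JL p) ≤ M ^ 7 := by
  classical
  have h1 : Fintype.card (D.JL p) ≤ Fintype.card (Fin 7 → {a : D.β // p < D.b a}) :=
    Fintype.card_subtype_le _
  have h2 : Fintype.card {a : D.β // p < D.b a} ≤ M := by
    rw [Fintype.card_subtype]; exact hM
  rw [Fintype.card_fun, Fintype.card_fin] at h1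
  exact h1.trans (Nat.pow_le_pow_left h2 7)

private theorem gg_ne (L : ℕ) (k : Fin 6 → ℕ) (hk : ∀ i, 1 ≤ k i ∧ k i ≤ L) (m : Fin 7) :
    gg k m ≠ 0 := by
  refine Fin.lastCases ?_ (fun i => ?_) m
  · simp only [gg, Fin.snoc_last]
    rw [neg_ne_zero, ← Nat.cast_sum, Nat.cast_ne_zero]
    have : k 0 ≤ ∑ i, k i := Finset.single_le_sum (fun i _ => Nat.zero_le _) (Finset.mem_univ 0)
    have := (hk 0).1
    omega
  · simp only [gg, Fin.snoc_castSucc]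
    rw [Nat.cast_ne_zero]
    have := (hk i).1
    omega

private theorem gg_sum (k : Fin 6 → ℕ) : ∑ m, gg k m = 0 := by
  rw [Fin.sum_univ_castSucc]
  simp only [gg, Fin.snoc_castSucc, Fin.snoc_last]
  exact add_neg_cancel _

/-- the part of the argument with fixed constants -/
private theorem core (D : JD) (A κ : ℝ) (hA : (D.AA : ℝ) = A) (hA0 : 0 < A) (hκ : 0 < κ)
    (M L1 p q L : ℕ) (hq : 0 < q)
    (hgap : ∀ a, p < D.b a → p + q ≤ D.b a) (hL1 : ∀ a, D.b a ≤ p + L1 * q)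
    (hM : (Finset.univ.filter fun a => p < D.b a).card ≤ M)
    (hN : 7 * D.nw (fun b => ((min b p : ℕ) : ℝ) ^ ((6 : ℝ) / 7)) *
        D.nw (fun b => (b : ℝ) ^ ((6 : ℝ) / 7)) ^ 6 ≤ κ / 2 * A)
    (hL : 1 ≤ L) (hLq : L ≤ q)
    (hcon : (L1 : ℝ) ^ 7 * ((2 * q) ^ 5 * (((M : ℝ) ^ 7) * ((M : ℝ) ^ 7 * L))) * 64 <
      κ / 2 * (q : ℝ) ^ 6)
    (h : κ * A ≤ D.h0 6 ∨ κ * A ≤ D.hi 6) :
    ((L - 1439) / 6) ^ 6 ≤ 1440 * D.cpl 6 := by
  classical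
  obtain ⟨P, P', hP, hP', hd, hd', -, -, hdual⟩ := D.exists_Q
  -- the polynomials
  obtain ⟨Q1, hdiv, hckw, htr⟩ : ∃ Q1 : Fin 7 → Matrix D.β D.β ℂ[X],
      Div (fun _ => D.b) Q1 ∧ κ * A ≤ ckw (D.cb 6) (fun _ => D.b) Q1 ∧
      ∀ (g : Fin 7 → ℂ) (v : ℕ), (∀ m, g m ≠ 0) → X ^ v ∣ (D.Dc p Q1 g).det →
        X ^ v ∣ (D.Dc p (qw P' P) g).det := by
    rcases h with h | h
    · refine ⟨qw P' P, Div_qw hd hd', ?_, fun g v _ hv => hv⟩
      rwa [← D.h0_eq hP hP']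
    · refine ⟨qw P P', Div_qw hd' hd, ?_, fun g v hg hv => ?_⟩
      · rwa [← D.hi_eq hP hP']
      · exact (le_det D P P' hdual p g hg v).2 hv
  have hlb := lb D Q1 hdiv p q L1 hq hgap hL1
  set F : ℕ := ckw (D.cb 6) (fun _ a => if p < D.b a then q else 0) Q1 with hF
  have hFl : κ / 2 * A ≤ (L1 : ℝ) ^ 7 * F := by linarith
  have hFpos : 0 < (F : ℝ) := by
    by_contra hn
    have : (L1 : ℝ) ^ 7 * F ≤ 0 := mul_nonpos_of_nonneg_of_nonpos (by positivity) (not_lt.1 hn)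
    have h2 : 0 < κ / 2 * A := by positivity
    linarith
  -- a point for the determinant
  have hcard := card_JL D p M hM
  have hne : Nonempty (D.JL p) := by
    by_contra hn
    rw [not_nonempty_iff] at hn
    have h1 := ld D Q1 p q hq (gg fun _ => 1) (gg_ne 1 _ fun _ => ⟨le_rfl, le_rfl⟩) (gg_sum _) 1 (by
      rw [Matrix.det_isEmpty]
      intro hdv
      have := Polynomial.X_pow_dvd_iff.1 hdv 0 (by norm_num)
      simp at this)
    rw [Fintype.card_eq_zero, zero_mul, mul_zero] at h1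
    have : F = 0 := Nat.le_zero.1 h1
    rw [this] at hFpos
    simp at hFpos
  have hq6 : (q : ℝ) ^ 6 ≤ 64 * A := by
    obtain ⟨α⟩ := hne
    have h1 := hgap (α.1 0).1 (α.1 0).2
    have h2 := D.b_pow_le (α.1 0).1
    have h3 : q ^ 6 ≤ 64 * D.AA := (Nat.pow_le_pow_left (by omega) 6).trans h2
    have h4 : ((q ^ 6 : ℕ) : ℝ) ≤ ((64 * D.AA : ℕ) : ℝ) := Nat.cast_le.2 h3
    push_cast at h4
    rwa [hA] at h4
  have hdet : ∀ k : Fin 6 → ℕ, (∀ i, 1 ≤ k i ∧ k i ≤ L) →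
      X ^ (Fintype.card (D.JL p) * L) ∣ (D.Dc p (qw P' P) (gg k)).det := by
    intro k hk
    apply htr _ _ (gg_ne L k hk)
    by_contra hv
    have h1 := ld D Q1 p q hq (gg k) (gg_ne L k hk) (gg_sum k) _ hv
    rw [← hF] at h1
    have h2 : (F : ℝ) ≤ (2 * q) ^ 5 * (((M : ℝ) ^ 7) * ((M : ℝ) ^ 7 * L)) := by
      have h3 : F ≤ (2 * q) ^ 5 * (M ^ 7 * (M ^ 7 * L)) :=
        h1.trans (Nat.mul_le_mul_left _ (Nat.mul_le_mul hcard (Nat.mul_le_mul_right _ hcard)))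
      have h4 : (F : ℝ) ≤ (((2 * q) ^ 5 * (M ^ 7 * (M ^ 7 * L)) : ℕ) : ℝ) := Nat.cast_le.2 h3
      push_cast at h4
      exact h4
    have h5 : (L1 : ℝ) ^ 7 * F ≤
        (L1 : ℝ) ^ 7 * ((2 * q) ^ 5 * (((M : ℝ) ^ 7) * ((M : ℝ) ^ 7 * L))) :=
      mul_le_mul_of_nonneg_left h2 (by positivity)
    have h6 : κ / 2 * (q : ℝ) ^ 6 ≤ κ / 2 * A * 64 := by nlinarith
    nlinarith
  obtain ⟨φ, hφ⟩ := exists_phi (fun i : Fin 6 => D.AA1 6 i.castSucc 1)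
    fun i j => D.AA1_comm 6 _ _ 1 1
  obtain ⟨w0, hw0⟩ := lf D (qw P' P) (Div_qw hd hd') (D.YY_eq hP hP') p q L hgap hL hLq hne hdet φ hφ
  exact lh D L φ hφ w0 hw0

theorem l7 (κ : ℝ) (hκ : 0 < κ) : ∃ κ' : ℝ, 0 < κ' ∧ ∃ A0 : ℕ, ∀ D : JD, A0 ≤ D.AA →
    (κ * (D.AA : ℝ) ≤ D.h0 6 ∨ κ * (D.AA : ℝ) ≤ D.hi 6) → κ' * (D.AA : ℝ) ≤ D.cpl 6 := by
  obtain ⟨θ, hθ, M, L1, A1, hlc⟩ := lc (κ / 2) (by positivity)
  -- the small constant
  set B : ℝ := (L1 : ℝ) ^ 7 * (32 * (M : ℝ) ^ 14) * 64 + 1 with hB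
  have hBpos : 0 < B := by positivity
  set κ3 : ℝ := min 1 (κ / (4 * B)) with hκ3
  have hκ3pos : 0 < κ3 := lt_min one_pos (by positivity)
  have hκ31 : κ3 ≤ 1 := min_le_left _ _
  have hκ3B : B * κ3 ≤ κ / 4 := by
    have h1 : κ3 ≤ κ / (4 * B) := min_le_right _ _
    calc B * κ3 ≤ B * (κ / (4 * B)) := mul_le_mul_of_nonneg_left h1 hBpos.le
      _ = κ / 4 := by field_simp
  refine ⟨(κ3 * θ / 12) ^ 6 / 1440, by positivity,
    max A1 (⌈(3000 / (κ3 * θ)) ^ 6⌉₊ + 1), fun D hD h => ?_⟩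
  have hA1 : A1 ≤ D.AA := (le_max_left _ _).trans hD
  have hA2 : ⌈(3000 / (κ3 * θ)) ^ 6⌉₊ + 1 ≤ D.AA := (le_max_right _ _).trans hD
  obtain ⟨p, q, hq, hθq, hgap, hL1, hM, hN⟩ := hlc D hA1
  set A : ℝ := (D.AA : ℝ) with hA
  have hApos : 0 < A := by
    have h0 : 0 < D.AA := by omega
    rw [hA]
    exact_mod_cast h0
  have hA3 : (3000 / (κ3 * θ)) ^ 6 ≤ A := by
    have h1 := Nat.le_ceil ((3000 / (κ3 * θ)) ^ 6)
    have h2 : ((⌈(3000 / (κ3 * θ)) ^ 6⌉₊ : ℕ) : ℝ) ≤ A := by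
      rw [hA]; exact_mod_cast (by omega : ⌈(3000 / (κ3 * θ)) ^ 6⌉₊ ≤ D.AA)
    linarith
  set r : ℝ := A ^ ((1 : ℝ) / 6) with hr
  have hr6 : r ^ 6 = A := by
    rw [hr, ← Real.rpow_natCast, ← Real.rpow_mul hApos.le]
    norm_num
  have hrpos : 0 < r := Real.rpow_pos_of_pos hApos _
  have hrbig : 3000 / (κ3 * θ) ≤ r := by
    refine le_of_pow_le_pow_left₀ (by norm_num : (6 : ℕ) ≠ 0) hrpos.le ?_
    rw [hr6]; exact hA3
  have hq0 : (0 : ℝ) < q := by exact_mod_cast hq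
  have hkq : 3000 ≤ κ3 * q := by
    have h1 : 3000 = κ3 * θ * (3000 / (κ3 * θ)) := by field_simp
    calc (3000 : ℝ) = κ3 * θ * (3000 / (κ3 * θ)) := h1
      _ ≤ κ3 * θ * r := mul_le_mul_of_nonneg_left hrbig (by positivity)
      _ = κ3 * (θ * r) := by ring
      _ ≤ κ3 * q := mul_le_mul_of_nonneg_left hθq hκ3pos.le
  set L : ℕ := ⌊κ3 * q⌋₊ with hL
  have hLle : (L : ℝ) ≤ κ3 * q := Nat.floor_le (by positivity)
  have hLgt : κ3 * q < L + 1 := Nat.lt_floor_add_one _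
  have hLq : L ≤ q := by
    have : (L : ℝ) ≤ q := hLle.trans (by nlinarith)
    exact_mod_cast this
  have hL1' : 1 ≤ L := by
    have : (0 : ℝ) < L := by linarith
    have : 0 < L := by exact_mod_cast this
    omega
  have hcon : (L1 : ℝ) ^ 7 * ((2 * q) ^ 5 * (((M : ℝ) ^ 7) * ((M : ℝ) ^ 7 * L))) * 64 <
      κ / 2 * (q : ℝ) ^ 6 := by
    have h1 : (L1 : ℝ) ^ 7 * ((2 * q) ^ 5 * (((M : ℝ) ^ 7) * ((M : ℝ) ^ 7 * L))) * 64 =
        (B - 1) * (q : ℝ) ^ 5 * L := by rw [hB]; ring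
    have h2 : (B - 1) * (q : ℝ) ^ 5 * L ≤ B * (q : ℝ) ^ 5 * (κ3 * q) := by
      have h3 : (0 : ℝ) ≤ B - 1 := by rw [hB]; simp only [add_sub_cancel_right]; positivity
      have h4 : (B - 1) * (q : ℝ) ^ 5 ≤ B * (q : ℝ) ^ 5 :=
        mul_le_mul_of_nonneg_right (by linarith) (by positivity)
      exact mul_le_mul h4 hLle (by positivity) (by positivity)
    have h5 : B * (q : ℝ) ^ 5 * (κ3 * q) = (B * κ3) * (q : ℝ) ^ 6 := by ring
    have h6 : (B * κ3) * (q : ℝ) ^ 6 ≤ κ / 4 * (q : ℝ) ^ 6 :=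
      mul_le_mul_of_nonneg_right hκ3B (by positivity)
    have h7 : 0 < κ * (q : ℝ) ^ 6 := by positivity
    rw [h1]
    nlinarith
  have hmain := core D A κ hA.symm hApos hκ M L1 p q L hq hgap hL1 hM (by
    simpa [hA] using hN) hL1' hLq hcon h
  -- conclusion
  have hx : κ3 * q / 12 ≤ (((L - 1439) / 6 : ℕ) : ℝ) := by
    have h1 : L - 1439 < 6 * ((L - 1439) / 6) + 6 := by
      have := Nat.lt_mul_div_succ (L - 1439) (by norm_num : 0 < 6)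
      omega
    have h2 : L < 6 * ((L - 1439) / 6) + 6 + 1439 := by omega
    have h3 : (L : ℝ) < 6 * (((L - 1439) / 6 : ℕ) : ℝ) + 6 + 1439 := by exact_mod_cast h2
    linarith
  have hm : (((L - 1439) / 6 : ℕ) : ℝ) ^ 6 ≤ 1440 * (D.cpl 6 : ℝ) := by exact_mod_cast hmain
  have hpow : (κ3 * q / 12) ^ 6 ≤ (((L - 1439) / 6 : ℕ) : ℝ) ^ 6 :=
    pow_le_pow_left₀ (by positivity) hx 6
  have hqr : κ3 * θ / 12 * r ≤ κ3 * q / 12 := by
    have := mul_le_mul_of_nonneg_left hθq hκ3pos.le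
    linarith
  have hpow2 : (κ3 * θ / 12 * r) ^ 6 ≤ (κ3 * q / 12) ^ 6 := pow_le_pow_left₀ (by positivity) hqr 6
  rw [mul_pow, hr6] at hpow2
  rw [div_mul_eq_mul_div, div_le_iff₀ (by norm_num : (0 : ℝ) < 1440)]
  linarith

end Pool.Agent.INV5.JD
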