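import Pool.Agent.RevMaps.Bracket
import Pool.Agent.INV5.Defs

/-!
# INV5, definitions for the nonlinear part

`PS n`: power series in `n` variables over `ℂ`, `V n` tuples, `O k p`: order at least `k`, `OV k a` for tuples,
`FMap n` formal maps, `f * g` composition, `sb g a` = `a ∘ g`, `Dd a p = ∑ j, ∂_j p * a j`, `lin f` the linear
part, `act M M' a` = `M (a ∘ M')` (all in `Pool/Agent/RevMaps`).
-/

namespace Pool.Agent.INV5

open Pool.Agent.RevMaps MvPowerSeries

variable {n : ℕ}

/-- a derivation of `ℂ` applied to the coefficients -/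
noncomputable def dc (D : Derivation ℚ ℂ ℂ) (p : PS n) : PS n := fun m => D (coeff m p)

/-- the same for tuples -/
noncomputable def dv (D : Derivation ℚ ℂ ℂ) (a : V n) : V n := fun i => dc D (a i)

/-- the cocycle `(D f) ∘ f⁻¹` (`g` is the inverse of `f`) -/
noncomputable def xi (D : Derivation ℚ ℂ ℂ) (f g : FMap n) : V n := sb g (dv D f.toFun)

/-- the adjoint action `(Jac f · a) ∘ f⁻¹` (`g` is the inverse of `f`) -/
noncomputable def Ad (f g : FMap n) : V n →ₗ[ℂ] V n where
  toFun a := sb g fun i => Dd a (f.toFun i)
  map_add' a b := by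
    rw [← sb_add]
    congr 1
    funext i
    exact Dd_add_left a b _
  map_smul' c a := by
    rw [RingHom.id_apply, ← sb_smul]
    congr 1
    funext i
    exact Dd_smul_left c a _

/-- tuples of order at least `d` -/
def OVs (n d : ℕ) : Submodule ℂ (V n) where
  carrier := {a | OV d a}
  add_mem' h h' := h.add h'
  zero_mem' := fun _ => O_of_zero d
  smul_mem' c _ h := h.smul c

/-- the polynomial tuple of a combination of words with `e` covector letters and one vector letter -/
noncomputable def pw (n e : ℕ) : ((Fin (e + 1) → Fin n) → ℂ) →ₗ[ℂ] V n where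
  toFun w := fun i => ∑ q : Fin e → Fin n, w (Fin.snoc (α := fun _ => Fin n) q i) •
    ∏ m, (X (q m) : PS n)
  map_add' w w' := by
    funext i
    simp [add_smul, Finset.sum_add_distrib]
  map_smul' c w := by
    funext i
    simp [mul_smul, Finset.smul_sum]

end Pool.Agent.INV5
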