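import Mathlib
import Pool.Agent.Helper11.DerExt

/-!
# INV5, module N1: algebraically independent numbers and derivations

`ℂ` has infinite transcendence degree over `ℚ` (cardinality: `Algebra.IsAlgebraic.cardinalMk_le_max` and
`exists_isTranscendenceBasis'`; if a transcendence basis were finite, or countable, `ℂ` would be countable),
so there is an injection `ι → basis` and `c : ι → ℂ` algebraically independent. For given `i` the
derivation `∂_i` of `MvPolynomial ι ℚ` into `ℂ` (`MvPolynomial.mkDerivation`, with `ℂ` an algebra over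
`MvPolynomial ι ℚ` by evaluation at `c`, injective by algebraic independence) extends to `ℂ` by
`Pool.Agent.Helper11.exists_derivation_extend`. (See also `Pool/Agent/VG/Der.lean`.)
-/

namespace Pool.Agent.INV5

open MvPolynomial Pool.Agent.Helper11

/-- derivations dual to algebraically independent elements -/
private theorem der_dual {k₀ k ι : Type*} [Field k₀] [Field k] [CharZero k] [Algebra k₀ k] {x : ι → k}
    (hx : AlgebraicIndependent k₀ x) (p : ι) :
    ∃ D : Derivation k₀ k k, D (x p) = 1 ∧ ∀ q, q ≠ p → D (x q) = 0 := by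
  have hk₀ : CharZero k₀ := (algebraMap k₀ k).charZero
  let _ : Algebra (MvPolynomial ι k₀) k := (MvPolynomial.aeval (R := k₀) x).toRingHom.toAlgebra
  have halg : ∀ P : MvPolynomial ι k₀, algebraMap (MvPolynomial ι k₀) k P = aeval x P :=
    fun P => rfl
  have hst : IsScalarTower k₀ (MvPolynomial ι k₀) k := by
    refine IsScalarTower.of_algebraMap_eq fun c => ?_
    rw [halg]
    have : algebraMap k₀ (MvPolynomial ι k₀) c = MvPolynomial.C c := rfl
    rw [this, MvPolynomial.aeval_C]
  have hf : FaithfulSMul (MvPolynomial ι k₀) k := by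
    rw [faithfulSMul_iff_algebraMap_injective]
    exact hx
  obtain ⟨D, hD⟩ := exists_derivation_extend
    ((Algebra.linearMap (MvPolynomial ι k₀) k).compDer (MvPolynomial.pderiv (R := k₀) p))
  have h1 : ∀ q, D (x q) = algebraMap (MvPolynomial ι k₀) k (MvPolynomial.pderiv p (X q)) := by
    intro q
    have h2 := hD (X q)
    rw [halg, MvPolynomial.aeval_X] at h2
    rw [h2]
    rfl
  refine ⟨D, ?_, fun q hq => ?_⟩
  · rw [h1, MvPolynomial.pderiv_X_self, map_one]
  · rw [h1, MvPolynomial.pderiv_X_of_ne hq, map_zero]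

private theorem exists_indep (ι : Type) [Finite ι] : ∃ c : ι → ℂ, AlgebraicIndependent ℚ c := by
  obtain ⟨κ, v, hv⟩ := exists_isTranscendenceBasis' ℚ ℂ
  have hinf : Infinite κ := by
    by_contra hfin
    rw [not_infinite_iff_finite] at hfin
    have halg : Algebra.IsAlgebraic (Algebra.adjoin ℚ (Set.range v)) ℂ := hv.isAlgebraic
    have h1 : Countable (Algebra.adjoin ℚ (Set.range v)) := by
      have : Countable (MvPolynomial κ ℚ) := by
        have := MvPolynomial.cardinalMk_le_max (σ := κ) (R := ℚ)
        rw [← Cardinal.mk_le_aleph0_iff]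
        refine this.trans ?_
        simp [Cardinal.mk_le_aleph0]
      have h2 : Algebra.adjoin ℚ (Set.range v) = (MvPolynomial.aeval (R := ℚ) v).range :=
        Algebra.adjoin_range_eq_range_aeval ℚ v
      rw [h2]
      exact (AlgHom.rangeRestrict_surjective (MvPolynomial.aeval (R := ℚ) v)).countable
    have h3 := Algebra.IsAlgebraic.cardinalMk_le_max (Algebra.adjoin ℚ (Set.range v)) ℂ
    rw [max_eq_right (Cardinal.mk_le_aleph0_iff.mpr h1), Cardinal.mk_complex] at h3
    exact absurd h3 (not_le.mpr Cardinal.aleph0_lt_continuum)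
  have := Fintype.ofFinite ι
  obtain ⟨e⟩ : Nonempty (ι ↪ κ) := by
    have e1 : Fin (Fintype.card ι) ↪ κ := (Fin.valEmbedding).trans (Infinite.natEmbedding κ)
    exact ⟨(Fintype.equivFin ι).toEmbedding.trans e1⟩
  exact ⟨fun i => v (e i), hv.1.comp e e.injective⟩

theorem der (ι : Type) [Finite ι] [DecidableEq ι] :
    ∃ (c : ι → ℂ) (D : ι → Derivation ℚ ℂ ℂ), ∀ i j, D i (c j) = if i = j then 1 else 0 := by
  obtain ⟨c, hc⟩ := exists_indep ι
  choose D hD1 hD2 using fun i => der_dual hc i
  refine ⟨c, D, fun i j => ?_⟩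
  split_ifs with h
  · rw [← h, hD1]
  · exact hD2 i j (fun h' => h h'.symm)

end Pool.Agent.INV5
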