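import Pool.Agent.INV5.N0

/-!
# INV5, module N2: derivations applied to the coefficients, chain rules

`dc_mul`: coefficients of a product are finite sums of products. Chain rules: let `δ` be `dc D` or
`Dd a` with `OV 1 a` (for `dc_subst` the coefficients contribute the first term). Both sides are additive in
`p`, and if `O (k+1) p` then both sides have order `≥ k` (`O_subst`, `O_dc`, `O_Dd`, `O_pderiv`). So modulo
order `k` it suffices to treat `p = c • monomial` (`le_of_monomials` in `RevMaps/Hom.lean`, or
`MvPowerSeries` truncation), where it follows from the Leibniz rule by induction (`p = 1`, `p = X i`,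
products; `subst_mulC`, `subst_smulC`). Then let `k` go to infinity (`eq_of_forall_O`). For general `a` (not of
order one) the Leibniz rule argument is the same; `Dd a` lowers the order by at most one.
-/

namespace Pool.Agent.INV5

open Pool.Agent.RevMaps MvPowerSeries

variable {n : ℕ} (D : Derivation ℚ ℂ ℂ)

theorem coeff_dc (p : PS n) (m : Fin n →₀ ℕ) : coeff m (dc D p) = D (coeff m p) := by
  rfl

theorem dc_add (p q : PS n) : dc D (p + q) = dc D p + dc D q := by
  ext m
  rw [coeff_dc, map_add, map_add, map_add, coeff_dc, coeff_dc]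

theorem dc_sub (p q : PS n) : dc D (p - q) = dc D p - dc D q := by
  ext m
  rw [coeff_dc, map_sub, map_sub, map_sub, coeff_dc, coeff_dc]

theorem dc_mul (p q : PS n) : dc D (p * q) = dc D p * q + p * dc D q := by
  classical
  ext m
  rw [coeff_dc, map_add, coeff_mul, coeff_mul, coeff_mul, map_sum, ← Finset.sum_add_distrib]
  refine Finset.sum_congr rfl fun x _ => ?_
  rw [Derivation.leibniz, coeff_dc, coeff_dc, smul_eq_mul, smul_eq_mul]
  ring

theorem dc_X (i : Fin n) : dc D (X i : PS n) = 0 := by
  classical
  ext m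
  rw [coeff_dc, coeff_X]
  split_ifs <;> simp

theorem dc_smul (a : ℂ) (p : PS n) : dc D (a • p) = D a • p + a • dc D p := by
  ext m
  rw [coeff_dc, map_smul, smul_eq_mul, Derivation.leibniz, map_add, map_smul, map_smul, coeff_dc,
    smul_eq_mul, smul_eq_mul, smul_eq_mul]
  rw [mul_comm (coeff m p) (D a)]
  exact add_comm _ _

theorem O_dc {k : ℕ} {p : PS n} (h : O k p) : O k (dc D p) := by
  intro m hm
  rw [coeff_dc, h m hm, map_zero]

theorem dc_add_left (D' : Derivation ℚ ℂ ℂ) (p : PS n) : dc (D + D') p = dc D p + dc D' p := by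
  ext m
  rw [map_add, coeff_dc, coeff_dc, coeff_dc]
  rfl

theorem dc_smul_left (a : ℂ) (p : PS n) : dc (a • D) p = a • dc D p := by
  ext m
  rw [map_smul, coeff_dc, coeff_dc]
  rfl

private theorem ext_add (F G : PS n →+ PS n) (hF : ∀ k p, O (k + 1) p → O k (F p))
    (hG : ∀ k p, O (k + 1) p → O k (G p))
    (h : ∀ (c : ℂ) (m : Fin n →₀ ℕ), F (c • monomial m 1) = G (c • monomial m 1)) (p : PS n) :
    F p = G p := by
  classical
  apply eq_of_forall_O
  intro k
  set S : Finset (Fin n →₀ ℕ) :=
    (Finset.range (k + 1)).biUnion fun j => (Finset.univ : Finset (Fin n)).finsuppAntidiag j with hS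
  have hmem : ∀ m : Fin n →₀ ℕ, m ∈ S ↔ m.degree < k + 1 := by
    intro m
    rw [hS, Finset.mem_biUnion]
    constructor
    · rintro ⟨j, hj, hm⟩
      rw [Finset.mem_finsuppAntidiag] at hm
      rw [Finset.mem_range] at hj
      have h1 : ∑ i, m i = j := hm.1
      rw [Finsupp.degree_eq_sum, h1]
      exact hj
    · intro hm
      refine ⟨m.degree, Finset.mem_range.mpr hm, ?_⟩
      rw [Finset.mem_finsuppAntidiag, Finsupp.degree_eq_sum]
      simp
  set q : PS n := ∑ m ∈ S, coeff m p • monomial m (1 : ℂ) with hq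
  have h3 : O (k + 1) (p - q) := by
    intro m hm
    rw [hq, map_sub, map_sum, Finset.sum_eq_single m]
    · rw [map_smul, coeff_monomial_same]; simp
    · intro m' _ hne
      rw [map_smul, coeff_monomial, if_neg hne.symm, smul_zero]
    · intro h5
      exact absurd ((hmem m).mpr hm) h5
  have h4 : F q = G q := by
    rw [hq, map_sum, map_sum]
    exact Finset.sum_congr rfl fun m _ => h _ _
  have h5 : F p - G p = F (p - q) - G (p - q) := by
    rw [map_sub, map_sub, h4]
    abel
  rw [h5]
  exact (hF k _ h3).sub (hG k _ h3)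

private theorem ext_leibniz (f : FMap n) (F G : PS n →+ PS n)
    (hF : ∀ k p, O (k + 1) p → O k (F p)) (hG : ∀ k p, O (k + 1) p → O k (G p))
    (hFm : ∀ p q, F (p * q) = F p * q.subst f.toFun + p.subst f.toFun * F q)
    (hGm : ∀ p q, G (p * q) = G p * q.subst f.toFun + p.subst f.toFun * G q)
    (hX : ∀ i, F (X i) = G (X i)) (h1 : ∀ c : ℂ, F (c • 1) = G (c • 1)) (p : PS n) :
    F p = G p := by
  refine ext_add F G hF hG ?_ p
  intro c m
  have h1' : F 1 = G 1 := by simpa using h1 1
  have hpow : ∀ (i : Fin n) (e : ℕ), F (X i ^ e) = G (X i ^ e) := by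
    intro i e
    induction e with
    | zero => rw [pow_zero, h1']
    | succ e ih => rw [pow_succ, hFm, hGm, ih, hX]
  have hm : F (monomial m 1) = G (monomial m 1) := by
    induction m using Finsupp.induction_linear with
    | zero =>
      have : (monomial (0 : Fin n →₀ ℕ) (1 : ℂ) : PS n) = 1 := by
        simp
      rw [this, h1']
    | add a b h h' =>
      have h2 : (monomial (a + b) (1 : ℂ) : PS n) = monomial a 1 * monomial b 1 := by
        rw [monomial_mul_monomial, one_mul]
      rw [h2, hFm, hGm, h, h']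
    | single i e =>
      have : (monomial (Finsupp.single i e) (1 : ℂ) : PS n) = X i ^ e := by
        rw [X_pow_eq]
      rw [this, hpow]
  have h2 : (c • monomial m 1 : PS n) = (c • 1) * monomial m 1 := by
    rw [smul_mul_assoc, one_mul]
  rw [h2, hFm, hGm, hm, h1]

private theorem subst_addC (g : FMap n) (p q : PS n) :
    (p + q).subst g.toFun = p.subst g.toFun + q.subst g.toFun := by
  rw [subst_add g.hasSubst]

private theorem subst_zeroC (g : FMap n) : (0 : PS n).subst g.toFun = 0 := by
  have := subst_addC g 0 0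
  rw [add_zero] at this
  exact (left_eq_add.mp this)

/-- chain rule for the derivation of the coefficients -/
theorem dc_subst (f : FMap n) (p : PS n) : dc D (p.subst f.toFun) =
    (dc D p).subst f.toFun + ∑ j, (pderiv ℂ j p).subst f.toFun * dc D (f.toFun j) := by
  classical
  let F : PS n →+ PS n := AddMonoidHom.mk' (fun p => dc D (p.subst f.toFun)) (by
    intro p q
    show dc D ((p + q).subst f.toFun) = _
    rw [subst_addC, dc_add])
  let G : PS n →+ PS n := AddMonoidHom.mk' (fun p => (dc D p).subst f.toFun +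
      ∑ j, (pderiv ℂ j p).subst f.toFun * dc D (f.toFun j)) (by
    intro p q
    show (dc D (p + q)).subst f.toFun +
      ∑ j, (pderiv ℂ j (p + q)).subst f.toFun * dc D (f.toFun j) = _
    simp only [dc_add, map_add, subst_addC, add_mul, Finset.sum_add_distrib]
    abel)
  have hF : ∀ p, F p = dc D (p.subst f.toFun) := fun _ => rfl
  have hG : ∀ p, G p = (dc D p).subst f.toFun +
      ∑ j, (pderiv ℂ j p).subst f.toFun * dc D (f.toFun j) := fun _ => rfl
  rw [← hF, ← hG]
  refine ext_leibniz f F G ?_ ?_ ?_ ?_ ?_ ?_ p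
  · intro k p hp
    rw [hF]
    exact (O_dc D (O_subst hp f.O1)).mono (by omega)
  · intro k p hp
    rw [hG]
    refine O.add ((O_subst (O_dc D hp) f.O1).mono (by omega)) (O.sum fun j _ => ?_)
    exact ((O_subst (O_pderiv hp j) f.O1).mul (O_zero _)).mono (by omega)
  · intro p q
    rw [hF, hF, hF, subst_mulC, dc_mul]
  · intro p q
    rw [hG, hG, hG, dc_mul, subst_addC, subst_mulC, subst_mulC]
    simp only [Derivation.leibniz, smul_eq_mul, subst_addC, subst_mulC, add_mul,
      Finset.sum_add_distrib, mul_add, Finset.mul_sum, Finset.sum_mul]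
    have e1 : ∀ j, subst f.toFun q * subst f.toFun (pderiv ℂ j p) * dc D (f.toFun j) =
      subst f.toFun (pderiv ℂ j p) * dc D (f.toFun j) * subst f.toFun q := fun j => by ring
    have e2 : ∀ j, subst f.toFun p * subst f.toFun (pderiv ℂ j q) * dc D (f.toFun j) =
      subst f.toFun p * (subst f.toFun (pderiv ℂ j q) * dc D (f.toFun j)) := fun j => by ring
    simp only [e1, e2]
    abel
  · intro i
    rw [hF, hG, dc_X, subst_zeroC, zero_add, subst_X f.hasSubst, Finset.sum_eq_single i]
    · rw [pderiv_X_self, subst_oneC, one_mul]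
    · intro j _ hj
      rw [pderiv_X_of_ne (Ne.symm hj), subst_zeroC, zero_mul]
    · simp
  · intro c
    have h0 : dc D (1 : PS n) = 0 := by
      have h := dc_mul D (1 : PS n) 1
      rw [mul_one, mul_one, one_mul] at h
      exact left_eq_add.mp h
    rw [hF, hG, subst_smulC, subst_oneC, dc_smul, h0, smul_zero, add_zero, subst_smulC,
      subst_oneC]
    rw [Finset.sum_eq_zero, add_zero]
    intro j _
    rw [Derivation.map_smul, Derivation.map_one_eq_zero, smul_zero, subst_zeroC, zero_mul]

/-- chain rule for the derivative in the direction `a` -/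
theorem Dd_subst (a : V n) (f : FMap n) (p : PS n) : Dd a (p.subst f.toFun) =
    ∑ j, (pderiv ℂ j p).subst f.toFun * Dd a (f.toFun j) := by
  classical
  let F : PS n →+ PS n := AddMonoidHom.mk' (fun p => Dd a (p.subst f.toFun)) (by
    intro p q
    show Dd a ((p + q).subst f.toFun) = _
    rw [subst_addC, Dd_add])
  let G : PS n →+ PS n := AddMonoidHom.mk' (fun p =>
      ∑ j, (pderiv ℂ j p).subst f.toFun * Dd a (f.toFun j)) (by
    intro p q
    show ∑ j, (pderiv ℂ j (p + q)).subst f.toFun * Dd a (f.toFun j) = _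
    simp only [map_add, subst_addC, add_mul, Finset.sum_add_distrib])
  have hF : ∀ p, F p = Dd a (p.subst f.toFun) := fun _ => rfl
  have hG : ∀ p, G p = ∑ j, (pderiv ℂ j p).subst f.toFun * Dd a (f.toFun j) := fun _ => rfl
  rw [← hF, ← hG]
  refine ext_leibniz f F G ?_ ?_ ?_ ?_ ?_ ?_ p
  · intro k p hp
    rw [hF]
    exact O_Dd (m := 0) (O_subst hp f.O1) (fun i => O_zero _) (by omega)
  · intro k p hp
    rw [hG]
    exact O.sum fun j _ => ((O_subst (O_pderiv hp j) f.O1).mul (O_zero _)).mono (by omega)
  · intro p q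
    rw [hF, hF, hF, subst_mulC, Dd_mul]
    ring
  · intro p q
    rw [hG, hG, hG]
    simp only [Derivation.leibniz, smul_eq_mul, subst_addC, subst_mulC, add_mul,
      Finset.sum_add_distrib, Finset.mul_sum, Finset.sum_mul]
    have e1 : ∀ j, subst f.toFun q * subst f.toFun (pderiv ℂ j p) * Dd a (f.toFun j) =
      subst f.toFun (pderiv ℂ j p) * Dd a (f.toFun j) * subst f.toFun q := fun j => by ring
    have e2 : ∀ j, subst f.toFun p * subst f.toFun (pderiv ℂ j q) * Dd a (f.toFun j) =
      subst f.toFun p * (subst f.toFun (pderiv ℂ j q) * Dd a (f.toFun j)) := fun j => by ring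
    simp only [e1, e2]
    abel
  · intro i
    rw [hF, hG, subst_X f.hasSubst, Finset.sum_eq_single i]
    · rw [pderiv_X_self, subst_oneC, one_mul]
    · intro j _ hj
      rw [pderiv_X_of_ne (Ne.symm hj), subst_zeroC, zero_mul]
    · simp
  · intro c
    rw [hF, hG, subst_smulC, subst_oneC, Dd_smul, Dd_one, smul_zero]
    symm
    apply Finset.sum_eq_zero
    intro j _
    rw [Derivation.map_smul, Derivation.map_one_eq_zero, smul_zero, subst_zeroC, zero_mul]

end Pool.Agent.INV5
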