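import Pool.Agent.INV5.N2

/-!
# INV5, module N3: the adjoint action and the cocycle

* `Ad_mul`: `Ad (f f') (g' g) a = sb (g' g) (i ↦ Dd a ((f i).subst f'))`, and by `Dd_subst`
  `Dd a ((f i).subst f') = ∑ j, (∂_j f i).subst f' * Dd a (f' j)`. Substituting `g'` first:
  `(∂_j f i).subst f'.subst g' = ∂_j f i` (`f' * g' = 1`), so one gets
  `∑ j, ∂_j f i * (sb g' (Dd a f'))_j = Dd (Ad f' g' a) (f i)`, and then substitute `g` (`sb_sb`).
* `Ad_OV`: `Dd a p` has order `≥ d` if `a` has (no loss: `∂_j p` has order `≥ 0`), `OV.sb`.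
* `Ad_lin`: modulo order `d + 1`: `Dd a (f i) = ∑ j, lin f i j • a j`, since `∂_j f i` has the constant term
  `lin f i j`, so `i ↦ Dd a (f i)` is `mv (lin f) a`; `sb_lin` replaces `g` by `linMap (lin g)`.
* `Ad_triv`: `Dd a (X i + v i) = a i + Dd a (v i)`, `O 8` by `O_Dd` (`8 + 1 ≤ 6 + 3`); `sb g a - a` has order
  `≥ 8` (`O_subst_sub` or `EqM`): `g` is congruent to `1` modulo order `6` (as `oneAdd v` is), `a` has order
  `3`, and `3 - 1 + 6 = 8`.
* `xi_mul`: `xi D (f f') (g' g) = sb (g' g) (dc D ((f i).subst f'))`, `dc_subst`, and the same computation.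
* `xi_one`: `dc D (X i) = 0`. `xi_inv`: from `xi_mul` and `xi_one` for `σ * σ = 1`.
* `xi_f`: `dc D (X i + v i) = dc D (v i)` of order `≥ 6`, and `sb g` changes it in order `≥ 6 - 1 + 6`.
-/

namespace Pool.Agent.INV5

open Pool.Agent.RevMaps MvPowerSeries

variable {n : ℕ}

private theorem ssub (g h : FMap n) (p : PS n) :
    (p.subst g.toFun).subst h.toFun = p.subst (g * h).toFun := by
  rw [subst_comp_subst_apply g.hasSubst h.hasSubst]
  rfl

private theorem sub1 (p : PS n) : p.subst (1 : FMap n).toFun = p := by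
  show p.subst (X : Fin n → PS n) = p
  rw [subst_self]
  rfl

private theorem inner (f g : FMap n) (h : f * g = 1) (p : Fin n → PS n) (q : V n) :
    (∑ j, (p j).subst f.toFun * q j).subst g.toFun = ∑ j, p j * sb g q j := by
  rw [subst_sumC]
  refine Finset.sum_congr rfl fun j _ => ?_
  rw [subst_mulC, ssub, h, sub1]
  rfl

theorem Ad_mul (f g f' g' : FMap n) (h1 : f * g = 1) (h2 : g * f = 1) (h3 : f' * g' = 1)
    (h4 : g' * f' = 1) (a : V n) : Ad (f * f') (g' * g) a = Ad f g (Ad f' g' a) := by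
  have e1 : Ad (f * f') (g' * g) a =
      sb g (sb g' fun i => Dd a ((f * f').toFun i)) := (sb_sb g' g _).symm
  rw [e1]
  show sb g _ = sb g _
  congr 1
  funext i
  show (Dd a ((f.toFun i).subst f'.toFun)).subst g'.toFun = Dd (Ad f' g' a) (f.toFun i)
  rw [Dd_subst, inner f' g' h3 (fun j => pderiv ℂ j (f.toFun i)) (fun j => Dd a (f'.toFun j))]
  rfl

theorem Ad_one (a : V n) : Ad 1 1 a = a := by
  show sb 1 (fun i => Dd a (X i)) = a
  rw [sb_one]
  funext i
  exact Dd_X a i

theorem Ad_OV {d : ℕ} (f g : FMap n) {a : V n} (ha : OV d a) : OV d (Ad f g a) := by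
  have h : OV d (fun i => Dd a (f.toFun i)) := fun i => O_Dd (f.O1 i) ha (by omega)
  exact h.sb g

private theorem Dd_lin (M : Matrix (Fin n) (Fin n) ℂ) (a : V n) (i : Fin n) :
    Dd a ((linMap M).toFun i) = mv M a i := by
  rw [linMap_toFun]
  simp only [mv, Dd_sum, Dd_smul, Dd_X]

theorem Ad_lin {d : ℕ} (f g : FMap n) {a : V n} (ha : OV d a) :
    OV (d + 1) (Ad f g a - act (lin f) (lin g) a) := by
  set b : V n := fun i => Dd a (f.toFun i) with hb
  have h1 : OV (d + 1) (b - mv (lin f) a) := by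
    intro i
    have h2 := O_Dd (k := d + 1) (sub_lin_O f i) ha (by omega)
    rw [Dd_sub, Dd_lin] at h2
    exact h2
  have h3 := h1.sb g
  have h4 := sb_lin g (mv (lin f) a) (ha.mv (lin f))
  intro i
  have h5 := (h3 i).add (h4 i)
  have e1 : act (lin f) (lin g) a = sb (linMap (lin g)) (mv (lin f) a) := by
    rw [act, sb_mv]
  have e2 : (Ad f g a - act (lin f) (lin g) a) i =
      sb g (b - mv (lin f) a) i + (sb g (mv (lin f) a) i - sb (linMap (lin g)) (mv (lin f) a) i) := by
    rw [e1, sb_sub]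
    show sb g b i - _ = (sb g b i - sb g (mv (lin f) a) i) + _
    ring
  rw [e2]
  exact h5

private theorem near_one (v : V n) (hv1 : OV 1 v) (hv : OV 6 v) (g : FMap n)
    (h2 : g * oneAdd v hv1 = 1) (i : Fin n) : O 6 (g.toFun i - (1 : FMap n).toFun i) := by
  have h3 : O 6 ((g.toFun i).subst (oneAdd v hv1).toFun -
      (g.toFun i).subst (1 : FMap n).toFun) := by
    refine O_subst_sub (g.O1 i) (oneAdd v hv1).O1 (1 : FMap n).O1 (d := 6) ?_ (by omega)
    intro j
    show O 6 ((X j : PS n) + v j - X j)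
    rw [add_sub_cancel_left]
    exact hv j
  rw [sub1] at h3
  have h4 : (g.toFun i).subst (oneAdd v hv1).toFun = (1 : FMap n).toFun i := by
    rw [← h2]
    rfl
  rw [h4] at h3
  exact h3.symm_sub

private theorem sb_near (v : V n) (hv1 : OV 1 v) (hv : OV 6 v) (g : FMap n)
    (h2 : g * oneAdd v hv1 = 1) {k j : ℕ} (hj : j + 1 ≤ 6 + k) {a : V n} (ha : OV k a) :
    OV j (sb g a - a) := by
  intro i
  have h3 := O_subst_sub (ha i) g.O1 (1 : FMap n).O1 (near_one v hv1 hv g h2) hj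
  rw [sub1] at h3
  exact h3

theorem Ad_triv (v : V n) (hv1 : OV 1 v) (hv : OV 6 v) (g : FMap n) (h1 : oneAdd v hv1 * g = 1)
    (h2 : g * oneAdd v hv1 = 1) {a : V n} (ha : OV 3 a) :
    OV 8 (Ad (oneAdd v hv1) g a - a) := by
  have e1 : Ad (oneAdd v hv1) g a = sb g a + sb g (fun i => Dd a (v i)) := by
    rw [← sb_add]
    show sb g (fun i => Dd a ((X i : PS n) + v i)) = _
    congr 1
    funext i
    rw [Dd_add, Dd_X]
    rfl
  have h3 : OV 8 (fun i => Dd a (v i)) := fun i => O_Dd (hv i) ha (by omega)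
  have h4 := (sb_near v hv1 hv g h2 (j := 8) (by omega) ha).add (h3.sb g)
  rw [e1]
  have e2 : sb g a + sb g (fun i => Dd a (v i)) - a =
      sb g a - a + sb g (fun i => Dd a (v i)) := by abel
  rw [e2]
  exact h4

variable (D : Derivation ℚ ℂ ℂ)

theorem xi_mul (f g f' g' : FMap n) (h1 : f * g = 1) (h2 : g * f = 1) (h3 : f' * g' = 1)
    (h4 : g' * f' = 1) : xi D (f * f') (g' * g) = xi D f g + Ad f g (xi D f' g') := by
  have e1 : xi D (f * f') (g' * g) = sb g (sb g' (dv D (f * f').toFun)) := (sb_sb g' g _).symm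
  have e2 : xi D f g + Ad f g (xi D f' g') =
      sb g (dv D f.toFun + fun i => Dd (xi D f' g') (f.toFun i)) := (sb_add g _ _).symm
  rw [e1, e2]
  congr 1
  funext i
  show (dc D ((f.toFun i).subst f'.toFun)).subst g'.toFun =
    dc D (f.toFun i) + Dd (xi D f' g') (f.toFun i)
  rw [dc_subst, subst_add g'.hasSubst, ssub, h3, sub1,
    inner f' g' h3 (fun j => pderiv ℂ j (f.toFun i)) (fun j => dc D (f'.toFun j))]
  rfl

theorem xi_one : xi D (1 : FMap n) 1 = 0 := by
  show sb 1 (fun i => dc D (X i)) = 0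
  rw [sb_one]
  funext i
  exact dc_X D i

theorem xi_inv (σ : FMap n) (h : σ * σ = 1) : Ad σ σ (xi D σ σ) = -xi D σ σ := by
  have h1 := xi_mul D σ σ σ σ h h h h
  rw [h, xi_one] at h1
  exact (neg_eq_of_add_eq_zero_right h1.symm).symm

theorem xi_OV (f g : FMap n) : OV 1 (xi D f g) := by
  have h : OV 1 (dv D f.toFun) := fun i => O_dc D (f.O1 i)
  exact h.sb g

theorem xi_f (v : V n) (hv1 : OV 1 v) (hv : OV 6 v) (g : FMap n) (h1 : oneAdd v hv1 * g = 1)
    (h2 : g * oneAdd v hv1 = 1) : OV 8 (xi D (oneAdd v hv1) g - dv D v) := by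
  have e1 : xi D (oneAdd v hv1) g = sb g (dv D v) := by
    show sb g (fun i => dc D ((X i : PS n) + v i)) = _
    congr 1
    funext i
    rw [dc_add, dc_X, zero_add]
    rfl
  have h3 : OV 6 (dv D v) := fun i => O_dc D (hv i)
  rw [e1]
  exact sb_near v hv1 hv g h2 (by omega) h3

theorem xi_add_left (D' : Derivation ℚ ℂ ℂ) (f g : FMap n) :
    xi (D + D') f g = xi D f g + xi D' f g := by
  have e : xi D f g + xi D' f g = sb g (dv D f.toFun + dv D' f.toFun) := (sb_add g _ _).symm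
  rw [e]
  have e2 : dv (D + D') f.toFun = dv D f.toFun + dv D' f.toFun := by
    funext i
    exact dc_add_left D D' (f.toFun i)
  rw [← e2]
  rfl

theorem xi_smul_left (a : ℂ) (f g : FMap n) : xi (a • D) f g = a • xi D f g := by
  have e : a • xi D f g = sb g (a • dv D f.toFun) := (sb_smul g a _).symm
  rw [e]
  have e2 : dv (a • D) f.toFun = a • dv D f.toFun := by
    funext i
    exact dc_smul_left D a (f.toFun i)
  rw [← e2]
  rfl

end Pool.Agent.INV5
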