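import Mathlib

/-!
# INV5, module N4: the linear algebra of the obstruction (abstract)

`X` is filtered by `F e`, `F (M+1) = 0`, with four involutions `s k` preserving the filtration whose product
is the identity on `F 3`. Put `a = s 0 * s 1`, `c = s 0 * s 3`, `A = a - 1`, `C = c - 1`. On `F 3`:
`s 0 a s 0 = a⁻¹`, `s 0 c s 0 = c⁻¹`, `s 2 = a⁻¹ s 0 c = s 0 a c`, and `(s 2)² = 1` gives `a c = c a`; `A, C`
commute, `s 0 A = - a⁻¹ A s 0`, hence `s 0 A F3 ⊆ A F3`, likewise `C`.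
(1) `∑_k (1 - s k) F3 = (1 - s 0) F3 + A F3 + C F3` (`1 - s 0 a = (1 - s 0) - s 0 A`, `1 - s 0 c` similarly,
`1 - s 0 a c = (1 - s 0) - s 0 A - s 0 a C`), and the same with `F M` instead of `F3`.
(2) Let `Y = F M`. If `y ∈ Y` is in `(1 - s 0) F3 + A F3 + C F3`, put `p = (1 + s 0)/2`. `p y ∈ A F3 + C F3` (as
`p (1 - s 0) = 0` and `p` preserves `A F3`, `C F3`), `p y ∈ Y`, and `y - p y = (1 - s 0) y / 2 ∈ (1 - s 0) Y`. So
`Y ∩ ∑ (1 - s k) F3 ⊆ (Y ∩ (A F3 + C F3)) + ∑ (1 - s k) Y`.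
(3) Let `Q = F3 / Y`. `dim (Y ∩ (A F3 + C F3)) ≤ dim (A Y + C Y) + h_0(Q) + h^0(Q)`, where `h_0(Q)` is the
dimension of `Q / (A Q + C Q)` and `h^0(Q)` the dimension of `ker A ∩ ker C` on `Q`. In fact let
`Z = {(x1, x2) ∈ F3² | A x1 + C x2 ∈ Y}`; the map `Z → Y / (A Y + C Y)`, `(x1, x2) ↦ A x1 + C x2`, has the image
of the left side, and it kills `Y²` and all `(C x, - A x)`, `x ∈ F3`. So
`dim (Y ∩ (A F3 + C F3)) - dim (A Y + C Y) ≤ dim Z - dim (Y² + {(C x, -A x)})`, and with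
`dim Z / Y² = dim ker (Q² → Q) = 2 dim Q - dim (A Q + C Q)` and
`dim ({(C x, -A x)} + Y²) / Y² = dim Q - h^0(Q)` this is `dim Q - dim (A Q + C Q) + h^0(Q) = h_0(Q) + h^0(Q)`.
(4) `h_0(Q) ≤ ∑ h0 e`, `h^0(Q) ≤ ∑ hi e` by induction along the filtration `F e / F M`, `3 ≤ e ≤ M`
(subadditivity for an extension `F(e+1)/F M → F e/F M → F e/F(e+1)`).
(5) `W0 ⊆ Y ∩ ∑ (1 - s k) F3`, so `dim Y ≤ dim W0 + K ≤ dim (∑ (1 - s k) Y) + h_0(Q) + h^0(Q) + K`.
-/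

namespace Pool.Agent.INV5

open Module

section aux

variable {X Z : Type*} [AddCommGroup X] [Module ℂ X] [FiniteDimensional ℂ X]
  [AddCommGroup Z] [Module ℂ Z]

private theorem rk (f : X →ₗ[ℂ] Z) (S : Submodule ℂ X) :
    finrank ℂ ↥(S.map f) + finrank ℂ ↥(S ⊓ LinearMap.ker f) = finrank ℂ ↥S := by
  have h := LinearMap.finrank_range_add_finrank_ker (f.domRestrict S)
  have h1 : LinearMap.range (f.domRestrict S) = S.map f := by
    ext z
    constructor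
    · rintro ⟨x, rfl⟩
      exact ⟨x, x.2, rfl⟩
    · rintro ⟨x, hx, rfl⟩
      exact ⟨⟨x, hx⟩, rfl⟩
  have h2 : (LinearMap.ker (f.domRestrict S)).map S.subtype = S ⊓ LinearMap.ker f := by
    ext z
    constructor
    · rintro ⟨x, hx, rfl⟩
      exact ⟨x.2, hx⟩
    · rintro ⟨hz, hz'⟩
      exact ⟨⟨z, hz⟩, hz', rfl⟩
  rw [← h1, ← h2, Submodule.finrank_map_subtype_eq]
  exact h

private theorem dim_prod (S : Submodule ℂ X) :
    finrank ℂ ↥(S.prod S) = 2 * finrank ℂ ↥S := by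
  have h := rk (LinearMap.fst ℂ X X) (S.prod S)
  have h1 : (S.prod S).map (LinearMap.fst ℂ X X) = S := by
    ext z
    constructor
    · rintro ⟨x, hx, rfl⟩
      exact hx.1
    · intro hz
      exact ⟨(z, 0), ⟨hz, S.zero_mem⟩, rfl⟩
  have h2 : (S.prod S) ⊓ LinearMap.ker (LinearMap.fst ℂ X X) = S.map (LinearMap.inr ℂ X X) := by
    ext ⟨a, b⟩
    constructor
    · rintro ⟨hx, hk⟩
      have ha : a = 0 := hk
      subst ha
      exact ⟨b, hx.2, rfl⟩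
    · rintro ⟨x, hx, hxe⟩
      have e1 : a = 0 := (congrArg Prod.fst hxe).symm
      have e2 : b = x := (congrArg Prod.snd hxe).symm
      subst e1
      subst e2
      exact ⟨⟨S.zero_mem, hx⟩, rfl⟩
  have h3 := rk (LinearMap.inr ℂ X X) S
  have h4 : S ⊓ LinearMap.ker (LinearMap.inr ℂ X X) = ⊥ := by
    rw [LinearMap.ker_eq_bot.2 LinearMap.inr_injective, inf_bot_eq]
  rw [h4, finrank_bot] at h3
  rw [h1, h2] at h
  omega

private theorem core3 (V Y : Submodule ℂ X) (A C : Module.End ℂ X) (hYV : Y ≤ V)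
    (hAV : ∀ x ∈ V, A x ∈ V) (hCV : ∀ x ∈ V, C x ∈ V) (hAY : ∀ x ∈ Y, A x ∈ Y)
    (hCY : ∀ x ∈ Y, C x ∈ Y) (hAC : ∀ x ∈ V, A (C x) = C (A x)) :
    finrank ℂ ↥(Y ⊓ (V.map A ⊔ V.map C)) + finrank ℂ ↥((V.map A ⊔ V.map C) ⊔ Y) +
      finrank ℂ ↥Y ≤ finrank ℂ ↥(Y.map A ⊔ Y.map C) + finrank ℂ ↥V +
        finrank ℂ ↥(V ⊓ Y.comap A ⊓ Y.comap C) := by
  set P : X × X →ₗ[ℂ] X := LinearMap.coprod A C with hP
  set Q : X →ₗ[ℂ] X × X := LinearMap.prod C (-A) with hQ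
  set I : Submodule ℂ X := V.map A ⊔ V.map C with hI
  have hPV : (V.prod V).map P = I := LinearMap.map_coprod_prod A C V V
  have hPY : (Y.prod Y).map P = Y.map A ⊔ Y.map C := LinearMap.map_coprod_prod A C Y Y
  have hPx : ∀ x y, P (x, y) = A x + C y := fun x y => LinearMap.coprod_apply A C (x, y)
  have hQx : ∀ x, Q x = (C x, -A x) := fun x => rfl
  have hPQ : ∀ x ∈ V, P (Q x) = 0 := by
    intro x hx
    rw [hQx, hPx, map_neg, hAC x hx, add_neg_cancel]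
  -- the preimage of `Y`
  have e1 := rk P ((V.prod V) ⊓ Y.comap P)
  have e1a : ((V.prod V) ⊓ Y.comap P).map P = Y ⊓ I := by
    ext z
    constructor
    · rintro ⟨x, ⟨hx1, hx2⟩, rfl⟩
      exact ⟨hx2, hPV ▸ ⟨x, hx1, rfl⟩⟩
    · rintro ⟨hz1, hz2⟩
      rw [← hPV] at hz2
      obtain ⟨x, hx, rfl⟩ := hz2
      exact ⟨x, ⟨hx, hz1⟩, rfl⟩
  have e1b : ((V.prod V) ⊓ Y.comap P) ⊓ LinearMap.ker P = (V.prod V) ⊓ LinearMap.ker P := by
    ext x
    constructor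
    · rintro ⟨⟨hx1, _⟩, hx3⟩
      exact ⟨hx1, hx3⟩
    · rintro ⟨hx1, hx3⟩
      refine ⟨⟨hx1, ?_⟩, hx3⟩
      have h0 : P x = 0 := hx3
      change P x ∈ Y
      rw [h0]
      exact Y.zero_mem
  rw [e1a, e1b] at e1
  -- the subspace `T`
  have e2 := rk P ((Y.prod Y) ⊔ V.map Q)
  have e2a : ((Y.prod Y) ⊔ V.map Q).map P = Y.map A ⊔ Y.map C := by
    rw [Submodule.map_sup, hPY]
    refine sup_eq_left.2 ?_
    rintro _ ⟨_, ⟨x, hx, rfl⟩, rfl⟩
    rw [hPQ x hx]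
    exact Submodule.zero_mem _
  have e2b : ((Y.prod Y) ⊔ V.map Q) ⊓ LinearMap.ker P ≤ (V.prod V) ⊓ LinearMap.ker P := by
    refine inf_le_inf_right _ (sup_le ?_ ?_)
    · exact fun x hx => ⟨hYV hx.1, hYV hx.2⟩
    · rintro _ ⟨x, hx, rfl⟩
      exact ⟨hCV x hx, V.neg_mem (hAV x hx)⟩
  have e2c := Submodule.finrank_mono e2b
  rw [e2a] at e2
  -- the dimension of the preimage
  have e3 := rk (Y.mkQ.comp P) (V.prod V)
  have e3a : (V.prod V).map (Y.mkQ.comp P) = (I ⊔ Y).map Y.mkQ := by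
    rw [Submodule.map_comp, hPV, Submodule.map_sup I Y Y.mkQ]
    symm
    refine sup_eq_left.2 ?_
    rintro _ ⟨y, hy, rfl⟩
    rw [Submodule.mkQ_apply, (Submodule.Quotient.mk_eq_zero Y).2 hy]
    exact Submodule.zero_mem _
  have e3b : (V.prod V) ⊓ LinearMap.ker (Y.mkQ.comp P) = (V.prod V) ⊓ Y.comap P := by
    rw [LinearMap.ker_comp, Submodule.ker_mkQ]
  rw [e3a, e3b, dim_prod] at e3
  have e4 := rk Y.mkQ (I ⊔ Y)
  have e4a : (I ⊔ Y) ⊓ LinearMap.ker Y.mkQ = Y := by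
    rw [Submodule.ker_mkQ]
    exact inf_eq_right.2 le_sup_right
  rw [e4a] at e4
  -- the dimension of `T`
  have e5 := Submodule.finrank_sup_add_finrank_inf_eq (Y.prod Y) (V.map Q)
  have e5a : (Y.prod Y) ⊓ V.map Q = (V ⊓ Y.comap A ⊓ Y.comap C).map Q := by
    ext z
    constructor
    · rintro ⟨hz, x, hx, rfl⟩
      refine ⟨x, ⟨⟨hx, ?_⟩, hz.1⟩, rfl⟩
      have h0 : -A x ∈ Y := hz.2
      exact (Submodule.neg_mem_iff Y).1 h0
    · rintro ⟨x, ⟨⟨hx1, hx2⟩, hx3⟩, rfl⟩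
      exact ⟨⟨hx3, Y.neg_mem hx2⟩, x, hx1, rfl⟩
  rw [e5a, dim_prod] at e5
  have e6 := rk Q V
  have e7 := rk Q (V ⊓ Y.comap A ⊓ Y.comap C)
  have e7a : (V ⊓ Y.comap A ⊓ Y.comap C) ⊓ LinearMap.ker Q = V ⊓ LinearMap.ker Q := by
    ext x
    constructor
    · rintro ⟨⟨⟨hx1, _⟩, _⟩, hx4⟩
      exact ⟨hx1, hx4⟩
    · rintro ⟨hx1, hx4⟩
      have h0 : Q x = 0 := hx4
      rw [hQx] at h0
      have h1 : C x = 0 := congrArg Prod.fst h0
      have h2 : -A x = 0 := congrArg Prod.snd h0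
      refine ⟨⟨⟨hx1, ?_⟩, ?_⟩, hx4⟩
      · change A x ∈ Y
        rw [neg_eq_zero.1 h2]
        exact Y.zero_mem
      · change C x ∈ Y
        rw [h1]
        exact Y.zero_mem
  rw [e7a] at e7
  omega

private theorem sup_lip (P P' R : Submodule ℂ X) (h : P' ≤ P) :
    finrank ℂ ↥(P ⊔ R) + finrank ℂ ↥P' ≤ finrank ℂ ↥(P' ⊔ R) + finrank ℂ ↥P := by
  have h1 := Submodule.finrank_sup_add_finrank_inf_eq P (P' ⊔ R)
  have h2 : P ⊔ (P' ⊔ R) = P ⊔ R := by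
    rw [← sup_assoc, sup_eq_left.2 h]
  have h3 : P' ≤ P ⊓ (P' ⊔ R) := le_inf h le_sup_left
  have h4 := Submodule.finrank_mono h3
  rw [h2] at h1
  omega

end aux

theorem la_main {X : Type*} [AddCommGroup X] [Module ℂ X] [FiniteDimensional ℂ X]
    (s : Fin 4 → Module.End ℂ X) (F : ℕ → Submodule ℂ X) (M : ℕ) (hM : 3 ≤ M)
    (hanti : ∀ e, F (e + 1) ≤ F e) (hbot : F (M + 1) = ⊥) (hs : ∀ k e, ∀ x ∈ F e, s k x ∈ F e)
    (h2 : ∀ k, s k * s k = 1) (hp : ∀ x ∈ F 3, s 0 (s 1 (s 2 (s 3 x))) = x)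
    (W0 : Submodule ℂ X) (K : ℕ) (hK : finrank ℂ ↥(F M) ≤ finrank ℂ ↥W0 + K)
    (hW : ∀ w ∈ W0, w ∈ F M ∧ ∃ x : Fin 4 → X, (∀ k, x k ∈ F 3) ∧ w = ∑ k, (x k - s k (x k)))
    (h0 hi : ℕ → ℕ)
    (hh0 : ∀ e, 3 ≤ e → e < M → finrank ℂ ↥(F e) ≤
      finrank ℂ ↥(F (e + 1) ⊔ (F e).map (s 0 * s 1 - 1) ⊔ (F e).map (s 0 * s 3 - 1)) + h0 e)
    (hhi : ∀ e, 3 ≤ e → e < M →
      finrank ℂ ↥(F e ⊓ (F (e + 1)).comap (s 0 * s 1 - 1) ⊓ (F (e + 1)).comap (s 0 * s 3 - 1)) ≤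
        finrank ℂ ↥(F (e + 1)) + hi e) :
    finrank ℂ ↥(F M) ≤ finrank ℂ ↥(⨆ k, (F M).map (1 - s k)) + K +
      ∑ e ∈ Finset.Ico 3 M, (h0 e + hi e) := by
  set A : Module.End ℂ X := s 0 * s 1 - 1 with hA
  set C : Module.End ℂ X := s 0 * s 3 - 1 with hC
  have hanti' : Antitone F := antitone_nat_of_succ_le hanti
  have hAx : ∀ x, A x = s 0 (s 1 x) - x := fun x => rfl
  have hCx : ∀ x, C x = s 0 (s 3 x) - x := fun x => rfl
  have ss : ∀ k x, s k (s k x) = x := by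
    intro k x
    have h := congrArg (fun f : Module.End ℂ X => f x) (h2 k)
    simpa using h
  have hAF : ∀ e, ∀ x ∈ F e, A x ∈ F e := fun e x hx =>
    (F e).sub_mem (hs 0 e _ (hs 1 e x hx)) hx
  have hCF : ∀ e, ∀ x ∈ F e, C x ∈ F e := fun e x hx =>
    (F e).sub_mem (hs 0 e _ (hs 3 e x hx)) hx
  -- the relations on `F 3`
  have r2 : ∀ x ∈ F 3, s 2 x = s 1 (s 0 (s 3 x)) := by
    intro x hx
    have h := hp (s 3 x) (hs 3 3 x hx)
    rw [ss 3 x] at h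
    have h1 := congrArg (s 0) h
    rw [ss 0] at h1
    have h3 := congrArg (s 1) h1
    rw [ss 1] at h3
    exact h3
  have r3 : ∀ x ∈ F 3, s 1 (s 0 (s 3 x)) = s 3 (s 0 (s 1 x)) := by
    intro x hx
    -- apply the square relation to `y = s 3 (s 0 (s 1 x))`
    have hy : s 3 (s 0 (s 1 x)) ∈ F 3 := hs 3 3 _ (hs 0 3 _ (hs 1 3 x hx))
    have h := r2 _ hy
    rw [ss 3, ss 0, ss 1] at h
    have h1 := congrArg (s 2) h
    rw [ss 2] at h1
    rw [h1, ← r2 x hx]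
  have hAC : ∀ x ∈ F 3, A (C x) = C (A x) := by
    intro x hx
    simp only [hAx, hCx, map_sub]
    rw [r3 x hx]
    abel
  have c0A : ∀ x, s 0 (A x) = -A (s 1 x) := by
    intro x
    simp only [hAx, map_sub, ss]
    abel
  have c0C : ∀ x, s 0 (C x) = -C (s 3 x) := by
    intro x
    simp only [hCx, map_sub, ss]
    abel
  set V := F 3 with hV
  set Y := F M with hY
  have hYV : Y ≤ V := hanti' hM
  set I : Submodule ℂ X := V.map A ⊔ V.map C with hI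
  -- `W0` lies in the sum
  have w1 : ∀ x ∈ V, ∀ k, x - s k x ∈ (V.map (1 - s 0)) ⊔ I := by
    intro x hx k
    have t0 : ∀ y ∈ V, y - s 0 y ∈ (V.map (1 - s 0)) ⊔ I := fun y hy =>
      Submodule.mem_sup_left ⟨y, hy, rfl⟩
    have tA : ∀ y ∈ V, A y ∈ (V.map (1 - s 0)) ⊔ I := fun y hy =>
      Submodule.mem_sup_right (Submodule.mem_sup_left ⟨y, hy, rfl⟩)
    have tC : ∀ y ∈ V, C y ∈ (V.map (1 - s 0)) ⊔ I := fun y hy =>
      Submodule.mem_sup_right (Submodule.mem_sup_right ⟨y, hy, rfl⟩)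
    have m1 := hs 1 3 x hx
    have m3 := hs 3 3 x hx
    have k1 : x - s 1 x = (x - s 0 x) + A (s 1 x) := by
      simp only [hAx, ss]
      abel
    have k3 : x - s 3 x = (x - s 0 x) + C (s 3 x) := by
      simp only [hCx, ss]
      abel
    fin_cases k
    · exact t0 x hx
    · change x - s 1 x ∈ _
      rw [k1]
      exact Submodule.add_mem _ (t0 x hx) (tA _ m1)
    · change x - s 2 x ∈ _
      have m03 := hs 0 3 _ m3
      have m103 := hs 1 3 _ m03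
      have k2 : x - s 2 x = (x - s 0 x) + A (s 1 (s 0 (s 3 x))) + C (s 3 x) := by
        rw [r2 x hx]
        simp only [hAx, hCx, ss]
        abel
      rw [k2]
      exact Submodule.add_mem _ (Submodule.add_mem _ (t0 x hx) (tA _ m103)) (tC _ m3)
    · change x - s 3 x ∈ _
      rw [k3]
      exact Submodule.add_mem _ (t0 x hx) (tC _ m3)
  have w2 : W0 ≤ (Y ⊓ I) ⊔ Y.map (1 - s 0) := by
    intro w hw
    obtain ⟨hwY, x, hx, hwx⟩ := hW w hw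
    have h1 : w ∈ (V.map (1 - s 0)) ⊔ I := by
      rw [hwx]
      exact Submodule.sum_mem _ fun k _ => w1 (x k) (hx k) k
    obtain ⟨u, ⟨v, hv, hvu⟩, z, hz, huz⟩ := Submodule.mem_sup.1 h1
    have hu : u = v - s 0 v := hvu.symm
    -- `I` is stable under `s 0`
    have hIs : ∀ z ∈ I, s 0 z ∈ I := by
      intro z hz
      obtain ⟨a, ⟨a', ha', rfl⟩, b, ⟨b', hb', rfl⟩, rfl⟩ := Submodule.mem_sup.1 hz
      rw [map_add, c0A, c0C, ← map_neg A, ← map_neg C]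
      exact Submodule.add_mem _
        (Submodule.mem_sup_left ⟨_, V.neg_mem (hs 1 3 _ ha'), rfl⟩)
        (Submodule.mem_sup_right ⟨_, V.neg_mem (hs 3 3 _ hb'), rfl⟩)
    have hsum : w + s 0 w = z + s 0 z := by
      rw [← huz, hu]
      simp only [map_add, map_sub, ss]
      abel
    have hw2 : w = (1 / 2 : ℂ) • (w + s 0 w) + (1 / 2 : ℂ) • (w - s 0 w) := by
      rw [← smul_add]
      have : w + s 0 w + (w - s 0 w) = (2 : ℂ) • w := by
        rw [two_smul]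
        abel
      rw [this, smul_smul]
      norm_num
    rw [hw2]
    refine Submodule.add_mem_sup ?_ ?_
    · refine Submodule.smul_mem _ _ ⟨Y.add_mem hwY (hs 0 M w hwY), ?_⟩
      change w + s 0 w ∈ I
      rw [hsum]
      exact I.add_mem hz (hIs z hz)
    · exact ⟨(1 / 2 : ℂ) • w, Y.smul_mem _ hwY, by
        simp only [LinearMap.sub_apply, Module.End.one_apply, map_smul, smul_sub]⟩
  -- the span of the `(1 - s k) Y`
  have w3 : (Y.map A ⊔ Y.map C) ⊔ Y.map (1 - s 0) ≤ ⨆ k, Y.map (1 - s k) := by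
    have t : ∀ k, ∀ y ∈ Y, y - s k y ∈ ⨆ k, Y.map (1 - s k) := fun k y hy =>
      Submodule.mem_iSup_of_mem k ⟨y, hy, rfl⟩
    refine sup_le (sup_le ?_ ?_) ?_
    · rintro _ ⟨y, hy, rfl⟩
      have hy1 := hs 1 M y hy
      have k1 : A y = (s 1 y - s 1 (s 1 y)) - (s 1 y - s 0 (s 1 y)) := by
        simp only [hAx, ss]
        abel
      rw [k1]
      exact Submodule.sub_mem _ (t 1 _ hy1) (t 0 _ hy1)
    · rintro _ ⟨y, hy, rfl⟩
      have hy1 := hs 3 M y hy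
      have k1 : C y = (s 3 y - s 3 (s 3 y)) - (s 3 y - s 0 (s 3 y)) := by
        simp only [hCx, ss]
        abel
      rw [k1]
      exact Submodule.sub_mem _ (t 3 _ hy1) (t 0 _ hy1)
    · rintro _ ⟨y, hy, rfl⟩
      exact t 0 y hy
  -- `h_0` along the filtration
  have w4 : ∀ m, 3 ≤ m → m ≤ M → finrank ℂ ↥V ≤
      finrank ℂ ↥(I ⊔ F m) + ∑ e ∈ Finset.Ico 3 m, h0 e := by
    intro m hm
    induction m, hm using Nat.le_induction with
    | base =>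
      intro _
      have h1 : V ≤ I ⊔ F 3 := le_sup_right
      have h3 := Submodule.finrank_mono h1
      omega
    | succ m hm ih =>
      intro hmM
      have ih' := ih (by omega)
      rw [Finset.sum_Ico_succ_top hm]
      have hh := hh0 m hm (by omega)
      have h3 := Submodule.finrank_sup_add_finrank_inf_eq (F m) (I ⊔ F (m + 1))
      have h4 : F m ⊔ (I ⊔ F (m + 1)) = I ⊔ F m := by
        rw [sup_left_comm, sup_eq_left.2 (hanti m)]
      have h5 : F (m + 1) ⊔ (F m).map A ⊔ (F m).map C ≤ F m ⊓ (I ⊔ F (m + 1)) := by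
        have hFV : F m ≤ V := hanti' hm
        refine sup_le (sup_le (le_inf (hanti m) le_sup_right) ?_) ?_
        · rintro _ ⟨y, hy, rfl⟩
          exact ⟨hAF m y hy, Submodule.mem_sup_left (Submodule.mem_sup_left ⟨y, hFV hy, rfl⟩)⟩
        · rintro _ ⟨y, hy, rfl⟩
          exact ⟨hCF m y hy, Submodule.mem_sup_left (Submodule.mem_sup_right ⟨y, hFV hy, rfl⟩)⟩
      have h6 := Submodule.finrank_mono h5
      rw [h4] at h3
      omega
  -- `h^0` along the filtration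
  have w5 : ∀ m, 3 ≤ m → m ≤ M → finrank ℂ ↥(V ⊓ Y.comap A ⊓ Y.comap C) ≤
      finrank ℂ ↥(F m ⊓ Y.comap A ⊓ Y.comap C) + ∑ e ∈ Finset.Ico 3 m, hi e := by
    intro m hm
    induction m, hm using Nat.le_induction with
    | base =>
      intro _
      rw [Finset.Ico_self, Finset.sum_empty]
      exact le_rfl
    | succ m hm ih =>
      intro hmM
      have ih' := ih (by omega)
      rw [Finset.sum_Ico_succ_top hm]
      have hh := hhi m hm (by omega)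
      have h3 := Submodule.finrank_sup_add_finrank_inf_eq
        (F m ⊓ Y.comap A ⊓ Y.comap C) (F (m + 1))
      have hYm : Y ≤ F (m + 1) := hanti' hmM
      have h4 : (F m ⊓ Y.comap A ⊓ Y.comap C) ⊓ F (m + 1) =
          F (m + 1) ⊓ Y.comap A ⊓ Y.comap C := by
        ext x
        constructor
        · rintro ⟨⟨⟨_, hx2⟩, hx3⟩, hx4⟩
          exact ⟨⟨hx4, hx2⟩, hx3⟩
        · rintro ⟨⟨hx4, hx2⟩, hx3⟩
          exact ⟨⟨⟨hanti m hx4, hx2⟩, hx3⟩, hx4⟩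
      have h5 : (F m ⊓ Y.comap A ⊓ Y.comap C) ⊔ F (m + 1) ≤
          F m ⊓ (F (m + 1)).comap A ⊓ (F (m + 1)).comap C := by
        refine sup_le ?_ ?_
        · rintro x ⟨⟨hx1, hx2⟩, hx3⟩
          exact ⟨⟨hx1, hYm hx2⟩, hYm hx3⟩
        · intro x hx
          exact ⟨⟨hanti m hx, hAF _ x hx⟩, hCF _ x hx⟩
      have h6 := Submodule.finrank_mono h5
      rw [h4] at h3
      omega
  have v1 : finrank ℂ ↥(Y ⊓ I) + finrank ℂ ↥(I ⊔ Y) + finrank ℂ ↥Y ≤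
      finrank ℂ ↥(Y.map A ⊔ Y.map C) + finrank ℂ ↥V + finrank ℂ ↥(V ⊓ Y.comap A ⊓ Y.comap C) :=
    core3 V Y A C hYV (hAF 3) (hCF 3) (hAF M) (hCF M) hAC
  have v2 : finrank ℂ ↥V ≤ finrank ℂ ↥(I ⊔ Y) + ∑ e ∈ Finset.Ico 3 M, h0 e := w4 M hM le_rfl
  have v3 : finrank ℂ ↥(V ⊓ Y.comap A ⊓ Y.comap C) ≤
      finrank ℂ ↥(Y ⊓ Y.comap A ⊓ Y.comap C) + ∑ e ∈ Finset.Ico 3 M, hi e := w5 M hM le_rfl
  have v4 : finrank ℂ ↥(Y ⊓ Y.comap A ⊓ Y.comap C) ≤ finrank ℂ ↥Y :=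
    Submodule.finrank_mono (inf_le_left.trans inf_le_left)
  have v5 := Submodule.finrank_mono w2
  have v6 := Submodule.finrank_mono w3
  have v7 : Y.map A ⊔ Y.map C ≤ Y ⊓ I := by
    refine sup_le ?_ ?_
    · rintro _ ⟨y, hy, rfl⟩
      exact ⟨hAF M y hy, Submodule.mem_sup_left ⟨y, hYV hy, rfl⟩⟩
    · rintro _ ⟨y, hy, rfl⟩
      exact ⟨hCF M y hy, Submodule.mem_sup_right ⟨y, hYV hy, rfl⟩⟩
  have v8 := sup_lip (Y ⊓ I) (Y.map A ⊔ Y.map C) (Y.map (1 - s 0)) v7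
  rw [Finset.sum_add_distrib]
  omega

end Pool.Agent.INV5
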