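import Pool.Agent.INV5.N3
import Pool.Agent.INV5.WO2

/-!
# INV5, module N5: words and homogeneous polynomial tuples

`pw n e w` is the tuple with the component `i` equal to `∑_q w (q, i) ∏ X_(q m)`, the sum over
`q : Fin e → Fin n`. The monomial of `q` is `monomial (∑ m, single (q m) 1) 1`, of degree `e`.
* `pw_surj`: for a multi-index `m` of degree `e` choose `q` with `∑ single (q j) 1 = m` and put the coefficient
  of `X ^ m` there; the rest has order `e + 1`.
* `pw_ker`: the coefficient of `X ^ m` of the component `i` of `pw w` is the sum of `w (q, i)` over the `q` with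
  `∑ single (q j) 1 = m`, and these `q` form one orbit of the symmetric group. So all these sums vanish, and
  a function on a transitive `G`-set with sum zero is a sum of functions `(1 - g) δ`.
* `pw_PW`: `PW σ e_q = e_(q ∘ ext σ)` has the same monomial and the same last letter.
* `pw_act`: `act M M' a = mv M (sb (linMap M') a)`, `X_j.subst (linMap M') = ∑ k, M' j k • X_k`
  (`subst_X_linMap`), products (`subst_mulC`), and the matrix of the letters of `GW e M` is
  `(M⁻¹)ᵀ k j = M' j k` for the covector letters and `M` for the last letter.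
* `finrank_OV`: `dim OVs 1 / OVs 3 ≤ n² + n³` (coefficients of degree `1` and `2`).
-/

namespace Pool.Agent.INV5

open Pool.Agent.RevMaps MvPowerSeries

variable (n e : ℕ)

section cnt

variable {n e : ℕ}

private noncomputable def cnt (q : Fin e → Fin n) : Fin n →₀ ℕ := ∑ m, Finsupp.single (q m) 1

private theorem cnt_degree (q : Fin e → Fin n) : (cnt q).degree = e := by
  simp [cnt, map_sum]

private theorem prod_X (q : Fin e → Fin n) : ∏ m, (X (q m) : PS n) = monomial (cnt q) 1 := by
  classical
  have h : ∀ s : Finset (Fin e), ∏ m ∈ s, (X (q m) : PS n) =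
      monomial (∑ m ∈ s, Finsupp.single (q m) 1) 1 := by
    intro s
    induction s using Finset.induction_on with
    | empty => simp
    | insert a s ha ih =>
      rw [Finset.prod_insert ha, ih, X_def, monomial_mul_monomial, one_mul,
        Finset.sum_insert ha]
  exact h Finset.univ

private theorem coeff_pw (w : (Fin (e + 1) → Fin n) → ℂ) (i : Fin n) (m : Fin n →₀ ℕ) :
    coeff m (pw n e w i) = ∑ q : Fin e → Fin n,
      if m = cnt q then w (Fin.snoc (α := fun _ => Fin n) q i) else 0 := by
  classical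
  show coeff m (∑ q : Fin e → Fin n, w (Fin.snoc (α := fun _ => Fin n) q i) •
    ∏ m, (X (q m) : PS n)) = _
  rw [map_sum]
  refine Finset.sum_congr rfl fun q _ => ?_
  rw [map_smul, prod_X, coeff_monomial]
  split_ifs <;> simp

private theorem exists_cnt (e : ℕ) : ∀ m : Fin n →₀ ℕ, m.degree = e →
    ∃ q : Fin e → Fin n, cnt q = m := by
  classical
  induction e with
  | zero =>
    intro m hm
    rw [Finsupp.degree_eq_zero_iff] at hm
    exact ⟨Fin.elim0, by simp [cnt, hm]⟩
  | succ e ih =>
    intro m hm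
    have h0 : m ≠ 0 := by
      rintro rfl
      simp at hm
    obtain ⟨j, hj⟩ := DFunLike.ne_iff.mp h0
    have hle : Finsupp.single j 1 ≤ m := by
      rw [Finsupp.single_le_iff]
      have : m j ≠ 0 := hj
      omega
    have h1 : m - Finsupp.single j 1 + Finsupp.single j 1 = m := tsub_add_cancel_of_le hle
    have h2 : (m - Finsupp.single j 1).degree = e := by
      have := congrArg Finsupp.degree h1
      rw [map_add, Finsupp.degree_single, hm] at this
      omega
    obtain ⟨q, hq⟩ := ih _ h2
    refine ⟨Fin.cons j q, ?_⟩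
    rw [cnt, Fin.sum_univ_succ]
    simp only [Fin.cons_zero, Fin.cons_succ]
    rw [← h1, ← hq, add_comm, cnt]

private theorem exists_perm (q q' : Fin e → Fin n) (h : cnt q = cnt q') :
    ∃ σ : Equiv.Perm (Fin e), q = q' ∘ σ := by
  classical
  have h1 : ∀ (q : Fin e → Fin n) (j : Fin n), cnt q j = Fintype.card {m // q m = j} := by
    intro q j
    rw [cnt, Finsupp.finsetSum_apply, Fintype.card_subtype, Finset.card_filter]
    refine Finset.sum_congr rfl fun m _ => ?_
    rw [Finsupp.single_apply]
  have h2 : ∀ j, Nonempty ({m // q m = j} ≃ {m // q' m = j}) := by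
    intro j
    rw [← Fintype.card_eq, ← h1, ← h1, h]
  let σ : Equiv.Perm (Fin e) := Equiv.ofFiberEquiv fun j => (h2 j).some
  refine ⟨σ, ?_⟩
  funext m
  exact (Equiv.ofFiberEquiv_map (fun j => (h2 j).some) m).symm

/-- representative of the class of a word -/
private noncomputable def sel (q : Fin e → Fin n) : Fin e → Fin n :=
  @Classical.epsilon _ ⟨q⟩ fun q' => cnt q' = cnt q

private theorem cnt_sel (q : Fin e → Fin n) : cnt (sel q) = cnt q :=
  @Classical.epsilon_spec _ (fun q' => cnt q' = cnt q) ⟨q, rfl⟩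

private theorem sel_congr {q q' : Fin e → Fin n} (h : cnt q = cnt q') : sel q = sel q' := by
  unfold sel
  rw [h]

private theorem sel_sel (q : Fin e → Fin n) : sel (sel q) = sel q := sel_congr (cnt_sel q)

private theorem PW_single (σ : Equiv.Perm (Fin e)) (r : Fin (e + 1) → Fin n) :
    (PW σ : Matrix (Fin (e + 1) → Fin n) (Fin (e + 1) → Fin n) ℂ).mulVec (Pi.single r 1) =
      Pi.single (fun m => r (ext σ m)) 1 := by
  classical
  rw [Matrix.mulVec_single_one]
  funext p
  show PW σ p r = _
  rw [PW, Pi.single_apply]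

private theorem sum_snoc {M : Type*} [AddCommMonoid M] (f : (Fin (e + 1) → Fin n) → M) :
    ∑ p, f p = ∑ i : Fin n, ∑ q : Fin e → Fin n, f (Fin.snoc (α := fun _ => Fin n) q i) := by
  rw [← (Fin.snocEquiv fun _ => Fin n).sum_comp, Fintype.sum_prod_type]
  rfl

private theorem snoc_ext (q : Fin e → Fin n) (i : Fin n) (σ : Equiv.Perm (Fin e)) :
    (fun m => (Fin.snoc (α := fun _ => Fin n) q i : Fin (e + 1) → Fin n) (ext σ m)) =
      Fin.snoc (α := fun _ => Fin n) (q ∘ σ) i := by
  funext m
  refine Fin.lastCases ?_ (fun j => ?_) m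
  · rw [ext_last, Fin.snoc_last, Fin.snoc_last]
  · rw [ext_castSucc, Fin.snoc_castSucc, Fin.snoc_castSucc]
    rfl

end cnt

theorem pw_OV (w : (Fin (e + 1) → Fin n) → ℂ) : OV e (pw n e w) := by
  intro i m hm
  rw [coeff_pw]
  refine Finset.sum_eq_zero fun q _ => ?_
  rw [if_neg]
  rintro rfl
  rw [cnt_degree] at hm
  exact lt_irrefl _ hm

theorem pw_surj (a : V n) (ha : OV e a) : ∃ w, OV (e + 1) (a - pw n e w) := by
  classical
  refine ⟨fun p => if sel (Fin.init (α := fun _ => Fin n) p) = Fin.init (α := fun _ => Fin n) p then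
    coeff (cnt (Fin.init (α := fun _ => Fin n) p)) (a (p (Fin.last e))) else 0, ?_⟩
  intro i m hm
  show coeff m (a i - pw n e _ i) = 0
  rw [map_sub]
  rcases Nat.lt_or_ge m.degree e with h | h
  · rw [ha i m h, pw_OV n e _ i m h, sub_zero]
  · have h4 : m.degree = e := by omega
    obtain ⟨q0, rfl⟩ := exists_cnt e m h4
    rw [coeff_pw, Finset.sum_eq_single (sel q0)]
    · rw [if_pos (cnt_sel q0).symm]
      simp only [Fin.init_snoc, Fin.snoc_last, sel_sel, if_true, cnt_sel, sub_self]
    · intro q _ hq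
      by_cases h1 : cnt q0 = cnt q
      · rw [if_pos h1]
        simp only [Fin.init_snoc, Fin.snoc_last]
        rw [if_neg]
        intro h2
        apply hq
        rw [← h2]
        exact sel_congr h1.symm
      · rw [if_neg h1]
    · intro h1
      exact absurd (Finset.mem_univ _) h1

theorem pw_ker (w : (Fin (e + 1) → Fin n) → ℂ) (h : OV (e + 1) (pw n e w)) :
    w ∈ ⨆ σ : Equiv.Perm (Fin e), LinearMap.range (1 - PW (X := Fin n) σ).mulVecLin := by
  classical
  set S := ⨆ σ : Equiv.Perm (Fin e), LinearMap.range (1 - PW (X := Fin n) σ).mulVecLin with hS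
  have h1 : ∀ (σ : Equiv.Perm (Fin e)) (r : Fin (e + 1) → Fin n),
      (Pi.single r 1 - Pi.single (fun m => r (ext σ m)) 1 : (Fin (e + 1) → Fin n) → ℂ) ∈ S := by
    intro σ r
    refine Submodule.mem_iSup_of_mem σ ⟨Pi.single r 1, ?_⟩
    rw [Matrix.mulVecLin_apply, Matrix.sub_mulVec, Matrix.one_mulVec, PW_single]
  have h2 : ∀ (q : Fin e → Fin n) (i : Fin n),
      (Pi.single (Fin.snoc (α := fun _ => Fin n) q i) 1 -
        Pi.single (Fin.snoc (α := fun _ => Fin n) (sel q) i) 1 : (Fin (e + 1) → Fin n) → ℂ) ∈ S := by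
    intro q i
    obtain ⟨σ, hσ⟩ := exists_perm (sel q) q (cnt_sel q)
    have h3 := h1 σ (Fin.snoc (α := fun _ => Fin n) q i)
    rw [snoc_ext, ← hσ] at h3
    exact h3
  have h3 : w = ∑ i : Fin n, ∑ q : Fin e → Fin n, w (Fin.snoc (α := fun _ => Fin n) q i) •
      (Pi.single (Fin.snoc (α := fun _ => Fin n) q i) 1 : (Fin (e + 1) → Fin n) → ℂ) := by
    rw [← sum_snoc (fun p => w p • (Pi.single p 1 : (Fin (e + 1) → Fin n) → ℂ))]
    funext r
    simp [Finset.sum_apply, Pi.single_apply]
  have h4 : ∑ i : Fin n, ∑ q : Fin e → Fin n, w (Fin.snoc (α := fun _ => Fin n) q i) •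
      (Pi.single (Fin.snoc (α := fun _ => Fin n) (sel q) i) 1 : (Fin (e + 1) → Fin n) → ℂ) = 0 := by
    funext r
    rw [Finset.sum_apply, Finset.sum_eq_single (r (Fin.last e)), Finset.sum_apply]
    · by_cases hr : sel (Fin.init (α := fun _ => Fin n) r) = Fin.init (α := fun _ => Fin n) r
      · have h5 := h (r (Fin.last e)) (cnt (Fin.init (α := fun _ => Fin n) r))
          (by rw [cnt_degree]; omega)
        rw [coeff_pw] at h5
        rw [Pi.zero_apply, ← h5]
        refine Finset.sum_congr rfl fun q _ => ?_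
        rw [Pi.smul_apply, Pi.single_apply]
        by_cases h6 : cnt (Fin.init (α := fun _ => Fin n) r) = cnt q
        · rw [if_pos h6, if_pos, smul_eq_mul, mul_one]
          rw [← sel_congr h6, hr, Fin.snoc_init_self]
        · rw [if_neg h6, if_neg, smul_zero]
          intro h7
          apply h6
          have h8 := congrArg (Fin.init (α := fun _ => Fin n)) h7
          rw [Fin.init_snoc] at h8
          rw [h8, cnt_sel]
      · refine Finset.sum_eq_zero fun q _ => ?_
        rw [Pi.smul_apply, Pi.single_apply, if_neg, smul_zero]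
        intro h7
        apply hr
        have h8 := congrArg (Fin.init (α := fun _ => Fin n)) h7
        rw [Fin.init_snoc] at h8
        rw [h8, sel_sel]
    · intro i _ hi
      rw [Finset.sum_apply]
      refine Finset.sum_eq_zero fun q _ => ?_
      rw [Pi.smul_apply, Pi.single_apply, if_neg, smul_zero]
      rintro rfl
      apply hi
      rw [Fin.snoc_last]
    · intro h5
      exact absurd (Finset.mem_univ _) h5
  have h5 : w = ∑ i : Fin n, ∑ q : Fin e → Fin n, w (Fin.snoc (α := fun _ => Fin n) q i) •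
      (Pi.single (Fin.snoc (α := fun _ => Fin n) q i) 1 -
        Pi.single (Fin.snoc (α := fun _ => Fin n) (sel q) i) 1 : (Fin (e + 1) → Fin n) → ℂ) := by
    simp only [smul_sub, Finset.sum_sub_distrib]
    rw [h4, sub_zero, ← h3]
  rw [h5]
  exact S.sum_mem fun i _ => S.sum_mem fun q _ => S.smul_mem _ (h2 q i)

theorem pw_PW (σ : Equiv.Perm (Fin e)) (w : (Fin (e + 1) → Fin n) → ℂ) :
    pw n e ((PW σ).mulVec w) = pw n e w := by
  classical
  funext i
  ext m
  rw [coeff_pw, coeff_pw]
  have h1 : ∀ q : Fin e → Fin n, ((PW σ).mulVec w) (Fin.snoc (α := fun _ => Fin n) (q ∘ σ) i) =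
      w (Fin.snoc (α := fun _ => Fin n) q i) := by
    intro q
    rw [Matrix.mulVec, dotProduct, Finset.sum_eq_single (Fin.snoc (α := fun _ => Fin n) q i)]
    · rw [PW, snoc_ext, if_pos rfl, one_mul]
    · intro p _ hp
      rw [PW, if_neg, zero_mul]
      intro h2
      apply hp
      funext m
      refine Fin.lastCases ?_ (fun j => ?_) m
      · have h3 := congrFun h2 (Fin.last e)
        rw [ext_last, Fin.snoc_last] at h3
        rw [Fin.snoc_last, h3]
      · have h3 := congrFun h2 (σ.symm j).castSucc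
        rw [ext_castSucc, Fin.snoc_castSucc, Function.comp_apply, Equiv.apply_symm_apply] at h3
        rw [Fin.snoc_castSucc, h3]
    · intro h2
      exact absurd (Finset.mem_univ _) h2
  have h2 : ∀ q : Fin e → Fin n, cnt (q ∘ σ) = cnt q := by
    intro q
    exact Equiv.sum_comp σ fun m => Finsupp.single (q m) 1
  rw [← (σ.symm.arrowCongr (Equiv.refl (Fin n))).sum_comp]
  refine Finset.sum_congr rfl fun q _ => ?_
  have h3 : (σ.symm.arrowCongr (Equiv.refl (Fin n))) q = q ∘ σ := rfl
  rw [h3, h1, h2]

private theorem subst_prodC {n : ℕ} (g : FMap n) {ι : Type*} (s : Finset ι) (f : ι → PS n) :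
    (∏ i ∈ s, f i).subst g.toFun = ∏ i ∈ s, (f i).subst g.toFun := by
  rw [← coe_substAlgHom (R := ℂ) g.hasSubst, map_prod]

theorem pw_act (M M' : Matrix (Fin n) (Fin n) ℂ) (h : M * M' = 1)
    (w : (Fin (e + 1) → Fin n) → ℂ) : act M M' (pw n e w) = pw n e ((GW e M).mulVec w) := by
  classical
  have hinv : M⁻¹ = M' := Matrix.inv_eq_right_inv h
  funext i
  have h1 : act M M' (pw n e w) i = ∑ j, M i j • ∑ q : Fin e → Fin n,
      w (Fin.snoc (α := fun _ => Fin n) q j) • ∑ r : Fin e → Fin n,
        (∏ m, M' (q m) (r m)) • ∏ m, (X (r m) : PS n) := by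
    show ∑ j, M i j • ((∑ q : Fin e → Fin n, w (Fin.snoc (α := fun _ => Fin n) q j) •
      ∏ m, (X (q m) : PS n)).subst (linMap M').toFun) = _
    refine Finset.sum_congr rfl fun j _ => ?_
    congr 1
    rw [subst_sumC]
    refine Finset.sum_congr rfl fun q _ => ?_
    rw [subst_smulC, subst_prodC]
    congr 1
    rw [Finset.prod_congr rfl fun m _ => subst_X_linMap M' (q m)]
    simp only [ell]
    rw [Finset.prod_univ_sum, Fintype.piFinset_univ]
    refine Finset.sum_congr rfl fun r _ => ?_
    rw [Finset.prod_smul]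
  have h2 : pw n e ((GW e M).mulVec w) i = ∑ r : Fin e → Fin n,
      (∑ j, ∑ q : Fin e → Fin n, (∏ m, M' (q m) (r m)) * M i j *
        w (Fin.snoc (α := fun _ => Fin n) q j)) • ∏ m, (X (r m) : PS n) := by
    show ∑ r : Fin e → Fin n, ((GW e M).mulVec w) (Fin.snoc (α := fun _ => Fin n) r i) •
      ∏ m, (X (r m) : PS n) = _
    refine Finset.sum_congr rfl fun r _ => ?_
    congr 1
    rw [Matrix.mulVec, dotProduct, sum_snoc]
    refine Finset.sum_congr rfl fun j _ => Finset.sum_congr rfl fun q _ => ?_
    congr 1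
    show ∏ m : Fin (e + 1), (if m = Fin.last e then M else Matrix.transpose (M⁻¹))
      (Fin.snoc (α := fun _ => Fin n) r i m) (Fin.snoc (α := fun _ => Fin n) q j m) = _
    rw [Fin.prod_univ_castSucc, hinv]
    congr 1
    · refine Finset.prod_congr rfl fun m _ => ?_
      rw [if_neg (Fin.castSucc_lt_last m).ne, Fin.snoc_castSucc, Fin.snoc_castSucc]
      rfl
    · rw [if_pos rfl, Fin.snoc_last, Fin.snoc_last]
  rw [h1, h2]
  simp only [Finset.smul_sum, Finset.sum_smul, smul_smul]
  have h3 : ∀ f : Fin n → (Fin e → Fin n) → (Fin e → Fin n) → PS n,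
      ∑ j, ∑ q, ∑ r, f j q r = ∑ r, ∑ j, ∑ q, f j q r := by
    intro f
    rw [Finset.sum_comm' (t' := Finset.univ) (s' := fun _ => Finset.univ)
      (f := fun r j => ∑ q, f j q r) (by simp)]
    refine Finset.sum_congr rfl fun j _ => ?_
    exact Finset.sum_comm
  rw [h3]
  refine Finset.sum_congr rfl fun r _ => Finset.sum_congr rfl fun j _ =>
    Finset.sum_congr rfl fun q _ => ?_
  congr 1
  ring

/-- the space `V n` modulo order `M + 1` is finite-dimensional -/
theorem finite_quot (M : ℕ) : FiniteDimensional ℂ (V n ⧸ OVs n (M + 1)) := by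
  classical
  have hfin : Finite {m : Fin n →₀ ℕ // m.degree ≤ M} := (Finsupp.finite_of_degree_le M).to_subtype
  let φ : V n →ₗ[ℂ] ({m : Fin n →₀ ℕ // m.degree ≤ M} × Fin n → ℂ) :=
    { toFun := fun a x => coeff x.1.1 (a x.2)
      map_add' := fun a b => by
        funext x
        simp
      map_smul' := fun c a => by
        funext x
        simp }
  have hker : LinearMap.ker φ = OVs n (M + 1) := by
    ext a
    rw [LinearMap.mem_ker]
    constructor
    · intro h i m hm
      exact congrFun h (⟨m, by omega⟩, i)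
    · intro h
      funext x
      exact h x.2 x.1.1 (by have := x.1.2; omega)
  rw [← hker]
  exact Module.Finite.equiv (LinearMap.quotKerEquivRange φ).symm

/-- coefficients of degree one and two -/
theorem finrank_OV : Module.finrank ℂ (↥(OVs n 1) ⧸ (OVs n 3).comap (OVs n 1).subtype) ≤
    n ^ 2 + n ^ 3 ∧ FiniteDimensional ℂ (↥(OVs n 1) ⧸ (OVs n 3).comap (OVs n 1).subtype) := by
  classical
  let φ : ↥(OVs n 1) →ₗ[ℂ] ((Fin 1 → Fin n) × Fin n → ℂ) × ((Fin 2 → Fin n) × Fin n → ℂ) :=
    { toFun := fun a => (fun x => coeff (cnt x.1) (a.1 x.2), fun x => coeff (cnt x.1) (a.1 x.2))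
      map_add' := fun a b => by
        ext x <;> simp
      map_smul' := fun c a => by
        ext x <;> simp }
  have hker : LinearMap.ker φ = (OVs n 3).comap (OVs n 1).subtype := by
    ext a
    rw [LinearMap.mem_ker, Submodule.mem_comap]
    constructor
    · intro h i m hm
      show coeff m (a.1 i) = 0
      have h1 : ∀ q : Fin 1 → Fin n, coeff (cnt q) (a.1 i) = 0 := fun q =>
        congrFun (congrArg Prod.fst h) (q, i)
      have h2 : ∀ q : Fin 2 → Fin n, coeff (cnt q) (a.1 i) = 0 := fun q =>
        congrFun (congrArg Prod.snd h) (q, i)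
      have h3 : m.degree = 0 ∨ m.degree = 1 ∨ m.degree = 2 := by omega
      rcases h3 with h3 | h3 | h3
      · exact a.2 i m (by omega)
      · obtain ⟨q, rfl⟩ := exists_cnt 1 m h3
        exact h1 q
      · obtain ⟨q, rfl⟩ := exists_cnt 2 m h3
        exact h2 q
    · intro h
      have h' : OV 3 a.1 := h
      refine Prod.ext ?_ ?_
      · funext x
        exact h' x.2 _ (by rw [cnt_degree]; omega)
      · funext x
        exact h' x.2 _ (by rw [cnt_degree]; omega)
  rw [← hker]
  refine ⟨?_, Module.Finite.equiv (LinearMap.quotKerEquivRange φ).symm⟩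
  rw [(LinearMap.quotKerEquivRange φ).finrank_eq]
  refine (Submodule.finrank_le _).trans ?_
  rw [Module.finrank_prod, Module.finrank_fintype_fun_eq_card, Module.finrank_fintype_fun_eq_card]
  simp only [Fintype.card_prod, Fintype.card_fun, Fintype.card_fin]
  apply le_of_eq
  ring

end Pool.Agent.INV5
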