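import Pool.Agent.INV5.SY

/-!
# INV5, module NO1: Hölder inequality for tuples of blocks of total label one

Write `S(u_1, ..., u_N) = ∑_{α, ∏ χ = 1} ∏ u_m (α m)`. It is the coefficient at `1` of the product of
the elements `F u = ∑_a u a δ_(χ a)` of the group algebra of the commutative group `Lam`
(`MonoidAlgebra ℝ Lam`, or work with finitely supported functions on `Lam`, or directly with sums over
tuples). If all `u_m` are symmetric (`Sy`) then `F u` is invariant under `μ ↦ μ⁻¹`, so the label of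
any letter may be replaced by its inverse (first remark), and the coefficient at `1` of `F G`, with
`F, G` symmetric, is `∑_μ F μ * G μ`. Products of symmetric elements are symmetric. By Cauchy-Schwarz
`(F G)(1) ^ 2 ≤ (F F)(1) (G G)(1)`. For eight factors: with `G_i = F_i * F_i`,
`(F_1 ⋯ F_8)(1) ^ 2 ≤ (F_1²F_2²F_3²F_4²)(1) (F_5²⋯F_8²)(1)`,
`(F_1²F_2²F_3²F_4²)(1) ^ 2 ≤ (F_1⁴F_2⁴)(1) (F_3⁴F_4⁴)(1)`, `(F_1⁴F_2⁴)(1) ^ 2 ≤ (F_1⁸)(1) (F_2⁸)(1)`.
Hence `(F_1 ⋯ F_8)(1) ≤ ∏ (F_i⁸)(1) ^ (1/8)`. For `N ≤ 8` factors take the remaining factors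
`δ_1` (they have norm one; they need not come from a weight, so do the general inequality in the group
algebra). Labels: for every letter `m` the label `c m a` is `χ a` for all `a`, or `(χ a)⁻¹` for all `a`.

`nrm_add`: expand `(F + G) ^ 8` by the binomial theorem and use Hölder for `k` factors `F` and `8 - k`
factors `G`. `nrm_real`: if `μ ^ 2 = 1` and `k` blocks have the character `μ` and weight one, then all
tuples have total character `μ ^ 8 = 1`, so the sum is `k ^ 8`.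
-/

namespace Pool.Agent.INV5.JD

/-- the group algebra -/
private abbrev GA : Type := MonoidAlgebra ℝ Lam

private noncomputable def cf (x : GA) : ℝ := x.coeff 1

private noncomputable def sv : GA →ₐ[ℝ] GA :=
  MonoidAlgebra.mapDomainAlgHom ℝ ℝ (invMonoidHom : Lam →* Lam)

private theorem sv_single (μ : Lam) (r : ℝ) :
    sv (MonoidAlgebra.single μ r) = MonoidAlgebra.single μ⁻¹ r :=
  MonoidAlgebra.mapDomain_single

private theorem cf_add (x y : GA) : cf (x + y) = cf x + cf y := rfl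

private theorem cf_smul (r : ℝ) (x : GA) : cf (r • x) = r * cf x := rfl

private theorem cf_sum {ι : Type*} (s : Finset ι) (x : ι → GA) :
    cf (∑ i ∈ s, x i) = ∑ i ∈ s, cf (x i) := by
  unfold cf
  rw [MonoidAlgebra.coeff_sum, Finsupp.finsetSum_apply]

private theorem cf_single (μ : Lam) (r : ℝ) [Decidable (μ = 1)] :
    cf (MonoidAlgebra.single μ r) = if μ = 1 then r else 0 := by
  unfold cf
  rw [MonoidAlgebra.coeff_single, Finsupp.single_apply]

private theorem sv_coeff (x : GA) (μ : Lam) : (sv x).coeff μ⁻¹ = x.coeff μ := by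
  classical
  induction x using MonoidAlgebra.induction_linear with
  | zero => rw [map_zero]; rfl
  | add x y hx hy =>
    rw [map_add, MonoidAlgebra.coeff_add, MonoidAlgebra.coeff_add, Finsupp.add_apply,
      Finsupp.add_apply, hx, hy]
  | single ν r =>
    rw [sv_single, MonoidAlgebra.coeff_single, MonoidAlgebra.coeff_single, Finsupp.single_apply,
      Finsupp.single_apply]
    simp only [inv_inj]

private theorem cf_mul_sv (x : GA) : 0 ≤ cf (x * sv x) := by
  unfold cf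
  rw [MonoidAlgebra.coeff_mul_apply_left]
  refine Finset.sum_nonneg fun h _ => ?_
  change 0 ≤ x.coeff h * (sv x).coeff (h⁻¹ * 1)
  rw [mul_one, sv_coeff]
  exact mul_self_nonneg _

private theorem cs (x y : GA) (hx : sv x = x) (hy : sv y = y) :
    cf (x * y) ^ 2 ≤ cf (x * x) * cf (y * y) := by
  have h1 : ∀ t : ℝ, 0 ≤ cf (y * y) * (t * t) + (2 * cf (x * y)) * t + cf (x * x) := by
    intro t
    have h2 := cf_mul_sv (x + t • y)
    have h3 : sv (x + t • y) = x + t • y := by rw [map_add, map_smul, hx, hy]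
    have h4 : (x + t • y) * (x + t • y) = x * x + (2 * t) • (x * y) + (t * t) • (y * y) := by
      rw [mul_add, add_mul, add_mul, smul_mul_assoc, mul_smul_comm, smul_mul_assoc, mul_smul_comm,
        smul_smul, mul_comm y x, two_mul, add_smul]
      abel
    rw [h3, h4, cf_add, cf_add, cf_smul, cf_smul] at h2
    linarith
  have h5 := discrim_le_zero h1
  unfold discrim at h5
  nlinarith

private theorem cs' (x y : GA) (hx : sv x = x) (hy : sv y = y) {p q : ℝ} (hp : 0 ≤ p) (hq : 0 ≤ q)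
    (h1 : cf (x * x) ≤ p ^ 2) (h2 : cf (y * y) ≤ q ^ 2) : cf (x * y) ≤ p * q := by
  have h3 := cs x y hx hy
  have h4 : 0 ≤ cf (y * y) := by
    have := cf_mul_sv y
    rwa [hy] at this
  have h5 : cf (x * y) ^ 2 ≤ (p * q) ^ 2 := by
    rw [mul_pow]
    exact h3.trans (mul_le_mul h1 h2 h4 (by positivity))
  exact (abs_le_of_sq_le_sq' h5 (by positivity)).2

private theorem two (x y : GA) (hx : sv x = x) (hy : sv y = y) {p q : ℝ} (hp : 0 ≤ p)
    (hq : 0 ≤ q) (h1 : cf (x ^ 8) ≤ p ^ 8) (h2 : cf (y ^ 8) ≤ q ^ 8) :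
    cf ((x ^ 2 * y ^ 2) * (x ^ 2 * y ^ 2)) ≤ (p ^ 2 * q ^ 2) ^ 2 := by
  have e1 : (x ^ 2 * y ^ 2) * (x ^ 2 * y ^ 2) = x ^ 4 * y ^ 4 := by ring
  have e2 : (p ^ 2 * q ^ 2) ^ 2 = p ^ 4 * q ^ 4 := by ring
  rw [e1, e2]
  refine cs' _ _ ?_ ?_ (by positivity) (by positivity) ?_ ?_
  · rw [map_pow, hx]
  · rw [map_pow, hy]
  · have e3 : x ^ 4 * x ^ 4 = x ^ 8 := by ring
    have e4 : (p ^ 4) ^ 2 = p ^ 8 := by ring
    rw [e3, e4]
    exact h1
  · have e3 : y ^ 4 * y ^ 4 = y ^ 8 := by ring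
    have e4 : (q ^ 4) ^ 2 = q ^ 8 := by ring
    rw [e3, e4]
    exact h2

/-- a symmetric element with a bound for its norm -/
private def Bd (x : GA) (p : ℝ) : Prop := sv x = x ∧ 0 ≤ p ∧ cf (x ^ 8) ≤ p ^ 8

private theorem four {x y z w : GA} {p q r s : ℝ} (hx : Bd x p) (hy : Bd y q) (hz : Bd z r)
    (hw : Bd w s) :
    cf ((x * y * z * w) * (x * y * z * w)) ≤ (p * q * r * s) ^ 2 := by
  have e1 : (x * y * z * w) * (x * y * z * w) = (x ^ 2 * y ^ 2) * (z ^ 2 * w ^ 2) := by ring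
  have e2 : (p * q * r * s) ^ 2 = (p ^ 2 * q ^ 2) * (r ^ 2 * s ^ 2) := by ring
  rw [e1, e2]
  obtain ⟨hx1, hx2, hx3⟩ := hx
  obtain ⟨hy1, hy2, hy3⟩ := hy
  obtain ⟨hz1, hz2, hz3⟩ := hz
  obtain ⟨hw1, hw2, hw3⟩ := hw
  refine cs' _ _ ?_ ?_ (by positivity) (by positivity) (two x y hx1 hy1 hx2 hy2 hx3 hy3)
    (two z w hz1 hw1 hz2 hw2 hz3 hw3)
  · rw [map_mul, map_pow, map_pow, hx1, hy1]
  · rw [map_mul, map_pow, map_pow, hz1, hw1]

private theorem eightv {x y z w x' y' z' w' : GA} {p q r s p' q' r' s' : ℝ} (hx : Bd x p)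
    (hy : Bd y q) (hz : Bd z r) (hw : Bd w s) (hx' : Bd x' p')
    (hy' : Bd y' q') (hz' : Bd z' r') (hw' : Bd w' s') :
    cf ((x * y * z * w) * (x' * y' * z' * w')) ≤ (p * q * r * s) * (p' * q' * r' * s') := by
  have h1 := four hx hy hz hw
  have h2 := four hx' hy' hz' hw'
  have a1 := hx.2.1
  have a2 := hy.2.1
  have a3 := hz.2.1
  have a4 := hw.2.1
  have b1 := hx'.2.1
  have b2 := hy'.2.1
  have b3 := hz'.2.1
  have b4 := hw'.2.1
  refine cs' _ _ ?_ ?_ (by positivity) (by positivity) h1 h2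
  · rw [map_mul, map_mul, map_mul, hx.1, hy.1, hz.1, hw.1]
  · rw [map_mul, map_mul, map_mul, hx'.1, hy'.1, hz'.1, hw'.1]

private theorem eight (F : Fin 8 → GA) (hF : ∀ i, sv (F i) = F i) (a : Fin 8 → ℝ)
    (ha : ∀ i, 0 ≤ a i) (h : ∀ i, cf (F i ^ 8) ≤ a i ^ 8) : cf (∏ i, F i) ≤ ∏ i, a i := by
  have hB : ∀ i, Bd (F i) (a i) := fun i => ⟨hF i, ha i, h i⟩
  have key := eightv (hB 0) (hB 1) (hB 2) (hB 3) (hB 4) (hB 5) (hB 6) (hB 7)
  rw [Fin.prod_univ_eight, Fin.prod_univ_eight]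
  have e1 : F 0 * F 1 * F 2 * F 3 * F 4 * F 5 * F 6 * F 7 =
      (F 0 * F 1 * F 2 * F 3) * (F 4 * F 5 * F 6 * F 7) := by ring
  have e2 : a 0 * a 1 * a 2 * a 3 * a 4 * a 5 * a 6 * a 7 =
      (a 0 * a 1 * a 2 * a 3) * (a 4 * a 5 * a 6 * a 7) := by ring
  rw [e1, e2]
  exact key

private theorem eight_one (x y : GA) (hx : sv x = x) (hy : sv y = y) {p q : ℝ} (hp : 0 ≤ p)
    (hq : 0 ≤ q) (h1 : cf (x ^ 8) ≤ p ^ 8) (h2 : cf (y ^ 8) ≤ q ^ 8) :
    cf (x * y ^ 7) ≤ p * q ^ 7 := by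
  have hB : Bd x p := ⟨hx, hp, h1⟩
  have hC : Bd y q := ⟨hy, hq, h2⟩
  have key := eightv hB hC hC hC hC hC hC hC
  have e1 : x * y ^ 7 = (x * y * y * y) * (y * y * y * y) := by ring
  have e2 : p * q ^ 7 = (p * q * q * q) * (q * q * q * q) := by ring
  rw [e1, e2]
  exact key

private theorem eight' {N : ℕ} (hN : N = 8) (F : Fin N → GA) (hF : ∀ i, sv (F i) = F i)
    (a : Fin N → ℝ) (ha : ∀ i, 0 ≤ a i) (h : ∀ i, cf (F i ^ 8) ≤ a i ^ 8) :
    cf (∏ i, F i) ≤ ∏ i, a i := by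
  subst hN
  exact eight F hF a ha h

private theorem le_eight {N : ℕ} (hN : N ≤ 8) (F : Fin N → GA) (hF : ∀ i, sv (F i) = F i)
    (a : Fin N → ℝ) (ha : ∀ i, 0 ≤ a i) (h : ∀ i, cf (F i ^ 8) ≤ a i ^ 8) :
    cf (∏ i, F i) ≤ ∏ i, a i := by
  classical
  obtain ⟨k, hk⟩ := Nat.exists_eq_add_of_le hN
  have h1 := eight' (N := N + k) hk.symm (Fin.append F (fun _ => 1)) (fun i => by
    refine Fin.addCases (fun j => ?_) (fun j => ?_) i
    · rw [Fin.append_left, hF]
    · rw [Fin.append_right, map_one]) (Fin.append a (fun _ => 1)) (fun i => by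
    refine Fin.addCases (fun j => ?_) (fun j => ?_) i
    · rw [Fin.append_left]
      exact ha j
    · rw [Fin.append_right]
      exact zero_le_one) (fun i => by
    refine Fin.addCases (fun j => ?_) (fun j => ?_) i
    · rw [Fin.append_left, Fin.append_left]
      exact h j
    · rw [Fin.append_right, Fin.append_right, one_pow, one_pow, MonoidAlgebra.one_def, cf_single,
        if_pos rfl])
  rw [Fin.prod_univ_add, Fin.prod_univ_add] at h1
  simp only [Fin.append_left, Fin.append_right, Finset.prod_const_one, mul_one] at h1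
  exact h1

variable (D : JD)

private noncomputable def Fu (u : D.β → ℝ) : GA := ∑ a, MonoidAlgebra.single (D.χ a) (u a)

private theorem Fu_coeff (u : D.β → ℝ) (μ : Lam) :
    (D.Fu u).coeff μ = ∑ a with D.χ a = μ, u a := by
  unfold Fu
  rw [MonoidAlgebra.coeff_sum, Finsupp.finsetSum_apply, Finset.sum_filter]
  refine Finset.sum_congr rfl fun a _ => ?_
  rw [MonoidAlgebra.coeff_single, Finsupp.single_apply]

private theorem Fu_sv (u : D.β → ℝ) (h : D.Sy u) : sv (D.Fu u) = D.Fu u := by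
  rw [← MonoidAlgebra.coeff_inj]
  ext μ
  have h1 := sv_coeff (D.Fu u) μ⁻¹
  rw [inv_inv] at h1
  rw [h1, Fu_coeff, Fu_coeff]
  exact (h μ).symm

private theorem expand {N : ℕ} (c : Fin N → D.β → Lam) (u : Fin N → D.β → ℝ) :
    cf (∏ m, ∑ a, MonoidAlgebra.single (c m a) (u m a)) = ∑ α : Tup c, ∏ m, u m (α.1 m) := by
  classical
  rw [Finset.prod_univ_sum, Fintype.piFinset_univ, cf_sum]
  have h1 : ∀ α : Fin N → D.β, cf (∏ m, MonoidAlgebra.single (c m (α m)) (u m (α m))) =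
      if ∏ m, c m (α m) = 1 then ∏ m, u m (α m) else 0 := by
    intro α
    rw [MonoidAlgebra.prod_single, cf_single]
  rw [Finset.sum_congr rfl fun α _ => h1 α, ← Finset.sum_filter]
  exact Finset.sum_subtype _ (fun α => by rw [Finset.mem_filter]; simp) _

private theorem nrm_eq (u : D.β → ℝ) : D.nrm u = (cf (D.Fu u ^ 8)) ^ ((1 : ℝ) / 8) := by
  have h1 := D.expand (N := 8) (fun _ a => D.χ a) (fun _ a => u a)
  rw [Finset.prod_const, Finset.card_univ, Fintype.card_fin] at h1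
  unfold nrm Fu
  rw [h1]

private theorem cf_nonneg (u : D.β → ℝ) (h : ∀ a, 0 ≤ u a) : 0 ≤ cf (D.Fu u ^ 8) := by
  have h1 := D.expand (N := 8) (fun _ a => D.χ a) (fun _ a => u a)
  rw [Finset.prod_const, Finset.card_univ, Fintype.card_fin] at h1
  unfold Fu
  rw [h1]
  exact Finset.sum_nonneg fun α _ => Finset.prod_nonneg fun m _ => h _

private theorem nrm_pow (u : D.β → ℝ) (h : ∀ a, 0 ≤ u a) : D.nrm u ^ 8 = cf (D.Fu u ^ 8) := by
  rw [nrm_eq, ← Real.rpow_natCast, ← Real.rpow_mul (D.cf_nonneg u h)]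
  norm_num

theorem nrm_nonneg (u : D.β → ℝ) (h : ∀ a, 0 ≤ u a) : 0 ≤ D.nrm u := by
  rw [nrm_eq]
  exact Real.rpow_nonneg (D.cf_nonneg u h) _

theorem nrm_mono (u v : D.β → ℝ) (h : ∀ a, 0 ≤ u a) (h' : ∀ a, u a ≤ v a) : D.nrm u ≤ D.nrm v := by
  unfold nrm
  refine Real.rpow_le_rpow ?_ ?_ (by norm_num)
  · exact Finset.sum_nonneg fun α _ => Finset.prod_nonneg fun m _ => h _
  · exact Finset.sum_le_sum fun α _ => Finset.prod_le_prod (fun m _ => h _) fun m _ => h' _

theorem nrm_smul (u : D.β → ℝ) (h : ∀ a, 0 ≤ u a) (r : ℝ) (hr : 0 ≤ r) :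
    D.nrm (fun a => r * u a) = r * D.nrm u := by
  have h1 : D.Fu (fun a => r * u a) = r • D.Fu u := by
    unfold Fu
    rw [Finset.smul_sum]
    refine Finset.sum_congr rfl fun a _ => ?_
    rw [MonoidAlgebra.smul_single, smul_eq_mul]
  rw [nrm_eq, nrm_eq, h1, smul_pow, cf_smul, Real.mul_rpow (by positivity) (D.cf_nonneg u h)]
  congr 1
  rw [← Real.rpow_natCast, ← Real.rpow_mul hr]
  norm_num

/-- **Hölder inequality** -/
theorem holder {N : ℕ} (hN : N ≤ 8) (c : Fin N → D.β → Lam)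
    (hc : ∀ m, (∀ a, c m a = D.χ a) ∨ ∀ a, c m a = (D.χ a)⁻¹) (u : Fin N → D.β → ℝ)
    (h0 : ∀ m a, 0 ≤ u m a) (hs : ∀ m, D.Sy (u m)) :
    ∑ α : Tup c, ∏ m, u m (α.1 m) ≤ ∏ m, D.nrm (u m) := by
  have h1 : ∀ m, ∑ a, MonoidAlgebra.single (c m a) (u m a) = D.Fu (u m) := by
    intro m
    rcases hc m with h | h
    · unfold Fu
      exact Finset.sum_congr rfl fun a _ => by rw [h]
    · rw [← D.Fu_sv (u m) (hs m)]
      unfold Fu
      rw [map_sum]
      exact Finset.sum_congr rfl fun a _ => by rw [h, sv_single]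
  rw [← D.expand c u, Finset.prod_congr rfl fun m _ => h1 m]
  exact le_eight hN _ (fun m => D.Fu_sv _ (hs m)) _ (fun m => D.nrm_nonneg _ (h0 m))
    fun m => (D.nrm_pow _ (h0 m)).ge

private theorem sy_add {u v : D.β → ℝ} (hu : D.Sy u) (hv : D.Sy v) :
    D.Sy fun a => u a + v a := by
  intro μ
  rw [Finset.sum_add_distrib, Finset.sum_add_distrib, hu μ, hv μ]

private theorem sy_sum {ι : Type} (s : Finset ι) (u : ι → D.β → ℝ) (hs : ∀ i ∈ s, D.Sy (u i)) :
    D.Sy fun a => ∑ i ∈ s, u i a := by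
  intro μ
  rw [Finset.sum_comm, Finset.sum_comm (s := Finset.univ.filter fun a => D.χ a = μ⁻¹)]
  exact Finset.sum_congr rfl fun i hi => hs i hi μ

theorem nrm_add (u v : D.β → ℝ) (hu : ∀ a, 0 ≤ u a) (hv : ∀ a, 0 ≤ v a) (hsu : D.Sy u)
    (hsv : D.Sy v) : D.nrm (fun a => u a + v a) ≤ D.nrm u + D.nrm v := by
  obtain ⟨s, hs⟩ : ∃ s, s = D.nrm (fun a => u a + v a) := ⟨_, rfl⟩
  have huv : ∀ a, 0 ≤ u a + v a := fun a => add_nonneg (hu a) (hv a)
  have hs0 : 0 ≤ s := hs ▸ D.nrm_nonneg _ huv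
  have hsym := D.sy_add hsu hsv
  have hF : D.Fu (fun a => u a + v a) = D.Fu u + D.Fu v := by
    unfold Fu
    rw [← Finset.sum_add_distrib]
    exact Finset.sum_congr rfl fun a _ => MonoidAlgebra.single_add _ _ _
  have key : ∀ w : D.β → ℝ, (∀ a, 0 ≤ w a) → D.Sy w →
      cf (D.Fu w * D.Fu (fun a => u a + v a) ^ 7) ≤ D.nrm w * s ^ 7 := by
    intro w hw hsw
    refine eight_one _ _ (D.Fu_sv w hsw) (D.Fu_sv _ hsym) (D.nrm_nonneg w hw) hs0
      (D.nrm_pow w hw).ge ?_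
    rw [hs]
    exact (D.nrm_pow _ huv).ge
  have h1 := key u hu hsu
  have h2 := key v hv hsv
  have h3 : s ^ 8 ≤ (D.nrm u + D.nrm v) * s ^ 7 := by
    have h4 : s ^ 8 = cf (D.Fu u * D.Fu (fun a => u a + v a) ^ 7) +
        cf (D.Fu v * D.Fu (fun a => u a + v a) ^ 7) := by
      rw [← cf_add, ← add_mul, ← hF, ← pow_succ', hs]
      exact D.nrm_pow _ huv
    rw [h4, add_mul]
    exact add_le_add h1 h2
  rw [← hs]
  rcases hs0.eq_or_lt with h0 | h0
  · rw [← h0]
    exact add_nonneg (D.nrm_nonneg u hu) (D.nrm_nonneg v hv)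
  · have h5 : s * s ^ 7 ≤ (D.nrm u + D.nrm v) * s ^ 7 := by
      rw [← pow_succ']
      exact h3
    exact le_of_mul_le_mul_right h5 (by positivity)

theorem nrm_sum {ι : Type} (s : Finset ι) (u : ι → D.β → ℝ) (hu : ∀ i ∈ s, ∀ a, 0 ≤ u i a)
    (hs : ∀ i ∈ s, D.Sy (u i)) : D.nrm (fun a => ∑ i ∈ s, u i a) ≤ ∑ i ∈ s, D.nrm (u i) := by
  classical
  induction s using Finset.induction_on with
  | empty =>
    simp only [Finset.sum_empty]
    have h1 := D.nrm_smul (fun _ => 0) (fun _ => le_rfl) 0 le_rfl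
    simp only [zero_mul] at h1
    exact h1.le
  | insert i s hi ih =>
    rw [Finset.sum_insert hi]
    simp only [Finset.sum_insert hi]
    refine (D.nrm_add (u i) (fun a => ∑ i ∈ s, u i a) (hu i (Finset.mem_insert_self _ _))
      (fun a => Finset.sum_nonneg fun j hj => hu j (Finset.mem_insert_of_mem hj) a)
      (hs i (Finset.mem_insert_self _ _))
      (D.sy_sum s u fun j hj => hs j (Finset.mem_insert_of_mem hj))).trans ?_
    exact add_le_add le_rfl (ih (fun j hj => hu j (Finset.mem_insert_of_mem hj))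
      fun j hj => hs j (Finset.mem_insert_of_mem hj))

theorem nrm_real (μ : Lam) (hμ : μ ^ 2 = 1) (q : D.β → Prop) [DecidablePred q] :
    D.nrm (fun a => if D.χ a = μ ∧ q a then 1 else 0) =
      ((Finset.univ.filter fun a => D.χ a = μ ∧ q a).card : ℝ) := by
  obtain ⟨k, hk⟩ : ∃ k : ℝ, k = ((Finset.univ.filter fun a => D.χ a = μ ∧ q a).card : ℝ) :=
    ⟨_, rfl⟩
  have h1 : D.Fu (fun a => if D.χ a = μ ∧ q a then 1 else 0) = MonoidAlgebra.single μ k := by
    rw [hk, Finset.card_eq_sum_ones, Nat.cast_sum, Finset.sum_filter]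
    unfold Fu
    have h2 : ∀ s : Finset D.β, ∑ a ∈ s, MonoidAlgebra.single (D.χ a)
        (if D.χ a = μ ∧ q a then (1 : ℝ) else 0) = MonoidAlgebra.single μ
        (∑ a ∈ s, if D.χ a = μ ∧ q a then ((1 : ℕ) : ℝ) else 0) := by
      intro s
      classical
      induction s using Finset.induction_on with
      | empty => rw [Finset.sum_empty, Finset.sum_empty, MonoidAlgebra.single_zero]
      | insert a s ha ih =>
        rw [Finset.sum_insert ha, Finset.sum_insert ha, ih, MonoidAlgebra.single_add]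
        congr 1
        split_ifs with h3
        · rw [h3.1, Nat.cast_one]
        · rw [MonoidAlgebra.single_zero, MonoidAlgebra.single_zero]
    exact h2 _
  have hk0 : 0 ≤ k := by rw [hk]; positivity
  rw [nrm_eq, h1, ← hk, MonoidAlgebra.single_pow]
  have h3 : μ ^ 8 = 1 := by
    have : μ ^ 8 = (μ ^ 2) ^ 4 := by rw [← pow_mul]
    rw [this, hμ, one_pow]
  classical
  rw [h3, cf_single, if_pos rfl, ← Real.rpow_natCast, ← Real.rpow_mul hk0]
  norm_num

end Pool.Agent.INV5.JD
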