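import Pool.Agent.INV5.NO1

/-!
# INV5, module NO2: the norms of the size classes

`nrm_class`: `nrm (1_{log₂ b = i}) ^ 8 = tau i` by definition, and `2 ^ (6 i) tau i ≤ AA`
(`Finset.le_sup`; if `i > n` then `tau i = 0` since `b a ≤ n < 2 ^ n`; an empty index set of tuples
needs `0 < 8`). Hence `nrm ≤ AA ^ (1/8) * 2 ^ (-3 i / 4)`.
`tau_pos_le`: if some block has `log₂ b = i` then `2 ^ (6 i) ≤ AA`: by `count_symm` there is a block
with the inverse character in the same class, so four pairs of them are a tuple counted by `tau i`.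
`nw_le`: `w (b a) ≤ ∑_i W i 1_{log₂ (b a) = i}` where only the `i` with `2 ^ (6 i) ≤ AA` are needed,
then `nrm_mono`, `nrm_sum`, `nrm_smul`, `nrm_class`. The weights are symmetric by `sy_size`.
`class_card`: the number `k` of blocks in the class `i` satisfies `k ^ 4 ≤ tau i`: by `count_symm` there
is an involution-like map (a permutation `π` of the blocks with `b (π a) = b a`,
`χ (π a) = (χ a)⁻¹`); the tuples `(a_1, π a_1, ..., a_4, π a_4)` are different for different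
`(a_1, ..., a_4)`.
`n_le`: `n = ∑ b a ≤ ∑_i 2 ^ (i + 1) k_i` and `k_i ≤ AA ^ (1/4) 2 ^ (-3 i / 2)`.
-/

namespace Pool.Agent.INV5.JD

variable (D : JD)

theorem b_le (a : D.β) : D.b a ≤ D.n := by
  unfold n
  rw [Fintype.card_sigma]
  simp only [Fintype.card_fin]
  exact Finset.single_le_sum (f := fun a => D.b a) (fun _ _ => Nat.zero_le _) (Finset.mem_univ a)

private theorem n_eq : D.n = ∑ a, D.b a := by
  unfold n
  rw [Fintype.card_sigma]
  simp only [Fintype.card_fin]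

private theorem no2_tau_eq (i : ℕ) : ∑ α : {α : Fin 8 → D.β // ∏ m, D.χ (α m) = 1},
    ∏ m, (if Nat.log 2 (D.b (α.1 m)) = i then (1 : ℝ) else 0) = (D.tau i : ℝ) := by
  have h1 : ∀ α : {α : Fin 8 → D.β // ∏ m, D.χ (α m) = 1},
      ∏ m, (if Nat.log 2 (D.b (α.1 m)) = i then (1 : ℝ) else 0) =
        if ∀ m, Nat.log 2 (D.b (α.1 m)) = i then (1 : ℝ) else 0 := by
    intro α
    rw [Finset.prod_boole]
    simp
  rw [Finset.sum_congr rfl fun α _ => h1 α, Finset.sum_boole]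
  unfold tau
  rw [← Fintype.card_subtype]
  congr 1
  exact Fintype.card_congr ⟨fun x => ⟨x.1.1, x.2, x.1.2⟩, fun x => ⟨⟨x.1, x.2.2⟩, x.2.1⟩,
    fun _ => rfl, fun _ => rfl⟩

private theorem no2_log_le_n (a : D.β) : Nat.log 2 (D.b a) < D.n + 1 := by
  have h1 := D.b_le a
  have h2 := Nat.log_le_self 2 (D.b a)
  omega

private theorem no2_tau_le (i : ℕ) : 2 ^ (6 * i) * D.tau i ≤ D.AA := by
  by_cases hi : i < D.n + 1
  · exact Finset.le_sup (f := fun i => 2 ^ (6 * i) * D.tau i) (Finset.mem_range.2 hi)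
  · have h0 : D.tau i = 0 := by
      unfold tau
      rw [Fintype.card_eq_zero_iff]
      refine ⟨fun α => ?_⟩
      have h1 := α.2.1 0
      have h2 := D.no2_log_le_n (α.1 0)
      omega
    rw [h0, mul_zero]
    exact Nat.zero_le _

private theorem no2_tau_le' (i : ℕ) : (D.tau i : ℝ) ≤ (D.AA : ℝ) * (2 : ℝ) ^ (-(6 : ℝ) * i) := by
  have h1 : ((2 : ℝ) ^ (6 * i)) * D.tau i ≤ D.AA := by exact_mod_cast D.no2_tau_le i
  have h2 : (2 : ℝ) ^ (-(6 : ℝ) * i) * (2 : ℝ) ^ (6 * i) = 1 := by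
    rw [← Real.rpow_natCast, ← Real.rpow_add (by norm_num)]
    push_cast
    rw [show -(6 : ℝ) * i + 6 * i = 0 by ring, Real.rpow_zero]
  have h3 : (0 : ℝ) ≤ (2 : ℝ) ^ (-(6 : ℝ) * i) := Real.rpow_nonneg (by norm_num) _
  calc (D.tau i : ℝ) = ((2 : ℝ) ^ (-(6 : ℝ) * i) * (2 : ℝ) ^ (6 * i)) * D.tau i := by
        rw [h2, one_mul]
    _ = ((2 : ℝ) ^ (6 * i) * D.tau i) * (2 : ℝ) ^ (-(6 : ℝ) * i) := by ring
    _ ≤ (D.AA : ℝ) * (2 : ℝ) ^ (-(6 : ℝ) * i) := mul_le_mul_of_nonneg_right h1 h3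

theorem nrm_class (i : ℕ) :
    D.nw (fun b => if Nat.log 2 b = i then 1 else 0) ≤
      (D.AA : ℝ) ^ ((1 : ℝ) / 8) * (2 : ℝ) ^ (-(3 / 4 : ℝ) * i) := by
  have h1 : D.nw (fun b => if Nat.log 2 b = i then 1 else 0) = (D.tau i : ℝ) ^ ((1 : ℝ) / 8) := by
    unfold nw nrm
    rw [no2_tau_eq]
  rw [h1]
  have h2 := Real.rpow_le_rpow (by positivity) (D.no2_tau_le' i)
    (by norm_num : (0 : ℝ) ≤ (1 : ℝ) / 8)
  refine h2.trans (le_of_eq ?_)
  rw [Real.mul_rpow (by positivity) (Real.rpow_nonneg (by norm_num) _), ← Real.rpow_mul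
    (by norm_num)]
  congr 2
  ring

private theorem no2_dual (a : D.β) : ∃ a', D.χ a' = (D.χ a)⁻¹ ∧ D.b a' = D.b a := by
  have h := D.count_symm (D.χ a) (D.b a)
  have h1 : 0 < (Finset.univ.filter fun a' => D.χ a' = D.χ a ∧ D.b a' = D.b a).card :=
    Finset.card_pos.2 ⟨a, Finset.mem_filter.2 ⟨Finset.mem_univ _, rfl, rfl⟩⟩
  rw [h] at h1
  obtain ⟨a', ha'⟩ := Finset.card_pos.1 h1
  exact ⟨a', (Finset.mem_filter.1 ha').2⟩

private theorem no2_class (i : ℕ) :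
    (Finset.univ.filter fun a => Nat.log 2 (D.b a) = i).card ^ 4 ≤ D.tau i := by
  choose π hπ1 hπ2 using D.no2_dual
  unfold tau
  have h1 : (Finset.univ.filter fun a => Nat.log 2 (D.b a) = i).card ^ 4 =
      Fintype.card (Fin 4 → {a : D.β // Nat.log 2 (D.b a) = i}) := by
    rw [Fintype.card_fun, Fintype.card_fin, Fintype.card_subtype]
  rw [h1]
  have hA : ∀ (x : Fin 4 → {a : D.β // Nat.log 2 (D.b a) = i}),
      (∀ m : Fin (4 + 4), Nat.log 2 (D.b (Fin.append (fun j => (x j).1)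
        (fun j => π (x j).1) m)) = i) ∧
      ∏ m : Fin (4 + 4), D.χ (Fin.append (fun j => (x j).1) (fun j => π (x j).1) m) = 1 := by
    intro x
    refine ⟨fun m => ?_, ?_⟩
    · refine Fin.addCases (fun j => ?_) (fun j => ?_) m
      · rw [Fin.append_left]
        exact (x j).2
      · rw [Fin.append_right, hπ2]
        exact (x j).2
    · rw [Fin.prod_univ_add]
      simp only [Fin.append_left, Fin.append_right]
      rw [← Finset.prod_mul_distrib]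
      refine Finset.prod_eq_one fun j _ => ?_
      rw [hπ1, mul_inv_cancel]
  refine Fintype.card_le_of_injective
    (fun x => ⟨fun m : Fin (4 + 4) => Fin.append (fun j => (x j).1) (fun j => π (x j).1) m,
      hA x⟩) ?_
  intro x y hxy
  have h2 := congrArg Subtype.val hxy
  funext j
  apply Subtype.ext
  have h3 := congrFun h2 (Fin.castAdd 4 j)
  simp only [Fin.append_left] at h3
  exact h3

theorem log_le (a : D.β) : 2 ^ (6 * Nat.log 2 (D.b a)) ≤ D.AA := by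
  have h1 := D.no2_class (Nat.log 2 (D.b a))
  have h2 : 0 < (Finset.univ.filter fun a' => Nat.log 2 (D.b a') = Nat.log 2 (D.b a)).card :=
    Finset.card_pos.2 ⟨a, Finset.mem_filter.2 ⟨Finset.mem_univ _, rfl⟩⟩
  have h3 : 1 ≤ D.tau (Nat.log 2 (D.b a)) := (Nat.one_le_pow _ _ h2).trans h1
  have h4 := D.no2_tau_le (Nat.log 2 (D.b a))
  exact (Nat.le_mul_of_pos_right _ h3).trans h4

/-- `b ≤ 2 AA ^ (1/6)` -/
theorem b_pow_le (a : D.β) : D.b a ^ 6 ≤ 64 * D.AA := by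
  have h1 := D.log_le a
  have h2 : D.b a ≤ 2 ^ (Nat.log 2 (D.b a) + 1) := (Nat.lt_pow_succ_log_self (by norm_num) _).le
  calc D.b a ^ 6 ≤ (2 ^ (Nat.log 2 (D.b a) + 1)) ^ 6 := Nat.pow_le_pow_left h2 6
    _ = 64 * 2 ^ (6 * Nat.log 2 (D.b a)) := by
        rw [← pow_mul, add_mul, one_mul, pow_add, mul_comm (Nat.log 2 (D.b a)) 6]
        ring
    _ ≤ 64 * D.AA := Nat.mul_le_mul_left _ h1

theorem nw_le (w W : ℕ → ℝ) (hw : ∀ b, 0 ≤ w b) (hW : ∀ i, 0 ≤ W i)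
    (h : ∀ b, 0 < b → w b ≤ W (Nat.log 2 b)) :
    D.nw w ≤ ∑ i ∈ (Finset.range (D.n + 1)).filter (fun i => 2 ^ (6 * i) ≤ D.AA),
      W i * ((D.AA : ℝ) ^ ((1 : ℝ) / 8) * (2 : ℝ) ^ (-(3 / 4 : ℝ) * i)) := by
  obtain ⟨S, hS⟩ : ∃ S, S = (Finset.range (D.n + 1)).filter (fun i => 2 ^ (6 * i) ≤ D.AA) :=
    ⟨_, rfl⟩
  rw [← hS]
  have h1 : D.nw w ≤ D.nrm fun a => ∑ i ∈ S, W i * (if Nat.log 2 (D.b a) = i then 1 else 0) := by
    unfold nw
    refine D.nrm_mono _ _ (fun a => hw _) fun a => ?_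
    have h2 : Nat.log 2 (D.b a) ∈ S := by
      rw [hS]
      exact Finset.mem_filter.2 ⟨Finset.mem_range.2 (D.no2_log_le_n a), D.log_le a⟩
    refine (h _ (D.hb a)).trans ?_
    refine le_trans (le_of_eq ?_) (Finset.single_le_sum
      (f := fun i => W i * (if Nat.log 2 (D.b a) = i then (1 : ℝ) else 0)) (fun i _ => ?_) h2)
    · rw [if_pos rfl, mul_one]
    · exact mul_nonneg (hW i) (by split_ifs <;> norm_num)
  refine h1.trans ((D.nrm_sum S _ (fun i _ a => mul_nonneg (hW i) (by split_ifs <;> norm_num))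
    (fun i _ => D.sy_size fun b => W i * (if Nat.log 2 b = i then 1 else 0))).trans ?_)
  refine Finset.sum_le_sum fun i _ => ?_
  have h3 := D.nrm_smul (fun a => if Nat.log 2 (D.b a) = i then 1 else 0)
    (fun a => by split_ifs <;> norm_num) (W i) (hW i)
  rw [h3]
  exact mul_le_mul_of_nonneg_left (D.nrm_class i) (hW i)

theorem class_card (i : ℕ) :
    (Finset.univ.filter fun a => Nat.log 2 (D.b a) = i).card ^ 4 ≤ D.tau i := D.no2_class i

/-- the number of blocks in a class -/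
private theorem no2_k (i : ℕ) : ((Finset.univ.filter fun a => Nat.log 2 (D.b a) = i).card : ℝ) ≤
    (D.AA : ℝ) ^ ((1 : ℝ) / 4) * ((2 : ℝ) ^ (-(3 / 2 : ℝ))) ^ i := by
  obtain ⟨k, hk⟩ : ∃ k : ℝ, k =
    ((Finset.univ.filter fun a => Nat.log 2 (D.b a) = i).card : ℝ) := ⟨_, rfl⟩
  have hk0 : 0 ≤ k := by rw [hk]; positivity
  have h1 : k ^ 4 ≤ (D.AA : ℝ) * (2 : ℝ) ^ (-(6 : ℝ) * i) := by
    refine le_trans ?_ (D.no2_tau_le' i)
    rw [hk]
    exact_mod_cast D.no2_class i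
  have h2 := Real.rpow_le_rpow (by positivity) h1 (by norm_num : (0 : ℝ) ≤ (1 : ℝ) / 4)
  rw [← Real.rpow_natCast, ← Real.rpow_mul hk0, Real.mul_rpow (by positivity)
    (Real.rpow_nonneg (by norm_num) _), ← Real.rpow_mul (by norm_num)] at h2
  norm_num at h2
  rw [← hk]
  refine h2.trans (le_of_eq ?_)
  rw [← Real.rpow_natCast, ← Real.rpow_mul (by norm_num)]
  congr 2
  ring

private theorem no2_r (e : ℝ) (he : e < 0) : 0 < (2 : ℝ) ^ e ∧ (2 : ℝ) ^ e < 1 :=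
  ⟨Real.rpow_pos_of_pos (by norm_num) _, Real.rpow_lt_one_of_one_lt_of_neg (by norm_num) he⟩

/-- the number of blocks of size `> p` -/
theorem card_long : ∃ C : ℝ, 0 < C ∧ ∀ (D : JD) (p : ℕ), 1 ≤ p →
    ((Finset.univ.filter fun a => p < D.b a).card : ℝ) ≤
      C * (D.AA : ℝ) ^ ((1 : ℝ) / 4) * (p : ℝ) ^ (-(3 / 2 : ℝ)) := by
  obtain ⟨r, hr⟩ : ∃ r : ℝ, r = (2 : ℝ) ^ (-(3 / 2 : ℝ)) := ⟨_, rfl⟩
  obtain ⟨hr0, hr1⟩ := no2_r (-(3 / 2 : ℝ)) (by norm_num)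
  rw [← hr] at hr0 hr1
  have hr2 : 0 < 1 - r := by linarith
  refine ⟨(2 : ℝ) ^ ((3 : ℝ) / 2) / (1 - r), by positivity, fun D p hp => ?_⟩
  obtain ⟨A, hA⟩ : ∃ A : ℝ, A = (D.AA : ℝ) ^ ((1 : ℝ) / 4) := ⟨_, rfl⟩
  have hA0 : 0 ≤ A := by rw [hA]; positivity
  have h1 : (Finset.univ.filter fun a => p < D.b a).card ≤
      ∑ i ∈ Finset.Ico (Nat.log 2 p) (D.n + 1),
        (Finset.univ.filter fun a => Nat.log 2 (D.b a) = i).card := by
    classical
    rw [← Finset.card_biUnion]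
    · refine Finset.card_le_card fun a ha => ?_
      rw [Finset.mem_filter] at ha
      rw [Finset.mem_biUnion]
      refine ⟨Nat.log 2 (D.b a), Finset.mem_Ico.2 ⟨Nat.log_mono_right ha.2.le,
        D.no2_log_le_n a⟩, Finset.mem_filter.2 ⟨Finset.mem_univ _, rfl⟩⟩
    · intro i _ j _ hij
      rw [Function.onFun, Finset.disjoint_left]
      intro a ha hb
      rw [Finset.mem_filter] at ha hb
      exact hij (ha.2.symm.trans hb.2)
  have h2 : ((Finset.univ.filter fun a => p < D.b a).card : ℝ) ≤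
      ∑ i ∈ Finset.Ico (Nat.log 2 p) (D.n + 1), A * r ^ i := by
    have h3 : ((Finset.univ.filter fun a => p < D.b a).card : ℝ) ≤
        ∑ i ∈ Finset.Ico (Nat.log 2 p) (D.n + 1),
          ((Finset.univ.filter fun a => Nat.log 2 (D.b a) = i).card : ℝ) := by
      exact_mod_cast h1
    refine h3.trans (Finset.sum_le_sum fun i _ => ?_)
    rw [hA, hr]
    exact D.no2_k i
  rw [← Finset.mul_sum] at h2
  have h3 := geom_sum_Ico_le_of_lt_one (m := Nat.log 2 p) (n := D.n + 1) hr0.le hr1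
  have h4 : r ^ Nat.log 2 p ≤ (2 : ℝ) ^ ((3 : ℝ) / 2) * (p : ℝ) ^ (-(3 / 2 : ℝ)) := by
    have hp0 : (0 : ℝ) < p := by exact_mod_cast hp
    have h5 : (p : ℝ) ≤ 2 * (2 : ℝ) ^ Nat.log 2 p := by
      have h6 := (Nat.lt_pow_succ_log_self (by norm_num : 1 < 2) p).le
      rw [pow_succ'] at h6
      exact_mod_cast h6
    have h7 : r ^ Nat.log 2 p = ((2 : ℝ) ^ Nat.log 2 p) ^ (-(3 / 2 : ℝ)) := by
      rw [hr, ← Real.rpow_natCast, ← Real.rpow_natCast, ← Real.rpow_mul (by norm_num),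
        ← Real.rpow_mul (by norm_num), mul_comm]
    have h8 : ((2 : ℝ) ^ Nat.log 2 p) ^ (-(3 / 2 : ℝ)) ≤ ((p : ℝ) / 2) ^ (-(3 / 2 : ℝ)) := by
      refine Real.rpow_le_rpow_of_nonpos (by positivity) (by linarith) (by norm_num)
    have h9 : ((p : ℝ) / 2) ^ (-(3 / 2 : ℝ)) =
        (2 : ℝ) ^ ((3 : ℝ) / 2) * (p : ℝ) ^ (-(3 / 2 : ℝ)) := by
      rw [Real.div_rpow hp0.le (by norm_num), Real.rpow_neg (by norm_num : (0 : ℝ) ≤ 2),
        div_inv_eq_mul, mul_comm]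
    rw [h7]
    exact h8.trans h9.le
  calc ((Finset.univ.filter fun a => p < D.b a).card : ℝ)
      ≤ A * ∑ i ∈ Finset.Ico (Nat.log 2 p) (D.n + 1), r ^ i := h2
    _ ≤ A * (r ^ Nat.log 2 p / (1 - r)) := mul_le_mul_of_nonneg_left h3 hA0
    _ ≤ A * ((2 : ℝ) ^ ((3 : ℝ) / 2) * (p : ℝ) ^ (-(3 / 2 : ℝ)) / (1 - r)) := by
        refine mul_le_mul_of_nonneg_left ?_ hA0
        exact div_le_div_of_nonneg_right h4 hr2.le
    _ = (2 : ℝ) ^ ((3 : ℝ) / 2) / (1 - r) * (D.AA : ℝ) ^ ((1 : ℝ) / 4) *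
        (p : ℝ) ^ (-(3 / 2 : ℝ)) := by
        rw [hA]
        ring

theorem n_le : ∃ C : ℝ, 0 < C ∧ ∀ D : JD, (D.n : ℝ) ^ 4 ≤ C * D.AA := by
  obtain ⟨r, hr⟩ : ∃ r : ℝ, r = (2 : ℝ) ^ (-(1 / 2 : ℝ)) := ⟨_, rfl⟩
  obtain ⟨hr0, hr1⟩ := no2_r (-(1 / 2 : ℝ)) (by norm_num)
  rw [← hr] at hr0 hr1
  have hr2 : 0 < 1 - r := by linarith
  refine ⟨(2 / (1 - r)) ^ 4, by positivity, fun D => ?_⟩
  obtain ⟨A, hA⟩ : ∃ A : ℝ, A = (D.AA : ℝ) ^ ((1 : ℝ) / 4) := ⟨_, rfl⟩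
  have hA0 : 0 ≤ A := by rw [hA]; positivity
  have hA4 : A ^ 4 = D.AA := by
    rw [hA, ← Real.rpow_natCast, ← Real.rpow_mul (by positivity)]
    norm_num
  have h1 : (D.n : ℝ) ≤ ∑ i ∈ Finset.range (D.n + 1), (2 : ℝ) ^ (i + 1) *
      ((Finset.univ.filter fun a => Nat.log 2 (D.b a) = i).card : ℝ) := by
    have h2 : ∀ a : D.β, (D.b a : ℝ) ≤ ∑ i ∈ Finset.range (D.n + 1),
        (if Nat.log 2 (D.b a) = i then (2 : ℝ) ^ (i + 1) else 0) := by
      intro a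
      rw [Finset.sum_ite_eq, if_pos (Finset.mem_range.2 (D.no2_log_le_n a))]
      exact_mod_cast (Nat.lt_pow_succ_log_self (by norm_num : 1 < 2) (D.b a)).le
    have h3 : (D.n : ℝ) = ∑ a, (D.b a : ℝ) := by
      rw [D.n_eq]
      push_cast
      rfl
    rw [h3]
    refine (Finset.sum_le_sum fun a _ => h2 a).trans (le_of_eq ?_)
    rw [Finset.sum_comm]
    refine Finset.sum_congr rfl fun i _ => ?_
    rw [← Finset.sum_filter, Finset.sum_const, nsmul_eq_mul, mul_comm]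
  have h4 : (D.n : ℝ) ≤ ∑ i ∈ Finset.range (D.n + 1), (2 * A) * r ^ i := by
    refine h1.trans (Finset.sum_le_sum fun i _ => ?_)
    refine (mul_le_mul_of_nonneg_left (D.no2_k i) (by positivity)).trans (le_of_eq ?_)
    have h5 : r ^ i = (2 : ℝ) ^ i * ((2 : ℝ) ^ (-(3 / 2 : ℝ))) ^ i := by
      rw [← mul_pow]
      congr 1
      have h7 := Real.rpow_add (by norm_num : (0 : ℝ) < 2) 1 (-(3 / 2 : ℝ))
      rw [Real.rpow_one] at h7
      rw [hr, ← h7]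
      norm_num
    rw [h5, ← hA, pow_succ]
    ring
  rw [← Finset.mul_sum, Finset.range_eq_Ico] at h4
  have h5 := geom_sum_Ico_le_of_lt_one (m := 0) (n := D.n + 1) hr0.le hr1
  rw [pow_zero] at h5
  have h6 : (D.n : ℝ) ≤ (2 / (1 - r)) * A := by
    refine h4.trans ((mul_le_mul_of_nonneg_left h5 (by positivity)).trans (le_of_eq ?_))
    ring
  calc (D.n : ℝ) ^ 4 ≤ ((2 / (1 - r)) * A) ^ 4 := pow_le_pow_left₀ (by positivity) h6 4
    _ = (2 / (1 - r)) ^ 4 * D.AA := by rw [mul_pow, hA4]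

theorem AA_pos (h : 0 < D.n) : 1 ≤ D.AA := by
  rw [D.n_eq] at h
  have h1 : ∃ a ∈ (Finset.univ : Finset D.β), D.b a ≠ 0 := by
    by_contra hcon
    push Not at hcon
    rw [Finset.sum_eq_zero hcon] at h
    exact lt_irrefl _ h
  obtain ⟨a, -, -⟩ := h1
  exact (Nat.one_le_two_pow).trans (D.log_le a)

end Pool.Agent.INV5.JD
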