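import Pool.Agent.INV5.NO2

/-!
# INV5, module NO3: the norms of the weights which are used

All from `nw_le` with a suitable `W i` and geometric sums. Write `A = AA`; the sum runs over the `i`
with `2 ^ (6 i) ≤ A`, so `2 ^ i ≤ A ^ (1/6)`.
* `nw_67`: `w b = b ^ (6/7) ≤ 2 ^ (6/7) 2 ^ (6 i/7)`; `6/7 - 3/4 = 3/28`; the sum of `2 ^ (3 i/28)` is
  `≤ C (A ^ (1/6)) ^ (3/28) = C A ^ (1/56)`, and `1/8 + 1/56 = 1/7`.
* `nw_min`: for `2 ^ i ≤ p` use `(min b p) ^ (6/7) ≤ 2 ^ (6/7) 2 ^ (6 i/7)`, the sum of `2 ^ (3 i/28)` is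
  `≤ C p ^ (3/28)`; for `2 ^ i > p` use `(min b p) ^ (6/7) ≤ p ^ (6/7)`, and the sum of the
  `2 ^ (-3 i/4)` over these `i` is `≤ C p ^ (-3/4)`; `6/7 - 3/4 = 3/28`.
* `nw_57`, `nw_57_ge`: `b ^ (5/7) ≤ 2 ^ (5/7) 2 ^ (5 i/7)`, `5/7 - 3/4 = -1/28`, a convergent series; with
  `K ≤ b` only the `i` with `2 ^ (i + 1) > K` occur.
* `nw_one`, `nw_one_ge`: the series of `2 ^ (-3 i/4)`.
* `card_real`: for `μ ^ 2 = 1`, `nrm_real` and `nrm_mono`: the number of blocks with `χ a = μ`, `p < b a`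
  is `≤ nw (1_{p < b})`.
The constants do not depend on `D`. To get finite geometric sums bounded by the infinite one use
`Summable.sum_le_tsum` or `geom_sum_eq`.
-/

namespace Pool.Agent.INV5.JD

private theorem gs {a : ℝ} (ha : 0 < a) : ∃ C : ℝ, 0 < C ∧ ∀ (S : Finset ℕ) (x : ℝ), 0 ≤ x →
    (∀ i ∈ S, (2 : ℝ) ^ i ≤ x) → ∑ i ∈ S, (2 : ℝ) ^ (a * i) ≤ C * x ^ a := by
  have h1 : (1 : ℝ) < 2 ^ a := Real.one_lt_rpow (by norm_num) ha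
  have h1' : (0 : ℝ) < 2 ^ a - 1 := by linarith
  refine ⟨2 ^ a / (2 ^ a - 1), div_pos (by positivity) h1', fun S x hx hS => ?_⟩
  rcases S.eq_empty_or_nonempty with rfl | hne
  · rw [Finset.sum_empty]
    exact mul_nonneg (div_nonneg (by positivity) h1'.le) (Real.rpow_nonneg hx a)
  · set I := S.max' hne with hI
    have h2 : S ⊆ Finset.range (I + 1) := by
      intro i hi
      exact Finset.mem_range.2 (Nat.lt_succ_of_le (S.le_max' i hi))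
    have h3 : ∀ i : ℕ, (2 : ℝ) ^ (a * i) = ((2 : ℝ) ^ a) ^ i := fun i => by
      rw [← Real.rpow_natCast, ← Real.rpow_mul (by norm_num)]
    have h4 : ((2 : ℝ) ^ a) ^ I ≤ x ^ a := by
      rw [← h3, mul_comm, Real.rpow_mul (by norm_num), Real.rpow_natCast]
      exact Real.rpow_le_rpow (by positivity) (hS I (S.max'_mem hne)) ha.le
    calc ∑ i ∈ S, (2 : ℝ) ^ (a * i) ≤ ∑ i ∈ Finset.range (I + 1), (2 : ℝ) ^ (a * i) :=
          Finset.sum_le_sum_of_subset_of_nonneg h2 fun i _ _ => by positivity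
      _ = (((2 : ℝ) ^ a) ^ (I + 1) - 1) / (2 ^ a - 1) := by
          simp only [h3]
          exact geom_sum_eq h1.ne' _
      _ ≤ ((2 : ℝ) ^ a) ^ (I + 1) / (2 ^ a - 1) := by
          apply div_le_div_of_nonneg_right _ h1'.le
          linarith
      _ = 2 ^ a / (2 ^ a - 1) * ((2 : ℝ) ^ a) ^ I := by
          rw [pow_succ]
          ring
      _ ≤ _ := mul_le_mul_of_nonneg_left h4 (div_nonneg (by positivity) h1'.le)

private theorem gd {a : ℝ} (ha : 0 < a) : ∃ C : ℝ, 0 < C ∧ ∀ (S : Finset ℕ) (x : ℝ), 0 < x →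
    (∀ i ∈ S, x ≤ (2 : ℝ) ^ i) → ∑ i ∈ S, (2 : ℝ) ^ (-a * i) ≤ C * x ^ (-a) := by
  have h1 : (2 : ℝ) ^ (-a) < 1 := Real.rpow_lt_one_of_one_lt_of_neg (by norm_num) (by linarith)
  have h1' : (0 : ℝ) < 1 - 2 ^ (-a) := by linarith
  have h1'' : (0 : ℝ) ≤ 2 ^ (-a) := by positivity
  refine ⟨1 / (1 - 2 ^ (-a)), div_pos one_pos h1', fun S x hx hS => ?_⟩
  rcases S.eq_empty_or_nonempty with rfl | hne
  · rw [Finset.sum_empty]
    exact mul_nonneg (div_nonneg zero_le_one h1'.le) (Real.rpow_nonneg hx.le _)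
  · set I := S.min' hne with hI
    have h2 : S ⊆ Finset.Ico I (S.max' hne + 1) := by
      intro i hi
      exact Finset.mem_Ico.2 ⟨S.min'_le i hi, Nat.lt_succ_of_le (S.le_max' i hi)⟩
    have h3 : ∀ i : ℕ, (2 : ℝ) ^ (-a * i) = ((2 : ℝ) ^ (-a)) ^ i := fun i => by
      rw [← Real.rpow_natCast, ← Real.rpow_mul (by norm_num)]
    have h4 : ((2 : ℝ) ^ (-a)) ^ I ≤ x ^ (-a) := by
      rw [← h3, mul_comm, Real.rpow_mul (by norm_num), Real.rpow_natCast]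
      exact Real.rpow_le_rpow_of_nonpos hx (hS I (S.min'_mem hne)) (by linarith)
    calc ∑ i ∈ S, (2 : ℝ) ^ (-a * i)
        ≤ ∑ i ∈ Finset.Ico I (S.max' hne + 1), (2 : ℝ) ^ (-a * i) :=
          Finset.sum_le_sum_of_subset_of_nonneg h2 fun i _ _ => by positivity
      _ ≤ ((2 : ℝ) ^ (-a)) ^ I / (1 - 2 ^ (-a)) := by
          simp only [h3]
          exact geom_sum_Ico_le_of_lt_one h1'' h1
      _ = 1 / (1 - 2 ^ (-a)) * ((2 : ℝ) ^ (-a)) ^ I := by ring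
      _ ≤ _ := mul_le_mul_of_nonneg_left h4 (div_nonneg zero_le_one h1'.le)

private theorem pow_log {a : ℝ} (ha : 0 ≤ a) (b : ℕ) (_ : 0 < b) :
    (b : ℝ) ^ a ≤ 2 ^ a * 2 ^ (a * (Nat.log 2 b : ℕ)) := by
  have h1 : b < 2 ^ (Nat.log 2 b + 1) := Nat.lt_pow_succ_log_self (by norm_num) b
  have h2 : (b : ℝ) ≤ 2 ^ (Nat.log 2 b + 1) := by exact_mod_cast h1.le
  have h3 : (2 : ℝ) ^ a * 2 ^ (a * (Nat.log 2 b : ℕ)) = ((2 : ℝ) ^ (Nat.log 2 b + 1)) ^ a := by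
    rw [← Real.rpow_natCast, ← Real.rpow_mul (by norm_num), ← Real.rpow_add (by norm_num)]
    congr 1
    push_cast
    ring
  rw [h3]
  exact Real.rpow_le_rpow (Nat.cast_nonneg b) h2 ha

theorem nw_67 : ∃ C : ℝ, 0 < C ∧ ∀ D : JD,
    D.nw (fun b => (b : ℝ) ^ ((6 : ℝ) / 7)) ≤ C * (D.AA : ℝ) ^ ((1 : ℝ) / 7) := by
  obtain ⟨C, hC, hg⟩ := gs (a := 3 / 28) (by norm_num)
  refine ⟨2 ^ ((6 : ℝ) / 7) * C, by positivity, fun D => ?_⟩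
  refine (D.nw_le _ (fun i => 2 ^ ((6 : ℝ) / 7) * 2 ^ ((6 : ℝ) / 7 * i)) (fun b => by positivity)
    (fun i => by positivity) (fun b hb => pow_log (by norm_num) b hb)).trans ?_
  have h1 : ∀ i ∈ (Finset.range (D.n + 1)).filter (fun i => 2 ^ (6 * i) ≤ D.AA),
      (2 : ℝ) ^ i ≤ (D.AA : ℝ) ^ ((1 : ℝ) / 6) := by
    intro i hi
    have h2 : 2 ^ (6 * i) ≤ D.AA := (Finset.mem_filter.1 hi).2
    have h3 : ((2 : ℝ) ^ i) ^ 6 ≤ D.AA := by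
      rw [← pow_mul, mul_comm i 6]
      exact_mod_cast h2
    have h4 : (2 : ℝ) ^ i = (((2 : ℝ) ^ i) ^ 6) ^ ((1 : ℝ) / 6) := by
      rw [← Real.rpow_natCast ((2 : ℝ) ^ i) 6, ← Real.rpow_mul (by positivity)]
      norm_num
    rw [h4]
    exact Real.rpow_le_rpow (by positivity) h3 (by norm_num)
  have h2 := hg _ ((D.AA : ℝ) ^ ((1 : ℝ) / 6)) (by positivity) h1
  have h3 : ∀ i : ℕ, (2 : ℝ) ^ ((6 : ℝ) / 7) * 2 ^ ((6 : ℝ) / 7 * i) *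
      ((D.AA : ℝ) ^ ((1 : ℝ) / 8) * (2 : ℝ) ^ (-(3 / 4 : ℝ) * i)) =
      (2 : ℝ) ^ ((6 : ℝ) / 7) * (D.AA : ℝ) ^ ((1 : ℝ) / 8) * 2 ^ ((3 / 28 : ℝ) * i) := by
    intro i
    rw [show (3 / 28 : ℝ) * i = (6 : ℝ) / 7 * i + -(3 / 4 : ℝ) * i by ring,
      Real.rpow_add (by norm_num : (0 : ℝ) < 2)]
    ring
  simp only [h3]
  rw [← Finset.mul_sum]
  have hA : (0 : ℝ) ≤ D.AA := Nat.cast_nonneg _
  have h4 : (D.AA : ℝ) ^ ((1 : ℝ) / 8) * ((D.AA : ℝ) ^ ((1 : ℝ) / 6)) ^ (3 / 28 : ℝ) ≤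
      (D.AA : ℝ) ^ ((1 : ℝ) / 7) := by
    rw [← Real.rpow_mul hA]
    rcases eq_or_lt_of_le hA with h0 | h0
    · rw [← h0, Real.zero_rpow (by norm_num), zero_mul, Real.zero_rpow (by norm_num)]
    · rw [← Real.rpow_add h0]
      norm_num
  calc (2 : ℝ) ^ ((6 : ℝ) / 7) * (D.AA : ℝ) ^ ((1 : ℝ) / 8) * _
      ≤ (2 : ℝ) ^ ((6 : ℝ) / 7) * (D.AA : ℝ) ^ ((1 : ℝ) / 8) *
        (C * ((D.AA : ℝ) ^ ((1 : ℝ) / 6)) ^ (3 / 28 : ℝ)) :=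
        mul_le_mul_of_nonneg_left h2 (by positivity)
    _ = (2 : ℝ) ^ ((6 : ℝ) / 7) * C * ((D.AA : ℝ) ^ ((1 : ℝ) / 8) *
        ((D.AA : ℝ) ^ ((1 : ℝ) / 6)) ^ (3 / 28 : ℝ)) := by ring
    _ ≤ _ := mul_le_mul_of_nonneg_left h4 (by positivity)

theorem nw_min : ∃ C : ℝ, 0 < C ∧ ∀ (D : JD) (p : ℕ), 1 ≤ p →
    D.nw (fun b => ((min b p : ℕ) : ℝ) ^ ((6 : ℝ) / 7)) ≤
      C * (D.AA : ℝ) ^ ((1 : ℝ) / 8) * (p : ℝ) ^ ((3 : ℝ) / 28) := by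
  obtain ⟨C, hC, hg⟩ := gs (a := 3 / 28) (by norm_num)
  obtain ⟨C', hC', hd⟩ := gd (a := 3 / 4) (by norm_num)
  refine ⟨2 ^ ((6 : ℝ) / 7) * C + C', by positivity, fun D p hp => ?_⟩
  have hp0 : (0 : ℝ) < p := by exact_mod_cast hp
  refine (D.nw_le _ (fun i => if 2 ^ i ≤ p then 2 ^ ((6 : ℝ) / 7) * 2 ^ ((6 : ℝ) / 7 * i)
    else (p : ℝ) ^ ((6 : ℝ) / 7)) (fun b => by positivity) (fun i => ?_) (fun b hb => ?_)).trans ?_
  · split_ifs <;> positivity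
  · split_ifs with h
    · refine le_trans ?_ (pow_log (by norm_num) b hb)
      exact Real.rpow_le_rpow (Nat.cast_nonneg _) (by exact_mod_cast min_le_left b p) (by norm_num)
    · exact Real.rpow_le_rpow (Nat.cast_nonneg _) (by exact_mod_cast min_le_right b p) (by norm_num)
  · set S := (Finset.range (D.n + 1)).filter (fun i => 2 ^ (6 * i) ≤ D.AA) with hS
    rw [← Finset.sum_filter_add_sum_filter_not S (fun i => 2 ^ i ≤ p)]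
    have e1 : ∑ i ∈ S.filter (fun i => 2 ^ i ≤ p),
        (if 2 ^ i ≤ p then (2 : ℝ) ^ ((6 : ℝ) / 7) * 2 ^ ((6 : ℝ) / 7 * i)
          else (p : ℝ) ^ ((6 : ℝ) / 7)) *
        ((D.AA : ℝ) ^ ((1 : ℝ) / 8) * (2 : ℝ) ^ (-(3 / 4 : ℝ) * i)) =
        2 ^ ((6 : ℝ) / 7) * (D.AA : ℝ) ^ ((1 : ℝ) / 8) *
          ∑ i ∈ S.filter (fun i => 2 ^ i ≤ p), (2 : ℝ) ^ ((3 / 28 : ℝ) * i) := by
      rw [Finset.mul_sum]
      refine Finset.sum_congr rfl fun i hi => ?_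
      rw [if_pos (Finset.mem_filter.1 hi).2,
        show (3 / 28 : ℝ) * i = (6 : ℝ) / 7 * i + -(3 / 4 : ℝ) * i by ring,
        Real.rpow_add (by norm_num : (0 : ℝ) < 2)]
      ring
    have e2 : ∑ i ∈ S.filter (fun i => ¬ 2 ^ i ≤ p),
        (if 2 ^ i ≤ p then (2 : ℝ) ^ ((6 : ℝ) / 7) * 2 ^ ((6 : ℝ) / 7 * i)
          else (p : ℝ) ^ ((6 : ℝ) / 7)) *
        ((D.AA : ℝ) ^ ((1 : ℝ) / 8) * (2 : ℝ) ^ (-(3 / 4 : ℝ) * i)) =
        (p : ℝ) ^ ((6 : ℝ) / 7) * (D.AA : ℝ) ^ ((1 : ℝ) / 8) *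
          ∑ i ∈ S.filter (fun i => ¬ 2 ^ i ≤ p), (2 : ℝ) ^ (-(3 / 4 : ℝ) * i) := by
      rw [Finset.mul_sum]
      refine Finset.sum_congr rfl fun i hi => ?_
      rw [if_neg (Finset.mem_filter.1 hi).2]
      ring
    rw [e1, e2]
    have h1 := hg (S.filter (fun i => 2 ^ i ≤ p)) p hp0.le (fun i hi => by
      exact_mod_cast (Finset.mem_filter.1 hi).2)
    have h2 := hd (S.filter (fun i => ¬ 2 ^ i ≤ p)) p hp0 (fun i hi => by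
      exact_mod_cast (not_le.1 (Finset.mem_filter.1 hi).2).le)
    have h3 : (p : ℝ) ^ ((6 : ℝ) / 7) * (p : ℝ) ^ (-(3 / 4 : ℝ)) = (p : ℝ) ^ ((3 : ℝ) / 28) := by
      rw [← Real.rpow_add hp0]
      norm_num
    calc _ ≤ 2 ^ ((6 : ℝ) / 7) * (D.AA : ℝ) ^ ((1 : ℝ) / 8) * (C * (p : ℝ) ^ (3 / 28 : ℝ)) +
          (p : ℝ) ^ ((6 : ℝ) / 7) * (D.AA : ℝ) ^ ((1 : ℝ) / 8) * (C' * (p : ℝ) ^ (-(3 / 4 : ℝ))) :=
          add_le_add (mul_le_mul_of_nonneg_left h1 (by positivity))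
            (mul_le_mul_of_nonneg_left h2 (by positivity))
      _ = 2 ^ ((6 : ℝ) / 7) * (D.AA : ℝ) ^ ((1 : ℝ) / 8) * (C * (p : ℝ) ^ (3 / 28 : ℝ)) +
          (D.AA : ℝ) ^ ((1 : ℝ) / 8) * C' * ((p : ℝ) ^ ((6 : ℝ) / 7) * (p : ℝ) ^ (-(3 / 4 : ℝ))) := by
          ring
      _ = _ := by
          rw [h3]
          ring

private theorem ge_aux {s : ℝ} (hs : 0 ≤ s) {a : ℝ} (ha : 0 < a) (hsa : s + a = 3 / 4) :
    ∃ C : ℝ, 0 < C ∧ ∀ (D : JD) (K : ℕ), 1 ≤ K →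
    D.nw (fun b => if K ≤ b then (b : ℝ) ^ s else 0) ≤
      C * (D.AA : ℝ) ^ ((1 : ℝ) / 8) * (K : ℝ) ^ (-a) := by
  obtain ⟨C, hC, hd⟩ := gd ha
  refine ⟨2 ^ s * C * 2 ^ a, by positivity, fun D K hK => ?_⟩
  have hK0 : (0 : ℝ) < K := by exact_mod_cast hK
  refine (D.nw_le _ (fun i => if K < 2 ^ (i + 1) then 2 ^ s * 2 ^ (s * i)
    else 0) (fun b => ?_) (fun i => ?_) (fun b hb => ?_)).trans ?_
  · split_ifs <;> positivity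
  · split_ifs <;> positivity
  · by_cases h : K ≤ b
    · rw [if_pos h, if_pos (lt_of_le_of_lt h (Nat.lt_pow_succ_log_self (by norm_num) b))]
      exact pow_log hs b hb
    · rw [if_neg h]
      split_ifs <;> positivity
  · set S := (Finset.range (D.n + 1)).filter (fun i => 2 ^ (6 * i) ≤ D.AA) with hS
    clear_value S
    have e1 : ∑ i ∈ S, (if K < 2 ^ (i + 1) then (2 : ℝ) ^ s * 2 ^ (s * i) else 0) *
        ((D.AA : ℝ) ^ ((1 : ℝ) / 8) * (2 : ℝ) ^ (-(3 / 4 : ℝ) * i)) =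
        2 ^ s * (D.AA : ℝ) ^ ((1 : ℝ) / 8) *
          ∑ i ∈ S.filter (fun i => K < 2 ^ (i + 1)), (2 : ℝ) ^ (-a * i) := by
      rw [Finset.mul_sum, Finset.sum_filter]
      refine Finset.sum_congr rfl fun i hi => ?_
      split_ifs with h
      · rw [show -a * i = s * i + -(3 / 4 : ℝ) * i by rw [← hsa]; ring,
          Real.rpow_add (by norm_num : (0 : ℝ) < 2)]
        ring
      · rw [zero_mul]
    rw [e1]
    have h2 := hd (S.filter (fun i => K < 2 ^ (i + 1))) (K / 2) (by positivity) (fun i hi => by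
      have h3 : (K : ℝ) ≤ 2 ^ (i + 1) := by exact_mod_cast (Finset.mem_filter.1 hi).2.le
      rw [pow_succ] at h3
      linarith)
    have h3 : ((K : ℝ) / 2) ^ (-a) = 2 ^ a * (K : ℝ) ^ (-a) := by
      rw [Real.div_rpow hK0.le (by norm_num), Real.rpow_neg (by norm_num : (0 : ℝ) ≤ 2) a,
        div_inv_eq_mul, mul_comm]
    rw [h3] at h2
    calc _ ≤ 2 ^ s * (D.AA : ℝ) ^ ((1 : ℝ) / 8) * (C * (2 ^ a * (K : ℝ) ^ (-a))) :=
          mul_le_mul_of_nonneg_left h2 (by positivity)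
      _ = _ := by ring

private theorem nw_57_ge' : ∃ C : ℝ, 0 < C ∧ ∀ (D : JD) (K : ℕ), 1 ≤ K →
    D.nw (fun b => if K ≤ b then (b : ℝ) ^ ((5 : ℝ) / 7) else 0) ≤
      C * (D.AA : ℝ) ^ ((1 : ℝ) / 8) * (K : ℝ) ^ (-(1 / 28 : ℝ)) :=
  ge_aux (by norm_num) (by norm_num) (by norm_num)

private theorem nw_one_ge' : ∃ C : ℝ, 0 < C ∧ ∀ (D : JD) (K : ℕ), 1 ≤ K →
    D.nw (fun b => if K ≤ b then 1 else 0) ≤
      C * (D.AA : ℝ) ^ ((1 : ℝ) / 8) * (K : ℝ) ^ (-(3 / 4 : ℝ)) := by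
  obtain ⟨C, hC, h⟩ := ge_aux (s := 0) le_rfl (a := 3 / 4) (by norm_num) (by norm_num)
  refine ⟨C, hC, fun D K hK => ?_⟩
  have h1 := h D K hK
  simpa only [Real.rpow_zero] using h1

theorem nw_57 : ∃ C : ℝ, 0 < C ∧ ∀ D : JD,
    D.nw (fun b => (b : ℝ) ^ ((5 : ℝ) / 7)) ≤ C * (D.AA : ℝ) ^ ((1 : ℝ) / 8) := by
  obtain ⟨C, hC, h⟩ := nw_57_ge'
  refine ⟨C, hC, fun D => ?_⟩
  have h1 := h D 1 le_rfl
  rw [Nat.cast_one, Real.one_rpow, mul_one] at h1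
  refine le_trans (le_of_eq ?_) h1
  unfold nw
  congr 1
  funext a
  exact (if_pos (D.hb a)).symm

theorem nw_57_ge : ∃ C : ℝ, 0 < C ∧ ∀ (D : JD) (K : ℕ), 1 ≤ K →
    D.nw (fun b => if K ≤ b then (b : ℝ) ^ ((5 : ℝ) / 7) else 0) ≤
      C * (D.AA : ℝ) ^ ((1 : ℝ) / 8) * (K : ℝ) ^ (-(1 / 28 : ℝ)) := by
  exact nw_57_ge'

theorem nw_one : ∃ C : ℝ, 0 < C ∧ ∀ D : JD,
    D.nw (fun _ => 1) ≤ C * (D.AA : ℝ) ^ ((1 : ℝ) / 8) := by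
  obtain ⟨C, hC, h⟩ := nw_one_ge'
  refine ⟨C, hC, fun D => ?_⟩
  have h1 := h D 1 le_rfl
  rw [Nat.cast_one, Real.one_rpow, mul_one] at h1
  refine le_trans (le_of_eq ?_) h1
  unfold nw
  congr 1
  funext a
  exact (if_pos (D.hb a)).symm

theorem nw_one_ge : ∃ C : ℝ, 0 < C ∧ ∀ (D : JD) (K : ℕ), 1 ≤ K →
    D.nw (fun b => if K ≤ b then 1 else 0) ≤
      C * (D.AA : ℝ) ^ ((1 : ℝ) / 8) * (K : ℝ) ^ (-(3 / 4 : ℝ)) := by
  exact nw_one_ge'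

theorem card_real : ∃ C : ℝ, 0 < C ∧ ∀ (D : JD) (μ : Lam) (p : ℕ), μ ^ 2 = 1 → 1 ≤ p →
    ((Finset.univ.filter fun a => D.χ a = μ ∧ p < D.b a).card : ℝ) ≤
      C * (D.AA : ℝ) ^ ((1 : ℝ) / 8) * (p : ℝ) ^ (-(3 / 4 : ℝ)) := by
  obtain ⟨C, hC, h⟩ := nw_one_ge'
  refine ⟨C, hC, fun D μ p hμ hp => ?_⟩
  have hp0 : (0 : ℝ) < p := by exact_mod_cast hp
  rw [← D.nrm_real μ hμ (fun a => p < D.b a)]
  have h1 := h D (p + 1) (Nat.succ_le_succ (Nat.zero_le _))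
  refine (D.nrm_mono _ (fun a => if p + 1 ≤ D.b a then 1 else 0) (fun a => ?_)
    (fun a => ?_)).trans (h1.trans ?_)
  · split_ifs <;> norm_num
  · by_cases h2 : D.χ a = μ ∧ p < D.b a
    · rw [if_pos h2, if_pos (Nat.succ_le_of_lt h2.2)]
    · rw [if_neg h2]
      split_ifs <;> norm_num
  · refine mul_le_mul_of_nonneg_left ?_ (by positivity)
    apply Real.rpow_le_rpow_of_nonpos hp0 _ (by norm_num)
    push_cast
    linarith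

end Pool.Agent.INV5.JD
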