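import Pool.Agent.INV5.SY
import Pool.Agent.INV5.PA

/-!
# INV5, module PB: `c * AA ≤ ck (ZS 7)`

Let `i0` be an index with `AA = 2 ^ (6 i0) tau i0` (`Finset.exists_mem_eq_sup`, the range is nonempty).
Let `H` be the space of the `w : J 7 → ℂ` with `PP σ w = w` for all `σ`. It is stable under
`l = LL`, `y = YY`, and `Good` for `(l, y)` on `J 7 → ℂ` implies `Good l y ⊥` on `H` (if `v ∈ H`,
`l ^ (s+1) v = 0`, `l ^ s y v = l ^ (s+1) w`, average `w` over the `PP σ`). Let `H1` be the part of `H`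
supported on the words with all blocks `a` of class `log₂ (b a) = i0`, `H2` the part supported on the
other words; `l` does not change the blocks and `PP σ` only permutes them, so `H = H1 ⊕ H2`, `l`-stable.
`l ^ S = 0` on `H1` for `S = 8 * 2 ^ (i0 + 1)` (the total position of a word in the class is
`< S`, or: `LL ^ S` is a sum of products of `S` shifts, one letter gets `≥ 2 ^ (i0 + 1)` of them).
`dim H1 ≥ #words / 7!` (the number of orbits of a permutation action), and
`#words = ∑ over the tuples of ∏ b ≥ 2 ^ (8 i0) * #tuples`; the number of tuples `α` of class `i0` with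
`∏ cb 7 m (α m) = 1` is `tau i0` (by `count_symm` there is a permutation `π` of the blocks with
`b (π a) = b a`, `χ (π a) = (χ a)⁻¹`; apply it to the first seven letters).
`good_count`: `dim H1 ≤ S ^ 2 dim (H / (l H + y H))`, and `dim (H / (l H + y H)) ≤ ck (ZS 7)` since
averaging is a projection of `J 7 → ℂ` onto `H` with kernel the span of the `(1 - PP σ)`. So
`2 ^ (8 i0) tau i0 ≤ 7! (16 * 2 ^ i0) ^ 2 ck (ZS 7)`, i.e. `AA ≤ 5040 * 256 * ck (ZS 7)`.
-/

namespace Pool.Agent.INV5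

open Module Matrix

section abs

variable {V : Type*} [AddCommGroup V] [Module ℂ V] [FiniteDimensional ℂ V]

private theorem pbAbs (l y pr q : Module.End ℂ V) (hly : Commute l y) (hg : Good l y ⊥)
    (hp : pr * pr = pr) (hq : q * q = q) (hpl : Commute pr l) (hpy : Commute pr y)
    (hpq : Commute pr q) (hql : Commute q l) (S : ℕ) (hS : l ^ S * q = 0) :
    finrank ℂ ↥(LinearMap.range (q * pr)) ≤
      S ^ 2 * finrank ℂ (V ⧸ (LinearMap.range l ⊔ LinearMap.range y ⊔ LinearMap.ker pr)) := by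
  have ap : ∀ {f g : Module.End ℂ V}, f = g → ∀ v, f v = g v := fun h v => by rw [h]
  have epl : ∀ v, pr (l v) = l (pr v) := ap hpl.eq
  have epy : ∀ v, pr (y v) = y (pr v) := ap hpy.eq
  have epq : ∀ v, pr (q v) = q (pr v) := ap hpq.eq
  have eql : ∀ v, q (l v) = l (q v) := ap hql.eq
  have ely : ∀ v, l (y v) = y (l v) := ap hly.eq
  have epp : ∀ v, pr (pr v) = pr v := ap hp
  have eqq : ∀ v, q (q v) = q v := ap hq
  have eSq : ∀ v, (l ^ S) (q v) = 0 := ap hS
  have eplk : ∀ (k : ℕ) v, pr ((l ^ k) v) = (l ^ k) (pr v) := fun k => ap (hpl.pow_right k).eq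
  have hl : ∀ v ∈ LinearMap.range pr, l v ∈ LinearMap.range pr := by
    rintro _ ⟨w, rfl⟩
    exact ⟨l w, epl w⟩
  have hy : ∀ v ∈ LinearMap.range pr, y v ∈ LinearMap.range pr := by
    rintro _ ⟨w, rfl⟩
    exact ⟨y w, epy w⟩
  have hq2 : ∀ v ∈ LinearMap.range pr, q v ∈ LinearMap.range pr := by
    rintro _ ⟨w, rfl⟩
    exact ⟨q w, epq w⟩
  have hpr : ∀ v ∈ LinearMap.range pr, pr v = v := by
    rintro _ ⟨w, rfl⟩
    exact epp w
  let l' : Module.End ℂ (LinearMap.range pr) := l.restrict hl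
  let y' : Module.End ℂ (LinearMap.range pr) := y.restrict hy
  let q' : Module.End ℂ (LinearMap.range pr) := q.restrict hq2
  have cl : ∀ v, ((l' v : LinearMap.range pr) : V) = l v := fun _ => rfl
  have cy : ∀ v, ((y' v : LinearMap.range pr) : V) = y v := fun _ => rfl
  have cq : ∀ v, ((q' v : LinearMap.range pr) : V) = q v := fun _ => rfl
  have clk : ∀ (k : ℕ) v, (((l' ^ k) v : LinearMap.range pr) : V) = (l ^ k) v := by
    intro k
    induction k with
    | zero => intro v; rfl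
    | succ k ih =>
      intro v
      rw [pow_succ', pow_succ', Module.End.mul_apply, Module.End.mul_apply, cl, ih]
  have hly' : Commute l' y' := by
    ext v
    rw [Module.End.mul_apply, Module.End.mul_apply, cl, cy, cy, cl, ely]
  have hg' : Good l' y' ⊥ := by
    intro s v hv
    have h1 : (l ^ (s + 1)) (v : V) ∈ (⊥ : Submodule ℂ V) := by
      rw [Submodule.mem_bot] at hv ⊢
      rw [← clk, hv]
      rfl
    obtain ⟨w, hw⟩ := hg s v h1
    refine ⟨⟨pr w, w, rfl⟩, ?_⟩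
    rw [Submodule.mem_bot] at hw ⊢
    apply Subtype.ext
    rw [Submodule.coe_sub, clk, clk, cy, Submodule.coe_zero]
    have h2 := congrArg pr hw
    rw [map_sub, eplk, eplk, epy, hpr v v.2, map_zero] at h2
    exact h2
  have hq' : IsIdempotentElem q' := by
    ext v
    rw [Module.End.mul_apply, cq, cq, eqq]
  have h1 := good_count l' y' hly' hg' (LinearMap.range q') (LinearMap.ker q')
    (LinearMap.IsIdempotentElem.isCompl hq')
    (by
      rintro _ ⟨w, rfl⟩
      refine ⟨l' w, ?_⟩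
      apply Subtype.ext
      rw [cq, cl, cl, cq, eql])
    (by
      intro w hw
      rw [LinearMap.mem_ker] at hw
      rw [Submodule.mem_comap, LinearMap.mem_ker]
      apply Subtype.ext
      rw [cq, cl, eql]
      have : q (w : V) = 0 := by rw [← cq, hw]; rfl
      rw [this, map_zero]
      rfl)
    S
    (by
      rintro _ ⟨w, rfl⟩
      apply Subtype.ext
      rw [clk, cq, eSq]
      rfl)
  have h2 : finrank ℂ ↥(LinearMap.range (q * pr)) ≤ finrank ℂ ↥(LinearMap.range q') := by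
    have h3 : LinearMap.range (q * pr) ≤
        (LinearMap.range q').map (LinearMap.range pr).subtype := by
      rintro _ ⟨w, rfl⟩
      refine ⟨q' ⟨pr w, w, rfl⟩, ⟨_, rfl⟩, rfl⟩
    exact (Submodule.finrank_mono h3).trans (Submodule.finrank_map_le _ _)
  have h4 : finrank ℂ (LinearMap.range pr ⧸ (LinearMap.range l' ⊔ LinearMap.range y')) ≤
      finrank ℂ (V ⧸ (LinearMap.range l ⊔ LinearMap.range y ⊔ LinearMap.ker pr)) := by
    have h5 : LinearMap.range l ⊔ LinearMap.range y ⊔ LinearMap.ker pr ≤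
        (LinearMap.range l' ⊔ LinearMap.range y').comap pr.rangeRestrict := by
      rw [sup_le_iff, sup_le_iff]
      refine ⟨⟨?_, ?_⟩, ?_⟩
      · rintro _ ⟨w, rfl⟩
        apply Submodule.mem_sup_left
        refine ⟨pr.rangeRestrict w, ?_⟩
        apply Subtype.ext
        exact (epl w).symm
      · rintro _ ⟨w, rfl⟩
        apply Submodule.mem_sup_right
        refine ⟨pr.rangeRestrict w, ?_⟩
        apply Subtype.ext
        exact (epy w).symm
      · intro w hw
        rw [Submodule.mem_comap]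
        have : pr.rangeRestrict w = 0 := Subtype.ext hw
        rw [this]
        exact Submodule.zero_mem _
    refine LinearMap.finrank_le_finrank_of_surjective (f := Submodule.mapQ _ _ _ h5) ?_
    intro x
    obtain ⟨⟨_, w, rfl⟩, rfl⟩ := Submodule.Quotient.mk_surjective _ x
    exact ⟨Submodule.Quotient.mk w, rfl⟩
  exact h2.trans (h1.trans (Nat.mul_le_mul_left _ h4))

end abs

namespace JD

variable (D : JD)

/-- words of class `i` -/
private def pbX (i : ℕ) (p : D.J 7) : Prop := ∀ m, Nat.log 2 (D.b (p.1 m).1) = i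

/-- total position -/
private def pbPos (p : D.J 7) : ℕ := ∑ m : Fin 8, ((p.1 m).2 : ℕ)

private theorem pbLL1 (p q : D.J 7) (h : D.LL 7 p q ≠ 0) :
    (∀ m, (p.1 m).1 = (q.1 m).1) ∧ D.pbPos p = D.pbPos q + 1 := by
  refine ⟨D.LL_label 7 p q h, ?_⟩
  have h0 : Tot (I := fun _ : Fin 8 => Idx D.b) (fun _ => Sh D.b) p.1 q.1 ≠ 0 := h
  unfold Tot at h0
  rw [Matrix.sum_apply] at h0
  obtain ⟨m, -, h1⟩ := Finset.exists_ne_zero_of_sum_ne_zero h0
  unfold At at h1
  split_ifs at h1 with h2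
  · have h3 : (p.1 m).1 = (q.1 m).1 ∧ ((p.1 m).2 : ℕ) = ((q.1 m).2 : ℕ) + 1 := by
      by_contra h3
      exact h1 (if_neg h3)
    unfold pbPos
    rw [← Finset.add_sum_erase _ _ (Finset.mem_univ m),
      ← Finset.add_sum_erase (Finset.univ : Finset (Fin 8)) (fun m => ((q.1 m).2 : ℕ))
        (Finset.mem_univ m), h3.2]
    have h4 : ∑ x ∈ (Finset.univ : Finset (Fin 8)).erase m, ((p.1 x).2 : ℕ) =
        ∑ x ∈ (Finset.univ : Finset (Fin 8)).erase m, ((q.1 x).2 : ℕ) := by
      refine Finset.sum_congr rfl fun m' hm' => ?_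
      rw [h2 m' (Finset.ne_of_mem_erase hm')]
    rw [h4]
    ring
  · exact absurd rfl h1

private theorem pbLLk (k : ℕ) (p q : D.J 7) (h : (D.LL 7 ^ k) p q ≠ 0) :
    (∀ m, (p.1 m).1 = (q.1 m).1) ∧ D.pbPos p = D.pbPos q + k := by
  induction k generalizing p with
  | zero =>
    have h1 : p = q := by
      by_contra h2
      rw [pow_zero, Matrix.one_apply_ne h2] at h
      exact h rfl
    subst h1
    exact ⟨fun _ => rfl, rfl⟩
  | succ k ih =>
    rw [pow_succ', Matrix.mul_apply] at h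
    obtain ⟨r, -, h1⟩ := Finset.exists_ne_zero_of_sum_ne_zero h
    obtain ⟨h2, h3⟩ := D.pbLL1 p r (left_ne_zero_of_mul h1)
    obtain ⟨h4, h5⟩ := ih r (right_ne_zero_of_mul h1)
    exact ⟨fun m => (h2 m).trans (h4 m), by omega⟩

private theorem pbPos_lt (i : ℕ) (p : D.J 7) (h : D.pbX i p) : D.pbPos p < 8 * 2 ^ (i + 1) := by
  unfold pbPos
  have h1 : ∀ m : Fin 8, ((p.1 m).2 : ℕ) < 2 ^ (i + 1) := by
    intro m
    have h2 := (p.1 m).2.isLt
    have h3 := Nat.lt_pow_succ_log_self (b := 2) (by norm_num) (D.b (p.1 m).1)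
    rw [h m] at h3
    exact h2.trans h3
  have h2 : ∑ m : Fin 8, ((p.1 m).2 : ℕ) < ∑ m : Fin 8, 2 ^ (i + 1) :=
    Finset.sum_lt_sum_of_nonempty ⟨0, Finset.mem_univ _⟩ fun m _ => h1 m
  simpa using h2

private theorem pbX_congr (i : ℕ) (p q : D.J 7) (h : ∀ m, (p.1 m).1 = (q.1 m).1) :
    D.pbX i p ↔ D.pbX i q := by
  unfold pbX
  simp only [h]

private theorem pbExt (σ : Equiv.Perm (Fin 7)) (m : Fin 8) : ∃ m', ext σ m' = m := by
  refine Fin.lastCases ?_ (fun i => ?_) m
  · exact ⟨Fin.last 7, by unfold ext; exact Fin.lastCases_last⟩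
  · exact ⟨(σ.symm i).castSucc, by simp [ext]⟩

open Classical in
/-- projection to the words of class `i` -/
private noncomputable def pbQ (i : ℕ) : Matrix (D.J 7) (D.J 7) ℂ :=
  diagonal fun p => if D.pbX i p then 1 else 0

private theorem pbQ_comm (i : ℕ) (M : Matrix (D.J 7) (D.J 7) ℂ)
    (h : ∀ p q, M p q ≠ 0 → (D.pbX i p ↔ D.pbX i q)) : Commute (D.pbQ i) M := by
  classical
  unfold Commute SemiconjBy pbQ
  ext p q
  rw [Matrix.diagonal_mul, Matrix.mul_diagonal]
  by_cases hM : M p q = 0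
  · rw [hM, mul_zero, zero_mul]
  · rw [mul_comm]
    congr 1
    simp only [h p q hM]

private noncomputable def pbP : Matrix (D.J 7) (D.J 7) ℂ := ∑ σ, D.PP 7 σ

private theorem pbP_mul (σ : Equiv.Perm (Fin 7)) : D.pbP * D.PP 7 σ = D.pbP := by
  unfold pbP
  rw [Finset.sum_mul]
  simp only [PP_mul]
  exact Fintype.sum_equiv (Equiv.mulLeft σ) _ _ fun _ => rfl

private theorem pbP_sq : D.pbP * D.pbP = (5040 : ℂ) • D.pbP := by
  conv_lhs =>
    rhs
    rw [pbP]
  rw [Finset.mul_sum]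
  simp only [pbP_mul]
  rw [Finset.sum_const, Finset.card_univ, Fintype.card_perm, Fintype.card_fin,
    show Nat.factorial 7 = 5040 from rfl, ← Nat.cast_smul_eq_nsmul ℂ]
  norm_num

private theorem pbPi : ∃ π : D.β → D.β, Function.Injective π ∧ (∀ a, D.b (π a) = D.b a) ∧
    ∀ a, D.χ (π a) = (D.χ a)⁻¹ := by
  classical
  have h : ∀ c : Lam × ℕ, Nonempty ({a : D.β // (D.χ a, D.b a) = c} ≃
      {a : D.β // ((D.χ a)⁻¹, D.b a) = c}) := by
    rintro ⟨μ, s⟩
    rw [← Fintype.card_eq, Fintype.card_subtype, Fintype.card_subtype]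
    have h1 := D.count_symm μ s
    simp only [Prod.mk.injEq]
    rw [h1]
    congr 1
    ext a
    simp only [Finset.mem_filter, Finset.mem_univ, true_and]
    rw [inv_eq_iff_eq_inv]
  let e := Equiv.ofFiberEquiv (f := fun a : D.β => (D.χ a, D.b a))
    (g := fun a : D.β => ((D.χ a)⁻¹, D.b a)) fun c => Classical.choice (h c)
  have he : ∀ a, ((D.χ (e a))⁻¹, D.b (e a)) = (D.χ a, D.b a) := fun a =>
    Equiv.ofFiberEquiv_map (f := fun a : D.β => (D.χ a, D.b a))
      (g := fun a : D.β => ((D.χ a)⁻¹, D.b a)) (fun c => Classical.choice (h c)) a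
  refine ⟨e, e.injective, fun a => (Prod.mk.injEq _ _ _ _ ▸ he a).2, fun a => ?_⟩
  have h2 : (D.χ (e a))⁻¹ = D.χ a := (Prod.mk.injEq _ _ _ _ ▸ he a).1
  rw [← h2, inv_inv]

open Classical in
private theorem pbCard (i : ℕ) : 2 ^ (8 * i) * D.tau i ≤
    (Finset.univ.filter fun p : D.J 7 => D.pbX i p).card := by
  obtain ⟨π, hπ, hb, hχ⟩ := D.pbPi
  rw [← Fintype.card_subtype]
  have hle : ∀ (α : {α : Fin 8 → D.β // (∀ m, Nat.log 2 (D.b (α m)) = i) ∧ ∏ m, D.χ (α m) = 1})
      (m : Fin 8), 2 ^ i ≤ D.b (α.1 m) := by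
    intro α m
    have h1 := Nat.pow_log_le_self 2 (D.hb (α.1 m)).ne'
    rwa [α.2.1 m] at h1
  let ρ : Fin 8 → D.β → D.β := fun m a => if m = Fin.last 7 then a else π a
  have hρb : ∀ m a, D.b (ρ m a) = D.b a := by
    intro m a
    simp only [ρ]
    split_ifs
    · rfl
    · exact hb a
  have hρχ : ∀ m a, D.cb 7 m (ρ m a) = D.χ a := by
    intro m a
    simp only [ρ, cb]
    split_ifs with h
    · rfl
    · rw [hχ, inv_inv]
  have hρ : ∀ m, Function.Injective (ρ m) := by
    intro m a a' h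
    simp only [ρ] at h
    split_ifs at h with h1
    · exact h
    · exact hπ h
  let F : {α : Fin 8 → D.β // (∀ m, Nat.log 2 (D.b (α m)) = i) ∧ ∏ m, D.χ (α m) = 1} ×
      (Fin 8 → Fin (2 ^ i)) → {p : D.J 7 // D.pbX i p} := fun x =>
    ⟨⟨fun m => ⟨ρ m (x.1.1 m), ⟨(x.2 m : ℕ), by
        rw [hρb]
        exact lt_of_lt_of_le (x.2 m).2 (hle x.1 m)⟩⟩, by
      have h1 : ∏ m, D.cb 7 m (ρ m (x.1.1 m)) = 1 := by
        simp only [hρχ]
        exact x.1.2.2
      exact h1⟩, by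
      intro m
      change Nat.log 2 (D.b (ρ m (x.1.1 m))) = i
      rw [hρb]
      exact x.1.2.1 m⟩
  have hF : Function.Injective F := by
    rintro ⟨α, x⟩ ⟨α', x'⟩ h
    have h1 : ∀ m, (((F (α, x)).1.1 m : Idx D.b)) = ((F (α', x')).1.1 m : Idx D.b) := by
      rw [h]
      exact fun _ => rfl
    have h2 : ∀ m, ρ m (α.1 m) = ρ m (α'.1 m) := fun m => congrArg Sigma.fst (h1 m)
    have h3 : ∀ m, (x m : ℕ) = (x' m : ℕ) := fun m =>
      congrArg (fun j : Idx D.b => (j.2 : ℕ)) (h1 m)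
    rw [Prod.mk.injEq]
    refine ⟨Subtype.ext (funext fun m => hρ m (h2 m)), funext fun m => Fin.ext (h3 m)⟩
  have h := Fintype.card_le_of_injective F hF
  rw [Fintype.card_prod, Fintype.card_fun, Fintype.card_fin, Fintype.card_fin, ← pow_mul] at h
  unfold tau
  rw [mul_comm, mul_comm 8 i]
  convert h using 1

private theorem pbPQ (i : ℕ) : Commute (D.pbQ i) D.pbP := by
  unfold pbP
  apply Commute.sum_right
  intro σ _
  apply D.pbQ_comm
  intro p q h
  have h1 := D.PP_label 7 σ p q h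
  unfold pbX
  simp only [h1]
  constructor
  · intro h2 m
    obtain ⟨m', rfl⟩ := pbExt σ m
    exact h2 m'
  · intro h2 m
    exact h2 _

private theorem pbQQ (i : ℕ) : D.pbQ i * D.pbQ i = D.pbQ i := by
  unfold pbQ
  rw [Matrix.diagonal_mul_diagonal]
  congr 1
  funext p
  split_ifs <;> simp

private theorem pbPr : ((1 / 5040 : ℂ) • D.pbP) * ((1 / 5040 : ℂ) • D.pbP) =
    (1 / 5040 : ℂ) • D.pbP := by
  rw [Matrix.smul_mul, Matrix.mul_smul, D.pbP_sq, smul_smul, smul_smul]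
  congr 1
  norm_num

private theorem pbMul (M N : Matrix (D.J 7) (D.J 7) ℂ) :
    (M.mulVecLin * N.mulVecLin : Module.End ℂ (D.J 7 → ℂ)) = (M * N).mulVecLin := by
  rw [Module.End.mul_eq_comp, ← Matrix.mulVecLin_mul]

private theorem pbPow (M : Matrix (D.J 7) (D.J 7) ℂ) (k : ℕ) :
    ((M.mulVecLin : Module.End ℂ (D.J 7 → ℂ)) ^ k) = (M ^ k).mulVecLin := by
  induction k with
  | zero => rw [pow_zero, pow_zero, Matrix.mulVecLin_one]; rfl
  | succ k ih => rw [pow_succ, pow_succ, ih, pbMul]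

private theorem pbNil (i : ℕ) : D.LL 7 ^ (8 * 2 ^ (i + 1)) * D.pbQ i = 0 := by
  classical
  ext p q
  rw [Matrix.zero_apply, pbQ, Matrix.mul_diagonal]
  by_cases h : D.pbX i q
  · rw [if_pos h, mul_one]
    by_contra h1
    obtain ⟨h2, h3⟩ := D.pbLLk _ p q h1
    have h4 := D.pbPos_lt i p ((D.pbX_congr i p q h2).mpr h)
    omega
  · rw [if_neg h, mul_zero]

private theorem pbImg : img (D.ZS 7) ≤ LinearMap.range (D.LL 7).mulVecLin ⊔
    LinearMap.range (D.YY 7).mulVecLin ⊔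
    LinearMap.ker ((1 / 5040 : ℂ) • D.pbP).mulVecLin := by
  unfold img
  apply iSup_le
  rintro (r | σ)
  · apply le_sup_of_le_left
    fin_cases r
    · exact le_sup_left
    · exact le_sup_right
  · apply le_sup_of_le_right
    rintro _ ⟨w, rfl⟩
    rw [LinearMap.mem_ker]
    have h1 : ((1 / 5040 : ℂ) • D.pbP) * (1 - D.PP 7 σ) = 0 := by
      rw [mul_sub, mul_one, Matrix.smul_mul, D.pbP_mul, sub_self]
    have h2 : D.ZS 7 (Sum.inr σ) = 1 - D.PP 7 σ := rfl
    rw [h2, Matrix.mulVecLin_apply, Matrix.mulVecLin_apply, Matrix.mulVec_mulVec, h1,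
      Matrix.zero_mulVec]

open Classical in
private theorem pbRank (i : ℕ) : (Finset.univ.filter fun p : D.J 7 => D.pbX i p).card ≤
    5040 * finrank ℂ ↥(LinearMap.range ((D.pbQ i * ((1 / 5040 : ℂ) • D.pbP)).mulVecLin :
      Module.End ℂ (D.J 7 → ℂ))) := by
  have hQQ := D.pbQQ i
  have hPQ := D.pbPQ i
  have hPr := D.pbPr
  have hPrQ : Commute (D.pbQ i) ((1 / 5040 : ℂ) • D.pbP) := hPQ.smul_right _
  have hf : IsIdempotentElem ((D.pbQ i * ((1 / 5040 : ℂ) • D.pbP)).mulVecLin :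
      Module.End ℂ (D.J 7 → ℂ)) := by
    unfold IsIdempotentElem
    rw [Module.End.mul_eq_comp, ← Matrix.mulVecLin_mul]
    congr 1
    rw [mul_assoc, ← mul_assoc _ (D.pbQ i), ← hPrQ.eq, mul_assoc, hPr, ← mul_assoc, hQQ]
  have h1 := (LinearMap.IsIdempotentElem.isProj_range _ hf).trace
  rw [← Matrix.toLin'_apply', Matrix.trace_toLin'_eq] at h1
  have h2 : (D.pbQ i * ((1 / 5040 : ℂ) • D.pbP)).trace * 5040 =
      ((∑ p : D.J 7, if D.pbX i p then
        (Finset.univ.filter fun σ : Equiv.Perm (Fin 7) => p.1 = fun m => p.1 (ext σ m)).card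
          else 0 : ℕ) : ℂ) := by
    rw [Matrix.trace, Finset.sum_mul, Nat.cast_sum]
    refine Finset.sum_congr rfl fun p _ => ?_
    rw [Matrix.diag_apply, pbQ, Matrix.diagonal_mul, Matrix.smul_apply]
    by_cases h : D.pbX i p
    · rw [if_pos h, if_pos h, pbP, Matrix.sum_apply, one_mul, smul_eq_mul, Finset.card_filter,
        Nat.cast_sum]
      have h3 : ∀ σ : Equiv.Perm (Fin 7), D.PP 7 σ p p =
          ((if p.1 = fun m => p.1 (ext σ m) then 1 else 0 : ℕ) : ℂ) := by
        intro σ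
        change (if p.1 = fun m => p.1 (ext σ m) then (1 : ℂ) else 0) = _
        split_ifs <;> simp
      simp only [h3]
      ring
    · rw [if_neg h, if_neg h]
      simp
  rw [h1] at h2
  have h3 : finrank ℂ ↥(LinearMap.range (Matrix.toLin' (D.pbQ i * ((1 / 5040 : ℂ) • D.pbP)))) *
      5040 = ∑ p : D.J 7, if D.pbX i p then
        (Finset.univ.filter fun σ : Equiv.Perm (Fin 7) => p.1 = fun m => p.1 (ext σ m)).card
          else 0 := by
    exact_mod_cast h2
  rw [← Matrix.toLin'_apply', mul_comm, h3, Finset.card_filter]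
  apply Finset.sum_le_sum
  intro p _
  split_ifs
  · rw [Nat.one_le_iff_ne_zero, Finset.card_ne_zero]
    refine ⟨1, ?_⟩
    rw [Finset.mem_filter]
    refine ⟨Finset.mem_univ _, ?_⟩
    by_contra h4
    have h5 : D.PP 7 1 p p = 0 := if_neg h4
    rw [D.PP_one, Matrix.one_apply_eq] at h5
    exact one_ne_zero h5
  · exact le_rfl

theorem pb (D : JD) (hD : D.Gen) : D.AA ≤ 1290240 * ck (D.ZS 7) := by
  classical
  obtain ⟨i, -, hi⟩ := Finset.exists_mem_eq_sup (Finset.range (D.n + 1))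
    ⟨0, Finset.mem_range.mpr (Nat.succ_pos _)⟩ (fun i => 2 ^ (6 * i) * D.tau i)
  have hAA : D.AA = 2 ^ (6 * i) * D.tau i := hi
  have h1 := (D.pbCard i).trans (D.pbRank i)
  have hQl : Commute (D.pbQ i) (D.LL 7) :=
    D.pbQ_comm i _ fun p q h => D.pbX_congr i p q (D.LL_label 7 p q h)
  have hPl : Commute D.pbP (D.LL 7) := by
    unfold pbP
    exact Commute.sum_left _ _ _ fun σ _ => D.PP_LL 7 σ
  have hPy : Commute D.pbP (D.YY 7) := by
    unfold pbP
    exact Commute.sum_left _ _ _ fun σ _ => D.PP_YY 7 σ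
  have com : ∀ M N : Matrix (D.J 7) (D.J 7) ℂ, Commute M N →
      Commute (M.mulVecLin : Module.End ℂ (D.J 7 → ℂ)) N.mulVecLin := by
    intro M N h
    unfold Commute SemiconjBy
    rw [pbMul, pbMul, h.eq]
  have h2 := pbAbs ((D.LL 7).mulVecLin) ((D.YY 7).mulVecLin)
    (((1 / 5040 : ℂ) • D.pbP).mulVecLin) ((D.pbQ i).mulVecLin)
    (com _ _ (D.LL_YY 7)) hD.w (by rw [pbMul, D.pbPr]) (by rw [pbMul, D.pbQQ])
    (com _ _ (hPl.smul_left _)) (com _ _ (hPy.smul_left _)) (com _ _ ((D.pbPQ i).symm.smul_left _))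
    (com _ _ hQl) (8 * 2 ^ (i + 1)) (by rw [pbPow, pbMul, D.pbNil]; exact Matrix.mulVecLin_zero)
  rw [pbMul] at h2
  have h3 : finrank ℂ ((D.J 7 → ℂ) ⧸ (LinearMap.range (D.LL 7).mulVecLin ⊔
      LinearMap.range (D.YY 7).mulVecLin ⊔
      LinearMap.ker ((1 / 5040 : ℂ) • D.pbP).mulVecLin)) ≤ ck (D.ZS 7) := by
    unfold ck
    refine LinearMap.finrank_le_finrank_of_surjective
      (f := Submodule.mapQ (img (D.ZS 7)) _ LinearMap.id (D.pbImg.trans (by rw [Submodule.comap_id]))) ?_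
    intro x
    obtain ⟨w, rfl⟩ := Submodule.Quotient.mk_surjective _ x
    exact ⟨Submodule.Quotient.mk w, rfl⟩
  have h4 := h1.trans (Nat.mul_le_mul_left _ (h2.trans (Nat.mul_le_mul_left _ h3)))
  have h5 : 2 ^ (2 * i) * D.AA ≤ 2 ^ (2 * i) * (1290240 * ck (D.ZS 7)) := by
    calc 2 ^ (2 * i) * D.AA = 2 ^ (8 * i) * D.tau i := by
          rw [hAA, ← mul_assoc, ← pow_add]
          congr 2
          omega
      _ ≤ _ := h4
      _ = 2 ^ (2 * i) * (1290240 * ck (D.ZS 7)) := by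
          rw [mul_pow, ← pow_mul, show (i + 1) * 2 = 2 * i + 2 from by ring, pow_add]
          ring
  exact Nat.le_of_mul_le_mul_left h5 (by positivity)

end JD

end Pool.Agent.INV5
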