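import Pool.Agent.INV5.WO3
import Pool.Agent.INV5.PA

/-!
# INV5, module PC: coinvariants and even coinvariants in degree seven

`re p`: the character of the last letter (the vector letter) of the word `p` is real, i.e. of square one.
All operators `LL`, `YY`, `PP σ`, `AA1` preserve the character of the last letter and `TT` inverts it
(`*_label` of WO3), so by `ck_sum` `ck (ZS 7)` and `cpl 7 = ck (ZG 7)` are the sums of the contributions
of the words with `re` and with `¬ re`.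
* Words with `¬ re`: let `P` be the quotient of the functions by `img (rs (ZS 7) ¬re)`, with the
  involution `T` induced by `TT` (it preserves the image: `TT` anticommutes with `LL`, `YY` and commutes
  with `PP σ`). `P / (1 - T) P` has dimension `ck (rs (ZG 7) ¬re)`. Choose a set of characters which
  contains exactly one of `μ, μ⁻¹` whenever `μ ^ 2 ≠ 1` (e.g. by a linear order on `Lam`) and let `κ` be
  the diagonal matrix with entry `1` if the last character is in the set and `-1` otherwise. `κ` is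
  invertible, commutes with `LL`, `YY`, `PP σ` and anticommutes with `TT`. By `swap` with `k = 1`:
  `dim P ≤ 2 ck (rs (ZG 7) ¬re)`.
* Words with `re`: `f_1 = AA1 last 1` and `f_3 = ∑_{m < 7} AA1 m 3` commute with `LL`, `YY`, `PP σ` and
  anticommute with `TT`. By `swap` with `k = 2`: `dim P ≤ 3 ck (rs (ZG 7) re) + dim P / (f_1 P + f_3 P)`.
-/

namespace Pool.Agent.INV5

open Matrix Module

section abs

variable {J : Type} [Fintype J] [DecidableEq J]

private theorem PC_le {κ : Type*} (Z : κ → Matrix J J ℂ) (A : Matrix J J ℂ)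
    (h : ∀ r v, A.mulVec ((Z r).mulVec v) ∈ img Z) : img Z ≤ (img Z).comap A.mulVecLin := by
  apply img_le
  intro r v
  rw [Submodule.mem_comap]
  exact h r v

private theorem PC_mapQ (S : Submodule ℂ (J → ℂ)) (A : Module.End ℂ (J → ℂ))
    (h : S ≤ S.comap A) :
    LinearMap.range (S.mapQ S A h) = (LinearMap.range A).map S.mkQ := by
  apply le_antisymm
  · rintro _ ⟨v, rfl⟩
    obtain ⟨v, rfl⟩ := S.mkQ_surjective v
    exact ⟨A v, ⟨v, rfl⟩, rfl⟩
  · rintro _ ⟨_, ⟨v, rfl⟩, rfl⟩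
    exact ⟨S.mkQ v, rfl⟩

private theorem PC_swap {κ : Type*} (Z : κ → Matrix J J ℂ) (T : Matrix J J ℂ) (hT : T * T = 1)
    (hTZ : ∀ r v, T.mulVec ((Z r).mulVec v) ∈ img Z) {k : ℕ} (f : Fin k → Matrix J J ℂ)
    (hfZ : ∀ i r v, (f i).mulVec ((Z r).mulVec v) ∈ img Z) (hTf : ∀ i, T * f i = -(f i * T)) :
    ck Z ≤ (k + 1) * finrank ℂ ((J → ℂ) ⧸ (img Z ⊔ LinearMap.range (1 - T).mulVecLin)) +
      finrank ℂ ((J → ℂ) ⧸ (img Z ⊔ ⨆ i, LinearMap.range (f i).mulVecLin)) := by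
  have hle := PC_le Z T hTZ
  have hlf := fun i => PC_le Z (f i) (hfZ i)
  have hle1 : img Z ≤ (img Z).comap (1 - T).mulVecLin := by
    intro v hv
    rw [Submodule.mem_comap, mulVecLin_apply, sub_mulVec, one_mulVec]
    exact sub_mem hv (hle hv)
  have h1 := swap (W := (J → ℂ) ⧸ img Z) ((img Z).mapQ (img Z) T.mulVecLin hle) (by
    apply LinearMap.ext
    intro x
    obtain ⟨v, rfl⟩ := (img Z).mkQ_surjective x
    have e : T.mulVecLin (T.mulVecLin v) = v := by
      rw [mulVecLin_apply, mulVecLin_apply, mulVec_mulVec, hT, one_mulVec]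
    change (img Z).mkQ (T.mulVecLin (T.mulVecLin v)) = (img Z).mkQ v
    rw [e]) (fun i => (img Z).mapQ (img Z) (f i).mulVecLin (hlf i)) (by
    intro i
    apply LinearMap.ext
    intro x
    obtain ⟨v, rfl⟩ := (img Z).mkQ_surjective x
    have e : T.mulVecLin ((f i).mulVecLin v) = -((f i).mulVecLin (T.mulVecLin v)) := by
      rw [mulVecLin_apply, mulVecLin_apply, mulVecLin_apply, mulVecLin_apply, mulVec_mulVec,
        mulVec_mulVec, hTf, neg_mulVec]
    change (img Z).mkQ (T.mulVecLin ((f i).mulVecLin v)) =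
      -((img Z).mkQ ((f i).mulVecLin (T.mulVecLin v)))
    rw [e, map_neg])
  have h2 : (1 - (img Z).mapQ (img Z) T.mulVecLin hle : Module.End ℂ ((J → ℂ) ⧸ img Z)) =
      (img Z).mapQ (img Z) (1 - T).mulVecLin hle1 := by
    apply LinearMap.ext
    intro x
    obtain ⟨v, rfl⟩ := (img Z).mkQ_surjective x
    change (img Z).mkQ v - (img Z).mkQ (T.mulVecLin v) = (img Z).mkQ ((1 - T).mulVecLin v)
    rw [← map_sub]
    congr 1
    rw [mulVecLin_apply, mulVecLin_apply, sub_mulVec, one_mulVec]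
  rw [h2, PC_mapQ] at h1
  have h3 : (⨆ i, LinearMap.range ((img Z).mapQ (img Z) (f i).mulVecLin (hlf i))) =
      (⨆ i, LinearMap.range (f i).mulVecLin).map (img Z).mkQ := by
    rw [Submodule.map_iSup]
    exact iSup_congr fun i => PC_mapQ _ _ _
  rw [h3] at h1
  rw [(Submodule.quotientQuotientEquivQuotientSup (img Z)
    (LinearMap.range (1 - T).mulVecLin)).finrank_eq,
    (Submodule.quotientQuotientEquivQuotientSup (img Z)
    (⨆ i, LinearMap.range (f i).mulVecLin)).finrank_eq] at h1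
  exact h1

private theorem PC_fin {κ' : Type*} (Z' : κ' → Matrix J J ℂ) (S : Submodule ℂ (J → ℂ))
    (h : img Z' ≤ S) : finrank ℂ ((J → ℂ) ⧸ S) ≤ ck Z' := by
  have h1 : Function.Surjective ((img Z').mapQ S LinearMap.id h) := by
    intro x
    obtain ⟨v, rfl⟩ := S.mkQ_surjective x
    exact ⟨(img Z').mkQ v, rfl⟩
  exact LinearMap.finrank_le_finrank_of_surjective h1

/-- block submatrix -/
private def PC_sub (A : Matrix J J ℂ) (p : J → Prop) : Matrix {i // p i} {i // p i} ℂ :=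
  A.submatrix Subtype.val Subtype.val

private theorem PC_sub_mul (A B : Matrix J J ℂ) (p : J → Prop) [DecidablePred p]
    (h : ∀ i k, A i k ≠ 0 → (p i ↔ p k)) : PC_sub (A * B) p = PC_sub A p * PC_sub B p := by
  ext i k
  change (A * B) i.1 k.1 = (PC_sub A p * PC_sub B p) i k
  rw [mul_apply, mul_apply]
  have h1 : ∀ j : J, A i.1 j * B j k.1 = if p j then A i.1 j * B j k.1 else 0 := by
    intro j
    by_cases hj : p j
    · rw [if_pos hj]
    · rw [if_neg hj]
      have h2 : A i.1 j = 0 := by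
        by_contra hne
        exact hj ((h _ _ hne).1 i.2)
      rw [h2, zero_mul]
  rw [Finset.sum_congr rfl (fun j _ => h1 j), ← Finset.sum_filter]
  exact Finset.sum_subtype (Finset.univ.filter p) (by simp) (fun j => A i.1 j * B j k.1)

private theorem PC_sub_one (p : J → Prop) [DecidablePred p] : PC_sub (1 : Matrix J J ℂ) p = 1 := by
  ext i k
  change (1 : Matrix J J ℂ) i.1 k.1 = (1 : Matrix {i // p i} {i // p i} ℂ) i k
  rw [one_apply, one_apply]
  simp [Subtype.ext_iff]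

private theorem PC_comm {κ : Type*} (Z : κ → Matrix J J ℂ) (p : J → Prop) [DecidablePred p]
    (hZ : ∀ r i k, Z r i k ≠ 0 → (p i ↔ p k)) (A : Matrix J J ℂ)
    (hA : ∀ i k, A i k ≠ 0 → (p i ↔ p k)) (h : ∀ r, A * Z r = Z r * A ∨ A * Z r = -(Z r * A))
    (r : κ) (v : {i // p i} → ℂ) :
    (PC_sub A p).mulVec ((rs Z p r).mulVec v) ∈ img (rs Z p) := by
  have e : rs Z p r = PC_sub (Z r) p := rfl
  rw [mulVec_mulVec, e, ← PC_sub_mul _ _ _ hA]
  rcases h r with h1 | h1
  · rw [h1, PC_sub_mul _ _ _ (hZ r), ← e, ← mulVec_mulVec]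
    exact mem_img _ _ _
  · have e2 : PC_sub (-(Z r * A)) p = -PC_sub (Z r * A) p := rfl
    rw [h1, e2, PC_sub_mul _ _ _ (hZ r), ← e, neg_mulVec, ← mulVec_mulVec]
    exact neg_mem (mem_img _ _ _)

end abs

end Pool.Agent.INV5

namespace Pool.Agent.INV5.JD

open Matrix Module

/-- the vector letter has a real character -/
def re (D : JD) (p : D.J 7) : Prop := D.χ (p.1 (Fin.last 7)).1 ^ 2 = 1

noncomputable instance (D : JD) : DecidablePred D.re := fun _ => Classical.dec _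

/-- the operators of `ZS 7` together with two odd operators -/
noncomputable def ZF (D : JD) :
    (Fin 2 ⊕ Equiv.Perm (Fin 7)) ⊕ Fin 2 → Matrix (D.J 7) (D.J 7) ℂ :=
  Sum.elim (D.ZS 7) ![D.AA1 7 (Fin.last 7) 1, ∑ m : Fin 7, D.AA1 7 m.castSucc 3]

private noncomputable def PC_lab (D : JD) (p : D.J 7) : Lam := D.χ (p.1 (Fin.last 7)).1

private theorem PC_ZS_lab (D : JD) (r : Fin 2 ⊕ Equiv.Perm (Fin 7)) (p q : D.J 7)
    (h : D.ZS 7 r p q ≠ 0) : D.PC_lab p = D.PC_lab q := by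
  unfold PC_lab
  rcases r with r | σ
  · fin_cases r
    · rw [D.LL_label 7 p q h]
    · exact D.YY_label 7 p q h _
  · change (1 - D.PP 7 σ) p q ≠ 0 at h
    by_cases hpq : p = q
    · rw [hpq]
    · rw [Matrix.sub_apply, one_apply_ne hpq, zero_sub, neg_ne_zero] at h
      rw [D.PP_label 7 σ p q h, ext_last]

private theorem PC_TT_lab (D : JD) (p q : D.J 7) (h : D.TT 7 p q ≠ 0) :
    D.PC_lab p * D.PC_lab q = 1 := D.TT_label 7 p q h _

private theorem PC_re_of_eq (D : JD) {p q : D.J 7} (h : D.PC_lab p = D.PC_lab q) :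
    D.re p ↔ D.re q := by
  unfold PC_lab at h
  unfold re
  rw [h]

private theorem PC_re_of_mul (D : JD) {p q : D.J 7} (h : D.PC_lab p * D.PC_lab q = 1) :
    D.re p ↔ D.re q := by
  unfold PC_lab at h
  unfold re
  rw [eq_inv_of_mul_eq_one_left h, inv_pow, inv_eq_one]

private theorem PC_ZS_T (D : JD) (r : Fin 2 ⊕ Equiv.Perm (Fin 7)) :
    D.TT 7 * D.ZS 7 r = D.ZS 7 r * D.TT 7 ∨ D.TT 7 * D.ZS 7 r = -(D.ZS 7 r * D.TT 7) := by
  rcases r with r | σ
  · right
    fin_cases r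
    · exact D.TT_LL 7
    · exact D.TT_YY 7
  · left
    change D.TT 7 * (1 - D.PP 7 σ) = (1 - D.PP 7 σ) * D.TT 7
    rw [mul_sub, sub_mul, mul_one, one_mul, (D.PP_TT 7 σ).eq]

private theorem PC_ZS_comm (D : JD) (A : Matrix (D.J 7) (D.J 7) ℂ) (h1 : Commute A (D.LL 7))
    (h2 : Commute A (D.YY 7)) (h3 : ∀ σ, Commute (D.PP 7 σ) A) (r : Fin 2 ⊕ Equiv.Perm (Fin 7)) :
    A * D.ZS 7 r = D.ZS 7 r * A ∨ A * D.ZS 7 r = -(D.ZS 7 r * A) := by
  left
  rcases r with r | σ
  · fin_cases r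
    · exact h1.eq
    · exact h2.eq
  · change A * (1 - D.PP 7 σ) = (1 - D.PP 7 σ) * A
    rw [mul_sub, sub_mul, mul_one, one_mul, (h3 σ).eq]

/-- the coinvariants with the involution -/
private theorem PC_G (D : JD) (p : D.J 7 → Prop) [DecidablePred p] :
    img (rs (D.ZG 7) p) ≤ img (rs (D.ZS 7) p) ⊔
      LinearMap.range (1 - PC_sub (D.TT 7) p).mulVecLin := by
  apply img_le
  intro r v
  rcases r with r | σ
  · fin_cases r
    · exact Submodule.mem_sup_left (mem_img (rs (D.ZS 7) p) (Sum.inl 0) v)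
    · exact Submodule.mem_sup_left (mem_img (rs (D.ZS 7) p) (Sum.inl 1) v)
    · apply Submodule.mem_sup_right
      refine ⟨v, ?_⟩
      have e : rs (D.ZG 7) p (Sum.inl 2) = 1 - PC_sub (D.TT 7) p := by
        rw [← PC_sub_one p]
        rfl
      change (1 - PC_sub (D.TT 7) p).mulVec v = (rs (D.ZG 7) p (Sum.inl 2)).mulVec v
      rw [e]
  · exact Submodule.mem_sup_left (mem_img (rs (D.ZS 7) p) (Sum.inr σ) v)

private theorem PC_set : ∃ S : Set Lam, ∀ μ : Lam, μ ^ 2 ≠ 1 → (μ ∈ S ↔ μ⁻¹ ∉ S) := by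
  refine ⟨{μ | WellOrderingRel μ μ⁻¹}, fun μ hμ => ?_⟩
  have hne : μ ≠ μ⁻¹ := by
    intro h
    apply hμ
    rw [sq]
    nth_rewrite 2 [h]
    exact mul_inv_cancel μ
  change WellOrderingRel μ μ⁻¹ ↔ ¬ WellOrderingRel μ⁻¹ μ⁻¹⁻¹
  rw [inv_inv]
  constructor
  · intro h h'
    exact asymm_of WellOrderingRel h h'
  · intro h
    rcases trichotomous_of WellOrderingRel μ μ⁻¹ with h1 | h1 | h1
    · exact h1
    · exact absurd h1 hne
    · exact absurd h1 h

private theorem PC_a (D : JD) : ck (rs (D.ZS 7) fun i => ¬ D.re i) ≤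
    2 * ck (rs (D.ZG 7) fun i => ¬ D.re i) := by
  classical
  obtain ⟨S, hS⟩ := PC_set
  obtain ⟨d, hd⟩ : ∃ d : D.J 7 → ℂ, d = fun p => if D.PC_lab p ∈ S then 1 else -1 := ⟨_, rfl⟩
  obtain ⟨K, hK⟩ : ∃ K : Matrix (D.J 7) (D.J 7) ℂ, K = diagonal d := ⟨_, rfl⟩
  have hdd : ∀ p, d p * d p = 1 := by
    intro p
    rw [hd]
    simp only
    split_ifs <;> norm_num
  have hZp : ∀ r i k, D.ZS 7 r i k ≠ 0 → ((¬ D.re i) ↔ ¬ D.re k) := fun r i k h =>
    not_congr (D.PC_re_of_eq (D.PC_ZS_lab r i k h))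
  have hTp : ∀ i k, D.TT 7 i k ≠ 0 → ((¬ D.re i) ↔ ¬ D.re k) := fun i k h =>
    not_congr (D.PC_re_of_mul (D.PC_TT_lab i k h))
  have hKp : ∀ i k, K i k ≠ 0 → ((¬ D.re i) ↔ ¬ D.re k) := by
    intro i k h
    have : i = k := by
      by_contra hne
      rw [hK, diagonal_apply_ne _ hne] at h
      exact h rfl
    rw [this]
  have hKZ : ∀ r, K * D.ZS 7 r = D.ZS 7 r * K ∨ K * D.ZS 7 r = -(D.ZS 7 r * K) := by
    intro r
    left
    ext i k
    rw [hK, diagonal_mul, mul_diagonal]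
    by_cases h : D.ZS 7 r i k = 0
    · rw [h, mul_zero, zero_mul]
    · have h1 : d i = d k := by
        rw [hd]
        simp only
        rw [D.PC_ZS_lab r i k h]
      rw [h1, mul_comm]
  have h1 := PC_swap (rs (D.ZS 7) fun i => ¬ D.re i) (PC_sub (D.TT 7) fun i => ¬ D.re i) (by
      rw [← PC_sub_mul _ _ _ hTp, D.TT_TT 7, PC_sub_one])
    (PC_comm _ _ hZp _ hTp D.PC_ZS_T) (k := 1) (fun _ => PC_sub K fun i => ¬ D.re i)
    (fun _ => PC_comm _ _ hZp _ hKp hKZ) (by
      intro _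
      ext i k
      change (PC_sub (D.TT 7) (fun i => ¬ D.re i) * PC_sub K fun i => ¬ D.re i) i k =
        -((PC_sub K (fun i => ¬ D.re i) * PC_sub (D.TT 7) fun i => ¬ D.re i) i k)
      rw [← PC_sub_mul _ _ _ hTp, ← PC_sub_mul _ _ _ hKp]
      change (D.TT 7 * K) i.1 k.1 = -((K * D.TT 7) i.1 k.1)
      rw [hK, mul_diagonal, diagonal_mul]
      by_cases h : D.TT 7 i.1 k.1 = 0
      · rw [h, mul_zero, zero_mul, neg_zero]
      · have h2 := D.PC_TT_lab _ _ h
        have h3 : D.PC_lab i.1 ^ 2 ≠ 1 := i.2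
        have h4 := hS _ h3
        rw [inv_eq_of_mul_eq_one_right h2] at h4
        have h5 : d k.1 = -d i.1 := by
          rw [hd]
          simp only
          by_cases h6 : D.PC_lab i.1 ∈ S
          · rw [if_pos h6, if_neg (h4.1 h6)]
          · rw [if_neg h6, if_pos (not_not.1 (fun h7 => h6 (h4.2 h7)))]
            ring
        rw [h5]
        ring)
  have h2 : (img (rs (D.ZS 7) fun i => ¬ D.re i) ⊔
      ⨆ _ : Fin 1, LinearMap.range (PC_sub K fun i => ¬ D.re i).mulVecLin) = ⊤ := by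
    rw [eq_top_iff]
    intro v _
    apply Submodule.mem_sup_right
    apply Submodule.mem_iSup_of_mem 0
    refine ⟨(PC_sub K fun i => ¬ D.re i).mulVec v, ?_⟩
    rw [mulVecLin_apply, mulVec_mulVec, ← PC_sub_mul _ _ _ hKp]
    have h3 : K * K = 1 := by
      rw [hK, diagonal_mul_diagonal]
      simp only [hdd]
      exact diagonal_one
    rw [h3, PC_sub_one, one_mulVec]
  rw [h2] at h1
  have h3 := PC_fin _ _ (D.PC_G fun i => ¬ D.re i)
  have h4 : finrank ℂ (({i // ¬ D.re i} → ℂ) ⧸ (⊤ : Submodule ℂ ({i // ¬ D.re i} → ℂ))) = 0 :=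
    finrank_zero_of_subsingleton
  rw [h4] at h1
  omega

private theorem PC_b (D : JD) : ck (rs (D.ZS 7) D.re) ≤
    3 * ck (rs (D.ZG 7) D.re) + ck (rs D.ZF D.re) := by
  classical
  obtain ⟨f, hf⟩ : ∃ f : Fin 2 → Matrix (D.J 7) (D.J 7) ℂ,
    f = ![D.AA1 7 (Fin.last 7) 1, ∑ m : Fin 7, D.AA1 7 m.castSucc 3] := ⟨_, rfl⟩
  have hZp : ∀ r i k, D.ZS 7 r i k ≠ 0 → (D.re i ↔ D.re k) := fun r i k h =>
    D.PC_re_of_eq (D.PC_ZS_lab r i k h)
  have hTp : ∀ i k, D.TT 7 i k ≠ 0 → (D.re i ↔ D.re k) := fun i k h =>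
    D.PC_re_of_mul (D.PC_TT_lab i k h)
  have hfp : ∀ j i k, f j i k ≠ 0 → (D.re i ↔ D.re k) := by
    intro j i k h
    apply D.PC_re_of_eq
    unfold PC_lab
    rw [hf] at h
    fin_cases j
    · rw [D.AA1_label 7 _ _ i k h]
    · change (∑ m : Fin 7, D.AA1 7 m.castSucc 3) i k ≠ 0 at h
      rw [Matrix.sum_apply] at h
      obtain ⟨m, _, hm⟩ := Finset.exists_ne_zero_of_sum_ne_zero h
      rw [D.AA1_label 7 _ _ i k hm]
  have hfL : ∀ j, Commute (f j) (D.LL 7) := by
    intro j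
    rw [hf]
    fin_cases j
    · exact D.AA1_LL 7 _ _
    · change Commute (∑ m : Fin 7, D.AA1 7 m.castSucc 3) (D.LL 7)
      exact Commute.sum_left _ _ _ fun m _ => D.AA1_LL 7 _ _
  have hfY : ∀ j, Commute (f j) (D.YY 7) := by
    intro j
    rw [hf]
    fin_cases j
    · exact D.AA1_YY 7 _ _
    · change Commute (∑ m : Fin 7, D.AA1 7 m.castSucc 3) (D.YY 7)
      exact Commute.sum_left _ _ _ fun m _ => D.AA1_YY 7 _ _
  have hfP : ∀ j σ, Commute (D.PP 7 σ) (f j) := by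
    intro j σ
    rw [hf]
    fin_cases j
    · have h := D.PP_AA1 7 σ (Fin.last 7) 1
      rw [ext_last] at h
      exact h
    · change D.PP 7 σ * (∑ m : Fin 7, D.AA1 7 m.castSucc 3) =
        (∑ m : Fin 7, D.AA1 7 m.castSucc 3) * D.PP 7 σ
      rw [← Equiv.sum_comp σ (fun m : Fin 7 => D.AA1 7 m.castSucc 3), Finset.mul_sum]
      rw [Equiv.sum_comp σ (fun m : Fin 7 => D.AA1 7 m.castSucc 3), Finset.sum_mul]
      refine Finset.sum_congr rfl fun m _ => ?_
      have h := D.PP_AA1 7 σ m.castSucc 3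
      rw [ext_castSucc] at h
      exact h
  have hTf : ∀ j, D.TT 7 * f j = -(f j * D.TT 7) := by
    intro j
    rw [hf]
    fin_cases j
    · have h := D.TT_AA1 7 (Fin.last 7) 1
      rw [pow_one, neg_smul, one_smul] at h
      exact h
    · change D.TT 7 * (∑ m : Fin 7, D.AA1 7 m.castSucc 3) =
        -((∑ m : Fin 7, D.AA1 7 m.castSucc 3) * D.TT 7)
      rw [Finset.mul_sum, Finset.sum_mul, ← Finset.sum_neg_distrib]
      refine Finset.sum_congr rfl fun m _ => ?_
      have h := D.TT_AA1 7 m.castSucc 3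
      have e : ((-1 : ℂ)) ^ 3 = -1 := by norm_num
      rw [e, neg_smul, one_smul] at h
      exact h
  have h1 := PC_swap (rs (D.ZS 7) D.re) (PC_sub (D.TT 7) D.re) (by
      rw [← PC_sub_mul _ _ _ hTp, D.TT_TT 7, PC_sub_one])
    (PC_comm _ _ hZp _ hTp D.PC_ZS_T) (k := 2) (fun j => PC_sub (f j) D.re)
    (fun j => PC_comm _ _ hZp _ (hfp j) (D.PC_ZS_comm _ (hfL j) (hfY j) (hfP j))) (by
      intro j
      rw [← PC_sub_mul _ _ _ hTp, ← PC_sub_mul _ _ _ (hfp j), hTf]
      rfl)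
  have h2 : img (rs D.ZF D.re) ≤ img (rs (D.ZS 7) D.re) ⊔
      ⨆ j : Fin 2, LinearMap.range (PC_sub (f j) D.re).mulVecLin := by
    apply img_le
    intro r v
    rcases r with r | j
    · exact Submodule.mem_sup_left (mem_img (rs (D.ZS 7) D.re) r v)
    · apply Submodule.mem_sup_right
      apply Submodule.mem_iSup_of_mem j
      rw [hf]
      exact ⟨v, rfl⟩
  have h3 := PC_fin _ _ (D.PC_G D.re)
  have h4 := PC_fin _ _ h2
  omega

theorem pc (D : JD) : ck (D.ZS 7) ≤ 3 * D.cpl 7 + ck (rs D.ZF D.re) := by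
  classical
  have h1 := ck_sum (D.ZS 7) D.re (fun r i k h => D.PC_re_of_eq (D.PC_ZS_lab r i k h))
  have h2 := ck_sum (D.ZG 7) D.re (by
    intro r i k h
    rcases r with r | σ
    · fin_cases r
      · exact D.PC_re_of_eq (D.PC_ZS_lab (Sum.inl 0) i k h)
      · exact D.PC_re_of_eq (D.PC_ZS_lab (Sum.inl 1) i k h)
      · change (1 - D.TT 7) i k ≠ 0 at h
        by_cases hik : i = k
        · rw [hik]
        · rw [Matrix.sub_apply, one_apply_ne hik, zero_sub, neg_ne_zero] at h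
          exact D.PC_re_of_mul (D.PC_TT_lab i k h)
    · exact D.PC_re_of_eq (D.PC_ZS_lab (Sum.inr σ) i k h))
  have h3 := D.PC_a
  have h4 := D.PC_b
  unfold cpl
  omega

end Pool.Agent.INV5.JD
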