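import Pool.Agent.INV5.Defs

/-!
# INV5, definitions for the real characters

`S μ ε`: the common kernel of `ℓ, y` in `V_μ` on which `t` is `ε`. `R μ ε`: the functionals on `V_μ` which
vanish on `ℓ V + y V` and on which `t` is `ε`. `TH μ ε`: symmetric tensors of degree seven on `V_μ` which
are killed by `ℓ` and `y` and on which `t` is `ε`. (`ε = 1` or `ε = -1`.)
-/

namespace Pool.Agent.INV5.JD

open Matrix

variable (D : JD)

/-- common kernel -/
noncomputable def S (μ : Lam) (ε : ℂ) : Submodule ℂ (Idx D.b → ℂ) where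
  carrier := {v | (∀ i, v i ≠ 0 → D.χ i.1 = μ) ∧ (Sh D.b).mulVec v = 0 ∧ D.y.mulVec v = 0 ∧
    D.t.mulVec v = ε • v}
  add_mem' := by
    rintro v w ⟨h1, h2, h3, h4⟩ ⟨k1, k2, k3, k4⟩
    refine ⟨fun i hi => ?_, ?_, ?_, ?_⟩
    · by_cases hv : v i = 0
      · exact k1 i (by intro hw; exact hi (by simp [hv, hw]))
      · exact h1 i hv
    · rw [mulVec_add, h2, k2, add_zero]
    · rw [mulVec_add, h3, k3, add_zero]
    · rw [mulVec_add, h4, k4, smul_add]
  zero_mem' := ⟨fun i hi => absurd rfl hi, mulVec_zero _, mulVec_zero _, by simp⟩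
  smul_mem' := by
    rintro a v ⟨h1, h2, h3, h4⟩
    refine ⟨fun i hi => h1 i (fun hv => hi (by simp [hv])), ?_, ?_, ?_⟩
    · rw [mulVec_smul, h2, smul_zero]
    · rw [mulVec_smul, h3, smul_zero]
    · rw [mulVec_smul, h4, smul_comm]

/-- functionals -/
noncomputable def R (μ : Lam) (ε : ℂ) : Submodule ℂ (Idx D.b → ℂ) where
  carrier := {v | (∀ i, v i ≠ 0 → D.χ i.1 = μ) ∧ ((Sh D.b)ᵀ).mulVec v = 0 ∧ (D.yᵀ).mulVec v = 0 ∧
    (D.tᵀ).mulVec v = ε • v}
  add_mem' := by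
    rintro v w ⟨h1, h2, h3, h4⟩ ⟨k1, k2, k3, k4⟩
    refine ⟨fun i hi => ?_, ?_, ?_, ?_⟩
    · by_cases hv : v i = 0
      · exact k1 i (by intro hw; exact hi (by simp [hv, hw]))
      · exact h1 i hv
    · rw [mulVec_add, h2, k2, add_zero]
    · rw [mulVec_add, h3, k3, add_zero]
    · rw [mulVec_add, h4, k4, smul_add]
  zero_mem' := ⟨fun i hi => absurd rfl hi, mulVec_zero _, mulVec_zero _, by simp⟩
  smul_mem' := by
    rintro a v ⟨h1, h2, h3, h4⟩
    refine ⟨fun i hi => h1 i (fun hv => hi (by simp [hv])), ?_, ?_, ?_⟩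
    · rw [mulVec_smul, h2, smul_zero]
    · rw [mulVec_smul, h3, smul_zero]
    · rw [mulVec_smul, h4, smul_comm]

/-- `z` as a derivation on tensors of degree seven -/
noncomputable def T7 (z : Matrix (Idx D.b) (Idx D.b) ℂ) :
    Matrix (Fin 7 → Idx D.b) (Fin 7 → Idx D.b) ℂ :=
  Tot (I := fun _ => Idx D.b) fun _ => z

/-- `z` as a group element on tensors of degree seven -/
noncomputable def K7 (z : Matrix (Idx D.b) (Idx D.b) ℂ) :
    Matrix (Fin 7 → Idx D.b) (Fin 7 → Idx D.b) ℂ :=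
  Kr (I := fun _ => Idx D.b) fun _ => z

/-- symmetric tensors -/
noncomputable def TH (μ : Lam) (ε : ℂ) : Submodule ℂ ((Fin 7 → Idx D.b) → ℂ) where
  carrier := {v | (∀ q, v q ≠ 0 → ∀ m, D.χ (q m).1 = μ) ∧
    (∀ (σ : Equiv.Perm (Fin 7)) q, v (q ∘ σ) = v q) ∧
    (D.T7 (Sh D.b)).mulVec v = 0 ∧ (D.T7 D.y).mulVec v = 0 ∧ (D.K7 D.t).mulVec v = ε • v}
  add_mem' := by
    rintro v w ⟨h1, h5, h2, h3, h4⟩ ⟨k1, k5, k2, k3, k4⟩
    refine ⟨fun q hq => ?_, fun σ q => ?_, ?_, ?_, ?_⟩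
    · by_cases hv : v q = 0
      · exact k1 q (by intro hw; exact hq (by simp [hv, hw]))
      · exact h1 q hv
    · rw [Pi.add_apply, Pi.add_apply, h5, k5]
    · rw [mulVec_add, h2, k2, add_zero]
    · rw [mulVec_add, h3, k3, add_zero]
    · rw [mulVec_add, h4, k4, smul_add]
  zero_mem' := ⟨fun q hq => absurd rfl hq, fun _ _ => rfl, mulVec_zero _, mulVec_zero _, by simp⟩
  smul_mem' := by
    rintro a v ⟨h1, h5, h2, h3, h4⟩
    refine ⟨fun q hq => h1 q (fun hv => hq (by simp [hv])), fun σ q => ?_, ?_, ?_, ?_⟩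
    · rw [Pi.smul_apply, Pi.smul_apply, h5]
    · rw [mulVec_smul, h2, smul_zero]
    · rw [mulVec_smul, h3, smul_zero]
    · rw [mulVec_smul, h4, smul_comm]

/-- number of even or odd socle elements -/
noncomputable def sg (μ : Lam) (ε : ℂ) : ℕ := Module.finrank ℂ ↥(D.S μ ε)

/-- number of even or odd functionals -/
noncomputable def mu (μ : Lam) (ε : ℂ) : ℕ := Module.finrank ℂ ↥(D.R μ ε)

end Pool.Agent.INV5.JD
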