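import Pool.Agent.INV5.PF0
import Pool.Agent.INV5.WO3

/-!
# INV5, module PG0: the space `V_μ` for a real character

`Vm μ`: vectors supported on the `(a, p)` with `χ a = μ`; `lm, ym, tm` the restrictions of `Sh, y, t`
(for `t` one needs `μ ^ 2 = 1`).
* `lm_ker`: `Sh ^ s e(a, p) = e(a, p + s)` or `0`; the kernel of `lm ^ s` has the basis of the `e(a, p)` with
  `χ a = μ`, `b a ≤ p + s`. So its dimension is `∑_{χ a = μ} min (b a) s`.
* `Vm_good`: take the `μ`-part of `w` (the projection to `V_μ` commutes with `Sh` and `y`).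
* `Vm_soc`: `ker lm ∩ ker ym` is stable under `tm`, and it is the direct sum of the eigenspaces `±1`, which
  correspond to `S μ 1` and `S μ (-1)`.
* `Vm_top`: the dual of `V_μ / (ℓ V_μ + y V_μ)` is the space of the `ρ` supported on `V_μ` with
  `Shᵀ ρ = 0`, `yᵀ ρ = 0` (`ρ` is a functional by the dot product), the direct sum of `R μ 1`, `R μ (-1)`.
-/

namespace Pool.Agent.INV5.JD

open Matrix Module

section aux

variable {I : Type*} [Fintype I] (P : I → Prop) [DecidablePred P]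

/-- functions supported on `P` -/
private def Sp : Submodule ℂ (I → ℂ) where
  carrier := {v | ∀ i, v i ≠ 0 → P i}
  add_mem' := by
    intro v w h k i hi
    by_cases hv : v i = 0
    · exact k i (by intro hw; exact hi (by simp [hv, hw]))
    · exact h i hv
  zero_mem' := fun i hi => absurd rfl hi
  smul_mem' := fun a v h i hi => h i (fun hv => hi (by simp [hv]))

omit [Fintype I] [DecidablePred P] in
private theorem mem_Sp (v : I → ℂ) : v ∈ Sp P ↔ ∀ i, v i ≠ 0 → P i := Iff.rfl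

/-- extension by zero -/
private def ex : ({i // P i} → ℂ) →ₗ[ℂ] (I → ℂ) where
  toFun w i := if h : P i then w ⟨i, h⟩ else 0
  map_add' v w := by
    funext i
    by_cases h : P i <;> simp [h]
  map_smul' a v := by
    funext i
    by_cases h : P i <;> simp [h]

omit [Fintype I] in
private theorem ex_pos (w : {i // P i} → ℂ) {i : I} (h : P i) : ex P w i = w ⟨i, h⟩ := dif_pos h

omit [Fintype I] in
private theorem ex_neg (w : {i // P i} → ℂ) {i : I} (h : ¬ P i) : ex P w i = 0 := dif_neg h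

omit [Fintype I] in
private theorem ex_mem (w : {i // P i} → ℂ) : ex P w ∈ Sp P := by
  intro i hi
  by_contra h
  exact hi (ex_neg P w h)

omit [Fintype I] in
private theorem ex_rs (v : I → ℂ) (hv : v ∈ Sp P) : ex P (fun i => v i.1) = v := by
  funext i
  by_cases h : P i
  · rw [ex_pos P _ h]
  · rw [ex_neg P _ h]
    by_contra hc
    exact h (hv i (Ne.symm hc))

omit [Fintype I] in
private theorem ex_inj : Function.Injective (ex P) := by
  intro v w h
  funext i
  rw [← ex_pos P v i.2, h, ex_pos P w i.2]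

/-- the functions supported on `P` are the functions on `P` -/
private def Spe : ↥(Sp P) ≃ₗ[ℂ] ({i // P i} → ℂ) where
  toFun v := fun i => v.1 i.1
  map_add' _ _ := rfl
  map_smul' _ _ := rfl
  invFun w := ⟨ex P w, ex_mem P w⟩
  left_inv v := Subtype.ext (ex_rs P v.1 v.2)
  right_inv w := by
    funext i
    exact ex_pos P w i.2

private theorem finrank_Sp : finrank ℂ ↥(Sp P) = Fintype.card {i // P i} := by
  rw [(Spe P).finrank_eq, Module.finrank_fintype_fun_eq_card]

private theorem ex_mulVec (z : Matrix I I ℂ) (hz : ∀ i k, z i k ≠ 0 → (P i ↔ P k))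
    (w : {i // P i} → ℂ) :
    z.mulVec (ex P w) = ex P ((z.submatrix Subtype.val Subtype.val).mulVec w) := by
  funext i
  by_cases h : P i
  · rw [ex_pos P _ h, mulVec, dotProduct, mulVec, dotProduct]
    rw [← Finset.sum_filter_add_sum_filter_not Finset.univ P]
    have h0 : ∑ k with ¬ P k, z i k * ex P w k = 0 := by
      refine Finset.sum_eq_zero fun k hk => ?_
      rw [Finset.mem_filter] at hk
      rw [ex_neg P w hk.2, mul_zero]
    rw [h0, add_zero, Finset.sum_subtype (p := P) _ (fun k => by simp)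
      (fun k => z i k * ex P w k)]
    refine Finset.sum_congr rfl fun k _ => ?_
    rw [ex_pos P w k.2]
    rfl
  · rw [ex_neg P _ h, mulVec, dotProduct]
    refine Finset.sum_eq_zero fun k _ => ?_
    by_cases hz0 : z i k = 0
    · rw [hz0, zero_mul]
    · rw [ex_neg P w (fun hk => h ((hz i k hz0).2 hk)), mul_zero]

omit [DecidablePred P] in
private theorem split [DecidableEq I] (l y t : Matrix I I ℂ) (htt : t * t = 1) (htl : t * l = -(l * t))
    (hty : t * y = -(y * t)) (ht : ∀ i k, t i k ≠ 0 → P k → P i)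
    (K S1 S2 : Submodule ℂ (I → ℂ))
    (hK : ∀ v, v ∈ K ↔ (∀ i, v i ≠ 0 → P i) ∧ l.mulVec v = 0 ∧ y.mulVec v = 0)
    (h1 : ∀ v, v ∈ S1 ↔ (∀ i, v i ≠ 0 → P i) ∧ l.mulVec v = 0 ∧ y.mulVec v = 0 ∧
      t.mulVec v = (1 : ℂ) • v)
    (h2 : ∀ v, v ∈ S2 ↔ (∀ i, v i ≠ 0 → P i) ∧ l.mulVec v = 0 ∧ y.mulVec v = 0 ∧
      t.mulVec v = (-1 : ℂ) • v) : finrank ℂ ↥K = finrank ℂ ↥S1 + finrank ℂ ↥S2 := by
  classical
  have hlt : l * t = -(t * l) := by rw [htl, neg_neg]
  have hyt : y * t = -(t * y) := by rw [hty, neg_neg]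
  have htK : ∀ v ∈ K, t.mulVec v ∈ K := by
    intro v hv
    obtain ⟨a, b, c⟩ := (hK v).1 hv
    refine (hK _).2 ⟨fun i hi => ?_, ?_, ?_⟩
    · rw [mulVec, dotProduct] at hi
      obtain ⟨k, _, hk⟩ := Finset.exists_ne_zero_of_sum_ne_zero hi
      exact ht i k (left_ne_zero_of_mul hk) (a k (right_ne_zero_of_mul hk))
    · rw [mulVec_mulVec, hlt, neg_mulVec, ← mulVec_mulVec, b, mulVec_zero, neg_zero]
    · rw [mulVec_mulVec, hyt, neg_mulVec, ← mulVec_mulVec, c, mulVec_zero, neg_zero]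
  have ht2 : ∀ v : I → ℂ, t.mulVec (t.mulVec v) = v := fun v => by
    rw [mulVec_mulVec, htt, one_mulVec]
  have hsup : S1 ⊔ S2 = K := by
    apply le_antisymm
    · refine sup_le (fun v hv => ?_) (fun v hv => ?_)
      · obtain ⟨a, b, c, -⟩ := (h1 v).1 hv
        exact (hK v).2 ⟨a, b, c⟩
      · obtain ⟨a, b, c, -⟩ := (h2 v).1 hv
        exact (hK v).2 ⟨a, b, c⟩
    · intro v hv
      have e1 : (2⁻¹ : ℂ) • (v + t.mulVec v) ∈ S1 := by
        obtain ⟨a, b, c⟩ := (hK _).1 (K.smul_mem (2⁻¹ : ℂ) (K.add_mem hv (htK v hv)))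
        refine (h1 _).2 ⟨a, b, c, ?_⟩
        rw [mulVec_smul, mulVec_add, ht2, add_comm, one_smul]
      have e2 : (2⁻¹ : ℂ) • (v - t.mulVec v) ∈ S2 := by
        obtain ⟨a, b, c⟩ := (hK _).1 (K.smul_mem (2⁻¹ : ℂ) (K.sub_mem hv (htK v hv)))
        refine (h2 _).2 ⟨a, b, c, ?_⟩
        rw [mulVec_smul, mulVec_sub, ht2, neg_smul, one_smul, ← smul_neg, neg_sub]
      have e3 : v = (2⁻¹ : ℂ) • (v + t.mulVec v) + (2⁻¹ : ℂ) • (v - t.mulVec v) := by
        funext i
        simp only [Pi.add_apply, Pi.smul_apply, Pi.sub_apply, smul_eq_mul]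
        ring
      rw [e3]
      exact Submodule.add_mem_sup e1 e2
  have hinf : S1 ⊓ S2 = ⊥ := by
    rw [eq_bot_iff]
    rintro v ⟨ha, hb⟩
    obtain ⟨-, -, -, a⟩ := (h1 v).1 ha
    obtain ⟨-, -, -, b⟩ := (h2 v).1 hb
    rw [a] at b
    rw [Submodule.mem_bot]
    funext i
    have := congrFun b i
    simp only [Pi.smul_apply, smul_eq_mul] at this
    rw [Pi.zero_apply]
    linear_combination this / 2
  have := Submodule.finrank_sup_add_finrank_inf_eq S1 S2
  rw [hsup, hinf, finrank_bot, add_zero] at this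
  exact this

end aux

variable (D : JD) (μ : Lam)

/-- vectors with the character `μ` -/
def Vm : Submodule ℂ (Idx D.b → ℂ) where
  carrier := {v | ∀ i, v i ≠ 0 → D.χ i.1 = μ}
  add_mem' := by
    intro v w h k i hi
    by_cases hv : v i = 0
    · exact k i (by intro hw; exact hi (by simp [hv, hw]))
    · exact h i hv
  zero_mem' := fun i hi => absurd rfl hi
  smul_mem' := fun a v h i hi => h i (fun hv => hi (by simp [hv]))

theorem Vm_stable (z : Matrix (Idx D.b) (Idx D.b) ℂ) (hz : ∀ i k, z i k ≠ 0 → D.χ i.1 = D.χ k.1) :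
    ∀ v ∈ D.Vm μ, z.mulVecLin v ∈ D.Vm μ := by
  intro v hv i hi
  rw [mulVecLin_apply, mulVec, dotProduct] at hi
  obtain ⟨k, _, hk⟩ := Finset.exists_ne_zero_of_sum_ne_zero hi
  exact (hz i k (left_ne_zero_of_mul hk)).trans (hv k (right_ne_zero_of_mul hk))

theorem Sh_lab : ∀ i k, Sh D.b i k ≠ 0 → D.χ i.1 = D.χ k.1 := by
  intro i k h
  unfold Sh at h
  split_ifs at h with h'
  · rw [h'.1]
  · exact absurd rfl h

/-- `ℓ` on `V_μ` -/
noncomputable def lm : Module.End ℂ ↥(D.Vm μ) :=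
  (Sh D.b).mulVecLin.restrict (D.Vm_stable μ _ D.Sh_lab)

/-- `y` on `V_μ` -/
noncomputable def ym : Module.End ℂ ↥(D.Vm μ) :=
  D.y.mulVecLin.restrict (D.Vm_stable μ _ D.hy)

private theorem lm_val (v : ↥(D.Vm μ)) : (D.lm μ v : Idx D.b → ℂ) = (Sh D.b).mulVec v.1 := rfl

private theorem ym_val (v : ↥(D.Vm μ)) : (D.ym μ v : Idx D.b → ℂ) = D.y.mulVec v.1 := rfl

private theorem lm_pow (s : ℕ) (v : ↥(D.Vm μ)) :
    ((D.lm μ ^ s) v : Idx D.b → ℂ) = ((Sh D.b).mulVecLin ^ s) v.1 := by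
  induction s with
  | zero => rfl
  | succ s ih => rw [pow_succ', pow_succ', Module.End.mul_apply, Module.End.mul_apply, lm_val, ih]; rfl

theorem lm_ym : Commute (D.lm μ) (D.ym μ) := by
  refine LinearMap.ext fun v => Subtype.ext ?_
  rw [Module.End.mul_apply, Module.End.mul_apply, lm_val, ym_val, ym_val, lm_val, mulVec_mulVec,
    mulVec_mulVec, D.comm]

private theorem Sh_pow (s : ℕ) (v : Idx D.b → ℂ) (i : Idx D.b) :
    ((Sh D.b).mulVecLin ^ s) v i =
      if h : s ≤ i.2.val then v ⟨i.1, ⟨i.2.val - s, lt_of_le_of_lt (Nat.sub_le _ _) i.2.2⟩⟩ else 0 := by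
  induction s generalizing v i with
  | zero =>
    rw [dif_pos (Nat.zero_le _)]
    rfl
  | succ s ih =>
    rw [pow_succ, Module.End.mul_apply, ih, mulVecLin_apply]
    obtain ⟨a, p⟩ := i
    by_cases h : s ≤ p.val
    · rw [dif_pos h, mulVec, dotProduct]
      by_cases h' : s + 1 ≤ p.val
      · rw [dif_pos h', Finset.sum_eq_single (⟨a, ⟨p.val - (s + 1),
          lt_of_le_of_lt (Nat.sub_le _ _) p.2⟩⟩ : Idx D.b)]
        · have : Sh D.b ⟨a, ⟨p.val - s, lt_of_le_of_lt (Nat.sub_le _ _) p.2⟩⟩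
              ⟨a, ⟨p.val - (s + 1), lt_of_le_of_lt (Nat.sub_le _ _) p.2⟩⟩ = 1 := by
            unfold Sh
            rw [if_pos ⟨rfl, by change p.val - s = p.val - (s + 1) + 1; omega⟩]
          rw [this, one_mul]
        · rintro ⟨a', p'⟩ _ hne
          unfold Sh
          rw [if_neg, zero_mul]
          rintro ⟨h1, h2⟩
          change a = a' at h1
          subst h1
          change p.val - s = p'.val + 1 at h2
          apply hne
          have : p' = ⟨p.val - (s + 1), lt_of_le_of_lt (Nat.sub_le _ _) p.2⟩ :=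
            Fin.ext (by change p'.val = p.val - (s + 1); omega)
          rw [this]
        · intro hn
          exact absurd (Finset.mem_univ _) hn
      · rw [dif_neg h']
        refine Finset.sum_eq_zero fun k _ => ?_
        unfold Sh
        rw [if_neg, zero_mul]
        rintro ⟨h1, h2⟩
        change p.val - s = k.2.val + 1 at h2
        omega
    · rw [dif_neg h, dif_neg (fun h' => h (le_trans (Nat.le_succ s) h'))]

theorem lm_ker (s : ℕ) : finrank ℂ ↥(LinearMap.ker (D.lm μ ^ s)) =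
    ∑ a with D.χ a = μ, min (D.b a) s := by
  classical
  have h1 : (LinearMap.ker (D.lm μ ^ s)).map (D.Vm μ).subtype =
      Sp fun i : Idx D.b => D.χ i.1 = μ ∧ D.b i.1 ≤ i.2.val + s := by
    ext v
    rw [Submodule.mem_map, mem_Sp]
    constructor
    · rintro ⟨w, hw, rfl⟩ i hi
      refine ⟨w.2 i hi, ?_⟩
      by_contra hc
      have h2 := lm_pow D μ s w
      rw [LinearMap.mem_ker.1 hw] at h2
      have h3 := congrFun h2.symm ⟨i.1, ⟨i.2.val + s, by omega⟩⟩
      rw [Sh_pow, dif_pos (Nat.le_add_left _ _)] at h3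
      apply hi
      rw [show ((D.Vm μ).subtype w) i = w.1 i from rfl]
      have h4 : (⟨i.1, ⟨i.2.val + s - s, by omega⟩⟩ : Idx D.b) = i := by
        obtain ⟨a, p⟩ := i
        congr 1
        exact Fin.ext (Nat.add_sub_cancel _ _)
      rw [← h4]
      exact h3
    · intro hv
      refine ⟨⟨v, fun i hi => (hv i hi).1⟩, ?_, rfl⟩
      rw [LinearMap.mem_ker]
      refine Subtype.ext ?_
      rw [lm_pow]
      funext i
      rw [Sh_pow]
      split_ifs with h
      · by_contra hc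
        have := (hv _ hc).2
        have h5 := i.2.2
        change D.b i.1 ≤ i.2.val - s + s at this
        omega
      · rfl
  rw [← Submodule.finrank_map_subtype_eq, h1, finrank_Sp]
  rw [Fintype.card_subtype, Finset.card_filter, ← Finset.univ_sigma_univ, Finset.sum_sigma,
    Finset.sum_filter]
  refine Finset.sum_congr rfl fun a _ => ?_
  by_cases ha : D.χ a = μ
  · rw [if_pos ha]
    have : ∀ p : Fin (D.b a), (if D.χ a = μ ∧ D.b a ≤ p.val + s then 1 else 0) =
        if D.b a ≤ p.val + s then 1 else 0 := by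
      intro p
      simp only [ha, true_and]
    rw [Finset.sum_congr rfl fun p _ => this p, ← Finset.card_filter]
    have h2 : (Finset.univ.filter fun p : Fin (D.b a) => D.b a ≤ p.val + s).card =
        (Finset.univ.filter fun p : Fin (D.b a) => p.val < s).card := by
      refine Finset.card_bij (fun p _ => Fin.rev p) ?_ ?_ ?_
      · intro p hp
        rw [Finset.mem_filter] at hp ⊢
        refine ⟨Finset.mem_univ _, ?_⟩
        have := hp.2
        have h5 := p.2
        rw [Fin.val_rev]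
        omega
      · intro p _ q _ h
        exact Fin.rev_injective h
      · intro p hp
        rw [Finset.mem_filter] at hp
        refine ⟨Fin.rev p, ?_, Fin.rev_rev p⟩
        rw [Finset.mem_filter]
        refine ⟨Finset.mem_univ _, ?_⟩
        have := hp.2
        have h5 := p.2
        rw [Fin.val_rev]
        omega
    rw [h2, Fin.card_filter_val_lt]
  · rw [if_neg ha]
    refine Finset.sum_eq_zero fun p _ => if_neg fun h => ha h.1

/-- the projection to `V_μ` -/
private noncomputable def pj : (Idx D.b → ℂ) →ₗ[ℂ] (Idx D.b → ℂ) :=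
  LinearMap.pi fun i => if D.χ i.1 = μ then LinearMap.proj i else 0

private theorem pj_apply (v : Idx D.b → ℂ) (i : Idx D.b) :
    pj D μ v i = if D.χ i.1 = μ then v i else 0 := by
  unfold pj
  rw [LinearMap.pi_apply]
  split_ifs <;> rfl

private theorem pj_mem (v : Idx D.b → ℂ) : pj D μ v ∈ D.Vm μ := by
  intro i hi
  rw [pj_apply] at hi
  by_contra h
  exact hi (if_neg h)

private theorem pj_eq (v : Idx D.b → ℂ) (hv : v ∈ D.Vm μ) : pj D μ v = v := by
  funext i
  rw [pj_apply]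
  split_ifs with h
  · rfl
  · by_contra hc
    exact h (hv i (Ne.symm hc))

private theorem pj_mulVec (z : Matrix (Idx D.b) (Idx D.b) ℂ)
    (hz : ∀ i k, z i k ≠ 0 → D.χ i.1 = D.χ k.1) (v : Idx D.b → ℂ) :
    z.mulVecLin (pj D μ v) = pj D μ (z.mulVecLin v) := by
  funext i
  rw [pj_apply, mulVecLin_apply, mulVecLin_apply, mulVec, dotProduct, mulVec, dotProduct]
  split_ifs with h
  · refine Finset.sum_congr rfl fun k _ => ?_
    by_cases hzk : z i k = 0
    · rw [hzk, zero_mul, zero_mul]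
    · rw [pj_apply, if_pos ((hz i k hzk).symm.trans h)]
  · refine Finset.sum_eq_zero fun k _ => ?_
    by_cases hzk : z i k = 0
    · rw [hzk, zero_mul]
    · rw [pj_apply, if_neg (fun hk => h ((hz i k hzk).trans hk)), mul_zero]

private theorem pj_pow (s : ℕ) (v : Idx D.b → ℂ) :
    ((Sh D.b).mulVecLin ^ s) (pj D μ v) = pj D μ (((Sh D.b).mulVecLin ^ s) v) := by
  induction s with
  | zero => rfl
  | succ s ih =>
    rw [pow_succ', Module.End.mul_apply, Module.End.mul_apply, ih, pj_mulVec D μ _ D.Sh_lab]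

theorem Vm_good (hD : D.Gen) : Good (D.lm μ) (D.ym μ) ⊥ := by
  intro s v hv
  rw [Submodule.mem_bot] at hv
  have h1 : ((Sh D.b).mulVecLin ^ (s + 1)) v.1 ∈ (⊥ : Submodule ℂ (Idx D.b → ℂ)) := by
    rw [← lm_pow, hv]
    exact Submodule.zero_mem _
  obtain ⟨w, hw⟩ := hD.v s v.1 h1
  rw [Submodule.mem_bot, sub_eq_zero] at hw
  refine ⟨⟨pj D μ w, pj_mem D μ w⟩, ?_⟩
  rw [Submodule.mem_bot, sub_eq_zero]
  refine Subtype.ext ?_
  rw [lm_pow, lm_pow, ym_val]
  change _ = ((Sh D.b).mulVecLin ^ (s + 1)) (pj D μ w)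
  rw [pj_pow, ← hw, ← pj_pow, pj_eq D μ]
  · rfl
  · exact D.Vm_stable μ _ D.hy _ v.2

private theorem t_lab (hμ : μ ^ 2 = 1) (i k : Idx D.b) (h : D.t i k ≠ 0) (hk : D.χ k.1 = μ) :
    D.χ i.1 = μ := by
  have h1 := D.ht i k h
  rw [hk] at h1
  rw [sq] at hμ
  exact mul_right_cancel (h1.trans hμ.symm)

private theorem t_lab' (hμ : μ ^ 2 = 1) (i k : Idx D.b) (h : D.t k i ≠ 0) (hk : D.χ k.1 = μ) :
    D.χ i.1 = μ := by
  have h1 := D.ht k i h
  rw [hk] at h1
  rw [sq] at hμ
  exact mul_left_cancel (h1.trans hμ.symm)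

theorem Vm_soc (hμ : μ ^ 2 = 1) :
    finrank ℂ ↥(LinearMap.ker (D.lm μ) ⊓ LinearMap.ker (D.ym μ)) = D.sg μ 1 + D.sg μ (-1) := by
  classical
  rw [← Submodule.finrank_map_subtype_eq]
  refine split (fun i : Idx D.b => D.χ i.1 = μ) (Sh D.b) D.y D.t D.tt D.tS D.ty
    (fun i k => D.t_lab μ hμ i k) _ _ _ ?_ (fun v => Iff.rfl) (fun v => Iff.rfl)
  intro v
  rw [Submodule.mem_map]
  constructor
  · rintro ⟨w, ⟨hw1, hw2⟩, rfl⟩
    exact ⟨w.2, congrArg Subtype.val (LinearMap.mem_ker.1 hw1),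
      congrArg Subtype.val (LinearMap.mem_ker.1 hw2)⟩
  · rintro ⟨h1, h2, h3⟩
    exact ⟨⟨v, h1⟩, ⟨LinearMap.mem_ker.2 (Subtype.ext h2), LinearMap.mem_ker.2 (Subtype.ext h3)⟩, rfl⟩

theorem Vm_top (hμ : μ ^ 2 = 1) :
    finrank ℂ (↥(D.Vm μ) ⧸ (LinearMap.range (D.lm μ) ⊔ LinearMap.range (D.ym μ))) =
      D.mu μ 1 + D.mu μ (-1) := by
  classical
  set P : Idx D.b → Prop := fun i => D.χ i.1 = μ with hP
  let f : ↥(D.Vm μ) ≃ₗ[ℂ] ({i // P i} → ℂ) := Spe P
  set Z : Fin 2 → Matrix {i // P i} {i // P i} ℂ :=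
    ![(Sh D.b).submatrix Subtype.val Subtype.val, D.y.submatrix Subtype.val Subtype.val] with hZ
  have hS : ∀ i k, Sh D.b i k ≠ 0 → (P i ↔ P k) := by
    intro i k h
    change (D.χ i.1 = μ ↔ D.χ k.1 = μ)
    rw [D.Sh_lab i k h]
  have hY : ∀ i k, D.y i k ≠ 0 → (P i ↔ P k) := by
    intro i k h
    change (D.χ i.1 = μ ↔ D.χ k.1 = μ)
    rw [D.hy i k h]
  have fS : ∀ v : ↥(D.Vm μ), f (D.lm μ v) =
      ((Sh D.b).submatrix Subtype.val Subtype.val).mulVec (f v) := by
    intro v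
    apply ex_inj P
    rw [← ex_mulVec P _ hS]
    change ex P (fun i => (D.lm μ v).1 i.1) = (Sh D.b).mulVec (ex P fun i => v.1 i.1)
    rw [ex_rs P _ (D.lm μ v).2, ex_rs P _ v.2]
    rfl
  have fY : ∀ v : ↥(D.Vm μ), f (D.ym μ v) =
      (D.y.submatrix Subtype.val Subtype.val).mulVec (f v) := by
    intro v
    apply ex_inj P
    rw [← ex_mulVec P _ hY]
    change ex P (fun i => (D.ym μ v).1 i.1) = D.y.mulVec (ex P fun i => v.1 i.1)
    rw [ex_rs P _ (D.ym μ v).2, ex_rs P _ v.2]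
    rfl
  have hmap : (LinearMap.range (D.lm μ) ⊔ LinearMap.range (D.ym μ)).map
      (f : ↥(D.Vm μ) →ₗ[ℂ] ({i // P i} → ℂ)) = img Z := by
    apply le_antisymm
    · rw [Submodule.map_sup, sup_le_iff]
      constructor
      · rintro _ ⟨_, ⟨v, rfl⟩, rfl⟩
        have h := mem_img Z 0 (f v)
        change f (D.lm μ v) ∈ img Z
        rw [fS v]
        exact h
      · rintro _ ⟨_, ⟨v, rfl⟩, rfl⟩
        have h := mem_img Z 1 (f v)
        change f (D.ym μ v) ∈ img Z
        rw [fY v]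
        exact h
    · refine img_le Z _ fun r w => ?_
      obtain ⟨v, rfl⟩ := f.surjective w
      fin_cases r
      · refine ⟨D.lm μ v, Submodule.mem_sup_left ⟨v, rfl⟩, ?_⟩
        exact fS v
      · refine ⟨D.ym μ v, Submodule.mem_sup_right ⟨v, rfl⟩, ?_⟩
        exact fY v
  have h1 : finrank ℂ (↥(D.Vm μ) ⧸ (LinearMap.range (D.lm μ) ⊔ LinearMap.range (D.ym μ))) =
      ck Z := (Submodule.Quotient.equiv _ _ f hmap).finrank_eq
  have h2 : ck Z = ik fun r => (Z r)ᵀ := by
    rw [ik_eq]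
    simp only [transpose_transpose]
  rw [h1, h2]
  unfold ik
  rw [(Submodule.equivMapOfInjective (ex P) (ex_inj P) _).finrank_eq]
  have hS' : ∀ i k, (Sh D.b)ᵀ i k ≠ 0 → (P i ↔ P k) := fun i k h => (hS k i h).symm
  have hY' : ∀ i k, (D.y)ᵀ i k ≠ 0 → (P i ↔ P k) := fun i k h => (hY k i h).symm
  have tr : ∀ z : Matrix (Idx D.b) (Idx D.b) ℂ, D.t * z = -(z * D.t) →
      (D.t)ᵀ * zᵀ = -(zᵀ * (D.t)ᵀ) := by
    intro z hz
    rw [← transpose_mul, ← transpose_mul, hz, transpose_neg, neg_neg]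
  refine split P (Sh D.b)ᵀ (D.y)ᵀ (D.t)ᵀ (by rw [← transpose_mul, D.tt, transpose_one])
    (tr _ D.tS) (tr _ D.ty)
    (fun i k h hk => D.t_lab' μ hμ i k h hk) _ _ _ ?_ (fun v => Iff.rfl) (fun v => Iff.rfl)
  intro v
  rw [Submodule.mem_map]
  constructor
  · rintro ⟨w, hw, rfl⟩
    rw [Submodule.mem_iInf] at hw
    have hw0 : ((Sh D.b)ᵀ.submatrix Subtype.val Subtype.val).mulVec w = 0 :=
      LinearMap.mem_ker.1 (hw 0)
    have hw1 : ((D.y)ᵀ.submatrix Subtype.val Subtype.val).mulVec w = 0 :=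
      LinearMap.mem_ker.1 (hw 1)
    refine ⟨ex_mem P w, ?_, ?_⟩
    · rw [ex_mulVec P _ hS', hw0, map_zero]
    · rw [ex_mulVec P _ hY', hw1, map_zero]
  · rintro ⟨h3, h4, h5⟩
    refine ⟨fun i => v i.1, ?_, ex_rs P v h3⟩
    rw [Submodule.mem_iInf]
    intro r
    rw [LinearMap.mem_ker, mulVecLin_apply]
    apply ex_inj P
    fin_cases r
    · change ex P (((Sh D.b)ᵀ.submatrix Subtype.val Subtype.val).mulVec fun i => v i.1) = _
      rw [← ex_mulVec P _ hS', ex_rs P v h3, h4, map_zero]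
    · change ex P (((D.y)ᵀ.submatrix Subtype.val Subtype.val).mulVec fun i => v i.1) = _
      rw [← ex_mulVec P _ hY', ex_rs P v h3, h5, map_zero]

end Pool.Agent.INV5.JD
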