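import Pool.Agent.INV5.PF0
import Pool.Agent.INV5.WO2

/-!
# INV5, module PI0: tensors of degree seven from a linearly independent family

`xg x g (q) = ∑_k g k ∏_m x_(k m) (q m)`: the matrix `(q, k) ↦ ∏_m x_(k m) (q m)` is a (rectangular) tensor
power of the matrix with the columns `x_k`; it is injective (choose functionals `y_j` with
`y_j x_k = δ_jk`, apply them letter by letter). `xg_T7`, `xg_K7`: entrywise,
`∑_q' Tot z (q, q') ∏ x_(k m) (q' m) = ∑_m (z x_(k m)) (q m) ∏_(m' ≠ m) ...`.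
-/

namespace Pool.Agent.INV5.JD

open Matrix

variable (D : JD) {κ : Type} [Fintype κ] [DecidableEq κ]

/-- tensors from a family of vectors -/
noncomputable def xg (x : κ → Idx D.b → ℂ) : ((Fin 7 → κ) → ℂ) →ₗ[ℂ] ((Fin 7 → Idx D.b) → ℂ) where
  toFun g := fun q => ∑ k, g k * ∏ m, x (k m) (q m)
  map_add' g g' := by
    funext q
    simp [add_mul, Finset.sum_add_distrib]
  map_smul' a g := by
    funext q
    simp [mul_assoc, Finset.mul_sum]

/-- rectangular tensor powers -/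
private noncomputable def PI0_KX {I K : Type} (x : Fin 7 → Matrix I K ℂ) :
    Matrix (Fin 7 → I) (Fin 7 → K) ℂ :=
  fun q k => ∏ m, x m (q m) (k m)

/-- the matrix with the columns `x k` -/
private def PI0_M {I K : Type} (x : K → I → ℂ) : Matrix I K ℂ := Matrix.of fun i k => x k i

private theorem PI0_mul {I J K : Type} [Fintype J] [DecidableEq J] (x : Fin 7 → Matrix I J ℂ)
    (y : Fin 7 → Matrix J K ℂ) : PI0_KX x * PI0_KX y = PI0_KX fun m => x m * y m := by
  ext q k
  rw [Matrix.mul_apply]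
  simp only [PI0_KX, Matrix.mul_apply]
  rw [Finset.prod_univ_sum, Fintype.piFinset_univ]
  apply Finset.sum_congr rfl
  intro p _
  rw [Finset.prod_mul_distrib]

private theorem PI0_one {K : Type} [Fintype K] [DecidableEq K] :
    PI0_KX (fun _ => (1 : Matrix K K ℂ)) = 1 := by
  ext q k
  by_cases h : q = k
  · subst h
    simp [PI0_KX]
  · rw [Matrix.one_apply_ne h]
    obtain ⟨m, hm⟩ := Function.ne_iff.mp h
    exact Finset.prod_eq_zero (Finset.mem_univ m) (Matrix.one_apply_ne hm)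

private theorem PI0_xg (x : κ → Idx D.b → ℂ) (g : (Fin 7 → κ) → ℂ) :
    D.xg x g = (PI0_KX fun _ => PI0_M x).mulVec g := by
  funext q
  show ∑ k, g k * ∏ m, x (k m) (q m) = _
  simp only [Matrix.mulVec, dotProduct, PI0_KX, PI0_M, Matrix.of_apply]
  apply Finset.sum_congr rfl
  intro k _
  rw [mul_comm]

private theorem PI0_Kr {I : Type} (z : Fin 7 → Matrix I I ℂ) :
    Kr (I := fun _ => I) z = PI0_KX z := rfl

theorem xg_inj (x : κ → Idx D.b → ℂ) (h : LinearIndependent ℂ x) :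
    Function.Injective (D.xg x) := by
  have hinj : Function.Injective (Fintype.linearCombination ℂ x) := by
    rw [← LinearMap.ker_eq_bot]
    rw [Submodule.eq_bot_iff]
    intro v hv
    rw [LinearMap.mem_ker, Fintype.linearCombination_apply] at hv
    funext k
    exact (Fintype.linearIndependent_iff.mp h) v hv k
  obtain ⟨f, hf⟩ := LinearMap.exists_leftInverse_of_injective _ (LinearMap.ker_eq_bot.mpr hinj)
  let Y : Matrix κ (Idx D.b) ℂ := fun j i => f (Pi.single i 1) j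
  have hY : Y * PI0_M x = 1 := by
    ext j k
    rw [Matrix.mul_apply]
    have h1 : f (x k) = Pi.single k 1 := by
      have h2 := LinearMap.congr_fun hf (Pi.single k 1)
      rw [LinearMap.comp_apply, Fintype.linearCombination_apply_single, one_smul] at h2
      exact h2
    have h3 : x k = ∑ i, (x k i) • (Pi.single i (1 : ℂ) : Idx D.b → ℂ) := pi_eq_sum_univ' (x k)
    have h4 : f (x k) j = ∑ i, x k i * f (Pi.single i 1) j := by
      conv_lhs => rw [h3]
      rw [map_sum, Finset.sum_apply]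
      apply Finset.sum_congr rfl
      intro i _
      rw [map_smul, Pi.smul_apply, smul_eq_mul]
    rw [Matrix.one_apply]
    refine (Finset.sum_congr rfl fun i _ => mul_comm _ _).trans (h4.symm.trans ?_)
    rw [h1, Pi.single_apply]
  intro g g' hg
  rw [PI0_xg, PI0_xg] at hg
  have h5 := congrArg (PI0_KX (fun _ => Y)).mulVec hg
  rw [Matrix.mulVec_mulVec, Matrix.mulVec_mulVec, PI0_mul] at h5
  simp only [hY, PI0_one, Matrix.one_mulVec] at h5
  exact h5

theorem xg_symm (x : κ → Idx D.b → ℂ) (g : (Fin 7 → κ) → ℂ)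
    (h : ∀ (σ : Equiv.Perm (Fin 7)) k, g (k ∘ σ) = g k) (σ : Equiv.Perm (Fin 7))
    (q : Fin 7 → Idx D.b) : D.xg x g (q ∘ σ) = D.xg x g q := by
  show ∑ k, g k * ∏ m, x (k m) ((q ∘ σ) m) = ∑ k, g k * ∏ m, x (k m) (q m)
  refine Fintype.sum_equiv (Equiv.arrowCongr σ (Equiv.refl κ)) _ _ fun k => ?_
  have h1 : (Equiv.arrowCongr σ (Equiv.refl κ)) k = k ∘ σ.symm := rfl
  rw [h1, h σ.symm k]
  congr 1
  rw [← Equiv.prod_comp σ (fun m => x ((k ∘ σ.symm) m) (q m))]
  simp

theorem xg_supp (x : κ → Idx D.b → ℂ) (μ : Lam) (h : ∀ k i, x k i ≠ 0 → D.χ i.1 = μ)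
    (g : (Fin 7 → κ) → ℂ) (q : Fin 7 → Idx D.b) (hq : D.xg x g q ≠ 0) (m : Fin 7) :
    D.χ (q m).1 = μ := by
  by_contra h1
  apply hq
  show ∑ k, g k * ∏ m, x (k m) (q m) = 0
  apply Finset.sum_eq_zero
  intro k _
  have h2 : x (k m) (q m) = 0 := by
    by_contra h3
    exact h1 (h _ _ h3)
  rw [Finset.prod_eq_zero (Finset.mem_univ m) h2, mul_zero]

theorem xg_T7 (x : κ → Idx D.b → ℂ) (z : Matrix (Idx D.b) (Idx D.b) ℂ) (Λ : Matrix κ κ ℂ)
    (h : ∀ k, z.mulVec (x k) = ∑ j, Λ j k • x j) (g : (Fin 7 → κ) → ℂ) :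
    (D.T7 z).mulVec (D.xg x g) = D.xg x ((Tot (I := fun _ : Fin 7 => κ) fun _ => Λ).mulVec g) := by
  have hz : z * PI0_M x =
      PI0_M x * Λ := by
    ext i k
    have h1 := congrFun (h k) i
    rw [Finset.sum_apply] at h1
    rw [Matrix.mul_apply, Matrix.mul_apply]
    refine h1.trans (Finset.sum_congr rfl fun j _ => ?_)
    rw [Pi.smul_apply, smul_eq_mul, mul_comm]
    rfl
  rw [PI0_xg, PI0_xg, Matrix.mulVec_mulVec, Matrix.mulVec_mulVec]
  congr 1
  rw [T7, Tot, Tot, Matrix.sum_mul, Matrix.mul_sum]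
  apply Finset.sum_congr rfl
  intro m _
  rw [At_eq_Kr, At_eq_Kr, PI0_Kr, PI0_Kr, PI0_mul, PI0_mul]
  congr 1
  funext m'
  by_cases hm : m' = m
  · subst hm
    rw [Function.update_self, Function.update_self]
    exact hz
  · rw [Function.update_of_ne hm, Function.update_of_ne hm]
    rw [Matrix.one_mul, Matrix.mul_one]

theorem xg_K7 (x : κ → Idx D.b → ℂ) (z : Matrix (Idx D.b) (Idx D.b) ℂ) (d : κ → ℂ)
    (h : ∀ k, z.mulVec (x k) = d k • x k) (g : (Fin 7 → κ) → ℂ) :
    (D.K7 z).mulVec (D.xg x g) = D.xg x fun k => (∏ m, d (k m)) * g k := by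
  rw [PI0_xg, PI0_xg, Matrix.mulVec_mulVec, K7, PI0_Kr, PI0_mul]
  funext q
  simp only [Matrix.mulVec, dotProduct, PI0_KX]
  apply Finset.sum_congr rfl
  intro k _
  have h1 : ∀ m, (z * PI0_M x) (q m) (k m) =
      d (k m) * x (k m) (q m) := fun m => congrFun (h (k m)) (q m)
  have h2 : ∀ m, PI0_M x (q m) (k m) = x (k m) (q m) := fun _ => rfl
  simp only [h1, h2]
  rw [Finset.prod_mul_distrib]
  ring

end Pool.Agent.INV5.JD
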