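import Pool.Agent.INV5.Defs

/-!
# INV5, definitions for the reduction to Jordan form

`ND n`: a space `ℂⁿ` with labelled basis, two commuting nilpotent matrices `x, y` which respect the labels
and an involution `t` which inverts the labels and anticommutes with `x, y`.
-/

namespace Pool.Agent.INV5

open Matrix

/-- labelled nilpotent data -/
structure ND (n : ℕ) where
  /-- labels -/
  χ : Fin n → Lam
  /-- first nilpotent -/
  x : Matrix (Fin n) (Fin n) ℂ
  /-- second nilpotent -/
  y : Matrix (Fin n) (Fin n) ℂ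
  /-- involution -/
  t : Matrix (Fin n) (Fin n) ℂ
  hx : ∀ i k, x i k ≠ 0 → χ i = χ k
  hy : ∀ i k, y i k ≠ 0 → χ i = χ k
  ht : ∀ i k, t i k ≠ 0 → χ i * χ k = 1
  comm : Commute x y
  xnil : IsNilpotent x
  ynil : IsNilpotent y
  tt : t * t = 1
  tx : t * x = -(x * t)
  ty : t * y = -(y * t)

namespace ND

variable {n : ℕ} (E : ND n)

/-- labels of the letters -/
def c (e : ℕ) (m : Fin (e + 1)) (i : Fin n) : Lam := if m = Fin.last e then E.χ i else (E.χ i)⁻¹

/-- words of total label one -/
abbrev J (e : ℕ) : Type := One (I := fun _ => Fin n) (E.c e)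

/-- a matrix `z` as a derivation on words -/
noncomputable def L (e : ℕ) (z : Matrix (Fin n) (Fin n) ℂ) : Matrix (E.J e) (E.J e) ℂ :=
  res (I := fun _ => Fin n) (E.c e) (Tot fun m => if m = Fin.last e then z else -zᵀ)

/-- the involution on words -/
noncomputable def TT (e : ℕ) : Matrix (E.J e) (E.J e) ℂ :=
  res (I := fun _ => Fin n) (E.c e) (Kr fun m => if m = Fin.last e then E.t else E.tᵀ)

/-- permutations of the covector letters -/
noncomputable def PP (e : ℕ) (σ : Equiv.Perm (Fin e)) : Matrix (E.J e) (E.J e) ℂ :=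
  res (I := fun _ => Fin n) (E.c e) (PW σ)

/-- coinvariants of the full group -/
noncomputable def cpl (e : ℕ) : ℕ :=
  ck (Sum.elim ![E.L e E.x, E.L e E.y, 1 - E.TT e] fun σ => 1 - E.PP e σ)

end ND

end Pool.Agent.INV5
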