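import Pool.Agent.INV5.WO2

/-!
# INV5, module R1: exponential and logarithm of nilpotent elements

`IsNilpotent.exp` of Mathlib (`exp_eq_sum`, `exp_add_of_commute`, `exp_mul_exp_neg_self`).
* `exp_sub_one`: `exp x - 1 = x u = u x` with a unit `u = ∑ x ^ i / (i + 1)!` which commutes with everything
  commuting with `x`.
* `exp_inj_comm`: if `x, z` commute, `exp (x - z) = exp x * exp (-z) = 1`, so `(x - z) u = 0`.
* `exists_log`: show by induction on `k` that there is a polynomial `p_k` without constant term and a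
  polynomial `r_k` with `1 + N = exp (p_k(N)) + N ^ (k+1) r_k(N)`. Step: `p_(k+1) = p_k + X ^ (k+1) s` where
  `s = r_k exp(-p_k)` (as a polynomial in `N`): `exp (p_(k+1)(N)) = exp(p_k(N)) (1 + N ^ (k+1) s + N ^ (2k+2) ...)`
  `= 1 + N + N ^ (k+2) ...`. For `N ^ (k+1) = 0` we are done.
* `exp_inj`: `x` is a polynomial in `exp x - 1`: take `x'` in the algebra generated by `exp x - 1` with
  `exp x' = exp x`; it commutes with `x`, so `x' = x`. Hence `x` and `z` lie in the same commutative algebra.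
* `Kr_exp`: `Tot z = ∑ At m (z m)`, commuting nilpotent summands, `exp (At m (z m)) = At m (exp (z m))`
  (`At m` is an algebra homomorphism, see `At_mul`, `At_one`, ...), and the product of the `At m (w m)` is
  `Kr w`.
-/

namespace Pool.Agent.INV5

open Matrix

theorem exp_sub_one {R : Type*} [Ring R] [Algebra ℚ R] (x : R) (h : IsNilpotent x) :
    ∃ u v : R, u * v = 1 ∧ v * u = 1 ∧ IsNilpotent.exp x - 1 = x * u ∧
      ∀ w, Commute x w → Commute u w := by
  obtain ⟨k, hk⟩ := h
  have hk1 : x ^ (k + 2) = 0 := by rw [pow_add, hk, zero_mul]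
  have e := IsNilpotent.exp_eq_sum hk1
  rw [Finset.sum_range_succ'] at e
  set u : R := ∑ i ∈ Finset.range (k + 1), ((i + 1).factorial : ℚ)⁻¹ • (x ^ i) with hu
  set w : R := ∑ i ∈ Finset.range k, ((i + 1 + 1).factorial : ℚ)⁻¹ • (x ^ i) with hw
  have cw : ∀ (n : ℕ) (f : ℕ → ℚ) (y : R), Commute x y →
      Commute (∑ i ∈ Finset.range n, f i • x ^ i) y := fun n f y hy =>
    Commute.sum_left _ _ _ fun i _ => (hy.pow_left i).smul_left _
  have hu1 : u = 1 + x * w := by
    rw [hu, Finset.sum_range_succ', hw, Finset.mul_sum, add_comm]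
    congr 1
    · simp
    · refine Finset.sum_congr rfl fun i _ => ?_
      rw [mul_smul_comm, ← pow_succ']
  have hn : IsNilpotent (x * w) :=
    (cw _ _ _ (Commute.refl x)).symm.isNilpotent_mul_right ⟨k, hk⟩
  have hunit : IsUnit u := by
    rw [hu1]
    exact hn.isUnit_one_add
  obtain ⟨v, hv⟩ := hunit
  refine ⟨u, (v⁻¹ : Rˣ), ?_, ?_, ?_, fun y hy => cw _ _ _ hy⟩
  · rw [← hv]
    simp
  · rw [← hv]
    simp
  · rw [e, hu, Finset.mul_sum]
    simp only [mul_smul_comm, ← pow_succ']
    simp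

private theorem exp_two {A : Type*} [CommRing A] [Algebra ℚ A] (d : A) (h : IsNilpotent d) :
    ∃ v : A, IsNilpotent.exp d = 1 + d + d ^ 2 * v := by
  obtain ⟨k, hk⟩ := h
  have hk1 : d ^ (k + 2) = 0 := by rw [pow_add, hk, zero_mul]
  have e := IsNilpotent.exp_eq_sum hk1
  rw [Finset.sum_range_succ', Finset.sum_range_succ'] at e
  refine ⟨∑ i ∈ Finset.range k, ((i + 1 + 1).factorial : ℚ)⁻¹ • (d ^ i), ?_⟩
  rw [e, Finset.mul_sum]
  have : ∀ i : ℕ, d ^ 2 * ((i + 1 + 1).factorial : ℚ)⁻¹ • d ^ i =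
      ((i + 1 + 1).factorial : ℚ)⁻¹ • d ^ (i + 1 + 1) := fun i => by
    rw [mul_smul_comm, ← pow_add]
    congr 2
    ring
  simp only [this]
  simp
  ring

private theorem log_aux {A : Type*} [CommRing A] [Algebra ℚ A] (N : A) (hN : IsNilpotent N) (k : ℕ) :
    ∃ x r : A, IsNilpotent x ∧ 1 + N = IsNilpotent.exp x + N ^ (k + 1) * r := by
  induction k with
  | zero => exact ⟨0, 1, IsNilpotent.zero, by simp⟩
  | succ k ih =>
    obtain ⟨x, r, hx, h⟩ := ih
    have hd : IsNilpotent (N ^ (k + 1) * (r * IsNilpotent.exp (-x))) :=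
      (Commute.all _ _).isNilpotent_mul_right (hN.pow_succ k)
    obtain ⟨v, hv⟩ := exp_two _ hd
    have h1 := IsNilpotent.exp_mul_exp_neg_self hx
    refine ⟨x + N ^ (k + 1) * (r * IsNilpotent.exp (-x)),
      -(N ^ k * (r * IsNilpotent.exp (-x)) ^ 2 * IsNilpotent.exp x * v),
      (Commute.all _ _).isNilpotent_add hx hd, ?_⟩
    rw [IsNilpotent.exp_add_of_commute (Commute.all _ _) hx hd, hv, h]
    linear_combination (-(N ^ (k + 1) * r)) * h1

theorem exists_log {R : Type*} [Ring R] [Algebra ℚ R] (N : R) (hN : IsNilpotent N) :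
    ∃ x ∈ Algebra.adjoin ℚ {N}, IsNilpotent x ∧ IsNilpotent.exp x = 1 + N := by
  obtain ⟨k, hk⟩ := hN
  have hk1 : Polynomial.aeval N ((Polynomial.X : Polynomial ℚ) ^ (k + 1)) = 0 := by
    rw [map_pow, Polynomial.aeval_X, pow_succ, hk, zero_mul]
  let I : Ideal (Polynomial ℚ) := Ideal.span {(Polynomial.X : Polynomial ℚ) ^ (k + 1)}
  let φ : (Polynomial ℚ ⧸ I) →ₐ[ℚ] R := Ideal.Quotient.liftₐ I (Polynomial.aeval N) (by
    intro a ha
    obtain ⟨b, rfl⟩ := Ideal.mem_span_singleton.1 ha
    rw [map_mul, hk1, zero_mul])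
  have hφ : ∀ p, φ (Ideal.Quotient.mk I p) = Polynomial.aeval N p := fun p => rfl
  have hX : (Ideal.Quotient.mk I Polynomial.X) ^ (k + 1) = 0 := by
    rw [← map_pow]
    exact Ideal.Quotient.eq_zero_iff_mem.2 (Ideal.subset_span rfl)
  obtain ⟨x, r, hx, h⟩ := log_aux (Ideal.Quotient.mk I Polynomial.X) ⟨_, hX⟩ k
  rw [hX, zero_mul, add_zero] at h
  refine ⟨φ x, ?_, hx.map φ, ?_⟩
  · obtain ⟨p, rfl⟩ := Ideal.Quotient.mk_surjective x
    rw [hφ]
    exact Polynomial.aeval_mem_adjoin_singleton ℚ N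
  · rw [← IsNilpotent.map_exp hx φ, ← h, map_add, map_one, hφ, Polynomial.aeval_X]

private theorem exp_inj_comm {R : Type*} [Ring R] [Algebra ℚ R] (x z : R) (hx : IsNilpotent x)
    (hz : IsNilpotent z) (hc : Commute x z) (h : IsNilpotent.exp x = IsNilpotent.exp z) :
    x = z := by
  have hn : IsNilpotent (x - z) := hc.isNilpotent_sub hx hz
  obtain ⟨u, v, huv, -, e, -⟩ := exp_sub_one (x - z) hn
  have e1 : IsNilpotent.exp (x - z) = 1 := by
    rw [sub_eq_add_neg, IsNilpotent.exp_add_of_commute hc.neg_right hx hz.neg, h,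
      IsNilpotent.exp_mul_exp_neg_self hz]
  rw [e1, sub_self] at e
  have : x - z = 0 := by
    calc x - z = (x - z) * (u * v) := by rw [huv, mul_one]
      _ = (x - z) * u * v := by rw [mul_assoc]
      _ = 0 := by rw [← e, zero_mul]
  exact sub_eq_zero.1 this

theorem exp_inj {R : Type*} [Ring R] [Algebra ℚ R] (x z : R) (hx : IsNilpotent x)
    (hz : IsNilpotent z) (h : IsNilpotent.exp x = IsNilpotent.exp z) : x = z := by
  obtain ⟨y, hy, hyn, hye⟩ := exists_log (IsNilpotent.exp x - 1) (IsNilpotent.isNilpotent_exp_sub_one hx)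
  rw [add_sub_cancel] at hye
  have key : ∀ w : R, IsNilpotent w → IsNilpotent.exp w = IsNilpotent.exp x → w = y := by
    intro w hw hwe
    have hc : Commute w (IsNilpotent.exp x - 1) := by
      rw [← hwe]
      obtain ⟨u, v, -, -, e, hu⟩ := exp_sub_one w hw
      rw [e]
      exact (Commute.refl w).mul_right (hu w (Commute.refl w)).symm
    have hcy : Commute w y := by
      have hm : y ∈ Subalgebra.centralizer ℚ {w} := by
        refine (Algebra.adjoin_le ?_ : Algebra.adjoin ℚ {IsNilpotent.exp x - 1} ≤ _) hy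
        rintro _ rfl
        rw [SetLike.mem_coe, Subalgebra.mem_centralizer_iff]
        rintro _ rfl
        exact hc.eq
      rw [Subalgebra.mem_centralizer_iff] at hm
      exact hm w rfl
    exact exp_inj_comm w y hw hyn hcy (hwe.trans hye.symm)
  rw [key x hx rfl, key z hz h.symm]

/-- a similarity commutes with the exponential map -/
theorem exp_conj {I K : Type*} [Fintype I] [DecidableEq I] [Fintype K] [DecidableEq K]
    (B : Matrix I K ℂ) (B' : Matrix K I ℂ) (h : B * B' = 1) (h' : B' * B = 1)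
    (x : Matrix K K ℂ) (hx : IsNilpotent x) :
    IsNilpotent (B * x * B') ∧ IsNilpotent.exp (B * x * B') = B * IsNilpotent.exp x * B' := by
  have hp : ∀ k : ℕ, (B * x * B') ^ k = B * x ^ k * B' := by
    intro k
    induction k with
    | zero => simp [h]
    | succ k ih =>
      rw [pow_succ, ih, pow_succ]
      calc B * x ^ k * B' * (B * x * B') = B * x ^ k * (B' * B) * x * B' := by
            simp only [Matrix.mul_assoc]
        _ = _ := by rw [h']; simp only [Matrix.mul_assoc, Matrix.mul_one]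
  obtain ⟨k, hk⟩ := hx
  have hk' : (B * x * B') ^ k = 0 := by rw [hp, hk]; simp
  refine ⟨⟨k, hk'⟩, ?_⟩
  rw [IsNilpotent.exp_eq_sum hk, IsNilpotent.exp_eq_sum hk', Matrix.mul_sum, Matrix.sum_mul]
  refine Finset.sum_congr rfl fun i _ => ?_
  rw [hp, Matrix.mul_smul, Matrix.smul_mul]

theorem exp_transpose {I : Type*} [Fintype I] [DecidableEq I] (x : Matrix I I ℂ)
    (hx : IsNilpotent x) : IsNilpotent.exp xᵀ = (IsNilpotent.exp x)ᵀ := by
  obtain ⟨k, hk⟩ := hx
  have hk' : xᵀ ^ k = 0 := by rw [← Matrix.transpose_pow, hk, Matrix.transpose_zero]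
  rw [IsNilpotent.exp_eq_sum hk, IsNilpotent.exp_eq_sum hk', Matrix.transpose_sum]
  refine Finset.sum_congr rfl fun i _ => ?_
  rw [Matrix.transpose_smul, Matrix.transpose_pow]

private noncomputable def AtHom {N : ℕ} {I : Fin N → Type} [∀ m, Fintype (I m)]
    [∀ m, DecidableEq (I m)] (m : Fin N) :
    Matrix (I m) (I m) ℂ →+* Matrix (∀ m, I m) (∀ m, I m) ℂ where
  toFun := At m
  map_one' := At_one m
  map_mul' z z' := (At_mul m z z').symm
  map_zero' := At_zero m
  map_add' := At_add m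

theorem Kr_exp {N : ℕ} {I : Fin N → Type} [∀ m, Fintype (I m)] [∀ m, DecidableEq (I m)]
    (z : ∀ m, Matrix (I m) (I m) ℂ) (h : ∀ m, IsNilpotent (z m)) :
    Kr (fun m => IsNilpotent.exp (z m)) = IsNilpotent.exp (Tot z) := by
  have hA : ∀ m, IsNilpotent (At m (z m)) := fun m => (h m).map (AtHom m)
  have hE : ∀ m, IsNilpotent.exp (At m (z m)) = At m (IsNilpotent.exp (z m)) := fun m =>
    (IsNilpotent.map_exp (h m) (AtHom m)).symm
  have key : ∀ s : Finset (Fin N), IsNilpotent (∑ m ∈ s, At m (z m)) ∧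
      Kr (fun m => if m ∈ s then IsNilpotent.exp (z m) else 1) =
        IsNilpotent.exp (∑ m ∈ s, At m (z m)) := by
    intro s
    induction s using Finset.induction_on with
    | empty =>
      refine ⟨by simp, ?_⟩
      simp only [Finset.notMem_empty, if_false, Finset.sum_empty, IsNilpotent.exp_zero]
      exact Kr_one
    | insert a s ha ih =>
      obtain ⟨ih1, ih2⟩ := ih
      have hc : Commute (At a (z a)) (∑ m ∈ s, At m (z m)) :=
        Commute.sum_right _ _ _ fun m hm => At_comm (by rintro rfl; exact ha hm) _ _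
      rw [Finset.sum_insert ha]
      refine ⟨hc.isNilpotent_add (hA a) ih1, ?_⟩
      rw [IsNilpotent.exp_add_of_commute hc (hA a) ih1, ← ih2, hE, At_eq_Kr, Kr_mul]
      congr 1
      funext m
      by_cases hm : m = a
      · subst hm
        rw [Function.update_self, if_neg ha, if_pos (Finset.mem_insert_self _ _), mul_one]
      · rw [Function.update_of_ne hm, one_mul]
        simp only [Finset.mem_insert, hm, false_or]
  have := (key Finset.univ).2
  simpa [Tot] using this

end Pool.Agent.INV5
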