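import Pool.Agent.INV5.R0
import Pool.Agent.INV5.R1

/-!
# INV5, module R2: labelled basis for a pair of commuting matrices

Simultaneous generalized eigenspaces `V_χ` of the commuting `A, C`
(`Module.End.iSup_iInf_maxGenEigenspace_eq_top_of_iSup_maxGenEigenspace_eq_top_of_commute`,
`Module.End.independent_iInf_maxGenEigenspace_of_forall_mapsTo`, `DirectSum.IsInternal.collectedBasis`);
the eigenvalues are nonzero. Choose a basis of `ℂⁿ` adapted to them, indexed by `Fin n`, with labels `χ`;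
`B` is the matrix of the basis, `B' = B⁻¹`. `B' A B` and `B' C B` do not mix labels, and
`B' A B = diagonal (χ ·).1 * (1 + N)` with `N` nilpotent (`(A - χ.1) ^ n = 0` on `V_χ`), `N` respects the
labels. `x` = logarithm of `1 + N` (`exists_log`); it is a polynomial in `N`, so it respects the labels and
commutes with everything which commutes with `N`. Similarly `y`. (`N` for `A` and `N` for `C` commute: they
are products of `B' A B`, `B' C B` and diagonal matrices which depend on the label only.)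
-/

namespace Pool.Agent.INV5

open Matrix

variable {n : ℕ}

private noncomputable def ff (A C : Matrix (Fin n) (Fin n) ℂ) : Fin 2 → Module.End ℂ (Fin n → ℂ) :=
  ![A.mulVecLin, C.mulVecLin]

private noncomputable def VV (A C : Matrix (Fin n) (Fin n) ℂ) (μ : Fin 2 → ℂ) :
    Submodule ℂ (Fin n → ℂ) :=
  ⨅ i, (ff A C i).maxGenEigenspace (μ i)

private theorem ff_comm (A C : Matrix (Fin n) (Fin n) ℂ) (hAC : Commute A C) (i j : Fin 2) :
    Commute (ff A C i) (ff A C j) := by
  have h : Commute A.mulVecLin C.mulVecLin := by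
    show A.mulVecLin * C.mulVecLin = C.mulVecLin * A.mulVecLin
    rw [Module.End.mul_eq_comp, Module.End.mul_eq_comp, ← Matrix.mulVecLin_mul,
      ← Matrix.mulVecLin_mul, hAC.eq]
  fin_cases i <;> fin_cases j
  · exact Commute.refl _
  · exact h
  · exact h.symm
  · exact Commute.refl _

private theorem exists_basis (A C : Matrix (Fin n) (Fin n) ℂ) (hAC : Commute A C) :
    ∃ (b : Module.Basis (Fin n) ℂ (Fin n → ℂ)) (χ : Fin n → Fin 2 → ℂ),
      (∀ j, b j ∈ VV A C (χ j)) ∧
      ∀ (μ : Fin 2 → ℂ) (v : Fin n → ℂ), v ∈ VV A C μ → ∀ j, b.repr v j ≠ 0 → χ j = μ := by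
  classical
  have htop : ⨆ μ : Fin 2 → ℂ, VV A C μ = ⊤ :=
    Module.End.iSup_iInf_maxGenEigenspace_eq_top_of_iSup_maxGenEigenspace_eq_top_of_commute
      (ff A C) (fun i j _ => ff_comm A C hAC i j)
      fun i => Module.End.iSup_maxGenEigenspace_eq_top _
  have hind : iSupIndep (VV A C) :=
    Module.End.independent_iInf_maxGenEigenspace_of_forall_mapsTo (ff A C)
      fun i j φ => Module.End.mapsTo_maxGenEigenspace_of_comm (ff_comm A C hAC j i) φ
  have hint : DirectSum.IsInternal (VV A C) :=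
    DirectSum.isInternal_submodule_of_iSupIndep_of_iSup_eq_top hind htop
  let b0 := hint.collectedBasis fun μ => Module.finBasis ℂ (VV A C μ)
  have hfin : Finite (Σ μ, Fin (Module.finrank ℂ (VV A C μ))) := Module.Finite.finite_basis b0
  let hft : Fintype (Σ μ, Fin (Module.finrank ℂ (VV A C μ))) := Fintype.ofFinite _
  have hcard : Fintype.card (Σ μ, Fin (Module.finrank ℂ (VV A C μ))) = n := by
    rw [← Module.finrank_eq_card_basis b0, Module.finrank_fin_fun]
  let e := Fintype.equivFinOfCardEq hcard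
  refine ⟨b0.reindex e, fun j => (e.symm j).1, ?_, ?_⟩
  · intro j
    rw [Module.Basis.reindex_apply]
    exact hint.collectedBasis_mem _ _
  · intro μ v hv j hj
    by_contra hne
    apply hj
    rw [Module.Basis.repr_reindex_apply]
    exact hint.collectedBasis_repr_of_mem_ne _ (fun h => hne h.symm) hv

private def Lp (χ : Fin n → Lam) (z : Matrix (Fin n) (Fin n) ℂ) : Prop :=
  ∀ i k, z i k ≠ 0 → χ i = χ k

private theorem Lp_one (χ : Fin n → Lam) : Lp χ (1 : Matrix (Fin n) (Fin n) ℂ) := by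
  intro i k h
  by_contra hne
  apply h
  rw [Matrix.one_apply_ne]
  rintro rfl
  exact hne rfl

private theorem Lp_diag (χ : Fin n → Lam) (d : Fin n → ℂ) : Lp χ (diagonal d) := by
  intro i k h
  by_contra hne
  apply h
  rw [Matrix.diagonal_apply_ne]
  rintro rfl
  exact hne rfl

private theorem Lp_mul {χ : Fin n → Lam} {z w : Matrix (Fin n) (Fin n) ℂ} (hz : Lp χ z)
    (hw : Lp χ w) : Lp χ (z * w) := by
  intro i k h
  rw [Matrix.mul_apply] at h
  obtain ⟨j, _, hj⟩ := Finset.exists_ne_zero_of_sum_ne_zero h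
  exact (hz i j (left_ne_zero_of_mul hj)).trans (hw j k (right_ne_zero_of_mul hj))

private theorem Lp_add {χ : Fin n → Lam} {z w : Matrix (Fin n) (Fin n) ℂ} (hz : Lp χ z)
    (hw : Lp χ w) : Lp χ (z + w) := by
  intro i k h
  by_cases h1 : z i k = 0
  · refine hw i k fun h2 => h ?_
    rw [Matrix.add_apply, h1, h2, add_zero]
  · exact hz i k h1

private theorem Lp_smul {χ : Fin n → Lam} {z : Matrix (Fin n) (Fin n) ℂ} (a : ℚ) (hz : Lp χ z) :
    Lp χ (a • z) := by
  intro i k h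
  refine hz i k fun h1 => h ?_
  rw [Matrix.smul_apply, h1, smul_zero]

private theorem Lp_adjoin {χ : Fin n → Lam} {z w : Matrix (Fin n) (Fin n) ℂ} (hz : Lp χ z)
    (hw : w ∈ Algebra.adjoin ℚ {z}) : Lp χ w := by
  induction hw using Algebra.adjoin_induction with
  | mem x hx =>
    rw [Set.mem_singleton_iff] at hx
    rw [hx]
    exact hz
  | algebraMap r =>
    rw [Algebra.algebraMap_eq_smul_one]
    exact Lp_smul r (Lp_one χ)
  | add x y _ _ hx hy => exact Lp_add hx hy
  | mul x y _ _ hx hy => exact Lp_mul hx hy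

private theorem diag_comm {χ : Fin n → Lam} {z : Matrix (Fin n) (Fin n) ℂ} (hz : Lp χ z)
    (g : Lam → ℂ) : Commute (diagonal fun i => g (χ i)) z := by
  show _ * _ = _ * _
  ext i k
  rw [Matrix.diagonal_mul, Matrix.mul_diagonal]
  by_cases h : z i k = 0
  · rw [h, mul_zero, zero_mul]
  · rw [hz i k h, mul_comm]

private theorem comm_adjoin {x y N M : Matrix (Fin n) (Fin n) ℂ} (h : Commute N M)
    (hx : x ∈ Algebra.adjoin ℚ {N}) (hy : y ∈ Algebra.adjoin ℚ {M}) : Commute x y := by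
  have h1 : Algebra.adjoin ℚ {N} ≤ Subalgebra.centralizer ℚ {M} := by
    rw [Algebra.adjoin_le_iff, Set.singleton_subset_iff]
    exact Subalgebra.mem_centralizer_iff _ |>.mpr fun g hg => by
      rw [Set.mem_singleton_iff] at hg
      rw [hg]
      exact h.symm.eq
  have h2 := (Subalgebra.mem_centralizer_iff _).mp (h1 hx) M rfl
  have h3 : Algebra.adjoin ℚ {M} ≤ Subalgebra.centralizer ℚ {x} := by
    rw [Algebra.adjoin_le_iff, Set.singleton_subset_iff]
    exact Subalgebra.mem_centralizer_iff _ |>.mpr fun g hg => by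
      rw [Set.mem_singleton_iff] at hg
      rw [hg]
      exact h2.symm
  exact (Subalgebra.mem_centralizer_iff _).mp (h3 hy) x rfl

/-- the nilpotent part of a label preserving matrix -/
private theorem nil_part {χ : Fin n → Lam} {z : Matrix (Fin n) (Fin n) ℂ} (hz : Lp χ z)
    (g : Lam → ℂ) (h : ∀ j, ∃ k : ℕ, ((z - g (χ j) • (1 : Matrix (Fin n) (Fin n) ℂ)) ^ k).mulVec
      (Pi.single j 1) = 0) : IsNilpotent (z - diagonal fun i => g (χ i)) := by
  classical
  set w := z - diagonal fun i => g (χ i) with hw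
  have hwL : Lp χ w := by
    have h1 := Lp_add hz (Lp_diag χ (fun i => -g (χ i)))
    have h2 : w = z + diagonal fun i => -g (χ i) := by
      rw [hw, sub_eq_add_neg, Matrix.diagonal_neg]
    rw [h2]
    exact h1
  -- both matrices agree on vectors of one label
  have h1 : ∀ (j : Fin n) (v : Fin n → ℂ), (∀ i, v i ≠ 0 → χ i = χ j) →
      w.mulVec v = (z - g (χ j) • (1 : Matrix (Fin n) (Fin n) ℂ)).mulVec v := by
    intro j v hv
    rw [hw, Matrix.sub_mulVec, Matrix.sub_mulVec, Matrix.smul_mulVec, Matrix.one_mulVec]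
    congr 1
    funext i
    rw [Matrix.mulVec_diagonal, Pi.smul_apply, smul_eq_mul]
    by_cases h2 : v i = 0
    · rw [h2, mul_zero, mul_zero]
    · rw [hv i h2]
  have h2 : ∀ (j : Fin n) (v : Fin n → ℂ), (∀ i, v i ≠ 0 → χ i = χ j) →
      ∀ i, w.mulVec v i ≠ 0 → χ i = χ j := by
    intro j v hv i hi
    rw [Matrix.mulVec, dotProduct] at hi
    obtain ⟨k, _, hk⟩ := Finset.exists_ne_zero_of_sum_ne_zero hi
    exact (hwL i k (left_ne_zero_of_mul hk)).trans (hv k (right_ne_zero_of_mul hk))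
  have h3 : ∀ (j : Fin n) (k : ℕ), (∀ i, (w ^ k).mulVec (Pi.single j 1) i ≠ 0 → χ i = χ j) ∧
      (w ^ k).mulVec (Pi.single j 1) =
        ((z - g (χ j) • (1 : Matrix (Fin n) (Fin n) ℂ)) ^ k).mulVec (Pi.single j 1) := by
    intro j k
    induction k with
    | zero =>
      refine ⟨?_, by simp⟩
      intro i hi
      rw [pow_zero, Matrix.one_mulVec] at hi
      by_contra hne
      apply hi
      rw [Pi.single_apply, if_neg]
      rintro rfl
      exact hne rfl
    | succ k ih =>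
      have h4 : (w ^ (k + 1)).mulVec (Pi.single j 1) = w.mulVec ((w ^ k).mulVec (Pi.single j 1)) := by
        rw [Matrix.mulVec_mulVec, pow_succ']
      refine ⟨?_, ?_⟩
      · rw [h4]
        exact h2 j _ ih.1
      · rw [h4, h1 j _ ih.1, ih.2, Matrix.mulVec_mulVec, pow_succ']
  choose k hk using h
  refine ⟨Finset.univ.sup k, ?_⟩
  refine Matrix.ext_of_mulVec_single fun j => ?_
  have h5 : k j ≤ Finset.univ.sup k := Finset.le_sup (Finset.mem_univ j)
  rw [← Nat.sub_add_cancel h5, pow_add, ← Matrix.mulVec_mulVec, (h3 j (k j)).2, hk j,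
    Matrix.mulVec_zero, Matrix.zero_mulVec]

private theorem log_part {χ : Fin n → Lam} {z : Matrix (Fin n) (Fin n) ℂ} (hz : Lp χ z)
    (g : Lam → ℂ) (g' : Lam → ℂ) (hg : ∀ l, g l * g' l = 1)
    (h : ∀ j, ∃ k : ℕ, ((z - g (χ j) • (1 : Matrix (Fin n) (Fin n) ℂ)) ^ k).mulVec
      (Pi.single j 1) = 0) :
    ∃ x ∈ Algebra.adjoin ℚ {diagonal (fun i => g' (χ i)) * z - 1}, IsNilpotent x ∧
      z = diagonal (fun i => g (χ i)) * IsNilpotent.exp x := by
  have hgg : diagonal (fun i => g' (χ i)) * diagonal (fun i => g (χ i)) = 1 := by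
    rw [Matrix.diagonal_mul_diagonal]
    simp only [mul_comm (g' _), hg, Matrix.diagonal_one]
  have hgg' : diagonal (fun i => g (χ i)) * diagonal (fun i => g' (χ i)) = 1 := by
    rw [Matrix.diagonal_mul_diagonal]
    simp only [hg, Matrix.diagonal_one]
  have h1 : diagonal (fun i => g' (χ i)) * z - 1 =
      diagonal (fun i => g' (χ i)) * (z - diagonal fun i => g (χ i)) := by
    rw [mul_sub, hgg]
  have h2 : Commute (diagonal (fun i => g' (χ i))) (z - diagonal fun i => g (χ i)) := by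
    refine (diag_comm hz g').sub_right ?_
    exact diag_comm (Lp_diag χ _) g'
  have h3 : IsNilpotent (diagonal (fun i => g' (χ i)) * z - 1) := by
    rw [h1]
    exact h2.isNilpotent_mul_left (nil_part hz g h)
  obtain ⟨x, hx, hxn, hxe⟩ := exists_log _ h3
  refine ⟨x, hx, hxn, ?_⟩
  rw [hxe, add_sub_cancel, ← mul_assoc, hgg', one_mul]

theorem eig (n : ℕ) (A C : Matrix (Fin n) (Fin n) ℂ) (hA : IsUnit A) (hC : IsUnit C)
    (hAC : Commute A C) : ∃ (χ : Fin n → Lam) (x y B B' : Matrix (Fin n) (Fin n) ℂ),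
    B * B' = 1 ∧ B' * B = 1 ∧ (∀ i k, x i k ≠ 0 → χ i = χ k) ∧ (∀ i k, y i k ≠ 0 → χ i = χ k) ∧
    Commute x y ∧ IsNilpotent x ∧ IsNilpotent y ∧
    B' * A * B = diagonal (fun i => ((χ i).1 : ℂ)) * IsNilpotent.exp x ∧
    B' * C * B = diagonal (fun i => ((χ i).2 : ℂ)) * IsNilpotent.exp y := by
  classical
  obtain ⟨b, χ', hb, hrep⟩ := exists_basis A C hAC
  -- the eigenvalues are nonzero
  have hpow : ∀ (T : Matrix (Fin n) (Fin n) ℂ) (μ : ℂ) (k : ℕ) (v : Fin n → ℂ),
      ((T.mulVecLin - μ • (1 : Module.End ℂ (Fin n → ℂ))) ^ k) v =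
        ((T - μ • (1 : Matrix (Fin n) (Fin n) ℂ)) ^ k).mulVec v := by
    intro T μ k v
    induction k generalizing v with
    | zero => simp
    | succ k ih =>
      rw [pow_succ, Module.End.mul_apply, ih, pow_succ, ← Matrix.mulVec_mulVec]
      congr 1
      rw [LinearMap.sub_apply, Matrix.mulVecLin_apply, LinearMap.smul_apply, Module.End.one_apply,
        Matrix.sub_mulVec, Matrix.smul_mulVec, Matrix.one_mulVec]
  have hex : ∀ (i : Fin 2) (j : Fin n), ∃ k : ℕ,
      (((![A, C] : Fin 2 → Matrix (Fin n) (Fin n) ℂ) i - χ' j i • (1 : Matrix (Fin n) (Fin n) ℂ)) ^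
        k).mulVec (b j) = 0 := by
    intro i j
    have h1 := (Submodule.mem_iInf _).mp (hb j) i
    rw [Module.End.mem_maxGenEigenspace] at h1
    obtain ⟨k, hk⟩ := h1
    refine ⟨k, ?_⟩
    rw [← hpow, ← hk]
    fin_cases i <;> rfl
  have hne : ∀ (i : Fin 2) (j : Fin n), χ' j i ≠ 0 := by
    intro i j h0
    obtain ⟨k, hk⟩ := hex i j
    rw [h0, zero_smul, sub_zero] at hk
    have hu : IsUnit ((![A, C] : Fin 2 → Matrix (Fin n) (Fin n) ℂ) i) := by
      fin_cases i
      · exact hA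
      · exact hC
    have hinj := Matrix.mulVec_injective_of_isUnit (hu.pow k)
    have h2 : b j = 0 := hinj (by rw [hk, Matrix.mulVec_zero])
    exact b.ne_zero j h2
  obtain ⟨χ, hχ1, hχ2⟩ : ∃ χ : Fin n → Lam, (∀ j, ((χ j).1 : ℂ) = χ' j 0) ∧
      ∀ j, ((χ j).2 : ℂ) = χ' j 1 :=
    ⟨fun j => (Units.mk0 (χ' j 0) (hne 0 j), Units.mk0 (χ' j 1) (hne 1 j)), fun _ => rfl,
      fun _ => rfl⟩
  let B : Matrix (Fin n) (Fin n) ℂ := (Pi.basisFun ℂ (Fin n)).toMatrix b
  let B' : Matrix (Fin n) (Fin n) ℂ := b.toMatrix (Pi.basisFun ℂ (Fin n))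
  have hBB : B * B' = 1 := Module.Basis.toMatrix_mul_toMatrix_flip _ _
  have hBB' : B' * B = 1 := Module.Basis.toMatrix_mul_toMatrix_flip _ _
  have hBs : ∀ j, B.mulVec (Pi.single j 1) = b j := by
    intro j
    rw [Matrix.mulVec_single_one]
    rfl
  have hB's : ∀ v, B'.mulVec v = ⇑(b.repr v) := by
    intro v
    have h1 : v = B.mulVec (⇑(b.repr v)) := by
      conv_lhs => rw [← b.sum_repr v]
      funext i
      rw [Finset.sum_apply, Matrix.mulVec, dotProduct]
      refine Finset.sum_congr rfl fun j _ => ?_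
      rw [Pi.smul_apply, smul_eq_mul, mul_comm]
      rfl
    conv_lhs => rw [h1]
    rw [Matrix.mulVec_mulVec, hBB', Matrix.one_mulVec]
  have hLp : ∀ i : Fin 2, Lp χ (B' * (![A, C] : Fin 2 → Matrix (Fin n) (Fin n) ℂ) i * B) := by
    intro i p q hpq
    have h1 : (B' * (![A, C] : Fin 2 → Matrix (Fin n) (Fin n) ℂ) i * B) p q =
        b.repr (((![A, C] : Fin 2 → Matrix (Fin n) (Fin n) ℂ) i).mulVec (b q)) p := by
      rw [← hB's, ← hBs, Matrix.mulVec_mulVec, Matrix.mulVec_mulVec, Matrix.mulVec_single_one]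
      rfl
    rw [h1] at hpq
    have h2 : ((![A, C] : Fin 2 → Matrix (Fin n) (Fin n) ℂ) i).mulVec (b q) ∈ VV A C (χ' q) := by
      rw [VV, Submodule.mem_iInf]
      intro l
      have h3 := (Submodule.mem_iInf _).mp (hb q) l
      have h4 := Module.End.mapsTo_maxGenEigenspace_of_comm (ff_comm A C hAC l i) (χ' q l) h3
      have h5 : (ff A C i) (b q) =
          ((![A, C] : Fin 2 → Matrix (Fin n) (Fin n) ℂ) i).mulVec (b q) := by
        fin_cases i <;> rfl
      rw [← h5]
      exact h4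
    have h3 := hrep (χ' q) _ h2 p hpq
    refine Prod.ext (Units.ext ?_) (Units.ext ?_)
    · rw [hχ1, hχ1, h3]
    · rw [hχ2, hχ2, h3]
  have hnil : ∀ (i : Fin 2) (j : Fin n), ∃ k : ℕ,
      ((B' * (![A, C] : Fin 2 → Matrix (Fin n) (Fin n) ℂ) i * B -
        χ' j i • (1 : Matrix (Fin n) (Fin n) ℂ)) ^ k).mulVec (Pi.single j 1) = 0 := by
    intro i j
    obtain ⟨k, hk⟩ := hex i j
    refine ⟨k, ?_⟩
    have h1 : B' * (![A, C] : Fin 2 → Matrix (Fin n) (Fin n) ℂ) i * B -
        χ' j i • (1 : Matrix (Fin n) (Fin n) ℂ) =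
        B' * ((![A, C] : Fin 2 → Matrix (Fin n) (Fin n) ℂ) i -
          χ' j i • (1 : Matrix (Fin n) (Fin n) ℂ)) * B := by
      rw [mul_sub, sub_mul, Matrix.mul_smul, Matrix.smul_mul, mul_one, hBB']
    have h2 : ∀ (T : Matrix (Fin n) (Fin n) ℂ) (k : ℕ), (B' * T * B) ^ k = B' * T ^ k * B := by
      intro T k
      induction k with
      | zero => rw [pow_zero, pow_zero, mul_one, hBB']
      | succ k ih =>
        rw [pow_succ, ih, pow_succ]
        calc B' * T ^ k * B * (B' * T * B) = B' * T ^ k * (B * B') * T * B := by noncomm_ring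
          _ = _ := by rw [hBB]; noncomm_ring
    rw [h1, h2, ← Matrix.mulVec_mulVec, hBs, ← Matrix.mulVec_mulVec, hk, Matrix.mulVec_zero]
  have hLA : Lp χ (B' * A * B) := hLp 0
  have hLC : Lp χ (B' * C * B) := hLp 1
  obtain ⟨x, hx, hxn, hxe⟩ := log_part hLA (fun l => (l.1 : ℂ)) (fun l => ((l.1⁻¹ : ℂˣ) : ℂ))
    (fun l => by rw [← Units.val_mul, mul_inv_cancel, Units.val_one])
    (fun j => by
      simp only [hχ1]
      exact hnil 0 j)
  obtain ⟨y, hy, hyn, hye⟩ := log_part hLC (fun l => (l.2 : ℂ)) (fun l => ((l.2⁻¹ : ℂˣ) : ℂ))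
    (fun l => by rw [← Units.val_mul, mul_inv_cancel, Units.val_one])
    (fun j => by
      simp only [hχ2]
      exact hnil 1 j)
  have hLN : ∀ (g : Lam → ℂ) (z : Matrix (Fin n) (Fin n) ℂ), Lp χ z →
      Lp χ (diagonal (fun i => g (χ i)) * z - 1) := by
    intro g z hz
    have h1 := Lp_add (Lp_mul (Lp_diag χ fun i => g (χ i)) hz) (Lp_smul (-1 : ℚ) (Lp_one χ))
    rw [neg_smul, one_smul, ← sub_eq_add_neg] at h1
    exact h1
  have hcAC : Commute (B' * A * B) (B' * C * B) := by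
    show B' * A * B * (B' * C * B) = B' * C * B * (B' * A * B)
    calc B' * A * B * (B' * C * B) = B' * A * (B * B') * C * B := by noncomm_ring
      _ = B' * (A * C) * B := by rw [hBB]; noncomm_ring
      _ = B' * (C * A) * B := by rw [hAC.eq]
      _ = B' * C * (B * B') * A * B := by rw [hBB]; noncomm_ring
      _ = _ := by noncomm_ring
  have hcN : Commute (diagonal (fun i => (((χ i).1⁻¹ : ℂˣ) : ℂ)) * (B' * A * B) - 1)
      (diagonal (fun i => (((χ i).2⁻¹ : ℂˣ) : ℂ)) * (B' * C * B) - 1) := by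
    have h1 : Commute (diagonal (fun i => (((χ i).1⁻¹ : ℂˣ) : ℂ)))
        (diagonal (fun i => (((χ i).2⁻¹ : ℂˣ) : ℂ))) := diag_comm (Lp_diag χ _)
          fun l => ((l.1⁻¹ : ℂˣ) : ℂ)
    have h2 : Commute (diagonal (fun i => (((χ i).1⁻¹ : ℂˣ) : ℂ))) (B' * C * B) :=
      diag_comm hLC fun l => ((l.1⁻¹ : ℂˣ) : ℂ)
    have h3 : Commute (diagonal (fun i => (((χ i).2⁻¹ : ℂˣ) : ℂ))) (B' * A * B) :=
      diag_comm hLA fun l => ((l.2⁻¹ : ℂˣ) : ℂ)
    refine Commute.sub_left (Commute.sub_right ?_ (Commute.one_right _)) (Commute.one_left _)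
    exact (h1.mul_right h2).mul_left (h3.symm.mul_right hcAC)
  have hxL : Lp χ x := Lp_adjoin (hLN (fun l => ((l.1⁻¹ : ℂˣ) : ℂ)) _ hLA) hx
  have hyL : Lp χ y := Lp_adjoin (hLN (fun l => ((l.2⁻¹ : ℂˣ) : ℂ)) _ hLC) hy
  have hxy : Commute x y := comm_adjoin hcN hx hy
  exact ⟨χ, x, y, B, B', hBB, hBB', hxL, hyL, hxy, hxn, hyn, hxe, hye⟩

end Pool.Agent.INV5
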