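import Pool.Agent.INV5.R2

/-!
# INV5, module R3: the involution

`A = T 0 * T 1`, `C = T 0 * T 3`. Then `T 0 A T 0 = T 1 T 0 = A⁻¹`, `T 0 C T 0 = T 3 T 0 = C⁻¹`, and
`T 0 T 1 T 2 T 3 = 1` gives `T 2 = (T 0 T 1)⁻¹ T 3 = A⁻¹ T 0 C`, and `T 2 ^ 2 = 1` gives
`A⁻¹ C⁻¹ A C = 1`, i.e. `A C = C A`. Apply `eig` and put `t = B' T 0 B`, `a = B' A B`, `c = B' C B`.
* `ht`: let `V_χ` be the span of the basis vectors with label `χ`; it is the space of the `v` with
  `(a - χ.1) ^ n v = 0` and `(c - χ.2) ^ n v = 0` (on the span of another label one of these operators is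
  invertible). `t a t = a⁻¹`, so `(a - χ.1) ^ n v = 0` implies `(a⁻¹ - χ.1) ^ n t v = 0`, hence
  `(a - χ.1⁻¹) ^ n t v = 0`. So `t V_χ ⊆ V_(χ⁻¹)`.
* `tx`: `a t a = t`: with `D = diagonal (χ ·).1`, `D t D = t` by `ht` (entrywise), and `D` commutes with
  `x`. So `D exp(x) t D exp(x) = t` gives `exp(x) D t D exp(x) = exp(x) t exp(x) = t`, i.e.
  `t exp(x) t = exp(-x)`; `exp (t x t) = t exp(x) t` (`exp_conj`) and `exp_inj` give `t x t = -x`.
  The same for `y`.
-/

namespace Pool.Agent.INV5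

open Matrix

private theorem R3_key {n : ℕ} (N M : Matrix (Fin n) (Fin n) ℂ) (hN : IsNilpotent N) (μ : ℂ) (hμ : μ ≠ 1)
    (h : μ • ((1 + N) * M * (1 + N)) = M) : M = 0 := by
  classical
  obtain ⟨m, hm⟩ := hN
  by_contra hM
  have hex : ∃ a, N ^ a * M = 0 := ⟨m, by rw [hm, zero_mul]⟩
  obtain ⟨a, ha⟩ : ∃ a, a + 1 = Nat.find hex := by
    rcases Nat.eq_zero_or_pos (Nat.find hex) with h0 | h0
    · have := Nat.find_spec hex
      rw [h0, pow_zero, one_mul] at this
      exact absurd this hM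
    · exact ⟨Nat.find hex - 1, by omega⟩
  have ha1 : N ^ (a + 1) * M = 0 := by rw [ha]; exact Nat.find_spec hex
  have ha0 : N ^ a * M ≠ 0 := Nat.find_min hex (by omega)
  obtain ⟨M1, hM1⟩ : ∃ M1, M1 = N ^ a * M := ⟨_, rfl⟩
  have h1 : N * M1 = 0 := by rw [hM1, ← mul_assoc, ← pow_succ', ha1]
  have h2 : μ • (M1 * (1 + N)) = M1 := by
    have hc : N ^ a * (1 + N) = (1 + N) * N ^ a :=
      ((Commute.one_right _).add_right ((Commute.refl N).pow_left a)).eq
    calc μ • (M1 * (1 + N)) = μ • ((1 + N) * M1 * (1 + N)) := by rw [add_mul, one_mul, h1, add_zero]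
      _ = N ^ a * (μ • ((1 + N) * M * (1 + N))) := by
        rw [mul_smul_comm, hM1]
        simp only [← mul_assoc]
        rw [hc]
      _ = M1 := by rw [h, hM1]
  rw [← hM1] at ha0
  have hex2 : ∃ b, M1 * N ^ b = 0 := ⟨m, by rw [hm, mul_zero]⟩
  obtain ⟨b, hb⟩ : ∃ b, b + 1 = Nat.find hex2 := by
    rcases Nat.eq_zero_or_pos (Nat.find hex2) with h0 | h0
    · have := Nat.find_spec hex2
      rw [h0, pow_zero, mul_one] at this
      exact absurd this ha0
    · exact ⟨Nat.find hex2 - 1, by omega⟩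
  have hb1 : M1 * N ^ (b + 1) = 0 := by rw [hb]; exact Nat.find_spec hex2
  have hb0 : M1 * N ^ b ≠ 0 := Nat.find_min hex2 (by omega)
  have h3 : μ • (M1 * N ^ b) = M1 * N ^ b := by
    have hc : (1 + N) * N ^ b = N ^ b + N ^ (b + 1) := by rw [add_mul, one_mul, ← pow_succ']
    calc μ • (M1 * N ^ b) = μ • (M1 * ((1 + N) * N ^ b)) := by rw [hc, mul_add, hb1, add_zero]
      _ = (μ • (M1 * (1 + N))) * N ^ b := by rw [smul_mul_assoc, mul_assoc]
      _ = M1 * N ^ b := by rw [h2]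
  have h4 : (μ - 1) • (M1 * N ^ b) = 0 := by rw [sub_smul, h3, one_smul, sub_self]
  rcases smul_eq_zero.1 h4 with h5 | h5
  · exact hμ (sub_eq_zero.1 h5)
  · exact hb0 h5

private theorem R3_pow {n : ℕ} (χ : Fin n → Lam) (x : Matrix (Fin n) (Fin n) ℂ)
    (hx : ∀ i k, x i k ≠ 0 → χ i = χ k) (m : ℕ) : ∀ i k, (x ^ m) i k ≠ 0 → χ i = χ k := by
  induction m with
  | zero =>
    intro i k h
    by_contra hne
    apply h
    rw [pow_zero, Matrix.one_apply_ne]
    rintro rfl
    exact hne rfl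
  | succ m ih =>
    intro i k h
    rw [pow_succ, Matrix.mul_apply] at h
    obtain ⟨j, _, hj⟩ := Finset.exists_ne_zero_of_sum_ne_zero h
    exact (ih i j (left_ne_zero_of_mul hj)).trans (hx j k (right_ne_zero_of_mul hj))

private theorem R3_exp {n : ℕ} (χ : Fin n → Lam) (x : Matrix (Fin n) (Fin n) ℂ)
    (hx : ∀ i k, x i k ≠ 0 → χ i = χ k) (i k : Fin n) (h : IsNilpotent.exp x i k ≠ 0) : χ i = χ k := by
  rw [IsNilpotent.exp, Matrix.sum_apply] at h
  obtain ⟨j, _, hj⟩ := Finset.exists_ne_zero_of_sum_ne_zero h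
  refine R3_pow χ x hx j i k fun h0 => hj ?_
  rw [Matrix.smul_apply, h0, smul_zero]

private theorem R3_core {n : ℕ} (χ : Fin n → Lam) (f : Lam →* ℂˣ) (x t a : Matrix (Fin n) (Fin n) ℂ)
    (hx : ∀ i k, x i k ≠ 0 → χ i = χ k) (hn : IsNilpotent x)
    (ha : a = diagonal (fun i => (f (χ i) : ℂ)) * IsNilpotent.exp x)
    (hat : a * t * a = t) (htt : t * t = 1) :
    (∀ i k, t i k ≠ 0 → f (χ i) * f (χ k) = 1) ∧ t * x = -(x * t) := by
  classical
  obtain ⟨E, hE⟩ : ∃ E, E = IsNilpotent.exp x := ⟨_, rfl⟩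
  have hEl : ∀ i k, E i k ≠ 0 → χ i = χ k := fun i k h => R3_exp χ x hx i k (by rwa [hE] at h)
  obtain ⟨D, hD⟩ : ∃ D : Matrix (Fin n) (Fin n) ℂ, D = diagonal (fun i => (f (χ i) : ℂ)) := ⟨_, rfl⟩
  have hDE : D * E = E * D := by
    ext i k
    rw [hD, Matrix.diagonal_mul, Matrix.mul_diagonal]
    by_cases h : E i k = 0
    · rw [h, mul_zero, zero_mul]
    · rw [hEl i k h, mul_comm]
  rw [← hE, ← hD] at ha
  have hent : ∀ i k, t i k = (f (χ i) : ℂ) * (f (χ k) : ℂ) * (E * t * E) i k := by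
    intro i k
    have h1 : t = D * (E * t * E) * D := by
      conv_lhs => rw [← hat, ha]
      nth_rewrite 2 [hDE]
      simp only [mul_assoc]
    conv_lhs => rw [h1]
    rw [hD, Matrix.mul_diagonal, Matrix.diagonal_mul]
    ring
  have hht : ∀ i k, t i k ≠ 0 → f (χ i) * f (χ k) = 1 := by
    intro i k hik
    by_contra hne
    obtain ⟨μ, hμ⟩ : ∃ μ : ℂ, μ = (f (χ i) : ℂ) * (f (χ k) : ℂ) := ⟨_, rfl⟩
    have hμ1 : μ ≠ 1 := by
      intro h
      apply hne
      apply Units.ext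
      rw [Units.val_mul, ← hμ, h, Units.val_one]
    obtain ⟨M, hM⟩ : ∃ M : Matrix (Fin n) (Fin n) ℂ, M = fun j l =>
      if (f (χ j) : ℂ) * (f (χ l) : ℂ) = μ then t j l else 0 := ⟨_, rfl⟩
    have h0 : M = 0 := by
      obtain ⟨u, v, -, -, h3, h4⟩ := exp_sub_one x hn
      refine R3_key (E - 1) M ?_ μ hμ1 ?_
      · rw [hE, h3]
        exact (h4 x (Commute.refl x)).symm.isNilpotent_mul_right hn
      · rw [add_sub_cancel]
        ext j l
        rw [Matrix.smul_apply, smul_eq_mul]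
        by_cases hjl : (f (χ j) : ℂ) * (f (χ l) : ℂ) = μ
        · have h5 : (E * M * E) j l = (E * t * E) j l := by
            rw [Matrix.mul_apply, Matrix.mul_apply]
            refine Finset.sum_congr rfl fun p _ => ?_
            by_cases hp : E p l = 0
            · rw [hp, mul_zero, mul_zero]
            congr 1
            rw [Matrix.mul_apply, Matrix.mul_apply]
            refine Finset.sum_congr rfl fun q _ => ?_
            by_cases hq : E j q = 0
            · rw [hq, zero_mul, zero_mul]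
            rw [hM]
            simp only
            rw [if_pos]
            rw [← hEl j q hq, hEl p l hp, hjl]
          rw [h5, hM]
          simp only
          rw [if_pos hjl, hent j l, hjl]
        · have h5 : (E * M * E) j l = 0 := by
            rw [Matrix.mul_apply]
            refine Finset.sum_eq_zero fun p _ => ?_
            by_cases hp : E p l = 0
            · rw [hp, mul_zero]
            rw [Matrix.mul_apply, Finset.sum_eq_zero, zero_mul]
            intro q _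
            by_cases hq : E j q = 0
            · rw [hq, zero_mul]
            rw [hM]
            simp only
            rw [if_neg, mul_zero]
            rwa [← hEl j q hq, hEl p l hp]
          rw [h5, hM]
          simp only
          rw [if_neg hjl, mul_zero]
    apply hik
    have h1 := congrFun (congrFun h0 i) k
    rw [hM] at h1
    simp only at h1
    rwa [if_pos hμ.symm] at h1
  refine ⟨hht, ?_⟩
  have hEt : E * t * E = t := by
    ext i k
    by_cases h : t i k = 0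
    · have h1 := hent i k
      rw [h] at h1
      rcases mul_eq_zero.1 h1.symm with h2 | h2
      · exact absurd h2 (mul_ne_zero (Units.ne_zero _) (Units.ne_zero _))
      · rw [h2, h]
    · have h1 := hent i k
      have h2 := congrArg (fun z : ℂˣ => (z : ℂ)) (hht i k h)
      simp only [Units.val_mul, Units.val_one] at h2
      rw [h2, one_mul] at h1
      exact h1.symm
  have h1 : t * E * t = IsNilpotent.exp (-x) := by
    have h2 : (t * E * t) * E = 1 := by
      rw [mul_assoc, mul_assoc, ← mul_assoc E t E, hEt, htt]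
    have h3 : E * IsNilpotent.exp (-x) = 1 := by
      rw [hE]
      exact IsNilpotent.exp_mul_exp_neg_self hn
    calc t * E * t = (t * E * t) * (E * IsNilpotent.exp (-x)) := by rw [h3, mul_one]
      _ = IsNilpotent.exp (-x) := by rw [← mul_assoc, h2, one_mul]
  obtain ⟨h2, h3⟩ := exp_conj t t htt htt x hn
  rw [← hE, h1] at h3
  have h4 := exp_inj _ _ h2 hn.neg h3
  calc t * x = t * x * (t * t) := by rw [htt, mul_one]
    _ = (t * x * t) * t := by rw [← mul_assoc]
    _ = -(x * t) := by rw [h4, neg_mul]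

theorem nd_exists (n : ℕ) (T : Fin 4 → Matrix (Fin n) (Fin n) ℂ) (h : ∀ k, T k * T k = 1)
    (h1 : T 0 * T 1 * T 2 * T 3 = 1) :
    ∃ (E : ND n) (B B' : Matrix (Fin n) (Fin n) ℂ), B * B' = 1 ∧ B' * B = 1 ∧
      B' * T 0 * B = E.t ∧
      B' * (T 0 * T 1) * B = diagonal (fun i => ((E.χ i).1 : ℂ)) * IsNilpotent.exp E.x ∧
      B' * (T 0 * T 3) * B = diagonal (fun i => ((E.χ i).2 : ℂ)) * IsNilpotent.exp E.y := by
  have e0 := h 0
  have e1 := h 1
  have e2 := h 2
  have e3 := h 3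
  have hT2 : T 2 = T 1 * T 0 * T 3 := by
    calc T 2 = T 1 * (T 0 * T 0) * T 1 * T 2 * (T 3 * T 3) := by rw [e0, e3, mul_one, mul_one, e1, one_mul]
      _ = T 1 * T 0 * (T 0 * T 1 * T 2 * T 3) * T 3 := by simp only [mul_assoc]
      _ = T 1 * T 0 * T 3 := by rw [h1, mul_one]
  have hcomm : T 1 * T 0 * T 3 = T 3 * T 0 * T 1 := by
    have h2 : T 1 * T 0 * T 3 * (T 1 * T 0 * T 3) = 1 := by rw [← hT2, e2]
    calc T 1 * T 0 * T 3 = T 1 * T 0 * T 3 * (T 1 * (T 0 * (T 3 * T 3) * T 0) * T 1) := by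
          rw [e3, mul_one, e0, mul_one, e1, mul_one]
      _ = (T 1 * T 0 * T 3 * (T 1 * T 0 * T 3)) * (T 3 * T 0 * T 1) := by simp only [mul_assoc]
      _ = T 3 * T 0 * T 1 := by rw [h2, one_mul]
  have hAA : T 0 * T 1 * (T 1 * T 0) = 1 := by
    rw [mul_assoc, ← mul_assoc (T 1), e1, one_mul, e0]
  have hAA' : T 1 * T 0 * (T 0 * T 1) = 1 := by
    rw [mul_assoc, ← mul_assoc (T 0), e0, one_mul, e1]
  have hCC : T 0 * T 3 * (T 3 * T 0) = 1 := by
    rw [mul_assoc, ← mul_assoc (T 3), e3, one_mul, e0]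
  have hCC' : T 3 * T 0 * (T 0 * T 3) = 1 := by
    rw [mul_assoc, ← mul_assoc (T 0), e0, one_mul, e3]
  have hA : IsUnit (T 0 * T 1) := ⟨⟨T 0 * T 1, T 1 * T 0, hAA, hAA'⟩, rfl⟩
  have hC : IsUnit (T 0 * T 3) := ⟨⟨T 0 * T 3, T 3 * T 0, hCC, hCC'⟩, rfl⟩
  have hAC : Commute (T 0 * T 1) (T 0 * T 3) := by
    change T 0 * T 1 * (T 0 * T 3) = T 0 * T 3 * (T 0 * T 1)
    calc T 0 * T 1 * (T 0 * T 3) = T 0 * (T 1 * T 0 * T 3) := by simp only [mul_assoc]
      _ = T 0 * (T 3 * T 0 * T 1) := by rw [hcomm]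
      _ = T 0 * T 3 * (T 0 * T 1) := by simp only [mul_assoc]
  obtain ⟨χ, x, y, B, B', hB, hB', hx, hy, hxy, hxn, hyn, ha, hc⟩ := eig n _ _ hA hC hAC
  obtain ⟨t, ht⟩ : ∃ t, t = B' * T 0 * B := ⟨_, rfl⟩
  have htt : t * t = 1 := by
    calc t * t = B' * T 0 * (B * B') * T 0 * B := by rw [ht]; simp only [mul_assoc]
      _ = 1 := by rw [hB, mul_one, mul_assoc B', e0, mul_one, hB']
  have hat : B' * (T 0 * T 1) * B * t * (B' * (T 0 * T 1) * B) = t := by
    calc B' * (T 0 * T 1) * B * t * (B' * (T 0 * T 1) * B)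
        = B' * (T 0 * T 1) * (B * B') * T 0 * (B * B') * (T 0 * T 1) * B := by
          rw [ht]; simp only [mul_assoc]
      _ = B' * (T 0 * (T 1 * (T 0 * T 0) * T 1)) * B := by
          rw [hB, mul_one, mul_one]; simp only [mul_assoc]
      _ = t := by rw [e0, mul_one, e1, mul_one, ht]
  have hct : B' * (T 0 * T 3) * B * t * (B' * (T 0 * T 3) * B) = t := by
    calc B' * (T 0 * T 3) * B * t * (B' * (T 0 * T 3) * B)
        = B' * (T 0 * T 3) * (B * B') * T 0 * (B * B') * (T 0 * T 3) * B := by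
          rw [ht]; simp only [mul_assoc]
      _ = B' * (T 0 * (T 3 * (T 0 * T 0) * T 3)) * B := by
          rw [hB, mul_one, mul_one]; simp only [mul_assoc]
      _ = t := by rw [e0, mul_one, e3, mul_one, ht]
  obtain ⟨p1, p2⟩ := R3_core χ (MonoidHom.fst ℂˣ ℂˣ) x t _ hx hxn ha hat htt
  obtain ⟨q1, q2⟩ := R3_core χ (MonoidHom.snd ℂˣ ℂˣ) y t _ hy hyn hc hct htt
  refine ⟨⟨χ, x, y, t, hx, hy, fun i k hik => ?_, hxy, hxn, hyn, htt, p2, q2⟩, B, B', hB, hB', ht.symm, ha, hc⟩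
  exact Prod.ext (p1 i k hik) (q1 i k hik)

end Pool.Agent.INV5
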