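import Pool.Agent.INV5.R0
import Pool.Agent.INV5.R1
import Pool.Agent.INV5.WO1

/-!
# INV5, module R4: group elements on words

* `GW_conj`: the letters of `GW e (B' M B)` are `B' M B` and `((B' M B)⁻¹)ᵀ = Bᵀ (M⁻¹)ᵀ B'ᵀ`
  (`Matrix.mul_inv_rev`, `B⁻¹ = B'`), then `Kr_mul`.
* `GW_exp`: `x` commutes with the diagonal matrix (labels), so
  `(diagonal d * exp x)⁻¹ᵀ = diagonal d⁻¹ * exp (-xᵀ)` (`exp_mul_exp_neg_self`, `exp_transpose`). By
  `Kr_mul` and `Kr_exp` the product over the letters is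
  `Kr (diagonal d or diagonal d⁻¹) * exp (Tot ...)`, and `Kr` of diagonal matrices is diagonal.
* `GW_mul`, `GW_one`: `Kr_mul` (for invertible matrices nothing is needed: `Matrix.mul_inv_rev`).
-/

namespace Pool.Agent.INV5

open Matrix

variable {n : ℕ}

/-- the base change on words -/
noncomputable def KW (e : ℕ) (B B' : Matrix (Fin n) (Fin n) ℂ) :
    Matrix (Fin (e + 1) → Fin n) (Fin (e + 1) → Fin n) ℂ :=
  Kr fun m => if m = Fin.last e then B else B'ᵀ

theorem GW_mul (e : ℕ) (A C : Matrix (Fin n) (Fin n) ℂ) : GW e (A * C) = GW e A * GW e C := by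
  unfold GW
  rw [Kr_mul]
  congr 1
  funext m
  by_cases h : m = Fin.last e
  · simp [h]
  · simp [h, Matrix.mul_inv_rev, Matrix.transpose_mul]

theorem GW_one (e : ℕ) : GW e (1 : Matrix (Fin n) (Fin n) ℂ) = 1 := by
  unfold GW
  rw [← Kr_one]
  congr 1
  funext m
  by_cases h : m = Fin.last e
  · simp [h]
  · simp [h]

theorem KW_mul (e : ℕ) (B B' : Matrix (Fin n) (Fin n) ℂ) (h1 : B * B' = 1) (h2 : B' * B = 1) :
    KW e B B' * KW e B' B = 1 := by
  unfold KW
  rw [Kr_mul, ← Kr_one]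
  congr 1
  funext m
  by_cases h : m = Fin.last e
  · simp [h, h1]
  · simp only [h, if_false]
    rw [← Matrix.transpose_mul, h1, Matrix.transpose_one]

theorem KW_PW (e : ℕ) (B B' : Matrix (Fin n) (Fin n) ℂ) (σ : Equiv.Perm (Fin e)) :
    Commute (PW σ) (KW e B B') := by
  unfold KW
  refine PW_Kr σ _ fun i j => ?_
  simp [Fin.castSucc_ne_last]

theorem GW_conj (e : ℕ) (B B' M : Matrix (Fin n) (Fin n) ℂ) (h1 : B * B' = 1) (h2 : B' * B = 1) :
    GW e (B' * M * B) = KW e B' B * GW e M * KW e B B' := by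
  have i1 : B⁻¹ = B' := Matrix.inv_eq_right_inv h1
  have i2 : B'⁻¹ = B := Matrix.inv_eq_right_inv h2
  unfold GW KW
  rw [Kr_mul, Kr_mul]
  congr 1
  funext m
  by_cases h : m = Fin.last e
  · simp [h]
  · simp only [h, if_false]
    rw [Matrix.mul_inv_rev, Matrix.mul_inv_rev, i1, i2, Matrix.transpose_mul,
      Matrix.transpose_mul]

/-- the derivation on all words -/
noncomputable def XW (e : ℕ) (x : Matrix (Fin n) (Fin n) ℂ) :
    Matrix (Fin (e + 1) → Fin n) (Fin (e + 1) → Fin n) ℂ :=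
  Tot (I := fun _ => Fin n) fun m => if m = Fin.last e then x else -xᵀ

private theorem nil_tr {x : Matrix (Fin n) (Fin n) ℂ} (h : IsNilpotent x) : IsNilpotent (-xᵀ) := by
  obtain ⟨k, hk⟩ := h
  have h1 : IsNilpotent (xᵀ) := ⟨k, by rw [← Matrix.transpose_pow, hk, Matrix.transpose_zero]⟩
  exact h1.neg

theorem XW_nil (e : ℕ) (x : Matrix (Fin n) (Fin n) ℂ) (h : IsNilpotent x) :
    IsNilpotent (XW e x) := by
  unfold XW
  refine Tot_nil _ fun m => ?_
  by_cases hm : m = Fin.last e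
  · simpa [hm] using h
  · simpa [hm] using nil_tr h

private theorem Kr_diag (e : ℕ) (d : Fin (e + 1) → Fin n → ℂ) :
    Kr (I := fun _ => Fin n) (fun m => diagonal (d m)) =
      diagonal (fun p => ∏ m, d m (p m)) := by
  ext p q
  by_cases h : p = q
  · subst h
    simp [Kr]
  · obtain ⟨m, hm⟩ := Function.ne_iff.1 h
    rw [diagonal_apply_ne _ h]
    refine Finset.prod_eq_zero (Finset.mem_univ m) ?_
    exact diagonal_apply_ne _ hm

private theorem diag_comm_exp (E : ND n) (g : Lam → ℂ) (x : Matrix (Fin n) (Fin n) ℂ)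
    (hl : ∀ i k, x i k ≠ 0 → E.χ i = E.χ k) :
    Commute (diagonal (fun i => g (E.χ i))) x := by
  ext i k
  rw [diagonal_mul, mul_diagonal]
  by_cases h : x i k = 0
  · simp [h]
  · rw [hl i k h, mul_comm]

theorem GW_exp (E : ND n) (e : ℕ) (f : Lam →* ℂˣ) (x : Matrix (Fin n) (Fin n) ℂ)
    (hx : IsNilpotent x) (hl : ∀ i k, x i k ≠ 0 → E.χ i = E.χ k) :
    GW e (diagonal (fun i => ((f (E.χ i) : ℂˣ) : ℂ)) * IsNilpotent.exp x) =
      diagonal (fun p => ((f (∏ m, E.c e m (p m)) : ℂˣ) : ℂ)) * IsNilpotent.exp (XW e x) := by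
  have hd : ∀ m : Fin (e + 1), IsNilpotent
      (if m = Fin.last e then x else -xᵀ) := by
    intro m
    by_cases hm : m = Fin.last e
    · simpa [hm] using hx
    · simpa [hm] using nil_tr hx
  have hD : (diagonal (fun i => ((f (E.χ i) : ℂˣ) : ℂ)) : Matrix (Fin n) (Fin n) ℂ) *
      diagonal (fun i => ((f (E.χ i)⁻¹ : ℂˣ) : ℂ)) = 1 := by
    rw [diagonal_mul_diagonal]
    rw [← diagonal_one]
    congr 1
    funext i
    rw [← Units.val_mul, ← map_mul]
    simp
  have hinv : (diagonal (fun i => ((f (E.χ i) : ℂˣ) : ℂ)) * IsNilpotent.exp x)⁻¹ =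
      IsNilpotent.exp (-x) * diagonal (fun i => ((f (E.χ i)⁻¹ : ℂˣ) : ℂ)) := by
    apply Matrix.inv_eq_right_inv
    rw [show diagonal (fun i => ((f (E.χ i) : ℂˣ) : ℂ)) * IsNilpotent.exp x *
      (IsNilpotent.exp (-x) * diagonal (fun i => ((f (E.χ i)⁻¹ : ℂˣ) : ℂ))) =
      diagonal (fun i => ((f (E.χ i) : ℂˣ) : ℂ)) * (IsNilpotent.exp x *
      IsNilpotent.exp (-x)) * diagonal (fun i => ((f (E.χ i)⁻¹ : ℂˣ) : ℂ)) by
        simp only [Matrix.mul_assoc], IsNilpotent.exp_mul_exp_neg_self hx, Matrix.mul_one, hD]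
  have hlet : ∀ m : Fin (e + 1),
      (if m = Fin.last e then (diagonal (fun i => ((f (E.χ i) : ℂˣ) : ℂ)) * IsNilpotent.exp x)
        else ((diagonal (fun i => ((f (E.χ i) : ℂˣ) : ℂ)) * IsNilpotent.exp x)⁻¹)ᵀ) =
      diagonal (fun i => ((f (E.c e m i) : ℂˣ) : ℂ)) *
        IsNilpotent.exp (if m = Fin.last e then x else -xᵀ) := by
    intro m
    by_cases hm : m = Fin.last e
    · simp [hm, ND.c]
    · simp only [hm, if_false, ND.c]
      rw [hinv, Matrix.transpose_mul, diagonal_transpose, ← exp_transpose _ hx.neg,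
        Matrix.transpose_neg]
  unfold GW
  rw [show (fun m : Fin (e + 1) => if m = Fin.last e then
      (diagonal (fun i => ((f (E.χ i) : ℂˣ) : ℂ)) * IsNilpotent.exp x)
        else ((diagonal (fun i => ((f (E.χ i) : ℂˣ) : ℂ)) * IsNilpotent.exp x)⁻¹)ᵀ) =
      fun m => diagonal (fun i => ((f (E.c e m i) : ℂˣ) : ℂ)) *
        IsNilpotent.exp (if m = Fin.last e then x else -xᵀ) from funext hlet]
  rw [← Kr_mul, Kr_diag, Kr_exp (I := fun _ => Fin n) _ hd]
  congr 2
  funext p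
  rw [map_prod, Units.coe_prod]

end Pool.Agent.INV5
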