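import Pool.Agent.INV5.R0

/-!
# INV5, module R7: generic elements of a pencil are good (constant rank)

`x, y` commuting nilpotent endomorphisms of a finite-dimensional space, `l_c = x + c y`.
Step 1. For fixed `s` let `r` be the maximum over `c` of the rank of `l_c ^ (s+1)`. The set of the `c` with
smaller rank is finite: if the rank is `r` at `c1`, some `r × r` minor of the matrix of `l_c ^ (s+1)`, a
polynomial in `c`, is not zero at `c1`.
Step 2. If the rank of `l ^ (s+1)` (`l = l_c`) is the maximum `r` then `l ^ (s+1) v = 0` implies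
`l ^ s y v ∈ l ^ (s+1) W`: let `M(τ) = (l + τ y) ^ (s+1) = l ^ (s+1) + τ (s+1) l ^ s y + τ² ...`. Suppose
`l ^ s y v` is not in the range, and choose `w_1, ..., w_r` such that the `l ^ (s+1) w_i` are linearly
independent. Then the `r + 1` vectors `M(τ) w_i`, `τ⁻¹ M(τ) v` depend polynomially on `τ` and are linearly
independent at `τ = 0`, hence for all but finitely many `τ` (a minor of a polynomial matrix), in
particular for some `τ ≠ 0`: the rank of `M(τ)` is `≥ r + 1`, a contradiction.
Step 3. For `s ≥ dim W` one has `l ^ s = 0` and there is nothing to prove. So only finitely many `s` count.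
`good_generic_quot`: apply `good_generic` to the induced endomorphisms of the quotient by `N`.
-/

namespace Pool.Agent.INV5

variable {W : Type*} [AddCommGroup W] [Module ℂ W] [FiniteDimensional ℂ W]

omit [FiniteDimensional ℂ W] in
private theorem gen_poly (x y : Module.End ℂ W) (m : ℕ) : ∀ (w : W) (φ : W →ₗ[ℂ] ℂ),
    ∃ p : Polynomial ℂ, ∀ c : ℂ, φ (((x + c • y) ^ m) w) = p.eval c := by
  induction m with
  | zero =>
    intro w φ
    exact ⟨Polynomial.C (φ w), fun c => by simp⟩
  | succ m ih =>
    intro w φ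
    obtain ⟨p, hp⟩ := ih (x w) φ
    obtain ⟨q, hq⟩ := ih (y w) φ
    refine ⟨p + Polynomial.X * q, fun c => ?_⟩
    rw [pow_succ, Module.End.mul_apply, LinearMap.add_apply, LinearMap.smul_apply, map_add, map_add,
      map_smul, map_smul, hp, hq]
    simp

omit [FiniteDimensional ℂ W] in
private theorem gen_indep {ι : Type*} [Fintype ι] [DecidableEq ι] (f : ι → ℂ → W)
    (hf : ∀ i (φ : W →ₗ[ℂ] ℂ), ∃ p : Polynomial ℂ, ∀ c : ℂ, φ (f i c) = p.eval c) (c0 : ℂ)
    (h0 : LinearIndependent ℂ fun i => f i c0) :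
    {c : ℂ | ¬ LinearIndependent ℂ fun i => f i c}.Finite := by
  obtain ⟨φ, hφ⟩ := LinearMap.exists_leftInverse_of_injective
    (Fintype.linearCombination ℂ fun i => f i c0)
    (LinearMap.ker_eq_bot.2 (by
      rw [← linearIndependent_iff_injective_fintypeLinearCombination]; exact h0))
  have hφ' : ∀ i, φ (f i c0) = Pi.single i 1 := by
    intro i
    have := LinearMap.congr_fun hφ (Pi.single i 1)
    simpa [Fintype.linearCombination_apply_single] using this
  choose p hp using fun i j => hf i ((LinearMap.proj j).comp φ)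
  let P : Matrix ι ι (Polynomial ℂ) := Matrix.of p
  have hP : ∀ c, (P.det).eval c = Matrix.det (Matrix.of fun i j => φ (f i c) j) := by
    intro c
    rw [← Polynomial.coe_evalRingHom, RingHom.map_det]
    congr 1
    ext i j
    simp only [RingHom.mapMatrix_apply, Matrix.map_apply, Polynomial.coe_evalRingHom, P, Matrix.of_apply]
    rw [← hp]
    rfl
  have hne : P.det ≠ 0 := by
    intro h
    have h1 := hP c0
    rw [h] at h1
    have h2 : (Matrix.of fun i j => φ (f i c0) j) = (1 : Matrix ι ι ℂ) := by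
      ext i j
      rw [Matrix.of_apply, hφ', Matrix.one_apply, Pi.single_apply]
      simp only [eq_comm]
    rw [h2] at h1
    simp at h1
  refine (P.det.roots.toFinset.finite_toSet).subset ?_
  intro c hc
  rw [Set.mem_ofPred_eq] at hc
  rw [Finset.mem_coe, Multiset.mem_toFinset, Polynomial.mem_roots hne, Polynomial.IsRoot.def]
  by_contra hd
  apply hc
  rw [hP] at hd
  have := Matrix.linearIndependent_rows_of_det_ne_zero hd
  exact LinearIndependent.of_comp φ this

omit [FiniteDimensional ℂ W] in
private theorem gen_geom (l y : Module.End ℂ W) (hc : Commute l y) (s : ℕ) (τ : ℂ) (v : W)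
    (hv : (l ^ (s + 1)) v = 0) :
    ((l + τ • y) ^ (s + 1)) v =
      τ • ∑ i ∈ Finset.range (s + 1), ((l + τ • y) ^ i) ((l ^ (s - i)) (y v)) := by
  have hcc : Commute (l + τ • y) l := ((Commute.refl l).add_left (hc.symm.smul_left τ))
  have h := hcc.geom_sum₂_mul (s + 1)
  have h2 := LinearMap.congr_fun h v
  rw [LinearMap.sub_apply, hv, sub_zero] at h2
  rw [← h2, add_sub_cancel_left, Module.End.mul_apply, LinearMap.smul_apply, map_smul,
    LinearMap.sum_apply]
  congr 1

/-- the rank of the powers is maximal for all but finitely many `c` -/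
private theorem gen_rank (x y : Module.End ℂ W) (m : ℕ) : ∃ R : ℕ,
    (∀ c : ℂ, Module.finrank ℂ (LinearMap.range ((x + c • y) ^ m)) ≤ R) ∧
    {c : ℂ | Module.finrank ℂ (LinearMap.range ((x + c • y) ^ m)) ≠ R}.Finite := by
  classical
  let r : ℂ → ℕ := fun c => Module.finrank ℂ (LinearMap.range ((x + c • y) ^ m))
  have hb : ∀ c, r c ≤ Module.finrank ℂ W := fun c => Submodule.finrank_le _
  obtain ⟨c1, h1⟩ : ∃ c1, ∀ c, r c ≤ r c1 := by
    have hne : (Set.range r).Nonempty := ⟨_, 0, rfl⟩
    have hbd : BddAbove (Set.range r) := ⟨Module.finrank ℂ W, by rintro _ ⟨c, rfl⟩; exact hb c⟩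
    obtain ⟨c1, hc1⟩ := Nat.sSup_mem hne hbd
    exact ⟨c1, fun c => by rw [hc1]; exact le_csSup hbd ⟨c, rfl⟩⟩
  refine ⟨r c1, h1, ?_⟩
  let b := Module.finBasis ℂ (LinearMap.range ((x + c1 • y) ^ m))
  have hw : ∀ i, ∃ w, ((x + c1 • y) ^ m) w = (b i : W) := fun i => (b i).2
  choose w hw using hw
  have hi : LinearIndependent ℂ fun i => ((x + c1 • y) ^ m) (w i) := by
    simp only [hw]
    exact b.linearIndependent.map' (Submodule.subtype _) (Submodule.ker_subtype _)
  have hfin := gen_indep (fun i c => ((x + c • y) ^ m) (w i))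
    (fun i φ => gen_poly x y m (w i) φ) c1 hi
  refine hfin.subset ?_
  intro c hc hli
  apply hc
  apply le_antisymm (h1 c)
  have hli' : LinearIndependent ℂ fun i => (⟨((x + c • y) ^ m) (w i), ⟨w i, rfl⟩⟩ :
      LinearMap.range ((x + c • y) ^ m)) :=
    LinearIndependent.of_comp (Submodule.subtype _) hli
  have := hli'.fintype_card_le_finrank
  simpa using this

/-- maximal rank implies goodness in one degree -/
private theorem gen_good (l y : Module.End ℂ W) (hc : Commute l y) (s : ℕ)
    (hR : ∀ τ : ℂ, Module.finrank ℂ (LinearMap.range ((l + τ • y) ^ (s + 1))) ≤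
      Module.finrank ℂ (LinearMap.range (l ^ (s + 1))))
    (v : W) (hv : (l ^ (s + 1)) v = 0) : ∃ w, (l ^ s) (y v) = (l ^ (s + 1)) w := by
  classical
  by_contra hno
  let b := Module.finBasis ℂ (LinearMap.range (l ^ (s + 1)))
  have hw : ∀ i, ∃ w, (l ^ (s + 1)) w = (b i : W) := fun i => (b i).2
  choose w hw using hw
  let G : ℂ → W := fun τ =>
    ∑ i ∈ Finset.range (s + 1), ((l + τ • y) ^ i) ((l ^ (s - i)) (y v))
  let f : Option (Fin (Module.finrank ℂ (LinearMap.range (l ^ (s + 1))))) → ℂ → W := fun i τ =>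
    i.elim (G τ) (fun i => ((l + τ • y) ^ (s + 1)) (w i))
  have hG0 : G 0 = ((s + 1 : ℕ) : ℂ) • (l ^ s) (y v) := by
    simp only [G, zero_smul, add_zero]
    rw [Finset.sum_congr rfl (g := fun _ => (l ^ s) (y v))]
    · rw [Finset.sum_const, Finset.card_range, Nat.cast_smul_eq_nsmul]
    · intro i hi
      rw [Finset.mem_range] at hi
      rw [← Module.End.mul_apply, ← pow_add]
      congr 2
      omega
  have hf : ∀ i (φ : W →ₗ[ℂ] ℂ), ∃ p : Polynomial ℂ, ∀ c : ℂ, φ (f i c) = p.eval c := by
    intro i φ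
    cases i with
    | some i => exact gen_poly l y (s + 1) (w i) φ
    | none =>
      choose p hp using fun i => gen_poly l y i ((l ^ (s - i)) (y v)) φ
      refine ⟨∑ i ∈ Finset.range (s + 1), p i, fun c => ?_⟩
      simp only [f, Option.elim, G, map_sum, hp, Polynomial.eval_finsetSum]
  have h0 : LinearIndependent ℂ fun i => f i 0 := by
    rw [linearIndependent_option]
    constructor
    · simp only [Function.comp_def, f, Option.elim, zero_smul, add_zero, hw]
      exact b.linearIndependent.map' (Submodule.subtype _) (Submodule.ker_subtype _)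
    · simp only [Function.comp_def, f, Option.elim, zero_smul, add_zero, hw, hG0]
      intro hmem
      have hle : Submodule.span ℂ (Set.range fun i => (b i : W)) ≤ LinearMap.range (l ^ (s + 1)) := by
        rw [Submodule.span_le]
        rintro _ ⟨i, rfl⟩
        exact (b i).2
      have h2 := hle hmem
      rw [Submodule.smul_mem_iff _ (by exact_mod_cast Nat.succ_ne_zero s)] at h2
      obtain ⟨w, hw⟩ := h2
      exact hno ⟨w, hw.symm⟩
  have hfin := gen_indep f hf 0 h0
  obtain ⟨τ, hτ⟩ := (hfin.union (Set.finite_singleton (0 : ℂ))).exists_notMem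
  rw [Set.mem_union, not_or, Set.mem_singleton_iff] at hτ
  obtain ⟨h1, h2⟩ := hτ
  have h3 : LinearIndependent ℂ fun i => f i τ := by
    by_contra h
    exact h1 h
  have hmem : ∀ i, f i τ ∈ LinearMap.range ((l + τ • y) ^ (s + 1)) := by
    intro i
    cases i with
    | some i => exact ⟨w i, rfl⟩
    | none =>
      have h4 := gen_geom l y hc s τ v hv
      have h5 : τ • f none τ ∈ LinearMap.range ((l + τ • y) ^ (s + 1)) := ⟨v, h4⟩
      rwa [Submodule.smul_mem_iff _ h2] at h5
  have hli' : LinearIndependent ℂ fun i => (⟨f i τ, hmem i⟩ :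
      LinearMap.range ((l + τ • y) ^ (s + 1))) :=
    LinearIndependent.of_comp (Submodule.subtype _) h3
  have h6 := hli'.fintype_card_le_finrank
  rw [Fintype.card_option, Fintype.card_fin] at h6
  have h7 := hR τ
  omega

theorem good_generic (x y : Module.End ℂ W) (hc : Commute x y) (hx : IsNilpotent x)
    (hy : IsNilpotent y) : {c : ℂ | ¬ Good (x + c • y) y ⊥}.Finite := by
  obtain ⟨a, ha⟩ := hx
  obtain ⟨b, hb⟩ := hy
  choose R hR1 hR2 using fun m => gen_rank x y m
  have hfin : (⋃ s ∈ Finset.range (a + b),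
      {c : ℂ | Module.finrank ℂ (LinearMap.range ((x + c • y) ^ (s + 1))) ≠ R (s + 1)}).Finite :=
    Set.Finite.biUnion (Finset.finite_toSet _) fun s _ => hR2 (s + 1)
  refine hfin.subset ?_
  intro c hcc
  by_contra hno
  apply hcc
  intro s v hv
  rw [Submodule.mem_bot] at hv
  have hcom : Commute (x + c • y) y := hc.add_left ((Commute.refl y).smul_left c)
  by_cases hs : s < a + b
  · have hr : Module.finrank ℂ (LinearMap.range ((x + c • y) ^ (s + 1))) = R (s + 1) := by
      by_contra h
      apply hno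
      simp only [Set.mem_iUnion]
      exact ⟨s, Finset.mem_range.2 hs, h⟩
    obtain ⟨w, hw⟩ := gen_good (x + c • y) y hcom s (fun τ => by
      rw [hr, add_assoc, ← add_smul]; exact hR1 _ _) v hv
    exact ⟨w, by rw [hw, sub_self]; exact Submodule.zero_mem _⟩
  · have h0 : (x + c • y) ^ s = 0 := by
      have h1 : (c • y) ^ b = 0 := by rw [smul_pow, hb, smul_zero]
      have h2 : (x + c • y) ^ (a + b) = 0 :=
        (hc.smul_right c).add_pow_eq_zero_of_add_le_succ_of_pow_eq_zero ha h1 (by omega)
      exact pow_eq_zero_of_le (by omega) h2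
    refine ⟨0, ?_⟩
    rw [h0]
    simp

theorem good_generic_quot (x y : Module.End ℂ W) (hc : Commute x y) (hx : IsNilpotent x)
    (hy : IsNilpotent y) (N : Submodule ℂ W) (h1 : N ≤ N.comap x) (h2 : N ≤ N.comap y) :
    {c : ℂ | ¬ Good (x + c • y) y N}.Finite := by
  have hmul : ∀ (f g : Module.End ℂ W) (hf : N ≤ N.comap f) (hg : N ≤ N.comap g)
      (hfg : N ≤ N.comap (f * g)), N.mapQ N (f * g) hfg = N.mapQ N f hf * N.mapQ N g hg := by
    intro f g hf hg hfg
    ext v
    rfl
  have hpow : ∀ (f : Module.End ℂ W) (hf : N ≤ N.comap f) (k : ℕ) (v : W),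
      ((N.mapQ N f hf) ^ k) (N.mkQ v) = N.mkQ ((f ^ k) v) := by
    intro f hf k
    induction k with
    | zero => intro v; rfl
    | succ k ih =>
      intro v
      rw [pow_succ, pow_succ, Module.End.mul_apply, Module.End.mul_apply, ← ih]
      rfl
  have hnil : ∀ (f : Module.End ℂ W) (hf : N ≤ N.comap f), IsNilpotent f →
      IsNilpotent (N.mapQ N f hf) := by
    rintro f hf ⟨k, hk⟩
    refine ⟨k, ?_⟩
    ext v
    have := hpow f hf k v
    rw [hk] at this
    simpa using this
  have hcomm : Commute (N.mapQ N x h1) (N.mapQ N y h2) := by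
    ext v
    have := LinearMap.congr_fun hc.eq v
    exact congrArg N.mkQ this
  refine (good_generic (N.mapQ N x h1) (N.mapQ N y h2) hcomm (hnil x h1 hx) (hnil y h2 hy)).subset ?_
  intro c hcc hg
  apply hcc
  have h3 : N ≤ N.comap (x + c • y) := fun v hv =>
    N.add_mem (h1 hv) (N.smul_mem c (h2 hv))
  have h4 : N.mapQ N x h1 + c • N.mapQ N y h2 = N.mapQ N (x + c • y) h3 := by
    ext v
    rfl
  rw [h4] at hg
  intro s v hv
  obtain ⟨w, hw⟩ := hg s (N.mkQ v) (by
    rw [hpow, Submodule.mem_bot]
    exact (Submodule.Quotient.mk_eq_zero N).2 hv)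
  obtain ⟨w, rfl⟩ := N.mkQ_surjective w
  refine ⟨w, ?_⟩
  have h5 : N.mapQ N y h2 (N.mkQ v) = N.mkQ (y v) := rfl
  rw [h5, hpow, hpow, ← map_sub, Submodule.mem_bot] at hw
  exact (Submodule.Quotient.mk_eq_zero N).1 hw

end Pool.Agent.INV5
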