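import Pool.Agent.INV5.R7
import Pool.Agent.INV5.WO2

/-!
# INV5, module R8: a generic pencil element for an `ND`

Three finite sets of exceptional `c` (`good_generic`, `good_generic_quot`): for the words of degree seven with
`L 7 x`, `L 7 y` (commuting: `Tot_comm`, `res_mul`, `Pres_Tot`; nilpotent: `Tot_nil`; `L 7 (x + c y) =
L 7 x + c L 7 y`), for `ℂⁿ`, and for `ℂⁿ` modulo `N = ker x ∩ ker y = ker (x + c y) ∩ ker y`. Take `c`
outside (ℂ is infinite).
-/

namespace Pool.Agent.INV5

open Matrix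

private theorem r8_L_add {n : ℕ} (E : ND n) (e : ℕ) (x y : Matrix (Fin n) (Fin n) ℂ) (c : ℂ) :
    E.L e (x + c • y) = E.L e x + c • E.L e y := by
  have h : (fun m : Fin (e + 1) => if m = Fin.last e then x + c • y else -(x + c • y)ᵀ) =
      fun m : Fin (e + 1) => (if m = Fin.last e then x else -xᵀ) +
        c • (if m = Fin.last e then y else -yᵀ) := by
    funext m
    split_ifs
    · rfl
    · rw [Matrix.transpose_add, Matrix.transpose_smul, neg_add, smul_neg]
  unfold ND.L
  rw [h]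
  have h2 := Tot_add (I := fun _ : Fin (e + 1) => Fin n)
    (fun m => if m = Fin.last e then x else -xᵀ) (fun m => c • (if m = Fin.last e then y else -yᵀ))
  have h3 := Tot_smul (I := fun _ : Fin (e + 1) => Fin n) c
    (fun m => if m = Fin.last e then y else -yᵀ)
  rw [h3] at h2
  rw [h2]
  rfl

private theorem r8_Pres {n : ℕ} (E : ND n) (e : ℕ) (z : Matrix (Fin n) (Fin n) ℂ)
    (hz : ∀ i k, z i k ≠ 0 → E.χ i = E.χ k) :
    Pres (I := fun _ => Fin n) (E.c e) (Tot fun m => if m = Fin.last e then z else -zᵀ) := by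
  apply Pres_Tot
  intro m i k h
  unfold ND.c
  split_ifs at h ⊢
  · exact hz i k h
  · rw [Matrix.neg_apply, Matrix.transpose_apply, neg_ne_zero] at h
    rw [hz k i h]

private theorem r8_comm {n : ℕ} (E : ND n) (e : ℕ) : Commute (E.L e E.x) (E.L e E.y) := by
  have h1 := res_mul (I := fun _ => Fin n) (E.c e) _
    (Tot fun m => if m = Fin.last e then E.y else -E.yᵀ) (r8_Pres E e E.x E.hx)
  have h2 := res_mul (I := fun _ => Fin n) (E.c e) _
    (Tot fun m => if m = Fin.last e then E.x else -E.xᵀ) (r8_Pres E e E.y E.hy)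
  have h3 : Commute (Tot (I := fun _ : Fin (e + 1) => Fin n)
      fun m => if m = Fin.last e then E.x else -E.xᵀ)
      (Tot fun m => if m = Fin.last e then E.y else -E.yᵀ) := by
    apply Tot_comm
    intro m
    split_ifs
    · exact E.comm
    · exact (Commute.neg_left (Commute.neg_right (by
        have := congrArg Matrix.transpose E.comm.eq
        rw [Matrix.transpose_mul, Matrix.transpose_mul] at this
        exact this.symm)))
  unfold Commute SemiconjBy ND.L
  rw [← h1, ← h2, h3.eq]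

private theorem r8_pow {n : ℕ} (E : ND n) (e : ℕ)
    (Z : Matrix (Fin (e + 1) → Fin n) (Fin (e + 1) → Fin n) ℂ)
    (h : Pres (I := fun _ => Fin n) (E.c e) Z) (k : ℕ) :
    (res (I := fun _ => Fin n) (E.c e) Z) ^ k = res (I := fun _ => Fin n) (E.c e) (Z ^ k) := by
  induction k with
  | zero => exact (res_one (I := fun _ => Fin n) (E.c e)).symm
  | succ k ih =>
    rw [pow_succ, ih, pow_succ]
    exact (res_mul' (I := fun _ => Fin n) (E.c e) _ _ h).symm

private theorem r8_nil {n : ℕ} (E : ND n) (e : ℕ) (z : Matrix (Fin n) (Fin n) ℂ)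
    (hz : ∀ i k, z i k ≠ 0 → E.χ i = E.χ k) (hn : IsNilpotent z) : IsNilpotent (E.L e z) := by
  have h : IsNilpotent (Tot (I := fun _ : Fin (e + 1) => Fin n)
      fun m => if m = Fin.last e then z else -zᵀ) := by
    apply Tot_nil
    intro m
    split_ifs
    · exact hn
    · obtain ⟨k, hk⟩ := hn
      exact IsNilpotent.neg ⟨k, by rw [← Matrix.transpose_pow, hk, Matrix.transpose_zero]⟩
  obtain ⟨k, hk⟩ := h
  refine ⟨k, ?_⟩
  unfold ND.L
  rw [r8_pow E e _ (r8_Pres E e z hz)]
  rw [hk]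
  rfl

private theorem r8_lin {J : Type} [Fintype J] [DecidableEq J] (x y : Matrix J J ℂ) (c : ℂ) :
    (x + c • y).mulVecLin = x.mulVecLin + c • y.mulVecLin :=
  (map_add (Matrix.toLinAlgEquiv' (R := ℂ) (n := J)) x (c • y)).trans
    (congrArg _ (map_smul (Matrix.toLinAlgEquiv' (R := ℂ) (n := J)) c y))

theorem nd_gen (n : ℕ) (E : ND n) : ∃ c : ℂ,
    Good (E.L 7 (E.x + c • E.y)).mulVecLin (E.L 7 E.y).mulVecLin ⊥ ∧
    Good (E.x + c • E.y).mulVecLin E.y.mulVecLin ⊥ ∧
    Good (E.x + c • E.y).mulVecLin E.y.mulVecLin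
      (LinearMap.ker (E.x + c • E.y).mulVecLin ⊓ LinearMap.ker E.y.mulVecLin) := by
  have f1 := good_generic (E.L 7 E.x).mulVecLin (E.L 7 E.y).mulVecLin
    ((r8_comm E 7).map (Matrix.toLinAlgEquiv' (R := ℂ) (n := E.J 7)))
    ((r8_nil E 7 E.x E.hx E.xnil).map (Matrix.toLinAlgEquiv' (R := ℂ) (n := E.J 7)))
    ((r8_nil E 7 E.y E.hy E.ynil).map (Matrix.toLinAlgEquiv' (R := ℂ) (n := E.J 7)))
  have hc : Commute E.x.mulVecLin E.y.mulVecLin :=
    E.comm.map (Matrix.toLinAlgEquiv' (R := ℂ) (n := Fin n))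
  have hx : IsNilpotent E.x.mulVecLin := E.xnil.map (Matrix.toLinAlgEquiv' (R := ℂ) (n := Fin n))
  have hy : IsNilpotent E.y.mulVecLin := E.ynil.map (Matrix.toLinAlgEquiv' (R := ℂ) (n := Fin n))
  have f2 := good_generic E.x.mulVecLin E.y.mulVecLin hc hx hy
  have f3 := good_generic_quot E.x.mulVecLin E.y.mulVecLin hc hx hy
    (LinearMap.ker E.x.mulVecLin ⊓ LinearMap.ker E.y.mulVecLin)
    (by
      rintro v ⟨h1, h2⟩
      have h1' : E.x.mulVecLin v = 0 := h1
      refine ⟨?_, ?_⟩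
      · change E.x.mulVecLin (E.x.mulVecLin v) = 0
        rw [h1', map_zero]
      · change E.y.mulVecLin (E.x.mulVecLin v) = 0
        rw [h1', map_zero])
    (by
      rintro v ⟨h1, h2⟩
      have h2' : E.y.mulVecLin v = 0 := h2
      refine ⟨?_, ?_⟩
      · change E.x.mulVecLin (E.y.mulVecLin v) = 0
        rw [h2', map_zero]
      · change E.y.mulVecLin (E.y.mulVecLin v) = 0
        rw [h2', map_zero])
  obtain ⟨c, hc⟩ := ((f1.union f2).union f3).exists_notMem
  rw [Set.mem_union, Set.mem_union, not_or, not_or] at hc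
  obtain ⟨⟨h1, h2⟩, h3⟩ := hc
  refine ⟨c, ?_, ?_, ?_⟩
  · rw [r8_L_add, r8_lin]
    by_contra h
    exact h1 h
  · rw [r8_lin]
    by_contra h
    exact h2 h
  · have hk : (LinearMap.ker (E.x + c • E.y).mulVecLin ⊓ LinearMap.ker E.y.mulVecLin) =
        (LinearMap.ker E.x.mulVecLin ⊓ LinearMap.ker E.y.mulVecLin) := by
      rw [r8_lin]
      ext v
      simp only [Submodule.mem_inf, LinearMap.mem_ker, LinearMap.add_apply, LinearMap.smul_apply]
      constructor
      · rintro ⟨h4, h5⟩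
        rw [h5, smul_zero, add_zero] at h4
        exact ⟨h4, h5⟩
      · rintro ⟨h4, h5⟩
        rw [h5, smul_zero, add_zero]
        exact ⟨h4, rfl⟩
    rw [hk, r8_lin]
    by_contra h
    exact h3 h

end Pool.Agent.INV5
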