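import Pool.Agent.INV5.WO3

/-!
# INV5, module SY: the multiset of (size, character) of the blocks is symmetric

`count_symm`: for a character `μ` let `V_μ` be the coordinate subspace of the `(a, p)` with `χ a = μ`.
`t` maps `V_μ` onto `V_(μ⁻¹)` (it inverts the labels and is an involution) and anticommutes with `Sh`, so
`dim (V_μ ∩ ker Sh ^ s) = dim (V_(μ⁻¹) ∩ ker Sh ^ s)`. The left side is `∑_{χ a = μ} min (b a) s`
(the kernel of `Sh ^ s` is spanned by the `e (a, p)` with `b a ≤ p + s`). The number of `a` with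
`χ a = μ` and `b a = s + 1` is `2 F (s + 1) - F s - F (s + 2)` where `F s` is this dimension.
`sy_size`: sum `w (b a)` over the sizes. `sy_real`: if `χ a = μ` then `μ ^ 2 = 1` iff `(μ⁻¹) ^ 2 = 1`.
-/

namespace Pool.Agent.INV5.JD

variable (D : JD)

open Matrix

private theorem Sh_pow_apply {β : Type} [Fintype β] [DecidableEq β] (b : β → ℕ) (k : ℕ)
    (i j : Idx b) :
    (Sh b ^ k) i j = if i.1 = j.1 ∧ (i.2 : ℕ) = (j.2 : ℕ) + k then 1 else 0 := by
  induction k generalizing i j with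
  | zero =>
    rw [pow_zero, Matrix.one_apply]
    obtain ⟨a, p⟩ := i
    obtain ⟨a', p'⟩ := j
    by_cases h : a = a'
    · subst h
      by_cases hp : p = p'
      · subst hp
        simp
      · have h1 : ¬ ((⟨a, p⟩ : Idx b) = ⟨a, p'⟩) := by
          intro h
          simp only [Sigma.mk.injEq, heq_eq_eq, true_and] at h
          exact hp h
        rw [if_neg h1, if_neg]
        rintro ⟨-, h2⟩
        exact hp (Fin.ext h2)
    · have h1 : ¬ ((⟨a, p⟩ : Idx b) = ⟨a', p'⟩) := fun h' => h (congrArg Sigma.fst h')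
      rw [if_neg h1, if_neg fun h' => h h'.1]
  | succ k ih =>
    rw [pow_succ', Matrix.mul_apply]
    simp only [ih, mul_ite, mul_one, mul_zero, ← Finset.sum_filter]
    by_cases h : i.1 = j.1 ∧ (i.2 : ℕ) = (j.2 : ℕ) + (k + 1)
    · rw [if_pos h]
      obtain ⟨a, p⟩ := i
      obtain ⟨a', p'⟩ := j
      obtain ⟨h1, h2⟩ := h
      change a = a' at h1
      subst h1
      change (p : ℕ) = (p' : ℕ) + (k + 1) at h2
      have h3 := p.2
      rw [Finset.sum_eq_single (⟨a, ⟨(p' : ℕ) + k, by omega⟩⟩ : Idx b)]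
      · simp only [Sh, true_and]
        exact if_pos h2
      · rintro ⟨c, r⟩ hc hne
        rw [Finset.mem_filter] at hc
        exfalso
        apply hne
        obtain ⟨-, h4, h5⟩ := hc
        change c = a at h4
        subst h4
        congr 1
        exact Fin.ext h5
      · intro hc
        exfalso
        apply hc
        rw [Finset.mem_filter]
        exact ⟨Finset.mem_univ _, rfl, rfl⟩
    · rw [if_neg h]
      refine Finset.sum_eq_zero fun r hr => ?_
      rw [Finset.mem_filter] at hr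
      obtain ⟨-, h1, h2⟩ := hr
      simp only [Sh]
      rw [if_neg]
      rintro ⟨h3, h4⟩
      exact h ⟨h3.trans h1, by omega⟩

/-- the vectors supported on the label `μ` and killed by `Sh ^ s` -/
private def W (μ : Lam) (s : ℕ) : Submodule ℂ (Idx D.b → ℂ) where
  carrier := {v | (∀ i, D.χ i.1 ≠ μ → v i = 0) ∧ (Sh D.b ^ s).mulVec v = 0}
  add_mem' := by
    rintro v w ⟨h1, h2⟩ ⟨h3, h4⟩
    refine ⟨fun i hi => ?_, ?_⟩
    · rw [Pi.add_apply, h1 i hi, h3 i hi, add_zero]
    · rw [Matrix.mulVec_add, h2, h4, add_zero]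
  zero_mem' := ⟨fun _ _ => rfl, Matrix.mulVec_zero _⟩
  smul_mem' := by
    rintro a v ⟨h1, h2⟩
    refine ⟨fun i hi => ?_, ?_⟩
    · rw [Pi.smul_apply, h1 i hi, smul_zero]
    · rw [Matrix.mulVec_smul, h2, smul_zero]

private theorem mem_W (μ : Lam) (s : ℕ) (v : Idx D.b → ℂ) : v ∈ D.W μ s ↔
    ∀ i : Idx D.b, ¬ (D.χ i.1 = μ ∧ D.b i.1 ≤ (i.2 : ℕ) + s) → v i = 0 := by
  constructor
  · rintro ⟨h1, h2⟩ ⟨a, p⟩ hi
    by_cases h3 : D.χ a = μ
    · have h4 : (p : ℕ) + s < D.b a := by
        by_contra h5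
        exact hi ⟨h3, not_lt.mp h5⟩
      have h5 := congrFun h2 ⟨a, ⟨(p : ℕ) + s, h4⟩⟩
      rw [Matrix.mulVec, dotProduct] at h5
      simp only [Sh_pow_apply, ite_mul, one_mul, zero_mul, ← Finset.sum_filter] at h5
      rw [Finset.sum_eq_single (⟨a, p⟩ : Idx D.b)] at h5
      · exact h5
      · rintro ⟨c, r⟩ hc hne
        rw [Finset.mem_filter] at hc
        exfalso
        apply hne
        obtain ⟨-, h6, h7⟩ := hc
        change a = c at h6
        subst h6
        congr 1
        apply Fin.ext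
        change (p : ℕ) + s = (r : ℕ) + s at h7
        omega
      · intro hc
        exfalso
        apply hc
        rw [Finset.mem_filter]
        exact ⟨Finset.mem_univ _, rfl, rfl⟩
    · exact h1 ⟨a, p⟩ h3
  · intro h
    refine ⟨fun i hi => h i fun h' => hi h'.1, ?_⟩
    funext i
    rw [Matrix.mulVec, dotProduct, Pi.zero_apply]
    refine Finset.sum_eq_zero fun k _ => ?_
    rw [Sh_pow_apply]
    split_ifs with h1
    · rw [one_mul]
      refine h k ?_
      rintro ⟨-, h2⟩
      obtain ⟨h3, h4⟩ := h1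
      obtain ⟨a, p⟩ := i
      obtain ⟨c, r⟩ := k
      change a = c at h3
      subst h3
      have := p.2
      change (p : ℕ) = (r : ℕ) + s at h4
      change D.b a ≤ (r : ℕ) + s at h2
      omega
    · rw [zero_mul]

private theorem finrank_W (μ : Lam) (s : ℕ) : Module.finrank ℂ (D.W μ s) =
    Fintype.card {i : Idx D.b // D.χ i.1 = μ ∧ D.b i.1 ≤ (i.2 : ℕ) + s} := by
  classical
  let e : D.W μ s ≃ₗ[ℂ] ({i : Idx D.b // D.χ i.1 = μ ∧ D.b i.1 ≤ (i.2 : ℕ) + s} → ℂ) :=
    { toFun := fun v i => v.1 i.1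
      map_add' := fun _ _ => rfl
      map_smul' := fun _ _ => rfl
      invFun := fun w => ⟨fun i => if h : D.χ i.1 = μ ∧ D.b i.1 ≤ (i.2 : ℕ) + s then w ⟨i, h⟩ else 0,
        (D.mem_W μ s _).mpr fun i hi => dif_neg hi⟩
      left_inv := fun v => by
        apply Subtype.ext
        funext i
        change (if h : D.χ i.1 = μ ∧ D.b i.1 ≤ (i.2 : ℕ) + s then v.1 i else 0) = v.1 i
        split_ifs with h
        · rfl
        · exact ((D.mem_W μ s _).mp v.2 i h).symm
      right_inv := fun w => by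
        funext i
        exact dif_pos i.2 }
  rw [e.finrank_eq, Module.finrank_fintype_fun_eq_card]

private theorem t_Sh_pow (s : ℕ) : Sh D.b ^ s * D.t = (-1 : ℂ) ^ s • (D.t * Sh D.b ^ s) := by
  induction s with
  | zero => simp
  | succ s ih =>
    have h1 : Sh D.b * D.t = -(D.t * Sh D.b) := by rw [D.tS, neg_neg]
    rw [pow_succ', mul_assoc, ih, Matrix.mul_smul, ← mul_assoc, h1, pow_succ (-1 : ℂ),
      mul_neg_one, neg_smul, neg_mul, smul_neg, mul_assoc, ← pow_succ']

private theorem t_mem (μ : Lam) (s : ℕ) (v : Idx D.b → ℂ) (hv : v ∈ D.W μ s) :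
    D.t.mulVec v ∈ D.W μ⁻¹ s := by
  obtain ⟨h1, h2⟩ := hv
  refine ⟨fun i hi => ?_, ?_⟩
  · rw [Matrix.mulVec, dotProduct]
    refine Finset.sum_eq_zero fun k _ => ?_
    by_contra h3
    have h4 := left_ne_zero_of_mul h3
    have h5 := right_ne_zero_of_mul h3
    have h6 : D.χ k.1 = μ := by
      by_contra h7
      exact h5 (h1 k h7)
    have h8 := D.ht i k h4
    rw [h6] at h8
    exact hi (eq_inv_of_mul_eq_one_left h8)
  · rw [Matrix.mulVec_mulVec, t_Sh_pow, Matrix.smul_mulVec, ← Matrix.mulVec_mulVec, h2,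
      Matrix.mulVec_zero, smul_zero]

private theorem finrank_le (μ : Lam) (s : ℕ) :
    Module.finrank ℂ (D.W μ s) ≤ Module.finrank ℂ (D.W μ⁻¹ s) := by
  let f : D.W μ s →ₗ[ℂ] D.W μ⁻¹ s := D.t.mulVecLin.restrict fun v hv => D.t_mem μ s v hv
  refine LinearMap.finrank_le_finrank_of_injective (f := f) ?_
  intro v w h
  have h1 : D.t.mulVec v.1 = D.t.mulVec w.1 := congrArg Subtype.val h
  apply Subtype.ext
  have h2 := congrArg D.t.mulVec h1
  rw [Matrix.mulVec_mulVec, Matrix.mulVec_mulVec, D.tt, Matrix.one_mulVec, Matrix.one_mulVec] at h2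
  exact h2

private theorem card_W (μ : Lam) (s : ℕ) :
    Fintype.card {i : Idx D.b // D.χ i.1 = μ ∧ D.b i.1 ≤ (i.2 : ℕ) + s} =
      Fintype.card {i : Idx D.b // D.χ i.1 = μ⁻¹ ∧ D.b i.1 ≤ (i.2 : ℕ) + s} := by
  rw [← finrank_W, ← finrank_W]
  refine le_antisymm (D.finrank_le μ s) ?_
  have h := D.finrank_le μ⁻¹ s
  rwa [inv_inv] at h

/-- the number of blocks of label `μ` of size more than `s` -/
private theorem card_succ (μ : Lam) (s : ℕ) :
    Fintype.card {i : Idx D.b // D.χ i.1 = μ ∧ D.b i.1 ≤ (i.2 : ℕ) + (s + 1)} =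
      Fintype.card {i : Idx D.b // D.χ i.1 = μ ∧ D.b i.1 ≤ (i.2 : ℕ) + s} +
        (Finset.univ.filter fun a => D.χ a = μ ∧ s < D.b a).card := by
  classical
  rw [Fintype.card_subtype, Fintype.card_subtype]
  have h1 : (Finset.univ.filter fun i : Idx D.b => D.χ i.1 = μ ∧ D.b i.1 ≤ (i.2 : ℕ) + (s + 1)) =
      (Finset.univ.filter fun i : Idx D.b => D.χ i.1 = μ ∧ D.b i.1 ≤ (i.2 : ℕ) + s) ∪
      (Finset.univ.filter fun i : Idx D.b => D.χ i.1 = μ ∧ D.b i.1 = (i.2 : ℕ) + (s + 1)) := by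
    ext i
    simp only [Finset.mem_filter, Finset.mem_univ, true_and, Finset.mem_union]
    constructor
    · rintro ⟨h2, h3⟩
      rcases Nat.lt_or_ge (D.b i.1) ((i.2 : ℕ) + (s + 1)) with h4 | h4
      · exact Or.inl ⟨h2, by omega⟩
      · exact Or.inr ⟨h2, by omega⟩
    · rintro (⟨h2, h3⟩ | ⟨h2, h3⟩)
      · exact ⟨h2, by omega⟩
      · exact ⟨h2, by omega⟩
  rw [h1, Finset.card_union_of_disjoint]
  · congr 1
    refine Finset.card_bij (fun i _ => i.1) ?_ ?_ ?_
    · rintro i hi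
      simp only [Finset.mem_filter, Finset.mem_univ, true_and] at hi ⊢
      exact ⟨hi.1, by omega⟩
    · rintro ⟨a, p⟩ hi ⟨a', p'⟩ hi' h
      change a = a' at h
      subst h
      simp only [Finset.mem_filter, Finset.mem_univ, true_and] at hi hi'
      congr 1
      apply Fin.ext
      omega
    · intro a ha
      simp only [Finset.mem_filter, Finset.mem_univ, true_and] at ha
      refine ⟨⟨a, ⟨D.b a - (s + 1), by omega⟩⟩, ?_, rfl⟩
      simp only [Finset.mem_filter, Finset.mem_univ, true_and]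
      exact ⟨ha.1, by omega⟩
  · rw [Finset.disjoint_left]
    intro i hi hi'
    simp only [Finset.mem_filter, Finset.mem_univ, true_and] at hi hi'
    omega

private theorem card_gt (μ : Lam) (s : ℕ) :
    (Finset.univ.filter fun a => D.χ a = μ ∧ s < D.b a).card =
      (Finset.univ.filter fun a => D.χ a = μ⁻¹ ∧ s < D.b a).card := by
  have h1 := D.card_succ μ s
  have h2 := D.card_succ μ⁻¹ s
  rw [D.card_W μ (s + 1), D.card_W μ s] at h1
  omega

private theorem card_eq (μ : Lam) (s : ℕ) :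
    (Finset.univ.filter fun a => D.χ a = μ ∧ s < D.b a).card =
      (Finset.univ.filter fun a => D.χ a = μ ∧ D.b a = s + 1).card +
      (Finset.univ.filter fun a => D.χ a = μ ∧ s + 1 < D.b a).card := by
  classical
  rw [← Finset.card_union_of_disjoint]
  · congr 1
    ext a
    simp only [Finset.mem_filter, Finset.mem_univ, true_and, Finset.mem_union]
    constructor
    · rintro ⟨h2, h3⟩
      rcases Nat.lt_or_ge (s + 1) (D.b a) with h4 | h4
      · exact Or.inr ⟨h2, h4⟩
      · exact Or.inl ⟨h2, by omega⟩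
    · rintro (⟨h2, h3⟩ | ⟨h2, h3⟩)
      · exact ⟨h2, by omega⟩
      · exact ⟨h2, by omega⟩
  · rw [Finset.disjoint_left]
    intro i hi hi'
    simp only [Finset.mem_filter, Finset.mem_univ, true_and] at hi hi'
    omega

theorem count_symm (μ : Lam) (s : ℕ) :
    (Finset.univ.filter fun a => D.χ a = μ ∧ D.b a = s).card =
      (Finset.univ.filter fun a => D.χ a = μ⁻¹ ∧ D.b a = s).card := by
  cases s with
  | zero =>
    rw [Finset.filter_false_of_mem, Finset.filter_false_of_mem]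
    · intro a _ h
      exact (D.hb a).ne' h.2
    · intro a _ h
      exact (D.hb a).ne' h.2
  | succ s =>
    have h1 := D.card_eq μ s
    have h2 := D.card_eq μ⁻¹ s
    have h3 := D.card_gt μ s
    have h4 := D.card_gt μ (s + 1)
    omega

theorem sy_size (w : ℕ → ℝ) : D.Sy fun a => w (D.b a) := by
  classical
  intro μ
  have h1 : ∀ ν : Lam, ∑ a with D.χ a = ν, w (D.b a) = ∑ s ∈ Finset.univ.image D.b,
      ((Finset.univ.filter fun a => D.χ a = ν ∧ D.b a = s).card : ℝ) * w s := by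
    intro ν
    rw [← Finset.sum_fiberwise_of_maps_to (s := Finset.univ.filter fun a => D.χ a = ν)
      (t := Finset.univ.image D.b) (g := D.b) fun a _ => Finset.mem_image_of_mem _ (Finset.mem_univ _)]
    refine Finset.sum_congr rfl fun s _ => ?_
    rw [Finset.filter_filter, Finset.sum_congr rfl fun a ha => by
      rw [(Finset.mem_filter.mp ha).2.2], Finset.sum_const, nsmul_eq_mul]
  rw [h1, h1]
  refine Finset.sum_congr rfl fun s _ => ?_
  rw [D.count_symm μ s]

theorem sy_real (w : ℕ → ℝ) : D.Sy fun a => if D.χ a ^ 2 = 1 then w (D.b a) else 0 := by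
  intro μ
  have e1 : ∀ ν : Lam, ν ^ 2 = 1 → ∑ a with D.χ a = ν, (if D.χ a ^ 2 = 1 then w (D.b a) else 0) =
      ∑ a with D.χ a = ν, w (D.b a) := by
    intro ν hν
    refine Finset.sum_congr rfl fun a ha => ?_
    rw [(Finset.mem_filter.mp ha).2, if_pos hν]
  have e2 : ∀ ν : Lam, ν ^ 2 ≠ 1 →
      ∑ a with D.χ a = ν, (if D.χ a ^ 2 = 1 then w (D.b a) else 0) = 0 := by
    intro ν hν
    refine Finset.sum_eq_zero fun a ha => ?_
    rw [(Finset.mem_filter.mp ha).2, if_neg hν]
  by_cases h : μ ^ 2 = 1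
  · have h' : (μ⁻¹) ^ 2 = 1 := by rw [inv_pow, h, inv_one]
    exact (e1 μ h).trans ((D.sy_size w μ).trans (e1 μ⁻¹ h').symm)
  · have h' : (μ⁻¹) ^ 2 ≠ 1 := by
      rw [inv_pow]
      intro h2
      exact h (inv_eq_one.mp h2)
    exact (e2 μ h).trans (e2 μ⁻¹ h').symm

end Pool.Agent.INV5.JD
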